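import Mathlib

/-!
Poisson integrals along the curves `Zt t E → E` (`t → 0`), convergence in measure to the
density of the absolutely continuous part.
(Anderson model, MP_562b47_mp.)
-/

open MeasureTheory Measure ProbabilityTheory Set Filter Topology
open scoped Real ENNReal NNReal

namespace Pool.Agent.Lib.MP_562b47_mp

/-- the standard Cauchy probability measure on `ℝ` -/
noncomputable def kap : Measure ℝ := cauchyMeasure 0 1

instance : IsProbabilityMeasure kap := by unfold kap; infer_instance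

theorem kap_eq : kap = volume.withDensity (fun x => ENNReal.ofReal (π⁻¹ * (1 + x ^ 2)⁻¹)) := by
  unfold kap
  rw [cauchyMeasure_of_scale_ne_zero 0 one_ne_zero]
  congr 1
  ext x
  rw [cauchyPDF_def, cauchyPDFReal_def]
  congr 1
  simp
  ring

theorem kap_ac : kap ≪ volume := by
  rw [kap_eq]; exact withDensity_absolutelyContinuous _ _

theorem ac_kap : (volume : Measure ℝ) ≪ kap := by
  rw [kap_eq]
  refine withDensity_absolutelyContinuous' (by fun_prop) ?_
  refine ae_of_all _ fun x => ?_
  have : 0 < π⁻¹ * (1 + x ^ 2)⁻¹ := by positivity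
  simpa using this

/-- the curve -/
noncomputable def Zt (t E : ℝ) : ℂ := ⟨E * (1 - t ^ 2) / (1 + t ^ 2 * E ^ 2), t * (1 + E ^ 2) / (1 + t ^ 2 * E ^ 2)⟩

theorem Zt_im_pos {t : ℝ} (ht : 0 < t) (E : ℝ) : 0 < (Zt t E).im := by
  show 0 < t * (1 + E ^ 2) / (1 + t ^ 2 * E ^ 2)
  positivity

/-- the Poisson kernel of the upper half plane (times `π`) -/
noncomputable def pker (z : ℂ) (l : ℝ) : ℝ := z.im / ((l - z.re) ^ 2 + z.im ^ 2)

theorem pker_nonneg {z : ℂ} (hz : 0 < z.im) (l : ℝ) : 0 ≤ pker z l := by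
  unfold pker; positivity

theorem pker_le {z : ℂ} (hz : 0 < z.im) (l : ℝ) : pker z l ≤ 1 / z.im := by
  unfold pker
  rw [div_le_div_iff₀ (by positivity) hz]
  nlinarith [sq_nonneg (l - z.re)]

theorem continuous_pker {z : ℂ} (hz : 0 < z.im) : Continuous (pker z) := by
  unfold pker
  refine Continuous.div continuous_const (by fun_prop) fun l => ?_
  positivity

/-- the Poisson integral (times `π`) -/
noncomputable def Pois (μ : Measure ℝ) (z : ℂ) : ℝ := ∫ l, pker z l ∂μ

theorem integrable_pker (μ : Measure ℝ) [IsFiniteMeasure μ] {z : ℂ} (hz : 0 < z.im) :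
    Integrable (pker z) μ := by
  refine Integrable.of_bound (C := 1 / z.im) (continuous_pker hz).aestronglyMeasurable ?_
  refine ae_of_all _ fun l => ?_
  rw [Real.norm_of_nonneg (pker_nonneg hz l)]
  exact pker_le hz l

theorem Pois_nonneg (μ : Measure ℝ) {z : ℂ} (hz : 0 < z.im) : 0 ≤ Pois μ z :=
  integral_nonneg fun l => pker_nonneg hz l

/-- the key formula for the kernel along the curve -/
theorem pker_Zt {t : ℝ} (ht : 0 < t) (E l : ℝ) :
    pker (Zt t E) l * (π⁻¹ * (1 + E ^ 2)⁻¹)
      = (1 + l ^ 2)⁻¹ * cauchyPDFReal (l * (1 - t ^ 2) / (1 + t ^ 2 * l ^ 2))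
          (Real.toNNReal (t * (1 + l ^ 2) / (1 + t ^ 2 * l ^ 2))) E := by
  have hs : 0 < t * (1 + l ^ 2) / (1 + t ^ 2 * l ^ 2) := by positivity
  rw [cauchyPDFReal_def, Real.coe_toNNReal _ hs.le]
  unfold pker Zt
  simp only
  have hA : (0:ℝ) < 1 + t ^ 2 * E ^ 2 := by positivity
  have hB : (0:ℝ) < 1 + t ^ 2 * l ^ 2 := by positivity
  have hD : 0 < (l - E) ^ 2 + t ^ 2 * (1 + l * E) ^ 2 := by
    rcases eq_or_ne l E with h | h
    · subst h
      have : 0 < 1 + l * l := by nlinarith [sq_nonneg l]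
      positivity
    · have : 0 < (l - E) ^ 2 := by
        have := sub_ne_zero.mpr h
        positivity
      positivity
  have e1 : (l - E * (1 - t ^ 2) / (1 + t ^ 2 * E ^ 2)) ^ 2 + (t * (1 + E ^ 2) / (1 + t ^ 2 * E ^ 2)) ^ 2
      = ((l - E) ^ 2 + t ^ 2 * (1 + l * E) ^ 2) / (1 + t ^ 2 * E ^ 2) := by
    field_simp
    ring
  have e2 : (E - l * (1 - t ^ 2) / (1 + t ^ 2 * l ^ 2)) ^ 2 + (t * (1 + l ^ 2) / (1 + t ^ 2 * l ^ 2)) ^ 2
      = ((l - E) ^ 2 + t ^ 2 * (1 + l * E) ^ 2) / (1 + t ^ 2 * l ^ 2) := by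
    field_simp
    ring
  rw [e1, e2]
  field_simp

theorem lintegral_pker_kap {t : ℝ} (ht : 0 < t) (l : ℝ) :
    ∫⁻ E, ENNReal.ofReal (pker (Zt t E) l) ∂kap ≤ 1 := by
  have hs : 0 < t * (1 + l ^ 2) / (1 + t ^ 2 * l ^ 2) := by positivity
  have hs' : Real.toNNReal (t * (1 + l ^ 2) / (1 + t ^ 2 * l ^ 2)) ≠ 0 := by
    simpa using hs
  have hmeas : Measurable (fun E => pker (Zt t E) l) := by
    unfold pker Zt
    simp only
    fun_prop
  rw [kap_eq, lintegral_withDensity_eq_lintegral_mul _ (by fun_prop) (by fun_prop)]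
  have : ∀ E : ℝ, ((fun x : ℝ => ENNReal.ofReal (π⁻¹ * (1 + x ^ 2)⁻¹)) *
      fun E => ENNReal.ofReal (pker (Zt t E) l)) E =
      ENNReal.ofReal ((1 + l ^ 2)⁻¹) * cauchyPDF (l * (1 - t ^ 2) / (1 + t ^ 2 * l ^ 2))
          (Real.toNNReal (t * (1 + l ^ 2) / (1 + t ^ 2 * l ^ 2))) E := by
    intro E
    simp only [Pi.mul_apply]
    rw [← ENNReal.ofReal_mul (by positivity), mul_comm (π⁻¹ * _), pker_Zt ht,
      ENNReal.ofReal_mul (by positivity), cauchyPDF_def]
  rw [lintegral_congr this, lintegral_const_mul _ (by fun_prop), lintegral_cauchyPDF_eq_one _ hs',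
    mul_one]
  rw [← ENNReal.ofReal_one]
  apply ENNReal.ofReal_le_ofReal
  rw [inv_le_one_iff₀]
  right
  nlinarith [sq_nonneg l]

theorem measurable_pker_Zt (t : ℝ) : Measurable (fun p : ℝ × ℝ => pker (Zt t p.1) p.2) := by
  unfold pker Zt
  simp only
  fun_prop

theorem lintegral_Pois_le (μ : Measure ℝ) [SFinite μ] {t : ℝ} (ht : 0 < t) :
    ∫⁻ E, (∫⁻ l, ENNReal.ofReal (pker (Zt t E) l) ∂μ) ∂kap ≤ μ univ := by
  rw [lintegral_lintegral_swap]
  · calc ∫⁻ l, (∫⁻ E, ENNReal.ofReal (pker (Zt t E) l) ∂kap) ∂μ ≤ ∫⁻ l, 1 ∂μ :=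
          lintegral_mono fun l => lintegral_pker_kap ht l
      _ = μ univ := by simp
  · exact (measurable_pker_Zt t).ennreal_ofReal.aemeasurable

theorem ofReal_Pois (μ : Measure ℝ) [IsFiniteMeasure μ] {z : ℂ} (hz : 0 < z.im) :
    ENNReal.ofReal (Pois μ z) = ∫⁻ l, ENNReal.ofReal (pker z l) ∂μ := by
  unfold Pois
  rw [ofReal_integral_eq_lintegral_ofReal (integrable_pker μ hz)
    (ae_of_all _ fun l => pker_nonneg hz l)]

theorem measurable_Pois (μ : Measure ℝ) [IsFiniteMeasure μ] (t : ℝ) :
    Measurable (fun E => Pois μ (Zt t E)) := by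
  unfold Pois
  have h : StronglyMeasurable (Function.uncurry fun E l => pker (Zt t E) l) :=
    (measurable_pker_Zt t).stronglyMeasurable
  exact h.integral_prod_right.measurable

theorem integrable_Pois (μ : Measure ℝ) [IsFiniteMeasure μ] {t : ℝ} (ht : 0 < t) :
    Integrable (fun E => Pois μ (Zt t E)) kap := by
  refine ⟨(measurable_Pois μ t).aestronglyMeasurable, ?_⟩
  have : ∫⁻ E, ‖Pois μ (Zt t E)‖ₑ ∂kap ≤ μ univ := by
    refine le_trans (le_of_eq ?_) (lintegral_Pois_le μ ht)
    refine lintegral_congr fun E => ?_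
    rw [← ofReal_Pois μ (Zt_im_pos ht E), Real.enorm_eq_ofReal (Pois_nonneg μ (Zt_im_pos ht E))]
  exact lt_of_le_of_lt this (measure_lt_top _ _)

theorem integral_Pois_le (μ : Measure ℝ) [IsFiniteMeasure μ] {t : ℝ} (ht : 0 < t) :
    ∫ E, Pois μ (Zt t E) ∂kap ≤ μ.real univ := by
  rw [integral_eq_lintegral_of_nonneg_ae (ae_of_all _ fun E => Pois_nonneg μ (Zt_im_pos ht E))
    (measurable_Pois μ t).aestronglyMeasurable]
  have h := lintegral_Pois_le μ ht
  have h2 : ∫⁻ E, ENNReal.ofReal (Pois μ (Zt t E)) ∂kap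
      = ∫⁻ E, (∫⁻ l, ENNReal.ofReal (pker (Zt t E) l) ∂μ) ∂kap :=
    lintegral_congr fun E => ofReal_Pois μ (Zt_im_pos ht E)
  rw [h2]
  exact ENNReal.toReal_mono (measure_ne_top _ _) h

theorem tendsto_Zt_re (E : ℝ) : Tendsto (fun t => (Zt t E).re) (𝓝[>] 0) (𝓝 E) := by
  have h : Tendsto (fun t : ℝ => E * (1 - t ^ 2) / (1 + t ^ 2 * E ^ 2)) (𝓝 0)
      (𝓝 (E * (1 - (0:ℝ) ^ 2) / (1 + (0:ℝ) ^ 2 * E ^ 2))) := by
    apply Continuous.tendsto
    refine Continuous.div (by fun_prop) (by fun_prop) fun t => by positivity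
  simp at h
  refine tendsto_nhdsWithin_of_tendsto_nhds ?_
  simpa [Zt] using h

theorem tendsto_Zt_im (E : ℝ) : Tendsto (fun t => (Zt t E).im) (𝓝[>] 0) (𝓝 0) := by
  have h : Tendsto (fun t : ℝ => t * (1 + E ^ 2) / (1 + t ^ 2 * E ^ 2)) (𝓝 0)
      (𝓝 ((0:ℝ) * (1 + E ^ 2) / (1 + (0:ℝ) ^ 2 * E ^ 2))) := by
    apply Continuous.tendsto
    refine Continuous.div (by fun_prop) (by fun_prop) fun t => by positivity
  simp at h
  refine tendsto_nhdsWithin_of_tendsto_nhds ?_
  simpa [Zt] using h

/-- the Poisson integral tends to `0` off a closed set carrying the measure -/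
theorem Pois_tendsto_zero (μ : Measure ℝ) [IsFiniteMeasure μ] {K : Set ℝ} (hK : IsClosed K)
    (hμ : μ Kᶜ = 0) {E : ℝ} (hE : E ∉ K) :
    Tendsto (fun t => Pois μ (Zt t E)) (𝓝[>] 0) (𝓝 0) := by
  obtain ⟨δ, hδ, hball⟩ := Metric.isOpen_iff.mp hK.isOpen_compl E hE
  have hre : ∀ᶠ t in 𝓝[>] (0:ℝ), |(Zt t E).re - E| < δ / 2 := by
    have := (tendsto_Zt_re E).eventually (Metric.ball_mem_nhds E (half_pos hδ))
    filter_upwards [this] with t ht
    simpa [Real.dist_eq] using ht
  have hbound : ∀ᶠ t in 𝓝[>] (0:ℝ), Pois μ (Zt t E) ≤ (Zt t E).im * (4 / δ ^ 2 * μ.real univ) := by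
    filter_upwards [hre, self_mem_nhdsWithin] with t ht ht0
    have ht0 : 0 < t := ht0
    have him := Zt_im_pos ht0 E
    have hK' : ∀ᵐ l ∂μ, l ∈ K := by
      rw [ae_iff]; exact hμ
    have h1 : Pois μ (Zt t E) ≤ ∫ l, (Zt t E).im * (4 / δ ^ 2) ∂μ := by
      refine integral_mono_ae (integrable_pker μ him) (integrable_const _) ?_
      filter_upwards [hK'] with l hl
      have hd : δ ≤ |l - E| := by
        by_contra hcon
        push Not at hcon
        have : l ∈ Metric.ball E δ := by simpa [Real.dist_eq] using hcon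
        exact hball this hl
      have hd2 : δ / 2 ≤ |l - (Zt t E).re| := by
        have : |l - E| ≤ |l - (Zt t E).re| + |(Zt t E).re - E| := abs_sub_le _ _ _
        linarith
      have hd3 : (δ / 2) ^ 2 ≤ (l - (Zt t E).re) ^ 2 := by
        rw [← sq_abs (l - (Zt t E).re)]
        exact pow_le_pow_left₀ (by positivity) hd2 2
      show (Zt t E).im / ((l - (Zt t E).re) ^ 2 + (Zt t E).im ^ 2) ≤ (Zt t E).im * (4 / δ ^ 2)
      rw [div_eq_mul_inv]
      refine mul_le_mul_of_nonneg_left ?_ him.le
      rw [inv_eq_one_div, div_le_div_iff₀ (by positivity) (by positivity)]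
      nlinarith [sq_nonneg (Zt t E).im]
    refine h1.trans (le_of_eq ?_)
    rw [integral_const, smul_eq_mul]
    ring
  have hlim : Tendsto (fun t => (Zt t E).im * (4 / δ ^ 2 * μ.real univ)) (𝓝[>] 0) (𝓝 0) := by
    simpa using (tendsto_Zt_im E).mul_const (4 / δ ^ 2 * μ.real univ)
  refine tendsto_of_tendsto_of_tendsto_of_le_of_le' tendsto_const_nhds hlim ?_ hbound
  filter_upwards [self_mem_nhdsWithin] with t ht0
  exact Pois_nonneg μ (Zt_im_pos ht0 E)

/-- Poisson integral of a bounded continuous function -/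
theorem Pois_cont_tendsto {h : ℝ → ℝ} (hc : Continuous h) {C : ℝ} (hb : ∀ x, |h x| ≤ C) (E : ℝ) :
    Tendsto (fun t => ∫ l, pker (Zt t E) l * h l) (𝓝[>] 0) (𝓝 (π * h E)) := by
  have key : ∀ z : ℂ, 0 < z.im → ∫ l, pker z l * h l = ∫ x, (1 + x ^ 2)⁻¹ * h (z.re + z.im * x) := by
    intro z hz
    have e1 : ∫ l, pker z l * h l = ∫ l, pker z (l + z.re) * h (l + z.re) :=
      (integral_add_right_eq_self (fun l => pker z l * h l) z.re).symm
    have e2 : ∫ l, pker z (l + z.re) * h (l + z.re)
        = |z.im| • ∫ x, pker z (z.im * x + z.re) * h (z.im * x + z.re) := by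
      have := Measure.integral_comp_mul_left (fun l => pker z (l + z.re) * h (l + z.re)) z.im
      rw [this, abs_inv, smul_smul, mul_inv_cancel₀ (by positivity), one_smul]
    rw [e1, e2, ← integral_smul]
    refine integral_congr_ae (ae_of_all _ fun x => ?_)
    simp only [smul_eq_mul, abs_of_pos hz]
    unfold pker
    rw [add_sub_cancel_right, add_comm (z.im * x) z.re]
    field_simp
    ring
  have h2 : Tendsto (fun t => ∫ x, (1 + x ^ 2)⁻¹ * h ((Zt t E).re + (Zt t E).im * x)) (𝓝[>] 0)
      (𝓝 (∫ x : ℝ, (1 + x ^ 2)⁻¹ * h E)) := by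
    refine tendsto_integral_filter_of_dominated_convergence (fun x => (1 + x ^ 2)⁻¹ * C) ?_ ?_ ?_ ?_
    · refine Eventually.of_forall fun t => ?_
      have : Continuous (fun x : ℝ => (1 + x ^ 2)⁻¹ * h ((Zt t E).re + (Zt t E).im * x)) := by
        refine Continuous.mul (Continuous.inv₀ (by fun_prop) fun x => by positivity) (by fun_prop)
      exact this.aestronglyMeasurable
    · refine Eventually.of_forall fun t => ae_of_all _ fun x => ?_
      rw [norm_mul, Real.norm_of_nonneg (by positivity : (0:ℝ) ≤ (1 + x ^ 2)⁻¹)]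
      exact mul_le_mul_of_nonneg_left (hb _) (by positivity)
    · exact integrable_inv_one_add_sq.mul_const C
    · refine ae_of_all _ fun x => ?_
      refine Tendsto.const_mul _ ?_
      refine (hc.tendsto E).comp ?_
      have := (tendsto_Zt_re E).add ((tendsto_Zt_im E).mul_const x)
      simpa using this
  have h3 : (∫ x : ℝ, (1 + x ^ 2)⁻¹ * h E) = π * h E := by
    rw [integral_mul_const, integral_univ_inv_one_add_sq]
  rw [h3] at h2
  refine h2.congr' ?_
  filter_upwards [self_mem_nhdsWithin] with t ht0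
  exact (key _ (Zt_im_pos ht0 E)).symm

/-- `π` times the density of the absolutely continuous part -/
noncomputable def Dens (μ : Measure ℝ) (E : ℝ) : ℝ := π * (μ.rnDeriv volume E).toReal

theorem Dens_nonneg (μ : Measure ℝ) (E : ℝ) : 0 ≤ Dens μ E := by
  unfold Dens; positivity

theorem measurable_Dens (μ : Measure ℝ) : Measurable (Dens μ) := by
  unfold Dens
  exact ((measurable_rnDeriv μ volume).ennreal_toReal).const_mul π

theorem Pois_add (μ ν : Measure ℝ) [IsFiniteMeasure μ] [IsFiniteMeasure ν] {z : ℂ} (hz : 0 < z.im) :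
    Pois (μ + ν) z = Pois μ z + Pois ν z := by
  unfold Pois
  rw [integral_add_measure (integrable_pker μ hz) (integrable_pker ν hz)]

theorem integrable_kap_of_integrable {f : ℝ → ℝ} (hf : Integrable f volume) :
    Integrable f kap := by
  rw [kap_eq]
  rw [integrable_withDensity_iff (by fun_prop) (ae_of_all _ fun x => ENNReal.ofReal_lt_top)]
  have h1 : ∀ x : ℝ, (ENNReal.ofReal (π⁻¹ * (1 + x ^ 2)⁻¹)).toReal = π⁻¹ * (1 + x ^ 2)⁻¹ := fun x =>
    ENNReal.toReal_ofReal (by positivity)
  simp only [h1]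
  refine Integrable.mul_bdd (c := π⁻¹) hf ?_ ?_
  · have : Continuous (fun x : ℝ => π⁻¹ * (1 + x ^ 2)⁻¹) := by
      refine Continuous.mul continuous_const (Continuous.inv₀ (by fun_prop) fun x => by positivity)
    exact this.aestronglyMeasurable
  · refine ae_of_all _ fun x => ?_
    rw [Real.norm_of_nonneg (by positivity)]
    have h2 : (1 + x ^ 2)⁻¹ ≤ 1 := by
      rw [inv_le_one_iff₀]; right; nlinarith [sq_nonneg x]
    calc π⁻¹ * (1 + x ^ 2)⁻¹ ≤ π⁻¹ * 1 := mul_le_mul_of_nonneg_left h2 (by positivity)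
      _ = π⁻¹ := mul_one _

theorem integral_kap_le {f : ℝ → ℝ} (hf : Integrable f volume) (h0 : ∀ x, 0 ≤ f x) :
    π * ∫ x, f x ∂kap ≤ ∫ x, f x := by
  rw [← integral_const_mul]
  rw [kap_eq]
  rw [integral_withDensity_eq_integral_toReal_smul (by fun_prop)
    (ae_of_all _ fun x => ENNReal.ofReal_lt_top)]
  have h1 : ∀ x : ℝ, (ENNReal.ofReal (π⁻¹ * (1 + x ^ 2)⁻¹)).toReal = π⁻¹ * (1 + x ^ 2)⁻¹ := fun x =>
    ENNReal.toReal_ofReal (by positivity)
  simp only [h1, smul_eq_mul]
  refine integral_mono_of_nonneg (ae_of_all _ fun x => ?_) hf (ae_of_all _ fun x => ?_)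
  · have := h0 x
    simp only [Pi.zero_apply]
    positivity
  · have h2 : (1 + x ^ 2)⁻¹ ≤ 1 := by
      rw [inv_le_one_iff₀]; right; nlinarith [sq_nonneg x]
    have h3 := h0 x
    have h4 : (π⁻¹ * (1 + x ^ 2)⁻¹ * (π * f x)) = (1 + x ^ 2)⁻¹ * f x := by
      field_simp
    simp only
    rw [h4]
    nlinarith

theorem Pois_withDensity {f : ℝ → ℝ} (hf : Integrable f volume) (hm : Measurable f)
    (h0 : ∀ x, 0 ≤ f x) (z : ℂ) :
    Pois (volume.withDensity fun x => ENNReal.ofReal (f x)) z = ∫ l, pker z l * f l := by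
  unfold Pois
  rw [integral_withDensity_eq_integral_toReal_smul (by fun_prop)
    (ae_of_all _ fun x => ENNReal.ofReal_lt_top)]
  refine integral_congr_ae (ae_of_all _ fun x => ?_)
  simp only [ENNReal.toReal_ofReal (h0 x), smul_eq_mul]
  ring

theorem min_one_add_le {a b : ℝ} (hb : 0 ≤ b) : min 1 (a + b) ≤ min 1 a + b := by
  rcases le_total 1 a with h | h
  · rw [min_eq_left h]; exact (min_le_left _ _).trans (by linarith)
  · rw [min_eq_right h]; exact min_le_right _ _

theorem min_one_add_le' {a b : ℝ} (ha : 0 ≤ a) (hb : 0 ≤ b) :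
    min 1 (a + b) ≤ min 1 a + min 1 b := by
  rcases le_total 1 a with h | h
  · rw [min_eq_left h]
    have : 0 ≤ min 1 b := le_min zero_le_one hb
    exact (min_le_left _ _).trans (by linarith)
  · rcases le_total 1 b with h' | h'
    · rw [min_eq_left h']
      have : 0 ≤ min 1 a := le_min zero_le_one ha
      exact (min_le_left _ _).trans (by linarith)
    · rw [min_eq_right h, min_eq_right h']; exact min_le_right _ _

theorem integrable_min_one {f : ℝ → ℝ} (hf : Measurable f) (h0 : ∀ x, 0 ≤ f x) :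
    Integrable (fun x => min 1 (f x)) kap := by
  refine Integrable.of_bound (C := 1) (measurable_const.min hf).aestronglyMeasurable ?_
  refine ae_of_all _ fun x => ?_
  rw [Real.norm_of_nonneg (le_min zero_le_one (h0 x))]
  exact min_le_left _ _

/-- dominated convergence for `min 1` -/
theorem tendsto_integral_min_one {F : ℝ → ℝ → ℝ} (hF : ∀ t, 0 < t → Measurable (F t))
    (h0 : ∀ t, 0 < t → ∀ x, 0 ≤ F t x)
    (hlim : ∀ᵐ x ∂kap, Tendsto (fun t => F t x) (𝓝[>] 0) (𝓝 0)) :
    Tendsto (fun t => ∫ x, min 1 (F t x) ∂kap) (𝓝[>] 0) (𝓝 0) := by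
  have h : Tendsto (fun t => ∫ x, min 1 (F t x) ∂kap) (𝓝[>] 0) (𝓝 (∫ x : ℝ, (0:ℝ) ∂kap)) := by
    refine tendsto_integral_filter_of_dominated_convergence (fun _ => 1) ?_ ?_ ?_ ?_
    · filter_upwards [self_mem_nhdsWithin] with t ht
      exact (measurable_const.min (hF t ht)).aestronglyMeasurable
    · filter_upwards [self_mem_nhdsWithin] with t ht
      refine ae_of_all _ fun x => ?_
      rw [Real.norm_of_nonneg (le_min zero_le_one (h0 t ht x))]
      exact min_le_left _ _
    · exact integrable_const _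
    · filter_upwards [hlim] with x hx
      have : Tendsto (fun t => min 1 (F t x)) (𝓝[>] 0) (𝓝 (min 1 0)) := tendsto_const_nhds.min hx
      simpa using this
  simpa using h

/-- Along the curves `Zt t E`, the Poisson integral of a finite measure converges in measure to
`π` times the density of its absolutely continuous part. -/
theorem pois_tendsto (μ : Measure ℝ) [IsFiniteMeasure μ] :
    Tendsto (fun t => ∫ E, min 1 |Pois μ (Zt t E) - Dens μ E| ∂kap) (𝓝[>] 0) (𝓝 0) := by
  have hnn : ∀ t, 0 ≤ ∫ E, min 1 |Pois μ (Zt t E) - Dens μ E| ∂kap := fun t =>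
    integral_nonneg fun E => le_min zero_le_one (abs_nonneg _)
  rw [tendsto_order]
  refine ⟨fun a ha => Eventually.of_forall fun t => lt_of_lt_of_le ha (hnn t), ?_⟩
  intro ε hε
  set η := ε / 6 with hη
  have hηpos : 0 < η := by positivity
  set μs := μ.singularPart volume with hμs
  set f : ℝ → ℝ := fun x => (μ.rnDeriv volume x).toReal with hf
  have hfm : Measurable f := (measurable_rnDeriv μ volume).ennreal_toReal
  have hfi : Integrable f volume := integrable_toReal_rnDeriv
  have hf0 : ∀ x, 0 ≤ f x := fun x => ENNReal.toReal_nonneg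
  -- the singular part is carried by a null set
  obtain ⟨s, hs, hs1, hs2⟩ := mutuallySingular_singularPart μ volume
  obtain ⟨K, hKs, hKc, hKlt⟩ := hs.compl.exists_isCompact_diff_lt (μ := μs) (measure_ne_top _ _)
    (ε := ENNReal.ofReal η) (by positivity)
  have hKcl : IsClosed K := hKc.isClosed
  have hKm : MeasurableSet K := hKcl.measurableSet
  have hvK : volume K = 0 := measure_mono_null hKs hs2
  have hμsK : (μs.restrict Kᶜ).real univ ≤ η := by
    have h1 : μs Kᶜ ≤ ENNReal.ofReal η := by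
      have : Kᶜ ⊆ s ∪ (sᶜ \ K) := by
        intro x hx
        by_cases h : x ∈ s
        · exact Or.inl h
        · exact Or.inr ⟨h, hx⟩
      calc μs Kᶜ ≤ μs (s ∪ (sᶜ \ K)) := measure_mono this
        _ ≤ μs s + μs (sᶜ \ K) := measure_union_le _ _
        _ ≤ ENNReal.ofReal η := by rw [hs1, zero_add]; exact hKlt.le
    rw [measureReal_def, Measure.restrict_apply_univ]
    exact ENNReal.toReal_le_of_le_ofReal hηpos.le h1
  obtain ⟨h, hhc, hhle, hhcont, hhi⟩ := hfi.exists_hasCompactSupport_integral_sub_le hηpos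
  obtain ⟨C, hC⟩ := hhc.exists_bound_of_continuous hhcont
  -- the error density
  set r : ℝ → ℝ := fun x => |f x - h x| with hr
  have hrm : Measurable r := (hfm.sub hhcont.measurable).abs
  have hri : Integrable r volume := (hfi.sub hhi).abs
  have hr0 : ∀ x, 0 ≤ r x := fun x => abs_nonneg _
  have hrle : ∫ x, r x ≤ η := by simpa [hr, Real.norm_eq_abs] using hhle
  set ρ : Measure ℝ := volume.withDensity fun x => ENNReal.ofReal (r x) with hρ
  have hρfin : IsFiniteMeasure ρ := isFiniteMeasure_withDensity_ofReal hri.2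
  have hρreal : ρ.real univ ≤ η := by
    rw [measureReal_def, hρ, withDensity_apply _ MeasurableSet.univ, Measure.restrict_univ,
      ← ofReal_integral_eq_lintegral_ofReal hri (ae_of_all _ hr0),
      ENNReal.toReal_ofReal (integral_nonneg hr0)]
    exact hrle
  -- pointwise estimate
  have hpt : ∀ t, 0 < t → ∀ E, min 1 |Pois μ (Zt t E) - Dens μ E| ≤
      min 1 (Pois (μs.restrict K) (Zt t E)) + min 1 |(∫ l, pker (Zt t E) l * h l) - π * h E|
       + (Pois (μs.restrict Kᶜ) (Zt t E) + Pois ρ (Zt t E) + π * r E) := by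
    intro t ht E
    have hz := Zt_im_pos ht E
    set z := Zt t E
    have hdec : Pois μ z = Pois (μs.restrict K) z + Pois (μs.restrict Kᶜ) z
        + ∫ l, pker z l * f l := by
      have e1 : μ = (μs.restrict K + μs.restrict Kᶜ)
          + volume.withDensity (fun x => ENNReal.ofReal (f x)) := by
        rw [Measure.restrict_add_restrict_compl hKm]
        have e2 : volume.withDensity (fun x => ENNReal.ofReal (f x))
            = volume.withDensity (μ.rnDeriv volume) := by
          refine withDensity_congr_ae ?_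
          filter_upwards [rnDeriv_lt_top μ volume] with x hx
          simp only [hf]
          exact ENNReal.ofReal_toReal hx.ne
        rw [e2]
        exact haveLebesgueDecomposition_add μ volume
      have : IsFiniteMeasure (volume.withDensity (fun x => ENNReal.ofReal (f x))) :=
        isFiniteMeasure_withDensity_ofReal hfi.2
      calc Pois μ z = Pois ((μs.restrict K + μs.restrict Kᶜ)
          + volume.withDensity (fun x => ENNReal.ofReal (f x))) z := by rw [← e1]
        _ = _ := by
          rw [Pois_add _ _ hz, Pois_add _ _ hz, Pois_withDensity hfi hfm hf0]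
    have hint1 : Integrable (fun l => pker z l * f l) volume := by
      refine hfi.bdd_mul (c := 1 / z.im) (continuous_pker hz).aestronglyMeasurable ?_
      refine ae_of_all _ fun l => ?_
      rw [Real.norm_of_nonneg (pker_nonneg hz l)]; exact pker_le hz l
    have hint2 : Integrable (fun l => pker z l * h l) volume := by
      refine hhi.bdd_mul (c := 1 / z.im) (continuous_pker hz).aestronglyMeasurable ?_
      refine ae_of_all _ fun l => ?_
      rw [Real.norm_of_nonneg (pker_nonneg hz l)]; exact pker_le hz l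
    have hint3 : Integrable (fun l => pker z l * r l) volume := by
      refine hri.bdd_mul (c := 1 / z.im) (continuous_pker hz).aestronglyMeasurable ?_
      refine ae_of_all _ fun l => ?_
      rw [Real.norm_of_nonneg (pker_nonneg hz l)]; exact pker_le hz l
    have hdiff : |(∫ l, pker z l * f l) - ∫ l, pker z l * h l| ≤ Pois ρ z := by
      rw [hρ, Pois_withDensity hri hrm hr0, ← integral_sub hint1 hint2]
      refine (abs_integral_le_integral_abs).trans (integral_mono (hint1.sub hint2).abs hint3 ?_)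
      intro l
      simp only
      rw [← mul_sub, abs_mul, abs_of_nonneg (pker_nonneg hz l)]
    have hA := Pois_nonneg (μs.restrict K) hz
    have hB := Pois_nonneg (μs.restrict Kᶜ) hz
    have hCc := Pois_nonneg ρ hz
    have hmain : |Pois μ z - Dens μ E| ≤ (Pois (μs.restrict K) z
        + |(∫ l, pker z l * h l) - π * h E|) + (Pois (μs.restrict Kᶜ) z + Pois ρ z + π * r E) := by
      have e3 : Pois μ z - Dens μ E = Pois (μs.restrict K) z + Pois (μs.restrict Kᶜ) z
          + ((∫ l, pker z l * f l) - ∫ l, pker z l * h l) + ((∫ l, pker z l * h l) - π * h E)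
          + π * (h E - f E) := by
        rw [hdec]
        have : Dens μ E = π * f E := rfl
        rw [this]; ring
      have e4 : |π * (h E - f E)| = π * r E := by
        rw [abs_mul, abs_of_pos Real.pi_pos, abs_sub_comm]
      rw [e3]
      refine (abs_add_le _ _).trans ?_
      rw [e4]
      refine le_trans (add_le_add_left ((abs_add_le _ _).trans (add_le_add_left
        ((abs_add_le _ _).trans (add_le_add_left (abs_add_le _ _) _)) _)) _) ?_
      rw [abs_of_nonneg hA, abs_of_nonneg hB]
      linarith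
    have hnonneg : 0 ≤ Pois (μs.restrict Kᶜ) z + Pois ρ z + π * r E := by
      have := hr0 E
      positivity
    calc min 1 |Pois μ z - Dens μ E| ≤ min 1 ((Pois (μs.restrict K) z
        + |(∫ l, pker z l * h l) - π * h E|) + (Pois (μs.restrict Kᶜ) z + Pois ρ z + π * r E)) :=
          min_le_min_left _ hmain
      _ ≤ min 1 (Pois (μs.restrict K) z + |(∫ l, pker z l * h l) - π * h E|)
          + (Pois (μs.restrict Kᶜ) z + Pois ρ z + π * r E) := min_one_add_le hnonneg
      _ ≤ _ := by
        gcongr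
        exact min_one_add_le' hA (abs_nonneg _)
  -- limits of the two good terms
  have hmeas2 : ∀ t, 0 < t → Measurable (fun E => |(∫ l, pker (Zt t E) l * h l) - π * h E|) := by
    intro t ht
    have h1 : Measurable (fun E => ∫ l, pker (Zt t E) l * h l) := by
      have : StronglyMeasurable (Function.uncurry fun E l => pker (Zt t E) l * h l) :=
        ((measurable_pker_Zt t).mul (hhcont.measurable.comp measurable_snd)).stronglyMeasurable
      exact this.integral_prod_right.measurable
    exact (h1.sub (hhcont.measurable.const_mul π)).abs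
  have hlim1 : Tendsto (fun t => ∫ E, min 1 (Pois (μs.restrict K) (Zt t E)) ∂kap) (𝓝[>] 0) (𝓝 0) := by
    refine tendsto_integral_min_one (fun t _ => measurable_Pois _ t)
      (fun t ht x => Pois_nonneg _ (Zt_im_pos ht x)) ?_
    have hK0 : kap K = 0 := kap_ac hvK
    have : ∀ᵐ x ∂kap, x ∉ K := by
      rw [ae_iff]; simpa using hK0
    filter_upwards [this] with x hx
    refine Pois_tendsto_zero _ hKcl ?_ hx
    rw [Measure.restrict_apply hKm.compl]
    simp
  have hlim2 : Tendsto (fun t => ∫ E, min 1 |(∫ l, pker (Zt t E) l * h l) - π * h E| ∂kap)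
      (𝓝[>] 0) (𝓝 0) := by
    refine tendsto_integral_min_one hmeas2 (fun t ht x => abs_nonneg _) ?_
    refine ae_of_all _ fun x => ?_
    have := Pois_cont_tendsto hhcont (C := C) (fun x => by simpa using hC x) x
    have h2 := (this.sub_const (π * h x)).abs
    simpa using h2
  have hev1 := (hlim1.eventually (gt_mem_nhds hηpos))
  have hev2 := (hlim2.eventually (gt_mem_nhds hηpos))
  filter_upwards [hev1, hev2, self_mem_nhdsWithin] with t h1 h2 ht
  have ht : 0 < t := ht
  have hI1 : Integrable (fun E => min 1 (Pois (μs.restrict K) (Zt t E))) kap :=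
    integrable_min_one (measurable_Pois _ t) (fun x => Pois_nonneg _ (Zt_im_pos ht x))
  have hI2 : Integrable (fun E => min 1 |(∫ l, pker (Zt t E) l * h l) - π * h E|) kap :=
    integrable_min_one (hmeas2 t ht) (fun x => abs_nonneg _)
  have hI3 := integrable_Pois (μs.restrict Kᶜ) ht
  have hI4 := integrable_Pois ρ ht
  have hI5 : Integrable (fun E => π * r E) kap := (integrable_kap_of_integrable hri).const_mul π
  have hIlhs : Integrable (fun E => min 1 |Pois μ (Zt t E) - Dens μ E|) kap :=
    integrable_min_one (((measurable_Pois μ t).sub (measurable_Dens μ)).abs) (fun x => abs_nonneg _)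
  calc ∫ E, min 1 |Pois μ (Zt t E) - Dens μ E| ∂kap
      ≤ ∫ E, (min 1 (Pois (μs.restrict K) (Zt t E)) + min 1 |(∫ l, pker (Zt t E) l * h l) - π * h E|
       + (Pois (μs.restrict Kᶜ) (Zt t E) + Pois ρ (Zt t E) + π * r E)) ∂kap :=
        integral_mono hIlhs ((hI1.add hI2).add ((hI3.add hI4).add hI5)) (fun E => hpt t ht E)
    _ = (∫ E, min 1 (Pois (μs.restrict K) (Zt t E)) ∂kap)
        + (∫ E, min 1 |(∫ l, pker (Zt t E) l * h l) - π * h E| ∂kap)
        + ((∫ E, Pois (μs.restrict Kᶜ) (Zt t E) ∂kap) + (∫ E, Pois ρ (Zt t E) ∂kap)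
          + ∫ E, π * r E ∂kap) := by
        have g1 := integral_add (hI1.add hI2) ((hI3.add hI4).add hI5)
        have g2 := integral_add hI1 hI2
        have g3 := integral_add (hI3.add hI4) hI5
        have g4 := integral_add hI3 hI4
        simp only [Pi.add_apply] at g1 g2 g3 g4
        rw [g1, g2, g3, g4]
    _ ≤ η + η + (η + η + η) := by
        have e1 := integral_Pois_le (μs.restrict Kᶜ) ht
        have e2 := integral_Pois_le ρ ht
        have e3 : ∫ E, π * r E ∂kap ≤ η := by
          rw [integral_const_mul]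
          exact (integral_kap_le hri hr0).trans hrle
        have : (∫ E, min 1 (Pois (μs.restrict K) (Zt t E)) ∂kap) ≤ η := h1.le
        have : (∫ E, min 1 |(∫ l, pker (Zt t E) l * h l) - π * h E| ∂kap) ≤ η := h2.le
        linarith
    _ < ε := by rw [hη]; linarith

end Pool.Agent.Lib.MP_562b47_mp
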