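import Pool.Agent.Lib.MP_562b47_mp.Green
import Pool.Agent.Lib.MP_562b47_mp.Poisson

/-!
Scalar spectral measures of a bounded self-adjoint operator.
(Anderson model, MP_562b47_mp.)
-/

open MeasureTheory Filter Topology Complex
open scoped InnerProductSpace CompactlySupported BoundedContinuousFunction

namespace Pool.Agent.Lib.MP_562b47_mp

section

variable {E : Type*} [NormedAddCommGroup E] [InnerProductSpace ℂ E] [CompleteSpace E]

/-- `μ` is the (scalar) spectral measure of `u` for the bounded self-adjoint operator `H`. -/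
def IsSpec (H : E →L[ℂ] E) (u : E) (μ : Measure ℝ) : Prop :=
  ∀ f : BoundedContinuousFunction ℝ ℝ, ((∫ x, f x ∂μ : ℝ) : ℂ) = ⟪u, cfc (⇑f) H u⟫_ℂ

theorem inner_sa_comm {T : E →L[ℂ] E} (hT : IsSelfAdjoint T) (u v : E) :
    ⟪T u, v⟫_ℂ = ⟪u, T v⟫_ℂ := inner_H_comm hT u v

theorem im_inner_sa {T : E →L[ℂ] E} (hT : IsSelfAdjoint T) (u : E) :
    (⟪u, T u⟫_ℂ).im = 0 := by
  have h1 : ⟪T u, u⟫_ℂ = (starRingEnd ℂ) ⟪u, T u⟫_ℂ := (inner_conj_symm _ _).symm
  rw [inner_sa_comm hT] at h1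
  have h2 := congrArg Complex.im h1
  simp only [Complex.conj_im] at h2
  linarith

theorem inner_sa_sq {T : E →L[ℂ] E} (hT : IsSelfAdjoint T) (u : E) :
    ⟪u, (T * T) u⟫_ℂ = ((‖T u‖ ^ 2 : ℝ) : ℂ) := by
  rw [ContinuousLinearMap.mul_apply, ← inner_sa_comm hT, inner_self_eq_norm_sq_to_K]
  simp

theorem exists_isSpec {H : E →L[ℂ] E} (hH : IsSelfAdjoint H) (u : E) :
    ∃ μ : Measure ℝ, IsFiniteMeasure μ ∧ IsSpec H u μ := by
  have hsa : ∀ g : C(spectrum ℝ H, ℝ), IsSelfAdjoint (cfcHom (R := ℝ) hH g) := by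
    intro g
    exact cfcHom_predicate hH g
  have hcpt : CompactSpace (spectrum ℝ H) := isCompact_iff_compactSpace.mp (spectrum.isCompact H)
  let Λ : C_c(spectrum ℝ H, ℝ) →ₚ[ℝ] ℝ :=
  { toFun := fun g => (⟪u, cfcHom (R := ℝ) hH g.toContinuousMap u⟫_ℂ).re
    map_add' := by
      intro g g'
      have : (g + g').toContinuousMap = g.toContinuousMap + g'.toContinuousMap := rfl
      rw [this, map_add]
      simp [inner_add_right]
    map_smul' := by
      intro c g
      have : (c • g).toContinuousMap = c • g.toContinuousMap := rfl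
      rw [this, map_smul]
      simp [inner_smul_right]
    monotone' := by
      intro g g' hgg'
      let s : C(spectrum ℝ H, ℝ) := ⟨fun x => √(g' x - g x), by fun_prop⟩
      have hs : g'.toContinuousMap = g.toContinuousMap + s * s := by
        ext x
        have h0 : 0 ≤ g' x - g x := sub_nonneg.mpr (hgg' x)
        change g' x = g x + √(g' x - g x) * √(g' x - g x)
        rw [Real.mul_self_sqrt h0]; ring
      change (⟪u, cfcHom (R := ℝ) hH g.toContinuousMap u⟫_ℂ).re ≤
        (⟪u, cfcHom (R := ℝ) hH g'.toContinuousMap u⟫_ℂ).re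
      rw [hs, map_add, map_mul, ContinuousLinearMap.add_apply, inner_add_right,
        inner_sa_sq (hsa s), Complex.add_re, Complex.ofReal_re]
      have : 0 ≤ ‖cfcHom (R := ℝ) hH s u‖ ^ 2 := by positivity
      linarith }
  refine ⟨(RealRMK.rieszMeasure Λ).map Subtype.val, by infer_instance, ?_⟩
  intro f
  rw [integral_map (φ := Subtype.val) (by fun_prop) (by fun_prop)]
  let g : C_c(spectrum ℝ H, ℝ) :=
    ⟨⟨fun x => f x.1, by fun_prop⟩, HasCompactSupport.of_compactSpace _⟩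
  have h1 : ∫ x, g x ∂(RealRMK.rieszMeasure Λ) = Λ g := RealRMK.integral_rieszMeasure Λ g
  have h2 : ∫ x : spectrum ℝ H, f x.1 ∂(RealRMK.rieszMeasure Λ) = Λ g := h1
  rw [h2]
  have hfc : ContinuousOn (⇑f) (spectrum ℝ H) := f.continuous.continuousOn
  have h3 : cfc (⇑f) H = cfcHom (R := ℝ) hH g.toContinuousMap := by
    rw [cfc_apply (⇑f) H hH hfc]
    rfl
  rw [h3]
  apply Complex.ext
  · rfl
  · rw [Complex.ofReal_im]
    exact (im_inner_sa (hsa _) u).symm

theorem IsSpec.unique {H : E →L[ℂ] E} {u : E} {μ ν : Measure ℝ} [IsFiniteMeasure μ]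
    [IsFiniteMeasure ν] (hμ : IsSpec H u μ) (hν : IsSpec H u ν) : μ = ν := by
  apply ext_of_forall_integral_eq_of_IsFiniteMeasure
  intro f
  have h := (hμ f).trans (hν f).symm
  exact_mod_cast h

theorem IsSpec.mass {H : E →L[ℂ] E} (hH : IsSelfAdjoint H) {u : E} {μ : Measure ℝ}
    (hμ : IsSpec H u μ) : μ.real Set.univ = ‖u‖ ^ 2 := by
  have h := hμ 1
  have h1 : cfc (⇑(1 : BoundedContinuousFunction ℝ ℝ)) H = 1 := cfc_one ℝ H
  rw [h1] at h
  have h2 : ∫ x, (1 : BoundedContinuousFunction ℝ ℝ) x ∂μ = μ.real Set.univ := by simp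
  rw [h2, ContinuousLinearMap.one_apply, inner_self_eq_norm_sq_to_K] at h
  have h3 : ((μ.real Set.univ : ℝ) : ℂ) = ((‖u‖ ^ 2 : ℝ) : ℂ) := by rw [h]; simp
  exact_mod_cast h3

theorem sa_cfc {H : E →L[ℂ] E} (f : ℝ → ℝ) : IsSelfAdjoint (cfc f H) := cfc_predicate f H

/-- `‖f(H) u‖² = ∫ f² dμ` -/
theorem IsSpec.norm_sq {H : E →L[ℂ] E} {u : E} {μ : Measure ℝ}
    (hμ : IsSpec H u μ) (f : BoundedContinuousFunction ℝ ℝ) :
    ‖cfc (⇑f) H u‖ ^ 2 = ∫ x, f x ^ 2 ∂μ := by
  have h := hμ (f * f)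
  have h1 : cfc (⇑(f * f)) H = cfc (⇑f) H * cfc (⇑f) H :=
    cfc_mul (⇑f) (⇑f) H f.continuous.continuousOn f.continuous.continuousOn
  rw [h1, inner_sa_sq (sa_cfc _)] at h
  have h2 : ∫ x, (f * f) x ∂μ = ∫ x, f x ^ 2 ∂μ := by
    refine integral_congr_ae (ae_of_all _ fun x => ?_)
    simp [sq]
  rw [h2] at h
  exact_mod_cast h.symm

/-- the Poisson kernel as a bounded continuous function -/
noncomputable def pkerB {z : ℂ} (hz : 0 < z.im) : BoundedContinuousFunction ℝ ℝ :=
  BoundedContinuousFunction.ofNormedAddCommGroup (pker z) (continuous_pker hz) (1 / z.im)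
    (fun l => by
      rw [Real.norm_of_nonneg (pker_nonneg hz l)]
      exact pker_le hz l)

theorem cfc_pker_mul {H : E →L[ℂ] E} (hH : IsSelfAdjoint H) {z : ℂ} (hz : 0 < z.im) :
    cfc (pker z) H * ((H - algebraMap ℂ (E →L[ℂ] E) ((starRingEnd ℂ) z))
      * (H - algebraMap ℂ (E →L[ℂ] E) z)) = algebraMap ℂ (E →L[ℂ] E) (z.im : ℂ) := by
  have hq : cfc (fun l : ℝ => (l - z.re) ^ 2 + z.im ^ 2) H
      = (H - algebraMap ℂ (E →L[ℂ] E) ((starRingEnd ℂ) z))
      * (H - algebraMap ℂ (E →L[ℂ] E) z) := by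
    rw [cfc_add_const (z.im ^ 2) (fun l : ℝ => (l - z.re) ^ 2) H (by fun_prop) hH,
      cfc_pow (fun l : ℝ => l - z.re) 2 H (by fun_prop) hH]
    have h1 : cfc (fun l : ℝ => l - z.re) H = H - algebraMap ℝ (E →L[ℂ] E) z.re := by
      rw [cfc_sub (fun l : ℝ => l) (fun _ => z.re) H (by fun_prop) (by fun_prop),
        cfc_id' ℝ H hH, cfc_const z.re H hH]
    rw [h1]
    have e1 : ∀ r : ℝ, algebraMap ℝ (E →L[ℂ] E) r = (r : ℂ) • (1 : E →L[ℂ] E) := by
      intro r
      rw [Algebra.algebraMap_eq_smul_one]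
      ext u
      simp
    rw [e1, e1]
    simp only [Algebra.algebraMap_eq_smul_one]
    have e2 : (starRingEnd ℂ) z = (z.re : ℂ) - z.im * I := by
      apply Complex.ext <;> simp
    have e3 : z = (z.re : ℂ) + z.im * I := by
      apply Complex.ext <;> simp
    have e4 : (z.re : ℂ) + z.re = z + (starRingEnd ℂ) z := by
      apply Complex.ext <;> simp
    have e5 : z * (starRingEnd ℂ) z = (z.re : ℂ) ^ 2 + (z.im : ℂ) ^ 2 := by
      rw [e2]
      nth_rw 1 [e3]
      have := Complex.I_sq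
      linear_combination (-(z.im:ℂ)^2) * this
    rw [sq, sub_mul, mul_sub, mul_sub, sub_mul, mul_sub, mul_sub]
    simp only [smul_mul_assoc, mul_smul_comm, one_mul, mul_one, smul_smul]
    rw [e5]
    have e6 : (z.re : ℂ) • H + (z.re : ℂ) • H = z • H + (starRingEnd ℂ) z • H := by
      rw [← add_smul, ← add_smul, e4]
    have e7 : (((z.im ^ 2 : ℝ)) : ℂ) = (z.im : ℂ) ^ 2 := by push_cast; rfl
    rw [e7, add_smul, ← sq (z.re : ℂ)]
    have e8 : H * H - (z.re : ℂ) • H - ((z.re : ℂ) • H - (z.re : ℂ) ^ 2 • (1 : E →L[ℂ] E))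
      + (z.im : ℂ) ^ 2 • (1 : E →L[ℂ] E) = H * H - ((z.re : ℂ) • H + (z.re : ℂ) • H)
        + (z.re : ℂ) ^ 2 • (1 : E →L[ℂ] E) + (z.im : ℂ) ^ 2 • (1 : E →L[ℂ] E) := by abel
    rw [e8, e6]
    abel
  rw [← hq, ← cfc_mul (pker z) _ H (continuous_pker hz).continuousOn (by fun_prop)]
  have h2 : (fun x : ℝ => pker z x * ((x - z.re) ^ 2 + z.im ^ 2)) = fun _ => z.im := by
    funext x
    unfold pker
    have : (x - z.re) ^ 2 + z.im ^ 2 ≠ 0 := by positivity
    field_simp
  rw [h2, cfc_const z.im H hH]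
  rw [Algebra.algebraMap_eq_smul_one, Algebra.algebraMap_eq_smul_one]
  ext u
  simp

theorem IsSpec.pois {H : E →L[ℂ] E} (hH : IsSelfAdjoint H) {u : E} {μ : Measure ℝ}
    (hμ : IsSpec H u μ) {z : ℂ} (hz : 0 < z.im) : Pois μ z = z.im * ‖Rv H z u‖ ^ 2 := by
  have h := hμ (pkerB hz)
  have h0 : ⇑(pkerB hz) = pker z := rfl
  rw [h0] at h
  have h1 : ∫ x, pker z x ∂μ = Pois μ z := rfl
  rw [h1] at h
  set w := Rv H z u with hw
  have hu : u = (H - algebraMap ℂ (E →L[ℂ] E) z) w := by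
    have := congrArg (fun T : E →L[ℂ] E => T u) (mul_Rv hH hz.ne')
    simpa using this.symm
  have hadj : ∀ v : E, ⟪(H - algebraMap ℂ (E →L[ℂ] E) z) w, v⟫_ℂ
      = ⟪w, (H - algebraMap ℂ (E →L[ℂ] E) ((starRingEnd ℂ) z)) v⟫_ℂ := by
    intro v
    simp only [Algebra.algebraMap_eq_smul_one, ContinuousLinearMap.sub_apply,
      ContinuousLinearMap.smul_apply, ContinuousLinearMap.one_apply, inner_sub_left,
      inner_sub_right, inner_smul_left, inner_smul_right, inner_H_comm hH]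
  have hcomm : Commute (cfc (pker z) H) (H - algebraMap ℂ (E →L[ℂ] E) ((starRingEnd ℂ) z)) :=
    (Commute.cfc_real (Commute.refl H) (pker z)).sub_right (Algebra.commutes _ _).symm
  have e1 : ⟪u, cfc (pker z) H u⟫_ℂ = ⟪w, (cfc (pker z) H
      * ((H - algebraMap ℂ (E →L[ℂ] E) ((starRingEnd ℂ) z))
      * (H - algebraMap ℂ (E →L[ℂ] E) z))) w⟫_ℂ := by
    rw [← mul_assoc, hcomm.eq, hu, hadj]
    rfl
  rw [e1, cfc_pker_mul hH hz, Algebra.algebraMap_eq_smul_one, ContinuousLinearMap.smul_apply,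
    ContinuousLinearMap.one_apply, inner_smul_right, inner_self_eq_norm_sq_to_K] at h
  have h3 : ((Pois μ z : ℝ) : ℂ) = ((z.im * ‖w‖ ^ 2 : ℝ) : ℂ) := by rw [h]; simp
  exact_mod_cast h3

/-- bounded continuous functions with values in `[0,1]` approximating an indicator in `L¹`. -/
theorem exists_approx (μ : Measure ℝ) [IsFiniteMeasure μ] {T : Set ℝ} (hT : MeasurableSet T) :
    ∃ f : ℕ → BoundedContinuousFunction ℝ ℝ, (∀ k x, 0 ≤ f k x ∧ f k x ≤ 1) ∧
      ∀ k : ℕ, ∫ x, |f k x - T.indicator (fun _ => (1:ℝ)) x| ∂μ ≤ 1 / ((k:ℝ) + 1) := by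
  have hint : Integrable (T.indicator (fun _ => (1:ℝ))) μ :=
    (integrable_const (1:ℝ)).indicator hT
  have h : ∀ k : ℕ, ∃ f : BoundedContinuousFunction ℝ ℝ, (∀ x, 0 ≤ f x ∧ f x ≤ 1) ∧
      ∫ x, |f x - T.indicator (fun _ => (1:ℝ)) x| ∂μ ≤ 1 / ((k:ℝ) + 1) := by
    intro k
    have hk : (0:ℝ) < 1 / ((k:ℝ) + 1) := by positivity
    obtain ⟨g, hg, hgi⟩ := hint.exists_boundedContinuous_integral_sub_le hk
    let f : BoundedContinuousFunction ℝ ℝ :=
      BoundedContinuousFunction.ofNormedAddCommGroup (fun x => max 0 (min 1 (g x)))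
        (by fun_prop) 1 (fun x => by
          rw [Real.norm_eq_abs, abs_le]
          constructor
          · have := le_max_left 0 (min 1 (g x)); linarith
          · exact max_le zero_le_one (min_le_left _ _))
    have hf : ∀ x, f x = max 0 (min 1 (g x)) := fun x => rfl
    refine ⟨f, fun x => ?_, ?_⟩
    · rw [hf]
      exact ⟨le_max_left _ _, max_le zero_le_one (min_le_left _ _)⟩
    · refine le_trans (integral_mono_of_nonneg (ae_of_all _ fun x => abs_nonneg _)
        ((hint.sub hgi).norm) (ae_of_all _ fun x => ?_)) hg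
      simp only [Pi.sub_apply]
      rw [hf, Real.norm_eq_abs, abs_sub_comm]
      have hi : 0 ≤ T.indicator (fun _ => (1:ℝ)) x ∧ T.indicator (fun _ => (1:ℝ)) x ≤ 1 := by
        by_cases hx : x ∈ T
        · simp [hx]
        · simp [hx]
      set i := T.indicator (fun _ => (1:ℝ)) x
      rw [abs_le]
      constructor
      · have h1 : max 0 (min 1 (g x)) ≤ max i (g x) := by
          refine max_le (hi.1.trans (le_max_left _ _)) ((min_le_right _ _).trans (le_max_right _ _))
        have h2 : max i (g x) - i ≤ |i - g x| := by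
          rcases le_total i (g x) with h | h
          · rw [max_eq_right h, abs_sub_comm]; exact le_abs_self _
          · rw [max_eq_left h, sub_self]; exact abs_nonneg _
        linarith
      · have h1 : min i (g x) ≤ max 0 (min 1 (g x)) := by
          rcases le_total 1 (g x) with h | h
          · rw [min_eq_left h]
            exact (min_le_left _ _).trans (hi.2.trans (le_max_right _ _))
          · rw [min_eq_right h]
            exact (min_le_right _ _).trans (le_max_right _ _)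
        have h2 : i - min i (g x) ≤ |i - g x| := by
          rcases le_total i (g x) with h | h
          · rw [min_eq_left h, sub_self]; exact abs_nonneg _
          · rw [min_eq_right h]; exact le_abs_self _
        linarith
  choose f h1 h2 using h
  exact ⟨f, h1, h2⟩

theorem integrable_bcf_sub_ind (μ : Measure ℝ) [IsFiniteMeasure μ] {T : Set ℝ}
    (hT : MeasurableSet T) (f : BoundedContinuousFunction ℝ ℝ) :
    Integrable (fun x => |f x - T.indicator (fun _ => (1:ℝ)) x|) μ :=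
  ((f.integrable μ).sub ((integrable_const (1:ℝ)).indicator hT)).abs

theorem spec_of_tendsto {H : E →L[ℂ] E} {u v : E} {μ : Measure ℝ}
    [IsFiniteMeasure μ] (hμ : IsSpec H u μ) {T : Set ℝ} (hT : MeasurableSet T)
    {f : ℕ → BoundedContinuousFunction ℝ ℝ} (h01 : ∀ k x, 0 ≤ f k x ∧ f k x ≤ 1)
    (hf : ∀ k : ℕ, ∫ x, |f k x - T.indicator (fun _ => (1:ℝ)) x| ∂μ ≤ 1 / ((k:ℝ) + 1))
    (hv : Tendsto (fun k => cfc (⇑(f k)) H u) atTop (𝓝 v)) : IsSpec H v (μ.restrict T) := by
  intro g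
  have h1 : Tendsto (fun k => ⟪cfc (⇑(f k)) H u, cfc (⇑g) H (cfc (⇑(f k)) H u)⟫_ℂ) atTop
      (𝓝 ⟪v, cfc (⇑g) H v⟫_ℂ) :=
    hv.inner (((cfc (⇑g) H).continuous.tendsto v).comp hv)
  have h2 : ∀ k, ⟪cfc (⇑(f k)) H u, cfc (⇑g) H (cfc (⇑(f k)) H u)⟫_ℂ
      = ((∫ x, f k x * (g x * f k x) ∂μ : ℝ) : ℂ) := by
    intro k
    have h3 := hμ (f k * (g * f k))
    have h4 : cfc (⇑(f k * (g * f k))) H = cfc (⇑(f k)) H * (cfc (⇑g) H * cfc (⇑(f k)) H) := by
      rw [← cfc_mul (⇑g) (⇑(f k)) H g.continuous.continuousOn (f k).continuous.continuousOn,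
        ← cfc_mul (⇑(f k)) (fun x => g x * f k x) H (f k).continuous.continuousOn
          (g.continuous.mul (f k).continuous).continuousOn]
      rfl
    rw [h4] at h3
    rw [inner_sa_comm (sa_cfc _)]
    exact h3.symm
  have hb : ∀ x, |g x| ≤ ‖g‖ := fun x => g.norm_coe_le_norm x
  have h5 : Tendsto (fun k => ∫ x, f k x * (g x * f k x) ∂μ) atTop
      (𝓝 (∫ x, g x ∂(μ.restrict T))) := by
    rw [tendsto_iff_norm_sub_tendsto_zero]
    have h6 : ∀ k : ℕ, ‖∫ x, f k x * (g x * f k x) ∂μ - ∫ x, g x ∂(μ.restrict T)‖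
        ≤ 2 * ‖g‖ * (1 / ((k:ℝ) + 1)) := by
      intro k
      have e1 : ∫ x, g x ∂(μ.restrict T) = ∫ x, T.indicator (⇑g) x ∂μ :=
        (integral_indicator hT).symm
      have hi1 : Integrable (fun x => f k x * (g x * f k x)) μ :=
        (f k * (g * f k)).integrable μ
      rw [e1, ← integral_sub hi1 ((g.integrable μ).indicator hT)]
      refine (norm_integral_le_integral_norm _).trans ?_
      have e2 : ∀ x, ‖f k x * (g x * f k x) - T.indicator (⇑g) x‖
          ≤ 2 * ‖g‖ * |f k x - T.indicator (fun _ => (1:ℝ)) x| := by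
        intro x
        have e3 : T.indicator (⇑g) x = T.indicator (fun _ => (1:ℝ)) x * g x := by
          by_cases hx : x ∈ T <;> simp [hx]
        have hi : T.indicator (fun _ => (1:ℝ)) x * T.indicator (fun _ => (1:ℝ)) x
            = T.indicator (fun _ => (1:ℝ)) x := by
          by_cases hx : x ∈ T <;> simp [hx]
        have hi' : 0 ≤ T.indicator (fun _ => (1:ℝ)) x ∧ T.indicator (fun _ => (1:ℝ)) x ≤ 1 := by
          by_cases hx : x ∈ T <;> simp [hx]
        rw [e3]
        set i := T.indicator (fun _ => (1:ℝ)) x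
        have e4 : f k x * (g x * f k x) - i * g x = (f k x - i) * (f k x + i) * g x := by
          linear_combination (g x) * hi
        rw [e4, Real.norm_eq_abs, abs_mul, abs_mul]
        have e5 : |f k x + i| ≤ 2 := by
          rw [abs_le]; constructor <;> linarith [(h01 k x).1, (h01 k x).2, hi'.1, hi'.2]
        calc |f k x - i| * |f k x + i| * |g x| ≤ |f k x - i| * 2 * ‖g‖ := by
              gcongr
              exact hb x
          _ = 2 * ‖g‖ * |f k x - i| := by ring
      calc ∫ x, ‖f k x * (g x * f k x) - T.indicator (⇑g) x‖ ∂μ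
          ≤ ∫ x, 2 * ‖g‖ * |f k x - T.indicator (fun _ => (1:ℝ)) x| ∂μ := by
            refine integral_mono_of_nonneg (ae_of_all _ fun x => norm_nonneg _) ?_
              (ae_of_all _ e2)
            exact (integrable_bcf_sub_ind μ hT (f k)).const_mul _
        _ = 2 * ‖g‖ * ∫ x, |f k x - T.indicator (fun _ => (1:ℝ)) x| ∂μ := integral_const_mul _ _
        _ ≤ 2 * ‖g‖ * (1 / ((k:ℝ) + 1)) := by
            gcongr
            exact hf k
    refine squeeze_zero (fun k => norm_nonneg _) h6 ?_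
    have := (tendsto_one_div_add_atTop_nhds_zero_nat (𝕜 := ℝ)).const_mul (2 * ‖g‖)
    simpa using this
  have h7 : Tendsto (fun k => ⟪cfc (⇑(f k)) H u, cfc (⇑g) H (cfc (⇑(f k)) H u)⟫_ℂ) atTop
      (𝓝 ((∫ x, g x ∂(μ.restrict T) : ℝ) : ℂ)) := by
    simp only [h2]
    exact (Complex.continuous_ofReal.tendsto _).comp h5
  exact tendsto_nhds_unique h7 h1

/-- spectral projection of a vector onto a Borel set -/
theorem exists_proj {H : E →L[ℂ] E} (hH : IsSelfAdjoint H) {u : E} {μ : Measure ℝ}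
    [IsFiniteMeasure μ] (hμ : IsSpec H u μ) {T : Set ℝ} (hT : MeasurableSet T) :
    ∃ v, IsSpec H v (μ.restrict T) ∧ IsSpec H (u - v) (μ.restrict Tᶜ) := by
  obtain ⟨f, h01, hf⟩ := exists_approx μ hT
  have hC : CauchySeq (fun k => cfc (⇑(f k)) H u) := by
    refine cauchySeq_of_le_tendsto_0 (fun N : ℕ => √(2 * (1 / ((N:ℝ) + 1)))) ?_ ?_
    · intro n m N hn hm
      have e1 : cfc (⇑(f n)) H u - cfc (⇑(f m)) H u = cfc (⇑(f n - f m)) H u := by
        have : cfc (⇑(f n - f m)) H = cfc (⇑(f n)) H - cfc (⇑(f m)) H :=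
          cfc_sub (⇑(f n)) (⇑(f m)) H (f n).continuous.continuousOn (f m).continuous.continuousOn
        rw [this]; rfl
      rw [dist_eq_norm, e1]
      refine Real.le_sqrt_of_sq_le ?_
      rw [hμ.norm_sq]
      have e2 : ∀ x, ((f n - f m) x) ^ 2 ≤ |f n x - T.indicator (fun _ => (1:ℝ)) x|
          + |f m x - T.indicator (fun _ => (1:ℝ)) x| := by
        intro x
        rw [BoundedContinuousFunction.sub_apply]
        set i := T.indicator (fun _ => (1:ℝ)) x
        have h1 : |f n x - f m x| ≤ 1 := by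
          rw [abs_le]; constructor <;> linarith [(h01 n x).1, (h01 n x).2, (h01 m x).1, (h01 m x).2]
        have h2 : |f n x - f m x| ≤ |f n x - i| + |f m x - i| := by
          have := abs_sub_le (f n x) i (f m x)
          rwa [abs_sub_comm i (f m x)] at this
        rw [← sq_abs]
        nlinarith [abs_nonneg (f n x - f m x)]
      have hN : ∀ j, N ≤ j → (1:ℝ) / ((j:ℝ) + 1) ≤ 1 / ((N:ℝ) + 1) := by
        intro j hj
        have : (N:ℝ) ≤ j := by exact_mod_cast hj
        gcongr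
      calc ∫ x, ((f n - f m) x) ^ 2 ∂μ ≤ ∫ x, (|f n x - T.indicator (fun _ => (1:ℝ)) x|
          + |f m x - T.indicator (fun _ => (1:ℝ)) x|) ∂μ := by
            refine integral_mono_of_nonneg (ae_of_all _ fun x => sq_nonneg _) ?_ (ae_of_all _ e2)
            exact (integrable_bcf_sub_ind μ hT (f n)).add (integrable_bcf_sub_ind μ hT (f m))
        _ = ∫ x, |f n x - T.indicator (fun _ => (1:ℝ)) x| ∂μ
            + ∫ x, |f m x - T.indicator (fun _ => (1:ℝ)) x| ∂μ :=
            integral_add (integrable_bcf_sub_ind μ hT (f n)) (integrable_bcf_sub_ind μ hT (f m))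
        _ ≤ 1 / ((N:ℝ) + 1) + 1 / ((N:ℝ) + 1) :=
            add_le_add ((hf n).trans (hN n hn)) ((hf m).trans (hN m hm))
        _ = 2 * (1 / ((N:ℝ) + 1)) := by ring
    · have h1 := (tendsto_one_div_add_atTop_nhds_zero_nat (𝕜 := ℝ)).const_mul (2:ℝ)
      have h2 := (Real.continuous_sqrt.tendsto _).comp h1
      rw [mul_zero, Real.sqrt_zero] at h2
      exact h2
  obtain ⟨v, hv⟩ := cauchySeq_tendsto_of_complete hC
  refine ⟨v, spec_of_tendsto hμ hT h01 hf hv, ?_⟩
  have hv' : Tendsto (fun k => cfc (⇑(1 - f k)) H u) atTop (𝓝 (u - v)) := by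
    have e1 : ∀ k, cfc (⇑(1 - f k)) H u = u - cfc (⇑(f k)) H u := by
      intro k
      have e2 : cfc (⇑(1 - f k)) H = 1 - cfc (⇑(f k)) H := by
        have := cfc_sub (fun _ : ℝ => (1:ℝ)) (⇑(f k)) H (by fun_prop)
          (f k).continuous.continuousOn
        rw [cfc_const_one ℝ H hH] at this
        rw [← this]
        rfl
      rw [e2]; rfl
    simp only [e1]
    exact tendsto_const_nhds.sub hv
  refine spec_of_tendsto hμ hT.compl (f := fun k => 1 - f k) ?_ ?_ hv'
  · intro k x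
    rw [BoundedContinuousFunction.sub_apply, BoundedContinuousFunction.coe_one, Pi.one_apply]
    constructor <;> linarith [(h01 k x).1, (h01 k x).2]
  · intro k
    refine le_trans (le_of_eq ?_) (hf k)
    refine integral_congr_ae (ae_of_all _ fun x => ?_)
    simp only [BoundedContinuousFunction.sub_apply, BoundedContinuousFunction.coe_one, Pi.one_apply]
    by_cases hx : x ∈ T
    · simp [hx, abs_sub_comm]
    · simp [hx]

end

end Pool.Agent.Lib.MP_562b47_mp
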