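import Pool.Agent.Lib.MP_562b47_mp.Limit
import Pool.Agent.Lib.MP_562b47_mp.Spec

/-!
The concrete Anderson operator on `ℓ²(ℤ^d)`.
(Anderson model, MP_562b47_mp.)
-/

open MeasureTheory Filter Topology Complex Set
open scoped InnerProductSpace ENNReal

namespace Pool.Agent.Lib.MP_562b47_mp

/-- `ℓ²(Λ)` -/
noncomputable abbrev L2 (Λ : Type*) := lp (fun _ : Λ => ℂ) 2

section

variable {Λ : Type*}

theorem L2_norm_sq (u : L2 Λ) : ‖u‖ ^ 2 = ∑' j, ‖u j‖ ^ 2 := by
  have h := lp.norm_rpow_eq_tsum (p := 2) (by norm_num) u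
  simpa using h

theorem L2_summable (u : L2 Λ) : Summable fun j => ‖u j‖ ^ 2 := by
  have h := (lp.memℓp u).summable (by norm_num)
  simpa using h

theorem memL2_of_summable {u : Λ → ℂ} (h : Summable fun j => ‖u j‖ ^ 2) :
    Memℓp u 2 := by
  refine memℓp_gen ?_
  simpa using h

/-- composition with a permutation -/
noncomputable def permL (σ : Equiv.Perm Λ) : L2 Λ →L[ℂ] L2 Λ :=
  LinearMap.mkContinuous
    { toFun := fun u => ⟨fun j => u (σ j), memL2_of_summable
        ((σ.summable_iff (f := fun j => ‖u j‖ ^ 2)).mpr (L2_summable u))⟩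
      map_add' := fun u v => rfl
      map_smul' := fun c u => rfl } 1 (fun u => by
        rw [one_mul]
        refine (sq_le_sq₀ (norm_nonneg _) (norm_nonneg _)).mp ?_
        rw [L2_norm_sq, L2_norm_sq]
        exact le_of_eq (σ.tsum_eq (fun j => ‖u j‖ ^ 2)))

@[simp] theorem permL_apply (σ : Equiv.Perm Λ) (u : L2 Λ) (j : Λ) : permL σ u j = u (σ j) := rfl

theorem norm_permL (σ : Equiv.Perm Λ) (u : L2 Λ) : ‖permL σ u‖ = ‖u‖ := by
  rw [← sq_eq_sq₀ (norm_nonneg _) (norm_nonneg _), L2_norm_sq, L2_norm_sq]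
  exact σ.tsum_eq (fun j => ‖u j‖ ^ 2)

theorem inner_permL (σ : Equiv.Perm Λ) (u v : L2 Λ) :
    ⟪permL σ u, v⟫_ℂ = ⟪u, permL σ.symm v⟫_ℂ := by
  rw [lp.inner_eq_tsum, lp.inner_eq_tsum, ← σ.tsum_eq (fun i => ⟪u i, permL σ.symm v i⟫_ℂ)]
  refine tsum_congr fun i => ?_
  rw [permL_apply, permL_apply, Equiv.symm_apply_apply]

theorem abs_clp_le (c v : ℝ) : |clp c v| ≤ |c| := by
  unfold clp
  rcases le_total 0 c with h | h
  · rw [abs_of_nonneg h, abs_le]
    exact ⟨le_max_left _ _, max_le (by linarith) (min_le_left _ _)⟩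
  · rw [abs_of_nonpos h]
    have h1 : max (-c) (min c v) = -c := max_eq_left ((min_le_left _ _).trans (by linarith))
    rw [h1, abs_of_nonneg (by linarith)]

/-- multiplication by the clamped potential -/
noncomputable def potL (c : ℝ) (ω : Λ → ℝ) : L2 Λ →L[ℂ] L2 Λ :=
  LinearMap.mkContinuous
    { toFun := fun u => ⟨fun j => (clp c (ω j) : ℂ) * u j, memL2_of_summable (by
        refine Summable.of_nonneg_of_le (fun j => by positivity) (fun j => ?_)
          ((L2_summable u).mul_left (|c| ^ 2))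
        rw [norm_mul, mul_pow, Complex.norm_real, Real.norm_eq_abs]
        have := abs_clp_le c (ω j)
        gcongr)⟩
      map_add' := fun u v => by
        ext j
        simp only [lp.coeFn_add, Pi.add_apply]
        ring
      map_smul' := fun a u => by
        ext j
        simp only [lp.coeFn_smul, Pi.smul_apply, smul_eq_mul, RingHom.id_apply]
        ring } |c| (fun u => by
        refine (sq_le_sq₀ (norm_nonneg _) (by positivity)).mp ?_
        rw [mul_pow, L2_norm_sq, L2_norm_sq, ← tsum_mul_left]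
        refine Summable.tsum_le_tsum (fun j => ?_) ?_ ((L2_summable u).mul_left _)
        · change ‖(clp c (ω j) : ℂ) * u j‖ ^ 2 ≤ _
          rw [norm_mul, mul_pow, Complex.norm_real, Real.norm_eq_abs]
          have := abs_clp_le c (ω j)
          gcongr
        · exact L2_summable _)

@[simp] theorem potL_apply (c : ℝ) (ω : Λ → ℝ) (u : L2 Λ) (j : Λ) :
    potL c ω u j = (clp c (ω j) : ℂ) * u j := rfl

theorem inner_potL (c : ℝ) (ω : Λ → ℝ) (u v : L2 Λ) :
    ⟪potL c ω u, v⟫_ℂ = ⟪u, potL c ω v⟫_ℂ := by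
  rw [lp.inner_eq_tsum, lp.inner_eq_tsum]
  refine tsum_congr fun i => ?_
  rw [potL_apply, potL_apply]
  simp only [RCLike.inner_apply, map_mul, Complex.conj_ofReal]
  ring

theorem isSelfAdjoint_of_symm {T : L2 Λ →L[ℂ] L2 Λ} (h : ∀ u v, ⟪T u, v⟫_ℂ = ⟪u, T v⟫_ℂ) :
    IsSelfAdjoint T :=
  ContinuousLinearMap.isSelfAdjoint_iff_isSymmetric.mpr h

theorem isSelfAdjoint_potL (c : ℝ) (ω : Λ → ℝ) : IsSelfAdjoint (potL c ω) :=
  isSelfAdjoint_of_symm (inner_potL c ω)

theorem inner_star_star (u v : L2 Λ) : ⟪star u, star v⟫_ℂ = ⟪v, u⟫_ℂ := by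
  rw [lp.inner_eq_tsum, lp.inner_eq_tsum]
  refine tsum_congr fun i => ?_
  rw [lp.star_apply, lp.star_apply]
  simp only [RCLike.inner_apply, RCLike.star_def, Complex.conj_conj]
  ring

theorem potL_star (c : ℝ) (ω : Λ → ℝ) (u : L2 Λ) : potL c ω (star u) = star (potL c ω u) := by
  ext j
  rw [potL_apply, lp.star_apply, lp.star_apply, potL_apply, star_mul']
  simp [RCLike.star_def, Complex.conj_ofReal]

theorem permL_star (σ : Equiv.Perm Λ) (u : L2 Λ) : permL σ (star u) = star (permL σ u) := by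
  ext j
  rw [permL_apply, lp.star_apply, lp.star_apply, permL_apply]

/-- the resolvent of a real operator and complex conjugation -/
theorem Rv_star {H : L2 Λ →L[ℂ] L2 Λ} (hH : IsSelfAdjoint H)
    (hr : ∀ u, H (star u) = star (H u)) {z : ℂ} (hz : z.im ≠ 0) (u : L2 Λ) :
    Rv H ((starRingEnd ℂ) z) (star u) = star (Rv H z u) := by
  have hz' : ((starRingEnd ℂ) z).im ≠ 0 := by simpa using hz
  have h1 : star u = H (star (Rv H z u)) - ((starRingEnd ℂ) z) • star (Rv H z u) := by
    rw [hr, H_Rv_apply hH hz, star_add, star_smul]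
    rw [show star z = (starRingEnd ℂ) z from rfl]
    abel
  rw [h1, map_sub, map_smul, Rv_H_apply hH hz']
  abel

section

variable [DecidableEq Λ]

/-- the standard basis -/
noncomputable def eb (x : Λ) : L2 Λ := lp.single 2 x 1

theorem inner_eb (x : Λ) (u : L2 Λ) : ⟪eb x, u⟫_ℂ = u x := by
  unfold eb
  rw [lp.inner_single_left]
  simp

theorem eb_apply (x j : Λ) : eb x j = if j = x then 1 else 0 := by
  unfold eb
  by_cases h : j = x
  · subst h; rw [lp.single_apply_self, if_pos rfl]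
  · rw [lp.single_apply_ne _ _ _ h, if_neg h]

theorem star_eb (x : Λ) : star (eb x) = eb x := by
  ext j
  rw [lp.star_apply, eb_apply]
  by_cases h : j = x <;> simp [h]

theorem orthonormal_eb : Orthonormal ℂ (eb : Λ → L2 Λ) := by
  rw [orthonormal_iff_ite]
  intro i j
  rw [inner_eb, eb_apply]

theorem tot_eb (u : L2 Λ) (h : ∀ x, ⟪eb x, u⟫_ℂ = 0) : u = 0 := by
  ext j
  have := h j
  rw [inner_eb] at this
  rw [this]; rfl

theorem Gr_symm_of_real {H : L2 Λ →L[ℂ] L2 Λ} (hH : IsSelfAdjoint H)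
    (hr : ∀ u, H (star u) = star (H u)) {z : ℂ} (hz : z.im ≠ 0) (x y : Λ) :
    ⟪eb x, Rv H z (eb y)⟫_ℂ = ⟪eb y, Rv H z (eb x)⟫_ℂ := by
  have hz' : ((starRingEnd ℂ) z).im ≠ 0 := by simpa using hz
  calc ⟪eb x, Rv H z (eb y)⟫_ℂ = ⟪star (Rv H z (eb y)), star (eb x)⟫_ℂ :=
        (inner_star_star _ _).symm
    _ = ⟪Rv H ((starRingEnd ℂ) z) (star (eb y)), star (eb x)⟫_ℂ := by rw [Rv_star hH hr hz]
    _ = ⟪Rv H ((starRingEnd ℂ) z) (eb y), eb x⟫_ℂ := by rw [star_eb, star_eb]
    _ = ⟪eb y, Rv H z (eb x)⟫_ℂ := by rw [Rv_conj hH hz', Complex.conj_conj]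

omit [DecidableEq Λ] in
theorem continuous_potL (c : ℝ) (u : L2 Λ) : Continuous fun ω : Λ → ℝ => potL c ω u := by
  rw [continuous_iff_continuousAt]
  intro ω₀
  rw [ContinuousAt, tendsto_iff_norm_sub_tendsto_zero]
  have hsq : ∀ ω, ‖potL c ω u - potL c ω₀ u‖ ^ 2
      = ∑' j, ‖((clp c (ω j) - clp c (ω₀ j) : ℝ) : ℂ) * u j‖ ^ 2 := by
    intro ω
    rw [L2_norm_sq]
    refine tsum_congr fun j => ?_
    congr 2
    rw [lp.coeFn_sub, Pi.sub_apply, potL_apply, potL_apply]
    push_cast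
    ring
  have h1 : Tendsto (fun ω => ‖potL c ω u - potL c ω₀ u‖ ^ 2) (𝓝 ω₀) (𝓝 (∑' _ : Λ, (0:ℝ))) := by
    simp only [hsq]
    refine tendsto_tsum_of_dominated_convergence (bound := fun j => (2 * |c|) ^ 2 * ‖u j‖ ^ 2)
      ((L2_summable u).mul_left _) (fun j => ?_) (Eventually.of_forall fun ω j => ?_)
    · have h2 : Continuous fun ω : Λ → ℝ => ‖((clp c (ω j) - clp c (ω₀ j) : ℝ) : ℂ) * u j‖ ^ 2 := by
        have := (continuous_clp c).comp (continuous_apply (A := fun _ : Λ => ℝ) j)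
        fun_prop
      have h3 := h2.tendsto ω₀
      simpa using h3
    · rw [Real.norm_of_nonneg (by positivity), norm_mul, mul_pow, Complex.norm_real,
        Real.norm_eq_abs]
      have h4 : |clp c (ω j) - clp c (ω₀ j)| ≤ 2 * |c| := by
        have := abs_clp_le c (ω j)
        have := abs_clp_le c (ω₀ j)
        have := abs_sub (clp c (ω j)) (clp c (ω₀ j))
        linarith
      gcongr
  rw [tsum_zero] at h1
  have h2 := (Real.continuous_sqrt.tendsto _).comp h1
  rw [Real.sqrt_zero] at h2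
  refine h2.congr fun ω => ?_
  simp only [Function.comp]
  rw [Real.sqrt_sq (norm_nonneg _)]

/-- a real self-adjoint operator plus the clamped potential is a `Model` -/
theorem model_of_real {K : L2 Λ →L[ℂ] L2 Λ} (hK : IsSelfAdjoint K)
    (hr : ∀ u, K (star u) = star (K u)) {c : ℝ} (hc : 0 < c) :
    Model c (eb : Λ → L2 Λ) (fun ω => K + potL c ω) where
  hc := hc
  ortho := orthonormal_eb
  tot := tot_eb
  sa := fun ω => hK.add (isSelfAdjoint_potL c ω)
  symm := fun ω z x y hz => Gr_symm_of_real (hK.add (isSelfAdjoint_potL c ω)) (fun u => by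
    rw [ContinuousLinearMap.add_apply, ContinuousLinearMap.add_apply, hr, potL_star, star_add]) hz x y
  upd := fun ω y v u => by
    ext j
    rw [ContinuousLinearMap.add_apply, ContinuousLinearMap.add_apply]
    simp only [lp.coeFn_add, Pi.add_apply, lp.coeFn_smul, Pi.smul_apply, smul_eq_mul, potL_apply,
      inner_eb, eb_apply]
    by_cases h : j = y
    · subst h
      rw [Function.update_self, if_pos rfl]
      push_cast
      ring
    · rw [Function.update_of_ne h, if_neg h]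
      ring
  cont := fun u => by
    have := continuous_potL c u
    simp only [ContinuousLinearMap.add_apply]
    fun_prop

end

/-! ### Covariance -/

theorem permL_symm_permL (σ : Equiv.Perm Λ) (u : L2 Λ) : permL σ.symm (permL σ u) = u := by
  ext j
  rw [permL_apply, permL_apply, Equiv.apply_symm_apply]

theorem permL_permL_symm (σ : Equiv.Perm Λ) (u : L2 Λ) : permL σ (permL σ.symm u) = u := by
  ext j
  rw [permL_apply, permL_apply, Equiv.symm_apply_apply]

theorem permL_potL (c : ℝ) (ω : Λ → ℝ) (σ : Equiv.Perm Λ) (u : L2 Λ) :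
    permL σ (potL c ω u) = potL c (ω ∘ σ) (permL σ u) := by
  ext j
  rw [permL_apply, potL_apply, potL_apply, permL_apply]
  rfl

theorem Rv_intertwine {V : Type*} [NormedAddCommGroup V] [InnerProductSpace ℂ V]
    [CompleteSpace V] {H H' U : V →L[ℂ] V} (hH : IsSelfAdjoint H) (hH' : IsSelfAdjoint H')
    (hU : ∀ u, U (H u) = H' (U u)) {z : ℂ} (hz : z.im ≠ 0) (u : V) :
    U (Rv H z u) = Rv H' z (U u) := by
  have h1 : U u = H' (U (Rv H z u)) - z • U (Rv H z u) := by
    rw [← hU, H_Rv_apply hH hz, map_add, map_smul]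
    abel
  rw [h1, map_sub, map_smul, Rv_H_apply hH' hz]
  abel

end

/-! ### The discrete Laplacian on `ℤ^d` -/

section

variable (d : ℕ)

/-- the unit vector -/
def uv (i : Fin d) : Fin d → ℤ := Pi.single i 1

/-- `(K u)(j) = -∑_{|n|=1} (u(j+n) - u(j))` -/
noncomputable def lapL : L2 (Fin d → ℤ) →L[ℂ] L2 (Fin d → ℤ) :=
  ∑ i : Fin d, ((2:ℂ) • ContinuousLinearMap.id ℂ (L2 (Fin d → ℤ)) - permL (Equiv.addRight (uv d i))
    - permL (Equiv.addRight (-(uv d i))))

theorem lapL_apply (u : L2 (Fin d → ℤ)) (j : Fin d → ℤ) :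
    lapL d u j = -∑ i : Fin d, ((u (j + uv d i) - u j) + (u (j - uv d i) - u j)) := by
  unfold lapL
  rw [ContinuousLinearMap.sum_apply]
  rw [lp.coeFn_sum]
  rw [Finset.sum_apply, ← Finset.sum_neg_distrib]
  refine Finset.sum_congr rfl fun i _ => ?_
  simp only [ContinuousLinearMap.sub_apply, ContinuousLinearMap.smul_apply,
    ContinuousLinearMap.id_apply, lp.coeFn_sub, Pi.sub_apply, lp.coeFn_smul, Pi.smul_apply,
    smul_eq_mul, permL_apply, Equiv.coe_addRight]
  rw [sub_eq_add_neg j]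
  ring

theorem lapL_star (u : L2 (Fin d → ℤ)) : lapL d (star u) = star (lapL d u) := by
  ext j
  rw [lp.star_apply, lapL_apply, lapL_apply, star_neg, star_sum]
  simp only [lp.star_apply, star_add, star_sub]

theorem isSelfAdjoint_lapL : IsSelfAdjoint (lapL d) := by
  refine isSelfAdjoint_of_symm fun u v => ?_
  unfold lapL
  rw [ContinuousLinearMap.sum_apply, ContinuousLinearMap.sum_apply, sum_inner, inner_sum]
  refine Finset.sum_congr rfl fun i _ => ?_
  simp only [ContinuousLinearMap.sub_apply, ContinuousLinearMap.smul_apply,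
    ContinuousLinearMap.id_apply, inner_sub_left, inner_sub_right, inner_smul_left,
    inner_smul_right, inner_permL]
  have h1 : (Equiv.addRight (uv d i)).symm = Equiv.addRight (-(uv d i)) := Equiv.addRight_symm _
  have h2 : (Equiv.addRight (-(uv d i))).symm = Equiv.addRight (uv d i) := by
    rw [Equiv.addRight_symm, neg_neg]
  rw [h1, h2]
  have : (starRingEnd ℂ) (2:ℂ) = 2 := by
    rw [show (2:ℂ) = ((2:ℝ):ℂ) by norm_num, Complex.conj_ofReal]
  rw [this]
  ring

theorem lapL_permL (n : Fin d → ℤ) (u : L2 (Fin d → ℤ)) :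
    permL (Equiv.addRight n) (lapL d u) = lapL d (permL (Equiv.addRight n) u) := by
  ext j
  rw [permL_apply, lapL_apply, lapL_apply]
  congr 1
  refine Finset.sum_congr rfl fun i _ => ?_
  change u (j + n + uv d i) - u (j + n) + (u (j + n - uv d i) - u (j + n))
    = u (j + uv d i + n) - u (j + n) + (u (j - uv d i + n) - u (j + n))
  rw [add_right_comm j n, add_sub_right_comm j n]

end

theorem permL_eb {Λ : Type*} [DecidableEq Λ] (σ : Equiv.Perm Λ) (x : Λ) :
    permL σ (eb (σ x)) = eb x := by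
  ext j
  rw [permL_apply, eb_apply, eb_apply]
  by_cases h : j = x
  · subst h; simp
  · rw [if_neg h, if_neg (fun h' => h (σ.injective h'))]

/-- `ℓ²(ℤ^d)` -/
noncomputable abbrev Hilb (d : ℕ) := lp (fun _ : Fin d → ℤ => ℂ) 2

/-- the standard basis of `ℓ²(ℤ^d)` -/
noncomputable def ee (d : ℕ) (x : Fin d → ℤ) : Hilb d := lp.single 2 x (1:ℂ)

theorem ee_eq (d : ℕ) : ee d = eb := rfl

/-- the Anderson operator `Δ_ω`, with potential clamped to `[-c, c]` -/
noncomputable def HH (d : ℕ) (c : ℝ) (ω : (Fin d → ℤ) → ℝ) : Hilb d →L[ℂ] Hilb d :=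
  lapL d + potL c ω

theorem HH_apply (d : ℕ) (c : ℝ) (ω : (Fin d → ℤ) → ℝ) (u : Hilb d) (j : Fin d → ℤ) :
    HH d c ω u j = -∑ i : Fin d, ((u (j + Pi.single i 1) - u j) + (u (j - Pi.single i 1) - u j))
      + (clp c (ω j) : ℂ) * u j := by
  unfold HH
  rw [ContinuousLinearMap.add_apply, lp.coeFn_add, Pi.add_apply, lapL_apply, potL_apply]
  rfl

theorem model {d : ℕ} {c : ℝ} (hc : 0 < c) : Model c (ee d) (HH d c) :=
  model_of_real (isSelfAdjoint_lapL d) (lapL_star d) hc

theorem HH_permL (d : ℕ) (c : ℝ) (ω : (Fin d → ℤ) → ℝ) (n : Fin d → ℤ) (u : Hilb d) :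
    permL (Equiv.addRight n) (HH d c ω u)
      = HH d c (fun j => ω (j + n)) (permL (Equiv.addRight n) u) := by
  unfold HH
  rw [ContinuousLinearMap.add_apply, ContinuousLinearMap.add_apply, map_add, lapL_permL,
    permL_potL]
  rfl

/-- covariance of the Green function under translations -/
theorem shiftCov {d : ℕ} {c : ℝ} (hc : 0 < c) : ShiftCov (ee d) (HH d c) := by
  intro n ω z x y hz
  have hM := model (d := d) hc
  have h1 : permL (Equiv.addRight n) (ee d (y + n)) = ee d y := permL_eb (Equiv.addRight n) y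
  have h2 : permL (Equiv.addRight n) (ee d (x + n)) = ee d x := permL_eb (Equiv.addRight n) x
  unfold Gr
  rw [← h1, ← Rv_intertwine (hM.sa ω) (hM.sa _) (HH_permL d c ω n) hz.ne', ← h2, inner_permL,
    permL_symm_permL]

theorem Model.hasDens {Λ : Type*} [DecidableEq Λ] {V : Type*} [NormedAddCommGroup V]
    [InnerProductSpace ℂ V] [CompleteSpace V] {c : ℝ} {e : Λ → V} {H : (Λ → ℝ) → (V →L[ℂ] V)}
    (M : Model c e H) : HasDens H := by
  intro ω u
  obtain ⟨μ, hfin, hμ⟩ := exists_isSpec (M.sa ω) u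
  refine ⟨Dens μ, measurable_Dens μ, ?_⟩
  refine (pois_tendsto μ).congr' ?_
  filter_upwards [self_mem_nhdsWithin] with t ht
  refine integral_congr_ae (ae_of_all _ fun s => ?_)
  have hz := Zt_im_pos (mem_Ioi.mp ht) s
  simp only [AU]
  rw [im_inner_Rv (M.sa ω) hz.ne', hμ.pois (M.sa ω) hz]

theorem hasDens {d : ℕ} {c : ℝ} (hc : 0 < c) : HasDens (HH d c) := (model hc).hasDens

end Pool.Agent.Lib.MP_562b47_mp
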