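import Mathlib

/-!
Resolvents of bounded self-adjoint operators: basic identities.
(Anderson model, MP_562b47_mp.)
-/

open Complex
open scoped InnerProductSpace

namespace Pool.Agent.Lib.MP_562b47_mp

section

variable {E : Type*} [NormedAddCommGroup E] [InnerProductSpace ℂ E] [CompleteSpace E]

/-- the resolvent `(H - z)⁻¹` -/
noncomputable def Rv (H : E →L[ℂ] E) (z : ℂ) : E →L[ℂ] E :=
  Ring.inverse (H - algebraMap ℂ (E →L[ℂ] E) z)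

theorem isUnit_sub {H : E →L[ℂ] E} (hH : IsSelfAdjoint H) {z : ℂ} (hz : z.im ≠ 0) :
    IsUnit (H - algebraMap ℂ (E →L[ℂ] E) z) := by
  have h1 : z ∉ spectrum ℂ H := by
    intro h
    have h2 := IsSelfAdjoint.mem_spectrum_eq_re hH h
    apply hz
    rw [h2]; simp
  have h2 : IsUnit (algebraMap ℂ (E →L[ℂ] E) z - H) := by
    by_contra h
    exact h1 h
  have h3 : H - algebraMap ℂ (E →L[ℂ] E) z = -(algebraMap ℂ (E →L[ℂ] E) z - H) := by abel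
  rw [h3]
  exact h2.neg

theorem Rv_mul {H : E →L[ℂ] E} (hH : IsSelfAdjoint H) {z : ℂ} (hz : z.im ≠ 0) :
    Rv H z * (H - algebraMap ℂ (E →L[ℂ] E) z) = 1 :=
  Ring.inverse_mul_cancel _ (isUnit_sub hH hz)

theorem mul_Rv {H : E →L[ℂ] E} (hH : IsSelfAdjoint H) {z : ℂ} (hz : z.im ≠ 0) :
    (H - algebraMap ℂ (E →L[ℂ] E) z) * Rv H z = 1 :=
  Ring.mul_inverse_cancel _ (isUnit_sub hH hz)

theorem H_Rv_apply {H : E →L[ℂ] E} (hH : IsSelfAdjoint H) {z : ℂ} (hz : z.im ≠ 0) (u : E) :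
    H (Rv H z u) = u + z • Rv H z u := by
  have h := congrArg (fun T : E →L[ℂ] E => T u) (mul_Rv hH hz)
  simp only [ContinuousLinearMap.mul_apply, ContinuousLinearMap.sub_apply,
    ContinuousLinearMap.one_apply] at h
  rw [Algebra.algebraMap_eq_smul_one] at h
  simp only [ContinuousLinearMap.smul_apply, ContinuousLinearMap.one_apply] at h
  exact sub_eq_iff_eq_add.mp h

theorem Rv_H_apply {H : E →L[ℂ] E} (hH : IsSelfAdjoint H) {z : ℂ} (hz : z.im ≠ 0) (u : E) :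
    Rv H z (H u) = u + z • Rv H z u := by
  have h := congrArg (fun T : E →L[ℂ] E => T u) (Rv_mul hH hz)
  simp only [ContinuousLinearMap.mul_apply, ContinuousLinearMap.sub_apply,
    ContinuousLinearMap.one_apply] at h
  rw [Algebra.algebraMap_eq_smul_one] at h
  simp only [ContinuousLinearMap.smul_apply, ContinuousLinearMap.one_apply, map_sub,
    map_smul] at h
  exact sub_eq_iff_eq_add.mp h

theorem inner_H_comm {H : E →L[ℂ] E} (hH : IsSelfAdjoint H) (u v : E) :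
    ⟪H u, v⟫_ℂ = ⟪u, H v⟫_ℂ := by
  have h := ContinuousLinearMap.adjoint_inner_right H u v
  rw [← h]
  have h2 : ContinuousLinearMap.adjoint H = H := hH
  rw [h2]

/-- the basic identity: `⟪u, R v⟫ - ⟪R u, v⟫ = (z - conj z) ⟪R u, R v⟫` -/
theorem inner_Rv_sub {H : E →L[ℂ] E} (hH : IsSelfAdjoint H) {z : ℂ} (hz : z.im ≠ 0) (u v : E) :
    ⟪u, Rv H z v⟫_ℂ - ⟪Rv H z u, v⟫_ℂ
      = (z - (starRingEnd ℂ) z) * ⟪Rv H z u, Rv H z v⟫_ℂ := by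
  have hu : u = H (Rv H z u) - z • Rv H z u := by rw [H_Rv_apply hH hz]; abel
  have hv : v = H (Rv H z v) - z • Rv H z v := by rw [H_Rv_apply hH hz]; abel
  set a := Rv H z u
  set b := Rv H z v
  have e1 : ⟪u, b⟫_ℂ = ⟪H a, b⟫_ℂ - (starRingEnd ℂ) z * ⟪a, b⟫_ℂ := by
    rw [hu, inner_sub_left, inner_smul_left]
  have e2 : ⟪a, v⟫_ℂ = ⟪a, H b⟫_ℂ - z * ⟪a, b⟫_ℂ := by
    rw [hv, inner_sub_right, inner_smul_right]
  rw [e1, e2, inner_H_comm hH]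
  ring

theorem im_inner_Rv {H : E →L[ℂ] E} (hH : IsSelfAdjoint H) {z : ℂ} (hz : z.im ≠ 0) (u : E) :
    (⟪u, Rv H z u⟫_ℂ).im = z.im * ‖Rv H z u‖ ^ 2 := by
  have h := inner_Rv_sub hH hz u u
  have h1 : ⟪Rv H z u, u⟫_ℂ = (starRingEnd ℂ) ⟪u, Rv H z u⟫_ℂ := (inner_conj_symm _ _).symm
  rw [h1, inner_self_eq_norm_sq_to_K] at h
  have h2 := congrArg Complex.im h
  simp only [Complex.sub_im, Complex.conj_im] at h2
  have h3 : ((z - (starRingEnd ℂ) z) * ((‖Rv H z u‖ : ℂ)) ^ 2).im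
      = 2 * z.im * ‖Rv H z u‖ ^ 2 := by
    have : (z - (starRingEnd ℂ) z) = ((2 * z.im : ℝ) : ℂ) * I := by
      apply Complex.ext <;> simp <;> ring
    rw [this]
    rw [show ((2 * z.im : ℝ) : ℂ) * I * ((‖Rv H z u‖ : ℂ)) ^ 2
      = ((2 * z.im * ‖Rv H z u‖ ^ 2 : ℝ) : ℂ) * I by push_cast; ring]
    rw [Complex.mul_im, Complex.ofReal_re, Complex.ofReal_im, Complex.I_im, Complex.I_re]
    ring
  have h4 : ((z - (starRingEnd ℂ) z) * (((‖Rv H z u‖ : ℝ) : ℂ)) ^ 2).im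
      = 2 * z.im * ‖Rv H z u‖ ^ 2 := h3
  rw [show ((RCLike.ofReal ‖Rv H z u‖ : ℂ)) = ((‖Rv H z u‖ : ℝ) : ℂ) from rfl] at h2
  rw [h4] at h2
  linarith

theorem norm_Rv_le {H : E →L[ℂ] E} (hH : IsSelfAdjoint H) {z : ℂ} (hz : z.im ≠ 0) (u : E) :
    |z.im| * ‖Rv H z u‖ ≤ ‖u‖ := by
  by_cases h0 : ‖Rv H z u‖ = 0
  · rw [h0]; simp
  have hpos : 0 < ‖Rv H z u‖ := lt_of_le_of_ne (norm_nonneg _) (Ne.symm h0)
  have h1 := im_inner_Rv hH hz u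
  have h2 : |(⟪u, Rv H z u⟫_ℂ).im| ≤ ‖u‖ * ‖Rv H z u‖ :=
    (Complex.abs_im_le_norm _).trans (norm_inner_le_norm _ _)
  rw [h1, abs_mul, abs_of_nonneg (by positivity : (0:ℝ) ≤ ‖Rv H z u‖ ^ 2)] at h2
  have h3 : |z.im| * ‖Rv H z u‖ * ‖Rv H z u‖ ≤ ‖u‖ * ‖Rv H z u‖ := by nlinarith
  exact le_of_mul_le_mul_right h3 hpos

theorem Rv_ne_zero {H : E →L[ℂ] E} (hH : IsSelfAdjoint H) {z : ℂ} (hz : z.im ≠ 0) {u : E}
    (hu : u ≠ 0) : Rv H z u ≠ 0 := by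
  intro h
  apply hu
  have := H_Rv_apply hH hz u
  rw [h] at this
  simpa using this.symm

/-- second resolvent identity -/
theorem Rv_sub_Rv {H H' : E →L[ℂ] E} (hH : IsSelfAdjoint H) (hH' : IsSelfAdjoint H')
    {z w : ℂ} (hz : z.im ≠ 0) (hw : w.im ≠ 0) (u : E) :
    Rv H' w u - Rv H z u = - Rv H' w ((H' - H) (Rv H z u) - (w - z) • Rv H z u) := by
  have h1 : Rv H' w ((H' - H) (Rv H z u) - (w - z) • Rv H z u)
      = Rv H' w (H' (Rv H z u)) - Rv H' w (H (Rv H z u)) - (w - z) • Rv H' w (Rv H z u) := by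
    simp only [ContinuousLinearMap.sub_apply, map_sub, map_smul]
  rw [h1, Rv_H_apply hH' hw, H_Rv_apply hH hz]
  simp only [map_add, map_smul, sub_smul]
  abel

theorem Rv_conj {H : E →L[ℂ] E} (hH : IsSelfAdjoint H) {z : ℂ} (hz : z.im ≠ 0) (u v : E) :
    ⟪Rv H z u, v⟫_ℂ = ⟪u, Rv H ((starRingEnd ℂ) z) v⟫_ℂ := by
  have hz' : ((starRingEnd ℂ) z).im ≠ 0 := by simpa using hz
  have hu : u = H (Rv H z u) - z • Rv H z u := by rw [H_Rv_apply hH hz]; abel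
  have hv : v = H (Rv H ((starRingEnd ℂ) z) v) - ((starRingEnd ℂ) z) • Rv H ((starRingEnd ℂ) z) v := by
    rw [H_Rv_apply hH hz']; abel
  set a := Rv H z u
  set b := Rv H ((starRingEnd ℂ) z) v
  calc ⟪a, v⟫_ℂ = ⟪a, H b⟫_ℂ - (starRingEnd ℂ) z * ⟪a, b⟫_ℂ := by
        rw [hv, inner_sub_right, inner_smul_right]
    _ = ⟪H a, b⟫_ℂ - (starRingEnd ℂ) z * ⟪a, b⟫_ℂ := by rw [inner_H_comm hH]
    _ = ⟪u, b⟫_ℂ := by rw [hu, inner_sub_left, inner_smul_left]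

end

end Pool.Agent.Lib.MP_562b47_mp
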