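import Mathlib
import Pool.Agent.Lib.MP_562b47_mp.Poisson

/-!
Parseval identity for power series on circles `|w| = r`, in the parametrisation
`w = r * (E - i) / (E + i)` with `E` Cauchy distributed.
(Anderson model, MP_562b47_mp.)
-/

open MeasureTheory Measure ProbabilityTheory Set Filter Topology Complex
open scoped Real ENNReal NNReal

namespace Pool.Agent.Lib.MP_562b47_mp

/-- the point of the unit circle corresponding to `E` -/
noncomputable def uE (E : ℝ) : ℂ := (E - I) / (E + I)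

theorem E_add_I_ne (E : ℝ) : (E : ℂ) + I ≠ 0 := by
  intro h
  have := congrArg Complex.im h
  simp at this

theorem E_sub_I_ne (E : ℝ) : (E : ℂ) - I ≠ 0 := by
  intro h
  have := congrArg Complex.im h
  simp at this

theorem uE_ne (E : ℝ) : uE E ≠ 0 := div_ne_zero (E_sub_I_ne E) (E_add_I_ne E)

theorem norm_uE (E : ℝ) : ‖uE E‖ = 1 := by
  unfold uE
  rw [norm_div]
  have h : ‖(E : ℂ) - I‖ = ‖(E : ℂ) + I‖ := by
    have : (E : ℂ) - I = (starRingEnd ℂ) ((E : ℂ) + I) := by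
      simp [Complex.conj_ofReal, Complex.conj_I, sub_eq_add_neg]
    rw [this, Complex.norm_conj]
  rw [h, div_self]
  exact norm_ne_zero_iff.mpr (E_add_I_ne E)

theorem continuous_uE : Continuous uE := by
  unfold uE
  exact Continuous.div (by fun_prop) (by fun_prop) E_add_I_ne

theorem uE_eq (E : ℝ) : uE E = 1 - 2 * I / (E + I) := by
  unfold uE
  have := E_add_I_ne E
  field_simp
  ring

theorem norm_uE_sub_one_le (E : ℝ) (hE : E ≠ 0) : ‖uE E - 1‖ ≤ 2 / |E| := by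
  rw [uE_eq]
  have h1 : (1 : ℂ) - 2 * I / (E + I) - 1 = -(2 * I / (E + I)) := by ring
  rw [h1, norm_neg, norm_div]
  have h2 : ‖(2 : ℂ) * I‖ = 2 := by simp
  rw [h2]
  have h3 : |E| ≤ ‖(E : ℂ) + I‖ := by
    have := Complex.abs_re_le_norm ((E : ℂ) + I)
    simpa using this
  exact div_le_div_of_nonneg_left (by norm_num) (abs_pos.mpr hE) h3

theorem tendsto_uE_atTop : Tendsto uE atTop (𝓝 1) := by
  rw [tendsto_iff_norm_sub_tendsto_zero]
  have h : Tendsto (fun E : ℝ => 2 / E) atTop (𝓝 0) := tendsto_const_nhds.div_atTop tendsto_id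
  refine tendsto_of_tendsto_of_tendsto_of_le_of_le' tendsto_const_nhds h
    (Eventually.of_forall fun _ => norm_nonneg _) ?_
  filter_upwards [eventually_gt_atTop 0] with E hE
  have := norm_uE_sub_one_le E hE.ne'
  rwa [abs_of_pos hE] at this

theorem tendsto_uE_atBot : Tendsto uE atBot (𝓝 1) := by
  rw [tendsto_iff_norm_sub_tendsto_zero]
  have h : Tendsto (fun E : ℝ => 2 / (-E)) atBot (𝓝 0) :=
    tendsto_const_nhds.div_atTop tendsto_neg_atBot_atTop
  refine tendsto_of_tendsto_of_tendsto_of_le_of_le' tendsto_const_nhds h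
    (Eventually.of_forall fun _ => norm_nonneg _) ?_
  filter_upwards [eventually_lt_atBot 0] with E hE
  have := norm_uE_sub_one_le E hE.ne
  rwa [abs_of_neg hE] at this

theorem hasDerivAt_uE (E : ℝ) : HasDerivAt uE (2 * I / (E + I) ^ 2) E := by
  unfold uE
  have h1 : HasDerivAt (fun x : ℝ => ((x : ℂ) - I)) 1 E := (Complex.ofRealCLM.hasDerivAt).sub_const I
  have h2 : HasDerivAt (fun x : ℝ => ((x : ℂ) + I)) 1 E := (Complex.ofRealCLM.hasDerivAt).add_const I
  have h3 := h1.fun_div h2 (E_add_I_ne E)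
  refine h3.congr_deriv ?_
  have := E_add_I_ne E
  congr 1
  ring

theorem integral_kap_eq {f : ℝ → ℂ} : ∫ E, f E ∂kap = ∫ E, ((π⁻¹ * (1 + E ^ 2)⁻¹ : ℝ) : ℂ) * f E := by
  rw [kap_eq]
  rw [integral_withDensity_eq_integral_toReal_smul (by fun_prop)
    (ae_of_all _ fun x => ENNReal.ofReal_lt_top)]
  refine integral_congr_ae (ae_of_all _ fun x => ?_)
  simp only
  rw [ENNReal.toReal_ofReal (by positivity), Complex.real_smul]

theorem integral_uE_pow {n : ℕ} (hn : n ≠ 0) : ∫ E, uE E ^ n ∂kap = 0 := by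
  rw [integral_kap_eq]
  have hn' : (n : ℂ) ≠ 0 := by exact_mod_cast hn
  have hd : ∀ E : ℝ, HasDerivAt (fun E => (2 * π * I * n : ℂ)⁻¹ * uE E ^ n)
      (((π⁻¹ * (1 + E ^ 2)⁻¹ : ℝ) : ℂ) * uE E ^ n) E := by
    intro E
    have h1 := ((hasDerivAt_uE E).fun_pow n).const_mul (2 * π * I * n : ℂ)⁻¹
    refine h1.congr_deriv ?_
    have hA := E_add_I_ne E
    have hB := E_sub_I_ne E
    have hpi : (π : ℂ) ≠ 0 := by exact_mod_cast Real.pi_ne_zero
    have hu : uE E ^ n = uE E ^ (n - 1) * uE E := by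
      rw [← pow_succ, Nat.sub_add_cancel (Nat.one_le_iff_ne_zero.mpr hn)]
    rw [hu]
    have h3 : (((1 + E ^ 2)⁻¹ : ℝ) : ℂ) = (((E : ℂ) + I) * ((E : ℂ) - I))⁻¹ := by
      push_cast
      congr 1
      have : ((E : ℂ) + I) * ((E : ℂ) - I) = E ^ 2 - I ^ 2 := by ring
      rw [this, Complex.I_sq]; ring
    have h4 : ((π⁻¹ * (1 + E ^ 2)⁻¹ : ℝ) : ℂ) = (π : ℂ)⁻¹ * (((E : ℂ) + I) * ((E : ℂ) - I))⁻¹ := by
      rw [← h3]; push_cast; ring
    rw [h4]
    have h5 : uE E = ((E : ℂ) - I) / ((E : ℂ) + I) := rfl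
    set v := uE E ^ (n - 1)
    rw [h5]
    field_simp
  have hint : Integrable (fun E : ℝ => ((π⁻¹ * (1 + E ^ 2)⁻¹ : ℝ) : ℂ) * uE E ^ n) := by
    have h1 : Integrable (fun E : ℝ => ((π⁻¹ * (1 + E ^ 2)⁻¹ : ℝ) : ℂ)) :=
      (integrable_inv_one_add_sq.const_mul π⁻¹).ofReal
    refine h1.mul_bdd (c := 1) (by
      exact (continuous_uE.pow n).aestronglyMeasurable) ?_
    refine ae_of_all _ fun E => ?_
    rw [norm_pow, norm_uE, one_pow]
  have h1 : Tendsto (fun E => (2 * π * I * n : ℂ)⁻¹ * uE E ^ n) atTop (𝓝 ((2 * π * I * n : ℂ)⁻¹ * 1 ^ n)) :=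
    (tendsto_uE_atTop.pow n).const_mul _
  have h2 : Tendsto (fun E => (2 * π * I * n : ℂ)⁻¹ * uE E ^ n) atBot (𝓝 ((2 * π * I * n : ℂ)⁻¹ * 1 ^ n)) :=
    (tendsto_uE_atBot.pow n).const_mul _
  rw [integral_of_hasDerivAt_of_tendsto hd hint h2 h1, sub_self]

theorem conj_uE (E : ℝ) : (starRingEnd ℂ) (uE E) = (uE E)⁻¹ := by
  rw [Complex.inv_def, Complex.normSq_eq_norm_sq, norm_uE]; simp

theorem integral_uE_mul_conj (m n : ℕ) :
    ∫ E, uE E ^ m * (starRingEnd ℂ) (uE E ^ n) ∂kap = if m = n then 1 else 0 := by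
  have h : ∀ a b : ℕ, a < b → ∫ E, uE E ^ b * (starRingEnd ℂ) (uE E ^ a) ∂kap = 0 := by
    intro a b hab
    rw [← integral_uE_pow (n := b - a) (by omega)]
    refine integral_congr_ae (ae_of_all _ fun E => ?_)
    simp only
    rw [map_pow, conj_uE, inv_pow, ← div_eq_mul_inv, pow_sub₀ _ (uE_ne E) hab.le, div_eq_mul_inv]
  rcases lt_trichotomy m n with hmn | hmn | hmn
  · rw [if_neg hmn.ne]
    have h1 := h m n hmn
    have h2 : ∫ E, uE E ^ m * (starRingEnd ℂ) (uE E ^ n) ∂kap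
        = (starRingEnd ℂ) (∫ E, uE E ^ n * (starRingEnd ℂ) (uE E ^ m) ∂kap) := by
      rw [← integral_conj]
      refine integral_congr_ae (ae_of_all _ fun E => ?_)
      simp only [map_mul, Complex.conj_conj]
      ring
    rw [h2, h1, map_zero]
  · subst hmn
    rw [if_pos rfl]
    have : ∀ E, uE E ^ m * (starRingEnd ℂ) (uE E ^ m) = 1 := by
      intro E
      rw [map_pow, conj_uE, inv_pow, mul_inv_cancel₀ (pow_ne_zero _ (uE_ne E))]
    simp_rw [this]
    simp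
  · rw [if_neg hmn.ne']
    exact h n m hmn

theorem integrable_uE (m n : ℕ) (c : ℂ) :
    Integrable (fun E => c * (uE E ^ m * (starRingEnd ℂ) (uE E ^ n))) kap := by
  refine Integrable.of_bound (C := ‖c‖) ?_ (ae_of_all _ fun E => ?_)
  · refine Continuous.aestronglyMeasurable ?_
    have := continuous_uE
    have h2 : Continuous (fun E => (starRingEnd ℂ) (uE E ^ n)) :=
      Complex.continuous_conj.comp (this.pow n)
    exact continuous_const.mul ((this.pow m).mul h2)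
  · rw [norm_mul, norm_mul, Complex.norm_conj, norm_pow, norm_pow, norm_uE]
    simp

/-- coefficient extraction and Parseval for absolutely summable series -/
theorem integral_series_mul_conj {b : ℕ → ℂ} (hb : Summable fun n => ‖b n‖) (n : ℕ) :
    ∫ E, (∑' m, b m * uE E ^ m) * (starRingEnd ℂ) (uE E ^ n) ∂kap = b n := by
  have h1 : ∀ E, (∑' m, b m * uE E ^ m) * (starRingEnd ℂ) (uE E ^ n)
      = ∑' m, b m * (uE E ^ m * (starRingEnd ℂ) (uE E ^ n)) := by
    intro E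
    rw [← tsum_mul_right]
    refine tsum_congr fun m => by ring
  simp_rw [h1]
  rw [← integral_tsum_of_summable_integral_norm (fun m => integrable_uE m n (b m))]
  · have h2 : ∀ m, ∫ E, b m * (uE E ^ m * (starRingEnd ℂ) (uE E ^ n)) ∂kap
        = if m = n then b m else 0 := by
      intro m
      rw [integral_const_mul, integral_uE_mul_conj]
      split_ifs <;> simp
    simp_rw [h2]
    rw [tsum_ite_eq]
  · refine hb.congr fun m => ?_
    have : ∀ E, ‖b m * (uE E ^ m * (starRingEnd ℂ) (uE E ^ n))‖ = ‖b m‖ := by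
      intro E
      rw [norm_mul, norm_mul, Complex.norm_conj, norm_pow, norm_pow, norm_uE]
      simp
    simp_rw [this]
    simp

theorem continuous_series {b : ℕ → ℂ} (hb : Summable fun n => ‖b n‖) :
    Continuous (fun E => ∑' m, b m * uE E ^ m) := by
  refine continuous_tsum (fun m => continuous_const.mul (continuous_uE.pow m)) hb fun m E => ?_
  rw [norm_mul, norm_pow, norm_uE, one_pow, mul_one]

theorem norm_series_le {b : ℕ → ℂ} (hb : Summable fun n => ‖b n‖) (E : ℝ) :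
    ‖∑' m, b m * uE E ^ m‖ ≤ ∑' m, ‖b m‖ := by
  have h : ∀ m, ‖b m * uE E ^ m‖ = ‖b m‖ := by
    intro m; rw [norm_mul, norm_pow, norm_uE, one_pow, mul_one]
  refine (norm_tsum_le_tsum_norm ?_).trans (le_of_eq (tsum_congr h))
  exact hb.congr fun m => (h m).symm

theorem parseval {b : ℕ → ℂ} (hb : Summable fun n => ‖b n‖) :
    ∫ E, ‖∑' m, b m * uE E ^ m‖ ^ 2 ∂kap = ∑' n, ‖b n‖ ^ 2 := by
  have hcont := continuous_series hb
  set S := ∑' m, ‖b m‖
  have h1 : ∀ E, ((‖∑' m, b m * uE E ^ m‖ ^ 2 : ℝ) : ℂ)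
      = ∑' n, (starRingEnd ℂ) (b n) * ((∑' m, b m * uE E ^ m) * (starRingEnd ℂ) (uE E ^ n)) := by
    intro E
    have hs : Summable fun m => b m * uE E ^ m := by
      refine Summable.of_norm ?_
      refine hb.congr fun m => ?_
      rw [norm_mul, norm_pow, norm_uE, one_pow, mul_one]
    have e1 : ((‖∑' m, b m * uE E ^ m‖ ^ 2 : ℝ) : ℂ)
        = (∑' m, b m * uE E ^ m) * (starRingEnd ℂ) (∑' m, b m * uE E ^ m) := by
      rw [Complex.mul_conj, Complex.normSq_eq_norm_sq]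
    rw [e1, Complex.conj_tsum, ← tsum_mul_left]
    refine tsum_congr fun m => ?_
    rw [map_mul]; ring
  have h2 : ((∫ E, ‖∑' m, b m * uE E ^ m‖ ^ 2 ∂kap : ℝ) : ℂ)
      = ∫ E, ((‖∑' m, b m * uE E ^ m‖ ^ 2 : ℝ) : ℂ) ∂kap := integral_ofReal.symm
  have hint : ∀ n, Integrable (fun E => (starRingEnd ℂ) (b n) *
      ((∑' m, b m * uE E ^ m) * (starRingEnd ℂ) (uE E ^ n))) kap := by
    intro n
    refine Integrable.const_mul ?_ _
    refine Integrable.of_bound (C := S) ?_ (ae_of_all _ fun E => ?_)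
    · exact (hcont.mul (Complex.continuous_conj.comp (continuous_uE.pow n))).aestronglyMeasurable
    · rw [norm_mul, Complex.norm_conj, norm_pow, norm_uE, one_pow, mul_one]
      exact norm_series_le hb E
  have h3 : ((∫ E, ‖∑' m, b m * uE E ^ m‖ ^ 2 ∂kap : ℝ) : ℂ) = ((∑' n, ‖b n‖ ^ 2 : ℝ) : ℂ) := by
    rw [h2]
    simp_rw [h1]
    rw [← integral_tsum_of_summable_integral_norm hint]
    · rw [Complex.ofReal_tsum]
      refine tsum_congr fun n => ?_
      rw [integral_const_mul, integral_series_mul_conj hb, mul_comm, Complex.mul_conj,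
        Complex.normSq_eq_norm_sq]
    · refine Summable.of_nonneg_of_le (fun n => integral_nonneg fun E => norm_nonneg _) (fun n => ?_)
        (hb.mul_right S)
      have : ∀ E, ‖(starRingEnd ℂ) (b n) * ((∑' m, b m * uE E ^ m) * (starRingEnd ℂ) (uE E ^ n))‖
          ≤ ‖b n‖ * S := by
        intro E
        rw [norm_mul, norm_mul, Complex.norm_conj, Complex.norm_conj, norm_pow, norm_uE, one_pow,
          mul_one]
        exact mul_le_mul_of_nonneg_left (norm_series_le hb E) (norm_nonneg _)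
      calc ∫ E, ‖(starRingEnd ℂ) (b n) * ((∑' m, b m * uE E ^ m) * (starRingEnd ℂ) (uE E ^ n))‖ ∂kap
          ≤ ∫ E, ‖b n‖ * S ∂kap := integral_mono (hint n).norm (integrable_const _) this
        _ = ‖b n‖ * S := by simp
  exact_mod_cast h3

/-- Taylor coefficients at `0` -/
noncomputable def tay (f : ℂ → ℂ) (n : ℕ) : ℂ := ((n.factorial : ℂ))⁻¹ * iteratedDeriv n f 0

theorem hasSum_tay {f : ℂ → ℂ} (hf : DifferentiableOn ℂ f (Metric.ball 0 1)) {w : ℂ}
    (hw : ‖w‖ < 1) : HasSum (fun n => tay f n * w ^ n) (f w) := by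
  have hw' : w ∈ Metric.ball (0:ℂ) 1 := by simpa using hw
  have h := Complex.hasSum_taylorSeries_on_ball hf hw'
  have e : (fun n : ℕ => ((n.factorial : ℂ))⁻¹ • (w - 0) ^ n • iteratedDeriv n f 0)
      = fun n => tay f n * w ^ n := by
    funext n
    simp only [tay, smul_eq_mul, sub_zero]
    ring
  rwa [e] at h

theorem summable_tay {f : ℂ → ℂ} (hf : DifferentiableOn ℂ f (Metric.ball 0 1)) {r : ℝ}
    (hr0 : 0 ≤ r) (hr : r < 1) : Summable (fun n => ‖tay f n * (r : ℂ) ^ n‖) := by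
  have hw : ‖(r : ℂ)‖ < 1 := by simpa [abs_of_nonneg hr0] using hr
  exact (hasSum_tay hf hw).summable.norm

theorem tay_curve {f : ℂ → ℂ} (hf : DifferentiableOn ℂ f (Metric.ball 0 1)) {r : ℝ}
    (hr0 : 0 ≤ r) (hr : r < 1) (E : ℝ) :
    f (r * uE E) = ∑' n, (tay f n * (r : ℂ) ^ n) * uE E ^ n := by
  have hw : ‖(r : ℂ) * uE E‖ < 1 := by
    rw [norm_mul, norm_uE, mul_one]; simpa [abs_of_nonneg hr0] using hr
  rw [← (hasSum_tay hf hw).tsum_eq]
  refine tsum_congr fun n => ?_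
  rw [mul_pow]; ring

/-- Parseval for an analytic function on the circle of radius `r` -/
theorem parseval_tay {f : ℂ → ℂ} (hf : DifferentiableOn ℂ f (Metric.ball 0 1)) {r : ℝ}
    (hr0 : 0 ≤ r) (hr : r < 1) :
    ∫ E, ‖f (r * uE E)‖ ^ 2 ∂kap = ∑' n, ‖tay f n * (r : ℂ) ^ n‖ ^ 2 := by
  rw [← parseval (summable_tay hf hr0 hr)]
  refine integral_congr_ae (ae_of_all _ fun E => ?_)
  simp only
  rw [tay_curve hf hr0 hr]

theorem tay_coeff {f : ℂ → ℂ} (hf : DifferentiableOn ℂ f (Metric.ball 0 1)) {r : ℝ}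
    (hr0 : 0 ≤ r) (hr : r < 1) (n : ℕ) :
    tay f n * (r : ℂ) ^ n = ∫ E, f (r * uE E) * (starRingEnd ℂ) (uE E ^ n) ∂kap := by
  rw [← integral_series_mul_conj (summable_tay hf hr0 hr)]
  refine integral_congr_ae (ae_of_all _ fun E => ?_)
  simp only
  rw [tay_curve hf hr0 hr]

theorem summable_sq_tay {f : ℂ → ℂ} (hf : DifferentiableOn ℂ f (Metric.ball 0 1)) {r : ℝ}
    (hr0 : 0 ≤ r) (hr : r < 1) : Summable (fun n => ‖tay f n * (r : ℂ) ^ n‖ ^ 2) := by
  have h := summable_tay hf hr0 hr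
  have h0 : Tendsto (fun n => ‖tay f n * (r : ℂ) ^ n‖) atTop (𝓝 0) := h.tendsto_atTop_zero
  have h1 : ∀ᶠ n in atTop, ‖tay f n * (r : ℂ) ^ n‖ ≤ 1 := h0.eventually (ge_mem_nhds zero_lt_one)
  refine summable_of_isBigO_nat h ?_
  refine Asymptotics.IsBigO.of_bound 1 ?_
  filter_upwards [h1] with n hn
  rw [one_mul, Real.norm_of_nonneg (by positivity), Real.norm_of_nonneg (norm_nonneg _), sq]
  calc _ ≤ ‖tay f n * (r : ℂ) ^ n‖ * 1 := mul_le_mul_of_nonneg_left hn (norm_nonneg _)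
    _ = _ := mul_one _

theorem bessel_r {f : ℂ → ℂ} (hf : DifferentiableOn ℂ f (Metric.ball 0 1)) {M : ℝ}
    (hM : ∀ w, ‖w‖ < 1 → ‖f w‖ ≤ M) (N : ℕ) {r : ℝ} (hr0 : 0 ≤ r) (hr : r < 1) :
    ∑ n ∈ Finset.range N, ‖tay f n * (r : ℂ) ^ n‖ ^ 2 ≤ M ^ 2 := by
  have hM0 : 0 ≤ M := (norm_nonneg _).trans (hM 0 (by simp))
  calc ∑ n ∈ Finset.range N, ‖tay f n * (r : ℂ) ^ n‖ ^ 2
      ≤ ∑' n, ‖tay f n * (r : ℂ) ^ n‖ ^ 2 :=
        (summable_sq_tay hf hr0 hr).sum_le_tsum _ fun i _ => by positivity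
    _ = ∫ E, ‖f (r * uE E)‖ ^ 2 ∂kap := (parseval_tay hf hr0 hr).symm
    _ ≤ ∫ E, M ^ 2 ∂kap := by
        refine integral_mono_of_nonneg (ae_of_all _ fun E => by positivity) (integrable_const _)
          (ae_of_all _ fun E => ?_)
        have hw : ‖(r : ℂ) * uE E‖ < 1 := by
          rw [norm_mul, norm_uE, mul_one]; simpa [abs_of_nonneg hr0] using hr
        exact pow_le_pow_left₀ (norm_nonneg _) (hM _ hw) 2
    _ = M ^ 2 := by simp

/-- Bessel inequality for bounded analytic functions on the unit disc -/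
theorem bessel {f : ℂ → ℂ} (hf : DifferentiableOn ℂ f (Metric.ball 0 1)) {M : ℝ}
    (hM : ∀ w, ‖w‖ < 1 → ‖f w‖ ≤ M) (N : ℕ) :
    ∑ n ∈ Finset.range N, ‖tay f n‖ ^ 2 ≤ M ^ 2 := by
  have h1 : Tendsto (fun r : ℝ => ∑ n ∈ Finset.range N, ‖tay f n * (r : ℂ) ^ n‖ ^ 2) (𝓝[<] 1)
      (𝓝 (∑ n ∈ Finset.range N, ‖tay f n * ((1:ℝ) : ℂ) ^ n‖ ^ 2)) := by
    refine tendsto_nhdsWithin_of_tendsto_nhds ?_
    apply Continuous.tendsto
    fun_prop
  simp only [Complex.ofReal_one, one_pow, mul_one] at h1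
  refine le_of_tendsto h1 ?_
  have : Ioo (0:ℝ) 1 ∈ 𝓝[<] (1:ℝ) := Ioo_mem_nhdsLT zero_lt_one
  filter_upwards [this] with r hr
  exact bessel_r hf hM N hr.1.le hr.2

theorem summable_sq_tay' {f : ℂ → ℂ} (hf : DifferentiableOn ℂ f (Metric.ball 0 1)) {M : ℝ}
    (hM : ∀ w, ‖w‖ < 1 → ‖f w‖ ≤ M) : Summable (fun n => ‖tay f n‖ ^ 2) :=
  summable_of_sum_range_le (fun n => by positivity) (bessel hf hM)

/-- the map from the disc to the upper half plane -/
noncomputable def zw (w : ℂ) : ℂ := I * (1 + w) / (1 - w)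

theorem one_sub_ne {w : ℂ} (hw : ‖w‖ < 1) : 1 - w ≠ 0 := by
  intro h
  have : w = 1 := by linear_combination -h
  rw [this] at hw; simp at hw

theorem zw_im {w : ℂ} (hw : ‖w‖ < 1) : 0 < (zw w).im := by
  have h1 := one_sub_ne hw
  have h2 : (zw w).im = (1 - ‖w‖ ^ 2) / ‖1 - w‖ ^ 2 := by
    unfold zw
    rw [Complex.div_im, ← Complex.normSq_eq_norm_sq, ← Complex.normSq_eq_norm_sq]
    have h3 : Complex.normSq (1 - w) ≠ 0 := by simpa [Complex.normSq_eq_zero] using h1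
    simp only [Complex.mul_im, Complex.mul_re, Complex.I_re, Complex.I_im, Complex.add_re,
      Complex.add_im, Complex.one_re, Complex.one_im, Complex.sub_re, Complex.sub_im]
    field_simp
    rw [Complex.normSq_apply]
    ring
  rw [h2]
  have h4 : 0 < ‖1 - w‖ := norm_pos_iff.mpr h1
  have h5 : ‖w‖ ^ 2 < 1 := by
    have := pow_lt_one₀ (norm_nonneg w) hw two_ne_zero
    exact this
  have : 0 < 1 - ‖w‖ ^ 2 := by linarith
  positivity

theorem differentiableOn_zw : DifferentiableOn ℂ zw (Metric.ball 0 1) := by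
  intro w hw
  have hw' : ‖w‖ < 1 := by simpa using hw
  unfold zw
  exact (DifferentiableAt.div (by fun_prop) (by fun_prop) (one_sub_ne hw')).differentiableWithinAt

/-- radius corresponding to `t` -/
noncomputable def rt (t : ℝ) : ℝ := (1 - t) / (1 + t)

theorem rt_mem {t : ℝ} (ht : 0 < t) (ht1 : t ≤ 1) : 0 ≤ rt t ∧ rt t < 1 := by
  unfold rt
  constructor
  · exact div_nonneg (by linarith) (by linarith)
  · rw [div_lt_one (by linarith)]; linarith

theorem zw_rt {t : ℝ} (ht : 0 < t) (E : ℝ) : zw (rt t * uE E) = Zt t E := by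
  have h1 : ((1 + t : ℝ) : ℂ) ≠ 0 := by
    have : (1 + t : ℝ) ≠ 0 := by linarith
    exact_mod_cast this
  have h2 := E_add_I_ne E
  have hZ : Zt t E = ((E * (1 - t ^ 2) : ℝ) + (t * (1 + E ^ 2) : ℝ) * I) / ((1 + t ^ 2 * E ^ 2 : ℝ) : ℂ) := by
    unfold Zt
    apply Complex.ext
    · rw [Complex.div_ofReal_re, Complex.add_re, Complex.ofReal_re, Complex.re_ofReal_mul,
        Complex.I_re, mul_zero, add_zero]
    · rw [Complex.div_ofReal_im, Complex.add_im, Complex.ofReal_im, Complex.im_ofReal_mul,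
        Complex.I_im, mul_one, zero_add]
  rw [hZ]
  unfold zw rt uE
  have h4 : (1 : ℂ) - (((1 - t) / (1 + t) : ℝ) : ℂ) * (((E : ℂ) - I) / ((E : ℂ) + I)) ≠ 0 := by
    have hw : ‖((((1 - t) / (1 + t) : ℝ) : ℂ) * (((E : ℂ) - I) / ((E : ℂ) + I)))‖ < 1 := by
      have : ‖((E : ℂ) - I) / ((E : ℂ) + I)‖ = 1 := norm_uE E
      rw [norm_mul, this, mul_one, Complex.norm_real, Real.norm_eq_abs, abs_lt]
      constructor
      · rw [lt_div_iff₀ (by linarith)]; linarith
      · rw [div_lt_one (by linarith)]; linarith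
    exact one_sub_ne hw
  rw [div_eq_div_iff h4 (by exact_mod_cast (by positivity : (1 + t ^ 2 * E ^ 2 : ℝ) ≠ 0))]
  push_cast at h1 ⊢
  field_simp
  ring_nf
  simp only [Complex.I_sq]
  ring

end Pool.Agent.Lib.MP_562b47_mp
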