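import Mathlib

/-!
Resampling one coordinate of an infinite product measure, and shift invariance.
(Anderson model, MP_562b47_mp.)
-/

open MeasureTheory Set Filter Topology
open scoped Real ENNReal NNReal

namespace Pool.Agent.Lib.MP_562b47_mp

variable {Λ : Type*} [DecidableEq Λ] {X : Type*} [MeasurableSpace X]

theorem measurable_upd (y : Λ) :
    Measurable (fun p : (Λ → X) × X => Function.update p.1 y p.2) := by
  rw [measurable_pi_iff]
  intro i
  by_cases h : i = y
  · subst h
    simpa using measurable_snd
  · simp only [Function.update_of_ne h]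
    exact (measurable_pi_apply i).comp measurable_fst

theorem map_update_infinitePi (μ : Measure X) [IsProbabilityMeasure μ] (y : Λ) :
    ((Measure.infinitePi (fun _ : Λ => μ)).prod μ).map (fun p => Function.update p.1 y p.2)
      = Measure.infinitePi (fun _ : Λ => μ) := by
  refine Measure.eq_infinitePi _ fun s t ht => ?_
  have hms : MeasurableSet (Set.pi (s : Set Λ) t) := MeasurableSet.pi s.countable_toSet fun i _ => ht i
  rw [Measure.map_apply (measurable_upd y) hms]
  by_cases hy : y ∈ s
  · have e1 : (fun p : (Λ → X) × X => Function.update p.1 y p.2) ⁻¹' (Set.pi (s : Set Λ) t)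
        = (Set.pi ((s.erase y : Finset Λ) : Set Λ) t) ×ˢ (t y) := by
      ext p
      simp only [mem_preimage, Set.mem_pi, Finset.mem_coe, mem_prod, Finset.mem_erase]
      constructor
      · intro h
        refine ⟨fun i hi => ?_, ?_⟩
        · have := h i hi.2
          rwa [Function.update_of_ne hi.1] at this
        · have := h y hy
          rwa [Function.update_self] at this
      · rintro ⟨h1, h2⟩ i hi
        by_cases hiy : i = y
        · subst hiy; rwa [Function.update_self]
        · rw [Function.update_of_ne hiy]; exact h1 i ⟨hiy, hi⟩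
    rw [e1, Measure.prod_prod, Measure.infinitePi_pi _ (fun i _ => ht i)]
    exact Finset.prod_erase_mul s (fun i => μ (t i)) hy
  · have e1 : (fun p : (Λ → X) × X => Function.update p.1 y p.2) ⁻¹' (Set.pi (s : Set Λ) t)
        = (Set.pi (s : Set Λ) t) ×ˢ univ := by
      ext p
      simp only [mem_preimage, Set.mem_pi, Finset.mem_coe, mem_prod, mem_univ, and_true]
      constructor
      · intro h i hi
        have hne : i ≠ y := fun h' => hy (h' ▸ hi)
        have := h i hi
        rwa [Function.update_of_ne hne] at this
      · intro h i hi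
        have hne : i ≠ y := fun h' => hy (h' ▸ hi)
        rw [Function.update_of_ne hne]; exact h i hi
    rw [e1, Measure.prod_prod, Measure.infinitePi_pi _ (fun i _ => ht i), measure_univ, mul_one]

theorem measurePreserving_upd (μ : Measure X) [IsProbabilityMeasure μ] (y : Λ) :
    MeasurePreserving (fun p : (Λ → X) × X => Function.update p.1 y p.2)
      ((Measure.infinitePi (fun _ : Λ => μ)).prod μ) (Measure.infinitePi (fun _ : Λ => μ)) :=
  ⟨measurable_upd y, map_update_infinitePi μ y⟩

theorem measurePreserving_shift (μ : Measure X) [IsProbabilityMeasure μ] [AddGroup Λ] (a : Λ) :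
    MeasurePreserving (fun ω : Λ → X => fun j => ω (j + a))
      (Measure.infinitePi (fun _ : Λ => μ)) (Measure.infinitePi (fun _ : Λ => μ)) := by
  refine ⟨by fun_prop, ?_⟩
  refine Measure.eq_infinitePi _ fun s t ht => ?_
  have hms : MeasurableSet (Set.pi (s : Set Λ) t) := MeasurableSet.pi s.countable_toSet fun i _ => ht i
  rw [Measure.map_apply (by fun_prop) hms]
  have e1 : (fun ω : Λ → X => fun j => ω (j + a)) ⁻¹' (Set.pi (s : Set Λ) t)
      = Set.pi ((s.map (Equiv.addRight a).toEmbedding : Finset Λ) : Set Λ) (fun i => t (i - a)) := by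
    ext ω
    simp only [mem_preimage, Set.mem_pi, Finset.mem_coe, Finset.mem_map,
      Equiv.coe_toEmbedding, Equiv.coe_addRight]
    constructor
    · rintro h i ⟨j, hj, rfl⟩
      have := h j hj
      simpa using this
    · intro h i hi
      have := h (i + a) ⟨i, hi, rfl⟩
      simpa using this
  rw [e1, Measure.infinitePi_pi _ (fun i _ => ht _), Finset.prod_map]
  simp

end Pool.Agent.Lib.MP_562b47_mp
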