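import Mathlib

/-!
Fractional moment bounds for reciprocals of affine functions.
(Anderson model, MP_562b47_mp.)
-/

open MeasureTheory Set Filter Topology
open scoped Real ENNReal NNReal Interval

namespace Pool.Agent.Lib.MP_562b47_mp

theorem intervalIntegrable_abs_rpow {M : ℝ} (hM : 0 ≤ M) :
    IntervalIntegrable (fun y : ℝ => |y| ^ (-(1/2) : ℝ)) volume (-M) M := by
  have h1 : IntervalIntegrable (fun y : ℝ => |y| ^ (-(1/2) : ℝ)) volume 0 M := by
    have h := intervalIntegral.intervalIntegrable_rpow' (a := 0) (b := M) (r := -(1/2)) (by norm_num)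
    refine h.congr ?_
    intro y hy
    rw [uIoc_of_le hM] at hy
    simp only
    rw [abs_of_pos hy.1]
  have h2 : IntervalIntegrable (fun y : ℝ => |y| ^ (-(1/2) : ℝ)) volume (-M) 0 := by
    have h := h1.comp_mul_left (c := -1)
    simp only [neg_mul, one_mul, abs_neg, div_neg, div_one, neg_zero] at h
    exact h.symm
  exact h2.trans h1

theorem integral_abs_rpow {M : ℝ} (hM : 0 ≤ M) :
    ∫ y in (-M)..M, |y| ^ (-(1/2) : ℝ) = 4 * M ^ (1/2 : ℝ) := by
  have hI := intervalIntegrable_abs_rpow hM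
  have h1 : IntervalIntegrable (fun y : ℝ => |y| ^ (-(1/2) : ℝ)) volume (-M) 0 :=
    hI.mono_set (by
      rw [uIcc_of_le (by linarith), uIcc_of_le (by linarith)]
      exact Icc_subset_Icc le_rfl hM)
  have h2 : IntervalIntegrable (fun y : ℝ => |y| ^ (-(1/2) : ℝ)) volume 0 M :=
    hI.mono_set (by
      rw [uIcc_of_le (by linarith), uIcc_of_le (by linarith)]
      exact Icc_subset_Icc (by linarith) le_rfl)
  rw [← intervalIntegral.integral_add_adjacent_intervals h1 h2]
  have e1 : ∫ y in (-M)..0, |y| ^ (-(1/2) : ℝ) = ∫ y in (0:ℝ)..M, |y| ^ (-(1/2) : ℝ) := by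
    have := intervalIntegral.integral_comp_neg (a := 0) (b := M) (fun y : ℝ => |y| ^ (-(1/2) : ℝ))
    simp only [abs_neg, neg_zero] at this
    exact this.symm
  have e2 : ∫ y in (0:ℝ)..M, |y| ^ (-(1/2) : ℝ) = 2 * M ^ (1/2 : ℝ) := by
    have : ∫ y in (0:ℝ)..M, |y| ^ (-(1/2) : ℝ) = ∫ y in (0:ℝ)..M, y ^ (-(1/2) : ℝ) := by
      refine intervalIntegral.integral_congr_ae (ae_of_all _ fun y hy => ?_)
      rw [uIoc_of_le hM] at hy
      rw [abs_of_pos hy.1]
    rw [this, integral_rpow (Or.inl (by norm_num))]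
    rw [show (-(1/2:ℝ) + 1) = 1/2 by norm_num, Real.zero_rpow (by norm_num)]
    ring
  rw [e1, e2]; ring

/-- real affine case -/
theorem frac_real {c α β M : ℝ} (hc : 0 < c) (hM : 0 < M) (h1 : α + β * c = M)
    (h2 : -M ≤ α - β * c) (h3 : α - β * c ≤ M) :
    IntervalIntegrable (fun v : ℝ => |α + β * v| ^ (-(1/2) : ℝ)) volume (-c) c ∧
    ∫ v in (-c)..c, |α + β * v| ^ (-(1/2) : ℝ) ≤ 16 * c * M ^ (-(1/2) : ℝ) := by
  have hβ0 : 0 ≤ β := by
    have : 0 ≤ β * c := by linarith
    exact nonneg_of_mul_nonneg_left this hc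
  rcases le_or_gt β (M / (4 * c)) with hβ | hβ
  · -- ρ ≥ M / 2
    have hlow : ∀ v ∈ Icc (-c) c, M / 2 ≤ α + β * v := by
      intro v hv
      have : β * (c - v) ≤ M / (4 * c) * (2 * c) := by
        apply mul_le_mul hβ (by linarith [hv.1]) (by linarith [hv.2]) (by positivity)
      have e : M / (4 * c) * (2 * c) = M / 2 := by field_simp; ring
      nlinarith
    have hcont : ContinuousOn (fun v : ℝ => |α + β * v| ^ (-(1/2) : ℝ)) (uIcc (-c) c) := by
      rw [uIcc_of_le (by linarith)]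
      refine ContinuousOn.rpow_const (by fun_prop) fun v hv => Or.inl ?_
      have := hlow v hv
      have h4 : 0 < α + β * v := by linarith
      exact (abs_pos.mpr h4.ne').ne'
    have hI := hcont.intervalIntegrable (μ := volume)
    refine ⟨hI, ?_⟩
    have hbd : ∀ v ∈ Icc (-c) c, |α + β * v| ^ (-(1/2) : ℝ) ≤ 8 * M ^ (-(1/2) : ℝ) := by
      intro v hv
      have h5 := hlow v hv
      have h6 : 0 < M / 2 := by positivity
      have h7 : |α + β * v| ^ (-(1/2) : ℝ) ≤ (M / 2) ^ (-(1/2) : ℝ) := by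
        apply Real.rpow_le_rpow_of_nonpos h6 _ (by norm_num)
        rw [abs_of_nonneg (by linarith)]; exact h5
      refine h7.trans ?_
      rw [Real.div_rpow hM.le (by norm_num), div_eq_mul_inv, mul_comm]
      refine mul_le_mul_of_nonneg_right ?_ (by positivity)
      rw [← Real.rpow_neg (by norm_num), neg_neg]
      calc (2:ℝ) ^ (1/2 : ℝ) ≤ 2 ^ (1:ℝ) := Real.rpow_le_rpow_of_exponent_le (by norm_num) (by norm_num)
        _ ≤ 8 := by norm_num
    calc ∫ v in (-c)..c, |α + β * v| ^ (-(1/2) : ℝ) ≤ ∫ v in (-c)..c, 8 * M ^ (-(1/2) : ℝ) :=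
          intervalIntegral.integral_mono_on (by linarith) hI (by simp) hbd
      _ = 16 * c * M ^ (-(1/2) : ℝ) := by simp; ring
  · have hβpos : 0 < β := lt_of_le_of_lt (by positivity) hβ
    have hII := intervalIntegrable_abs_rpow hM.le
    have hsub : IntervalIntegrable (fun y : ℝ => |y| ^ (-(1/2) : ℝ)) volume (α - β * c) M :=
      hII.mono_set (by
        rw [uIcc_of_le h3, uIcc_of_le (by linarith)]
        exact Icc_subset_Icc h2 le_rfl)
    have hI : IntervalIntegrable (fun v : ℝ => |α + β * v| ^ (-(1/2) : ℝ)) volume (-c) c := by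
      have h4 : IntervalIntegrable (fun y : ℝ => |α + y| ^ (-(1/2) : ℝ)) volume (-(β * c)) (β * c) := by
        have := hsub.comp_add_left α
        have e1 : α - β * c - α = -(β * c) := by ring
        have e2 : M - α = β * c := by rw [← h1]; ring
        rw [e1, e2] at this
        exact this
      have h5 := h4.comp_mul_left (c := β)
      have e1 : -(β * c) / β = -c := by field_simp
      have e2 : (β * c) / β = c := by field_simp
      rw [e1, e2] at h5
      exact h5
    refine ⟨hI, ?_⟩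
    have h6 := intervalIntegral.integral_comp_add_mul (a := -c) (b := c)
      (fun y : ℝ => |y| ^ (-(1/2) : ℝ)) hβpos.ne' α
    rw [h6]
    have e1 : α + β * -c = α - β * c := by ring
    rw [e1, h1, smul_eq_mul]
    have h7 : ∫ y in (α - β * c)..M, |y| ^ (-(1/2) : ℝ) ≤ ∫ y in (-M)..M, |y| ^ (-(1/2) : ℝ) := by
      refine intervalIntegral.integral_mono_interval h2 h3 le_rfl ?_ hII
      exact ae_of_all _ fun y => by positivity
    rw [integral_abs_rpow hM.le] at h7
    have h8 : β⁻¹ ≤ 4 * c / M := by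
      rw [inv_le_comm₀ hβpos (by positivity)]
      calc (4 * c / M)⁻¹ = M / (4 * c) := by rw [inv_div]
        _ ≤ β := hβ.le
    have h9 : M ^ (1/2 : ℝ) / M = M ^ (-(1/2) : ℝ) := by
      nth_rewrite 2 [← Real.rpow_one M]
      rw [← Real.rpow_sub hM]; norm_num
    calc β⁻¹ * ∫ y in (α - β * c)..M, |y| ^ (-(1/2) : ℝ) ≤ (4 * c / M) * (4 * M ^ (1/2 : ℝ)) :=
          mul_le_mul h8 h7 (intervalIntegral.integral_nonneg h3 fun y _ => by positivity)
            (by positivity)
      _ = 16 * c * (M ^ (1/2 : ℝ) / M) := by field_simp; ring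
      _ = 16 * c * M ^ (-(1/2) : ℝ) := by rw [h9]

/-- complex affine case, maximum at the right end -/
theorem frac_complex_aux {c : ℝ} (hc : 0 < c) (a b : ℂ)
    (hne : ∀ v ∈ Icc (-c) c, a + b * (v : ℂ) ≠ 0)
    (hmax : ‖a - b * c‖ ≤ ‖a + b * c‖) :
    ∫ v in (-c)..c, ‖a + b * (v : ℂ)‖ ^ (-(1/2) : ℝ) ≤ 16 * c * ‖a + b * c‖ ^ (-(1/2) : ℝ) := by
  have hcc : c ∈ Icc (-c) c := ⟨by linarith, le_rfl⟩
  have hw := hne c hcc
  set w := a + b * (c : ℂ) with hwdef
  have hM : 0 < ‖w‖ := norm_pos_iff.mpr hw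
  set θ : ℂ := (starRingEnd ℂ) w / (‖w‖ : ℂ) with hθ
  have hθn : ‖θ‖ = 1 := by
    rw [hθ, norm_div, Complex.norm_conj, Complex.norm_real, norm_norm, div_self hM.ne']
  have hθw : θ * w = (‖w‖ : ℂ) := by
    rw [hθ, div_mul_eq_mul_div, mul_comm, Complex.mul_conj, Complex.normSq_eq_norm_sq]
    have : (‖w‖ : ℂ) ≠ 0 := by exact_mod_cast hM.ne'
    field_simp
    push_cast
    ring
  set α := (θ * a).re
  set β := (θ * b).re
  have hre : ∀ v : ℝ, α + β * v = (θ * (a + b * (v : ℂ))).re := by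
    intro v
    have : θ * (a + b * (v : ℂ)) = θ * a + (θ * b) * (v : ℂ) := by ring
    rw [this, Complex.add_re, Complex.re_mul_ofReal]
  have hle : ∀ v : ℝ, |α + β * v| ≤ ‖a + b * (v : ℂ)‖ := by
    intro v
    rw [hre]
    refine (Complex.abs_re_le_norm _).trans ?_
    rw [norm_mul, hθn, one_mul]
  have h1 : α + β * c = ‖w‖ := by
    rw [hre, ← hwdef, hθw, Complex.ofReal_re]
  have habs : |α - β * c| ≤ ‖w‖ := by
    have := hle (-c)
    have e1 : a + b * ((-c : ℝ) : ℂ) = a - b * c := by push_cast; ring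
    have e2 : α + β * -c = α - β * c := by ring
    rw [e1, e2] at this
    exact this.trans hmax
  obtain ⟨h2, h3⟩ := abs_le.mp habs
  obtain ⟨hI, hbd⟩ := frac_real hc hM h1 h2 h3
  have hI2 : IntervalIntegrable (fun v : ℝ => ‖a + b * (v : ℂ)‖ ^ (-(1/2) : ℝ)) volume (-c) c := by
    apply ContinuousOn.intervalIntegrable
    rw [uIcc_of_le (by linarith)]
    refine ContinuousOn.rpow_const (by fun_prop) fun v hv => Or.inl ?_
    exact (norm_pos_iff.mpr (hne v hv)).ne'
  refine le_trans ?_ hbd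
  refine intervalIntegral.integral_mono_ae (by linarith) hI2 hI ?_
  -- the real affine function vanishes at most at one point
  have hz : ∀ᵐ v : ℝ, α + β * v ≠ 0 := by
    by_cases hβ : β = 0
    · refine ae_of_all _ fun v => ?_
      rw [hβ, zero_mul, add_zero]
      have : α = ‖w‖ := by rw [← h1, hβ]; ring
      rw [this]; exact hM.ne'
    · have : ∀ᵐ v : ℝ, v ≠ -α / β := by
        rw [ae_iff]; simp
      filter_upwards [this] with v hv hcon
      apply hv
      field_simp
      linarith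
  filter_upwards [hz] with v hv
  exact Real.rpow_le_rpow_of_nonpos (abs_pos.mpr hv) (hle v) (by norm_num)

theorem frac_complex {c : ℝ} (hc : 0 < c) (a b : ℂ)
    (hne : ∀ v ∈ Icc (-c) c, a + b * (v : ℂ) ≠ 0) :
    ∫ v in (-c)..c, ‖a + b * (v : ℂ)‖ ^ (-(1/2) : ℝ)
      ≤ 16 * c * (max ‖a + b * c‖ ‖a - b * c‖) ^ (-(1/2) : ℝ) := by
  rcases le_total ‖a - b * c‖ ‖a + b * c‖ with h | h
  · rw [max_eq_left h]; exact frac_complex_aux hc a b hne h
  · rw [max_eq_right h]
    have h1 := frac_complex_aux hc a (-b) (fun v hv => by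
      have := hne (-v) ⟨by linarith [hv.2], by linarith [hv.1]⟩
      have e : a + -b * (v : ℂ) = a + b * ((-v : ℝ) : ℂ) := by push_cast; ring
      rw [e]; exact this) (by
      have e1 : a - -b * (c : ℂ) = a + b * c := by ring
      have e2 : a + -b * (c : ℂ) = a - b * c := by ring
      rw [e1, e2]; exact h)
    have e2 : a + -b * (c : ℂ) = a - b * c := by ring
    rw [e2] at h1
    refine le_trans (le_of_eq ?_) h1
    have := intervalIntegral.integral_comp_neg (a := -c) (b := c)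
      (fun v : ℝ => ‖a + b * (v : ℂ)‖ ^ (-(1/2) : ℝ))
    rw [neg_neg] at this
    rw [← this]
    refine intervalIntegral.integral_congr fun v _ => ?_
    have e3 : a + -b * (v : ℂ) = a + b * ((-v : ℝ) : ℂ) := by push_cast; ring
    rw [e3]

end Pool.Agent.Lib.MP_562b47_mp
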