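import Mathlib
import Pool.Agent.Lib.MP_562b47_mp.Frac

/-!
The uniform distribution on `[-c, c]` and single-site estimates.
(Anderson model, MP_562b47_mp.)
-/

open MeasureTheory Set Filter Topology
open scoped Real ENNReal NNReal Interval

namespace Pool.Agent.Lib.MP_562b47_mp

/-- the uniform probability measure on `[-c, c]` -/
noncomputable def unif (c : ℝ) : Measure ℝ :=
  (ENNReal.ofReal (2 * c))⁻¹ • volume.restrict (Icc (-c) c)

theorem unif_prob {c : ℝ} (hc : 0 < c) : IsProbabilityMeasure (unif c) := by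
  constructor
  unfold unif
  rw [Measure.smul_apply, Measure.restrict_apply_univ, Real.volume_Icc, smul_eq_mul,
    show c - -c = 2 * c by ring]
  exact ENNReal.inv_mul_cancel (by simpa using hc) ENNReal.ofReal_ne_top

theorem ae_unif (c : ℝ) : ∀ᵐ v ∂(unif c), v ∈ Icc (-c) c := by
  have h : ∀ᵐ v ∂(volume.restrict (Icc (-c) c)), v ∈ Icc (-c) c := ae_restrict_mem measurableSet_Icc
  unfold unif
  exact Measure.ae_smul_measure h _

theorem integral_unif {c : ℝ} (hc : 0 < c) (f : ℝ → ℝ) :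
    ∫ v, f v ∂(unif c) = (2 * c)⁻¹ * ∫ v in (-c)..c, f v := by
  unfold unif
  rw [integral_smul_measure, intervalIntegral.integral_of_le (by linarith),
    integral_Icc_eq_integral_Ioc, ENNReal.toReal_inv, ENNReal.toReal_ofReal (by linarith),
    smul_eq_mul]

theorem affine_le_max {c : ℝ} (hc : 0 < c) (a b : ℂ) {v : ℝ} (hv : v ∈ Icc (-c) c) :
    ‖a + b * (v : ℂ)‖ ≤ max ‖a + b * c‖ ‖a - b * c‖ := by
  set l : ℝ := (c + v) / (2 * c) with hl
  have hl0 : 0 ≤ l := div_nonneg (by linarith [hv.1]) (by linarith)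
  have hl1 : l ≤ 1 := by
    rw [hl, div_le_one (by linarith)]; linarith [hv.2]
  have hcc : (c : ℂ) ≠ 0 := by exact_mod_cast hc.ne'
  have e : a + b * (v : ℂ) = (l : ℂ) * (a + b * c) + ((1 - l : ℝ) : ℂ) * (a - b * c) := by
    rw [hl]
    push_cast
    field_simp
    ring
  rw [e]
  calc ‖(l : ℂ) * (a + b * c) + ((1 - l : ℝ) : ℂ) * (a - b * c)‖
      ≤ ‖(l : ℂ) * (a + b * c)‖ + ‖((1 - l : ℝ) : ℂ) * (a - b * c)‖ := norm_add_le _ _
    _ = l * ‖a + b * c‖ + (1 - l) * ‖a - b * c‖ := by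
        rw [norm_mul, norm_mul, Complex.norm_real, Complex.norm_real, Real.norm_of_nonneg hl0,
          Real.norm_of_nonneg (by linarith)]
    _ ≤ l * max ‖a + b * c‖ ‖a - b * c‖ + (1 - l) * max ‖a + b * c‖ ‖a - b * c‖ := by
        refine add_le_add (mul_le_mul_of_nonneg_left (le_max_left _ _) hl0)
          (mul_le_mul_of_nonneg_left (le_max_right _ _) (by linarith))
    _ = max ‖a + b * c‖ ‖a - b * c‖ := by ring

theorem max_pos_of {c : ℝ} (hc : 0 < c) (a b : ℂ)
    (hne : ∀ v ∈ Icc (-c) c, a + b * (v : ℂ) ≠ 0) : 0 < max ‖a + b * c‖ ‖a - b * c‖ :=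
  lt_of_lt_of_le (norm_pos_iff.mpr (hne c ⟨by linarith, le_rfl⟩)) (le_max_left _ _)

theorem norm_b_le {c : ℝ} (hc : 0 < c) (a b : ℂ) : c * ‖b‖ ≤ max ‖a + b * c‖ ‖a - b * c‖ := by
  have h1 : 2 * (c * ‖b‖) ≤ ‖a + b * c‖ + ‖a - b * c‖ := by
    have : (a + b * c) - (a - b * c) = ((2 * c : ℝ) : ℂ) * b := by push_cast; ring
    calc 2 * (c * ‖b‖) = ‖((2 * c : ℝ) : ℂ) * b‖ := by
          rw [norm_mul, Complex.norm_real, Real.norm_of_nonneg (by linarith)]; ring
      _ = ‖(a + b * c) - (a - b * c)‖ := by rw [this]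
      _ ≤ _ := norm_sub_le _ _
  have h2 := le_max_left ‖a + b * c‖ ‖a - b * c‖
  have h3 := le_max_right ‖a + b * c‖ ‖a - b * c‖
  linarith

/-- fractional moment of the reciprocal of an affine function -/
theorem frac_unif {c : ℝ} (hc : 0 < c) (β a b : ℂ)
    (hne : ∀ v ∈ Icc (-c) c, a + b * (v : ℂ) ≠ 0) :
    ∫ v, ‖β / (a + b * (v : ℂ))‖ ^ (1/2 : ℝ) ∂(unif c)
      ≤ 8 * (‖β‖ / max ‖a + b * c‖ ‖a - b * c‖) ^ (1/2 : ℝ) := by
  set M := max ‖a + b * c‖ ‖a - b * c‖ with hM
  have hMpos : 0 < M := max_pos_of hc a b hne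
  rw [integral_unif hc]
  have e1 : ∫ v in (-c)..c, ‖β / (a + b * (v : ℂ))‖ ^ (1/2 : ℝ)
      = ‖β‖ ^ (1/2 : ℝ) * ∫ v in (-c)..c, ‖a + b * (v : ℂ)‖ ^ (-(1/2) : ℝ) := by
    rw [← intervalIntegral.integral_const_mul]
    refine intervalIntegral.integral_congr fun v _ => ?_
    rw [norm_div, Real.div_rpow (norm_nonneg _) (norm_nonneg _), Real.rpow_neg (norm_nonneg _),
      div_eq_mul_inv]
  rw [e1]
  have h2 := frac_complex hc a b hne
  rw [← hM] at h2
  rw [Real.div_rpow (norm_nonneg _) hMpos.le]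
  calc (2 * c)⁻¹ * (‖β‖ ^ (1/2 : ℝ) * ∫ v in (-c)..c, ‖a + b * (v : ℂ)‖ ^ (-(1/2) : ℝ))
      ≤ (2 * c)⁻¹ * (‖β‖ ^ (1/2 : ℝ) * (16 * c * M ^ (-(1/2) : ℝ))) := by
        gcongr
    _ = 8 * (‖β‖ ^ (1/2 : ℝ) / M ^ (1/2 : ℝ)) := by
        rw [Real.rpow_neg hMpos.le]
        field_simp
        ring

theorem integral_sq_unif {c : ℝ} (hc : 0 < c) :
    ∫ v, (∫ v', (v - v') ^ 2 ∂(unif c)) ∂(unif c) = 2 * c ^ 2 / 3 := by
  have h1 : ∀ v : ℝ, ∫ v', (v - v') ^ 2 ∂(unif c) = v ^ 2 + c ^ 2 / 3 := by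
    intro v
    rw [integral_unif hc]
    have : ∀ v' : ℝ, (v - v') ^ 2 = v ^ 2 - (2 * v) * v' + v' ^ 2 := fun v' => by ring
    simp_rw [this]
    rw [intervalIntegral.integral_add (by apply Continuous.intervalIntegrable; fun_prop)
      (by apply Continuous.intervalIntegrable; fun_prop),
      intervalIntegral.integral_sub (by apply Continuous.intervalIntegrable; fun_prop)
      (by apply Continuous.intervalIntegrable; fun_prop), intervalIntegral.integral_const_mul]
    simp only [intervalIntegral.integral_const, integral_id, integral_pow]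
    field_simp
    norm_num
    ring
  simp_rw [h1]
  rw [integral_unif hc]
  rw [intervalIntegral.integral_add (by apply Continuous.intervalIntegrable; fun_prop)
      (by apply Continuous.intervalIntegrable; fun_prop)]
  simp only [intervalIntegral.integral_const, integral_pow]
  field_simp
  norm_num
  ring

/-- the constant in `frac_le_double` -/
noncomputable def Kc (c : ℝ) : ℝ := 8 ^ 8 * (3 / (2 * c ^ 2))

/-- a fractional moment is bounded by the mean square of a difference quotient product -/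
theorem frac_le_double {c : ℝ} (hc : 0 < c) (β a b : ℂ)
    (hne : ∀ v ∈ Icc (-c) c, a + b * (v : ℂ) ≠ 0) :
    (∫ v, ‖β / (a + b * (v : ℂ))‖ ^ (1/2 : ℝ) ∂(unif c)) ^ 8
      ≤ Kc c * ∫ v, (∫ v', (v - v') ^ 2 * (‖β / (a + b * (v : ℂ))‖ ^ 2
        * ‖β / (a + b * (v' : ℂ))‖ ^ 2) ∂(unif c)) ∂(unif c) := by
  have := unif_prob hc
  set M := max ‖a + b * c‖ ‖a - b * c‖ with hM
  have hMpos : 0 < M := max_pos_of hc a b hne
  have h1 := frac_unif hc β a b hne
  rw [← hM] at h1
  have h0 : 0 ≤ ∫ v, ‖β / (a + b * (v : ℂ))‖ ^ (1/2 : ℝ) ∂(unif c) :=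
    integral_nonneg fun v => by positivity
  have h2 : (∫ v, ‖β / (a + b * (v : ℂ))‖ ^ (1/2 : ℝ) ∂(unif c)) ^ 8
      ≤ 8 ^ 8 * (‖β‖ / M) ^ 4 := by
    calc _ ≤ (8 * (‖β‖ / M) ^ (1/2 : ℝ)) ^ 8 := pow_le_pow_left₀ h0 h1 8
      _ = 8 ^ 8 * (‖β‖ / M) ^ 4 := by
        rw [mul_pow, ← Real.rpow_natCast ((‖β‖ / M) ^ (1/2 : ℝ)), ← Real.rpow_mul (by positivity)]
        norm_num
  -- lower bound of the double integral
  set q := (‖β‖ / M) ^ 4 with hq
  have hcont : ContinuousOn (fun v : ℝ => ‖β / (a + b * (v : ℂ))‖ ^ 2) (Icc (-c) c) := by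
    refine ContinuousOn.pow (ContinuousOn.norm ?_) 2
    exact ContinuousOn.div (by fun_prop) (by fun_prop) hne
  have hptw : ∀ v ∈ Icc (-c) c, (‖β‖ / M) ^ 2 ≤ ‖β / (a + b * (v : ℂ))‖ ^ 2 := by
    intro v hv
    rw [norm_div]
    have h3 := affine_le_max hc a b hv
    have h4 : 0 < ‖a + b * (v : ℂ)‖ := norm_pos_iff.mpr (hne v hv)
    refine pow_le_pow_left₀ (by positivity) ?_ 2
    exact div_le_div_of_nonneg_left (norm_nonneg _) h4 h3
  obtain ⟨B, hB⟩ := isCompact_Icc.exists_bound_of_continuousOn hcont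
  have hB0 : 0 ≤ B := (norm_nonneg _).trans (hB c ⟨by linarith, le_rfl⟩)
  have hgB : ∀ v ∈ Icc (-c) c, ‖β / (a + b * (v : ℂ))‖ ^ 2 ≤ B := by
    intro v hv
    have := hB v hv
    rwa [Real.norm_of_nonneg (by positivity)] at this
  have hmeas : Measurable (fun v : ℝ => ‖β / (a + b * (v : ℂ))‖ ^ 2) := by fun_prop
  have hin : ∀ v ∈ Icc (-c) c, Integrable (fun v' : ℝ => (v - v') ^ 2 * (‖β / (a + b * (v : ℂ))‖ ^ 2
        * ‖β / (a + b * (v' : ℂ))‖ ^ 2)) (unif c) := by
    intro v hv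
    refine Integrable.of_bound (C := (2 * c) ^ 2 * (B * B)) (by
      apply Measurable.aestronglyMeasurable; fun_prop) ?_
    filter_upwards [ae_unif c] with v' hv'
    rw [Real.norm_of_nonneg (by positivity)]
    refine mul_le_mul ?_ (mul_le_mul (hgB v hv) (hgB v' hv') (by positivity) hB0) (by positivity)
      (by positivity)
    rw [← sq_abs]
    refine pow_le_pow_left₀ (abs_nonneg _) ?_ 2
    rw [abs_le]; constructor <;> linarith [hv.1, hv.2, hv'.1, hv'.2]
  have h5 : q * (2 * c ^ 2 / 3) ≤ ∫ v, (∫ v', (v - v') ^ 2 * (‖β / (a + b * (v : ℂ))‖ ^ 2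
        * ‖β / (a + b * (v' : ℂ))‖ ^ 2) ∂(unif c)) ∂(unif c) := by
    rw [← integral_sq_unif hc, ← integral_const_mul]
    refine integral_mono_ae ?_ ?_ ?_
    · refine Integrable.const_mul ?_ q
      refine Integrable.of_bound (C := (2 * c) ^ 2) ?_ ?_
      · refine (StronglyMeasurable.integral_prod_right (f := fun v v' : ℝ => (v - v') ^ 2)
          ?_).aestronglyMeasurable
        apply Measurable.stronglyMeasurable
        simp only [Function.uncurry_def]
        fun_prop
      · filter_upwards [ae_unif c] with v hv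
        rw [Real.norm_of_nonneg (integral_nonneg fun _ => by positivity)]
        calc ∫ v', (v - v') ^ 2 ∂(unif c) ≤ ∫ v', (2 * c) ^ 2 ∂(unif c) := by
              refine integral_mono_of_nonneg (ae_of_all _ fun _ => by positivity)
                (integrable_const _) ?_
              filter_upwards [ae_unif c] with v' hv'
              rw [← sq_abs]
              refine pow_le_pow_left₀ (abs_nonneg _) ?_ 2
              rw [abs_le]; constructor <;> linarith [hv.1, hv.2, hv'.1, hv'.2]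
          _ = (2 * c) ^ 2 := by simp
    · refine Integrable.of_bound (C := (2 * c) ^ 2 * (B * B)) ?_ ?_
      · refine (StronglyMeasurable.integral_prod_right (f := fun v v' : ℝ =>
          (v - v') ^ 2 * (‖β / (a + b * (v : ℂ))‖ ^ 2
        * ‖β / (a + b * (v' : ℂ))‖ ^ 2)) ?_).aestronglyMeasurable
        apply Measurable.stronglyMeasurable
        simp only [Function.uncurry_def]
        fun_prop
      · filter_upwards [ae_unif c] with v hv
        rw [Real.norm_of_nonneg (integral_nonneg fun _ => by positivity)]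
        calc _ ≤ ∫ v', (2 * c) ^ 2 * (B * B) ∂(unif c) := by
              refine integral_mono_ae (hin v hv) (integrable_const _) ?_
              filter_upwards [ae_unif c] with v' hv'
              refine mul_le_mul ?_ (mul_le_mul (hgB v hv) (hgB v' hv') (by positivity) hB0)
                (by positivity) (by positivity)
              rw [← sq_abs]
              refine pow_le_pow_left₀ (abs_nonneg _) ?_ 2
              rw [abs_le]; constructor <;> linarith [hv.1, hv.2, hv'.1, hv'.2]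
          _ = _ := by simp
    · filter_upwards [ae_unif c] with v hv
      rw [← integral_const_mul]
      refine integral_mono_ae ?_ (hin v hv) ?_
      · refine Integrable.const_mul ?_ q
        refine Integrable.of_bound (C := (2 * c) ^ 2) (by
          apply Measurable.aestronglyMeasurable; fun_prop) ?_
        filter_upwards [ae_unif c] with v' hv'
        rw [Real.norm_of_nonneg (by positivity), ← sq_abs]
        refine pow_le_pow_left₀ (abs_nonneg _) ?_ 2
        rw [abs_le]; constructor <;> linarith [hv.1, hv.2, hv'.1, hv'.2]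
      · filter_upwards [ae_unif c] with v' hv'
        rw [mul_comm q]
        refine mul_le_mul_of_nonneg_left ?_ (by positivity)
        calc q = (‖β‖ / M) ^ 2 * (‖β‖ / M) ^ 2 := by rw [hq]; ring
          _ ≤ _ := mul_le_mul (hptw v hv) (hptw v' hv') (by positivity) (by positivity)
  have hK : 0 < Kc c := by unfold Kc; positivity
  calc _ ≤ 8 ^ 8 * q := h2
    _ = Kc c * (q * (2 * c ^ 2 / 3)) := by
        unfold Kc; field_simp
    _ ≤ _ := mul_le_mul_of_nonneg_left h5 hK.le

end Pool.Agent.Lib.MP_562b47_mp
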