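import Mathlib
import Pool.Agent.Lib.MP_562b47_mp.Green
import Pool.Agent.Lib.MP_562b47_mp.Hardy
import Pool.Agent.Lib.MP_562b47_mp.Unif
import Pool.Agent.Lib.MP_562b47_mp.Prod

/-!
An abstract Anderson-type family of operators, Green function identities.
(Anderson model, MP_562b47_mp.)
-/

open MeasureTheory Set Filter Topology Complex
open scoped Real ENNReal NNReal InnerProductSpace

namespace Pool.Agent.Lib.MP_562b47_mp

/-- clamp to `[-c, c]` -/
noncomputable def clp (c v : ℝ) : ℝ := max (-c) (min c v)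

theorem clp_of_mem {c v : ℝ} (hv : v ∈ Icc (-c) c) : clp c v = v := by
  unfold clp; rw [min_eq_right hv.2, max_eq_right hv.1]

theorem clp_mem {c : ℝ} (hc : 0 < c) (v : ℝ) : clp c v ∈ Icc (-c) c := by
  unfold clp
  exact ⟨le_max_left _ _, max_le (by linarith) (min_le_left _ _)⟩

theorem abs_clp_sub {c : ℝ} (hc : 0 < c) (v w : ℝ) : |clp c v - clp c w| ≤ 2 * c := by
  have h1 := clp_mem hc v
  have h2 := clp_mem hc w
  rw [abs_le]; constructor <;> linarith [h1.1, h1.2, h2.1, h2.2]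

theorem continuous_clp (c : ℝ) : Continuous (clp c) := by
  unfold clp; fun_prop

variable {Λ : Type*} [DecidableEq Λ] {E : Type*} [NormedAddCommGroup E] [InnerProductSpace ℂ E]
  [CompleteSpace E]

/-- abstract Anderson-type family with clamped potential -/
structure Model (c : ℝ) (e : Λ → E) (H : (Λ → ℝ) → (E →L[ℂ] E)) : Prop where
  hc : 0 < c
  ortho : Orthonormal ℂ e
  tot : ∀ u : E, (∀ x, ⟪e x, u⟫_ℂ = 0) → u = 0
  sa : ∀ ω, IsSelfAdjoint (H ω)
  symm : ∀ ω z x y, z.im ≠ 0 → ⟪e x, Rv (H ω) z (e y)⟫_ℂ = ⟪e y, Rv (H ω) z (e x)⟫_ℂ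
  upd : ∀ ω y v u, H (Function.update ω y v) u
    = H ω u + ((clp c v - clp c (ω y) : ℝ) : ℂ) • ⟪e y, u⟫_ℂ • e y
  cont : ∀ u, Continuous fun ω => H ω u

/-- Green function -/
noncomputable def Gr (e : Λ → E) (H : (Λ → ℝ) → (E →L[ℂ] E)) (ω : Λ → ℝ) (z : ℂ) (x y : Λ) : ℂ :=
  ⟪e x, Rv (H ω) z (e y)⟫_ℂ

/-- `1 - i G(x,x)` -/
noncomputable def den (e : Λ → E) (H : (Λ → ℝ) → (E →L[ℂ] E)) (ω : Λ → ℝ) (z : ℂ) (x : Λ) : ℂ :=
  1 - I * Gr e H ω z x x

/-- the Cayley transform of `G(x,x)` -/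
noncomputable def Cay (e : Λ → E) (H : (Λ → ℝ) → (E →L[ℂ] E)) (ω : Λ → ℝ) (z : ℂ) (x : Λ) : ℂ :=
  (1 + I * Gr e H ω z x x) / den e H ω z x

/-- `G(x,y) / (1 - i G(x,x))` -/
noncomputable def gg (e : Λ → E) (H : (Λ → ℝ) → (E →L[ℂ] E)) (ω : Λ → ℝ) (z : ℂ) (x y : Λ) : ℂ :=
  Gr e H ω z x y / den e H ω z x

section basic

variable {c : ℝ} {e : Λ → E} {H : (Λ → ℝ) → (E →L[ℂ] E)}

theorem Model.norm_Gr_le (M : Model c e H) (ω : Λ → ℝ) {z : ℂ} (hz : 0 < z.im) (x y : Λ) :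
    ‖Gr e H ω z x y‖ ≤ 1 / z.im := by
  have h1 := norm_Rv_le (M.sa ω) hz.ne' (e y)
  rw [M.ortho.1 y, abs_of_pos hz] at h1
  have h2 : ‖Gr e H ω z x y‖ ≤ ‖e x‖ * ‖Rv (H ω) z (e y)‖ := norm_inner_le_norm _ _
  rw [M.ortho.1 x, one_mul] at h2
  refine h2.trans ?_
  rw [le_div_iff₀ hz]
  linarith

theorem Model.im_Gr_pos (M : Model c e H) (ω : Λ → ℝ) {z : ℂ} (hz : 0 < z.im) (x : Λ) :
    0 < (Gr e H ω z x x).im := by
  unfold Gr
  rw [im_inner_Rv (M.sa ω) hz.ne']
  have h1 : e x ≠ 0 := M.ortho.ne_zero x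
  have h2 := Rv_ne_zero (M.sa ω) hz.ne' h1
  have h3 : 0 < ‖Rv (H ω) z (e x)‖ := norm_pos_iff.mpr h2
  positivity

theorem Model.one_le_norm_den (M : Model c e H) (ω : Λ → ℝ) {z : ℂ} (hz : 0 < z.im) (x : Λ) :
    1 ≤ ‖den e H ω z x‖ := by
  have h1 : (den e H ω z x).re = 1 + (Gr e H ω z x x).im := by
    unfold den; simp
  have h2 := M.im_Gr_pos ω hz x
  calc (1:ℝ) ≤ (den e H ω z x).re := by rw [h1]; linarith
    _ ≤ |(den e H ω z x).re| := le_abs_self _
    _ ≤ _ := Complex.abs_re_le_norm _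

theorem Model.den_ne (M : Model c e H) (ω : Λ → ℝ) {z : ℂ} (hz : 0 < z.im) (x : Λ) :
    den e H ω z x ≠ 0 := by
  have := M.one_le_norm_den ω hz x
  intro h
  rw [h, norm_zero] at this
  linarith

theorem Model.norm_gg_le (M : Model c e H) (ω : Λ → ℝ) {z : ℂ} (hz : 0 < z.im) (x y : Λ) :
    ‖gg e H ω z x y‖ ≤ ‖Gr e H ω z x y‖ := by
  unfold gg
  rw [norm_div]
  exact div_le_self (norm_nonneg _) (M.one_le_norm_den ω hz x)

theorem Model.norm_Cay_le (M : Model c e H) (ω : Λ → ℝ) {z : ℂ} (hz : 0 < z.im) (x : Λ) :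
    ‖Cay e H ω z x‖ ≤ 1 := by
  unfold Cay
  have h1 := M.one_le_norm_den ω hz x
  rw [norm_div, div_le_one (by linarith)]
  have h2 := M.im_Gr_pos ω hz x
  rw [← sq_le_sq₀ (norm_nonneg _) (norm_nonneg _), ← Complex.normSq_eq_norm_sq,
    ← Complex.normSq_eq_norm_sq]
  unfold den
  rw [Complex.normSq_apply, Complex.normSq_apply]
  simp
  nlinarith

theorem Model.Gr_symm (M : Model c e H) (ω : Λ → ℝ) {z : ℂ} (hz : 0 < z.im) (x y : Λ) :
    Gr e H ω z x y = Gr e H ω z y x := M.symm ω z x y hz.ne'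

/-- rank one perturbation formula -/
theorem Model.Gr_upd (M : Model c e H) (ω : Λ → ℝ) {z : ℂ} (hz : 0 < z.im) (y : Λ) (v : ℝ)
    (a b : Λ) :
    Gr e H (Function.update ω y v) z a b = Gr e H ω z a b
      - ((clp c v - clp c (ω y) : ℝ) : ℂ) * Gr e H ω z y b
        * Gr e H (Function.update ω y v) z a y := by
  set ω' := Function.update ω y v with hω'
  set s : ℂ := ((clp c v - clp c (ω y) : ℝ) : ℂ) with hs
  have h1 := Rv_sub_Rv (M.sa ω) (M.sa ω') hz.ne' hz.ne' (e b)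
  have h2 : (H ω' - H ω) (Rv (H ω) z (e b)) = s • ⟪e y, Rv (H ω) z (e b)⟫_ℂ • e y := by
    have := M.upd ω y v (Rv (H ω) z (e b))
    rw [← hω', ← hs] at this
    show H ω' (Rv (H ω) z (e b)) - H ω (Rv (H ω) z (e b)) = _
    rw [this]; abel
  rw [h2, sub_self, zero_smul, sub_zero] at h1
  have h3 : Rv (H ω') z (e b) = Rv (H ω) z (e b)
      - Rv (H ω') z (s • ⟪e y, Rv (H ω) z (e b)⟫_ℂ • e y) := by
    rw [sub_eq_iff_eq_add.mp h1]; abel
  unfold Gr
  rw [h3, inner_sub_right, map_smul, map_smul, inner_smul_right, inner_smul_right]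
  ring

theorem Model.Gr_upd_mul (M : Model c e H) (ω : Λ → ℝ) {z : ℂ} (hz : 0 < z.im) (y : Λ) (v : ℝ)
    (x : Λ) :
    Gr e H (Function.update ω y v) z x y
      * (1 + ((clp c v - clp c (ω y) : ℝ) : ℂ) * Gr e H ω z y y) = Gr e H ω z x y := by
  have h := M.Gr_upd ω hz y v x y
  rw [mul_add, mul_one]
  nth_rewrite 1 [h]
  ring

theorem Model.one_add_ne (M : Model c e H) (ω : Λ → ℝ) {z : ℂ} (hz : 0 < z.im) (y : Λ) (s : ℝ) :
    1 + (s : ℂ) * Gr e H ω z y y ≠ 0 := by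
  intro h
  have h1 := congrArg Complex.im h
  have h2 := congrArg Complex.re h
  simp at h1 h2
  have h3 := M.im_Gr_pos ω hz y
  rcases h1 with h1 | h1
  · rw [h1] at h2; simp at h2
  · exact h3.ne' h1

theorem Model.den_upd (M : Model c e H) (ω : Λ → ℝ) {z : ℂ} (hz : 0 < z.im) (y : Λ) (v : ℝ)
    (x : Λ) :
    den e H (Function.update ω y v) z x = den e H ω z x
      + I * ((clp c v - clp c (ω y) : ℝ) : ℂ) * Gr e H ω z x y
        * Gr e H (Function.update ω y v) z x y := by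
  unfold den
  rw [M.Gr_upd ω hz y v x x, M.Gr_symm ω hz y x]
  ring

/-- the difference formula for the Cayley transform -/
theorem Model.Cay_upd (M : Model c e H) (ω : Λ → ℝ) {z : ℂ} (hz : 0 < z.im) (y : Λ) (v : ℝ)
    (x : Λ) :
    Cay e H (Function.update ω y v) z x - Cay e H ω z x
      = -2 * I * ((clp c v - clp c (ω y) : ℝ) : ℂ) * gg e H ω z x y
        * gg e H (Function.update ω y v) z x y := by
  have h1 := M.den_ne ω hz x
  have h2 := M.den_ne (Function.update ω y v) hz x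
  have h3 := M.den_upd ω hz y v x
  unfold Cay gg
  have e1 : ∀ η : Λ → ℝ, 1 + I * Gr e H η z x x = 2 - den e H η z x := by
    intro η; unfold den; ring
  rw [e1, e1]
  set D := den e H ω z x
  set D' := den e H (Function.update ω y v) z x
  set s : ℂ := ((clp c v - clp c (ω y) : ℝ) : ℂ)
  rw [div_sub_div _ _ h2 h1, mul_assoc (-2 * I * s), div_mul_div_comm, mul_div_assoc',
    mul_comm D' D]
  congr 1
  rw [h3]; ring

/-- `gg` as a function of one coordinate is the reciprocal of an affine function -/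
theorem Model.gg_affine (M : Model c e H) (ω : Λ → ℝ) {z : ℂ} (hz : 0 < z.im) (x y : Λ) :
    ∃ a b : ℂ, (∀ v ∈ Icc (-c) c, a + b * (v : ℂ) ≠ 0) ∧
      ∀ v ∈ Icc (-c) c, gg e H (Function.update ω y v) z x y = Gr e H ω z x y / (a + b * (v : ℂ)) := by
  set s0 : ℂ := ((clp c (ω y) : ℝ) : ℂ) with hs0
  set D := den e H ω z x with hD
  set Gyy := Gr e H ω z y y
  set Gxy := Gr e H ω z x y with hGxy
  have key : ∀ v ∈ Icc (-c) c, D * (1 - s0 * Gyy) - I * s0 * Gxy ^ 2 + (D * Gyy + I * Gxy ^ 2) * (v : ℂ)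
      = den e H (Function.update ω y v) z x * (1 + ((clp c v - clp c (ω y) : ℝ) : ℂ) * Gyy) := by
    intro v hv
    have h3 := M.den_upd ω hz y v x
    have h4 := M.Gr_upd_mul ω hz y v x
    rw [h3]
    have h5 : (den e H ω z x + I * ((clp c v - clp c (ω y) : ℝ) : ℂ) * Gr e H ω z x y
        * Gr e H (Function.update ω y v) z x y) * (1 + ((clp c v - clp c (ω y) : ℝ) : ℂ) * Gyy)
        = D * (1 + ((clp c v - clp c (ω y) : ℝ) : ℂ) * Gyy)
          + I * ((clp c v - clp c (ω y) : ℝ) : ℂ) * Gxy * (Gr e H (Function.update ω y v) z x y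
            * (1 + ((clp c v - clp c (ω y) : ℝ) : ℂ) * Gyy)) := by
      rw [hD, hGxy]; ring
    rw [h5, h4, ← hGxy, clp_of_mem hv]
    push_cast
    ring
  refine ⟨D * (1 - s0 * Gyy) - I * s0 * Gxy ^ 2, D * Gyy + I * Gxy ^ 2, ?_, ?_⟩
  · intro v hv
    rw [key v hv]
    exact mul_ne_zero (M.den_ne _ hz x) (M.one_add_ne ω hz y _)
  · intro v hv
    rw [key v hv]
    have h4 := M.Gr_upd_mul ω hz y v x
    have h5 := M.one_add_ne ω hz y (clp c v - clp c (ω y))
    have h6 := M.den_ne (Function.update ω y v) hz x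
    unfold gg
    rw [hGxy, ← h4, mul_div_mul_right _ _ h5]

theorem Model.Gr_affine (M : Model c e H) (ω : Λ → ℝ) {z : ℂ} (hz : 0 < z.im) (x : Λ) :
    ∃ a : ℂ, (∀ v ∈ Icc (-c) c, a + Gr e H ω z x x * (v : ℂ) ≠ 0) ∧
      ∀ v ∈ Icc (-c) c, Gr e H (Function.update ω x v) z x x
        = Gr e H ω z x x / (a + Gr e H ω z x x * (v : ℂ)) := by
  set s0 : ℂ := ((clp c (ω x) : ℝ) : ℂ) with hs0
  set F := Gr e H ω z x x with hF
  have key : ∀ v ∈ Icc (-c) c, 1 - s0 * F + F * (v : ℂ)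
      = 1 + ((clp c v - clp c (ω x) : ℝ) : ℂ) * F := by
    intro v hv
    rw [clp_of_mem hv]; push_cast; ring
  refine ⟨1 - s0 * F, ?_, ?_⟩
  · intro v hv
    rw [key v hv]
    exact M.one_add_ne ω hz x _
  · intro v hv
    rw [key v hv]
    have h4 := M.Gr_upd_mul ω hz x v x
    have h5 := M.one_add_ne ω hz x (clp c v - clp c (ω x))
    rw [eq_div_iff h5]
    exact h4

/-- joint continuity of the resolvent -/
theorem Model.continuous_Rv (M : Model c e H) {P : Type*} [TopologicalSpace P] {f : P → Λ → ℝ}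
    (hf : Continuous f) {g : P → ℂ} (hg : Continuous g) (hg0 : ∀ p, 0 < (g p).im) (u : E) :
    Continuous fun p => Rv (H (f p)) (g p) u := by
  rw [continuous_iff_continuousAt]
  intro p0
  rw [ContinuousAt, tendsto_iff_norm_sub_tendsto_zero]
  set w := Rv (H (f p0)) (g p0) u with hw
  have hbd : ∀ p, ‖Rv (H (f p)) (g p) u - w‖
      ≤ ((g p).im)⁻¹ * ‖(H (f p) w - H (f p0) w) - (g p - g p0) • w‖ := by
    intro p
    have h1 := Rv_sub_Rv (M.sa (f p0)) (M.sa (f p)) (hg0 p0).ne' (hg0 p).ne' u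
    rw [hw, h1, norm_neg]
    have h2 := norm_Rv_le (M.sa (f p)) (hg0 p).ne'
      ((H (f p) - H (f p0)) (Rv (H (f p0)) (g p0) u) - (g p - g p0) • Rv (H (f p0)) (g p0) u)
    rw [abs_of_pos (hg0 p)] at h2
    rw [inv_mul_eq_div, le_div_iff₀ (hg0 p), mul_comm]
    exact h2
  have hlim : Tendsto (fun p => ((g p).im)⁻¹ * ‖(H (f p) w - H (f p0) w) - (g p - g p0) • w‖)
      (𝓝 p0) (𝓝 0) := by
    have hc1 : Continuous fun p => (g p).im := Complex.continuous_im.comp hg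
    have hc2 : Continuous fun p => H (f p) w := (M.cont w).comp hf
    have h1 : Tendsto (fun p => ((g p).im)⁻¹ * ‖(H (f p) w - H (f p0) w) - (g p - g p0) • w‖)
      (𝓝 p0) (𝓝 (((g p0).im)⁻¹ * ‖(H (f p0) w - H (f p0) w) - (g p0 - g p0) • w‖)) := by
      refine Tendsto.mul (hc1.continuousAt.inv₀ (hg0 p0).ne') ?_
      refine Tendsto.norm ?_
      exact ((hc2.tendsto p0).sub_const _).sub (((hg.tendsto p0).sub_const _).smul_const w)
    simpa using h1
  exact tendsto_of_tendsto_of_tendsto_of_le_of_le tendsto_const_nhds hlim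
    (fun _ => norm_nonneg _) hbd

theorem Model.continuous_Gr (M : Model c e H) {P : Type*} [TopologicalSpace P] {f : P → Λ → ℝ}
    (hf : Continuous f) {g : P → ℂ} (hg : Continuous g) (hg0 : ∀ p, 0 < (g p).im) (x y : Λ) :
    Continuous fun p => Gr e H (f p) (g p) x y := by
  unfold Gr
  exact continuous_const.inner (M.continuous_Rv hf hg hg0 (e y))

theorem Model.continuous_den (M : Model c e H) {P : Type*} [TopologicalSpace P] {f : P → Λ → ℝ}
    (hf : Continuous f) {g : P → ℂ} (hg : Continuous g) (hg0 : ∀ p, 0 < (g p).im) (x : Λ) :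
    Continuous fun p => den e H (f p) (g p) x := by
  unfold den
  exact continuous_const.sub (continuous_const.mul (M.continuous_Gr hf hg hg0 x x))

theorem Model.continuous_Cay (M : Model c e H) {P : Type*} [TopologicalSpace P] {f : P → Λ → ℝ}
    (hf : Continuous f) {g : P → ℂ} (hg : Continuous g) (hg0 : ∀ p, 0 < (g p).im) (x : Λ) :
    Continuous fun p => Cay e H (f p) (g p) x := by
  unfold Cay
  exact (continuous_const.add (continuous_const.mul (M.continuous_Gr hf hg hg0 x x))).div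
    (M.continuous_den hf hg hg0 x) (fun p => M.den_ne _ (hg0 p) x)

theorem Model.continuous_gg (M : Model c e H) {P : Type*} [TopologicalSpace P] {f : P → Λ → ℝ}
    (hf : Continuous f) {g : P → ℂ} (hg : Continuous g) (hg0 : ∀ p, 0 < (g p).im) (x y : Λ) :
    Continuous fun p => gg e H (f p) (g p) x y := by
  unfold gg
  exact (M.continuous_Gr hf hg hg0 x y).div
    (M.continuous_den hf hg hg0 x) (fun p => M.den_ne _ (hg0 p) x)

theorem continuous_Zt {t : ℝ} : Continuous (Zt t) := by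
  have h1 : Continuous fun E : ℝ => E * (1 - t ^ 2) / (1 + t ^ 2 * E ^ 2) :=
    Continuous.div (by fun_prop) (by fun_prop) fun E => by positivity
  have h2 : Continuous fun E : ℝ => t * (1 + E ^ 2) / (1 + t ^ 2 * E ^ 2) :=
    Continuous.div (by fun_prop) (by fun_prop) fun E => by positivity
  have : Zt t = fun E => ((E * (1 - t ^ 2) / (1 + t ^ 2 * E ^ 2) : ℝ) : ℂ)
      + ((t * (1 + E ^ 2) / (1 + t ^ 2 * E ^ 2) : ℝ) : ℂ) * I := by
    funext E
    unfold Zt
    apply Complex.ext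
    · rw [Complex.add_re, Complex.ofReal_re, Complex.re_ofReal_mul, Complex.I_re, mul_zero,
        add_zero]
    · rw [Complex.add_im, Complex.ofReal_im, Complex.im_ofReal_mul, Complex.I_im, mul_one,
        zero_add]
  rw [this]
  exact (Complex.continuous_ofReal.comp h1).add ((Complex.continuous_ofReal.comp h2).mul
    continuous_const)

theorem le_Zt_im {t : ℝ} (ht : 0 < t) (ht1 : t ≤ 1) (E : ℝ) : t ≤ (Zt t E).im := by
  show t ≤ t * (1 + E ^ 2) / (1 + t ^ 2 * E ^ 2)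
  rw [le_div_iff₀ (by positivity)]
  have : t ^ 2 * E ^ 2 ≤ E ^ 2 := by
    have h1 : t ^ 2 ≤ 1 := pow_le_one₀ ht.le ht1
    nlinarith [sq_nonneg E]
  nlinarith

/-- analyticity in the spectral parameter -/
theorem Model.differentiableAt_Gr (M : Model c e H) (ω : Λ → ℝ) {z : ℂ} (hz : 0 < z.im)
    (x y : Λ) : DifferentiableAt ℂ (fun z => Gr e H ω z x y) z := by
  have h1 : DifferentiableAt ℂ (fun z : ℂ => H ω - algebraMap ℂ (E →L[ℂ] E) z) z := by
    have : (fun z : ℂ => H ω - algebraMap ℂ (E →L[ℂ] E) z) = fun z => H ω - z • (1 : E →L[ℂ] E) := by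
      funext z; rw [Algebra.algebraMap_eq_smul_one]
    rw [this]
    fun_prop
  have h2 : DifferentiableAt ℂ (fun z => Rv (H ω) z) z := by
    unfold Rv
    have h3 : DifferentiableAt ℂ (Ring.inverse : (E →L[ℂ] E) → (E →L[ℂ] E))
        (H ω - algebraMap ℂ (E →L[ℂ] E) z) := by
      exact differentiableAt_inverse (isUnit_sub (M.sa ω) hz.ne')
    exact h3.comp z h1
  unfold Gr
  have h4 : DifferentiableAt ℂ (fun z => Rv (H ω) z (e y)) z := h2.clm_apply (by fun_prop)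
  exact ((innerSL ℂ (e x)).differentiableAt).comp z h4

end basic

end Pool.Agent.Lib.MP_562b47_mp
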