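import Mathlib
import Pool.Agent.Lib.MP_562b47_mp.Model

/-!
Fractional moments of the Green function decay at every disorder strength.
(Anderson model, MP_562b47_mp.)
-/

open MeasureTheory Set Filter Topology Complex
open scoped Real ENNReal NNReal InnerProductSpace

namespace Pool.Agent.Lib.MP_562b47_mp

theorem isCountablyGenerated_cofinite {Λ : Type*} [Countable Λ] :
    (Filter.cofinite : Filter Λ).IsCountablyGenerated := by
  classical
  have h : (Filter.cofinite : Filter Λ).HasBasis (fun _ : Finset Λ => True)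
      (fun s => (s : Set Λ)ᶜ) := by
    refine ⟨fun t => ?_⟩
    rw [Filter.mem_cofinite]
    constructor
    · intro ht
      refine ⟨ht.toFinset, trivial, ?_⟩
      intro x hx
      simp at hx
      exact hx
    · rintro ⟨s, -, hs⟩
      exact s.finite_toSet.subset (Set.compl_subset_comm.mp hs)
  exact ⟨Set.range (fun s : Finset Λ => (s : Set Λ)ᶜ), Set.countable_range _, by
    have := h.eq_generate
    rw [this]; congr 1; ext t; simp⟩

/-- Parseval for the difference of two analytic functions -/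
theorem parseval_diff {f g : ℂ → ℂ} (hf : DifferentiableOn ℂ f (Metric.ball 0 1))
    (hg : DifferentiableOn ℂ g (Metric.ball 0 1))
    (hs : Summable fun n => ‖tay f n - tay g n‖ ^ 2) {r : ℝ} (hr0 : 0 ≤ r) (hr : r < 1) :
    ∫ E, ‖f (r * uE E) - g (r * uE E)‖ ^ 2 ∂kap ≤ ∑' n, ‖tay f n - tay g n‖ ^ 2 := by
  set b : ℕ → ℂ := fun n => (tay f n - tay g n) * (r : ℂ) ^ n with hb
  have hbs : Summable fun n => ‖b n‖ := by
    refine Summable.of_nonneg_of_le (fun n => norm_nonneg _) (fun n => ?_)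
      ((summable_tay hf hr0 hr).add (summable_tay hg hr0 hr))
    rw [hb]
    simp only
    rw [sub_mul]
    exact norm_sub_le _ _
  have h1 : ∀ E, f (r * uE E) - g (r * uE E) = ∑' n, b n * uE E ^ n := by
    intro E
    have hw : ‖(r : ℂ) * uE E‖ < 1 := by
      rw [norm_mul, norm_uE, mul_one]; simpa [abs_of_nonneg hr0] using hr
    have h2 := (hasSum_tay hf hw).sub (hasSum_tay hg hw)
    rw [← h2.tsum_eq]
    refine tsum_congr fun n => ?_
    rw [hb]; simp only; rw [mul_pow]; ring
  simp_rw [h1]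
  rw [parseval hbs]
  have hle : ∀ n, ‖b n‖ ^ 2 ≤ ‖tay f n - tay g n‖ ^ 2 := by
    intro n
    refine pow_le_pow_left₀ (norm_nonneg _) ?_ 2
    rw [hb]
    simp only
    rw [norm_mul, norm_pow, Complex.norm_real, Real.norm_of_nonneg hr0]
    exact mul_le_of_le_one_right (norm_nonneg _) (pow_le_one₀ hr0 hr.le)
  exact Summable.tsum_le_tsum hle (Summable.of_nonneg_of_le (fun n => by positivity) hle hs) hs

variable {Λ : Type*} [DecidableEq Λ] {E : Type*} [NormedAddCommGroup E] [InnerProductSpace ℂ E]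
  [CompleteSpace E]

/-- the Cayley transform as a function on the disc -/
noncomputable def fc (e : Λ → E) (H : (Λ → ℝ) → (E →L[ℂ] E)) (ω : Λ → ℝ) (x : Λ) (w : ℂ) : ℂ :=
  Cay e H ω (zw w) x

/-- its Taylor coefficients -/
noncomputable def co (e : Λ → E) (H : (Λ → ℝ) → (E →L[ℂ] E)) (x : Λ) (n : ℕ) (ω : Λ → ℝ) : ℂ :=
  tay (fc e H ω x) n

section

variable {c : ℝ} {e : Λ → E} {H : (Λ → ℝ) → (E →L[ℂ] E)}

theorem Model.fc_diff (M : Model c e H) (ω : Λ → ℝ) (x : Λ) :
    DifferentiableOn ℂ (fc e H ω x) (Metric.ball 0 1) := by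
  intro w hw
  have hw' : ‖w‖ < 1 := by simpa using hw
  have hz := zw_im hw'
  have h1 := M.differentiableAt_Gr ω hz x x
  have h2 : DifferentiableAt ℂ (fun z => Cay e H ω z x) (zw w) := by
    unfold Cay den
    refine DifferentiableAt.div ?_ ?_ (M.den_ne ω hz x)
    · exact (differentiableAt_const _).add ((differentiableAt_const _).mul h1)
    · exact (differentiableAt_const _).sub ((differentiableAt_const _).mul h1)
  have h3 : DifferentiableAt ℂ zw w :=
    differentiableOn_zw.differentiableAt (Metric.isOpen_ball.mem_nhds hw)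
  exact (h2.comp w h3).differentiableWithinAt

theorem Model.fc_le (M : Model c e H) (ω : Λ → ℝ) (x : Λ) (w : ℂ) (hw : ‖w‖ < 1) :
    ‖fc e H ω x w‖ ≤ 1 := M.norm_Cay_le ω (zw_im hw) x

theorem Model.fc_rt (e : Λ → E) (H : (Λ → ℝ) → (E →L[ℂ] E)) (ω : Λ → ℝ) (x : Λ) {t : ℝ}
    (ht : 0 < t) (s : ℝ) : fc e H ω x (rt t * uE s) = Cay e H ω (Zt t s) x := by
  unfold fc; rw [zw_rt ht]

theorem Model.co_eq (M : Model c e H) (ω : Λ → ℝ) (x : Λ) (n : ℕ) :
    co e H x n ω = (2:ℂ) ^ n * ∫ s, Cay e H ω (Zt (1/3) s) x * (starRingEnd ℂ) (uE s ^ n) ∂kap := by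
  have hr := rt_mem (t := 1/3) (by norm_num) (by norm_num)
  have h1 := tay_coeff (M.fc_diff ω x) hr.1 hr.2 n
  have h2 : ∀ s, fc e H ω x (rt (1/3) * uE s) = Cay e H ω (Zt (1/3) s) x := fun s =>
    Model.fc_rt e H ω x (by norm_num) s
  simp_rw [h2] at h1
  rw [← h1]
  have h3 : (rt (1/3) : ℂ) = 1/2 := by unfold rt; norm_num
  rw [h3]
  unfold co
  rw [mul_comm, mul_assoc, ← mul_pow]
  norm_num

variable [Countable Λ]

theorem Model.measurable_co (M : Model c e H) (x : Λ) (n : ℕ) : Measurable (co e H x n) := by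
  have h1 : co e H x n = fun ω => (2:ℂ) ^ n * ∫ s, Cay e H ω (Zt (1/3) s) x
      * (starRingEnd ℂ) (uE s ^ n) ∂kap := funext fun ω => M.co_eq ω x n
  rw [h1]
  refine Measurable.const_mul ?_ _
  have h2 : Continuous (fun p : (Λ → ℝ) × ℝ => Cay e H p.1 (Zt (1/3) p.2) x
      * (starRingEnd ℂ) (uE p.2 ^ n)) := by
    refine (M.continuous_Cay continuous_fst (continuous_Zt.comp continuous_snd)
      (fun p => Zt_im_pos (by norm_num) _) x).mul ?_
    exact Complex.continuous_conj.comp ((continuous_uE.comp continuous_snd).pow n)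
  have h3 : StronglyMeasurable (Function.uncurry fun (ω : Λ → ℝ) (s : ℝ) =>
      Cay e H ω (Zt (1/3) s) x * (starRingEnd ℂ) (uE s ^ n)) := h2.stronglyMeasurable
  exact h3.integral_prod_right.measurable

theorem Model.norm_co_le (M : Model c e H) (x : Λ) (n : ℕ) (ω : Λ → ℝ) : ‖co e H x n ω‖ ≤ 1 := by
  have h := bessel (M.fc_diff ω x) (M.fc_le ω x) (n + 1)
  rw [Finset.sum_range_succ] at h
  have h1 : 0 ≤ ∑ i ∈ Finset.range n, ‖tay (fc e H ω x) i‖ ^ 2 :=
    Finset.sum_nonneg fun i _ => by positivity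
  have h2 : ‖tay (fc e H ω x) n‖ ^ 2 ≤ 1 ^ 2 := by linarith
  exact (sq_le_sq₀ (norm_nonneg _) zero_le_one).mp h2

theorem Model.tendsto_Gr_cofinite (M : Model c e H) (ω : Λ → ℝ) {z : ℂ} (hz : 0 < z.im) (x : Λ) :
    Tendsto (fun y => Gr e H ω z x y) cofinite (𝓝 0) := by
  have h1 := M.ortho.inner_products_summable (Rv (H ω) z (e x))
  have h2 := h1.tendsto_cofinite_zero
  have h3 : Tendsto (fun y => ‖⟪e y, Rv (H ω) z (e x)⟫_ℂ‖) cofinite (𝓝 0) := by
    have := h2.sqrt
    simpa using this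
  rw [tendsto_zero_iff_norm_tendsto_zero]
  refine h3.congr fun y => ?_
  have := M.Gr_symm ω hz x y
  rw [this]; rfl

/-- for fixed `z` the influence of a far coordinate vanishes -/
theorem Model.tendsto_Cay_upd (M : Model c e H) (ω : Λ → ℝ) {z : ℂ} (hz : 0 < z.im) (x : Λ)
    (v : ℝ) : Tendsto (fun y => Cay e H (Function.update ω y v) z x) cofinite
      (𝓝 (Cay e H ω z x)) := by
  rw [tendsto_iff_norm_sub_tendsto_zero]
  have h1 : ∀ y, ‖Cay e H (Function.update ω y v) z x - Cay e H ω z x‖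
      ≤ 4 * c * (1 / z.im) * ‖Gr e H ω z x y‖ := by
    intro y
    rw [M.Cay_upd ω hz y v x]
    rw [norm_mul, norm_mul, norm_mul, norm_mul, Complex.norm_real]
    have h2 := abs_clp_sub M.hc v (ω y)
    rw [← Real.norm_eq_abs] at h2
    have h3 := M.norm_gg_le ω hz x y
    have h4 := (M.norm_gg_le (Function.update ω y v) hz x y).trans (M.norm_Gr_le _ hz x y)
    have h5 : ‖(-2 : ℂ)‖ = 2 := by simp
    rw [h5, Complex.norm_I, mul_one]
    have hc := M.hc
    calc 2 * ‖clp c v - clp c (ω y)‖ * ‖gg e H ω z x y‖ * ‖gg e H (Function.update ω y v) z x y‖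
        ≤ 2 * (2 * c) * ‖Gr e H ω z x y‖ * (1 / z.im) := by
          gcongr
      _ = _ := by ring
  refine tendsto_of_tendsto_of_tendsto_of_le_of_le tendsto_const_nhds ?_
    (fun _ => norm_nonneg _) h1
  have := ((M.tendsto_Gr_cofinite ω hz x).norm).const_mul (4 * c * (1 / z.im))
  simpa using this

theorem Model.tendsto_co_upd (M : Model c e H) (ω : Λ → ℝ) (x : Λ) (n : ℕ) (v : ℝ) :
    Tendsto (fun y => co e H x n (Function.update ω y v)) cofinite (𝓝 (co e H x n ω)) := by
  have := isCountablyGenerated_cofinite (Λ := Λ)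
  simp_rw [M.co_eq]
  refine Tendsto.const_mul _ ?_
  refine tendsto_integral_filter_of_dominated_convergence (fun _ => 1) ?_ ?_
    (integrable_const _) ?_
  · refine Eventually.of_forall fun y => ?_
    refine Continuous.aestronglyMeasurable ?_
    refine (M.continuous_Cay continuous_const continuous_Zt
      (fun p => Zt_im_pos (by norm_num) _) x).mul ?_
    exact Complex.continuous_conj.comp (continuous_uE.pow n)
  · refine Eventually.of_forall fun y => ae_of_all _ fun s => ?_
    rw [norm_mul, Complex.norm_conj, norm_pow, norm_uE, one_pow, mul_one]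
    exact M.norm_Cay_le _ (Zt_im_pos (by norm_num) _) x
  · refine ae_of_all _ fun s => ?_
    exact (M.tendsto_Cay_upd ω (Zt_im_pos (by norm_num) _) x v).mul_const _

/-- the law of the potential -/
noncomputable def PP (Λ : Type*) (c : ℝ) : Measure (Λ → ℝ) := Measure.infinitePi fun _ : Λ => unif c

theorem PP_prob (Λ : Type*) {c : ℝ} (hc : 0 < c) : IsProbabilityMeasure (PP Λ c) := by
  have := unif_prob hc
  unfold PP; infer_instance

/-- mean square of the difference of coefficients after resampling the coordinate `y` twice -/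
noncomputable def psi (c : ℝ) (e : Λ → E) (H : (Λ → ℝ) → (E →L[ℂ] E)) (x : Λ) (y : Λ) (n : ℕ) : ℝ :=
  ∫ p : (Λ → ℝ) × (ℝ × ℝ), ‖co e H x n (Function.update p.1 y p.2.1)
    - co e H x n (Function.update p.1 y p.2.2)‖ ^ 2 ∂((PP Λ c).prod ((unif c).prod (unif c)))

theorem mp_upd1 (Λ : Type*) [DecidableEq Λ] {c : ℝ} (hc : 0 < c) (y : Λ) :
    MeasurePreserving (fun p : (Λ → ℝ) × (ℝ × ℝ) => Function.update p.1 y p.2.1)
      ((PP Λ c).prod ((unif c).prod (unif c))) (PP Λ c) := by
  have := unif_prob hc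
  have := PP_prob Λ hc
  have h1 := measurePreserving_upd (Λ := Λ) (unif c) y
  have h2 : MeasurePreserving (Prod.map id Prod.fst : (Λ → ℝ) × (ℝ × ℝ) → (Λ → ℝ) × ℝ)
      ((PP Λ c).prod ((unif c).prod (unif c))) ((PP Λ c).prod (unif c)) :=
    (MeasurePreserving.id (PP Λ c)).prod measurePreserving_fst
  exact h1.comp h2

theorem mp_upd2 (Λ : Type*) [DecidableEq Λ] {c : ℝ} (hc : 0 < c) (y : Λ) :
    MeasurePreserving (fun p : (Λ → ℝ) × (ℝ × ℝ) => Function.update p.1 y p.2.2)
      ((PP Λ c).prod ((unif c).prod (unif c))) (PP Λ c) := by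
  have := unif_prob hc
  have := PP_prob Λ hc
  have h1 := measurePreserving_upd (Λ := Λ) (unif c) y
  have h2 : MeasurePreserving (Prod.map id Prod.snd : (Λ → ℝ) × (ℝ × ℝ) → (Λ → ℝ) × ℝ)
      ((PP Λ c).prod ((unif c).prod (unif c))) ((PP Λ c).prod (unif c)) :=
    (MeasurePreserving.id (PP Λ c)).prod measurePreserving_snd
  exact h1.comp h2

theorem Model.measurable_co_upd1 (M : Model c e H) (x y : Λ) (n : ℕ) :
    Measurable (fun p : (Λ → ℝ) × (ℝ × ℝ) => co e H x n (Function.update p.1 y p.2.1)) := by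
  refine (M.measurable_co x n).comp ?_
  exact (measurable_upd y).comp (measurable_fst.prodMk (measurable_fst.comp measurable_snd))

theorem Model.measurable_co_upd2 (M : Model c e H) (x y : Λ) (n : ℕ) :
    Measurable (fun p : (Λ → ℝ) × (ℝ × ℝ) => co e H x n (Function.update p.1 y p.2.2)) := by
  refine (M.measurable_co x n).comp ?_
  exact (measurable_upd y).comp (measurable_fst.prodMk (measurable_snd.comp measurable_snd))

/-- `A n = E |a_n|^2` -/
noncomputable def AA (c : ℝ) (e : Λ → E) (H : (Λ → ℝ) → (E →L[ℂ] E)) (x : Λ) (n : ℕ) : ℝ :=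
  ∫ ω, ‖co e H x n ω‖ ^ 2 ∂(PP Λ c)

theorem Model.integrable_co_sq (M : Model c e H) (x : Λ) (n : ℕ) :
    Integrable (fun ω => ‖co e H x n ω‖ ^ 2) (PP Λ c) := by
  have := PP_prob Λ M.hc
  refine Integrable.of_bound (C := 1) ((M.measurable_co x n).norm.pow_const 2).aestronglyMeasurable
    (ae_of_all _ fun ω => ?_)
  rw [Real.norm_of_nonneg (by positivity)]
  exact pow_le_one₀ (norm_nonneg _) (M.norm_co_le x n ω)

theorem Model.summable_AA (M : Model c e H) (x : Λ) : Summable (AA c e H x) := by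
  have := PP_prob Λ M.hc
  refine summable_of_sum_range_le (c := 1) (fun n => integral_nonneg fun ω => by positivity) ?_
  intro N
  unfold AA
  rw [← integral_finset_sum _ (fun n _ => M.integrable_co_sq x n)]
  calc ∫ ω, ∑ n ∈ Finset.range N, ‖co e H x n ω‖ ^ 2 ∂(PP Λ c) ≤ ∫ _ω, (1:ℝ) ∂(PP Λ c) := by
        refine integral_mono (integrable_finset_sum _ (fun n _ => M.integrable_co_sq x n))
          (integrable_const _) fun ω => ?_
        have := bessel (M.fc_diff ω x) (M.fc_le ω x) N
        rw [one_pow] at this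
        exact this
    _ = 1 := by simp

theorem sq_norm_sub_le (a b : ℂ) : ‖a - b‖ ^ 2 ≤ 2 * ‖a‖ ^ 2 + 2 * ‖b‖ ^ 2 := by
  have h := norm_sub_le a b
  have h2 : ‖a - b‖ ^ 2 ≤ (‖a‖ + ‖b‖) ^ 2 := pow_le_pow_left₀ (norm_nonneg _) h 2
  nlinarith [sq_nonneg (‖a‖ - ‖b‖)]

theorem Model.psi_le (M : Model c e H) (x y : Λ) (n : ℕ) : psi c e H x y n ≤ 4 * AA c e H x n := by
  have := PP_prob Λ M.hc
  have := unif_prob M.hc
  have h1 := (mp_upd1 Λ M.hc y).integrable_comp_of_integrable (M.integrable_co_sq x n)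
  have h2 := (mp_upd2 Λ M.hc y).integrable_comp_of_integrable (M.integrable_co_sq x n)
  have e1 : ∫ p : (Λ → ℝ) × (ℝ × ℝ), ‖co e H x n (Function.update p.1 y p.2.1)‖ ^ 2
      ∂((PP Λ c).prod ((unif c).prod (unif c))) = AA c e H x n := by
    have h := integral_map (μ := (PP Λ c).prod ((unif c).prod (unif c)))
      (mp_upd1 Λ M.hc y).measurable.aemeasurable (f := fun ω => ‖co e H x n ω‖ ^ 2)
      ((M.measurable_co x n).norm.pow_const 2).aestronglyMeasurable
    rw [(mp_upd1 Λ M.hc y).map_eq] at h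
    exact h.symm
  have e2 : ∫ p : (Λ → ℝ) × (ℝ × ℝ), ‖co e H x n (Function.update p.1 y p.2.2)‖ ^ 2
      ∂((PP Λ c).prod ((unif c).prod (unif c))) = AA c e H x n := by
    have h := integral_map (μ := (PP Λ c).prod ((unif c).prod (unif c)))
      (mp_upd2 Λ M.hc y).measurable.aemeasurable (f := fun ω => ‖co e H x n ω‖ ^ 2)
      ((M.measurable_co x n).norm.pow_const 2).aestronglyMeasurable
    rw [(mp_upd2 Λ M.hc y).map_eq] at h
    exact h.symm
  calc psi c e H x y n ≤ ∫ p : (Λ → ℝ) × (ℝ × ℝ), (2 * ‖co e H x n (Function.update p.1 y p.2.1)‖ ^ 2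
        + 2 * ‖co e H x n (Function.update p.1 y p.2.2)‖ ^ 2)
        ∂((PP Λ c).prod ((unif c).prod (unif c))) := by
        refine integral_mono_of_nonneg (ae_of_all _ fun p => by positivity) ?_
          (ae_of_all _ fun p => sq_norm_sub_le _ _)
        exact (h1.const_mul 2).add (h2.const_mul 2)
    _ = 4 * AA c e H x n := by
        have := integral_add (h1.const_mul 2) (h2.const_mul 2)
        simp only [Function.comp_apply] at this
        rw [this, integral_const_mul, integral_const_mul, e1, e2]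
        ring

theorem Model.psi_nonneg (_M : Model c e H) (x y : Λ) (n : ℕ) : 0 ≤ psi c e H x y n :=
  integral_nonneg fun _ => by positivity

theorem Model.tendsto_psi (M : Model c e H) (x : Λ) (n : ℕ) :
    Tendsto (fun y => psi c e H x y n) cofinite (𝓝 0) := by
  have := isCountablyGenerated_cofinite (Λ := Λ)
  have := PP_prob Λ M.hc
  have := unif_prob M.hc
  have h : Tendsto (fun y => psi c e H x y n) cofinite
      (𝓝 (∫ p : (Λ → ℝ) × (ℝ × ℝ), (0:ℝ) ∂((PP Λ c).prod ((unif c).prod (unif c))))) := by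
    unfold psi
    refine tendsto_integral_filter_of_dominated_convergence (fun _ => 4) ?_ ?_
      (integrable_const _) ?_
    · refine Eventually.of_forall fun y => ?_
      exact (((M.measurable_co_upd1 x y n).sub (M.measurable_co_upd2 x y n)).norm.pow_const
        2).aestronglyMeasurable
    · refine Eventually.of_forall fun y => ae_of_all _ fun p => ?_
      rw [Real.norm_of_nonneg (by positivity)]
      have h1 := sq_norm_sub_le (co e H x n (Function.update p.1 y p.2.1))
        (co e H x n (Function.update p.1 y p.2.2))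
      have h2 : ‖co e H x n (Function.update p.1 y p.2.1)‖ ^ 2 ≤ 1 :=
        pow_le_one₀ (norm_nonneg _) (M.norm_co_le x n _)
      have h3 : ‖co e H x n (Function.update p.1 y p.2.2)‖ ^ 2 ≤ 1 :=
        pow_le_one₀ (norm_nonneg _) (M.norm_co_le x n _)
      linarith
    · refine ae_of_all _ fun p => ?_
      have h1 := M.tendsto_co_upd p.1 x n p.2.1
      have h2 := M.tendsto_co_upd p.1 x n p.2.2
      have h3 := ((h1.sub h2).norm).pow 2
      simpa using h3
  simpa using h

theorem Model.summable_psi (M : Model c e H) (x y : Λ) : Summable (psi c e H x y) :=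
  Summable.of_nonneg_of_le (M.psi_nonneg x y) (M.psi_le x y) ((M.summable_AA x).mul_left 4)

/-- the total influence in `H²` vanishes -/
theorem Model.tendsto_tsum_psi (M : Model c e H) (x : Λ) :
    Tendsto (fun y => ∑' n, psi c e H x y n) cofinite (𝓝 0) := by
  have h := tendsto_tsum_of_dominated_convergence (𝓕 := cofinite)
    (f := fun y n => psi c e H x y n) (g := fun _ => 0) (bound := fun n => 4 * AA c e H x n)
    ((M.summable_AA x).mul_left 4) (fun n => M.tendsto_psi x n)
    (Eventually.of_forall fun y n => by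
      rw [Real.norm_of_nonneg (M.psi_nonneg x y n)]; exact M.psi_le x y n)
  simpa using h

end

end Pool.Agent.Lib.MP_562b47_mp
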