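import Mathlib
import Pool.Agent.Lib.MP_562b47_mp.Decay

/-!
Fractional moments of the Green function decay at every disorder strength: main estimate.
(Anderson model, MP_562b47_mp.)
-/

open MeasureTheory Set Filter Topology Complex
open scoped Real ENNReal NNReal InnerProductSpace

set_option linter.unusedSectionVars false

namespace Pool.Agent.Lib.MP_562b47_mp

variable {Λ : Type*} [DecidableEq Λ] {E : Type*} [NormedAddCommGroup E] [InnerProductSpace ℂ E]
  [CompleteSpace E] {c : ℝ} {e : Λ → E} {H : (Λ → ℝ) → (E →L[ℂ] E)}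

theorem Model.summable_co (M : Model c e H) (x : Λ) (ω : Λ → ℝ) :
    Summable (fun n => ‖co e H x n ω‖ ^ 2) := by
  refine summable_of_sum_range_le (c := 1) (fun n => by positivity) fun N => ?_
  have := bessel (M.fc_diff ω x) (M.fc_le ω x) N
  rw [one_pow] at this
  exact this

theorem Model.tsum_co_le (M : Model c e H) (x : Λ) (ω : Λ → ℝ) :
    ∑' n, ‖co e H x n ω‖ ^ 2 ≤ 1 := by
  refine Real.tsum_le_of_sum_range_le (fun n => by positivity) fun N => ?_
  have := bessel (M.fc_diff ω x) (M.fc_le ω x) N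
  rw [one_pow] at this
  exact this

theorem Model.summable_co_sub (M : Model c e H) (x : Λ) (ω ω' : Λ → ℝ) :
    Summable (fun n => ‖co e H x n ω - co e H x n ω'‖ ^ 2) :=
  Summable.of_nonneg_of_le (fun n => by positivity) (fun n => sq_norm_sub_le _ _)
    (((M.summable_co x ω).mul_left 2).add ((M.summable_co x ω').mul_left 2))

theorem Model.tsum_co_sub_le (M : Model c e H) (x : Λ) (ω ω' : Λ → ℝ) :
    ∑' n, ‖co e H x n ω - co e H x n ω'‖ ^ 2 ≤ 4 := by
  have h1 := Summable.tsum_le_tsum (fun n => sq_norm_sub_le (co e H x n ω) (co e H x n ω'))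
    (M.summable_co_sub x ω ω')
    (((M.summable_co x ω).mul_left 2).add ((M.summable_co x ω').mul_left 2))
  rw [Summable.tsum_add ((M.summable_co x ω).mul_left 2) ((M.summable_co x ω').mul_left 2),
    tsum_mul_left, tsum_mul_left] at h1
  have h2 := M.tsum_co_le x ω
  have h3 := M.tsum_co_le x ω'
  linarith

theorem Model.parseval_Cay (M : Model c e H) (x : Λ) (ω ω' : Λ → ℝ) {t : ℝ} (ht : 0 < t)
    (ht1 : t ≤ 1) :
    ∫ s, ‖Cay e H ω (Zt t s) x - Cay e H ω' (Zt t s) x‖ ^ 2 ∂kap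
      ≤ ∑' n, ‖co e H x n ω - co e H x n ω'‖ ^ 2 := by
  have hr := rt_mem ht ht1
  have h := parseval_diff (M.fc_diff ω x) (M.fc_diff ω' x) (M.summable_co_sub x ω ω') hr.1 hr.2
  have h2 : ∀ (η : Λ → ℝ) s, fc e H η x (rt t * uE s) = Cay e H η (Zt t s) x := fun η s =>
    Model.fc_rt e H η x ht s
  simp_rw [h2] at h
  exact h

variable [Countable Λ]

theorem Model.integral_tsum_eq (M : Model c e H) (x y : Λ) :
    ∫ p : (Λ → ℝ) × (ℝ × ℝ), (∑' n, ‖co e H x n (Function.update p.1 y p.2.1)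
      - co e H x n (Function.update p.1 y p.2.2)‖ ^ 2) ∂((PP Λ c).prod ((unif c).prod (unif c)))
      = ∑' n, psi c e H x y n := by
  have := PP_prob Λ M.hc
  have := unif_prob M.hc
  have hint : ∀ n, Integrable (fun p : (Λ → ℝ) × (ℝ × ℝ) => ‖co e H x n (Function.update p.1 y p.2.1)
      - co e H x n (Function.update p.1 y p.2.2)‖ ^ 2) ((PP Λ c).prod ((unif c).prod (unif c))) := by
    intro n
    refine Integrable.of_bound (C := 4) (((M.measurable_co_upd1 x y n).sub
      (M.measurable_co_upd2 x y n)).norm.pow_const 2).aestronglyMeasurable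
      (ae_of_all _ fun p => ?_)
    rw [Real.norm_of_nonneg (by positivity)]
    have h1 := sq_norm_sub_le (co e H x n (Function.update p.1 y p.2.1))
      (co e H x n (Function.update p.1 y p.2.2))
    have h2 : ‖co e H x n (Function.update p.1 y p.2.1)‖ ^ 2 ≤ 1 :=
      pow_le_one₀ (norm_nonneg _) (M.norm_co_le x n _)
    have h3 : ‖co e H x n (Function.update p.1 y p.2.2)‖ ^ 2 ≤ 1 :=
      pow_le_one₀ (norm_nonneg _) (M.norm_co_le x n _)
    linarith
  refine (integral_tsum_of_summable_integral_norm hint ?_).symm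
  refine (M.summable_psi x y).congr fun n => ?_
  unfold psi
  refine integral_congr_ae (ae_of_all _ fun p => ?_)
  simp only [norm_pow, norm_norm]

omit [Countable Λ] in
theorem continuous_upd1 (y : Λ) : Continuous (fun q : ((Λ → ℝ) × (ℝ × ℝ)) × ℝ =>
    Function.update q.1.1 y q.1.2.1) :=
  (continuous_fst.comp continuous_fst).update y
    (continuous_fst.comp (continuous_snd.comp continuous_fst))

omit [Countable Λ] in
theorem continuous_upd2 (y : Λ) : Continuous (fun q : ((Λ → ℝ) × (ℝ × ℝ)) × ℝ =>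
    Function.update q.1.1 y q.1.2.2) :=
  (continuous_fst.comp continuous_fst).update y
    (continuous_snd.comp (continuous_snd.comp continuous_fst))

/-- the square of the influence -/
noncomputable def dC (e : Λ → E) (H : (Λ → ℝ) → (E →L[ℂ] E)) (x y : Λ) (t : ℝ)
    (p : (Λ → ℝ) × (ℝ × ℝ)) (s : ℝ) : ℝ :=
  ‖Cay e H (Function.update p.1 y p.2.1) (Zt t s) x
        - Cay e H (Function.update p.1 y p.2.2) (Zt t s) x‖ ^ 2

/-- the joint law of the potential, two new values, and the energy -/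
noncomputable def TT (Λ : Type*) (c : ℝ) : Measure ((Λ → ℝ) × (ℝ × ℝ)) :=
  (PP Λ c).prod ((unif c).prod (unif c))

omit [Countable Λ] [DecidableEq Λ] in
theorem TT_prob (hc : 0 < c) : IsProbabilityMeasure (TT Λ c) := by
  have := PP_prob Λ hc
  have := unif_prob hc
  unfold TT; infer_instance

theorem Model.continuous_dC (M : Model c e H) (x y : Λ) {t : ℝ} (ht : 0 < t) :
    Continuous (Function.uncurry (dC e H x y t)) := by
  have hz : Continuous fun q : ((Λ → ℝ) × (ℝ × ℝ)) × ℝ => Zt t q.2 :=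
    continuous_Zt.comp continuous_snd
  exact (((M.continuous_Cay (continuous_upd1 y) hz (fun p => Zt_im_pos ht _) x).sub
    (M.continuous_Cay (continuous_upd2 y) hz (fun p => Zt_im_pos ht _) x)).norm).pow 2

omit [Countable Λ] in
theorem dC_nonneg (x y : Λ) (t : ℝ) (p : (Λ → ℝ) × (ℝ × ℝ)) (s : ℝ) : 0 ≤ dC e H x y t p s := by
  unfold dC; positivity

omit [Countable Λ] in
theorem Model.dC_le (M : Model c e H) (x y : Λ) {t : ℝ} (ht : 0 < t) (p : (Λ → ℝ) × (ℝ × ℝ))
    (s : ℝ) : dC e H x y t p s ≤ 4 := by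
  unfold dC
  have h1 := sq_norm_sub_le (Cay e H (Function.update p.1 y p.2.1) (Zt t s) x)
    (Cay e H (Function.update p.1 y p.2.2) (Zt t s) x)
  have h2 := pow_le_one₀ (n := 2) (norm_nonneg _)
    (M.norm_Cay_le (Function.update p.1 y p.2.1) (Zt_im_pos ht s) x)
  have h3 := pow_le_one₀ (n := 2) (norm_nonneg _)
    (M.norm_Cay_le (Function.update p.1 y p.2.2) (Zt_im_pos ht s) x)
  linarith

theorem Model.integrable_dC (M : Model c e H) (x y : Λ) {t : ℝ} (ht : 0 < t) :
    Integrable (Function.uncurry (dC e H x y t)) ((TT Λ c).prod kap) := by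
  have := TT_prob (Λ := Λ) M.hc
  refine Integrable.of_bound (C := 4) (M.continuous_dC x y ht).aestronglyMeasurable
    (ae_of_all _ fun q => ?_)
  show ‖dC e H x y t q.1 q.2‖ ≤ 4
  rw [Real.norm_of_nonneg (dC_nonneg x y t q.1 q.2)]
  exact M.dC_le x y ht q.1 q.2

theorem Model.measurable_tsum (M : Model c e H) (x y : Λ) :
    Measurable (fun p : (Λ → ℝ) × (ℝ × ℝ) =>
      ∑' n, ‖co e H x n (Function.update p.1 y p.2.1)
      - co e H x n (Function.update p.1 y p.2.2)‖ ^ 2) := by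
  refine measurable_of_tendsto_metrizable (f := fun N (p : (Λ → ℝ) × (ℝ × ℝ)) =>
      ∑ n ∈ Finset.range N, ‖co e H x n (Function.update p.1 y p.2.1)
      - co e H x n (Function.update p.1 y p.2.2)‖ ^ 2) (fun N => ?_) ?_
  · refine Finset.measurable_fun_sum _ fun n _ => ?_
    exact ((M.measurable_co_upd1 x y n).sub (M.measurable_co_upd2 x y n)).norm.pow_const 2
  · rw [tendsto_pi_nhds]
    intro p
    exact (M.summable_co_sub x _ _).hasSum.tendsto_sum_nat

/-- the mean square influence of the coordinate `y` on the Cayley transform at `x` -/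
theorem Model.influence_le (M : Model c e H) (x y : Λ) {t : ℝ} (ht : 0 < t) (ht1 : t ≤ 1) :
    ∫ p, (∫ s, dC e H x y t p s ∂kap) ∂(TT Λ c) ≤ ∑' n, psi c e H x y n := by
  have := TT_prob (Λ := Λ) M.hc
  have h1 : ∀ p, ∫ s, dC e H x y t p s ∂kap ≤ ∑' n, ‖co e H x n (Function.update p.1 y p.2.1)
      - co e H x n (Function.update p.1 y p.2.2)‖ ^ 2 := fun p => M.parseval_Cay x _ _ ht ht1
  have h2 : Integrable (fun p : (Λ → ℝ) × (ℝ × ℝ) =>
      ∑' n, ‖co e H x n (Function.update p.1 y p.2.1)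
      - co e H x n (Function.update p.1 y p.2.2)‖ ^ 2) (TT Λ c) := by
    refine Integrable.of_bound (C := 4) (M.measurable_tsum x y).aestronglyMeasurable
      (ae_of_all _ fun p => ?_)
    rw [Real.norm_of_nonneg (tsum_nonneg fun _ => by positivity)]
    exact M.tsum_co_sub_le x _ _
  have h3 := M.integral_tsum_eq x y
  rw [← h3]
  exact integral_mono_of_nonneg (ae_of_all _ fun p => integral_nonneg fun s => dC_nonneg x y t p s)
    h2 (ae_of_all _ h1)

omit [Countable Λ] in
theorem Model.Cay_diff_eq (M : Model c e H) (ω : Λ → ℝ) {z : ℂ} (hz : 0 < z.im) (x y : Λ)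
    {v v' : ℝ} (hv : v ∈ Icc (-c) c) (hv' : v' ∈ Icc (-c) c) :
    ‖Cay e H (Function.update ω y v) z x - Cay e H (Function.update ω y v') z x‖ ^ 2
      = 4 * ((v - v') ^ 2 * (‖gg e H (Function.update ω y v) z x y‖ ^ 2
        * ‖gg e H (Function.update ω y v') z x y‖ ^ 2)) := by
  have h := M.Cay_upd (Function.update ω y v') hz y v x
  rw [Function.update_idem, Function.update_self, clp_of_mem hv, clp_of_mem hv'] at h
  rw [h, norm_mul, norm_mul, norm_mul, norm_mul, Complex.norm_real, Complex.norm_I]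
  have h5 : ‖(-2 : ℂ)‖ = 2 := by simp
  rw [h5, mul_one, mul_pow, mul_pow, mul_pow, Real.norm_eq_abs, sq_abs]
  ring


/-- the averaged fractional moment -/
noncomputable def Phi (c : ℝ) (e : Λ → E) (H : (Λ → ℝ) → (E →L[ℂ] E)) (x y : Λ) (t : ℝ)
    (ω : Λ → ℝ) (s : ℝ) : ℝ :=
  ∫ v, ‖gg e H (Function.update ω y v) (Zt t s) x y‖ ^ (1/2 : ℝ) ∂(unif c)

omit [Countable Λ] in
theorem Phi_nonneg (x y : Λ) (t : ℝ) (ω : Λ → ℝ) (s : ℝ) : 0 ≤ Phi c e H x y t ω s :=
  integral_nonneg fun _ => by positivity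

omit [Countable Λ] in
/-- single-site estimate: the eighth power of the fractional moment is controlled by the
influence -/
theorem Model.Phi_pow_le (M : Model c e H) (x y : Λ) {t : ℝ} (ht : 0 < t) (ω : Λ → ℝ) (s : ℝ) :
    Phi c e H x y t ω s ^ 8 ≤ Kc c / 4 *
      ∫ v, (∫ v', dC e H x y t (ω, v, v') s ∂(unif c)) ∂(unif c) := by
  obtain ⟨a, b, hne, hgg⟩ := M.gg_affine ω (Zt_im_pos ht s) x y
  set β := Gr e H ω (Zt t s) x y with hβ
  have h1 := frac_le_double M.hc β a b hne
  have h2 : Phi c e H x y t ω s = ∫ v, ‖β / (a + b * (v : ℂ))‖ ^ (1/2 : ℝ) ∂(unif c) := by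
    unfold Phi
    refine integral_congr_ae ?_
    filter_upwards [ae_unif c] with v hv
    rw [hgg v hv]
  have h3 : ∫ v, (∫ v', dC e H x y t (ω, v, v') s ∂(unif c)) ∂(unif c)
      = 4 * ∫ v, (∫ v', (v - v') ^ 2 * (‖β / (a + b * (v : ℂ))‖ ^ 2
        * ‖β / (a + b * (v' : ℂ))‖ ^ 2) ∂(unif c)) ∂(unif c) := by
    rw [← integral_const_mul]
    refine integral_congr_ae ?_
    filter_upwards [ae_unif c] with v hv
    rw [← integral_const_mul]
    refine integral_congr_ae ?_
    filter_upwards [ae_unif c] with v' hv'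
    unfold dC
    simp only
    rw [M.Cay_diff_eq ω (Zt_im_pos ht s) x y hv hv', hgg v hv, hgg v' hv']
  rw [h2, h3]
  calc _ ≤ _ := h1
    _ = _ := by ring

theorem Model.continuous_gg_upd (M : Model c e H) (x y : Λ) {t : ℝ} (ht : 0 < t) :
    Continuous (fun q : ((Λ → ℝ) × ℝ) × ℝ =>
      ‖gg e H (Function.update q.1.1 y q.2) (Zt t q.1.2) x y‖ ^ (1/2 : ℝ)) := by
  have hf : Continuous (fun q : ((Λ → ℝ) × ℝ) × ℝ => Function.update q.1.1 y q.2) :=
    (continuous_fst.comp continuous_fst).update y continuous_snd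
  have hz : Continuous fun q : ((Λ → ℝ) × ℝ) × ℝ => Zt t q.1.2 :=
    continuous_Zt.comp (continuous_snd.comp continuous_fst)
  exact ((M.continuous_gg hf hz (fun p => Zt_im_pos ht _) x y).norm).rpow_const
    (fun _ => Or.inr (by norm_num))

omit [Countable Λ] in
theorem Model.gg_rpow_le (M : Model c e H) (x y : Λ) {t : ℝ} (ht : 0 < t) (ht1 : t ≤ 1)
    (ω : Λ → ℝ) (s : ℝ) : ‖gg e H ω (Zt t s) x y‖ ^ (1/2 : ℝ) ≤ (1 / t) ^ (1/2 : ℝ) := by
  refine Real.rpow_le_rpow (norm_nonneg _) ?_ (by norm_num)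
  refine ((M.norm_gg_le ω (Zt_im_pos ht s) x y).trans (M.norm_Gr_le ω (Zt_im_pos ht s) x y)).trans ?_
  exact one_div_le_one_div_of_le ht (le_Zt_im ht ht1 s)

theorem Model.measurable_Phi (M : Model c e H) (x y : Λ) {t : ℝ} (ht : 0 < t) :
    Measurable (Function.uncurry (Phi c e H x y t)) := by
  have := unif_prob M.hc
  have h := (M.continuous_gg_upd x y ht).stronglyMeasurable
  have h2 : StronglyMeasurable (fun p : (Λ → ℝ) × ℝ =>
      ∫ v, ‖gg e H (Function.update p.1 y v) (Zt t p.2) x y‖ ^ (1/2 : ℝ) ∂(unif c)) :=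
    StronglyMeasurable.integral_prod_right (f := fun (p : (Λ → ℝ) × ℝ) (v : ℝ) =>
      ‖gg e H (Function.update p.1 y v) (Zt t p.2) x y‖ ^ (1/2 : ℝ)) h
  exact h2.measurable

omit [Countable Λ] in
theorem Model.Phi_le (M : Model c e H) (x y : Λ) {t : ℝ} (ht : 0 < t) (ht1 : t ≤ 1)
    (ω : Λ → ℝ) (s : ℝ) : Phi c e H x y t ω s ≤ (1 / t) ^ (1/2 : ℝ) := by
  have := unif_prob M.hc
  unfold Phi
  calc ∫ v, ‖gg e H (Function.update ω y v) (Zt t s) x y‖ ^ (1/2 : ℝ) ∂(unif c)
      ≤ ∫ _v, (1 / t) ^ (1/2 : ℝ) ∂(unif c) :=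
        integral_mono_of_nonneg (ae_of_all _ fun _ => by positivity) (integrable_const _)
          (ae_of_all _ fun v => M.gg_rpow_le x y ht ht1 _ s)
    _ = _ := by simp

theorem Model.integrable_Phi_pow (M : Model c e H) (x y : Λ) {t : ℝ} (ht : 0 < t) (ht1 : t ≤ 1)
    (n : ℕ) : Integrable (fun p : (Λ → ℝ) × ℝ => Phi c e H x y t p.1 p.2 ^ n)
      ((PP Λ c).prod kap) := by
  have := PP_prob Λ M.hc
  refine Integrable.of_bound (C := ((1 / t) ^ (1/2 : ℝ)) ^ n)
    ((M.measurable_Phi x y ht).pow_const n).aestronglyMeasurable (ae_of_all _ fun p => ?_)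
  have h0 := Phi_nonneg (c := c) (e := e) (H := H) x y t p.1 p.2
  rw [Real.norm_of_nonneg (by positivity)]
  exact pow_le_pow_left₀ h0 (M.Phi_le x y ht ht1 p.1 p.2) n


end Pool.Agent.Lib.MP_562b47_mp
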