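import Mathlib
import Pool.Agent.Lib.MP_562b47_mp.Decay2

/-!
Fractional moments of the Green function decay at every disorder strength: conclusion.
(Anderson model, MP_562b47_mp.)
-/

open MeasureTheory Set Filter Topology Complex
open scoped Real ENNReal NNReal InnerProductSpace

set_option linter.unusedSectionVars false

namespace Pool.Agent.Lib.MP_562b47_mp

variable {Λ : Type*} [DecidableEq Λ] {E : Type*} [NormedAddCommGroup E] [InnerProductSpace ℂ E]
  [CompleteSpace E] {c : ℝ} {e : Λ → E} {H : (Λ → ℝ) → (E →L[ℂ] E)} [Countable Λ]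

/-- integrals are invariant under resampling -/
theorem integral_resample (hc : 0 < c) (y : Λ) {f : (Λ → ℝ) → ℝ} (hf : Measurable f) {C : ℝ}
    (hC : ∀ ω, |f ω| ≤ C) :
    ∫ ω, (∫ v, f (Function.update ω y v) ∂(unif c)) ∂(PP Λ c) = ∫ ω, f ω ∂(PP Λ c) := by
  have := PP_prob Λ hc
  have := unif_prob hc
  have hmp : MeasurePreserving (fun p : (Λ → ℝ) × ℝ => Function.update p.1 y p.2)
      ((PP Λ c).prod (unif c)) (PP Λ c) := measurePreserving_upd (Λ := Λ) (unif c) y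
  have hint : Integrable (fun p : (Λ → ℝ) × ℝ => f (Function.update p.1 y p.2))
      ((PP Λ c).prod (unif c)) := by
    refine Integrable.of_bound (C := C) (hf.comp hmp.measurable).aestronglyMeasurable
      (ae_of_all _ fun q => ?_)
    rw [Real.norm_eq_abs]
    exact hC _
  have h2 : ∫ p : (Λ → ℝ) × ℝ, f (Function.update p.1 y p.2) ∂((PP Λ c).prod (unif c))
      = ∫ ω, f ω ∂(PP Λ c) := by
    have h3 := integral_map (μ := (PP Λ c).prod (unif c)) hmp.measurable.aemeasurable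
      (f := f) hf.aestronglyMeasurable
    rw [hmp.map_eq] at h3
    exact h3.symm
  rw [← h2, integral_prod _ hint]

/-- an abstract Fubini estimate -/
theorem fubini_le {Ω : Type*} [MeasurableSpace Ω] (μ : Measure Ω) [IsProbabilityMeasure μ]
    (ν κ : Measure ℝ) [IsProbabilityMeasure ν] [IsProbabilityMeasure κ]
    {D : Ω × (ℝ × ℝ) → ℝ → ℝ} (hD : Measurable (Function.uncurry D)) (hD0 : ∀ p s, 0 ≤ D p s)
    {C : ℝ} (hDC : ∀ p s, D p s ≤ C) {F : Ω → ℝ → ℝ}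
    (hF : Integrable (fun p : Ω × ℝ => F p.1 p.2) (μ.prod κ))
    (hF0 : ∀ ω s, 0 ≤ F ω s) {K : ℝ}
    (h : ∀ ω s, F ω s ≤ K * ∫ v, (∫ v', D (ω, v, v') s ∂ν) ∂ν) :
    ∫ p : Ω × ℝ, F p.1 p.2 ∂(μ.prod κ)
      ≤ K * ∫ p, (∫ s, D p s ∂κ) ∂(μ.prod (ν.prod ν)) := by
  have hint : Integrable (Function.uncurry D) ((μ.prod (ν.prod ν)).prod κ) := by
    refine Integrable.of_bound (C := C) hD.aestronglyMeasurable (ae_of_all _ fun q => ?_)
    show ‖D q.1 q.2‖ ≤ C
    rw [Real.norm_of_nonneg (hD0 _ _)]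
    exact hDC _ _
  have hmeas : ∀ s, Measurable (fun p => D p s) := fun s => hD.of_uncurry_right
  have hints : ∀ s, Integrable (fun p => D p s) (μ.prod (ν.prod ν)) := by
    intro s
    refine Integrable.of_bound (C := C) (hmeas s).aestronglyMeasurable (ae_of_all _ fun q => ?_)
    rw [Real.norm_of_nonneg (hD0 _ _)]
    exact hDC _ _
  have hints2 : ∀ s ω, Integrable (fun q : ℝ × ℝ => D (ω, q) s) (ν.prod ν) := by
    intro s ω
    refine Integrable.of_bound (C := C) ((hmeas s).comp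
      (measurable_const.prodMk measurable_id)).aestronglyMeasurable (ae_of_all _ fun q => ?_)
    rw [Real.norm_of_nonneg (hD0 _ _)]
    exact hDC _ _
  have e1 : ∫ p, (∫ s, D p s ∂κ) ∂(μ.prod (ν.prod ν))
      = ∫ s, (∫ p, D p s ∂(μ.prod (ν.prod ν))) ∂κ := integral_integral_swap hint
  have e2 : ∀ s, ∫ p, D p s ∂(μ.prod (ν.prod ν))
      = ∫ ω, (∫ v, (∫ v', D (ω, v, v') s ∂ν) ∂ν) ∂μ := by
    intro s
    rw [integral_prod _ (hints s)]
    refine integral_congr_ae (ae_of_all _ fun ω => ?_)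
    exact integral_prod _ (hints2 s ω)
  have hkey : ∀ s, ∫ ω, F ω s ∂μ ≤ K * ∫ p, D p s ∂(μ.prod (ν.prod ν)) := by
    intro s
    rw [e2 s, ← integral_const_mul]
    refine integral_mono_of_nonneg (ae_of_all _ fun ω => hF0 ω s) ?_
      (ae_of_all _ fun ω => h ω s)
    refine Integrable.const_mul ?_ _
    refine ((hints s).integral_prod_left).congr (ae_of_all _ fun ω => ?_)
    exact integral_prod _ (hints2 s ω)
  calc ∫ p : Ω × ℝ, F p.1 p.2 ∂(μ.prod κ)
      = ∫ s, (∫ ω, F ω s ∂μ) ∂κ := integral_prod_symm _ hF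
    _ ≤ ∫ s, K * ∫ p, D p s ∂(μ.prod (ν.prod ν)) ∂κ := by
        refine integral_mono_of_nonneg (ae_of_all _ fun s => integral_nonneg fun ω => hF0 ω s)
          ?_ (ae_of_all _ hkey)
        exact (hint.integral_prod_right).const_mul _
    _ = K * ∫ s, (∫ p, D p s ∂(μ.prod (ν.prod ν))) ∂κ := integral_const_mul _ _
    _ = _ := by rw [e1]

/-- the eighth moment of the averaged fractional moment -/
theorem Model.integral_Phi_pow_le (M : Model c e H) (x y : Λ) {t : ℝ} (ht : 0 < t)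
    (ht1 : t ≤ 1) :
    ∫ p : (Λ → ℝ) × ℝ, Phi c e H x y t p.1 p.2 ^ 8 ∂((PP Λ c).prod kap)
      ≤ Kc c / 4 * ∑' n, psi c e H x y n := by
  have := PP_prob Λ M.hc
  have := unif_prob M.hc
  have hK : 0 < Kc c := by have := M.hc; unfold Kc; positivity
  have h := fubini_le (PP Λ c) (unif c) kap (M.continuous_dC x y ht).measurable
    (fun p s => dC_nonneg x y t p s) (fun p s => M.dC_le x y ht p s)
    (F := fun ω s => Phi c e H x y t ω s ^ 8) (M.integrable_Phi_pow x y ht ht1 8)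
    (fun ω s => pow_nonneg (Phi_nonneg x y t ω s) 8) (K := Kc c / 4)
    (fun ω s => M.Phi_pow_le x y ht ω s)
  exact h.trans (mul_le_mul_of_nonneg_left (M.influence_le x y ht ht1) (by positivity))

theorem le_add_pow {φ l : ℝ} (hφ : 0 ≤ φ) (hl : 0 < l) : φ ≤ l + φ ^ 8 / l ^ 7 := by
  by_cases h : φ ≤ l
  · have : 0 ≤ φ ^ 8 / l ^ 7 := by positivity
    linarith
  · replace h := not_le.mp h
    have h1 : φ ≤ φ ^ 8 / l ^ 7 := by
      rw [le_div_iff₀ (by positivity)]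
      calc φ * l ^ 7 ≤ φ * φ ^ 7 :=
            mul_le_mul_of_nonneg_left (pow_le_pow_left₀ hl.le h.le 7) hφ
        _ = φ ^ 8 := by ring
    linarith

theorem Model.continuous_gg_rpow (M : Model c e H) (x y : Λ) {t : ℝ} (ht : 0 < t) :
    Continuous (fun p : (Λ → ℝ) × ℝ => ‖gg e H p.1 (Zt t p.2) x y‖ ^ (1/2 : ℝ)) :=
  ((M.continuous_gg continuous_fst (continuous_Zt.comp continuous_snd)
      (fun p => Zt_im_pos ht _) x y).norm).rpow_const (fun _ => Or.inr (by norm_num))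

theorem Model.continuous_Gr_rpow (M : Model c e H) (x y : Λ) {t : ℝ} (ht : 0 < t) :
    Continuous (fun p : (Λ → ℝ) × ℝ => ‖Gr e H p.1 (Zt t p.2) x y‖ ^ (1/2 : ℝ)) :=
  ((M.continuous_Gr continuous_fst (continuous_Zt.comp continuous_snd)
      (fun p => Zt_im_pos ht _) x y).norm).rpow_const (fun _ => Or.inr (by norm_num))

theorem Model.integrable_gg_rpow (M : Model c e H) (x y : Λ) {t : ℝ} (ht : 0 < t)
    (ht1 : t ≤ 1) : Integrable (fun p : (Λ → ℝ) × ℝ => ‖gg e H p.1 (Zt t p.2) x y‖ ^ (1/2 : ℝ))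
      ((PP Λ c).prod kap) := by
  have := PP_prob Λ M.hc
  refine Integrable.of_bound (C := (1 / t) ^ (1/2 : ℝ))
      (M.continuous_gg_rpow x y ht).aestronglyMeasurable (ae_of_all _ fun q => ?_)
  rw [Real.norm_of_nonneg (by positivity)]
  exact M.gg_rpow_le x y ht ht1 _ _

theorem Model.Gr_rpow_le (M : Model c e H) (x y : Λ) {t : ℝ} (ht : 0 < t) (ht1 : t ≤ 1)
    (ω : Λ → ℝ) (s : ℝ) : ‖Gr e H ω (Zt t s) x y‖ ^ (1/2 : ℝ) ≤ (1 / t) ^ (1/2 : ℝ) :=
  Real.rpow_le_rpow (norm_nonneg _) ((M.norm_Gr_le ω (Zt_im_pos ht s) x y).trans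
      (one_div_le_one_div_of_le ht (le_Zt_im ht ht1 s))) (by norm_num)

theorem Model.integrable_Gr_rpow (M : Model c e H) (x y : Λ) {t : ℝ} (ht : 0 < t)
    (ht1 : t ≤ 1) : Integrable (fun p : (Λ → ℝ) × ℝ => ‖Gr e H p.1 (Zt t p.2) x y‖ ^ (1/2 : ℝ))
      ((PP Λ c).prod kap) := by
  have := PP_prob Λ M.hc
  refine Integrable.of_bound (C := (1 / t) ^ (1/2 : ℝ))
      (M.continuous_Gr_rpow x y ht).aestronglyMeasurable (ae_of_all _ fun q => ?_)
  rw [Real.norm_of_nonneg (by positivity)]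
  exact M.Gr_rpow_le x y ht ht1 _ _

/-- resampling invariance -/
theorem Model.integral_Phi_eq (M : Model c e H) (x y : Λ) {t : ℝ} (ht : 0 < t)
    (ht1 : t ≤ 1) :
    ∫ p : (Λ → ℝ) × ℝ, Phi c e H x y t p.1 p.2 ∂((PP Λ c).prod kap)
      = ∫ p : (Λ → ℝ) × ℝ, ‖gg e H p.1 (Zt t p.2) x y‖ ^ (1/2 : ℝ) ∂((PP Λ c).prod kap) := by
  have := PP_prob Λ M.hc
  have hint1 := M.integrable_Phi_pow x y ht ht1 1
  simp only [pow_one] at hint1
  rw [integral_prod_symm _ hint1, integral_prod_symm _ (M.integrable_gg_rpow x y ht ht1)]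
  refine integral_congr_ae (ae_of_all _ fun s => ?_)
  have hm : Measurable (fun ω : Λ → ℝ => ‖gg e H ω (Zt t s) x y‖ ^ (1/2 : ℝ)) :=
    ((M.continuous_gg_rpow x y ht).comp (continuous_id.prodMk continuous_const)).measurable
  exact integral_resample M.hc y hm (C := (1 / t) ^ (1/2 : ℝ)) fun ω => by
    rw [abs_of_nonneg (by positivity)]
    exact M.gg_rpow_le x y ht ht1 ω s

theorem Model.integral_gg_le (M : Model c e H) (x y : Λ) {t : ℝ} (ht : 0 < t)
    (ht1 : t ≤ 1) {l : ℝ} (hl : 0 < l) :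
    ∫ p : (Λ → ℝ) × ℝ, ‖gg e H p.1 (Zt t p.2) x y‖ ^ (1/2 : ℝ) ∂((PP Λ c).prod kap)
      ≤ l + Kc c / 4 / l ^ 7 * ∑' n, psi c e H x y n := by
  have := PP_prob Λ M.hc
  rw [← M.integral_Phi_eq x y ht ht1]
  have hint8 := M.integrable_Phi_pow x y ht ht1 8
  have h8 := M.integral_Phi_pow_le x y ht ht1
  calc ∫ p : (Λ → ℝ) × ℝ, Phi c e H x y t p.1 p.2 ∂((PP Λ c).prod kap)
      ≤ ∫ p : (Λ → ℝ) × ℝ, (l + Phi c e H x y t p.1 p.2 ^ 8 / l ^ 7) ∂((PP Λ c).prod kap) := by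
        refine integral_mono_of_nonneg (ae_of_all _ fun p => Phi_nonneg x y t p.1 p.2)
          ((integrable_const _).add (hint8.div_const _))
          (ae_of_all _ fun p => le_add_pow (Phi_nonneg x y t p.1 p.2) hl)
    _ = l + (∫ p : (Λ → ℝ) × ℝ, Phi c e H x y t p.1 p.2 ^ 8 ∂((PP Λ c).prod kap)) / l ^ 7 := by
        rw [integral_add (integrable_const _) (hint8.div_const _), integral_div]
        simp
    _ ≤ l + (Kc c / 4 * ∑' n, psi c e H x y n) / l ^ 7 := by gcongr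
    _ = _ := by ring

/-- a priori bound for the fractional moment of the diagonal Green function -/
theorem Model.integral_Gr_diag_le (M : Model c e H) (x : Λ) {t : ℝ} (ht : 0 < t)
    (ht1 : t ≤ 1) :
    ∫ p : (Λ → ℝ) × ℝ, ‖Gr e H p.1 (Zt t p.2) x x‖ ^ (1/2 : ℝ) ∂((PP Λ c).prod kap)
      ≤ 8 * (1 / c) ^ (1/2 : ℝ) := by
  have := PP_prob Λ M.hc
  have := unif_prob M.hc
  rw [integral_prod_symm _ (M.integrable_Gr_rpow x x ht ht1)]
  have hs : ∀ s, ∫ ω, ‖Gr e H ω (Zt t s) x x‖ ^ (1/2 : ℝ) ∂(PP Λ c) ≤ 8 * (1 / c) ^ (1/2 : ℝ) := by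
    intro s
    have hm : Measurable (fun ω : Λ → ℝ => ‖Gr e H ω (Zt t s) x x‖ ^ (1/2 : ℝ)) :=
      ((M.continuous_Gr_rpow x x ht).comp (continuous_id.prodMk continuous_const)).measurable
    rw [← integral_resample M.hc x hm (C := (1 / t) ^ (1/2 : ℝ)) fun ω => by
      rw [abs_of_nonneg (by positivity)]
      exact M.Gr_rpow_le x x ht ht1 ω s]
    calc ∫ ω, (∫ v, ‖Gr e H (Function.update ω x v) (Zt t s) x x‖ ^ (1/2 : ℝ) ∂(unif c)) ∂(PP Λ c)
          ≤ ∫ _ω, 8 * (1 / c) ^ (1/2 : ℝ) ∂(PP Λ c) := by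
            refine integral_mono_of_nonneg (ae_of_all _ fun ω => integral_nonneg fun v => by
              positivity) (integrable_const _) (ae_of_all _ fun ω => ?_)
            obtain ⟨a, hne, hG⟩ := M.Gr_affine ω (Zt_im_pos ht s) x
            simp only
            set β := Gr e H ω (Zt t s) x x with hβ
            have h3 : ∫ v, ‖Gr e H (Function.update ω x v) (Zt t s) x x‖ ^ (1/2 : ℝ) ∂(unif c)
                = ∫ v, ‖β / (a + β * (v : ℂ))‖ ^ (1/2 : ℝ) ∂(unif c) := by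
              refine integral_congr_ae ?_
              filter_upwards [ae_unif c] with v hv
              rw [hG v hv]
            rw [h3]
            refine (frac_unif M.hc β a β hne).trans ?_
            have h4 := norm_b_le M.hc a β
            have h5 := max_pos_of M.hc a β hne
            have h6 : ‖β‖ / max ‖a + β * c‖ ‖a - β * c‖ ≤ 1 / c := by
              rw [div_le_div_iff₀ h5 M.hc]; linarith
            have h7 := Real.rpow_le_rpow (by positivity) h6 (by norm_num : (0:ℝ) ≤ 1/2)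
            linarith
        _ = _ := by simp
  calc ∫ s, (∫ ω, ‖Gr e H ω (Zt t s) x x‖ ^ (1/2 : ℝ) ∂(PP Λ c)) ∂kap
      ≤ ∫ _s, 8 * (1 / c) ^ (1/2 : ℝ) ∂kap := by
        refine integral_mono_of_nonneg (ae_of_all _ fun s => integral_nonneg fun ω => by
          positivity) (integrable_const _) (ae_of_all _ hs)
    _ = _ := by simp

theorem Model.quarter_le (M : Model c e H) (ω : Λ → ℝ) {z : ℂ} (hz : 0 < z.im) (x y : Λ) {δ : ℝ}
    (hδ : 0 < δ) : ‖Gr e H ω z x y‖ ^ (1/4 : ℝ)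
      ≤ (1 / (2 * δ)) * ‖gg e H ω z x y‖ ^ (1/2 : ℝ)
        + (δ / 2) * (1 + ‖Gr e H ω z x x‖ ^ (1/2 : ℝ)) := by
  have h1 : Gr e H ω z x y = gg e H ω z x y * den e H ω z x := by
    unfold gg
    rw [div_mul_cancel₀ _ (M.den_ne ω hz x)]
  rw [h1, norm_mul, Real.mul_rpow (norm_nonneg _) (norm_nonneg _)]
  have ha : ‖gg e H ω z x y‖ ^ (1/2 : ℝ) = (‖gg e H ω z x y‖ ^ (1/4 : ℝ)) ^ 2 := by
    rw [← Real.rpow_natCast, ← Real.rpow_mul (norm_nonneg _)]; norm_num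
  have hb : (‖den e H ω z x‖ ^ (1/4 : ℝ)) ^ 2 ≤ 1 + ‖Gr e H ω z x x‖ ^ (1/2 : ℝ) := by
    rw [← Real.rpow_natCast, ← Real.rpow_mul (norm_nonneg _)]
    norm_num
    have h2 : ‖den e H ω z x‖ ≤ 1 + ‖Gr e H ω z x x‖ := by
      unfold den
      calc ‖1 - I * Gr e H ω z x x‖ ≤ ‖(1:ℂ)‖ + ‖I * Gr e H ω z x x‖ := norm_sub_le _ _
        _ = _ := by rw [norm_one, norm_mul, Complex.norm_I, one_mul]
    calc ‖den e H ω z x‖ ^ (1/2 : ℝ) ≤ (1 + ‖Gr e H ω z x x‖) ^ (1/2 : ℝ) :=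
          Real.rpow_le_rpow (norm_nonneg _) h2 (by norm_num)
      _ ≤ 1 ^ (1/2 : ℝ) + ‖Gr e H ω z x x‖ ^ (1/2 : ℝ) :=
          Real.rpow_add_le_add_rpow zero_le_one (norm_nonneg _) (by norm_num) (by norm_num)
      _ = _ := by rw [Real.one_rpow]
  rw [ha]
  set a := ‖gg e H ω z x y‖ ^ (1/4 : ℝ)
  set b := ‖den e H ω z x‖ ^ (1/4 : ℝ)
  have h3 : a * b ≤ (1 / (2 * δ)) * a ^ 2 + (δ / 2) * b ^ 2 := by
    have h4 : 0 ≤ (a / δ - b) ^ 2 * (δ / 2) := by positivity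
    have h5 : (a / δ - b) ^ 2 * (δ / 2) = (1 / (2 * δ)) * a ^ 2 + (δ / 2) * b ^ 2 - a * b := by
      field_simp; ring
    linarith
  have h6 : (δ / 2) * b ^ 2 ≤ (δ / 2) * (1 + ‖Gr e H ω z x x‖ ^ (1/2 : ℝ)) :=
    mul_le_mul_of_nonneg_left hb (by positivity)
  linarith

theorem Model.continuous_Gr_quarter (M : Model c e H) (x y : Λ) {t : ℝ} (ht : 0 < t) :
    Continuous (fun p : (Λ → ℝ) × ℝ => ‖Gr e H p.1 (Zt t p.2) x y‖ ^ (1/4 : ℝ)) :=
  ((M.continuous_Gr continuous_fst (continuous_Zt.comp continuous_snd)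
      (fun p => Zt_im_pos ht _) x y).norm).rpow_const (fun _ => Or.inr (by norm_num))

theorem Model.integrable_Gr_quarter (M : Model c e H) (x y : Λ) {t : ℝ} (ht : 0 < t)
    (ht1 : t ≤ 1) : Integrable (fun p : (Λ → ℝ) × ℝ => ‖Gr e H p.1 (Zt t p.2) x y‖ ^ (1/4 : ℝ))
      ((PP Λ c).prod kap) := by
  have := PP_prob Λ M.hc
  refine Integrable.of_bound (C := (1 / t) ^ (1/4 : ℝ))
      (M.continuous_Gr_quarter x y ht).aestronglyMeasurable (ae_of_all _ fun q => ?_)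
  rw [Real.norm_of_nonneg (by positivity)]
  exact Real.rpow_le_rpow (norm_nonneg _) ((M.norm_Gr_le _ (Zt_im_pos ht _) x y).trans
      (one_div_le_one_div_of_le ht (le_Zt_im ht ht1 _))) (by norm_num)

theorem Model.integral_quarter_le (M : Model c e H) (x y : Λ) {t : ℝ} (ht : 0 < t)
    (ht1 : t ≤ 1) {l δ : ℝ} (hl : 0 < l) (hδ : 0 < δ) :
    ∫ p : (Λ → ℝ) × ℝ, ‖Gr e H p.1 (Zt t p.2) x y‖ ^ (1/4 : ℝ) ∂((PP Λ c).prod kap)
      ≤ (1 / (2 * δ)) * (l + Kc c / 4 / l ^ 7 * ∑' n, psi c e H x y n)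
        + (δ / 2) * (1 + 8 * (1 / c) ^ (1/2 : ℝ)) := by
  have := PP_prob Λ M.hc
  have hg := M.integrable_gg_rpow x y ht ht1
  have hG := M.integrable_Gr_rpow x x ht ht1
  have hG1 : Integrable (fun p : (Λ → ℝ) × ℝ => 1 + ‖Gr e H p.1 (Zt t p.2) x x‖ ^ (1/2 : ℝ))
      ((PP Λ c).prod kap) := (integrable_const _).add hG
  calc ∫ p : (Λ → ℝ) × ℝ, ‖Gr e H p.1 (Zt t p.2) x y‖ ^ (1/4 : ℝ) ∂((PP Λ c).prod kap)
      ≤ ∫ p : (Λ → ℝ) × ℝ, ((1 / (2 * δ)) * ‖gg e H p.1 (Zt t p.2) x y‖ ^ (1/2 : ℝ)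
        + (δ / 2) * (1 + ‖Gr e H p.1 (Zt t p.2) x x‖ ^ (1/2 : ℝ))) ∂((PP Λ c).prod kap) := by
        refine integral_mono_of_nonneg (ae_of_all _ fun p => by positivity)
          ((hg.const_mul _).add (hG1.const_mul _))
          (ae_of_all _ fun p => M.quarter_le p.1 (Zt_im_pos ht p.2) x y hδ)
    _ = (1 / (2 * δ)) * ∫ p : (Λ → ℝ) × ℝ, ‖gg e H p.1 (Zt t p.2) x y‖ ^ (1/2 : ℝ)
          ∂((PP Λ c).prod kap)
        + (δ / 2) * (1 + ∫ p : (Λ → ℝ) × ℝ, ‖Gr e H p.1 (Zt t p.2) x x‖ ^ (1/2 : ℝ)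
          ∂((PP Λ c).prod kap)) := by
        rw [integral_add (hg.const_mul _) (hG1.const_mul _),
          integral_const_mul, integral_const_mul, integral_add (integrable_const _) hG]
        simp
    _ ≤ _ := by
        refine add_le_add (mul_le_mul_of_nonneg_left (M.integral_gg_le x y ht ht1 hl)
          (by positivity)) (mul_le_mul_of_nonneg_left ?_ (by positivity))
        have := M.integral_Gr_diag_le x ht ht1
        linarith

/-- **Fractional moment decay at every disorder strength**: as `y → ∞` the fractional moment of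
the Green function `G(x,y)`, averaged over the energy, tends to `0`, uniformly up to the real
axis. -/
theorem Model.decay (M : Model c e H) (x : Λ) {ε : ℝ} (hε : 0 < ε) :
    ∀ᶠ y in cofinite, ∀ t : ℝ, 0 < t → t ≤ 1 →
      ∫ p : (Λ → ℝ) × ℝ, ‖Gr e H p.1 (Zt t p.2) x y‖ ^ (1/4 : ℝ) ∂((PP Λ c).prod kap) ≤ ε := by
  set B := 1 + 8 * (1 / c) ^ (1/2 : ℝ) with hB
  have hc := M.hc
  have hBpos : 0 < B := by positivity
  set δ := 2 * ε / (3 * B) with hδ
  have hδpos : 0 < δ := by positivity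
  set l := 2 * δ * ε / 3 with hl
  have hlpos : 0 < l := by positivity
  have hK : 0 < Kc c := by unfold Kc; positivity
  have h1 : Tendsto (fun y => (1 / (2 * δ)) * (l + Kc c / 4 / l ^ 7 * ∑' n, psi c e H x y n)
        + (δ / 2) * B) cofinite (𝓝 ((1 / (2 * δ)) * (l + Kc c / 4 / l ^ 7 * 0) + (δ / 2) * B)) :=
    (((M.tendsto_tsum_psi x).const_mul _).const_add _ |>.const_mul _).add_const _
  have h2 : (1 / (2 * δ)) * (l + Kc c / 4 / l ^ 7 * 0) + (δ / 2) * B < ε := by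
    have e1 : (1 / (2 * δ)) * l = ε / 3 := by rw [hl]; field_simp
    have e2 : (δ / 2) * B = ε / 3 := by rw [hδ]; field_simp
    rw [mul_zero, add_zero, e1, e2]
    linarith
  filter_upwards [h1.eventually (gt_mem_nhds h2)] with y hy t ht ht1
  exact (M.integral_quarter_le x y ht ht1 hlpos hδpos).trans hy.le

end Pool.Agent.Lib.MP_562b47_mp
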