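import Mathlib

/-!
An abstract statement on random positive matrices: shift invariance and decay of the
off-diagonal entries exclude finite rank limits.
(Anderson model, MP_562b47_mp.)
-/

open MeasureTheory Set Filter Topology
open scoped Real ENNReal NNReal

set_option linter.unusedSectionVars false

namespace Pool.Agent.Lib.MP_562b47_mp

variable {Λ : Type*} {Ω : Type*} [MeasurableSpace Ω]

/-- pointwise limit -/
noncomputable def Lm (g : ℕ → Λ → Λ → Ω → ℝ) (x y : Λ) (p : Ω) : ℝ :=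
  limUnder atTop (fun k => g k x y p)

/-- normalised limit -/
noncomputable def Nn (g : ℕ → Λ → Λ → Ω → ℝ) (x y : Λ) (p : Ω) : ℝ :=
  Lm g x y p / (√(1 + Lm g x x p) * √(1 + Lm g y y p))

/-- the set of convergence -/
def CV (g : ℕ → Λ → Λ → Ω → ℝ) : Set Ω :=
  {p | ∀ x y, ∃ l, Tendsto (fun k => g k x y p) atTop (𝓝 l)}

/-- the trace inequality holds for all finite sections -/
def An (g : ℕ → Λ → Λ → Ω → ℝ) (n : ℕ) : Set Ω :=
  {p | p ∈ CV g ∧ ∀ X : Finset Λ, (∑ x ∈ X, Nn g x x p) ^ 2 ≤ n * ∑ x ∈ X, ∑ y ∈ X, Nn g x y p ^ 2}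

/-- normalised entries -/
noncomputable def Nk (g : ℕ → Λ → Λ → Ω → ℝ) (k : ℕ) (x y : Λ) (p : Ω) : ℝ :=
  g k x y p / (√(1 + g k x x p) * √(1 + g k y y p))

structure GramHyp (μ : Measure Ω) (g : ℕ → Λ → Λ → Ω → ℝ) : Prop where
  meas : ∀ k x y, Measurable (g k x y)
  pos : ∀ k x p, 0 ≤ g k x x p
  cs : ∀ k x y p, g k x y p ^ 2 ≤ g k x x p * g k y y p
  symm : ∀ k x y p, g k x y p = g k y x p
  int : ∀ k x y, Integrable (fun p => |g k x y p| ^ (1/4 : ℝ)) μ
  decay : ∀ x, ∀ ε > 0, ∀ᶠ y in cofinite, ∀ k, ∫ p, |g k x y p| ^ (1/4 : ℝ) ∂μ ≤ ε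

section

variable {μ : Measure Ω} [IsProbabilityMeasure μ] {g : ℕ → Λ → Λ → Ω → ℝ}

theorem tendsto_Lm {p : Ω} (hp : p ∈ CV g) (x y : Λ) :
    Tendsto (fun k => g k x y p) atTop (𝓝 (Lm g x y p)) :=
  tendsto_nhds_limUnder (hp x y)

theorem GramHyp.Lm_nonneg (h : GramHyp μ g) {p : Ω} (hp : p ∈ CV g) (x : Λ) : 0 ≤ Lm g x x p :=
  ge_of_tendsto' (tendsto_Lm hp x x) fun k => h.pos k x p

theorem GramHyp.Lm_sq_le (h : GramHyp μ g) {p : Ω} (hp : p ∈ CV g) (x y : Λ) :
    Lm g x y p ^ 2 ≤ Lm g x x p * Lm g y y p :=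
  le_of_tendsto_of_tendsto' ((tendsto_Lm hp x y).pow 2)
    ((tendsto_Lm hp x x).mul (tendsto_Lm hp y y)) fun k => h.cs k x y p

theorem abs_norm_le {a b c : ℝ} (hb : 0 ≤ b) (hc : 0 ≤ c) (h : a ^ 2 ≤ b * c) :
    |a / (√(1 + b) * √(1 + c))| ≤ 1 := by
  rw [← Real.sqrt_mul (by positivity), abs_div, abs_of_nonneg (Real.sqrt_nonneg _),
    div_le_one (by positivity)]
  apply Real.le_sqrt_of_sq_le
  rw [sq_abs]
  nlinarith

theorem abs_norm_le' {a b c : ℝ} (hb : 0 ≤ b) (hc : 0 ≤ c) :
    |a / (√(1 + b) * √(1 + c))| ≤ |a| := by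
  have h1 : 1 ≤ √(1 + b) := by rw [Real.one_le_sqrt]; linarith
  have h2 : 1 ≤ √(1 + c) := by rw [Real.one_le_sqrt]; linarith
  have h3 : 1 ≤ √(1 + b) * √(1 + c) := by nlinarith
  rw [abs_div, abs_of_nonneg (by positivity : (0:ℝ) ≤ √(1 + b) * √(1 + c))]
  exact div_le_self (abs_nonneg _) h3

theorem GramHyp.abs_Nk_le (h : GramHyp μ g) (k : ℕ) (x y : Λ) (p : Ω) : |Nk g k x y p| ≤ 1 :=
  abs_norm_le (h.pos _ _ _) (h.pos _ _ _) (h.cs _ _ _ _)

theorem GramHyp.abs_Nn_le (h : GramHyp μ g) {p : Ω} (hp : p ∈ CV g) (x y : Λ) :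
    |Nn g x y p| ≤ 1 :=
  abs_norm_le (h.Lm_nonneg hp _) (h.Lm_nonneg hp _) (h.Lm_sq_le hp _ _)

theorem GramHyp.tendsto_Nk (h : GramHyp μ g) {p : Ω} (hp : p ∈ CV g) (x y : Λ) :
    Tendsto (fun k => Nk g k x y p) atTop (𝓝 (Nn g x y p)) := by
  unfold Nk Nn
  have hx := h.Lm_nonneg hp x
  have hy := h.Lm_nonneg hp y
  refine (tendsto_Lm hp x y).div ?_ (by positivity)
  exact ((tendsto_Lm hp x x).const_add 1).sqrt.mul ((tendsto_Lm hp y y).const_add 1).sqrt

theorem GramHyp.Nk_sq_le (h : GramHyp μ g) (k : ℕ) (x y : Λ) (p : Ω) :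
    Nk g k x y p ^ 2 ≤ |g k x y p| ^ (1/4 : ℝ) := by
  have h1 := h.abs_Nk_le k x y p
  have h2 : |Nk g k x y p| ≤ |g k x y p| := abs_norm_le' (h.pos _ _ _) (h.pos _ _ _)
  rw [← sq_abs, ← Real.rpow_natCast]
  by_cases h0 : |Nk g k x y p| = 0
  · rw [h0]
    simp only [Nat.cast_ofNat]
    rw [Real.zero_rpow (by norm_num)]
    positivity
  have h0' : 0 < |Nk g k x y p| := lt_of_le_of_ne (abs_nonneg _) (Ne.symm h0)
  calc |Nk g k x y p| ^ ((2:ℕ):ℝ) ≤ |Nk g k x y p| ^ (1/4 : ℝ) :=
        Real.rpow_le_rpow_of_exponent_ge h0' h1 (by norm_num)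
    _ ≤ _ := Real.rpow_le_rpow (abs_nonneg _) h2 (by norm_num)

theorem GramHyp.measurable_Lm (h : GramHyp μ g) (x y : Λ) : Measurable (Lm g x y) :=
  (StronglyMeasurable.limUnder fun k => (h.meas k x y).stronglyMeasurable).measurable

theorem GramHyp.measurable_Nn (h : GramHyp μ g) (x y : Λ) : Measurable (Nn g x y) := by
  have h1 := h.measurable_Lm x y
  have h2 := h.measurable_Lm x x
  have h3 := h.measurable_Lm y y
  unfold Nn
  fun_prop

theorem GramHyp.measurableSet_CV [Countable Λ] (h : GramHyp μ g) : MeasurableSet (CV g) := by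
  have : CV g = ⋂ x, ⋂ y, {p | ∃ l, Tendsto (fun k => g k x y p) atTop (𝓝 l)} := by
    ext p; simp [CV]
  rw [this]
  exact MeasurableSet.iInter fun x => MeasurableSet.iInter fun y =>
    measurableSet_exists_tendsto fun k => h.meas k x y

theorem GramHyp.measurableSet_An [Countable Λ] (h : GramHyp μ g) (n : ℕ) :
    MeasurableSet (An g n) := by
  have : An g n = CV g ∩ ⋂ X : Finset Λ, {p | (∑ x ∈ X, Nn g x x p) ^ 2
      ≤ n * ∑ x ∈ X, ∑ y ∈ X, Nn g x y p ^ 2} := by
    ext p; simp [An]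
  rw [this]
  refine h.measurableSet_CV.inter (MeasurableSet.iInter fun X => ?_)
  refine measurableSet_le ?_ ?_
  · exact (Finset.measurable_fun_sum X fun x _ => h.measurable_Nn x x).pow_const 2
  · exact (Finset.measurable_fun_sum X fun x _ => Finset.measurable_fun_sum X fun y _ =>
      (h.measurable_Nn x y).pow_const 2).const_mul _

/-- mean square of the normalised limit -/
noncomputable def II (μ : Measure Ω) (g : ℕ → Λ → Λ → Ω → ℝ) (x y : Λ) : ℝ :=
  ∫ p, (CV g).indicator (fun p => Nn g x y p ^ 2) p ∂μ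

theorem GramHyp.ind_le (h : GramHyp μ g) (x y : Λ) (p : Ω) :
    (CV g).indicator (fun p => Nn g x y p ^ 2) p ≤ 1 := by
  by_cases hp : p ∈ CV g
  · rw [indicator_of_mem hp, ← sq_abs]
    exact pow_le_one₀ (abs_nonneg _) (h.abs_Nn_le hp x y)
  · rw [indicator_of_notMem hp]; exact zero_le_one

theorem ind_nonneg (g : ℕ → Λ → Λ → Ω → ℝ) (x y : Λ) (p : Ω) :
    0 ≤ (CV g).indicator (fun p => Nn g x y p ^ 2) p :=
  indicator_nonneg (fun _ _ => sq_nonneg _) p

theorem GramHyp.integrable_ind [Countable Λ] (h : GramHyp μ g) (x y : Λ) :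
    Integrable (fun p => (CV g).indicator (fun p => Nn g x y p ^ 2) p) μ := by
  refine Integrable.of_bound (C := 1) (((h.measurable_Nn x y).pow_const 2).indicator
    h.measurableSet_CV).aestronglyMeasurable (ae_of_all _ fun p => ?_)
  rw [Real.norm_of_nonneg (ind_nonneg g x y p)]
  exact h.ind_le x y p

theorem GramHyp.II_le_one [Countable Λ] (h : GramHyp μ g) (x y : Λ) : II μ g x y ≤ 1 := by
  calc II μ g x y ≤ ∫ _p, (1:ℝ) ∂μ := integral_mono (h.integrable_ind x y) (integrable_const _)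
        fun p => h.ind_le x y p
    _ = 1 := by simp

theorem GramHyp.II_symm (h : GramHyp μ g) (x y : Λ) : II μ g x y = II μ g y x := by
  unfold II
  have : ∀ p, Nn g x y p = Nn g y x p := by
    intro p
    have : Lm g x y p = Lm g y x p := by
      unfold Lm; congr 1; funext k; exact h.symm k x y p
    unfold Nn
    rw [this, mul_comm]
  simp_rw [this]

theorem GramHyp.II_le [Countable Λ] (h : GramHyp μ g) {x y : Λ} {ε : ℝ}
    (hε : ∀ k, ∫ p, |g k x y p| ^ (1/4 : ℝ) ∂μ ≤ ε) : II μ g x y ≤ ε := by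
  have hlim : Tendsto (fun k => ∫ p, (CV g).indicator (fun p => Nk g k x y p ^ 2) p ∂μ) atTop
      (𝓝 (II μ g x y)) := by
    unfold II
    refine tendsto_integral_of_dominated_convergence (fun _ => 1) ?_ (integrable_const _) ?_ ?_
    · intro k
      refine (Measurable.indicator ?_ h.measurableSet_CV).aestronglyMeasurable
      have h1 := h.meas k x y
      have h2 := h.meas k x x
      have h3 := h.meas k y y
      unfold Nk
      fun_prop
    · intro k
      refine ae_of_all _ fun p => ?_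
      by_cases hp : p ∈ CV g
      · rw [indicator_of_mem hp, Real.norm_of_nonneg (sq_nonneg _), ← sq_abs]
        exact pow_le_one₀ (abs_nonneg _) (h.abs_Nk_le k x y p)
      · rw [indicator_of_notMem hp]; simp
    · refine ae_of_all _ fun p => ?_
      by_cases hp : p ∈ CV g
      · simp only [indicator_of_mem hp]
        exact (h.tendsto_Nk hp x y).pow 2
      · simp only [indicator_of_notMem hp]
        exact tendsto_const_nhds
  refine le_of_tendsto' hlim fun k => ?_
  refine le_trans ?_ (hε k)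
  refine integral_mono_of_nonneg (ae_of_all _ fun p => indicator_nonneg
    (fun _ _ => sq_nonneg _) p) (h.int k x y) (ae_of_all _ fun p => ?_)
  by_cases hp : p ∈ CV g
  · simp only [indicator_of_mem hp]
    exact h.Nk_sq_le k x y p
  · simp only [indicator_of_notMem hp]
    positivity

theorem GramHyp.exists_finset [Countable Λ] [Infinite Λ] (h : GramHyp μ g) {ε : ℝ} (hε : 0 < ε)
    (N : ℕ) : ∃ X : Finset Λ, X.card = N ∧ ∀ x ∈ X, ∀ y ∈ X, x ≠ y → II μ g x y ≤ ε := by
  classical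
  induction N with
  | zero => exact ⟨∅, rfl, by simp⟩
  | succ N ih =>
    obtain ⟨X, hX, hX2⟩ := ih
    have h1 : ∀ᶠ y in cofinite, ∀ x ∈ X, ∀ k, ∫ p, |g k x y p| ^ (1/4 : ℝ) ∂μ ≤ ε :=
      (Finset.eventually_all X).mpr fun x _ => h.decay x ε hε
    have h2 : ∀ᶠ y in cofinite, y ∉ X := X.eventually_cofinite_notMem
    obtain ⟨y, hy1, hy2⟩ := (h1.and h2).exists
    refine ⟨insert y X, by rw [Finset.card_insert_of_notMem hy2, hX], ?_⟩
    intro a ha b hb hab
    rw [Finset.mem_insert] at ha hb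
    rcases ha with rfl | ha
    · rcases hb with rfl | hb
      · exact absurd rfl hab
      · rw [h.II_symm]; exact h.II_le (hy1 b hb)
    · rcases hb with rfl | hb
      · exact h.II_le (hy1 a ha)
      · exact hX2 a ha b hb hab

/-- the density of the diagonal on the set `An` -/
noncomputable def kk (μ : Measure Ω) (g : ℕ → Λ → Λ → Ω → ℝ) (n : ℕ) (x : Λ) : ℝ :=
  ∫ p, (An g n).indicator (fun p => Nn g x x p) p ∂μ

theorem GramHyp.Nn_diag_nonneg (h : GramHyp μ g) {p : Ω} (hp : p ∈ CV g) (x : Λ) :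
    0 ≤ Nn g x x p := by
  have := h.Lm_nonneg hp x
  unfold Nn; positivity

theorem GramHyp.integrable_kk [Countable Λ] (h : GramHyp μ g) (n : ℕ) (x : Λ) :
    Integrable (fun p => (An g n).indicator (fun p => Nn g x x p) p) μ := by
  refine Integrable.of_bound (C := 1) ((h.measurable_Nn x x).indicator
    (h.measurableSet_An n)).aestronglyMeasurable (ae_of_all _ fun p => ?_)
  by_cases hp : p ∈ An g n
  · rw [indicator_of_mem hp]; exact h.abs_Nn_le hp.1 x x
  · rw [indicator_of_notMem hp]; simp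

theorem GramHyp.sum_kk_le [Countable Λ] (h : GramHyp μ g) (n : ℕ) (X : Finset Λ) {a : ℝ}
    (ha : 0 < a) :
    ∑ x ∈ X, kk μ g n x ≤ a / 2 + n / (2 * a) * ∑ x ∈ X, ∑ y ∈ X, II μ g x y := by
  have h1 : ∑ x ∈ X, kk μ g n x
      = ∫ p, ∑ x ∈ X, (An g n).indicator (fun p => Nn g x x p) p ∂μ := by
    rw [integral_finsetSum _ fun x _ => h.integrable_kk n x]
    rfl
  have hint : Integrable (fun p => ∑ x ∈ X, ∑ y ∈ X,
      (CV g).indicator (fun p => Nn g x y p ^ 2) p) μ :=
    integrable_finsetSum _ fun x _ => integrable_finsetSum _ fun y _ => h.integrable_ind x y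
  have h2 : ∫ p, (a / 2 + n / (2 * a) * ∑ x ∈ X, ∑ y ∈ X,
      (CV g).indicator (fun p => Nn g x y p ^ 2) p) ∂μ
      = a / 2 + n / (2 * a) * ∑ x ∈ X, ∑ y ∈ X, II μ g x y := by
    rw [integral_add (integrable_const _) (hint.const_mul _), integral_const_mul,
      integral_finsetSum _ fun x _ => integrable_finsetSum _ fun y _ => h.integrable_ind x y]
    simp only [integral_const, probReal_univ, smul_eq_mul, one_mul]
    congr 2
    refine Finset.sum_congr rfl fun x _ => ?_
    rw [integral_finsetSum _ fun y _ => h.integrable_ind x y]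
    rfl
  rw [h1, ← h2]
  refine integral_mono (integrable_finsetSum _ fun x _ => h.integrable_kk n x)
    ((integrable_const _).add (hint.const_mul _)) fun p => ?_
  have hS : 0 ≤ ∑ x ∈ X, ∑ y ∈ X, (CV g).indicator (fun p => Nn g x y p ^ 2) p :=
    Finset.sum_nonneg fun x _ => Finset.sum_nonneg fun y _ => ind_nonneg g x y p
  by_cases hp : p ∈ An g n
  · simp only [indicator_of_mem hp, indicator_of_mem hp.1]
    have h3 := hp.2 X
    set s := ∑ x ∈ X, Nn g x x p
    set q := ∑ x ∈ X, ∑ y ∈ X, Nn g x y p ^ 2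
    have h4 : s ≤ a / 2 + s ^ 2 / (2 * a) := by
      have : 0 ≤ (s - a) ^ 2 / (2 * a) := by positivity
      have e : (s - a) ^ 2 / (2 * a) = a / 2 + s ^ 2 / (2 * a) - s := by field_simp; ring
      linarith
    have h5 : s ^ 2 / (2 * a) ≤ n / (2 * a) * q := by
      rw [div_mul_eq_mul_div]
      exact div_le_div_of_nonneg_right h3 (by positivity)
    linarith
  · simp only [indicator_of_notMem hp, Finset.sum_const_zero]
    positivity

theorem GramHyp.kk_nonpos [Countable Λ] [Infinite Λ] (h : GramHyp μ g) (n : ℕ)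
    {κ : ℝ} (hκ : ∀ x, kk μ g n x = κ) : κ ≤ 0 := by
  refine le_of_forall_pos_le_add fun δ hδ => ?_
  rw [zero_add]
  set ε := δ ^ 2 / (2 * (n + 1)) with hε
  have hεpos : 0 < ε := by positivity
  obtain ⟨N, hN⟩ := exists_nat_gt (2 * (n + 1) / δ ^ 2)
  have hNpos : (0:ℝ) < N := lt_trans (by positivity) hN
  obtain ⟨X, hX, hX2⟩ := h.exists_finset hεpos N
  have hN1 : 1 / (N : ℝ) ≤ ε := by
    rw [hε, div_le_div_iff₀ hNpos (by positivity)]
    rw [div_lt_iff₀ (by positivity)] at hN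
    linarith
  have h1 := h.sum_kk_le n X (a := δ * N) (by positivity)
  have h2 : ∑ x ∈ X, kk μ g n x = N * κ := by
    rw [Finset.sum_congr rfl fun x _ => hκ x, Finset.sum_const, hX, nsmul_eq_mul]
  have h3 : ∑ x ∈ X, ∑ y ∈ X, II μ g x y ≤ N + N * (N * ε) := by
    calc ∑ x ∈ X, ∑ y ∈ X, II μ g x y ≤ ∑ x ∈ X, (1 + N * ε) := by
          refine Finset.sum_le_sum fun x hx => ?_
          classical
          calc ∑ y ∈ X, II μ g x y ≤ ∑ y ∈ X, ((if y = x then 1 else 0) + ε) := by
                refine Finset.sum_le_sum fun y hy => ?_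
                by_cases hxy : y = x
                · rw [if_pos hxy]
                  have := h.II_le_one x y
                  linarith
                · rw [if_neg hxy, zero_add]
                  exact hX2 x hx y hy fun h' => hxy h'.symm
            _ = 1 + N * ε := by
                rw [Finset.sum_add_distrib, Finset.sum_ite_eq', if_pos hx, Finset.sum_const, hX,
                  nsmul_eq_mul]
      _ = N + N * (N * ε) := by
          rw [Finset.sum_const, hX, nsmul_eq_mul]; ring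
  rw [h2] at h1
  have h4 : (N : ℝ) * κ ≤ δ * N / 2 + n / (2 * (δ * N)) * (N + N * (N * ε)) := by
    refine h1.trans (add_le_add le_rfl (mul_le_mul_of_nonneg_left h3 (by positivity)))
  have h5 : κ ≤ δ / 2 + n / (2 * δ) * (1 / N + ε) := by
    have e : δ * N / 2 + n / (2 * (δ * N)) * (N + N * (N * ε))
        = N * (δ / 2 + n / (2 * δ) * (1 / N + ε)) := by field_simp
    rw [e] at h4
    exact le_of_mul_le_mul_left h4 hNpos
  have h6 : n / (2 * δ) * (1 / N + ε) ≤ δ / 2 := by
    calc n / (2 * δ) * (1 / N + ε) ≤ n / (2 * δ) * (ε + ε) := by gcongr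
      _ = (n / (n + 1)) * (δ / 2) := by rw [hε]; field_simp; ring
      _ ≤ 1 * (δ / 2) := by
          refine mul_le_mul_of_nonneg_right ?_ (by positivity)
          rw [div_le_one (by positivity)]; linarith
      _ = δ / 2 := one_mul _
  linarith

/-- **Abstract conclusion**: with shift invariance, the limiting matrix satisfies the trace
inequality with constant `n` only where its diagonal vanishes. -/
theorem GramHyp.conclusion [Countable Λ] [Infinite Λ] [AddGroup Λ] (h : GramHyp μ g)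
    (hconv : ∀ᵐ p ∂μ, p ∈ CV g) {T : Λ → Ω → Ω} (hT : ∀ a, MeasurePreserving (T a) μ μ)
    (hTg : ∀ a k x y p, g k x y (T a p) = g k (x + a) (y + a) p) :
    ∀ᵐ p ∂μ, ∀ n : ℕ, (∀ X : Finset Λ, (∑ x ∈ X, Nn g x x p) ^ 2
      ≤ n * ∑ x ∈ X, ∑ y ∈ X, Nn g x y p ^ 2) → ∀ x, Lm g x x p = 0 := by
  have hL : ∀ a x y p, Lm g x y (T a p) = Lm g (x + a) (y + a) p := by
    intro a x y p; unfold Lm; simp_rw [hTg]
  have hN : ∀ a x y p, Nn g x y (T a p) = Nn g (x + a) (y + a) p := by
    intro a x y p; unfold Nn; simp_rw [hL]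
  have hCV : ∀ a p, T a p ∈ CV g ↔ p ∈ CV g := by
    intro a p
    constructor
    · intro hp x y
      obtain ⟨l, hl⟩ := hp (x - a) (y - a)
      refine ⟨l, ?_⟩
      simp_rw [hTg, sub_add_cancel] at hl
      exact hl
    · intro hp x y
      simp_rw [hTg]
      exact hp _ _
  have hAn : ∀ n a p, T a p ∈ An g n ↔ p ∈ An g n := by
    intro n a p
    have hsum1 : ∀ X : Finset Λ, ∑ x ∈ X, Nn g x x (T a p)
        = ∑ x ∈ X.map (Equiv.addRight a).toEmbedding, Nn g x x p := by
      intro X; rw [Finset.sum_map]; simp_rw [hN]; rfl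
    have hsum2 : ∀ X : Finset Λ, ∑ x ∈ X, ∑ y ∈ X, Nn g x y (T a p) ^ 2
        = ∑ x ∈ X.map (Equiv.addRight a).toEmbedding,
          ∑ y ∈ X.map (Equiv.addRight a).toEmbedding, Nn g x y p ^ 2 := by
      intro X; rw [Finset.sum_map]; simp_rw [Finset.sum_map, hN]; rfl
    constructor
    · rintro ⟨h1, h2⟩
      refine ⟨(hCV a p).mp h1, fun X => ?_⟩
      have h3 := h2 (X.map (Equiv.addRight (-a)).toEmbedding)
      rw [hsum1, hsum2, Finset.map_map] at h3
      have e : X.map ((Equiv.addRight (-a)).toEmbedding.trans (Equiv.addRight a).toEmbedding)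
          = X := by
        ext x
        simp
      rw [e] at h3
      exact h3
    · rintro ⟨h1, h2⟩
      refine ⟨(hCV a p).mpr h1, fun X => ?_⟩
      rw [hsum1, hsum2]
      exact h2 _
  have hkk : ∀ n x, kk μ g n x = kk μ g n 0 := by
    intro n x
    have hm : Measurable (fun p => (An g n).indicator (fun p => Nn g 0 0 p) p) :=
      (h.measurable_Nn 0 0).indicator (h.measurableSet_An n)
    have h1 := integral_map (μ := μ) (hT x).measurable.aemeasurable
      (f := fun p => (An g n).indicator (fun p => Nn g 0 0 p) p) hm.aestronglyMeasurable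
    rw [(hT x).map_eq] at h1
    have h2 : ∀ p, (An g n).indicator (fun p => Nn g 0 0 p) (T x p)
        = (An g n).indicator (fun p => Nn g x x p) p := by
      intro p
      by_cases hp : p ∈ An g n
      · rw [indicator_of_mem hp, indicator_of_mem ((hAn n x p).mpr hp), hN, zero_add]
      · rw [indicator_of_notMem hp, indicator_of_notMem (fun h' => hp ((hAn n x p).mp h'))]
    simp_rw [h2] at h1
    exact h1.symm
  have hzero : ∀ n x, ∀ᵐ p ∂μ, (An g n).indicator (fun p => Nn g x x p) p = 0 := by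
    intro n x
    have h1 := h.kk_nonpos n (hkk n)
    have h2 : kk μ g n x ≤ 0 := by rw [hkk]; exact h1
    have h3 : 0 ≤ fun p => (An g n).indicator (fun p => Nn g x x p) p := by
      intro p
      by_cases hp : p ∈ An g n
      · simp only [indicator_of_mem hp]; exact h.Nn_diag_nonneg hp.1 x
      · simp only [indicator_of_notMem hp]; exact le_rfl
    have h4 : ∫ p, (An g n).indicator (fun p => Nn g x x p) p ∂μ = 0 :=
      le_antisymm h2 (integral_nonneg h3)
    exact (integral_eq_zero_iff_of_nonneg h3 (h.integrable_kk n x)).mp h4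
  have hzero' : ∀ᵐ p ∂μ, ∀ n x, (An g n).indicator (fun p => Nn g x x p) p = 0 :=
    ae_all_iff.mpr fun n => ae_all_iff.mpr fun x => hzero n x
  filter_upwards [hconv, hzero'] with p hp1 hp2 n hX x
  have h1 := hp2 n x
  have hmem : p ∈ An g n := ⟨hp1, hX⟩
  rw [indicator_of_mem hmem] at h1
  have h2 := h.Lm_nonneg hp1 x
  unfold Nn at h1
  rw [div_eq_zero_iff] at h1
  rcases h1 with h1 | h1
  · exact h1
  · exfalso
    have : 0 < √(1 + Lm g x x p) := by positivity
    nlinarith

end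

end Pool.Agent.Lib.MP_562b47_mp
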