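import Mathlib

/-!
Cauchy in measure implies almost everywhere convergence of a subsequence, for countable families.
(Anderson model, MP_562b47_mp.)
-/

open MeasureTheory Set Filter Topology
open scoped Real ENNReal NNReal

namespace Pool.Agent.Lib.MP_562b47_mp

theorem ae_summable_of_summable_integral {Ω : Type*} [MeasurableSpace Ω] {μ : Measure Ω}
    {h : ℕ → Ω → ℝ} (hi : ∀ m, Integrable (h m) μ) (h0 : ∀ m w, 0 ≤ h m w)
    (hs : Summable fun m => ∫ w, h m w ∂μ) : ∀ᵐ w ∂μ, Summable fun m => h m w := by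
  have h1 : ∫⁻ w, ∑' m, ENNReal.ofReal (h m w) ∂μ ≠ ⊤ := by
    rw [lintegral_tsum fun m => (hi m).1.aemeasurable.ennreal_ofReal]
    have : ∀ m, ∫⁻ w, ENNReal.ofReal (h m w) ∂μ = ENNReal.ofReal (∫ w, h m w ∂μ) := fun m =>
      (ofReal_integral_eq_lintegral_ofReal (hi m) (ae_of_all _ (h0 m))).symm
    simp_rw [this]
    rw [← ENNReal.ofReal_tsum_of_nonneg (fun m => integral_nonneg (h0 m)) hs]
    exact ENNReal.ofReal_ne_top
  have h2 : AEMeasurable (fun w => ∑' m, ENNReal.ofReal (h m w)) μ :=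
    AEMeasurable.ennreal_tsum fun m => (hi m).1.aemeasurable.ennreal_ofReal
  filter_upwards [ae_lt_top' h2 h1] with w hw
  have h3 := ENNReal.summable_toReal hw.ne
  refine h3.congr fun m => ?_
  rw [ENNReal.toReal_ofReal (h0 m w)]

theorem exists_tendsto_of_summable_min {u : ℕ → ℝ}
    (hs : Summable fun m => min 1 |u m - u (m + 1)|) : ∃ l, Tendsto u atTop (𝓝 l) := by
  have h0 := hs.tendsto_atTop_zero
  have h1 : ∀ᶠ m in atTop, min 1 |u m - u (m + 1)| < 1 := h0.eventually (gt_mem_nhds zero_lt_one)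
  have h2 : Summable fun m => dist (u m) (u m.succ) := by
    refine Summable.of_norm_bounded_eventually_nat hs ?_
    filter_upwards [h1] with m hm
    rw [Real.dist_eq, Real.norm_eq_abs, abs_abs]
    rcases min_lt_iff.mp hm with h | h
    · exact absurd h (lt_irrefl _)
    · rw [min_eq_right h.le]
  exact cauchySeq_tendsto_of_complete (cauchySeq_of_summable_dist h2)

theorem exists_subseq {Ω : Type*} [MeasurableSpace Ω] {μ : Measure Ω} [IsProbabilityMeasure μ]
    {ι : Type*} [Countable ι] {f : ι → ℕ → Ω → ℝ} (hf : ∀ i k, Measurable (f i k))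
    (hC : ∀ i, Tendsto (fun p : ℕ × ℕ => ∫ w, min 1 |f i p.1 w - f i p.2 w| ∂μ) atTop (𝓝 0)) :
    ∃ φ : ℕ → ℕ, StrictMono φ ∧ ∀ᵐ w ∂μ, ∀ i, ∃ l, Tendsto (fun k => f i (φ k) w) atTop (𝓝 l) := by
  classical
  rcases isEmpty_or_nonempty ι with hι | hι
  · exact ⟨id, strictMono_id, ae_of_all _ fun w i => (hι.false i).elim⟩
  obtain ⟨g, hg⟩ := exists_surjective_nat ι
  set δ : ℕ → ℕ × ℕ → ℝ := fun n p => ∫ w, min 1 |f (g n) p.1 w - f (g n) p.2 w| ∂μ with hδ
  have hmeas : ∀ n a b, Measurable (fun w => min 1 |f (g n) a w - f (g n) b w|) := fun n a b =>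
    measurable_const.min ((hf _ _).sub (hf _ _)).abs
  have hint : ∀ n a b, Integrable (fun w => min 1 |f (g n) a w - f (g n) b w|) μ := fun n a b =>
    Integrable.of_bound (C := 1) (hmeas n a b).aestronglyMeasurable (ae_of_all _ fun w => by
      rw [Real.norm_of_nonneg (le_min zero_le_one (abs_nonneg _))]
      exact min_le_left _ _)
  have hδ0 : ∀ n p, 0 ≤ δ n p := fun n p => integral_nonneg fun w =>
    le_min zero_le_one (abs_nonneg _)
  have hδ1 : ∀ n p, δ n p ≤ 1 := by
    intro n p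
    calc δ n p ≤ ∫ _w, (1:ℝ) ∂μ := integral_mono (hint n p.1 p.2) (integrable_const _)
          fun w => min_le_left _ _
      _ = 1 := by simp
  have hgeo : Summable fun n : ℕ => (1/2 : ℝ) ^ n := summable_geometric_of_lt_one (by norm_num)
    (by norm_num)
  have hS : Tendsto (fun p : ℕ × ℕ => ∑' n, (1/2 : ℝ) ^ n * δ n p) atTop (𝓝 0) := by
    have := tendsto_tsum_of_dominated_convergence (𝓕 := (atTop : Filter (ℕ × ℕ)))
      (f := fun p n => (1/2 : ℝ) ^ n * δ n p) (g := fun _ => 0) (bound := fun n => (1/2 : ℝ) ^ n)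
      hgeo (fun n => by simpa using (hC (g n)).const_mul ((1/2 : ℝ) ^ n))
      (Eventually.of_forall fun p n => by
        have := hδ0 n p
        rw [Real.norm_of_nonneg (by positivity)]
        exact mul_le_of_le_one_right (by positivity) (hδ1 n p))
    simpa using this
  have hex : ∀ m : ℕ, ∃ N, ∀ k ≥ N, ∀ b ≥ k, ∑' n, (1/2 : ℝ) ^ n * δ n (k, b) ≤ (1/4) ^ m := by
    intro m
    have h1 : ∀ᶠ p : ℕ × ℕ in atTop, ∑' n, (1/2 : ℝ) ^ n * δ n p < (1/4) ^ m :=
      hS.eventually (gt_mem_nhds (by positivity))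
    obtain ⟨⟨a, b⟩, hab⟩ := eventually_atTop.mp h1
    refine ⟨max a b, fun k hk b' hb' => (hab (k, b') ⟨?_, ?_⟩).le⟩
    · exact (le_max_left _ _).trans hk
    · exact ((le_max_right _ _).trans hk).trans hb'
  obtain ⟨φ, hφ, hφ2⟩ := extraction_forall_of_eventually' hex
  refine ⟨φ, hφ, ?_⟩
  have hmain : ∀ n, ∀ᵐ w ∂μ, ∃ l, Tendsto (fun k => f (g n) (φ k) w) atTop (𝓝 l) := by
    intro n
    have hb : ∀ m, δ n (φ m, φ (m + 1)) ≤ 2 ^ n * (1/4) ^ m := by
      intro m
      have h1 := hφ2 m (φ (m + 1)) (hφ.monotone (Nat.le_succ m))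
      have hsum : Summable fun n => (1/2 : ℝ) ^ n * δ n (φ m, φ (m + 1)) :=
        Summable.of_nonneg_of_le (fun n => mul_nonneg (by positivity) (hδ0 _ _))
          (fun n => mul_le_of_le_one_right (by positivity) (hδ1 _ _)) hgeo
      have h2 : (1/2 : ℝ) ^ n * δ n (φ m, φ (m + 1)) ≤ (1/4) ^ m :=
        (hsum.le_tsum n (fun j _ => mul_nonneg (by positivity) (hδ0 _ _))).trans h1
      have h3 : δ n (φ m, φ (m + 1)) = 2 ^ n * ((1/2 : ℝ) ^ n * δ n (φ m, φ (m + 1))) := by
        rw [← mul_assoc, ← mul_pow]; norm_num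
      rw [h3]
      exact mul_le_mul_of_nonneg_left h2 (by positivity)
    have hsum2 : Summable fun m => ∫ w, min 1 |f (g n) (φ m) w - f (g n) (φ (m + 1)) w| ∂μ := by
      refine Summable.of_nonneg_of_le (fun m => hδ0 n (φ m, φ (m + 1))) hb ?_
      exact (summable_geometric_of_lt_one (by norm_num) (by norm_num)).mul_left _
    filter_upwards [ae_summable_of_summable_integral (fun m => hint n (φ m) (φ (m + 1)))
      (fun m w => le_min zero_le_one (abs_nonneg _)) hsum2] with w hw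
    exact exists_tendsto_of_summable_min (u := fun k => f (g n) (φ k) w) hw
  have := ae_all_iff.mpr hmain
  filter_upwards [this] with w hw i
  obtain ⟨n, rfl⟩ := hg i
  exact hw n

end Pool.Agent.Lib.MP_562b47_mp
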