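import Mathlib
import Pool.Agent.Lib.MP_562b47_mp.Decay3
import Pool.Agent.Lib.MP_562b47_mp.Gram
import Pool.Agent.Lib.MP_562b47_mp.Subseq

/-!
Boundary values of the Green function: almost sure limits along a sequence and the absence of
finite rank.  (Anderson model, MP_562b47_mp.)
-/

open MeasureTheory Set Filter Topology Complex
open scoped Real ENNReal NNReal InnerProductSpace

set_option linter.unusedSectionVars false

namespace Pool.Agent.Lib.MP_562b47_mp

variable {Λ : Type*} [DecidableEq Λ] {E : Type*} [NormedAddCommGroup E] [InnerProductSpace ℂ E]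
  [CompleteSpace E] {c : ℝ} {e : Λ → E} {H : (Λ → ℝ) → (E →L[ℂ] E)}

/-- `Im G(x,y) = Im z ⟨R e_x, R e_y⟩` -/
theorem Model.im_Gr_eq (M : Model c e H) (ω : Λ → ℝ) {z : ℂ} (hz : 0 < z.im) (x y : Λ) :
    (((Gr e H ω z x y).im : ℝ) : ℂ) = (z.im : ℂ) * ⟪Rv (H ω) z (e x), Rv (H ω) z (e y)⟫_ℂ := by
  have h1 := inner_Rv_sub (M.sa ω) hz.ne' (e x) (e y)
  have h2 : ⟪Rv (H ω) z (e x), e y⟫_ℂ = (starRingEnd ℂ) (Gr e H ω z x y) := by
    rw [M.Gr_symm ω hz x y]
    unfold Gr
    exact (inner_conj_symm _ _).symm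
  rw [h2] at h1
  change Gr e H ω z x y - (starRingEnd ℂ) (Gr e H ω z x y) = _ at h1
  rw [Complex.sub_conj, Complex.sub_conj] at h1
  have h3 : (2 * I : ℂ) ≠ 0 := by simp
  apply mul_left_cancel₀ h3
  have e1 : (2 * I : ℂ) * ((Gr e H ω z x y).im : ℂ) = ((2 * (Gr e H ω z x y).im : ℝ) : ℂ) * I := by
    push_cast; ring
  rw [e1, h1]
  push_cast
  ring

theorem Model.im_Gr_sq_le (M : Model c e H) (ω : Λ → ℝ) {z : ℂ} (hz : 0 < z.im) (x y : Λ) :
    (Gr e H ω z x y).im ^ 2 ≤ (Gr e H ω z x x).im * (Gr e H ω z y y).im := by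
  have h1 := M.im_Gr_eq ω hz x y
  have h2 : ∀ x, (Gr e H ω z x x).im = z.im * ‖Rv (H ω) z (e x)‖ ^ 2 := fun x =>
    im_inner_Rv (M.sa ω) hz.ne' (e x)
  have h3 : |(Gr e H ω z x y).im| ≤ z.im * (‖Rv (H ω) z (e x)‖ * ‖Rv (H ω) z (e y)‖) := by
    rw [← Real.norm_eq_abs, ← Complex.norm_real, h1, norm_mul, Complex.norm_real,
      Real.norm_of_nonneg hz.le]
    exact mul_le_mul_of_nonneg_left (norm_inner_le_norm _ _) hz.le
  rw [h2 x, h2 y, ← sq_abs]
  calc |(Gr e H ω z x y).im| ^ 2 ≤ (z.im * (‖Rv (H ω) z (e x)‖ * ‖Rv (H ω) z (e y)‖)) ^ 2 :=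
        pow_le_pow_left₀ (abs_nonneg _) h3 2
    _ = _ := by ring

/-- the quadratic form of the imaginary part of the resolvent -/
noncomputable def AU (H : E →L[ℂ] E) (u : E) (t s : ℝ) : ℝ := (⟪u, Rv H (Zt t s) u⟫_ℂ).im

theorem Model.AU_add (M : Model c e H) (ω : Λ → ℝ) {t : ℝ} (ht : 0 < t) (s : ℝ) (x y : Λ) :
    AU (H ω) (e x + e y) t s = (Gr e H ω (Zt t s) x x).im + (Gr e H ω (Zt t s) y y).im
      + 2 * (Gr e H ω (Zt t s) x y).im := by
  have h := M.Gr_symm ω (Zt_im_pos ht s) x y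
  unfold Gr at h
  unfold AU Gr
  rw [map_add, inner_add_left, inner_add_right, inner_add_right, ← h]
  simp only [Complex.add_im]
  ring

variable [Countable Λ]

/-- the convergence in measure of the quadratic forms, for every realisation -/
def HasDens (H : (Λ → ℝ) → (E →L[ℂ] E)) : Prop :=
  ∀ ω u, ∃ D : ℝ → ℝ, Measurable D ∧
    Tendsto (fun t => ∫ s, min 1 |AU (H ω) u t s - D s| ∂kap) (𝓝[>] 0) (𝓝 0)

/-- the reference sequence -/
noncomputable def tk (k : ℕ) : ℝ := 1 / ((k : ℝ) + 2)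

theorem tk_pos (k : ℕ) : 0 < tk k := by unfold tk; positivity

theorem tk_le (k : ℕ) : tk k ≤ 1 := by
  unfold tk; rw [div_le_one (by positivity)]
  have : (0:ℝ) ≤ k := Nat.cast_nonneg k
  linarith

theorem tendsto_tk : Tendsto tk atTop (𝓝[>] 0) := by
  rw [tendsto_nhdsWithin_iff]
  refine ⟨?_, Eventually.of_forall tk_pos⟩
  unfold tk
  exact tendsto_const_nhds.div_atTop (tendsto_atTop_add_const_right _ _
    tendsto_natCast_atTop_atTop)

theorem Model.continuous_AU (M : Model c e H) (u : E) {t : ℝ} (ht : 0 < t) :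
    Continuous (fun p : (Λ → ℝ) × ℝ => AU (H p.1) u t p.2) := by
  unfold AU
  exact Complex.continuous_im.comp (continuous_const.inner (M.continuous_Rv continuous_fst
    (continuous_Zt.comp continuous_snd) (fun p => Zt_im_pos ht _) u))

/-- the quadratic forms are Cauchy in measure -/
theorem Model.cauchy (M : Model c e H) (hD : HasDens H) (u : E) :
    Tendsto (fun p : ℕ × ℕ => ∫ w : (Λ → ℝ) × ℝ, min 1 |AU (H w.1) u (tk p.1) w.2
      - AU (H w.1) u (tk p.2) w.2| ∂((PP Λ c).prod kap)) atTop (𝓝 0) := by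
  have := PP_prob Λ M.hc
  have hcont : ∀ a b : ℕ, Continuous (fun w : (Λ → ℝ) × ℝ => min 1 |AU (H w.1) u (tk a) w.2
      - AU (H w.1) u (tk b) w.2|) := fun a b =>
    continuous_const.min ((M.continuous_AU u (tk_pos a)).sub (M.continuous_AU u (tk_pos b))).abs
  have hint : ∀ a b : ℕ, Integrable (fun w : (Λ → ℝ) × ℝ => min 1 |AU (H w.1) u (tk a) w.2
      - AU (H w.1) u (tk b) w.2|) ((PP Λ c).prod kap) := fun a b =>
    Integrable.of_bound (C := 1) (hcont a b).aestronglyMeasurable (ae_of_all _ fun w => by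
      rw [Real.norm_of_nonneg (le_min zero_le_one (abs_nonneg _))]
      exact min_le_left _ _)
  have e1 : ∀ p : ℕ × ℕ, ∫ w : (Λ → ℝ) × ℝ, min 1 |AU (H w.1) u (tk p.1) w.2
      - AU (H w.1) u (tk p.2) w.2| ∂((PP Λ c).prod kap)
      = ∫ ω, (∫ s, min 1 |AU (H ω) u (tk p.1) s - AU (H ω) u (tk p.2) s| ∂kap) ∂(PP Λ c) :=
    fun p => integral_prod _ (hint p.1 p.2)
  simp_rw [e1]
  have hlim : Tendsto (fun p : ℕ × ℕ => ∫ ω, (∫ s, min 1 |AU (H ω) u (tk p.1) s
      - AU (H ω) u (tk p.2) s| ∂kap) ∂(PP Λ c)) atTop (𝓝 (∫ _ω, (0:ℝ) ∂(PP Λ c))) := by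
    refine tendsto_integral_filter_of_dominated_convergence (fun _ => 1) ?_ ?_
      (integrable_const _) ?_
    · refine Eventually.of_forall fun p => ?_
      exact (hint p.1 p.2).integral_prod_left.aestronglyMeasurable
    · refine Eventually.of_forall fun p => ae_of_all _ fun ω => ?_
      rw [Real.norm_of_nonneg (integral_nonneg fun s => le_min zero_le_one (abs_nonneg _))]
      calc ∫ s, min 1 |AU (H ω) u (tk p.1) s - AU (H ω) u (tk p.2) s| ∂kap ≤ ∫ _s, (1:ℝ) ∂kap :=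
            integral_mono_of_nonneg (ae_of_all _ fun s => le_min zero_le_one (abs_nonneg _))
              (integrable_const _) (ae_of_all _ fun s => min_le_left _ _)
        _ = 1 := by simp
    · refine ae_of_all _ fun ω => ?_
      obtain ⟨D, hDm, hDt⟩ := hD ω u
      have h1 : Tendsto (fun k : ℕ => ∫ s, min 1 |AU (H ω) u (tk k) s - D s| ∂kap) atTop (𝓝 0) :=
        hDt.comp tendsto_tk
      have h2 : Tendsto (fun p : ℕ × ℕ => (∫ s, min 1 |AU (H ω) u (tk p.1) s - D s| ∂kap)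
          + ∫ s, min 1 |AU (H ω) u (tk p.2) s - D s| ∂kap) atTop (𝓝 (0 + 0)) := by
        rw [← prod_atTop_atTop_eq]
        exact (h1.comp tendsto_fst).add (h1.comp tendsto_snd)
      rw [add_zero] at h2
      have hAm : ∀ k : ℕ, Measurable (fun s => AU (H ω) u (tk k) s) := fun k =>
        ((M.continuous_AU u (tk_pos k)).comp (continuous_const.prodMk continuous_id)).measurable
      have hi : ∀ k : ℕ, Integrable (fun s => min 1 |AU (H ω) u (tk k) s - D s|) kap := fun k =>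
        Integrable.of_bound (C := 1) (measurable_const.min ((hAm k).sub
          hDm).abs).aestronglyMeasurable (ae_of_all _ fun w => by
          rw [Real.norm_of_nonneg (le_min zero_le_one (abs_nonneg _))]
          exact min_le_left _ _)
      refine tendsto_of_tendsto_of_tendsto_of_le_of_le tendsto_const_nhds h2
        (fun p => integral_nonneg fun s => le_min zero_le_one (abs_nonneg _)) fun p => ?_
      rw [← integral_add (hi p.1) (hi p.2)]
      refine integral_mono_of_nonneg (ae_of_all _ fun s => le_min zero_le_one (abs_nonneg _))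
        ((hi p.1).add (hi p.2)) (ae_of_all _ fun s => ?_)
      have h3 : |AU (H ω) u (tk p.1) s - AU (H ω) u (tk p.2) s|
          ≤ |AU (H ω) u (tk p.1) s - D s| + |AU (H ω) u (tk p.2) s - D s| := by
        have := abs_sub_le (AU (H ω) u (tk p.1) s) (D s) (AU (H ω) u (tk p.2) s)
        rw [abs_sub_comm (D s)] at this
        exact this
      exact (min_le_min_left 1 h3).trans (min_one_add_le' (abs_nonneg _) (abs_nonneg _))
  simpa using hlim

/-- imaginary parts of the Green function along the sequence `tk (φ k)` -/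
noncomputable def gI (e : Λ → E) (H : (Λ → ℝ) → (E →L[ℂ] E)) (φ : ℕ → ℕ) (k : ℕ) (x y : Λ)
    (p : (Λ → ℝ) × ℝ) : ℝ := (Gr e H p.1 (Zt (tk (φ k)) p.2) x y).im

theorem Model.gramHyp (M : Model c e H) (φ : ℕ → ℕ) :
    GramHyp ((PP Λ c).prod kap) (gI e H φ) where
  meas k x y := (Complex.continuous_im.comp (M.continuous_Gr continuous_fst
      (continuous_Zt.comp continuous_snd) (fun p => Zt_im_pos (tk_pos _) _) x y)).measurable
  pos k x p := (M.im_Gr_pos p.1 (Zt_im_pos (tk_pos _) _) x).le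
  cs k x y p := M.im_Gr_sq_le p.1 (Zt_im_pos (tk_pos _) _) x y
  symm k x y p := by
    unfold gI; rw [M.Gr_symm p.1 (Zt_im_pos (tk_pos _) _) x y]
  int k x y := by
    refine (M.integrable_Gr_quarter x y (tk_pos (φ k)) (tk_le (φ k))).mono' ?_
      (ae_of_all _ fun p => ?_)
    · refine Measurable.aestronglyMeasurable ?_
      have h1 : Measurable (gI e H φ k x y) := (Complex.continuous_im.comp (M.continuous_Gr
        continuous_fst (continuous_Zt.comp continuous_snd)
        (fun p => Zt_im_pos (tk_pos _) _) x y)).measurable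
      fun_prop
    · rw [Real.norm_of_nonneg (by positivity)]
      exact Real.rpow_le_rpow (abs_nonneg _) (Complex.abs_im_le_norm _) (by norm_num)
  decay x ε hε := by
    filter_upwards [M.decay x hε] with y hy k
    refine le_trans ?_ (hy (tk (φ k)) (tk_pos _) (tk_le _))
    refine integral_mono_of_nonneg (ae_of_all _ fun p => by positivity)
      (M.integrable_Gr_quarter x y (tk_pos (φ k)) (tk_le (φ k))) (ae_of_all _ fun p => ?_)
    exact Real.rpow_le_rpow (abs_nonneg _) (Complex.abs_im_le_norm _) (by norm_num)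

theorem Model.exists_phi (M : Model c e H) (hD : HasDens H) :
    ∃ φ : ℕ → ℕ, StrictMono φ ∧ ∀ᵐ p ∂((PP Λ c).prod kap), p ∈ CV (gI e H φ) := by
  have := PP_prob Λ M.hc
  obtain ⟨φ, hφ, h⟩ := exists_subseq (μ := (PP Λ c).prod kap) (ι := Λ × Λ)
    (f := fun i k w => AU (H w.1) (e i.1 + e i.2) (tk k) w.2)
    (fun i k => (M.continuous_AU _ (tk_pos k)).measurable) (fun i => M.cauchy hD _)
  refine ⟨φ, hφ, ?_⟩
  filter_upwards [h] with p hp x y
  obtain ⟨l1, h1⟩ := hp (x, y)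
  obtain ⟨l2, h2⟩ := hp (x, x)
  obtain ⟨l3, h3⟩ := hp (y, y)
  simp only at h1 h2 h3
  simp_rw [M.AU_add p.1 (tk_pos _) p.2] at h1 h2 h3
  refine ⟨(l1 - l2 / 4 - l3 / 4) / 2, ?_⟩
  have h4 := ((h1.sub (h2.div_const 4)).sub (h3.div_const 4)).div_const 2
  refine h4.congr fun k => ?_
  unfold gI
  ring

/-- covariance of the Green function under shifts of the potential -/
def ShiftCov [AddGroup Λ] (e : Λ → E) (H : (Λ → ℝ) → (E →L[ℂ] E)) : Prop :=
  ∀ (a : Λ) (ω : Λ → ℝ) (z : ℂ) (x y : Λ), 0 < z.im →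
    Gr e H (fun j => ω (j + a)) z x y = Gr e H ω z (x + a) (y + a)

/-- **Almost sure boundary values and absence of finite rank.** -/
theorem Model.final_prob [AddGroup Λ] [Infinite Λ] (M : Model c e H) (hD : HasDens H)
    (hcov : ShiftCov e H) :
    ∃ φ : ℕ → ℕ, StrictMono φ ∧ ∀ᵐ ω ∂(PP Λ c), ∀ᵐ s ∂kap,
      (ω, s) ∈ CV (gI e H φ) ∧ ∀ n : ℕ,
        (∀ X : Finset Λ, (∑ x ∈ X, Nn (gI e H φ) x x (ω, s)) ^ 2
          ≤ n * ∑ x ∈ X, ∑ y ∈ X, Nn (gI e H φ) x y (ω, s) ^ 2) →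
        ∀ x, Lm (gI e H φ) x x (ω, s) = 0 := by
  have := PP_prob Λ M.hc
  have := unif_prob M.hc
  obtain ⟨φ, hφ, h⟩ := M.exists_phi hD
  refine ⟨φ, hφ, ?_⟩
  set T : Λ → ((Λ → ℝ) × ℝ) → ((Λ → ℝ) × ℝ) :=
    fun a => Prod.map (fun ω => fun j => ω (j + a)) id with hTdef
  have hT : ∀ a, MeasurePreserving (T a) ((PP Λ c).prod kap) ((PP Λ c).prod kap) := fun a =>
    (measurePreserving_shift (Λ := Λ) (unif c) a).prod (MeasurePreserving.id kap)
  have hTg : ∀ a k x y p, gI e H φ k x y (T a p) = gI e H φ k (x + a) (y + a) p := by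
    intro a k x y p
    unfold gI
    rw [hTdef]
    simp only [Prod.map_fst, Prod.map_snd, id]
    rw [hcov a p.1 _ x y (Zt_im_pos (tk_pos _) _)]
  have h2 := (M.gramHyp φ).conclusion h hT hTg
  have h3 := Measure.ae_ae_of_ae_prod (h.and h2)
  exact h3

end Pool.Agent.Lib.MP_562b47_mp
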