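import Mathlib
import Pool.Agent.Lib.MP_562b47_mp.Limit
import Pool.Agent.Lib.MP_562b47_mp.Concrete

/-!
Covariant random operators and the unitary group.  (Anderson model, MP_562b47_mp.)
-/

open MeasureTheory Set Filter Topology Complex
open scoped Real ENNReal NNReal InnerProductSpace

set_option linter.unusedSectionVars false

namespace Pool.Agent.Lib.MP_562b47_mp

variable {Λ : Type*} [DecidableEq Λ] [AddCommGroup Λ] [Countable Λ] {E : Type*}
  [NormedAddCommGroup E] [InnerProductSpace ℂ E] [CompleteSpace E] {c : ℝ} {e : Λ → E}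
  {H : (Λ → ℝ) → (E →L[ℂ] E)}

/-- `V a` is the translation by `-a` -/
structure Trans (e : Λ → E) (V : Λ → (E ≃ₗᵢ[ℂ] E)) : Prop where
  apply : ∀ a x, V a (e (x + a)) = e x

/-- uniformly bounded, strongly continuous, covariant families of operators -/
structure CovOp (V : Λ → (E ≃ₗᵢ[ℂ] E)) (A : (Λ → ℝ) → (E →L[ℂ] E)) : Prop where
  bdd : ∃ K, ∀ ω, ‖A ω‖ ≤ K
  cont : ∀ u, Continuous fun ω => A ω u
  cov : ∀ a ω u, V a (A ω u) = A (fun j => ω (j + a)) (V a u)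

/-- `e^{-itH}` -/
noncomputable def Ut (H : (Λ → ℝ) → (E →L[ℂ] E)) (ω : Λ → ℝ) (t : ℝ) : E →L[ℂ] E :=
  NormedSpace.exp ((-(t : ℂ) * I) • H ω)

/-- `e^{itH} J e^{-itH}` -/
noncomputable def Js (H : (Λ → ℝ) → (E →L[ℂ] E)) (J : E →L[ℂ] E) (ω : Λ → ℝ) (t : ℝ) :
    E →L[ℂ] E := Ut H ω (-t) * J * Ut H ω t

/-- approximation in mean square of the column of `B` at `0` by functions of finitely many
coordinates -/
def LocApprox (c : ℝ) (e : Λ → E) (B : (Λ → ℝ) → (E →L[ℂ] E)) : Prop :=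
  ∀ ε : ℝ, 0 < ε → ∃ (F J : Finset Λ) (β : Λ → (Λ → ℝ) → ℂ) (C : ℝ),
    (∀ k, Measurable (β k)) ∧ (∀ k ω, ‖β k ω‖ ≤ C) ∧ (∀ k, k ∉ F → ∀ ω, β k ω = 0) ∧
    (∀ k ω ω', (∀ j ∈ J, ω j = ω' j) → β k ω = β k ω') ∧
    ∫⁻ ω, ∑' k, ‖⟪e k, B ω (e 0)⟫_ℂ - β k ω‖ₑ ^ 2 ∂(PP Λ c) ≤ ENNReal.ofReal ε

/-! ### The exponential series -/

section expseries

theorem cov_hasSum_exp (X : E →L[ℂ] E) (u : E) :
    HasSum (fun n : ℕ => ((n.factorial : ℂ))⁻¹ • (X ^ n) u) (NormedSpace.exp X u) := by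
  have h := NormedSpace.exp_series_hasSum_exp' (𝕂 := ℂ) X
  exact h.mapL (ContinuousLinearMap.apply ℂ E u)

theorem cov_norm_pow_apply_le (X : E →L[ℂ] E) {K : ℝ} (hK : ‖X‖ ≤ K) (n : ℕ) (u : E) :
    ‖(X ^ n) u‖ ≤ K ^ n * ‖u‖ := by
  induction n with
  | zero => simp
  | succ n ih =>
    rw [pow_succ', pow_succ']
    change ‖X ((X ^ n) u)‖ ≤ _
    calc ‖X ((X ^ n) u)‖ ≤ ‖X‖ * ‖(X ^ n) u‖ := X.le_opNorm _
      _ ≤ K * (K ^ n * ‖u‖) := mul_le_mul hK ih (norm_nonneg _) ((norm_nonneg _).trans hK)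
      _ = K * K ^ n * ‖u‖ := by ring

theorem cov_norm_exp_apply_le (X : E →L[ℂ] E) {K : ℝ} (hK : ‖X‖ ≤ K) (u : E) :
    ‖NormedSpace.exp X u‖ ≤ Real.exp K * ‖u‖ := by
  have h1 : HasSum (fun n : ℕ => K ^ n / (n.factorial : ℝ) * ‖u‖) (Real.exp K * ‖u‖) := by
    have h2 : HasSum (fun n : ℕ => K ^ n / (n.factorial : ℝ)) (Real.exp K) := by
      rw [Real.exp_eq_exp_ℝ]
      have := NormedSpace.exp_series_hasSum_exp' (𝕂 := ℝ) K
      refine this.congr_fun fun n => ?_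
      rw [smul_eq_mul, div_eq_inv_mul]
    exact h2.mul_right _
  refine (cov_hasSum_exp X u).norm_le_of_bounded h1 fun n => ?_
  rw [norm_smul, norm_inv, Complex.norm_natCast]
  calc ((n.factorial : ℝ))⁻¹ * ‖(X ^ n) u‖ ≤ ((n.factorial : ℝ))⁻¹ * (K ^ n * ‖u‖) :=
        mul_le_mul_of_nonneg_left (cov_norm_pow_apply_le X hK n u) (by positivity)
    _ = K ^ n / (n.factorial : ℝ) * ‖u‖ := by rw [div_eq_inv_mul]; ring

end expseries

/-! ### Basic properties of covariant operators -/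

section covop

variable {V : Λ → (E ≃ₗᵢ[ℂ] E)} {A B : (Λ → ℝ) → (E →L[ℂ] E)}

/-- joint continuity -/
theorem CovOp.continuous_apply (hA : CovOp V A) {P : Type*} [TopologicalSpace P]
    {f : P → Λ → ℝ} (hf : Continuous f) {h : P → E} (hh : Continuous h) :
    Continuous fun p => A (f p) (h p) := by
  obtain ⟨K, hK⟩ := hA.bdd
  rw [continuous_iff_continuousAt]
  intro p0
  rw [ContinuousAt, tendsto_iff_norm_sub_tendsto_zero]
  have hc2 : Continuous fun p => A (f p) (h p0) := (hA.cont (h p0)).comp hf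
  have hlim : Tendsto (fun p => K * ‖h p - h p0‖ + ‖A (f p) (h p0) - A (f p0) (h p0)‖)
      (𝓝 p0) (𝓝 (K * ‖h p0 - h p0‖ + ‖A (f p0) (h p0) - A (f p0) (h p0)‖)) := by
    refine Tendsto.add (Tendsto.const_mul _ ?_) ?_
    · exact ((hh.tendsto p0).sub_const _).norm
    · exact ((hc2.tendsto p0).sub_const _).norm
  rw [sub_self, sub_self, norm_zero, mul_zero, add_zero] at hlim
  refine tendsto_of_tendsto_of_tendsto_of_le_of_le tendsto_const_nhds hlim
    (fun _ => norm_nonneg _) (fun p => ?_)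
  have e1 : A (f p) (h p) - A (f p0) (h p0)
      = A (f p) (h p - h p0) + (A (f p) (h p0) - A (f p0) (h p0)) := by
    rw [map_sub]; abel
  change ‖A (f p) (h p) - A (f p0) (h p0)‖ ≤ _
  rw [e1]
  refine (norm_add_le _ _).trans ?_
  have h3 : ‖A (f p) (h p - h p0)‖ ≤ K * ‖h p - h p0‖ :=
    ((A (f p)).le_opNorm _).trans (mul_le_mul_of_nonneg_right (hK _) (norm_nonneg _))
  linarith

theorem CovOp.const {J : E →L[ℂ] E} (hJ : ∀ a u, V a (J u) = J (V a u)) :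
    CovOp V (fun _ => J) where
  bdd := ⟨‖J‖, fun _ => le_rfl⟩
  cont _ := continuous_const
  cov a _ u := hJ a u

theorem CovOp.add (hA : CovOp V A) (hB : CovOp V B) : CovOp V (fun ω => A ω + B ω) where
  bdd := by
    obtain ⟨K, hK⟩ := hA.bdd
    obtain ⟨L, hL⟩ := hB.bdd
    exact ⟨K + L, fun ω => (norm_add_le _ _).trans (add_le_add (hK ω) (hL ω))⟩
  cont u := (hA.cont u).add (hB.cont u)
  cov a ω u := by
    change V a (A ω u + B ω u) = A _ (V a u) + B _ (V a u)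
    rw [map_add, hA.cov, hB.cov]

theorem CovOp.smul (z : ℂ) (hA : CovOp V A) : CovOp V (fun ω => z • A ω) where
  bdd := by
    obtain ⟨K, hK⟩ := hA.bdd
    refine ⟨‖z‖ * K, fun ω => ?_⟩
    rw [norm_smul]
    exact mul_le_mul_of_nonneg_left (hK ω) (norm_nonneg _)
  cont u := (hA.cont u).const_smul z
  cov a ω u := by
    change V a (z • A ω u) = z • A _ (V a u)
    rw [map_smul, hA.cov]

theorem CovOp.mul (hA : CovOp V A) (hB : CovOp V B) : CovOp V (fun ω => A ω * B ω) where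
  bdd := by
    obtain ⟨K, hK⟩ := hA.bdd
    obtain ⟨L, hL⟩ := hB.bdd
    exact ⟨K * L, fun ω => (norm_mul_le _ _).trans
      (mul_le_mul (hK ω) (hL ω) (norm_nonneg _) ((norm_nonneg _).trans (hK ω)))⟩
  cont u := hA.continuous_apply continuous_id (hB.cont u)
  cov a ω u := by
    change V a (A ω (B ω u)) = A _ (B _ (V a u))
    rw [hA.cov, hB.cov]

theorem CovOp.pow (hA : CovOp V A) (n : ℕ) : CovOp V (fun ω => A ω ^ n) := by
  induction n with
  | zero =>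
    simp only [pow_zero]
    exact CovOp.const fun a u => rfl
  | succ n ih =>
    simp only [pow_succ]
    exact ih.mul hA

/-- joint continuity of the unitary group -/
theorem cov_continuous_Ut {V : Λ → (E ≃ₗᵢ[ℂ] E)} (hH : CovOp V H) {P : Type*}
    [TopologicalSpace P] {f : P → Λ → ℝ} (hf : Continuous f) {g : P → ℝ} (hg : Continuous g)
    {h : P → E} (hh : Continuous h) :
    Continuous fun p => Pool.Agent.Lib.MP_562b47_mp.Ut H (f p) (g p) (h p) := by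
  obtain ⟨K, hK⟩ := hH.bdd
  have hK0 : 0 ≤ K := (norm_nonneg _).trans (hK (fun _ => 0))
  rw [continuous_iff_continuousAt]
  intro p0
  set R : ℝ := |g p0| + 1 with hR
  set R' : ℝ := ‖h p0‖ + 1 with hR'
  set s : Set P := {p | |g p| < R} ∩ {p | ‖h p‖ < R'} with hs
  have hso : IsOpen s := by
    refine IsOpen.inter ?_ ?_
    · exact isOpen_lt (continuous_abs.comp hg) continuous_const
    · exact isOpen_lt (continuous_norm.comp hh) continuous_const
  have hp0 : p0 ∈ s := by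
    refine ⟨?_, ?_⟩
    · change |g p0| < R
      rw [hR]; linarith
    · change ‖h p0‖ < R'
      rw [hR']; linarith
  have hterm : ∀ p, Pool.Agent.Lib.MP_562b47_mp.Ut H (f p) (g p) (h p)
      = ∑' n : ℕ, ((n.factorial : ℂ))⁻¹ • ((-((g p : ℝ) : ℂ) * I) ^ n • (H (f p) ^ n) (h p)) := by
    intro p
    have h1 := (cov_hasSum_exp ((-((g p : ℝ) : ℂ) * I) • H (f p)) (h p)).tsum_eq
    unfold Pool.Agent.Lib.MP_562b47_mp.Ut
    rw [← h1]
    refine tsum_congr fun n => ?_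
    rw [smul_pow]
    rfl
  have hcs : ContinuousOn (fun p => ∑' n : ℕ, ((n.factorial : ℂ))⁻¹ •
      ((-((g p : ℝ) : ℂ) * I) ^ n • (H (f p) ^ n) (h p))) s := by
    refine continuousOn_tsum (u := fun n : ℕ => (R * K) ^ n / (n.factorial : ℝ) * R') ?_ ?_ ?_
    · intro n
      refine Continuous.continuousOn ?_
      have h1 : Continuous fun p => (H (f p) ^ n) (h p) := (hH.pow n).continuous_apply hf hh
      have h2 : Continuous fun p => (-((g p : ℝ) : ℂ) * I) ^ n := by fun_prop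
      exact (h2.smul h1).const_smul _
    · exact (Real.summable_pow_div_factorial (R * K)).mul_right R'
    · intro n p hp
      have hp1 : |g p| ≤ R := (le_of_lt hp.1)
      have hp2 : ‖h p‖ ≤ R' := (le_of_lt hp.2)
      have hR0 : 0 ≤ R := (abs_nonneg _).trans hp1
      rw [norm_smul, norm_smul, norm_inv, Complex.norm_natCast, norm_pow, norm_mul, norm_neg,
        Complex.norm_real, Complex.norm_I, mul_one, Real.norm_eq_abs]
      have h3 := cov_norm_pow_apply_le (H (f p)) (hK (f p)) n (h p)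
      calc ((n.factorial : ℝ))⁻¹ * (|g p| ^ n * ‖(H (f p) ^ n) (h p)‖)
          ≤ ((n.factorial : ℝ))⁻¹ * (R ^ n * (K ^ n * R')) := by
            refine mul_le_mul_of_nonneg_left ?_ (by positivity)
            refine mul_le_mul (pow_le_pow_left₀ (abs_nonneg _) hp1 n) ?_ (norm_nonneg _)
              (by positivity)
            exact h3.trans (mul_le_mul_of_nonneg_left hp2 (by positivity))
        _ = (R * K) ^ n / (n.factorial : ℝ) * R' := by rw [mul_pow, div_eq_inv_mul]; ring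
  have hca := hcs.continuousAt (hso.mem_nhds hp0)
  refine hca.congr (Eventually.of_forall fun p => (hterm p).symm)

theorem CovOp.Ut (hH : CovOp V H) (t : ℝ) : CovOp V (fun ω => Ut H ω t) where
  bdd := by
    obtain ⟨K, hK⟩ := hH.bdd
    refine ⟨Real.exp (|t| * K), fun ω => ?_⟩
    refine ContinuousLinearMap.opNorm_le_bound _ (Real.exp_pos _).le fun u => ?_
    refine cov_norm_exp_apply_le _ ?_ u
    rw [norm_smul, norm_mul, norm_neg, Complex.norm_real, Complex.norm_I, mul_one,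
      Real.norm_eq_abs]
    exact mul_le_mul_of_nonneg_left (hK ω) (abs_nonneg _)
  cont u := cov_continuous_Ut hH continuous_id continuous_const continuous_const
  cov a ω u := by
    have h1 := (cov_hasSum_exp ((-(t : ℂ) * I) • H ω) u).mapL
      ((V a).toContinuousLinearEquiv : E →L[ℂ] E)
    have h2 := cov_hasSum_exp ((-(t : ℂ) * I) • H (fun j => ω (j + a))) (V a u)
    have hX := hH.smul (-(t : ℂ) * I)
    have h3 : (fun n : ℕ => ((V a).toContinuousLinearEquiv : E →L[ℂ] E)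
        (((n.factorial : ℂ))⁻¹ • (((-(t : ℂ) * I) • H ω) ^ n) u)) =
        fun n : ℕ => ((n.factorial : ℂ))⁻¹ •
          (((-(t : ℂ) * I) • H (fun j => ω (j + a))) ^ n) (V a u) := by
      funext n
      rw [map_smul]
      congr 1
      exact (hX.pow n).cov a ω u
    rw [h3] at h1
    exact h1.unique h2

theorem CovOp.Js (hH : CovOp V H) {J : E →L[ℂ] E} (hJ : ∀ a u, V a (J u) = J (V a u)) (t : ℝ) :
    CovOp V (fun ω => Js H J ω t) :=
  ((hH.Ut (-t)).mul (CovOp.const hJ)).mul (hH.Ut t)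

/-- Parseval -/
theorem cov_parseval {e : Λ → E} (ho : Orthonormal ℂ e)
    (tot : ∀ u : E, (∀ x, ⟪e x, u⟫_ℂ = 0) → u = 0) (u v : E) :
    HasSum (fun k => ⟪u, e k⟫_ℂ * ⟪e k, v⟫_ℂ) ⟪u, v⟫_ℂ := by
  have hbot : (Submodule.span ℂ (Set.range e))ᗮ = ⊥ := by
    rw [Submodule.eq_bot_iff]
    intro w hw
    refine tot w fun x => ?_
    exact hw (e x) (Submodule.subset_span ⟨x, rfl⟩)
  have h := (HilbertBasis.mkOfOrthogonalEqBot ho hbot).hasSum_inner_mul_inner u v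
  simpa only [HilbertBasis.coe_mkOfOrthogonalEqBot] using h

theorem cov_enorm_sq {e : Λ → E} (ho : Orthonormal ℂ e)
    (tot : ∀ u : E, (∀ x, ⟪e x, u⟫_ℂ = 0) → u = 0) (u : E) :
    ‖u‖ₑ ^ 2 = ∑' k, ‖⟪e k, u⟫_ℂ‖ₑ ^ 2 := by
  have h := cov_parseval ho tot u u
  have h1 : HasSum (fun k => ((‖⟪e k, u⟫_ℂ‖ ^ 2 : ℝ) : ℂ)) ((‖u‖ ^ 2 : ℝ) : ℂ) := by
    convert h using 1
    · funext k
      rw [← inner_conj_symm u (e k), ← Complex.normSq_eq_conj_mul_self,
        Complex.normSq_eq_norm_sq]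
    · rw [inner_self_eq_norm_sq_to_K]
      push_cast
      rfl
  have h2 : HasSum (fun k => ‖⟪e k, u⟫_ℂ‖ ^ 2) (‖u‖ ^ 2) := Complex.hasSum_ofReal.mp h1
  have h3 : ∀ z : ℝ, 0 ≤ z → ENNReal.ofReal (z ^ 2) = ENNReal.ofReal z ^ 2 := fun z hz =>
    ENNReal.ofReal_pow hz 2
  rw [← ofReal_norm, ← h3 _ (norm_nonneg _), ← h2.tsum_eq,
    ENNReal.ofReal_tsum_of_nonneg (fun k => by positivity) h2.summable]
  refine tsum_congr fun k => ?_
  rw [h3 _ (norm_nonneg _), ofReal_norm]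

/-- Mass transport: `E ‖A e_0‖² = E ‖A^* e_0‖²`; by `V x (e x) = e 0`, `|⟪e x, A ω e 0⟫| =
|⟪e 0, A (ω(· + x)) e (-x)⟫|`, and the shift preserves the measure. -/
theorem CovOp.mass_transport (hc : 0 < c) (ho : Orthonormal ℂ e)
    (tot : ∀ u : E, (∀ x, ⟪e x, u⟫_ℂ = 0) → u = 0) (hV : Trans e V) (hA : CovOp V A) :
    ∫⁻ ω, ‖A ω (e 0)‖ₑ ^ 2 ∂(PP Λ c) = ∫⁻ ω, ‖(A ω).adjoint (e 0)‖ₑ ^ 2 ∂(PP Λ c) := by
  have := unif_prob hc
  have hmeas : ∀ x y : Λ, Measurable fun ω : Λ → ℝ => ‖⟪e x, A ω (e y)⟫_ℂ‖ₑ ^ 2 := by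
    intro x y
    have h1 : Continuous fun ω : Λ → ℝ => ⟪e x, A ω (e y)⟫_ℂ :=
      continuous_const.inner (hA.cont (e y))
    exact (h1.measurable.enorm).pow_const 2
  have h1 : ∫⁻ ω, ‖A ω (e 0)‖ₑ ^ 2 ∂(PP Λ c) =
      ∑' x, ∫⁻ ω, ‖⟪e x, A ω (e 0)⟫_ℂ‖ₑ ^ 2 ∂(PP Λ c) := by
    rw [← lintegral_tsum fun x => (hmeas x 0).aemeasurable]
    exact lintegral_congr fun ω => cov_enorm_sq ho tot _
  have h2 : ∫⁻ ω, ‖(A ω).adjoint (e 0)‖ₑ ^ 2 ∂(PP Λ c) =
      ∑' x, ∫⁻ ω, ‖⟪e 0, A ω (e x)⟫_ℂ‖ₑ ^ 2 ∂(PP Λ c) := by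
    rw [← lintegral_tsum fun x => (hmeas 0 x).aemeasurable]
    refine lintegral_congr fun ω => ?_
    rw [cov_enorm_sq ho tot]
    refine tsum_congr fun x => ?_
    rw [ContinuousLinearMap.adjoint_inner_right, ← inner_conj_symm, RCLike.enorm_conj]
  rw [h1, h2, ← (Equiv.neg Λ).tsum_eq (fun x => ∫⁻ ω, ‖⟪e 0, A ω (e x)⟫_ℂ‖ₑ ^ 2 ∂(PP Λ c))]
  refine tsum_congr fun x => ?_
  have hmp := measurePreserving_shift (Λ := Λ) (unif c) x
  have h3 : ∀ ω, ‖⟪e x, A ω (e 0)⟫_ℂ‖ₑ ^ 2 =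
      ‖⟪e 0, A (fun j => ω (j + x)) (e (-x))⟫_ℂ‖ₑ ^ 2 := by
    intro ω
    have e1 : V x (e x) = e 0 := by
      have := hV.apply x 0
      rwa [zero_add] at this
    have e2 : V x (e 0) = e (-x) := by
      have := hV.apply x (-x)
      rwa [neg_add_cancel] at this
    rw [← (V x).inner_map_map (e x) (A ω (e 0)), hA.cov, e1, e2]
  rw [lintegral_congr h3]
  exact hmp.lintegral_comp (hmeas 0 (-x))

/-- the mean square of `A e_x` does not depend on `x` -/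
theorem CovOp.shift_lintegral (hc : 0 < c) (hV : Trans e V) (hA : CovOp V A) (x : Λ) :
    ∫⁻ ω, ‖A ω (e x)‖ₑ ^ 2 ∂(PP Λ c) = ∫⁻ ω, ‖A ω (e 0)‖ₑ ^ 2 ∂(PP Λ c) := by
  have := unif_prob hc
  have hmp := measurePreserving_shift (Λ := Λ) (unif c) x
  have hmeas : Measurable fun ω : Λ → ℝ => ‖A ω (e 0)‖ₑ ^ 2 :=
    ((hA.cont (e 0)).enorm.measurable).pow_const 2
  have h3 : ∀ ω, ‖A ω (e x)‖ₑ ^ 2 = ‖A (fun j => ω (j + x)) (e 0)‖ₑ ^ 2 := by
    intro ω
    have e1 : V x (e x) = e 0 := by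
      have := hV.apply x 0
      rwa [zero_add] at this
    have e3 : ‖A ω (e x)‖ = ‖A (fun j => ω (j + x)) (e 0)‖ := by
      rw [← (V x).norm_map (A ω (e x)), hA.cov, e1]
    rw [← ofReal_norm, ← ofReal_norm, e3]
  rw [lintegral_congr h3]
  exact hmp.lintegral_comp hmeas

end covop

/-! ### The unitary group -/

section group

theorem Ut_zero (H : (Λ → ℝ) → (E →L[ℂ] E)) (ω : Λ → ℝ) : Ut H ω 0 = 1 := by
  unfold Ut
  rw [Complex.ofReal_zero, neg_zero, zero_mul, zero_smul, NormedSpace.exp_zero]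

theorem Ut_add (H : (Λ → ℝ) → (E →L[ℂ] E)) (ω : Λ → ℝ) (s t : ℝ) :
    Ut H ω (s + t) = Ut H ω s * Ut H ω t := by
  let _ : NormedAlgebra ℚ (E →L[ℂ] E) := NormedAlgebra.restrictScalars ℚ ℂ _
  unfold Ut
  rw [← NormedSpace.exp_add_of_commute, ← add_smul]
  · congr 2
    push_cast
    ring
  · exact ((Commute.refl (H ω)).smul_left _).smul_right _

theorem Ut_comm (H : (Λ → ℝ) → (E →L[ℂ] E)) (ω : Λ → ℝ) (t : ℝ) :
    Commute (Ut H ω t) (H ω) := by
  unfold Ut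
  exact ((Commute.refl (H ω)).smul_left _).exp_left

theorem Ut_adjoint {ω : Λ → ℝ} (hH : IsSelfAdjoint (H ω)) (t : ℝ) :
    (Ut H ω t).adjoint = Ut H ω (-t) := by
  unfold Ut
  rw [← ContinuousLinearMap.star_eq_adjoint, NormedSpace.star_exp, star_smul, hH.star_eq]
  congr 2
  simp

theorem norm_Ut_apply {ω : Λ → ℝ} (hH : IsSelfAdjoint (H ω)) (t : ℝ) (u : E) :
    ‖Ut H ω t u‖ = ‖u‖ := by
  have h1 : Ut H ω (-t) (Ut H ω t u) = u := by
    have h2 := Ut_add H ω (-t) t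
    rw [neg_add_cancel, Ut_zero] at h2
    have h3 := congrArg (fun T : E →L[ℂ] E => T u) h2
    exact h3.symm
  have h4 : ⟪Ut H ω t u, Ut H ω t u⟫_ℂ = ⟪u, u⟫_ℂ := by
    rw [← ContinuousLinearMap.adjoint_inner_right, Ut_adjoint hH, h1]
  rw [inner_self_eq_norm_sq_to_K, inner_self_eq_norm_sq_to_K] at h4
  have h5 : ‖Ut H ω t u‖ ^ 2 = ‖u‖ ^ 2 := by exact_mod_cast h4
  exact (sq_eq_sq₀ (norm_nonneg _) (norm_nonneg _)).mp h5

theorem hasDerivAt_Ut (H : (Λ → ℝ) → (E →L[ℂ] E)) (ω : Λ → ℝ) (t : ℝ) :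
    HasDerivAt (fun t => Ut H ω t) (-I • (H ω * Ut H ω t)) t := by
  have h1 : ∀ s : ℝ, Ut H ω s = NormedSpace.exp (s • ((-I) • H ω)) := by
    intro s
    unfold Ut
    congr 1
    rw [← Complex.coe_smul, smul_smul]
    congr 1
    ring
  have h2 := hasDerivAt_exp_smul_const' (𝕂 := ℝ) ((-I) • H ω) t
  rw [← h1 t, smul_mul_assoc] at h2
  have h3 : (fun t => Ut H ω t) = fun s : ℝ => NormedSpace.exp (s • ((-I) • H ω)) := funext h1
  rw [h3]
  exact h2

/-- joint continuity -/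
theorem continuous_Ut_apply {V : Λ → (E ≃ₗᵢ[ℂ] E)} (hH : CovOp V H) {P : Type*}
    [TopologicalSpace P] {f : P → Λ → ℝ} (hf : Continuous f) {g : P → ℝ} (hg : Continuous g)
    {h : P → E} (hh : Continuous h) : Continuous fun p => Ut H (f p) (g p) (h p) :=
  cov_continuous_Ut hH hf hg hh

theorem Js_add (H : (Λ → ℝ) → (E →L[ℂ] E)) (J : E →L[ℂ] E) (ω : Λ → ℝ) (s t : ℝ) :
    Js H J ω (s + t) = Ut H ω (-t) * Js H J ω s * Ut H ω t := by
  unfold Js
  rw [show -(s + t) = -t + -s by ring, Ut_add, Ut_add]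
  simp only [mul_assoc]

theorem isSelfAdjoint_Js {ω : Λ → ℝ} (hH : IsSelfAdjoint (H ω)) {J : E →L[ℂ] E}
    (hJ : IsSelfAdjoint J) (t : ℝ) : IsSelfAdjoint (Js H J ω t) := by
  have h1 : ∀ s, star (Ut H ω s) = Ut H ω (-s) := fun s => Ut_adjoint hH s
  rw [IsSelfAdjoint]
  unfold Js
  rw [star_mul, star_mul, h1, h1, neg_neg, hJ.star_eq, mul_assoc]

theorem norm_Js_le {ω : Λ → ℝ} (hH : IsSelfAdjoint (H ω)) (J : E →L[ℂ] E) (t : ℝ) :
    ‖Js H J ω t‖ ≤ ‖J‖ := by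
  refine ContinuousLinearMap.opNorm_le_bound _ (norm_nonneg _) fun u => ?_
  change ‖Ut H ω (-t) (J (Ut H ω t u))‖ ≤ _
  rw [norm_Ut_apply hH]
  refine (J.le_opNorm _).trans ?_
  rw [norm_Ut_apply hH]

/-- products of commuting operators with symmetric matrices have symmetric matrices -/
theorem cov_symm_mul {e : Λ → E} (ho : Orthonormal ℂ e)
    (tot : ∀ u : E, (∀ x, ⟪e x, u⟫_ℂ = 0) → u = 0) {A B : E →L[ℂ] E} (hAB : Commute A B)
    (hA : ∀ x y, ⟪e x, A (e y)⟫_ℂ = ⟪e y, A (e x)⟫_ℂ)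
    (hB : ∀ x y, ⟪e x, B (e y)⟫_ℂ = ⟪e y, B (e x)⟫_ℂ) (x y : Λ) :
    ⟪e x, (A * B) (e y)⟫_ℂ = ⟪e y, (A * B) (e x)⟫_ℂ := by
  have h1 := cov_parseval ho tot (A.adjoint (e x)) (B (e y))
  have h2 := cov_parseval ho tot (B.adjoint (e y)) (A (e x))
  rw [ContinuousLinearMap.adjoint_inner_left] at h1 h2
  have h3 : (fun k => ⟪A.adjoint (e x), e k⟫_ℂ * ⟪e k, B (e y)⟫_ℂ) =
      fun k => ⟪B.adjoint (e y), e k⟫_ℂ * ⟪e k, A (e x)⟫_ℂ := by
    funext k
    rw [ContinuousLinearMap.adjoint_inner_left, ContinuousLinearMap.adjoint_inner_left,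
      hA x k, hB k y, mul_comm]
  rw [h3] at h1
  have h4 := h1.unique h2
  have h5 : (A * B) (e x) = B (A (e x)) := by
    rw [hAB.eq]; rfl
  rw [h5]
  exact h4

/-- the matrix of `H` is symmetric -/
theorem cov_symm_H (M : Model c e H) (ω : Λ → ℝ) (x y : Λ) :
    ⟪e x, H ω (e y)⟫_ℂ = ⟪e y, H ω (e x)⟫_ℂ := by
  set z : ℕ → ℂ := fun n => ((n : ℝ) + 1 : ℝ) * I with hz
  have hzim : ∀ n, (z n).im = (n : ℝ) + 1 := by
    intro n
    simp [hz]
  have hzpos : ∀ n, 0 < (z n).im := fun n => by rw [hzim]; positivity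
  have hzabs : ∀ n, ‖z n‖ = (n : ℝ) + 1 := by
    intro n
    have h0 : (0 : ℝ) ≤ (n : ℝ) + 1 := by positivity
    rw [hz]
    simp only [norm_mul, Complex.norm_I, mul_one, Complex.norm_real, Real.norm_of_nonneg h0]
  -- `z (u + z R u) → - H u`
  have key : ∀ u : E, Tendsto (fun n => z n • (u + z n • Rv (H ω) (z n) u)) atTop
      (𝓝 (-(H ω u))) := by
    intro u
    rw [tendsto_iff_norm_sub_tendsto_zero]
    have e1 : ∀ n, z n • (u + z n • Rv (H ω) (z n) u) - -(H ω u) =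
        Rv (H ω) (z n) (H ω (H ω u)) := by
      intro n
      have h1 := Rv_H_apply (M.sa ω) (hzpos n).ne' u
      have h2 := Rv_H_apply (M.sa ω) (hzpos n).ne' (H ω u)
      rw [← h1, h2]
      abel
    have hb : ∀ n, ‖z n • (u + z n • Rv (H ω) (z n) u) - -(H ω u)‖ ≤
        ‖H ω (H ω u)‖ / ((n : ℝ) + 1) := by
      intro n
      rw [e1 n, le_div_iff₀ (by positivity)]
      have h3 := norm_Rv_le (M.sa ω) (hzpos n).ne' (H ω (H ω u))
      rw [abs_of_pos (hzpos n), hzim] at h3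
      linarith
    have hl : Tendsto (fun n : ℕ => ‖H ω (H ω u)‖ / ((n : ℝ) + 1)) atTop (𝓝 0) :=
      tendsto_const_nhds.div_atTop (tendsto_atTop_add_const_right _ _
        tendsto_natCast_atTop_atTop)
    exact tendsto_of_tendsto_of_tendsto_of_le_of_le tendsto_const_nhds hl
      (fun _ => norm_nonneg _) hb
  have hx : Tendsto (fun n => ⟪e x, z n • (e y + z n • Rv (H ω) (z n) (e y))⟫_ℂ) atTop
      (𝓝 ⟪e x, -(H ω (e y))⟫_ℂ) := tendsto_const_nhds.inner (key (e y))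
  have hy : Tendsto (fun n => ⟪e y, z n • (e x + z n • Rv (H ω) (z n) (e x))⟫_ℂ) atTop
      (𝓝 ⟪e y, -(H ω (e x))⟫_ℂ) := tendsto_const_nhds.inner (key (e x))
  have hxy : (fun n => ⟪e x, z n • (e y + z n • Rv (H ω) (z n) (e y))⟫_ℂ) =
      fun n => ⟪e y, z n • (e x + z n • Rv (H ω) (z n) (e x))⟫_ℂ := by
    funext n
    rw [inner_smul_right, inner_smul_right, inner_add_right, inner_add_right, inner_smul_right,
      inner_smul_right, M.symm ω (z n) x y (hzpos n).ne']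
    congr 2
    rw [orthonormal_iff_ite.mp M.ortho, orthonormal_iff_ite.mp M.ortho]
    by_cases h : x = y
    · subst h; rfl
    · rw [if_neg h, if_neg (fun h' => h h'.symm)]
  rw [hxy] at hx
  have h6 := tendsto_nhds_unique hx hy
  rw [inner_neg_right, inner_neg_right] at h6
  exact neg_injective h6

theorem cov_symm_pow (M : Model c e H) (ω : Λ → ℝ) (n : ℕ) (x y : Λ) :
    ⟪e x, (H ω ^ n) (e y)⟫_ℂ = ⟪e y, (H ω ^ n) (e x)⟫_ℂ := by
  induction n generalizing x y with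
  | zero =>
    rw [pow_zero]
    change ⟪e x, e y⟫_ℂ = ⟪e y, e x⟫_ℂ
    rw [orthonormal_iff_ite.mp M.ortho, orthonormal_iff_ite.mp M.ortho]
    by_cases h : x = y
    · subst h; rfl
    · rw [if_neg h, if_neg (fun h' => h h'.symm)]
  | succ n ih =>
    rw [pow_succ]
    exact cov_symm_mul M.ortho M.tot ((Commute.refl (H ω)).pow_left n) ih (cov_symm_H M ω) x y

/-- the matrix of `e^{-itH}` is symmetric -/
theorem Ut_symm (M : Model c e H) (ω : Λ → ℝ) (t : ℝ) (x y : Λ) :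
    ⟪e x, Ut H ω t (e y)⟫_ℂ = ⟪e y, Ut H ω t (e x)⟫_ℂ := by
  have h1 := (cov_hasSum_exp ((-(t : ℂ) * I) • H ω) (e y)).mapL (innerSL ℂ (e x))
  have h2 := (cov_hasSum_exp ((-(t : ℂ) * I) • H ω) (e x)).mapL (innerSL ℂ (e y))
  have h3 : (fun n : ℕ => innerSL ℂ (e x) (((n.factorial : ℂ))⁻¹ •
      (((-(t : ℂ) * I) • H ω) ^ n) (e y))) =
      fun n : ℕ => innerSL ℂ (e y) (((n.factorial : ℂ))⁻¹ •
      (((-(t : ℂ) * I) • H ω) ^ n) (e x)) := by
    funext n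
    rw [innerSL_apply_apply, innerSL_apply_apply, smul_pow, inner_smul_right, inner_smul_right]
    congr 1
    change ⟪e x, (-(t : ℂ) * I) ^ n • (H ω ^ n) (e y)⟫_ℂ =
      ⟪e y, (-(t : ℂ) * I) ^ n • (H ω ^ n) (e x)⟫_ℂ
    rw [inner_smul_right, inner_smul_right, cov_symm_pow M ω n x y]
  rw [h3] at h1
  exact h1.unique h2

end group

end Pool.Agent.Lib.MP_562b47_mp
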