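import Pool.Agent.Lib.MP_562b47_mp.Spec

/-!
The deterministic part: if the a.c. part of `H` on `S` is finitely generated, then the limiting
matrix satisfies a rank/trace inequality a.e. on `S`.
(Anderson model, MP_562b47_mp.)
-/

open MeasureTheory Filter Topology Complex Set
open scoped InnerProductSpace ENNReal

namespace Pool.Agent.Lib.MP_562b47_mp

/-! ### A common almost everywhere convergent subsequence -/

theorem tendsto_of_min_one {a : ℕ → ℝ} (h : Tendsto (fun n => min 1 (a n)) atTop (𝓝 0)) :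
    Tendsto a atTop (𝓝 0) := by
  have h1 : ∀ᶠ n in atTop, min 1 (a n) < 1 := h.eventually_lt_const one_pos
  refine h.congr' ?_
  filter_upwards [h1] with n hn
  rcases min_lt_iff.mp hn with h | h
  · exact absurd h (lt_irrefl _)
  · exact min_eq_right h.le

theorem ae_tendsto_of_summable {f : ℕ → ℝ → ℝ} (hm : ∀ k, Measurable (f k))
    (h0 : ∀ k x, 0 ≤ f k x) {N : ℕ}
    (h : ∀ k, N ≤ k → ∫ x, min 1 (f k x) ∂kap ≤ (1 / 2 : ℝ) ^ k) :
    ∀ᵐ x ∂kap, Tendsto (fun k => f k x) atTop (𝓝 0) := by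
  have hmm : ∀ k, Measurable (fun x => ENNReal.ofReal (min 1 (f (k + N) x))) := fun k =>
    (measurable_const.min (hm _)).ennreal_ofReal
  have h1 : ∫⁻ x, ∑' k, ENNReal.ofReal (min 1 (f (k + N) x)) ∂kap ≠ ∞ := by
    rw [lintegral_tsum (fun k => (hmm k).aemeasurable)]
    have h2 : ∀ k, ∫⁻ x, ENNReal.ofReal (min 1 (f (k + N) x)) ∂kap
        ≤ ENNReal.ofReal ((1 / 2 : ℝ) ^ k) := by
      intro k
      rw [← ofReal_integral_eq_lintegral_ofReal (integrable_min_one (hm _) (h0 _))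
        (ae_of_all _ fun x => le_min zero_le_one (h0 _ _))]
      refine ENNReal.ofReal_le_ofReal ((h (k + N) (by omega)).trans ?_)
      exact pow_le_pow_of_le_one (by norm_num) (by norm_num) (by omega)
    refine ne_top_of_le_ne_top ?_ (ENNReal.tsum_le_tsum h2)
    rw [← ENNReal.ofReal_tsum_of_nonneg (fun k => by positivity) summable_geometric_two]
    exact ENNReal.ofReal_ne_top
  have h3 := ae_lt_top (Measurable.ennreal_tsum hmm) h1
  filter_upwards [h3] with x hx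
  have h4 := ENNReal.tendsto_atTop_zero_of_tsum_ne_top hx.ne
  have h5 : Tendsto (fun k => min 1 (f (k + N) x)) atTop (𝓝 0) := by
    have h6 := (ENNReal.tendsto_toReal ENNReal.zero_ne_top).comp h4
    rw [ENNReal.toReal_zero] at h6
    refine h6.congr fun k => ?_
    simp only [Function.comp]
    rw [ENNReal.toReal_ofReal (le_min zero_le_one (h0 _ _))]
  exact (tendsto_add_atTop_iff_nat N).mp (tendsto_of_min_one h5)

theorem common_subseq {ι : Type*} [Countable ι] {F : ι → ℕ → ℝ → ℝ}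
    (hm : ∀ i k, Measurable (F i k)) (h0 : ∀ i k x, 0 ≤ F i k x)
    (h : ∀ i, Tendsto (fun k => ∫ x, min 1 (F i k x) ∂kap) atTop (𝓝 0)) :
    ∃ φ : ℕ → ℕ, StrictMono φ ∧
      ∀ᵐ x ∂kap, ∀ i, Tendsto (fun k => F i (φ k) x) atTop (𝓝 0) := by
  obtain ⟨c, hc⟩ := exists_injective_nat ι
  have h1 : ∀ j : ℕ, ∀ᶠ k in atTop, ∀ i : ι, c i ≤ j →
      ∫ x, min 1 (F i k x) ∂kap ≤ (1 / 2 : ℝ) ^ j := by
    intro j
    have hfin : (c ⁻¹' Set.Iic j).Finite := (Set.finite_Iic j).preimage hc.injOn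
    have h2 := (hfin.eventually_all (l := atTop) (p := fun i k =>
      ∫ x, min 1 (F i k x) ∂kap ≤ (1 / 2 : ℝ) ^ j)).mpr (fun i _ =>
        (h i).eventually_le_const (by positivity))
    exact h2
  obtain ⟨φ, hφ, hφ'⟩ := extraction_forall_of_eventually h1
  refine ⟨φ, hφ, ?_⟩
  rw [ae_all_iff]
  intro i
  exact ae_tendsto_of_summable (N := c i) (fun k => hm i (φ k)) (fun k => h0 i (φ k))
    (fun k hk => hφ' k i hk)

/-! ### The Gram inequality -/

section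

variable {V : Type*} [NormedAddCommGroup V] [InnerProductSpace ℂ V]

theorem gram_ineq {ι : Type*} (X : Finset ι) (W : Submodule ℂ V) [FiniteDimensional ℂ W] {n : ℕ}
    (hn : Module.finrank ℂ W ≤ n) (g : ι → V) (hg : ∀ x, g x ∈ W) :
    (∑ x ∈ X, ‖g x‖ ^ 2) ^ 2 ≤ n * ∑ x ∈ X, ∑ y ∈ X, ‖⟪g x, g y⟫_ℂ‖ ^ 2 := by
  let b := stdOrthonormalBasis ℂ W
  let g' : ι → W := fun x => ⟨g x, hg x⟩
  let G : ι → Fin (Module.finrank ℂ W) → ℂ := fun x i => ⟪b i, g' x⟫_ℂ
  let K : Fin (Module.finrank ℂ W) → Fin (Module.finrank ℂ W) → ℂ :=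
    fun i j => ∑ x ∈ X, (starRingEnd ℂ) (G x i) * G x j
  have hGn : ∀ x, ‖g x‖ ^ 2 = ∑ i, ‖G x i‖ ^ 2 := by
    intro x
    have := b.sum_sq_norm_inner_right (g' x)
    rw [this]
    rfl
  have hin : ∀ x y, ⟪g x, g y⟫_ℂ = ∑ i, (starRingEnd ℂ) (G x i) * G y i := by
    intro x y
    have h := b.sum_inner_mul_inner (g' x) (g' y)
    have h2 : ⟪g x, g y⟫_ℂ = ⟪g' x, g' y⟫_ℂ := rfl
    rw [h2, ← h]
    refine Finset.sum_congr rfl fun i _ => ?_
    simp only [G, inner_conj_symm]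
  have hKii : ∀ i, K i i = ((∑ x ∈ X, ‖G x i‖ ^ 2 : ℝ) : ℂ) := by
    intro i
    simp only [K]
    rw [Complex.ofReal_sum]
    refine Finset.sum_congr rfl fun x _ => ?_
    rw [Complex.conj_mul']
    simp
  have hid : ∑ i, ∑ j, ‖K i j‖ ^ 2 = ∑ x ∈ X, ∑ y ∈ X, ‖⟪g x, g y⟫_ℂ‖ ^ 2 := by
    have h1 : ((∑ i, ∑ j, ‖K i j‖ ^ 2 : ℝ) : ℂ) = ((∑ x ∈ X, ∑ y ∈ X, ‖⟪g x, g y⟫_ℂ‖ ^ 2 : ℝ) : ℂ) := by
      push_cast
      have e1 : ∀ i j, ((‖K i j‖ : ℝ) : ℂ) ^ 2 = ∑ x ∈ X, ∑ y ∈ X,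
          (starRingEnd ℂ) (G x i) * G x j * (G y i * (starRingEnd ℂ) (G y j)) := by
        intro i j
        rw [← Complex.mul_conj']
        simp only [K]
        rw [map_sum, Finset.sum_mul_sum]
        refine Finset.sum_congr rfl fun x _ => Finset.sum_congr rfl fun y _ => ?_
        rw [map_mul, Complex.conj_conj]
      have e2 : ∀ x y, ((‖⟪g x, g y⟫_ℂ‖ : ℝ) : ℂ) ^ 2 = ∑ i, ∑ j,
          (starRingEnd ℂ) (G x i) * G x j * (G y i * (starRingEnd ℂ) (G y j)) := by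
        intro x y
        rw [← Complex.mul_conj', hin, map_sum, Finset.sum_mul_sum]
        refine Finset.sum_congr rfl fun i _ => Finset.sum_congr rfl fun j _ => ?_
        rw [map_mul, Complex.conj_conj]
        ring
      simp only [e1, e2]
      calc ∑ i, ∑ j, ∑ x ∈ X, ∑ y ∈ X,
            (starRingEnd ℂ) (G x i) * G x j * (G y i * (starRingEnd ℂ) (G y j))
          = ∑ i, ∑ x ∈ X, ∑ j, ∑ y ∈ X,
            (starRingEnd ℂ) (G x i) * G x j * (G y i * (starRingEnd ℂ) (G y j)) := by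
            refine Finset.sum_congr rfl fun i _ => Finset.sum_comm
        _ = ∑ x ∈ X, ∑ i, ∑ j, ∑ y ∈ X,
            (starRingEnd ℂ) (G x i) * G x j * (G y i * (starRingEnd ℂ) (G y j)) := Finset.sum_comm
        _ = ∑ x ∈ X, ∑ i, ∑ y ∈ X, ∑ j,
            (starRingEnd ℂ) (G x i) * G x j * (G y i * (starRingEnd ℂ) (G y j)) := by
            refine Finset.sum_congr rfl fun x _ => Finset.sum_congr rfl fun i _ => Finset.sum_comm
        _ = ∑ x ∈ X, ∑ y ∈ X, ∑ i, ∑ j,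
            (starRingEnd ℂ) (G x i) * G x j * (G y i * (starRingEnd ℂ) (G y j)) := by
            refine Finset.sum_congr rfl fun x _ => Finset.sum_comm
    exact_mod_cast h1
  calc (∑ x ∈ X, ‖g x‖ ^ 2) ^ 2 = (∑ i, ∑ x ∈ X, ‖G x i‖ ^ 2) ^ 2 := by
        rw [Finset.sum_comm]; simp only [hGn]
    _ ≤ (Finset.univ : Finset (Fin (Module.finrank ℂ W))).card * ∑ i, (∑ x ∈ X, ‖G x i‖ ^ 2) ^ 2 :=
        sq_sum_le_card_mul_sum_sq
    _ ≤ n * ∑ i, (∑ x ∈ X, ‖G x i‖ ^ 2) ^ 2 := by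
        gcongr
        simpa using hn
    _ ≤ n * ∑ i, ∑ j, ‖K i j‖ ^ 2 := by
        refine mul_le_mul_of_nonneg_left (Finset.sum_le_sum fun i _ => ?_) (by positivity)
        have h1 : (∑ x ∈ X, ‖G x i‖ ^ 2) ^ 2 = ‖K i i‖ ^ 2 := by
          rw [hKii, Complex.norm_real, Real.norm_eq_abs, sq_abs]
        rw [h1]
        exact Finset.single_le_sum (f := fun j => ‖K i j‖ ^ 2) (fun j _ => by positivity)
          (Finset.mem_univ i)
    _ = n * ∑ x ∈ X, ∑ y ∈ X, ‖⟪g x, g y⟫_ℂ‖ ^ 2 := by rw [hid]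

theorem tendsto_inner_of_close {g h g' h' : ℕ → V} {M : ℂ} {a b : ℝ}
    (hM : Tendsto (fun k => ⟪g k, h k⟫_ℂ) atTop (𝓝 M))
    (ha : Tendsto (fun k => ‖g k‖) atTop (𝓝 a)) (hb : Tendsto (fun k => ‖h k‖) atTop (𝓝 b))
    (hg : Tendsto (fun k => g k - g' k) atTop (𝓝 0))
    (hh : Tendsto (fun k => h k - h' k) atTop (𝓝 0)) :
    Tendsto (fun k => ⟪g' k, h' k⟫_ℂ) atTop (𝓝 M) := by
  have e : ∀ k, ⟪g' k, h' k⟫_ℂ = ⟪g k, h k⟫_ℂ - ⟪g k, h k - h' k⟫_ℂ - ⟪g k - g' k, h k⟫_ℂ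
      + ⟪g k - g' k, h k - h' k⟫_ℂ := by
    intro k
    simp only [inner_sub_left, inner_sub_right]
    ring
  have n1 : Tendsto (fun k => ⟪g k, h k - h' k⟫_ℂ) atTop (𝓝 0) := by
    refine squeeze_zero_norm (fun k => norm_inner_le_norm _ _) ?_
    have := ha.mul hh.norm
    simpa using this
  have n2 : Tendsto (fun k => ⟪g k - g' k, h k⟫_ℂ) atTop (𝓝 0) := by
    refine squeeze_zero_norm (fun k => norm_inner_le_norm _ _) ?_
    have := hg.norm.mul hb
    simpa using this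
  have n3 : Tendsto (fun k => ⟪g k - g' k, h k - h' k⟫_ℂ) atTop (𝓝 0) := by
    refine squeeze_zero_norm (fun k => norm_inner_le_norm _ _) ?_
    have := hg.norm.mul hh.norm
    simpa using this
  have := ((hM.sub n1).sub n2).add n3
  simp only [sub_zero, add_zero] at this
  exact this.congr fun k => (e k).symm

theorem tendsto_norm_of_inner {g : ℕ → V} {M : ℂ}
    (hM : Tendsto (fun k => ⟪g k, g k⟫_ℂ) atTop (𝓝 M)) :
    Tendsto (fun k => ‖g k‖) atTop (𝓝 (√M.re)) := by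
  have h1 : Tendsto (fun k => √((⟪g k, g k⟫_ℂ).re)) atTop (𝓝 (√M.re)) :=
    (Real.continuous_sqrt.tendsto _).comp ((Complex.continuous_re.tendsto _).comp hM)
  refine h1.congr fun k => ?_
  rw [inner_self_eq_norm_sq_to_K]
  have : (((‖g k‖ : ℝ) : ℂ) ^ 2).re = ‖g k‖ ^ 2 := by
    rw [← Complex.ofReal_pow, Complex.ofReal_re]
  have h2 : ((RCLike.ofReal ‖g k‖ : ℂ) ^ 2).re = ‖g k‖ ^ 2 := this
  rw [h2, Real.sqrt_sq (norm_nonneg _)]

theorem rank_limit {ι : Type*} (X : Finset ι) {n : ℕ} (W : ℕ → Submodule ℂ V)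
    [∀ k, FiniteDimensional ℂ (W k)] (hn : ∀ k, Module.finrank ℂ (W k) ≤ n)
    {g b : ℕ → ι → V} (hb : ∀ k x, b k x ∈ W k)
    (hgb : ∀ x, Tendsto (fun k => g k x - b k x) atTop (𝓝 0)) {M : ι → ι → ℂ}
    (hM : ∀ x y, Tendsto (fun k => ⟪g k x, g k y⟫_ℂ) atTop (𝓝 (M x y))) (d : ι → ℝ) :
    (∑ x ∈ X, d x ^ 2 * (M x x).re) ^ 2
      ≤ n * ∑ x ∈ X, ∑ y ∈ X, ‖((d x * d y : ℝ) : ℂ) * M x y‖ ^ 2 := by
  have hN : ∀ x, Tendsto (fun k => ‖g k x‖) atTop (𝓝 (√(M x x).re)) := fun x =>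
    tendsto_norm_of_inner (hM x x)
  have hB : ∀ x y, Tendsto (fun k => ⟪b k x, b k y⟫_ℂ) atTop (𝓝 (M x y)) := fun x y =>
    tendsto_inner_of_close (hM x y) (hN x) (hN y) (hgb x) (hgb y)
  have hL : Tendsto (fun k => (∑ x ∈ X, d x ^ 2 * (⟪b k x, b k x⟫_ℂ).re) ^ 2) atTop
      (𝓝 ((∑ x ∈ X, d x ^ 2 * (M x x).re) ^ 2)) := by
    refine Tendsto.pow (tendsto_finsetSum _ fun x _ => ?_) 2
    exact ((Complex.continuous_re.tendsto _).comp (hB x x)).const_mul _
  have hR : Tendsto (fun k => (n : ℝ) * ∑ x ∈ X, ∑ y ∈ X, ‖((d x * d y : ℝ) : ℂ) * ⟪b k x, b k y⟫_ℂ‖ ^ 2)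
      atTop (𝓝 (n * ∑ x ∈ X, ∑ y ∈ X, ‖((d x * d y : ℝ) : ℂ) * M x y‖ ^ 2)) := by
    refine Tendsto.const_mul _ (tendsto_finsetSum _ fun x _ => tendsto_finsetSum _ fun y _ => ?_)
    exact ((hB x y).const_mul _).norm.pow 2
  refine le_of_tendsto_of_tendsto' hL hR fun k => ?_
  have h := gram_ineq X (W k) (hn k) (fun x => ((d x : ℝ) : ℂ) • b k x)
    (fun x => (W k).smul_mem _ (hb k x))
  have e1 : ∀ x, ‖((d x : ℝ) : ℂ) • b k x‖ ^ 2 = d x ^ 2 * (⟪b k x, b k x⟫_ℂ).re := by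
    intro x
    rw [norm_smul, mul_pow, Complex.norm_real, Real.norm_eq_abs, sq_abs]
    congr 1
    rw [inner_self_eq_norm_sq_to_K]
    have : (((‖b k x‖ : ℝ) : ℂ) ^ 2).re = ‖b k x‖ ^ 2 := by
      rw [← Complex.ofReal_pow, Complex.ofReal_re]
    exact this.symm
  have e2 : ∀ x y, ⟪((d x : ℝ) : ℂ) • b k x, ((d y : ℝ) : ℂ) • b k y⟫_ℂ
      = ((d x * d y : ℝ) : ℂ) * ⟪b k x, b k y⟫_ℂ := by
    intro x y
    rw [inner_smul_left, inner_smul_right, Complex.conj_ofReal]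
    push_cast
    ring
  simp only [e1, e2] at h
  exact h

end

/-! ### Boundary values of the resolvent norms -/

section

variable {V : Type*} [NormedAddCommGroup V] [InnerProductSpace ℂ V] [CompleteSpace V]

/-- the matrix `Im z ⟪R(z)u, R(z)v⟫` along the curve -/
noncomputable def MM (H : V →L[ℂ] V) (t E : ℝ) (u v : V) : ℂ :=
  ((Zt t E).im : ℂ) * ⟪Rv H (Zt t E) u, Rv H (Zt t E) v⟫_ℂ

/-- `u` has an absolutely continuous spectral measure carried by `S` -/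
def ACOn (H : V →L[ℂ] V) (S : Set ℝ) (u : V) : Prop :=
  ∃ μ : Measure ℝ, IsFiniteMeasure μ ∧ IsSpec H u μ ∧ μ ≪ volume ∧ μ Sᶜ = 0

/-- the normalised matrix -/
noncomputable def nrm {Λ : Type*} (M : Λ → Λ → ℂ) (x y : Λ) : ℂ :=
  M x y / (√(1 + (M x x).re) * √(1 + (M y y).re))

/-- a chosen spectral measure -/
noncomputable def sm {H : V →L[ℂ] V} (hH : IsSelfAdjoint H) (u : V) : Measure ℝ :=
  (exists_isSpec hH u).choose

instance sm_finite {H : V →L[ℂ] V} (hH : IsSelfAdjoint H) (u : V) : IsFiniteMeasure (sm hH u) :=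
  (exists_isSpec hH u).choose_spec.1

theorem sm_spec {H : V →L[ℂ] V} (hH : IsSelfAdjoint H) (u : V) : IsSpec H u (sm hH u) :=
  (exists_isSpec hH u).choose_spec.2

/-- `Im z ‖R(z)u‖²` along the curve -/
noncomputable def Abd (H : V →L[ℂ] V) (t E : ℝ) (u : V) : ℝ :=
  (Zt t E).im * ‖Rv H (Zt t E) u‖ ^ 2

/-- the boundary value of `Abd` -/
noncomputable def DD {H : V →L[ℂ] V} (hH : IsSelfAdjoint H) (u : V) (E : ℝ) : ℝ :=
  Dens (sm hH u) E

omit [CompleteSpace V] in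
theorem MM_self (H : V →L[ℂ] V) (t E : ℝ) (u : V) : MM H t E u u = ((Abd H t E u : ℝ) : ℂ) := by
  unfold MM Abd
  rw [inner_self_eq_norm_sq_to_K]
  push_cast
  rfl

theorem Abd_eq {H : V →L[ℂ] V} (hH : IsSelfAdjoint H) {t : ℝ} (ht : 0 < t) (E : ℝ) (u : V) :
    Abd H t E u = Pois (sm hH u) (Zt t E) :=
  ((sm_spec hH u).pois hH (Zt_im_pos ht E)).symm

theorem measurable_DD {H : V →L[ℂ] V} (hH : IsSelfAdjoint H) (u : V) : Measurable (DD hH u) :=
  measurable_Dens _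

theorem DD_nonneg {H : V →L[ℂ] V} (hH : IsSelfAdjoint H) (u : V) (E : ℝ) : 0 ≤ DD hH u E :=
  Dens_nonneg _ _

theorem integrable_rn (μ : Measure ℝ) [IsFiniteMeasure μ] :
    Integrable (fun E => (μ.rnDeriv volume E).toReal) volume := by
  have := Measure.integrable_toReal_rnDeriv (μ := μ) (ν := (volume : Measure ℝ))
  exact this

theorem integrable_Dens (μ : Measure ℝ) [IsFiniteMeasure μ] : Integrable (Dens μ) kap :=
  (integrable_kap_of_integrable (integrable_rn μ)).const_mul _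

theorem integral_Dens_le (μ : Measure ℝ) [IsFiniteMeasure μ] :
    ∫ E, Dens μ E ∂kap ≤ μ.real univ := by
  have h1 : ∫ E, Dens μ E ∂kap = Real.pi * ∫ E, (μ.rnDeriv volume E).toReal ∂kap :=
    integral_const_mul _ _
  rw [h1]
  refine (integral_kap_le (integrable_rn μ) (fun x => ENNReal.toReal_nonneg)).trans ?_
  have h2 : ∫ E, (μ.rnDeriv volume E).toReal = (∫⁻ E, μ.rnDeriv volume E).toReal :=
    integral_toReal (Measure.measurable_rnDeriv _ _).aemeasurable (Measure.rnDeriv_lt_top _ _)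
  rw [h2]
  exact ENNReal.toReal_mono (measure_ne_top μ univ) (Measure.lintegral_rnDeriv_le)

theorem integral_DD_le {H : V →L[ℂ] V} (hH : IsSelfAdjoint H) (u : V) :
    ∫ E, DD hH u E ∂kap ≤ ‖u‖ ^ 2 := by
  rw [← (sm_spec hH u).mass hH]
  exact integral_Dens_le _

theorem integrable_DD {H : V →L[ℂ] V} (hH : IsSelfAdjoint H) (u : V) :
    Integrable (DD hH u) kap := integrable_Dens _

theorem tendsto_within {t : ℕ → ℝ} (ht : ∀ k, 0 < t k) (ht0 : Tendsto t atTop (𝓝 0)) :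
    Tendsto t atTop (𝓝[>] 0) :=
  tendsto_nhdsWithin_iff.mpr ⟨ht0, Eventually.of_forall ht⟩

/-- for countably many vectors, a common subsequence along which `Abd → DD` a.e. -/
theorem common_Abd {H : V →L[ℂ] V} (hH : IsSelfAdjoint H) {t : ℕ → ℝ} (ht : ∀ k, 0 < t k)
    (ht0 : Tendsto t atTop (𝓝 0)) {ι : Type*} [Countable ι] (u : ι → V) :
    ∃ φ : ℕ → ℕ, StrictMono φ ∧ ∀ᵐ E ∂kap, ∀ i,
      Tendsto (fun k => Abd H (t (φ k)) E (u i)) atTop (𝓝 (DD hH (u i) E)) := by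
  obtain ⟨φ, hφ, h⟩ := common_subseq (ι := ι)
    (F := fun i k E => |Pois (sm hH (u i)) (Zt (t k) E) - Dens (sm hH (u i)) E|)
    (fun i k => ((measurable_Pois _ _).sub (measurable_Dens _)).abs)
    (fun i k x => abs_nonneg _)
    (fun i => (pois_tendsto (sm hH (u i))).comp (tendsto_within ht ht0))
  refine ⟨φ, hφ, ?_⟩
  filter_upwards [h] with E hE i
  have h1 := hE i
  rw [tendsto_iff_norm_sub_tendsto_zero]
  refine h1.congr fun k => ?_
  rw [Abd_eq hH (ht _)]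
  rfl

omit [CompleteSpace V] in
theorem Abd_add_le (H : V →L[ℂ] V) {t : ℝ} (ht : 0 < t) (E : ℝ) (u v : V) :
    Abd H t E (u + v) ≤ 2 * Abd H t E u + 2 * Abd H t E v := by
  unfold Abd
  have hz := Zt_im_pos ht E
  rw [map_add]
  set a := Rv H (Zt t E) u
  set b := Rv H (Zt t E) v
  have h1 : ‖a + b‖ ^ 2 ≤ 2 * ‖a‖ ^ 2 + 2 * ‖b‖ ^ 2 := by
    have := norm_add_le a b
    have h2 : ‖a + b‖ ^ 2 ≤ (‖a‖ + ‖b‖) ^ 2 := by gcongr
    nlinarith [sq_nonneg (‖a‖ - ‖b‖)]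
  nlinarith

omit [CompleteSpace V] in
theorem Abd_smul (H : V →L[ℂ] V) (t E : ℝ) (c : ℂ) (u : V) :
    Abd H t E (c • u) = ‖c‖ ^ 2 * Abd H t E u := by
  unfold Abd
  rw [map_smul, norm_smul, mul_pow]
  ring

theorem exists_seq : ∃ t : ℕ → ℝ, (∀ k, 0 < t k) ∧ Tendsto t atTop (𝓝 0) :=
  ⟨fun k => 1 / ((k:ℝ) + 1), fun k => by positivity, tendsto_one_div_add_atTop_nhds_zero_nat⟩

theorem DD_add_le {H : V →L[ℂ] V} (hH : IsSelfAdjoint H) (u v : V) :
    ∀ᵐ E ∂kap, DD hH (u + v) E ≤ 2 * DD hH u E + 2 * DD hH v E := by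
  obtain ⟨t, ht, ht0⟩ := exists_seq
  obtain ⟨φ, -, h⟩ := common_Abd hH ht ht0 (ι := Fin 3) ![u + v, u, v]
  filter_upwards [h] with E hE
  have h0 := hE 0
  have h1 := hE 1
  have h2 := hE 2
  simp only [Matrix.cons_val_zero, Matrix.cons_val_one, Matrix.cons_val] at h0 h1 h2
  exact le_of_tendsto_of_tendsto' h0 ((h1.const_mul 2).add (h2.const_mul 2))
    (fun k => Abd_add_le H (ht _) E u v)

theorem DD_smul {H : V →L[ℂ] V} (hH : IsSelfAdjoint H) (c : ℂ) (u : V) :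
    ∀ᵐ E ∂kap, DD hH (c • u) E = ‖c‖ ^ 2 * DD hH u E := by
  obtain ⟨t, ht, ht0⟩ := exists_seq
  obtain ⟨φ, -, h⟩ := common_Abd hH ht ht0 (ι := Fin 2) ![c • u, u]
  filter_upwards [h] with E hE
  have h0 := hE 0
  have h1 := hE 1
  simp only [Matrix.cons_val_zero, Matrix.cons_val_one] at h0 h1
  refine tendsto_nhds_unique h0 ?_
  refine (h1.const_mul (‖c‖ ^ 2)).congr fun k => ?_
  rw [Abd_smul]

/-- the closed subspace of vectors whose density vanishes a.e. on `S` -/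
theorem DD_zero_of_total {H : V →L[ℂ] V} (hH : IsSelfAdjoint H) {S : Set ℝ}
    (hS : MeasurableSet S) {Λ : Type*} {e : Λ → V}
    (tot : ∀ u, (∀ x, ⟪e x, u⟫_ℂ = 0) → u = 0)
    (h0 : ∀ x, ∀ᵐ E ∂kap, E ∈ S → DD hH (e x) E = 0) (u : V) :
    ∀ᵐ E ∂kap, E ∈ S → DD hH u E = 0 := by
  have hspan : ∀ w ∈ Submodule.span ℂ (Set.range e), ∀ᵐ E ∂kap, E ∈ S → DD hH w E = 0 := by
    intro w hw
    induction hw using Submodule.span_induction with
    | mem w hw =>
      obtain ⟨x, rfl⟩ := hw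
      exact h0 x
    | zero =>
      filter_upwards [DD_smul hH (0:ℂ) (0:V)] with E hE _
      rw [zero_smul] at hE
      rw [hE]; simp
    | add a b _ _ ha hb =>
      filter_upwards [DD_add_le hH a b, ha, hb] with E hE h1 h2 hES
      rw [h1 hES, h2 hES] at hE
      exact le_antisymm (by linarith) (DD_nonneg _ _ _)
    | smul c a _ ha =>
      filter_upwards [DD_smul hH c a, ha] with E hE h1 hES
      rw [hE, h1 hES, mul_zero]
  have hdense : (Submodule.span ℂ (Set.range e)).topologicalClosure = ⊤ := by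
    rw [Submodule.topologicalClosure_eq_top_iff, Submodule.eq_bot_iff]
    intro v hv
    apply tot
    intro x
    exact (Submodule.mem_orthogonal _ _).mp hv (e x) (Submodule.subset_span ⟨x, rfl⟩)
  have hint : ∫ E in S, DD hH u E ∂kap = 0 := by
    refine le_antisymm ?_ (integral_nonneg fun E => DD_nonneg _ _ _)
    refine le_of_forall_pos_le_add fun ε hε => ?_
    rw [zero_add]
    have hu : u ∈ closure ((Submodule.span ℂ (Set.range e) : Submodule ℂ V) : Set V) := by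
      rw [← Submodule.topologicalClosure_coe, hdense]
      trivial
    obtain ⟨w, hw, hd⟩ := Metric.mem_closure_iff.mp hu (√(ε / 2)) (by positivity)
    have hle : ∀ᵐ E ∂(kap.restrict S), DD hH u E ≤ 2 * DD hH (u - w) E := by
      rw [ae_restrict_iff' hS]
      filter_upwards [DD_add_le hH w (u - w), hspan w hw] with E h1 h2 hES
      rw [add_sub_cancel, h2 hES] at h1
      linarith
    calc ∫ E in S, DD hH u E ∂kap ≤ ∫ E in S, 2 * DD hH (u - w) E ∂kap :=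
          integral_mono_ae (integrable_DD hH u).restrict
            ((integrable_DD hH (u - w)).restrict.const_mul 2) hle
      _ = 2 * ∫ E in S, DD hH (u - w) E ∂kap := integral_const_mul _ _
      _ ≤ 2 * ∫ E, DD hH (u - w) E ∂kap := by
          refine mul_le_mul_of_nonneg_left ?_ zero_le_two
          exact setIntegral_le_integral (integrable_DD hH _) (ae_of_all _ fun E => DD_nonneg _ _ _)
      _ ≤ 2 * ‖u - w‖ ^ 2 := by
          refine mul_le_mul_of_nonneg_left (integral_DD_le hH _) zero_le_two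
      _ ≤ 2 * (√(ε / 2)) ^ 2 := by
          rw [dist_eq_norm] at hd
          gcongr
      _ = ε := by rw [Real.sq_sqrt (by positivity)]; ring
  have h3 := (setIntegral_eq_zero_iff_of_nonneg_ae (ae_of_all _ fun E => DD_nonneg hH u E)
    (integrable_DD hH u).integrableOn).mp hint
  rw [EventuallyEq, ae_restrict_iff' hS] at h3
  exact h3

/-- a vector which is `ACOn H S` and whose density vanishes a.e. on `S` is zero -/
theorem eq_zero_of_ACOn {H : V →L[ℂ] V} (hH : IsSelfAdjoint H) {S : Set ℝ}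
    (hS : MeasurableSet S) {u : V} (hu : ACOn H S u) (h0 : ∀ᵐ E ∂kap, E ∈ S → DD hH u E = 0) : u = 0 := by
  obtain ⟨μ, hfin, hspec, hac, hSc⟩ := hu
  have hμ : sm hH u = μ := (sm_spec hH u).unique hspec
  have h1 : ∀ᵐ E, E ∈ S → μ.rnDeriv volume E = 0 := by
    have h2 : ∀ᵐ E, E ∈ S → DD hH u E = 0 := ac_kap.ae_le h0
    filter_upwards [h2, Measure.rnDeriv_lt_top μ volume] with E hE hlt hES
    have h3 := hE hES
    unfold DD Dens at h3
    rw [hμ] at h3
    have h4 : (μ.rnDeriv volume E).toReal = 0 := by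
      rcases mul_eq_zero.mp h3 with h | h
      · exact absurd h Real.pi_ne_zero
      · exact h
    rcases (ENNReal.toReal_eq_zero_iff _).mp h4 with h | h
    · exact h
    · exact absurd h hlt.ne
  have hw := Measure.withDensity_rnDeriv_eq μ volume hac
  have hμS : μ S = 0 := by
    rw [← hw, withDensity_apply _ hS]
    rw [setLIntegral_congr_fun_ae hS (g := fun _ => 0) h1]
    simp
  have hμ0 : μ univ = 0 := by
    have : (univ : Set ℝ) = S ∪ Sᶜ := by simp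
    rw [this]
    exact measure_union_null hμS hSc
  have hm := hspec.mass hH
  rw [Measure.real, hμ0, ENNReal.toReal_zero] at hm
  have : ‖u‖ = 0 := by
    rcases pow_eq_zero_iff (two_ne_zero) |>.mp hm.symm with h
    exact h
  exact norm_eq_zero.mp this

/-! ### Vectors in the cyclic span -/

theorem span_bound {H : V →L[ℂ] V} (hH : IsSelfAdjoint H) {n : ℕ} (ψ : Fin n → V) {w : V}
    (hw : w ∈ Submodule.span ℂ (Set.range fun p : ℕ × Fin n => (H ^ p.1) (ψ p.2))) {B : ℝ}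
    (hB : 0 ≤ B) :
    ∃ C, 0 ≤ C ∧ ∀ Z : ℂ, 0 < Z.im → ‖Z‖ ≤ B →
      ∃ b ∈ Submodule.span ℂ (Set.range fun i => Rv H Z (ψ i)), ‖Rv H Z w - b‖ ≤ C := by
  induction hw using Submodule.span_induction with
  | mem w hw =>
    obtain ⟨⟨j, i⟩, rfl⟩ := hw
    simp only
    induction j with
    | zero =>
      refine ⟨0, le_refl _, fun Z _ _ => ⟨Rv H Z (ψ i), Submodule.subset_span ⟨i, rfl⟩, ?_⟩⟩
      simp
    | succ j ih =>
      obtain ⟨C, hC, h⟩ := ih
      refine ⟨‖(H ^ j) (ψ i)‖ + B * C, by positivity, fun Z hZ hZB => ?_⟩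
      obtain ⟨b, hb, hbC⟩ := h Z hZ hZB
      refine ⟨Z • b, Submodule.smul_mem _ _ hb, ?_⟩
      have e1 : (H ^ (j + 1)) (ψ i) = H ((H ^ j) (ψ i)) := by
        rw [pow_succ']; rfl
      rw [e1, Rv_H_apply hH hZ.ne']
      have e2 : (H ^ j) (ψ i) + Z • Rv H Z ((H ^ j) (ψ i)) - Z • b
          = (H ^ j) (ψ i) + Z • (Rv H Z ((H ^ j) (ψ i)) - b) := by
        rw [smul_sub]; abel
      rw [e2]
      refine (norm_add_le _ _).trans ?_
      rw [norm_smul]
      gcongr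
  | zero =>
    refine ⟨0, le_refl _, fun Z _ _ => ⟨0, Submodule.zero_mem _, ?_⟩⟩
    simp
  | add x y _ _ hx hy =>
    obtain ⟨C, hC, h⟩ := hx
    obtain ⟨C', hC', h'⟩ := hy
    refine ⟨C + C', by positivity, fun Z hZ hZB => ?_⟩
    obtain ⟨b, hb, hbC⟩ := h Z hZ hZB
    obtain ⟨b', hb', hbC'⟩ := h' Z hZ hZB
    refine ⟨b + b', Submodule.add_mem _ hb hb', ?_⟩
    rw [map_add, add_sub_add_comm]
    exact (norm_add_le _ _).trans (add_le_add hbC hbC')
  | smul c x _ hx =>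
    obtain ⟨C, hC, h⟩ := hx
    refine ⟨‖c‖ * C, by positivity, fun Z hZ hZB => ?_⟩
    obtain ⟨b, hb, hbC⟩ := h Z hZ hZB
    refine ⟨c • b, Submodule.smul_mem _ _ hb, ?_⟩
    rw [map_smul, ← smul_sub, norm_smul]
    gcongr

omit [CompleteSpace V] in
theorem finrank_W {n : ℕ} (f : Fin n → V) :
    Module.finrank ℂ (Submodule.span ℂ (Set.range f)) ≤ n := by
  have := finrank_range_le_card (R := ℂ) f
  simpa [Set.finrank] using this

omit [CompleteSpace V] in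
theorem norm_sqrt_smul {r : ℝ} (hr : 0 ≤ r) (a : V) :
    ‖((√r : ℝ) : ℂ) • a‖ = √(r * ‖a‖ ^ 2) := by
  rw [norm_smul, Complex.norm_real, Real.norm_eq_abs, abs_of_nonneg (Real.sqrt_nonneg _),
    Real.sqrt_mul hr, Real.sqrt_sq (norm_nonneg _)]

theorem exists_near {H : V →L[ℂ] V} (hH : IsSelfAdjoint H) {n : ℕ} (ψ : Fin n → V)
    {Z : ℕ → ℂ} (hZ : ∀ k, 0 < (Z k).im) {B : ℝ} (hB : ∀ k, ‖Z k‖ ≤ B)
    (hZ0 : Tendsto (fun k => (Z k).im) atTop (𝓝 0)) {e r v : V} (her : e = v + r)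
    {w : ℕ → V}
    (hw : ∀ j, w j ∈ Submodule.span ℂ (Set.range fun p : ℕ × Fin n => (H ^ p.1) (ψ p.2)))
    (hr : Tendsto (fun k => (Z k).im * ‖Rv H (Z k) r‖ ^ 2) atTop (𝓝 0)) {D : ℕ → ℝ}
    (hD : ∀ j, Tendsto (fun k => (Z k).im * ‖Rv H (Z k) (v - w j)‖ ^ 2) atTop (𝓝 (D j)))
    (hD0 : Tendsto D atTop (𝓝 0)) :
    ∃ b : ℕ → V, (∀ k, b k ∈ Submodule.span ℂ (Set.range fun i => Rv H (Z k) (ψ i))) ∧
      Tendsto (fun k => ((√(Z k).im : ℝ) : ℂ) • Rv H (Z k) e - b k) atTop (𝓝 0) := by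
  have hB0 : 0 ≤ B := (norm_nonneg _).trans (hB 0)
  let W : ℕ → Submodule ℂ V := fun k => Submodule.span ℂ (Set.range fun i => Rv H (Z k) (ψ i))
  let g : ℕ → V := fun k => ((√(Z k).im : ℝ) : ℂ) • Rv H (Z k) e
  have hfd : ∀ k, FiniteDimensional ℂ (W k) := fun k =>
    FiniteDimensional.span_of_finite ℂ (Set.finite_range _)
  have hop : ∀ k, (W k).HasOrthogonalProjection := fun k => inferInstance
  have hmin : ∀ k, ∀ b ∈ W k, ‖g k - (W k).starProjection (g k)‖ ≤ ‖g k - b‖ := by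
    intro k b hb
    rw [Submodule.starProjection_minimal]
    exact ciInf_le ⟨0, by rintro _ ⟨x, rfl⟩; exact norm_nonneg _⟩ (⟨b, hb⟩ : W k)
  refine ⟨fun k => (W k).starProjection (g k), fun k => Submodule.starProjection_apply_mem _ _, ?_⟩
  rw [tendsto_zero_iff_norm_tendsto_zero, tendsto_order]
  refine ⟨fun a ha => Eventually.of_forall fun k => lt_of_lt_of_le ha (norm_nonneg _), ?_⟩
  intro ε hε
  have hε3 : 0 < ε / 3 := by positivity
  have hsq : 0 < (ε / 3) ^ 2 := by positivity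
  obtain ⟨j, hj⟩ := (hD0.eventually_lt_const hsq).exists
  obtain ⟨C, hC, hCb⟩ := span_bound hH ψ (hw j) hB0
  have h1 : ∀ᶠ k in atTop, (Z k).im * ‖Rv H (Z k) r‖ ^ 2 < (ε / 3) ^ 2 := hr.eventually_lt_const hsq
  have h2 : ∀ᶠ k in atTop, (Z k).im * ‖Rv H (Z k) (v - w j)‖ ^ 2 < (ε / 3) ^ 2 :=
    (hD j).eventually_lt_const hj
  have h3 : ∀ᶠ k in atTop, (Z k).im * C ^ 2 < (ε / 3) ^ 2 := by
    have : Tendsto (fun k => (Z k).im * C ^ 2) atTop (𝓝 (0 * C ^ 2)) := hZ0.mul_const _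
    rw [zero_mul] at this
    exact this.eventually_lt_const hsq
  filter_upwards [h1, h2, h3] with k k1 k2 k3
  obtain ⟨b, hb, hbC⟩ := hCb (Z k) (hZ k) (hB k)
  refine lt_of_le_of_lt (hmin k (((√(Z k).im : ℝ) : ℂ) • b) ((W k).smul_mem _ hb)) ?_
  have e1 : g k - ((√(Z k).im : ℝ) : ℂ) • b = ((√(Z k).im : ℝ) : ℂ) • Rv H (Z k) r
      + ((√(Z k).im : ℝ) : ℂ) • Rv H (Z k) (v - w j)
      + ((√(Z k).im : ℝ) : ℂ) • (Rv H (Z k) (w j) - b) := by
    simp only [g]
    rw [her, map_add, map_sub, ← smul_add, ← smul_add, ← smul_sub]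
    congr 1
    abel
  rw [e1]
  have n1 : ‖((√(Z k).im : ℝ) : ℂ) • Rv H (Z k) r‖ < ε / 3 := by
    rw [norm_sqrt_smul (hZ k).le]
    exact (Real.sqrt_lt_sqrt (by have := hZ k; positivity) k1).trans_eq (Real.sqrt_sq hε3.le)
  have n2 : ‖((√(Z k).im : ℝ) : ℂ) • Rv H (Z k) (v - w j)‖ < ε / 3 := by
    rw [norm_sqrt_smul (hZ k).le]
    exact (Real.sqrt_lt_sqrt (by have := hZ k; positivity) k2).trans_eq (Real.sqrt_sq hε3.le)
  have n3 : ‖((√(Z k).im : ℝ) : ℂ) • (Rv H (Z k) (w j) - b)‖ < ε / 3 := by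
    rw [norm_sqrt_smul (hZ k).le]
    refine lt_of_le_of_lt (Real.sqrt_le_sqrt ?_)
      ((Real.sqrt_lt_sqrt (by have := hZ k; positivity) k3).trans_eq (Real.sqrt_sq hε3.le))
    have := hZ k
    gcongr
  calc ‖((√(Z k).im : ℝ) : ℂ) • Rv H (Z k) r + ((√(Z k).im : ℝ) : ℂ) • Rv H (Z k) (v - w j)
      + ((√(Z k).im : ℝ) : ℂ) • (Rv H (Z k) (w j) - b)‖
      ≤ ‖((√(Z k).im : ℝ) : ℂ) • Rv H (Z k) r‖ + ‖((√(Z k).im : ℝ) : ℂ) • Rv H (Z k) (v - w j)‖
        + ‖((√(Z k).im : ℝ) : ℂ) • (Rv H (Z k) (w j) - b)‖ := norm_add₃_le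
    _ < ε / 3 + ε / 3 + ε / 3 := by linarith
    _ = ε := by ring

theorem Dens_restrict (μ : Measure ℝ) [IsFiniteMeasure μ] {T : Set ℝ} (hT : MeasurableSet T) :
    ∀ᵐ E ∂kap, E ∉ T → Dens (μ.restrict T) E = 0 := by
  have h1 := Measure.rnDeriv_restrict μ (volume : Measure ℝ) hT
  filter_upwards [kap_ac.ae_le h1] with E hE hET
  unfold Dens
  rw [hE, Set.indicator_of_notMem hET]
  simp

/-- splitting a vector into a part that is `ACOn H S` and a rest whose density vanishes on `S`. -/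
theorem exists_split {H : V →L[ℂ] V} (hH : IsSelfAdjoint H) {S : Set ℝ} (hS : MeasurableSet S)
    (e : V) : ∃ v, ACOn H S v ∧ ∀ᵐ E ∂kap, E ∈ S → DD hH (e - v) E = 0 := by
  set μ := sm hH e with hμ
  obtain ⟨N, hNm, hN1, hN2⟩ := Measure.mutuallySingular_singularPart μ (volume : Measure ℝ)
  have hT : MeasurableSet (S ∩ N) := hS.inter hNm
  obtain ⟨v, hv1, hv2⟩ := exists_proj hH (sm_spec hH e) hT
  refine ⟨v, ⟨μ.restrict (S ∩ N), inferInstance, hv1, ?_, ?_⟩, ?_⟩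
  · have h1 : μ.restrict (S ∩ N)
        = (volume.withDensity (μ.rnDeriv volume)).restrict (S ∩ N) := by
      conv_lhs => rw [μ.haveLebesgueDecomposition_add volume]
      rw [Measure.restrict_add]
      have h2 : (μ.singularPart volume).restrict (S ∩ N) = 0 := by
        rw [Measure.restrict_eq_zero]
        exact measure_mono_null inter_subset_right hN1
      rw [h2, zero_add]
    rw [h1]
    exact Measure.restrict_le_self.absolutelyContinuous.trans
      (withDensity_absolutelyContinuous _ _)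
  · rw [Measure.restrict_apply hS.compl]
    have : Sᶜ ∩ (S ∩ N) = ∅ := by
      ext x; simp; tauto
    rw [this, measure_empty]
  · have h3 : sm hH (e - v) = μ.restrict (S ∩ N)ᶜ := (sm_spec hH (e - v)).unique hv2
    have hN : ∀ᵐ E ∂kap, E ∈ N := kap_ac.ae_le (mem_ae_iff.mpr hN2)
    filter_upwards [Dens_restrict μ hT.compl, hN] with E hE hEN hES
    unfold DD
    rw [h3]
    exact hE (fun h => h ⟨hES, hEN⟩)

theorem det {Λ : Type*} [Countable Λ] {H : V →L[ℂ] V} {e : Λ → V}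
    (tot : ∀ u, (∀ x, ⟪e x, u⟫_ℂ = 0) → u = 0) (hH : IsSelfAdjoint H)
    {t : ℕ → ℝ} (ht : ∀ k, 0 < t k ∧ t k < 1) (ht0 : Tendsto t atTop (𝓝 0))
    {M : ℝ → Λ → Λ → ℂ}
    (hM : ∀ᵐ E ∂kap, ∀ x y, Tendsto (fun k => MM H (t k) E (e x) (e y)) atTop (𝓝 (M E x y)))
    (hP : ∀ᵐ E ∂kap, ∀ n : ℕ, (∀ X : Finset Λ, (∑ x ∈ X, (nrm (M E) x x).re) ^ 2
      ≤ n * ∑ x ∈ X, ∑ y ∈ X, ‖nrm (M E) x y‖ ^ 2) → ∀ x, M E x x = 0)
    {S : Set ℝ} (hS : MeasurableSet S) {n : ℕ} (ψ : Fin n → V)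
    (h : ∀ u, ACOn H S u → u ∈ closure
      (Submodule.span ℂ (Set.range fun p : ℕ × Fin n => (H ^ p.1) (ψ p.2)) : Set V)) :
    ∀ u, ACOn H S u → u = 0 := by
  choose v hvAC hvD using fun x => exists_split hH hS (e x)
  have hw : ∀ x, ∃ w : ℕ → V,
      (∀ j, w j ∈ Submodule.span ℂ (Set.range fun p : ℕ × Fin n => (H ^ p.1) (ψ p.2))) ∧
      Tendsto w atTop (𝓝 (v x)) := fun x => mem_closure_iff_seq_limit.mp (h _ (hvAC x))
  choose w hwspan hwlim using hw
  -- first subsequence: the densities of `v x - w x j` tend to zero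
  obtain ⟨φ, hφ, hφD⟩ := common_subseq (ι := Λ) (F := fun x j E => DD hH (v x - w x j) E)
    (fun x j => measurable_DD hH _) (fun x j E => DD_nonneg hH _ _) (fun x => by
      refine squeeze_zero (fun j => integral_nonneg fun E => le_min zero_le_one (DD_nonneg _ _ _))
        (fun j => ?_) (?_ : Tendsto (fun j => ‖v x - w x j‖ ^ 2) atTop (𝓝 0))
      · refine le_trans (integral_mono_of_nonneg
          (ae_of_all _ fun E => le_min zero_le_one (DD_nonneg _ _ _)) (integrable_DD hH _)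
          (ae_of_all _ fun E => min_le_right _ _)) (integral_DD_le hH _)
      · have h1 := (tendsto_const_nhds (x := v x)).sub (hwlim x)
        rw [sub_self] at h1
        have h2 := h1.norm.pow 2
        simpa using h2)
  -- second subsequence
  let ι := Λ ⊕ (Λ ⊕ (Λ × ℕ))
  let uu : ι → V := Sum.elim e (Sum.elim (fun x => e x - v x) (fun p => v p.1 - w p.1 (φ p.2)))
  obtain ⟨σ, hσ, hσD⟩ := common_Abd hH (fun k => (ht k).1) ht0 uu
  have hmain : ∀ x, ∀ᵐ E ∂kap, E ∈ S → DD hH (e x) E = 0 := by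
    rw [← ae_all_iff]
    have hvD' : ∀ᵐ E ∂kap, ∀ x, E ∈ S → DD hH (e x - v x) E = 0 := by
      rw [ae_all_iff]; exact hvD
    filter_upwards [hM, hP, hφD, hσD, hvD'] with E h1 h2 h3 h4 h5 x hES
    have hσt : Tendsto (fun k => t (σ k)) atTop (𝓝 0) := ht0.comp hσ.tendsto_atTop
    -- the energies
    let Z : ℕ → ℂ := fun k => Zt (t (σ k)) E
    have hZ : ∀ k, 0 < (Z k).im := fun k => Zt_im_pos (ht _).1 E
    have hwith := tendsto_within (fun k => (ht (σ k)).1) hσt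
    have hZ0 : Tendsto (fun k => (Z k).im) atTop (𝓝 0) := (tendsto_Zt_im E).comp hwith
    have hZre : Tendsto (fun k => (Z k).re) atTop (𝓝 E) := (tendsto_Zt_re E).comp hwith
    obtain ⟨B, hB⟩ : ∃ B, ∀ k, ‖Z k‖ ≤ B := by
      obtain ⟨b1, hb1⟩ := hZ0.norm.bddAbove_range
      obtain ⟨b2, hb2⟩ := hZre.norm.bddAbove_range
      refine ⟨b2 + b1, fun k => ?_⟩
      refine (Complex.norm_le_abs_re_add_abs_im _).trans ?_
      exact add_le_add (hb2 ⟨k, rfl⟩) (hb1 ⟨k, rfl⟩)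
    have hnear : ∀ y, ∃ b : ℕ → V,
        (∀ k, b k ∈ Submodule.span ℂ (Set.range fun i => Rv H (Z k) (ψ i))) ∧
        Tendsto (fun k => ((√(Z k).im : ℝ) : ℂ) • Rv H (Z k) (e y) - b k) atTop (𝓝 0) := by
      intro y
      refine exists_near hH ψ hZ hB hZ0 (r := e y - v y) (v := v y) (by abel)
        (w := fun j => w y (φ j)) (fun j => hwspan y _) ?_
        (D := fun j => DD hH (v y - w y (φ j)) E) (fun j => ?_) (h3 y)
      · have := h4 (Sum.inr (Sum.inl y))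
        simp only [uu, Sum.elim_inr, Sum.elim_inl] at this
        rw [h5 y hES] at this
        exact this
      · exact h4 (Sum.inr (Sum.inr (y, j)))
    choose b hbW hblim using hnear
    have hMlim : ∀ y z, Tendsto (fun k => ⟪((√(Z k).im : ℝ) : ℂ) • Rv H (Z k) (e y),
        ((√(Z k).im : ℝ) : ℂ) • Rv H (Z k) (e z)⟫_ℂ) atTop (𝓝 (M E y z)) := by
      intro y z
      refine ((h1 y z).comp hσ.tendsto_atTop).congr fun k => ?_
      simp only [Function.comp, MM]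
      rw [inner_smul_left, inner_smul_right, Complex.conj_ofReal, ← mul_assoc,
        ← Complex.ofReal_mul, Real.mul_self_sqrt (hZ k).le]
    have hrank : ∀ X : Finset Λ, (∑ x ∈ X, (nrm (M E) x x).re) ^ 2
        ≤ n * ∑ x ∈ X, ∑ y ∈ X, ‖nrm (M E) x y‖ ^ 2 := by
      intro X
      have hfd : ∀ k, FiniteDimensional ℂ
          (Submodule.span ℂ (Set.range fun i => Rv H (Z k) (ψ i))) := fun k =>
        FiniteDimensional.span_of_finite ℂ (Set.finite_range _)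
      have hMre : ∀ y, 0 ≤ (M E y y).re := by
        intro y
        have h6 := (Complex.continuous_re.tendsto _).comp (hMlim y y)
        refine ge_of_tendsto' h6 fun k => ?_
        simp only [Function.comp]
        exact inner_self_nonneg (𝕜 := ℂ)
      have h7 := rank_limit X (fun k => Submodule.span ℂ (Set.range fun i => Rv H (Z k) (ψ i)))
        (fun k => finrank_W _) (g := fun k y => ((√(Z k).im : ℝ) : ℂ) • Rv H (Z k) (e y))
        (b := fun k y => b y k) (fun k y => hbW y k) (fun y => hblim y) (M := M E) hMlim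
        (fun y => (√(1 + (M E y y).re))⁻¹)
      have e1 : ∀ y, (√(1 + (M E y y).re))⁻¹ ^ 2 * (M E y y).re = (nrm (M E) y y).re := by
        intro y
        unfold nrm
        rw [← Complex.ofReal_mul, Complex.div_ofReal_re]
        rw [inv_pow, sq, div_eq_mul_inv, mul_comm]
      have e2 : ∀ y z, ‖(((√(1 + (M E y y).re))⁻¹ * (√(1 + (M E z z).re))⁻¹ : ℝ) : ℂ) * M E y z‖
          = ‖nrm (M E) y z‖ := by
        intro y z
        unfold nrm
        congr 1
        rw [div_eq_mul_inv, mul_inv, mul_comm]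
        push_cast
        rfl
      simp only [e1, e2] at h7
      exact h7
    have h8 := h2 n hrank x
    have h9 := h4 (Sum.inl x)
    simp only [uu, Sum.elim_inl] at h9
    have h10 := (h1 x x).comp hσ.tendsto_atTop
    rw [h8] at h10
    have h11 : Tendsto (fun k => Abd H (t (σ k)) E (e x)) atTop (𝓝 0) := by
      have h12 := (Complex.continuous_re.tendsto _).comp h10
      rw [Complex.zero_re] at h12
      refine h12.congr fun k => ?_
      simp only [Function.comp, MM_self, Complex.ofReal_re]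
    exact tendsto_nhds_unique h9 h11
  intro u hu
  exact eq_zero_of_ACOn hH hS hu (DD_zero_of_total hH hS tot hmain u)

end

end Pool.Agent.Lib.MP_562b47_mp
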