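import Mathlib
import Pool.Agent.Lib.MP_562b47_mp.Cov
import Pool.Agent.Lib.MP_562b47_mp.Rank

/-!
The unitary group in terms of the functional calculus, spectral projections and polarisation.
(Anderson model, MP_562b47_mp.)
-/

open MeasureTheory Set Filter Topology Complex
open scoped Real ENNReal NNReal InnerProductSpace

namespace Pool.Agent.Lib.MP_562b47_mp
section det1
variable {E : Type*} [NormedAddCommGroup E] [InnerProductSpace ℂ E] [CompleteSpace E]

theorem exp_eq_cos_sin {A : E →L[ℂ] E} (hA : IsSelfAdjoint A) (t : ℝ) :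
    NormedSpace.exp ((-(t:ℂ) * I) • A)
      = cfc (fun s : ℝ => Real.cos (t * s)) A - I • cfc (fun s : ℝ => Real.sin (t * s)) A := by
  have hn0 : IsStarNormal A := hA.isStarNormal
  have hn : IsStarNormal ((-(t:ℂ) * I) • A) := inferInstance
  rw [← CFC.complex_exp_eq_normedSpace_exp hn,
    ← cfc_comp_const_mul (-(t:ℂ) * I) Complex.exp A (by fun_prop) hn0,
    cfc_real_eq_complex _ hA, cfc_real_eq_complex _ hA,
    ← cfc_const_mul I _ A (by fun_prop), ← cfc_sub _ _ A (by fun_prop) (by fun_prop)]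
  refine cfc_congr fun z hz => ?_
  have hz' : z = z.re := hA.mem_spectrum_eq_re hz
  rw [hz']
  simp only [Complex.ofReal_re]
  rw [show -(t:ℂ) * I * (z.re : ℂ) = ((-(t * z.re) : ℝ) : ℂ) * I by push_cast; ring, Complex.exp_mul_I,
    Complex.ofReal_neg, Complex.cos_neg, Complex.sin_neg, ← Complex.ofReal_cos, ← Complex.ofReal_sin]
  ring

/-- `cos (t s)` as a bounded continuous function -/
noncomputable def cosB (t : ℝ) : BoundedContinuousFunction ℝ ℝ :=
  BoundedContinuousFunction.ofNormedAddCommGroup (fun s => Real.cos (t * s)) (by fun_prop) 1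
    (fun s => by rw [Real.norm_eq_abs]; exact Real.abs_cos_le_one _)

/-- `sin (t s)` as a bounded continuous function -/
noncomputable def sinB (t : ℝ) : BoundedContinuousFunction ℝ ℝ :=
  BoundedContinuousFunction.ofNormedAddCommGroup (fun s => Real.sin (t * s)) (by fun_prop) 1
    (fun s => by rw [Real.norm_eq_abs]; exact Real.abs_sin_le_one _)

theorem cosB_apply (t s : ℝ) : cosB t s = Real.cos (t * s) := rfl

theorem sinB_apply (t s : ℝ) : sinB t s = Real.sin (t * s) := rfl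

theorem cexp_eq (t s : ℝ) : cexp (-(t * s : ℝ) * I) = (cosB t s : ℂ) - I * (sinB t s : ℂ) := by
  rw [cosB_apply, sinB_apply, ← Complex.ofReal_neg, Complex.exp_mul_I, Complex.ofReal_neg,
    Complex.cos_neg, Complex.sin_neg, ← Complex.ofReal_cos, ← Complex.ofReal_sin]
  ring

/-- the integral of `e^{-its} f(s)` in terms of real integrals -/
theorem integral_cexp_mul (μ : Measure ℝ) [IsFiniteMeasure μ] (t : ℝ)
    (f : BoundedContinuousFunction ℝ ℝ) :
    ∫ s, cexp (-(t * s : ℝ) * I) * f s ∂μ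
      = ((∫ s, (cosB t * f) s ∂μ : ℝ) : ℂ) - I * ((∫ s, (sinB t * f) s ∂μ : ℝ) : ℂ) := by
  have h1 : Integrable (fun s => (((cosB t * f) s : ℝ) : ℂ)) μ := ((cosB t * f).integrable μ).ofReal
  have h2 : Integrable (fun s => (((sinB t * f) s : ℝ) : ℂ)) μ := ((sinB t * f).integrable μ).ofReal
  rw [← integral_complex_ofReal, ← integral_complex_ofReal, ← integral_const_mul,
    ← integral_sub h1 (h2.const_mul _)]
  refine integral_congr_ae (ae_of_all _ fun s => ?_)
  simp only [BoundedContinuousFunction.coe_mul, Pi.mul_apply]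
  rw [cexp_eq]
  push_cast
  ring

theorem charFun_spec {A : E →L[ℂ] E} (hA : IsSelfAdjoint A) {u : E} {μ : Measure ℝ}
    [IsFiniteMeasure μ] (hμ : IsSpec A u μ) (t : ℝ) :
    ⟪u, NormedSpace.exp ((-(t:ℂ) * I) • A) u⟫_ℂ = charFun μ (-t) := by
  have h := integral_cexp_mul μ t 1
  rw [charFun_apply_real]
  have e1 : ∫ x : ℝ, cexp ((-t : ℝ) * x * I) ∂μ = ∫ s, cexp (-(t * s : ℝ) * I)
      * ((1 : BoundedContinuousFunction ℝ ℝ) s : ℝ) ∂μ := by
    refine integral_congr_ae (ae_of_all _ fun s => ?_)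
    simp only [BoundedContinuousFunction.coe_one, Pi.one_apply, Complex.ofReal_one, mul_one]
    congr 1
    push_cast
    ring
  rw [e1, h, mul_one, mul_one, exp_eq_cos_sin hA, _root_.sub_apply, inner_sub_right,
    _root_.smul_apply, inner_smul_right]
  have h1 := hμ (cosB t)
  have h2 := hμ (sinB t)
  have e2 : (⇑(cosB t) : ℝ → ℝ) = fun s => Real.cos (t * s) := rfl
  have e3 : (⇑(sinB t) : ℝ → ℝ) = fun s => Real.sin (t * s) := rfl
  rw [e2] at h1
  rw [e3] at h2
  rw [← h1, ← h2]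
  rfl

/-- uniqueness of the limits in `exists_proj` -/
theorem exists_proj' {H : E →L[ℂ] E} {u : E} {μ : Measure ℝ}
    [IsFiniteMeasure μ] (hμ : IsSpec H u μ) {T : Set ℝ} (hT : MeasurableSet T) :
    ∃ v, IsSpec H v (μ.restrict T) ∧ ∀ f : ℕ → BoundedContinuousFunction ℝ ℝ,
      (∀ k x, 0 ≤ f k x ∧ f k x ≤ 1) →
      (∀ k : ℕ, ∫ x, |f k x - T.indicator (fun _ => (1:ℝ)) x| ∂μ ≤ 1 / ((k:ℝ) + 1)) →
      Tendsto (fun k => cfc (⇑(f k)) H u) atTop (𝓝 v) := by
  have key : ∀ f g : BoundedContinuousFunction ℝ ℝ, (∀ x, 0 ≤ f x ∧ f x ≤ 1) →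
      (∀ x, 0 ≤ g x ∧ g x ≤ 1) →
      ‖cfc (⇑f) H u - cfc (⇑g) H u‖ ^ 2 ≤ ∫ x, |f x - T.indicator (fun _ => (1:ℝ)) x| ∂μ
        + ∫ x, |g x - T.indicator (fun _ => (1:ℝ)) x| ∂μ := by
    intro f g hf hg
    have e1 : cfc (⇑f) H u - cfc (⇑g) H u = cfc (⇑(f - g)) H u := by
      have : cfc (⇑(f - g)) H = cfc (⇑f) H - cfc (⇑g) H :=
        cfc_sub (⇑f) (⇑g) H f.continuous.continuousOn g.continuous.continuousOn
      rw [this]; rfl
    rw [e1, hμ.norm_sq, ← integral_add (integrable_bcf_sub_ind μ hT f)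
      (integrable_bcf_sub_ind μ hT g)]
    refine integral_mono_of_nonneg (ae_of_all _ fun x => sq_nonneg _)
      ((integrable_bcf_sub_ind μ hT f).add (integrable_bcf_sub_ind μ hT g))
      (ae_of_all _ fun x => ?_)
    simp only [BoundedContinuousFunction.sub_apply]
    set i := T.indicator (fun _ => (1:ℝ)) x
    have h1 : |f x - g x| ≤ 1 := by
      rw [abs_le]; constructor <;> linarith [(hf x).1, (hf x).2, (hg x).1, (hg x).2]
    have h2 : |f x - g x| ≤ |f x - i| + |g x - i| := by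
      have := abs_sub_le (f x) i (g x)
      rwa [abs_sub_comm i (g x)] at this
    rw [← sq_abs]
    nlinarith [abs_nonneg (f x - g x)]
  obtain ⟨f, h01, hf⟩ := exists_approx μ hT
  have hlim : Tendsto (fun N : ℕ => √(1 / ((N:ℝ) + 1) + 1 / ((N:ℝ) + 1))) atTop (𝓝 0) := by
    have h1 := (tendsto_one_div_add_atTop_nhds_zero_nat (𝕜 := ℝ)).add
      (tendsto_one_div_add_atTop_nhds_zero_nat (𝕜 := ℝ))
    have h2 := (Real.continuous_sqrt.tendsto _).comp h1
    rw [add_zero, Real.sqrt_zero] at h2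
    exact h2
  have hC : CauchySeq (fun k => cfc (⇑(f k)) H u) := by
    refine cauchySeq_of_le_tendsto_0 _ (fun n m N hn hm => ?_) hlim
    have hN : ∀ j, N ≤ j → (1:ℝ) / ((j:ℝ) + 1) ≤ 1 / ((N:ℝ) + 1) := by
      intro j hj
      have : (N:ℝ) ≤ j := by exact_mod_cast hj
      gcongr
    rw [dist_eq_norm]
    refine Real.le_sqrt_of_sq_le ?_
    refine (key (f n) (f m) (h01 n) (h01 m)).trans ?_
    exact add_le_add ((hf n).trans (hN n hn)) ((hf m).trans (hN m hm))
  obtain ⟨v, hv⟩ := cauchySeq_tendsto_of_complete hC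
  refine ⟨v, spec_of_tendsto hμ hT h01 hf hv, fun g h01' hg => ?_⟩
  have h1 : Tendsto (fun k => cfc (⇑(g k)) H u - cfc (⇑(f k)) H u) atTop (𝓝 0) := by
    rw [tendsto_zero_iff_norm_tendsto_zero]
    refine squeeze_zero (fun k => norm_nonneg _) (fun k => ?_) hlim
    refine Real.le_sqrt_of_sq_le ?_
    refine (key (g k) (f k) (h01' k) (h01 k)).trans ?_
    exact add_le_add (hg k) (hf k)
  have h2 := h1.add hv
  simpa using h2

theorem tendsto_integral_approx (μ : Measure ℝ) [IsFiniteMeasure μ] {T : Set ℝ}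
    (hT : MeasurableSet T) {f : ℕ → BoundedContinuousFunction ℝ ℝ}
    (hf : ∀ k : ℕ, ∫ x, |f k x - T.indicator (fun _ => (1:ℝ)) x| ∂μ ≤ 1 / ((k:ℝ) + 1))
    {h : ℝ → ℂ} (hc : Continuous h) (hb : ∀ x, ‖h x‖ ≤ 1) :
    Tendsto (fun k => ∫ x, h x * (f k x : ℂ) ∂μ) atTop (𝓝 (∫ x in T, h x ∂μ)) := by
  rw [tendsto_iff_norm_sub_tendsto_zero]
  refine squeeze_zero (fun k => norm_nonneg _) (fun k => ?_)
    (tendsto_one_div_add_atTop_nhds_zero_nat (𝕜 := ℝ))
  have hi : Integrable h μ := Integrable.of_bound hc.aestronglyMeasurable 1 (ae_of_all _ hb)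
  have hi2 : Integrable (fun x => h x * (f k x : ℂ)) μ :=
    Integrable.of_bound (C := ‖f k‖) (by
      exact (hc.mul (Complex.continuous_ofReal.comp (f k).continuous)).aestronglyMeasurable)
      (ae_of_all _ fun x => by
        rw [norm_mul, Complex.norm_real]
        calc ‖h x‖ * ‖f k x‖ ≤ 1 * ‖f k‖ :=
              mul_le_mul (hb x) ((f k).norm_coe_le_norm x) (norm_nonneg _) zero_le_one
          _ = ‖f k‖ := one_mul _)
  rw [← integral_indicator hT, ← integral_sub hi2 (hi.indicator hT)]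
  refine (norm_integral_le_integral_norm _).trans (le_trans ?_ (hf k))
  refine integral_mono_of_nonneg (ae_of_all _ fun x => norm_nonneg _)
    (integrable_bcf_sub_ind μ hT (f k)) (ae_of_all _ fun x => ?_)
  simp only
  have e1 : T.indicator h x = h x * ((T.indicator (fun _ => (1:ℝ)) x : ℝ) : ℂ) := by
    by_cases hx : x ∈ T <;> simp [hx]
  rw [e1, ← mul_sub, norm_mul, ← Complex.ofReal_sub, Complex.norm_real, Real.norm_eq_abs]
  exact mul_le_of_le_one_left (abs_nonneg _) (hb x)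

theorem inner_cfc_re {A : E →L[ℂ] E} (hA : IsSelfAdjoint A) (u v : E) :
    (⟪u, A v⟫_ℂ).re = ((⟪u + v, A (u + v)⟫_ℂ).re - (⟪u - v, A (u - v)⟫_ℂ).re) / 4 := by
  have h1 : (⟪v, A u⟫_ℂ).re = (⟪u, A v⟫_ℂ).re := by
    rw [← inner_sa_comm hA, ← inner_conj_symm, Complex.conj_re]
  simp only [map_add, map_sub, inner_add_left, inner_add_right, inner_sub_left, inner_sub_right,
    Complex.add_re, Complex.sub_re]
  rw [h1]
  ring

theorem inner_cfc_im {A : E →L[ℂ] E} (hA : IsSelfAdjoint A) (u v : E) :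
    (⟪u, A v⟫_ℂ).im = ((⟪u - I • v, A (u - I • v)⟫_ℂ).re - (⟪u + I • v, A (u + I • v)⟫_ℂ).re) / 4 := by
  have h1 : (⟪v, A u⟫_ℂ).im = -(⟪u, A v⟫_ℂ).im := by
    rw [← inner_sa_comm hA, ← inner_conj_symm, Complex.conj_im]
  simp only [map_add, map_sub, map_smul, inner_add_left, inner_add_right, inner_sub_left,
    inner_sub_right, inner_smul_left, inner_smul_right,
    Complex.add_re, Complex.sub_re, Complex.mul_re, Complex.mul_im, Complex.conj_I, Complex.add_im,
    Complex.sub_im, Complex.neg_re, Complex.neg_im, Complex.I_re, Complex.I_im]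
  rw [h1]
  ring

end det1

section model

variable {Λ : Type*} [DecidableEq Λ] {E : Type*}
  [NormedAddCommGroup E] [InnerProductSpace ℂ E] [CompleteSpace E] {c : ℝ} {e : Λ → E}
  {H : (Λ → ℝ) → (E →L[ℂ] E)}

theorem Model.sm_conj [AddCommGroup Λ] [Countable Λ] (M : Model c e H) (ω : Λ → ℝ) (x y : Λ) :
    sm (M.sa ω) (e x + I • e y) = sm (M.sa ω) (e x - I • e y) := by
  apply Measure.ext_of_charFun
  funext t
  have h1 := charFun_spec (M.sa ω) (sm_spec (M.sa ω) (e x + I • e y)) (-t)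
  have h2 := charFun_spec (M.sa ω) (sm_spec (M.sa ω) (e x - I • e y)) (-t)
  rw [neg_neg] at h1 h2
  rw [← h1, ← h2]
  have h3 := Ut_symm M ω (-t) x y
  unfold Ut at h3
  simp only [map_add, map_sub, map_smul, inner_add_left, inner_add_right, inner_sub_left,
    inner_sub_right, inner_smul_left, inner_smul_right, Complex.conj_I]
  rw [h3]
  ring

theorem Model.polar [AddCommGroup Λ] [Countable Λ] (M : Model c e H) (ω : Λ → ℝ) (x y : Λ)
    (f : BoundedContinuousFunction ℝ ℝ) :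
    ⟪e x, cfc (⇑f) (H ω) (e y)⟫_ℂ
      = ((((∫ s, f s ∂(sm (M.sa ω) (e x + e y))) - ∫ s, f s ∂(sm (M.sa ω) (e x - e y))) / 4 : ℝ)
        : ℂ) := by
  have hre : ∀ u, (⟪u, cfc (⇑f) (H ω) u⟫_ℂ).re = ∫ s, f s ∂(sm (M.sa ω) u) := by
    intro u
    rw [← sm_spec (M.sa ω) u f, Complex.ofReal_re]
  apply Complex.ext
  · rw [inner_cfc_re (sa_cfc _), hre, hre, Complex.ofReal_re]
  · rw [inner_cfc_im (sa_cfc _), hre, hre, Complex.ofReal_im, M.sm_conj]
    simp

end model

end Pool.Agent.Lib.MP_562b47_mp
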