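import Mathlib

/-!
A Plancherel type inequality for integrable and square integrable functions.
(Anderson model, MP_562b47_mp.)
-/

open MeasureTheory Set Filter Topology Complex
open scoped Real ENNReal

namespace Pool.Agent.Lib.MP_562b47_mp

/-- Fourier transform with kernel `e^{-its}` -/
noncomputable def FT (g : ℝ → ℝ) (t : ℝ) : ℂ := ∫ s, cexp (-(t * s : ℝ) * I) * g s

theorem norm_FT_integrand (g : ℝ → ℝ) (t s : ℝ) :
    ‖cexp (-(t * s : ℝ) * I) * g s‖ = |g s| := by
  rw [norm_mul, ← Complex.ofReal_neg, Complex.norm_exp_ofReal_mul_I, one_mul, Complex.norm_real,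
    Real.norm_eq_abs]

theorem integrable_FT {g : ℝ → ℝ} (hg : Integrable g) (t : ℝ) :
    Integrable fun s => cexp (-(t * s : ℝ) * I) * g s := by
  refine hg.norm.mono' ?_ (ae_of_all _ fun s => (norm_FT_integrand g t s).le)
  exact (by fun_prop : Continuous fun s : ℝ => cexp (-(t * s : ℝ) * I)).aestronglyMeasurable.mul
    (Complex.continuous_ofReal.comp_aestronglyMeasurable hg.aestronglyMeasurable)

theorem continuous_FT {g : ℝ → ℝ} (hg : Integrable g) : Continuous (FT g) := by
  unfold FT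
  refine continuous_of_dominated (bound := fun s => |g s|) (fun t =>
    (integrable_FT hg t).aestronglyMeasurable)
    (fun t => ae_of_all _ fun s => (norm_FT_integrand g t s).le) hg.norm
    (ae_of_all _ fun s => by fun_prop)

/-- the Gaussian kernel -/
noncomputable def kapG (b r : ℝ) : ℝ := √(π / b) * rexp (-(1 / (4 * b)) * r ^ 2)

theorem kapG_nonneg (b r : ℝ) : 0 ≤ kapG b r := by unfold kapG; positivity

theorem integrable_kapG {b : ℝ} (hb : 0 < b) : Integrable (kapG b) := by
  unfold kapG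
  exact (integrable_exp_neg_mul_sq (by positivity)).const_mul _

theorem integral_kapG {b : ℝ} (hb : 0 < b) : ∫ r, kapG b r = 2 * π := by
  unfold kapG
  rw [integral_const_mul, integral_gaussian, ← Real.sqrt_mul (by positivity)]
  have : π / b * (π / (1 / (4 * b))) = (2 * π) ^ 2 := by field_simp; ring
  rw [this, Real.sqrt_sq (by positivity)]

theorem inner_gauss {b : ℝ} (hb : 0 < b) (r : ℝ) :
    ∫ t : ℝ, ((rexp (-b * t ^ 2) : ℝ) : ℂ) * cexp ((t * r : ℝ) * I) = ((kapG b r : ℝ) : ℂ) := by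
  have h := fourierIntegral_gaussian (b := (b : ℂ)) (by simpa using hb) (r : ℂ)
  have e1 : ∀ t : ℝ, ((rexp (-b * t ^ 2) : ℝ) : ℂ) * cexp ((t * r : ℝ) * I)
      = cexp (I * r * t) * cexp (-b * t ^ 2) := by
    intro t
    push_cast
    rw [mul_comm]
    congr 2
    ring
  simp_rw [e1, h]
  unfold kapG
  push_cast
  congr 1
  · rw [← Complex.ofReal_div, Real.sqrt_eq_rpow, Complex.ofReal_cpow (by positivity)]
    norm_num
  · congr 1
    field_simp

theorem gauss_FT {g : ℝ → ℝ} (hg : Integrable g) (hg2 : Integrable fun s => g s ^ 2) {b : ℝ}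
    (hb : 0 < b) :
    ∫ t : ℝ, rexp (-b * t ^ 2) * ‖FT g t‖ ^ 2 ≤ 2 * π * ∫ s, g s ^ 2 := by
  set Φ : ℝ → ℝ × ℝ → ℂ := fun t p => (((rexp (-b * t ^ 2) : ℝ) : ℂ) * cexp ((t * (p.2 - p.1) : ℝ) * I))
    * ((g p.1 : ℂ) * (g p.2 : ℂ)) with hΦ
  have hgg : Integrable (fun p : ℝ × ℝ => (g p.1 : ℂ) * (g p.2 : ℂ)) (volume.prod volume) :=
    hg.ofReal.mul_prod hg.ofReal
  have hI : Integrable (Function.uncurry Φ) (volume.prod (volume.prod volume)) := by
    have h1 : Integrable (fun q : ℝ × (ℝ × ℝ) => ((rexp (-b * q.1 ^ 2) : ℝ) : ℂ)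
        * ((g q.2.1 : ℂ) * (g q.2.2 : ℂ))) (volume.prod (volume.prod volume)) :=
      (integrable_exp_neg_mul_sq hb).ofReal.mul_prod hgg
    refine h1.norm.mono' ?_ (ae_of_all _ fun q => ?_)
    · have e1 : Function.uncurry Φ = fun q : ℝ × (ℝ × ℝ) =>
          cexp ((q.1 * (q.2.2 - q.2.1) : ℝ) * I) * (((rexp (-b * q.1 ^ 2) : ℝ) : ℂ)
        * ((g q.2.1 : ℂ) * (g q.2.2 : ℂ))) := by
        funext q
        simp only [Function.uncurry, hΦ]
        ring
      rw [e1]
      exact (by fun_prop : Continuous fun q : ℝ × (ℝ × ℝ) =>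
        cexp ((q.1 * (q.2.2 - q.2.1) : ℝ) * I)).aestronglyMeasurable.mul h1.aestronglyMeasurable
    · simp only [Function.uncurry, hΦ]
      rw [norm_mul, norm_mul, Complex.norm_exp_ofReal_mul_I, mul_one, ← norm_mul]
  -- the left side as a complex triple integral
  have hL : ((∫ t : ℝ, rexp (-b * t ^ 2) * ‖FT g t‖ ^ 2 : ℝ) : ℂ)
      = ∫ p : ℝ × ℝ, (kapG b (p.2 - p.1) : ℂ) * ((g p.1 : ℂ) * (g p.2 : ℂ))
        ∂(volume.prod volume) := by
    rw [← integral_complex_ofReal]
    have e2 : ∀ t : ℝ, ((rexp (-b * t ^ 2) * ‖FT g t‖ ^ 2 : ℝ) : ℂ)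
        = ∫ p, Φ t p ∂(volume.prod volume) := by
      intro t
      have e3 : ((‖FT g t‖ ^ 2 : ℝ) : ℂ) = FT g t * (starRingEnd ℂ) (FT g t) := by
        rw [Complex.mul_conj, Complex.normSq_eq_norm_sq]
      have e4 : (starRingEnd ℂ) (FT g t) = ∫ s, cexp ((t * s : ℝ) * I) * g s := by
        unfold FT
        rw [← integral_conj]
        refine integral_congr_ae (ae_of_all _ fun s => ?_)
        simp only
        rw [map_mul, ← Complex.exp_conj, Complex.conj_ofReal, map_mul, map_neg,
          Complex.conj_ofReal, Complex.conj_I]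
        congr 2
        ring
      rw [Complex.ofReal_mul, e3, e4]
      unfold FT
      rw [← integral_prod_mul, ← integral_const_mul]
      refine integral_congr_ae (ae_of_all _ fun p => ?_)
      simp only [hΦ]
      have e5 : cexp ((t * (p.2 - p.1) : ℝ) * I) = cexp (-(t * p.1 : ℝ) * I)
          * cexp ((t * p.2 : ℝ) * I) := by
        rw [← Complex.exp_add]
        congr 1
        push_cast
        ring
      rw [e5]
      ring
    simp_rw [e2]
    rw [integral_integral_swap hI]
    refine integral_congr_ae (ae_of_all _ fun p => ?_)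
    simp only [hΦ]
    rw [integral_mul_const, inner_gauss hb]
  -- integrability of the bounds
  have hk1 : Integrable (fun p : ℝ × ℝ => g p.1 ^ 2 * kapG b (p.2 - p.1))
      (volume.prod volume) := by
    have h1 : Integrable (fun p : ℝ × ℝ => g p.1 ^ 2 * kapG b p.2) (volume.prod volume) :=
      hg2.mul_prod (integrable_kapG hb)
    exact (measurePreserving_prod_sub volume volume).integrable_comp_of_integrable h1
  have hk2 : Integrable (fun p : ℝ × ℝ => kapG b (p.2 - p.1) * g p.2 ^ 2)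
      (volume.prod volume) := by
    have h1 : Integrable (fun p : ℝ × ℝ => kapG b p.1 * g p.2 ^ 2) (volume.prod volume) :=
      (integrable_kapG hb).mul_prod hg2
    have h2 := (measurePreserving_sub_prod volume volume).integrable_comp_of_integrable h1
    refine h2.congr (ae_of_all _ fun p => ?_)
    simp only [Function.comp]
    congr 1
    unfold kapG
    congr 2
    ring
  have hv1 : ∫ p : ℝ × ℝ, g p.1 ^ 2 * kapG b (p.2 - p.1) ∂(volume.prod volume)
      = 2 * π * ∫ s, g s ^ 2 := by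
    rw [integral_prod _ hk1]
    have e1 : ∀ s : ℝ, ∫ s' : ℝ, g s ^ 2 * kapG b (s' - s) = 2 * π * g s ^ 2 := by
      intro s
      rw [integral_const_mul, integral_sub_right_eq_self (kapG b) s, integral_kapG hb, mul_comm]
    simp only [e1]
    rw [integral_const_mul]
  have hv2 : ∫ p : ℝ × ℝ, kapG b (p.2 - p.1) * g p.2 ^ 2 ∂(volume.prod volume)
      = 2 * π * ∫ s, g s ^ 2 := by
    rw [integral_prod_symm _ hk2]
    have e1 : ∀ s' : ℝ, ∫ s : ℝ, kapG b (s' - s) * g s' ^ 2 = 2 * π * g s' ^ 2 := by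
      intro s'
      rw [integral_mul_const, integral_sub_left_eq_self (kapG b) volume s', integral_kapG hb]
    simp only [e1]
    rw [integral_const_mul]
  have hle : ‖∫ p : ℝ × ℝ, (kapG b (p.2 - p.1) : ℂ) * ((g p.1 : ℂ) * (g p.2 : ℂ))
        ∂(volume.prod volume)‖ ≤ ∫ p : ℝ × ℝ, ((1/2) * (g p.1 ^ 2 * kapG b (p.2 - p.1))
          + (1/2) * (kapG b (p.2 - p.1) * g p.2 ^ 2)) ∂(volume.prod volume) := by
    refine norm_integral_le_of_norm_le ((hk1.const_mul _).add (hk2.const_mul _))
      (ae_of_all _ fun p => ?_)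
    rw [norm_mul, norm_mul, Complex.norm_real, Complex.norm_real, Complex.norm_real,
      Real.norm_of_nonneg (kapG_nonneg _ _), Real.norm_eq_abs, Real.norm_eq_abs]
    have h1 := two_mul_le_add_sq |g p.1| |g p.2|
    rw [sq_abs, sq_abs] at h1
    nlinarith [kapG_nonneg b (p.2 - p.1)]
  rw [← hL, Complex.norm_real, integral_add (hk1.const_mul _) (hk2.const_mul _),
    integral_const_mul, integral_const_mul, hv1, hv2] at hle
  refine (Real.le_norm_self _).trans (hle.trans (le_of_eq ?_))
  ring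

/-- the time integral of the squared Fourier transform -/
theorem FT_le {g : ℝ → ℝ} (hg : Integrable g) (hg2 : Integrable fun s => g s ^ 2) {T : ℝ}
    (hT : 0 < T) :
    ∫ t in (0:ℝ)..T, ‖FT g t‖ ^ 2 ≤ 2 * π * rexp 1 * ∫ s, g s ^ 2 := by
  have hb : 0 < 1 / T ^ 2 := by positivity
  have h1 := gauss_FT hg hg2 hb
  have hcont := continuous_FT hg
  have hbd : ∀ t, ‖FT g t‖ ≤ ∫ s, |g s| := fun t => by
    unfold FT
    refine (norm_integral_le_integral_norm _).trans (le_of_eq ?_)
    exact integral_congr_ae (ae_of_all _ fun s => norm_FT_integrand g t s)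
  have hint : Integrable (fun t : ℝ => rexp (-(1 / T ^ 2) * t ^ 2) * ‖FT g t‖ ^ 2) := by
    refine (integrable_exp_neg_mul_sq hb).mul_bdd (c := (∫ s, |g s|) ^ 2)
      (hcont.norm.pow 2).aestronglyMeasurable (ae_of_all _ fun t => ?_)
    rw [norm_pow, norm_norm]
    exact pow_le_pow_left₀ (norm_nonneg _) (hbd t) 2
  calc ∫ t in (0:ℝ)..T, ‖FT g t‖ ^ 2
      ≤ ∫ t in (0:ℝ)..T, rexp 1 * (rexp (-(1 / T ^ 2) * t ^ 2) * ‖FT g t‖ ^ 2) := by
        refine intervalIntegral.integral_mono_on hT.le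
          ((hcont.norm.pow 2).intervalIntegrable _ _) ?_ fun t ht => ?_
        · exact (Continuous.intervalIntegrable (by fun_prop) _ _)
        · have h2 : t ^ 2 ≤ T ^ 2 := pow_le_pow_left₀ ht.1 ht.2 2
          have h3 : -1 ≤ -(1 / T ^ 2) * t ^ 2 := by
            have : 1 / T ^ 2 * t ^ 2 ≤ 1 := by
              rw [one_div_mul_eq_div, div_le_one (by positivity)]
              exact h2
            linarith
          have h4 : 1 ≤ rexp 1 * rexp (-(1 / T ^ 2) * t ^ 2) := by
            rw [← Real.exp_add]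
            exact Real.one_le_exp (by linarith)
          rw [← mul_assoc]
          exact le_mul_of_one_le_left (by positivity) h4
    _ = rexp 1 * ∫ t in (0:ℝ)..T, rexp (-(1 / T ^ 2) * t ^ 2) * ‖FT g t‖ ^ 2 :=
        intervalIntegral.integral_const_mul _ _
    _ ≤ rexp 1 * ∫ t : ℝ, rexp (-(1 / T ^ 2) * t ^ 2) * ‖FT g t‖ ^ 2 := by
        gcongr
        rw [intervalIntegral.integral_of_le hT.le]
        exact setIntegral_le_integral hint (ae_of_all _ fun t => by positivity)
    _ ≤ rexp 1 * (2 * π * ∫ s, g s ^ 2) := by gcongr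
    _ = _ := by ring

end Pool.Agent.Lib.MP_562b47_mp
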