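import Mathlib
import Pool.Agent.Lib.MP_562b47_mp.EscDet
import Pool.Agent.Lib.MP_562b47_mp.EscFourier

/-!
The absolutely continuous part of a spectral projection and its time evolution, for a fixed
realisation.  (Anderson model, MP_562b47_mp.)
-/

open MeasureTheory Set Filter Topology Complex
open scoped Real ENNReal NNReal InnerProductSpace

namespace Pool.Agent.Lib.MP_562b47_mp

theorem setIntegral_ac (μ : Measure ℝ) [IsFiniteMeasure μ] {T : Set ℝ} (hT : MeasurableSet T)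
    (hs : μ.singularPart volume T = 0) (h : ℝ → ℂ) :
    ∫ x in T, h x ∂μ = ∫ x in T, ((π⁻¹ * Dens μ x : ℝ) : ℂ) * h x := by
  have h1 : μ.restrict T = (volume.withDensity (μ.rnDeriv volume)).restrict T := by
    conv_lhs => rw [μ.haveLebesgueDecomposition_add volume]
    rw [Measure.restrict_add]
    have h2 : (μ.singularPart volume).restrict T = 0 := by
      rw [Measure.restrict_eq_zero]
      exact hs
    rw [h2, zero_add]
  rw [h1]
  have h2 := setIntegral_withDensity_eq_setIntegral_toReal_smul (μ := (volume : Measure ℝ))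
    (Measure.measurable_rnDeriv μ volume)
    (ae_restrict_of_ae (Measure.rnDeriv_lt_top μ volume)) h hT
  rw [h2]
  refine integral_congr_ae (ae_of_all _ fun x => ?_)
  simp only
  unfold Dens
  rw [← mul_assoc, inv_mul_cancel₀ Real.pi_ne_zero, one_mul]
  rfl

section model

variable {Λ : Type*} [DecidableEq Λ] {E : Type*}
  [NormedAddCommGroup E] [InnerProductSpace ℂ E] [CompleteSpace E] {c : ℝ} {e : Λ → E}
  {H : (Λ → ℝ) → (E →L[ℂ] E)}

theorem Model.AU_sub (M : Model c e H) (ω : Λ → ℝ) {t : ℝ} (ht : 0 < t) (s : ℝ) (x y : Λ) :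
    AU (H ω) (e x - e y) t s = (Gr e H ω (Zt t s) x x).im + (Gr e H ω (Zt t s) y y).im
      - 2 * (Gr e H ω (Zt t s) x y).im := by
  have h := M.Gr_symm ω (Zt_im_pos ht s) x y
  unfold Gr at h
  unfold AU Gr
  rw [map_sub, inner_sub_left, inner_sub_right, inner_sub_right, ← h]
  simp only [Complex.sub_im]
  ring

theorem DD_eq_lim {A : E →L[ℂ] E} (hA : IsSelfAdjoint A) {φ : ℕ → ℕ} (hφ : StrictMono φ) (u : E)
    {l : ℝ → ℝ} (h : ∀ᵐ s ∂kap, Tendsto (fun k => AU A u (tk (φ k)) s) atTop (𝓝 (l s))) :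
    ∀ᵐ s ∂kap, DD hA u s = l s := by
  have ht0 : Tendsto (fun k => tk (φ k)) atTop (𝓝 0) :=
    (tendsto_nhdsWithin_iff.mp tendsto_tk).1.comp hφ.tendsto_atTop
  obtain ⟨ψ, hψ, h2⟩ := common_Abd hA (t := fun k => tk (φ k)) (fun k => tk_pos _) ht0
    (ι := Unit) (fun _ => u)
  filter_upwards [h, h2] with s hs hs2
  have h3 := hs.comp hψ.tendsto_atTop
  refine tendsto_nhds_unique (hs2 ()) (h3.congr fun k => ?_)
  simp only [Function.comp, AU, Abd]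
  exact im_inner_Rv hA (Zt_im_pos (tk_pos _) s).ne' u

/-- the densities of the three spectral measures in terms of the boundary values -/
theorem Model.dens [AddCommGroup Λ] (M : Model c e H) (ω : Λ → ℝ) {φ : ℕ → ℕ} (hφ : StrictMono φ)
    (hL : ∀ᵐ s ∂kap, (ω, s) ∈ CV (gI e H φ)) (x y : Λ) :
    ∀ᵐ s ∂kap, DD (M.sa ω) (e x) s = Lm (gI e H φ) x x (ω, s) ∧
      DD (M.sa ω) (e x + e y) s - DD (M.sa ω) (e x - e y) s = 4 * Lm (gI e H φ) x y (ω, s) := by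
  have h1 := DD_eq_lim (M.sa ω) hφ (e x) (l := fun s => Lm (gI e H φ) x x (ω, s)) (by
    filter_upwards [hL] with s hs
    exact tendsto_Lm hs x x)
  have h2 := DD_eq_lim (M.sa ω) hφ (e x + e y) (l := fun s => Lm (gI e H φ) x x (ω, s)
      + Lm (gI e H φ) y y (ω, s) + 2 * Lm (gI e H φ) x y (ω, s)) (by
    filter_upwards [hL] with s hs
    refine (((tendsto_Lm hs x x).add (tendsto_Lm hs y y)).add
      ((tendsto_Lm hs x y).const_mul 2)).congr fun k => ?_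
    rw [M.AU_add ω (tk_pos _)]
    rfl)
  have h3 := DD_eq_lim (M.sa ω) hφ (e x - e y) (l := fun s => Lm (gI e H φ) x x (ω, s)
      + Lm (gI e H φ) y y (ω, s) - 2 * Lm (gI e H φ) x y (ω, s)) (by
    filter_upwards [hL] with s hs
    refine (((tendsto_Lm hs x x).add (tendsto_Lm hs y y)).sub
      ((tendsto_Lm hs x y).const_mul 2)).congr fun k => ?_
    rw [M.AU_sub ω (tk_pos _)]
    rfl)
  filter_upwards [h1, h2, h3] with s h1 h2 h3
  refine ⟨h1, ?_⟩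
  rw [h2, h3]
  ring

/-- the matrix elements of the evolution of the projected vector -/
theorem Model.inner_FT [AddCommGroup Λ] [Countable Λ] (M : Model c e H) (ω : Λ → ℝ) (x : Λ)
    {T : Set ℝ} (hT : MeasurableSet T)
    (hp : (sm (M.sa ω) (e x + e 0)).singularPart volume T = 0)
    (hm : (sm (M.sa ω) (e x - e 0)).singularPart volume T = 0) {v : E}
    (hv : ∀ f : ℕ → BoundedContinuousFunction ℝ ℝ, (∀ k x, 0 ≤ f k x ∧ f k x ≤ 1) →
      (∀ k : ℕ, ∫ x, |f k x - T.indicator (fun _ => (1:ℝ)) x| ∂(sm (M.sa ω) (e 0))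
        ≤ 1 / ((k:ℝ) + 1)) →
      Tendsto (fun k => cfc (⇑(f k)) (H ω) (e 0)) atTop (𝓝 v)) {L : ℝ → ℝ}
    (hL : ∀ᵐ s ∂kap, DD (M.sa ω) (e x + e 0) s - DD (M.sa ω) (e x - e 0) s = 4 * L s) (t : ℝ) :
    ⟪e x, Ut H ω t v⟫_ℂ = FT (T.indicator fun s => π⁻¹ * L s) t := by
  set μp := sm (M.sa ω) (e x + e 0) with hμp
  set μm := sm (M.sa ω) (e x - e 0) with hμm
  set μ0 := sm (M.sa ω) (e 0) with hμ0
  obtain ⟨f, h01, hf⟩ := exists_approx (μ0 + μp + μm) hT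
  have hsub : ∀ ν : Measure ℝ, ν ≤ μ0 + μp + μm → ∀ k : ℕ,
      ∫ x, |f k x - T.indicator (fun _ => (1:ℝ)) x| ∂ν ≤ 1 / ((k:ℝ) + 1) := by
    intro ν hν k
    exact (integral_mono_measure hν (ae_of_all _ fun x => abs_nonneg _)
      (integrable_bcf_sub_ind _ hT (f k))).trans (hf k)
  have h0 : μ0 ≤ μ0 + μp + μm := by
    rw [add_assoc]; exact Measure.le_add_right le_rfl
  have h1 : μp ≤ μ0 + μp + μm := Measure.le_add_right (Measure.le_add_left le_rfl)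
  have h2 : μm ≤ μ0 + μp + μm := Measure.le_add_left le_rfl
  have hv' := hv f h01 (hsub μ0 h0)
  have hlim1 : Tendsto (fun k => ⟪e x, Ut H ω t (cfc (⇑(f k)) (H ω) (e 0))⟫_ℂ) atTop
      (𝓝 ⟪e x, Ut H ω t v⟫_ℂ) :=
    tendsto_const_nhds.inner (((Ut H ω t).continuous.tendsto v).comp hv')
  have hc : Continuous fun s : ℝ => cexp (-(t * s : ℝ) * I) := by fun_prop
  have hb : ∀ s : ℝ, ‖cexp (-(t * s : ℝ) * I)‖ ≤ 1 := fun s => by
    rw [← Complex.ofReal_neg, Complex.norm_exp_ofReal_mul_I]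
  have hlim2 : Tendsto (fun k => ((∫ s, cexp (-(t * s : ℝ) * I) * f k s ∂μp)
      - ∫ s, cexp (-(t * s : ℝ) * I) * f k s ∂μm) / 4) atTop
      (𝓝 (((∫ s in T, cexp (-(t * s : ℝ) * I) ∂μp) - ∫ s in T, cexp (-(t * s : ℝ) * I) ∂μm) / 4)) :=
    ((tendsto_integral_approx μp hT (hsub μp h1) hc hb).sub
      (tendsto_integral_approx μm hT (hsub μm h2) hc hb)).div_const 4
  have heq : ∀ k, ⟪e x, Ut H ω t (cfc (⇑(f k)) (H ω) (e 0))⟫_ℂ
      = ((∫ s, cexp (-(t * s : ℝ) * I) * f k s ∂μp)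
      - ∫ s, cexp (-(t * s : ℝ) * I) * f k s ∂μm) / 4 := by
    intro k
    have e1 : Ut H ω t (cfc (⇑(f k)) (H ω) (e 0)) = cfc (⇑(cosB t * f k)) (H ω) (e 0)
        - I • cfc (⇑(sinB t * f k)) (H ω) (e 0) := by
      have e2 : cfc (⇑(cosB t * f k)) (H ω) = cfc (⇑(cosB t)) (H ω) * cfc (⇑(f k)) (H ω) :=
        cfc_mul (⇑(cosB t)) (⇑(f k)) (H ω) (cosB t).continuous.continuousOn
          (f k).continuous.continuousOn
      have e3 : cfc (⇑(sinB t * f k)) (H ω) = cfc (⇑(sinB t)) (H ω) * cfc (⇑(f k)) (H ω) :=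
        cfc_mul (⇑(sinB t)) (⇑(f k)) (H ω) (sinB t).continuous.continuousOn
          (f k).continuous.continuousOn
      rw [e2, e3]
      unfold Ut
      rw [exp_eq_cos_sin (M.sa ω)]
      rfl
    rw [e1, inner_sub_right, inner_smul_right, M.polar, M.polar, integral_cexp_mul,
      integral_cexp_mul]
    push_cast
    ring
  have hfin := tendsto_nhds_unique (hlim1.congr heq) hlim2
  rw [hfin, setIntegral_ac μp hT hp, setIntegral_ac μm hT hm]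
  have hi : ∀ ν : Measure ℝ, IsFiniteMeasure ν → Integrable (fun s => ((π⁻¹ * Dens ν s : ℝ) : ℂ)
      * cexp (-(t * s : ℝ) * I)) (volume.restrict T) := by
    intro ν hν
    have h3 : Integrable (fun s => ((π⁻¹ * Dens ν s : ℝ) : ℂ)) (volume.restrict T) := by
      have h4 : Integrable (Dens ν) volume := (integrable_rn ν).const_mul π
      exact (h4.const_mul π⁻¹).ofReal.mono_measure Measure.restrict_le_self
    exact h3.mul_bdd (c := 1) hc.aestronglyMeasurable (ae_of_all _ hb)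
  rw [← integral_sub (hi _ inferInstance) (hi _ inferInstance), ← integral_div]
  unfold FT
  have e4 : ∀ s, cexp (-(t * s : ℝ) * I) * ((T.indicator (fun s => π⁻¹ * L s) s : ℝ) : ℂ)
      = T.indicator (fun s => cexp (-(t * s : ℝ) * I) * ((π⁻¹ * L s : ℝ) : ℂ)) s := by
    intro s
    by_cases hs : s ∈ T <;> simp [hs]
  simp_rw [e4]
  rw [integral_indicator hT]
  refine integral_congr_ae ?_
  filter_upwards [ae_restrict_of_ae (ac_kap.ae_le hL)] with s hs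
  have e5 : ((DD (M.sa ω) (e x + e 0) s : ℝ) : ℂ) - ((DD (M.sa ω) (e x - e 0) s : ℝ) : ℂ)
      = 4 * (L s : ℂ) := by
    rw [← Complex.ofReal_sub, hs]
    push_cast
    rfl
  have e6 : Dens μp s = DD (M.sa ω) (e x + e 0) s := rfl
  have e7 : Dens μm s = DD (M.sa ω) (e x - e 0) s := rfl
  rw [e6, e7]
  push_cast
  linear_combination ((π:ℂ)⁻¹ * cexp (-(t * s : ℂ) * I) / 4) * e5

/-- the real number inequality behind the escape estimate -/
theorem escape_ineq (M : Model c e H) {ψ w : E} (hψ : ‖ψ‖ = 1) (hw : ‖w‖ ≤ 1) {m : ℝ}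
    (hm : 0 ≤ m) (hin : ⟪w, ψ⟫_ℂ = (m : ℂ)) (F : Finset Λ) :
    m ^ 2 / 2 - ∑ x ∈ F, ‖⟪e x, w⟫_ℂ‖ ^ 2 ≤ 1 - ∑ x ∈ F, ‖⟪e x, ψ⟫_ℂ‖ ^ 2 := by
  set P : E := ∑ x ∈ F, ⟪e x, ψ⟫_ℂ • e x with hP
  have hPx : ∀ y ∈ F, ⟪e y, P⟫_ℂ = ⟪e y, ψ⟫_ℂ := fun y hy =>
    M.ortho.inner_right_sum _ hy
  have hPP : ⟪P, P⟫_ℂ = ((∑ x ∈ F, ‖⟪e x, ψ⟫_ℂ‖ ^ 2 : ℝ) : ℂ) := by
    nth_rewrite 1 [hP]
    rw [sum_inner]
    push_cast
    refine Finset.sum_congr rfl fun x hx => ?_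
    rw [inner_smul_left, hPx x hx, Complex.conj_mul']
  have hPψ : ⟪P, ψ⟫_ℂ = ((∑ x ∈ F, ‖⟪e x, ψ⟫_ℂ‖ ^ 2 : ℝ) : ℂ) := by
    rw [hP, sum_inner]
    push_cast
    refine Finset.sum_congr rfl fun x hx => ?_
    rw [inner_smul_left, Complex.conj_mul']
  set b := ∑ x ∈ F, ‖⟪e x, ψ⟫_ℂ‖ ^ 2 with hb
  have hb0 : 0 ≤ b := Finset.sum_nonneg fun x _ => by positivity
  have hψP : ⟪ψ, P⟫_ℂ = ((b : ℝ) : ℂ) := by
    rw [← inner_conj_symm, hPψ, Complex.conj_ofReal]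
  have hnorm : ‖ψ - P‖ ^ 2 = 1 - b := by
    have h1 : ((‖ψ - P‖ ^ 2 : ℝ) : ℂ) = ⟪ψ - P, ψ - P⟫_ℂ := by
      rw [inner_self_eq_norm_sq_to_K]; push_cast; rfl
    have h2 : ⟪ψ, ψ⟫_ℂ = 1 := by
      rw [inner_self_eq_norm_sq_to_K, hψ]; simp
    have h3 : ((‖ψ - P‖ ^ 2 : ℝ) : ℂ) = ((1 - b : ℝ) : ℂ) := by
      rw [h1, inner_sub_left, inner_sub_right, inner_sub_right, h2, hψP, hPψ, hPP]
      push_cast
      ring
    exact_mod_cast h3
  set q := ∑ x ∈ F, ‖⟪e x, w⟫_ℂ‖ ^ 2 with hq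
  have hq0 : 0 ≤ q := Finset.sum_nonneg fun x _ => by positivity
  have hb1 : b ≤ 1 := by
    have := sq_nonneg ‖ψ - P‖
    linarith
  -- `|⟪w, P⟫| ≤ √q`
  have hwP : ‖⟪w, P⟫_ℂ‖ ≤ √q := by
    have h1 : ⟪w, P⟫_ℂ = ∑ x ∈ F, ⟪e x, ψ⟫_ℂ * ⟪w, e x⟫_ℂ := by
      rw [hP, inner_sum]
      refine Finset.sum_congr rfl fun x _ => ?_
      rw [inner_smul_right]
    have h2 : ‖⟪w, P⟫_ℂ‖ ≤ ∑ x ∈ F, ‖⟪e x, ψ⟫_ℂ‖ * ‖⟪e x, w⟫_ℂ‖ := by
      rw [h1]
      refine (norm_sum_le _ _).trans (Finset.sum_le_sum fun x _ => ?_)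
      rw [norm_mul, norm_inner_symm w (e x)]
    have h3 : (∑ x ∈ F, ‖⟪e x, ψ⟫_ℂ‖ * ‖⟪e x, w⟫_ℂ‖) ^ 2 ≤ b * q :=
      Finset.sum_mul_sq_le_sq_mul_sq F _ _
    refine h2.trans (Real.le_sqrt_of_sq_le (h3.trans ?_))
    nlinarith
  have hwψ : m ≤ ‖ψ - P‖ + √q := by
    have h1 : ⟪w, ψ⟫_ℂ = ⟪w, ψ - P⟫_ℂ + ⟪w, P⟫_ℂ := by
      rw [inner_sub_right]; ring
    have h2 : ‖⟪w, ψ - P⟫_ℂ‖ ≤ ‖ψ - P‖ := by
      refine (norm_inner_le_norm _ _).trans ?_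
      exact mul_le_of_le_one_left (norm_nonneg _) hw
    have h3 : m = ‖⟪w, ψ⟫_ℂ‖ := by
      rw [hin, Complex.norm_real, Real.norm_of_nonneg hm]
    rw [h3, h1]
    exact (norm_add_le _ _).trans (add_le_add h2 hwP)
  have h4 : m ^ 2 ≤ (‖ψ - P‖ + √q) ^ 2 := pow_le_pow_left₀ hm hwψ 2
  have h5 := Real.sq_sqrt hq0
  nlinarith [sq_nonneg (‖ψ - P‖ - √q)]

end model

end Pool.Agent.Lib.MP_562b47_mp
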