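import Mathlib
import Pool.Agent.Lib.MP_562b47_mp.EscDet2

/-!
The escape estimate for a fixed realisation.  (Anderson model, MP_562b47_mp.)
-/

open MeasureTheory Set Filter Topology Complex
open scoped Real ENNReal NNReal InnerProductSpace

namespace Pool.Agent.Lib.MP_562b47_mp

theorem integral_kap_real (f : ℝ → ℝ) : ∫ s, f s ∂kap = ∫ s, π⁻¹ * (1 + s ^ 2)⁻¹ * f s := by
  rw [kap_eq, integral_withDensity_eq_integral_toReal_smul (by fun_prop)
    (ae_of_all _ fun x => ENNReal.ofReal_lt_top)]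
  refine integral_congr_ae (ae_of_all _ fun x => ?_)
  simp only [smul_eq_mul]
  rw [ENNReal.toReal_ofReal (by positivity)]

theorem integral_vol_kap (f : ℝ → ℝ) : ∫ s, f s = ∫ s, (π * (1 + s ^ 2)) * f s ∂kap := by
  rw [integral_kap_real]
  refine integral_congr_ae (ae_of_all _ fun s => ?_)
  have h1 : (1 + s ^ 2) ≠ 0 := by positivity
  have h2 := Real.pi_ne_zero
  simp only
  field_simp

theorem integrable_vol_of_kap {f : ℝ → ℝ} (hf : Integrable (fun s => (1 + s ^ 2) * f s) kap) :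
    Integrable f := by
  rw [kap_eq, integrable_withDensity_iff (by fun_prop) (ae_of_all _ fun x =>
    ENNReal.ofReal_lt_top)] at hf
  refine (hf.const_mul π).congr (ae_of_all _ fun s => ?_)
  simp only
  rw [ENNReal.toReal_ofReal (by positivity)]
  have h1 : (1 + s ^ 2) ≠ 0 := by positivity
  have h2 := Real.pi_ne_zero
  field_simp

section model

variable {Λ : Type*} [DecidableEq Λ] {E : Type*}
  [NormedAddCommGroup E] [InnerProductSpace ℂ E] [CompleteSpace E] {c : ℝ} {e : Λ → E}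
  {H : (Λ → ℝ) → (E →L[ℂ] E)}

/-- the set where the boundary values exist and are bounded at the origin -/
def SS [Zero Λ] (e : Λ → E) (H : (Λ → ℝ) → (E →L[ℂ] E)) (φ : ℕ → ℕ) (n : ℕ) :
    Set ((Λ → ℝ) × ℝ) :=
  {p | p ∈ CV (gI e H φ) ∧ |p.2| ≤ n ∧ Lm (gI e H φ) 0 0 p ≤ n}

theorem Model.measurable_L [Countable Λ] (M : Model c e H) (φ : ℕ → ℕ) (x y : Λ) :
    Measurable (Lm (gI e H φ) x y) := by
  have := PP_prob Λ M.hc
  exact (M.gramHyp φ).measurable_Lm x y

theorem Model.measurable_CV [Countable Λ] (M : Model c e H) (φ : ℕ → ℕ) :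
    MeasurableSet (CV (gI e H φ)) := by
  have := PP_prob Λ M.hc
  exact (M.gramHyp φ).measurableSet_CV

theorem Model.L_nonneg [Countable Λ] (M : Model c e H) {φ : ℕ → ℕ} {p : (Λ → ℝ) × ℝ}
    (hp : p ∈ CV (gI e H φ)) (x : Λ) : 0 ≤ Lm (gI e H φ) x x p := by
  have := PP_prob Λ M.hc
  exact (M.gramHyp φ).Lm_nonneg hp x

theorem Model.L_sq_le [Countable Λ] (M : Model c e H) {φ : ℕ → ℕ} {p : (Λ → ℝ) × ℝ}
    (hp : p ∈ CV (gI e H φ)) (x y : Λ) :
    Lm (gI e H φ) x y p ^ 2 ≤ Lm (gI e H φ) x x p * Lm (gI e H φ) y y p := by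
  have := PP_prob Λ M.hc
  exact (M.gramHyp φ).Lm_sq_le hp x y

theorem Model.measurableSet_SS [Zero Λ] [Countable Λ] (M : Model c e H) (φ : ℕ → ℕ)
    (n : ℕ) : MeasurableSet (SS e H φ n) := by
  refine (M.measurable_CV φ).inter (MeasurableSet.inter ?_ ?_)
  · exact measurableSet_le (f := fun p : (Λ → ℝ) × ℝ => |p.2|)
      (continuous_abs.measurable.comp measurable_snd) measurable_const
  · exact measurableSet_le (M.measurable_L φ 0 0) measurable_const

/-- mass of the projected vector -/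
noncomputable def mm [Zero Λ] (e : Λ → E) (H : (Λ → ℝ) → (E →L[ℂ] E)) (φ : ℕ → ℕ) (n : ℕ)
    (ω : Λ → ℝ) : ℝ := ∫ s, (SS e H φ n).indicator (Lm (gI e H φ) 0 0) (ω, s) ∂kap

/-- mean square of the off diagonal boundary values -/
noncomputable def qq [Zero Λ] (e : Λ → E) (H : (Λ → ℝ) → (E →L[ℂ] E)) (φ : ℕ → ℕ) (n : ℕ)
    (x : Λ) (ω : Λ → ℝ) : ℝ :=
  ∫ s, (SS e H φ n).indicator (fun p => Lm (gI e H φ) x 0 p ^ 2) (ω, s) ∂kap

theorem Model.det_escape [AddCommGroup Λ] [Countable Λ] (M : Model c e H) (ω : Λ → ℝ) {φ : ℕ → ℕ}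
    (hφ : StrictMono φ) (hL : ∀ᵐ s ∂kap, (ω, s) ∈ CV (gI e H φ)) (n : ℕ) {T : ℝ} (hT : 0 < T)
    (F : Finset Λ) :
    T * mm e H φ n ω ^ 2 / 2 - 2 * rexp 1 * (1 + (n:ℝ) ^ 2) * ∑ x ∈ F, qq e H φ n x ω
      ≤ ∫ t in (0:ℝ)..T, (1 - ∑ x ∈ F, ‖⟪e x, Ut H ω t (e 0)⟫_ℂ‖ ^ 2) := by
  have hSS := M.measurableSet_SS φ n
  set S : Set ℝ := {s | (ω, s) ∈ SS e H φ n} with hS
  have hSm : MeasurableSet S := measurable_prodMk_left hSS
  set L : Λ → Λ → ℝ → ℝ := fun x y s => Lm (gI e H φ) x y (ω, s) with hLdef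
  have hLm : ∀ x y, Measurable (L x y) := fun x y =>
    (M.measurable_L φ x y).comp measurable_prodMk_left
  -- the null set carrying the singular parts
  have hsing : ∀ u : E, ∃ G : Set ℝ, MeasurableSet G ∧ (sm (M.sa ω) u).singularPart volume G = 0
      ∧ volume Gᶜ = 0 := by
    intro u
    obtain ⟨G, h1, h2, h3⟩ := Measure.mutuallySingular_singularPart (sm (M.sa ω) u)
      (volume : Measure ℝ)
    exact ⟨G, h1, h2, h3⟩
  choose G hGm hG1 hG2 using hsing
  set GG : Set ℝ := G (e 0) ∩ ⋂ x : Λ, (G (e x + e 0) ∩ G (e x - e 0)) with hGG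
  have hGGm : MeasurableSet GG :=
    (hGm _).inter (MeasurableSet.iInter fun x => (hGm _).inter (hGm _))
  have hGGae : ∀ᵐ s : ℝ, s ∈ GG := by
    have h1 : ∀ u, ∀ᵐ s : ℝ, s ∈ G u := fun u => by
      rw [ae_iff]
      exact hG2 u
    have h2 : ∀ᵐ s : ℝ, ∀ x : Λ, s ∈ G (e x + e 0) ∧ s ∈ G (e x - e 0) := by
      rw [ae_all_iff]
      exact fun x => (h1 _).and (h1 _)
    filter_upwards [h1 (e 0), h2] with s hs1 hs2
    exact ⟨hs1, Set.mem_iInter.mpr fun x => hs2 x⟩
  set TT : Set ℝ := S ∩ GG with hTT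
  have hTTm : MeasurableSet TT := hSm.inter hGGm
  have hTTS : ∀ f : ℝ → ℝ, ∀ᵐ s : ℝ, TT.indicator f s = S.indicator f s := by
    intro f
    filter_upwards [hGGae] with s hs
    by_cases h : s ∈ S
    · rw [Set.indicator_of_mem h, Set.indicator_of_mem (show s ∈ TT from ⟨h, hs⟩)]
    · rw [Set.indicator_of_notMem h, Set.indicator_of_notMem (fun h' => h h'.1)]
  have hs0 : (sm (M.sa ω) (e 0)).singularPart volume TT = 0 :=
    measure_mono_null (fun s hs => hs.2.1) (hG1 _)
  have hsp : ∀ x, (sm (M.sa ω) (e x + e 0)).singularPart volume TT = 0 := fun x =>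
    measure_mono_null (fun s hs => (Set.mem_iInter.mp hs.2.2 x).1) (hG1 _)
  have hsm : ∀ x, (sm (M.sa ω) (e x - e 0)).singularPart volume TT = 0 := fun x =>
    measure_mono_null (fun s hs => (Set.mem_iInter.mp hs.2.2 x).2) (hG1 _)
  obtain ⟨v, hv1, hv2⟩ := exists_proj' (sm_spec (M.sa ω) (e 0)) hTTm
  set μ0 := sm (M.sa ω) (e 0) with hμ0
  set m : ℝ := μ0.real TT with hm
  have hm0 : 0 ≤ m := measureReal_nonneg
  have hvn : ‖v‖ ^ 2 = m := by
    rw [← hv1.mass (M.sa ω), hm, measureReal_def, measureReal_def, Measure.restrict_apply_univ]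
  have hv1' : ‖v‖ ≤ 1 := by
    have h1 : m ≤ 1 := by
      have h2 := (sm_spec (M.sa ω) (e 0)).mass (M.sa ω)
      rw [M.ortho.1 0, one_pow] at h2
      rw [← h2]
      exact measureReal_mono (subset_univ _)
    nlinarith [norm_nonneg v]
  have hin0 : ⟪e 0, v⟫_ℂ = (m : ℂ) := by
    obtain ⟨f, h01, hf⟩ := exists_approx μ0 hTTm
    have h1 := hv2 f h01 hf
    have h2 : Tendsto (fun k => ⟪e 0, cfc (⇑(f k)) (H ω) (e 0)⟫_ℂ) atTop (𝓝 ⟪e 0, v⟫_ℂ) :=
      tendsto_const_nhds.inner h1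
    have h3 := tendsto_integral_approx μ0 hTTm hf (h := fun _ => 1) continuous_const
      (fun _ => by simp)
    have h4 : ∀ k, ⟪e 0, cfc (⇑(f k)) (H ω) (e 0)⟫_ℂ = ∫ x, (1:ℂ) * (f k x : ℂ) ∂μ0 := by
      intro k
      rw [← sm_spec (M.sa ω) (e 0) (f k), ← integral_complex_ofReal]
      simp [hμ0]
    have h5 := tendsto_nhds_unique (h2.congr h4) h3
    rw [h5]
    simp [hm]
  -- densities
  have hdens := fun x => M.dens ω hφ hL x 0
  have hFT : ∀ x t, ⟪e x, Ut H ω t v⟫_ℂ = FT (TT.indicator fun s => π⁻¹ * L x 0 s) t :=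
    fun x t => M.inner_FT ω x hTTm (hsp x) (hsm x) hv2 ((hdens x).mono fun s hs => hs.2) t
  have hLxx : ∀ x, Integrable (L x x) := fun x => by
    refine ((integrable_rn (sm (M.sa ω) (e x))).const_mul π).congr ?_
    filter_upwards [ac_kap.ae_le (hdens x)] with s hs
    exact hs.1
  have hLxxk : ∀ x, Integrable (L x x) kap := fun x => by
    refine (integrable_DD (M.sa ω) (e x)).congr ?_
    filter_upwards [hdens x] with s hs
    exact hs.1
  have hLx0 : ∀ x, Integrable (L x 0) := fun x => by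
    have h1 := (((integrable_rn (sm (M.sa ω) (e x + e 0))).const_mul π).sub
      ((integrable_rn (sm (M.sa ω) (e x - e 0))).const_mul π)).div_const 4
    refine h1.congr ?_
    filter_upwards [ac_kap.ae_le (hdens x)] with s hs
    have h2 := hs.2
    unfold DD Dens at h2
    simp only [Pi.sub_apply]
    rw [h2]
    simp only [hLdef]
    ring
  have hSle : ∀ x s, s ∈ S → L x 0 s ^ 2 ≤ n * L x x s := by
    intro x s hs
    have h1 := M.L_sq_le hs.1 x 0
    have h2 := M.L_nonneg hs.1 x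
    have h3 := M.L_nonneg hs.1 0
    have h4 : L 0 0 s ≤ n := hs.2.2
    simp only [hLdef] at h4 ⊢
    nlinarith
  set g : Λ → ℝ → ℝ := fun x => TT.indicator fun s => π⁻¹ * L x 0 s with hg
  have hgi : ∀ x, Integrable (g x) := fun x => ((hLx0 x).const_mul π⁻¹).indicator hTTm
  have hgsq : ∀ x s, g x s ^ 2 = TT.indicator (fun s => π⁻¹ ^ 2 * L x 0 s ^ 2) s := by
    intro x s
    by_cases h : s ∈ TT
    · simp only [hg, Set.indicator_of_mem h]; ring
    · simp only [hg, Set.indicator_of_notMem h]; ring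
  have hg2 : ∀ x, Integrable fun s => g x s ^ 2 := by
    intro x
    refine ((hLxx x).const_mul (π⁻¹ ^ 2 * n)).mono' ((hgi x).aestronglyMeasurable.pow 2) ?_
    filter_upwards [ac_kap.ae_le hL] with s hcv
    have hcv : (ω, s) ∈ CV (gI e H φ) := hcv
    rw [Real.norm_of_nonneg (sq_nonneg _), hgsq]
    have h2 := M.L_nonneg hcv x
    by_cases h : s ∈ TT
    · rw [Set.indicator_of_mem h, mul_assoc]
      exact mul_le_mul_of_nonneg_left (hSle x s h.1) (by positivity)
    · rw [Set.indicator_of_notMem h]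
      positivity
  have hqq : ∀ x, qq e H φ n x ω = ∫ s, S.indicator (fun s => L x 0 s ^ 2) s ∂kap := by
    intro x
    unfold qq
    refine integral_congr_ae (ae_of_all _ fun s => ?_)
    simp only
    by_cases h : s ∈ S
    · rw [Set.indicator_of_mem h, Set.indicator_of_mem (show (ω, s) ∈ SS e H φ n from h)]
    · rw [Set.indicator_of_notMem h, Set.indicator_of_notMem (show (ω, s) ∉ SS e H φ n from h)]
  have hqi : ∀ x, Integrable (S.indicator fun s => L x 0 s ^ 2) kap := by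
    intro x
    refine ((hLxxk x).const_mul n).mono' (((hLm x 0).pow_const 2).indicator
      hSm).aestronglyMeasurable ?_
    filter_upwards [hL] with s hcv
    have h2 := M.L_nonneg hcv x
    by_cases h : s ∈ S
    · rw [Set.indicator_of_mem h, Real.norm_of_nonneg (sq_nonneg _)]
      exact hSle x s h
    · rw [Set.indicator_of_notMem h, norm_zero]
      positivity
  have hgint : ∀ x, ∫ s, g x s ^ 2 ≤ π⁻¹ * (1 + (n:ℝ) ^ 2) * qq e H φ n x ω := by
    intro x
    have h1 : ∫ s, g x s ^ 2 = ∫ s, S.indicator (fun s => π⁻¹ ^ 2 * L x 0 s ^ 2) s := by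
      simp_rw [hgsq]
      exact integral_congr_ae (hTTS _)
    rw [h1, integral_vol_kap, hqq, ← integral_const_mul]
    refine integral_mono_of_nonneg (ae_of_all _ fun s => ?_) ((hqi x).const_mul _)
      (ae_of_all _ fun s => ?_)
    · have : 0 ≤ S.indicator (fun s => π⁻¹ ^ 2 * L x 0 s ^ 2) s :=
        Set.indicator_nonneg (fun s _ => by positivity) s
      simp only [Pi.zero_apply]
      positivity
    · simp only
      by_cases h : s ∈ S
      · rw [Set.indicator_of_mem h, Set.indicator_of_mem h]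
        have h3 : s ^ 2 ≤ (n:ℝ) ^ 2 := by
          rw [← sq_abs s]
          exact pow_le_pow_left₀ (abs_nonneg _) h.2.1 2
        have e1 : π * (1 + s ^ 2) * (π⁻¹ ^ 2 * L x 0 s ^ 2) = π⁻¹ * (1 + s ^ 2) * L x 0 s ^ 2 := by
          have := Real.pi_ne_zero
          field_simp
        rw [e1]
        gcongr
      · rw [Set.indicator_of_notMem h, Set.indicator_of_notMem h]
        simp
  -- the mass
  have hmm : mm e H φ n ω = ∫ s, S.indicator (L 0 0) s ∂kap := by
    unfold mm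
    refine integral_congr_ae (ae_of_all _ fun s => ?_)
    simp only
    by_cases h : s ∈ S
    · rw [Set.indicator_of_mem h, Set.indicator_of_mem (show (ω, s) ∈ SS e H φ n from h)]
    · rw [Set.indicator_of_notMem h, Set.indicator_of_notMem (show (ω, s) ∉ SS e H φ n from h)]
  have hS0 : ∀ s, 0 ≤ S.indicator (L 0 0) s := fun s =>
    Set.indicator_nonneg (fun s hs => M.L_nonneg hs.1 0) s
  have hmm0 : 0 ≤ mm e H φ n ω := by
    rw [hmm]
    exact integral_nonneg hS0
  have hmval : m = ∫ s, (1 + s ^ 2) * S.indicator (L 0 0) s ∂kap := by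
    have h1 := setIntegral_ac μ0 hTTm hs0 (fun _ => 1)
    have h2 : ∫ x in TT, (1:ℂ) ∂μ0 = (m : ℂ) := by simp [hm]
    have h3 : ∫ x in TT, ((π⁻¹ * Dens μ0 x : ℝ) : ℂ) * 1
        = ((∫ x in TT, π⁻¹ * Dens μ0 x : ℝ) : ℂ) := by
      rw [← integral_complex_ofReal]
      simp
    rw [h2, h3] at h1
    have h4 : m = ∫ x in TT, π⁻¹ * Dens μ0 x := by exact_mod_cast h1
    rw [h4, ← integral_indicator hTTm]
    have h5 : ∫ x, TT.indicator (fun x => π⁻¹ * Dens μ0 x) x
        = ∫ x, S.indicator (fun x => π⁻¹ * L 0 0 x) x := by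
      refine integral_congr_ae ?_
      filter_upwards [hTTS (fun x => π⁻¹ * Dens μ0 x), ac_kap.ae_le (hdens 0)] with s hs1 hs2
      rw [hs1]
      by_cases h : s ∈ S
      · rw [Set.indicator_of_mem h, Set.indicator_of_mem h]
        congr 1
        exact hs2.1
      · rw [Set.indicator_of_notMem h, Set.indicator_of_notMem h]
    rw [h5, integral_vol_kap]
    refine integral_congr_ae (ae_of_all _ fun s => ?_)
    simp only
    have := Real.pi_ne_zero
    by_cases h : s ∈ S
    · rw [Set.indicator_of_mem h, Set.indicator_of_mem h]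
      field_simp
    · rw [Set.indicator_of_notMem h, Set.indicator_of_notMem h]
      simp
  have hmle : mm e H φ n ω ≤ m := by
    rw [hmm, hmval]
    refine integral_mono_of_nonneg (ae_of_all _ hS0) ?_ (ae_of_all _ fun s => ?_)
    · refine Integrable.of_bound (C := (1 + (n:ℝ) ^ 2) * n) ?_ (ae_of_all _ fun s => ?_)
      · exact (Measurable.mul (by fun_prop) ((hLm 0 0).indicator hSm)).aestronglyMeasurable
      · rw [Real.norm_of_nonneg (mul_nonneg (by positivity) (hS0 s))]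
        by_cases h : s ∈ S
        · rw [Set.indicator_of_mem h]
          have h3 : s ^ 2 ≤ (n:ℝ) ^ 2 := by
            rw [← sq_abs s]
            exact pow_le_pow_left₀ (abs_nonneg _) h.2.1 2
          have h4 : L 0 0 s ≤ n := h.2.2
          have h5 : 0 ≤ L 0 0 s := M.L_nonneg h.1 0
          gcongr
        · rw [Set.indicator_of_notMem h, mul_zero]
          positivity
    · simp only
      have := hS0 s
      nlinarith [sq_nonneg s]
  -- the pointwise inequality
  have hUin : ∀ t, ⟪Ut H ω t v, Ut H ω t (e 0)⟫_ℂ = (m : ℂ) := by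
    intro t
    rw [← ContinuousLinearMap.adjoint_inner_right, Ut_adjoint (M.sa ω)]
    have h1 : Ut H ω (-t) (Ut H ω t (e 0)) = e 0 := by
      have h2 := Ut_add H ω (-t) t
      rw [neg_add_cancel, Ut_zero] at h2
      have h3 := congrArg (fun A : E →L[ℂ] E => A (e 0)) h2
      exact h3.symm
    rw [h1, ← inner_conj_symm, hin0, Complex.conj_ofReal]
  have hpt : ∀ t, m ^ 2 / 2 - ∑ x ∈ F, ‖FT (g x) t‖ ^ 2
      ≤ 1 - ∑ x ∈ F, ‖⟪e x, Ut H ω t (e 0)⟫_ℂ‖ ^ 2 := by
    intro t
    have h1 := escape_ineq M (ψ := Ut H ω t (e 0)) (w := Ut H ω t v)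
      (by rw [norm_Ut_apply (M.sa ω), M.ortho.1]) (by rw [norm_Ut_apply (M.sa ω)]; exact hv1')
      hm0 (hUin t) F
    simp_rw [hFT] at h1
    exact h1
  have hcont : Continuous fun t => 1 - ∑ x ∈ F, ‖⟪e x, Ut H ω t (e 0)⟫_ℂ‖ ^ 2 := by
    have h1 : Continuous fun t => Ut H ω t := continuous_iff_continuousAt.mpr fun t =>
      (hasDerivAt_Ut H ω t).continuousAt
    have h2 : Continuous fun t => Ut H ω t (e 0) := h1.clm_apply continuous_const
    fun_prop
  have hcontF : ∀ x, Continuous fun t => ‖FT (g x) t‖ ^ 2 := fun x =>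
    (continuous_FT (hgi x)).norm.pow 2
  calc T * mm e H φ n ω ^ 2 / 2 - 2 * rexp 1 * (1 + (n:ℝ) ^ 2) * ∑ x ∈ F, qq e H φ n x ω
      ≤ T * (m ^ 2 / 2) - ∑ x ∈ F, ∫ t in (0:ℝ)..T, ‖FT (g x) t‖ ^ 2 := by
        have h1 : mm e H φ n ω ^ 2 ≤ m ^ 2 := pow_le_pow_left₀ hmm0 hmle 2
        have h2 : ∑ x ∈ F, ∫ t in (0:ℝ)..T, ‖FT (g x) t‖ ^ 2
            ≤ 2 * rexp 1 * (1 + (n:ℝ) ^ 2) * ∑ x ∈ F, qq e H φ n x ω := by
          rw [Finset.mul_sum]
          refine Finset.sum_le_sum fun x _ => ?_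
          refine (FT_le (hgi x) (hg2 x) hT).trans ?_
          calc 2 * π * rexp 1 * ∫ s, g x s ^ 2
              ≤ 2 * π * rexp 1 * (π⁻¹ * (1 + (n:ℝ) ^ 2) * qq e H φ n x ω) := by
                gcongr
                exact hgint x
            _ = _ := by
                have := Real.pi_ne_zero
                field_simp
        have h3 : T * mm e H φ n ω ^ 2 / 2 ≤ T * (m ^ 2 / 2) := by nlinarith
        linarith
    _ = ∫ t in (0:ℝ)..T, (m ^ 2 / 2 - ∑ x ∈ F, ‖FT (g x) t‖ ^ 2) := by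
        rw [intervalIntegral.integral_sub (by simp)
          (Continuous.intervalIntegrable (continuous_finsetSum _ fun x _ => hcontF x) _ _),
          intervalIntegral.integral_const, intervalIntegral.integral_finsetSum
          (fun x _ => (hcontF x).intervalIntegrable _ _)]
        simp
    _ ≤ _ := by
        refine intervalIntegral.integral_mono_on hT.le
          (Continuous.intervalIntegrable (continuous_const.sub
            (continuous_finsetSum _ fun x _ => hcontF x)) _ _)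
          (hcont.intervalIntegrable _ _) fun t _ => hpt t

end model

end Pool.Agent.Lib.MP_562b47_mp
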