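import Mathlib
import Pool.Agent.Lib.MP_562b47_mp.EscDet3

/-!
Averages of the boundary values over the disorder.  (Anderson model, MP_562b47_mp.)
-/

open MeasureTheory Set Filter Topology Complex
open scoped Real ENNReal NNReal InnerProductSpace

namespace Pool.Agent.Lib.MP_562b47_mp

variable {Λ : Type*} [DecidableEq Λ] [AddCommGroup Λ] [Countable Λ] {E : Type*}
  [NormedAddCommGroup E] [InnerProductSpace ℂ E] [CompleteSpace E] {c : ℝ} {e : Λ → E}
  {H : (Λ → ℝ) → (E →L[ℂ] E)}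

theorem Model.integrable_L (M : Model c e H) {φ : ℕ → ℕ} (hφ : StrictMono φ)
    (hL : ∀ᵐ p ∂((PP Λ c).prod kap), p ∈ CV (gI e H φ)) (x : Λ) :
    Integrable (Lm (gI e H φ) x x) ((PP Λ c).prod kap) ∧
      ∫ p, Lm (gI e H φ) x x p ∂((PP Λ c).prod kap) ≤ 1 := by
  have := PP_prob Λ M.hc
  have hm := M.measurable_L φ x x
  have hle : ∫⁻ p, ENNReal.ofReal (Lm (gI e H φ) x x p) ∂((PP Λ c).prod kap) ≤ 1 := by
    rw [lintegral_prod _ hm.ennreal_ofReal.aemeasurable]
    calc ∫⁻ ω, ∫⁻ s, ENNReal.ofReal (Lm (gI e H φ) x x (ω, s)) ∂kap ∂(PP Λ c)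
        ≤ ∫⁻ _ω, 1 ∂(PP Λ c) := by
          refine lintegral_mono_ae ?_
          filter_upwards [Measure.ae_ae_of_ae_prod hL] with ω hω
          have h1 := M.dens ω hφ hω x 0
          have h2 : Integrable (fun s => Lm (gI e H φ) x x (ω, s)) kap := by
            refine (integrable_DD (M.sa ω) (e x)).congr ?_
            filter_upwards [h1] with s hs
            exact hs.1
          have h3 : ∫ s, Lm (gI e H φ) x x (ω, s) ∂kap ≤ 1 := by
            have h4 := integral_DD_le (M.sa ω) (e x)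
            rw [M.ortho.1, one_pow] at h4
            refine le_trans (le_of_eq ?_) h4
            refine integral_congr_ae ?_
            filter_upwards [h1] with s hs
            exact hs.1.symm
          rw [← ofReal_integral_eq_lintegral_ofReal h2 (hω.mono fun s hs => M.L_nonneg hs x)]
          rw [← ENNReal.ofReal_one]
          exact ENNReal.ofReal_le_ofReal h3
      _ = 1 := by simp
  have h0 : ∀ᵐ p ∂((PP Λ c).prod kap), 0 ≤ Lm (gI e H φ) x x p :=
    hL.mono fun p hp => M.L_nonneg hp x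
  have hint : Integrable (Lm (gI e H φ) x x) ((PP Λ c).prod kap) := by
    refine ⟨hm.aestronglyMeasurable, ?_⟩
    rw [hasFiniteIntegral_iff_ofReal h0]
    exact lt_of_le_of_lt hle ENNReal.one_lt_top
  refine ⟨hint, ?_⟩
  have h1 := ofReal_integral_eq_lintegral_ofReal hint h0
  rw [← h1, ← ENNReal.ofReal_one] at hle
  exact (ENNReal.ofReal_le_ofReal_iff zero_le_one).mp hle

/-- the off diagonal boundary values are controlled on `SS` -/
theorem Model.SS_sq_le (M : Model c e H) {φ : ℕ → ℕ} {n : ℕ} {p : (Λ → ℝ) × ℝ}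
    (hp : p ∈ SS e H φ n) (x : Λ) :
    Lm (gI e H φ) x 0 p ^ 2 ≤ n * Lm (gI e H φ) x x p := by
  have h1 := M.L_sq_le hp.1 x 0
  have h2 := M.L_nonneg hp.1 x
  have h3 := M.L_nonneg hp.1 0
  have h4 : Lm (gI e H φ) 0 0 p ≤ n := hp.2.2
  nlinarith

theorem Model.integrable_off (M : Model c e H) {φ : ℕ → ℕ} (hφ : StrictMono φ)
    (hL : ∀ᵐ p ∂((PP Λ c).prod kap), p ∈ CV (gI e H φ)) (n : ℕ) (x : Λ) :
    Integrable ((SS e H φ n).indicator fun p => Lm (gI e H φ) x 0 p ^ 2) ((PP Λ c).prod kap) := by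
  refine ((M.integrable_L hφ hL x).1.const_mul n).mono'
    (((M.measurable_L φ x 0).pow_const 2).indicator
      (M.measurableSet_SS φ n)).aestronglyMeasurable ?_
  filter_upwards [hL] with p hp
  have h2 := M.L_nonneg hp x
  by_cases h : p ∈ SS e H φ n
  · rw [Set.indicator_of_mem h, Real.norm_of_nonneg (sq_nonneg _)]
    exact M.SS_sq_le h x
  · rw [Set.indicator_of_notMem h, norm_zero]
    positivity

/-- averaged mean square of the off diagonal boundary values -/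
noncomputable def qb (c : ℝ) (e : Λ → E) (H : (Λ → ℝ) → (E →L[ℂ] E)) (φ : ℕ → ℕ) (n : ℕ)
    (x : Λ) : ℝ :=
  ∫ p, (SS e H φ n).indicator (fun p => Lm (gI e H φ) x 0 p ^ 2) p ∂((PP Λ c).prod kap)

theorem Model.integral_qq (M : Model c e H) {φ : ℕ → ℕ} (hφ : StrictMono φ)
    (hL : ∀ᵐ p ∂((PP Λ c).prod kap), p ∈ CV (gI e H φ)) (n : ℕ) (x : Λ) :
    Integrable (qq e H φ n x) (PP Λ c) ∧ ∫ ω, qq e H φ n x ω ∂(PP Λ c) = qb c e H φ n x := by
  have := PP_prob Λ M.hc
  exact ⟨(M.integrable_off hφ hL n x).integral_prod_left,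
    (integral_prod _ (M.integrable_off hφ hL n x)).symm⟩

theorem Model.qb_le (M : Model c e H) {φ : ℕ → ℕ} (hφ : StrictMono φ)
    (hL : ∀ᵐ p ∂((PP Λ c).prod kap), p ∈ CV (gI e H φ)) (n : ℕ) (x : Λ) :
    qb c e H φ n x ≤ n := by
  have h1 := M.integrable_L hφ hL x
  calc qb c e H φ n x ≤ ∫ p, n * Lm (gI e H φ) x x p ∂((PP Λ c).prod kap) := by
        refine integral_mono_ae (M.integrable_off hφ hL n x) (h1.1.const_mul n) ?_
        filter_upwards [hL] with p hp
        have h2 := M.L_nonneg hp x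
        by_cases h : p ∈ SS e H φ n
        · rw [Set.indicator_of_mem h]
          exact M.SS_sq_le h x
        · rw [Set.indicator_of_notMem h]
          positivity
    _ = n * ∫ p, Lm (gI e H φ) x x p ∂((PP Λ c).prod kap) := integral_const_mul _ _
    _ ≤ n * 1 := by gcongr; exact h1.2
    _ = n := mul_one _

theorem Model.measurable_mm (M : Model c e H) (φ : ℕ → ℕ) (n : ℕ) :
    Measurable (mm e H φ n) := by
  have h1 : Measurable ((SS e H φ n).indicator (Lm (gI e H φ) 0 0)) :=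
    (M.measurable_L φ 0 0).indicator (M.measurableSet_SS φ n)
  exact h1.stronglyMeasurable.integral_prod_right'.measurable

theorem Model.SS_ind_nonneg (M : Model c e H) (φ : ℕ → ℕ) (n : ℕ) (p : (Λ → ℝ) × ℝ) :
    0 ≤ (SS e H φ n).indicator (Lm (gI e H φ) 0 0) p :=
  Set.indicator_nonneg (fun _ hp => M.L_nonneg hp.1 0) p

omit [DecidableEq Λ] [Countable Λ] [CompleteSpace E] in
theorem SS_ind_le (φ : ℕ → ℕ) (n : ℕ) (p : (Λ → ℝ) × ℝ) :
    (SS e H φ n).indicator (Lm (gI e H φ) 0 0) p ≤ n := by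
  by_cases h : p ∈ SS e H φ n
  · rw [Set.indicator_of_mem h]; exact h.2.2
  · rw [Set.indicator_of_notMem h]; positivity

theorem Model.integrable_SS_ind (M : Model c e H) (φ : ℕ → ℕ) (n : ℕ) (ω : Λ → ℝ) :
    Integrable (fun s => (SS e H φ n).indicator (Lm (gI e H φ) 0 0) (ω, s)) kap := by
  have h1 : Measurable ((SS e H φ n).indicator (Lm (gI e H φ) 0 0)) :=
    (M.measurable_L φ 0 0).indicator (M.measurableSet_SS φ n)
  refine Integrable.of_bound (C := n)
    (h1.comp measurable_prodMk_left).aestronglyMeasurable (ae_of_all _ fun s => ?_)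
  rw [Real.norm_of_nonneg (M.SS_ind_nonneg φ n _)]
  exact SS_ind_le φ n _

theorem Model.mm_nonneg (M : Model c e H) (φ : ℕ → ℕ) (n : ℕ) (ω : Λ → ℝ) :
    0 ≤ mm e H φ n ω := integral_nonneg fun s => M.SS_ind_nonneg φ n _

theorem Model.mm_le (M : Model c e H) (φ : ℕ → ℕ) (n : ℕ) (ω : Λ → ℝ) :
    mm e H φ n ω ≤ n := by
  calc mm e H φ n ω ≤ ∫ _s, (n:ℝ) ∂kap :=
        integral_mono (M.integrable_SS_ind φ n ω) (integrable_const _) fun _ => SS_ind_le φ n _
    _ = n := by simp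

theorem Model.integrable_mm_sq (M : Model c e H) (φ : ℕ → ℕ) (n : ℕ) :
    Integrable (fun ω => mm e H φ n ω ^ 2) (PP Λ c) := by
  have := PP_prob Λ M.hc
  refine Integrable.of_bound (C := (n:ℝ) ^ 2)
    ((M.measurable_mm φ n).pow_const 2).aestronglyMeasurable (ae_of_all _ fun ω => ?_)
  rw [Real.norm_of_nonneg (sq_nonneg _)]
  exact pow_le_pow_left₀ (M.mm_nonneg φ n ω) (M.mm_le φ n ω) 2

/-- positivity of the mass -/
theorem Model.exists_mm_pos (M : Model c e H) {φ : ℕ → ℕ} (hφ : StrictMono φ)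
    (hL : ∀ᵐ p ∂((PP Λ c).prod kap), p ∈ CV (gI e H φ))
    (hns : ¬ ∀ᵐ ω ∂(PP Λ c), ∀ μ : Measure ℝ, IsFiniteMeasure μ → IsSpec (H ω) (e 0) μ →
      μ ⟂ₘ volume) :
    ∃ n : ℕ, 0 < ∫ ω, mm e H φ n ω ^ 2 ∂(PP Λ c) := by
  have := PP_prob Λ M.hc
  by_contra hcon
  push Not at hcon
  apply hns
  have h1 : ∀ᵐ ω ∂(PP Λ c), ∀ n : ℕ, mm e H φ n ω = 0 := by
    rw [ae_all_iff]
    intro n
    have h2 : ∫ ω, mm e H φ n ω ^ 2 ∂(PP Λ c) = 0 :=
      le_antisymm (hcon n) (integral_nonneg fun ω => sq_nonneg _)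
    rw [integral_eq_zero_iff_of_nonneg (fun ω => sq_nonneg _) (M.integrable_mm_sq φ n)] at h2
    filter_upwards [h2] with ω hω
    exact pow_eq_zero_iff (two_ne_zero) |>.mp hω
  filter_upwards [h1, Measure.ae_ae_of_ae_prod hL] with ω hω hωL μ hμf hμ
  have h3 : ∀ᵐ s ∂kap, ∀ n : ℕ, (SS e H φ n).indicator (Lm (gI e H φ) 0 0) (ω, s) = 0 := by
    rw [ae_all_iff]
    intro n
    have h4 := hω n
    unfold mm at h4
    rw [integral_eq_zero_iff_of_nonneg (fun s => M.SS_ind_nonneg φ n _)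
      (M.integrable_SS_ind φ n ω)] at h4
    exact h4
  have h5 : μ = sm (M.sa ω) (e 0) := hμ.unique (sm_spec _ _)
  rw [h5, ← Measure.rnDeriv_eq_zero]
  have h6 : ∀ᵐ s ∂kap, Dens (sm (M.sa ω) (e 0)) s = 0 := by
    filter_upwards [h3, hωL, M.dens ω hφ hωL 0 0] with s hs hcv hd
    obtain ⟨n, hn⟩ := exists_nat_ge (max |s| (Lm (gI e H φ) 0 0 (ω, s)))
    have h7 := hs n
    rw [Set.indicator_of_mem (show (ω, s) ∈ SS e H φ n from
      ⟨hcv, (le_max_left _ _).trans hn, (le_max_right _ _).trans hn⟩)] at h7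
    rw [← h7]
    exact hd.1
  filter_upwards [ac_kap.ae_le h6, Measure.rnDeriv_lt_top (sm (M.sa ω) (e 0)) volume] with s hs hs2
  unfold Dens at hs
  have h8 := (mul_eq_zero.mp hs).resolve_left Real.pi_ne_zero
  rcases (ENNReal.toReal_eq_zero_iff _).mp h8 with h | h
  · exact h
  · exact absurd h hs2.ne

end Pool.Agent.Lib.MP_562b47_mp
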