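import Mathlib
import Pool.Agent.Lib.MP_562b47_mp.EscProb

/-!
Decay of the averaged off diagonal boundary values.  (Anderson model, MP_562b47_mp.)
-/

open MeasureTheory Set Filter Topology Complex
open scoped Real ENNReal NNReal InnerProductSpace

namespace Pool.Agent.Lib.MP_562b47_mp

variable {Λ : Type*} [DecidableEq Λ] [AddCommGroup Λ] [Countable Λ] {E : Type*}
  [NormedAddCommGroup E] [InnerProductSpace ℂ E] [CompleteSpace E] {c : ℝ} {e : Λ → E}
  {H : (Λ → ℝ) → (E →L[ℂ] E)}

omit [Countable Λ] [DecidableEq Λ] [CompleteSpace E] in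
/-- the diagonal boundary values at `x` are shifts of those at the origin -/
theorem Lm_shift (hcov : ShiftCov e H) (φ : ℕ → ℕ) (x : Λ) (ω : Λ → ℝ) (s : ℝ) :
    Lm (gI e H φ) 0 0 (fun j => ω (j + x), s) = Lm (gI e H φ) x x (ω, s) := by
  unfold Lm
  congr 1
  funext k
  unfold gI
  simp only
  rw [hcov x ω _ 0 0 (Zt_im_pos (tk_pos _) _), zero_add]

theorem Model.integral_shift (M : Model c e H) (hcov : ShiftCov e H) (φ : ℕ → ℕ) (x : Λ)
    {Φ : ℝ → ℝ} (hΦ : Measurable Φ) :
    ∫ p, Φ (Lm (gI e H φ) x x p) ∂((PP Λ c).prod kap)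
      = ∫ p, Φ (Lm (gI e H φ) 0 0 p) ∂((PP Λ c).prod kap) := by
  have := unif_prob M.hc
  have := PP_prob Λ M.hc
  have hT : MeasurePreserving (Prod.map (fun ω : Λ → ℝ => fun j => ω (j + x)) (id : ℝ → ℝ))
      ((PP Λ c).prod kap) ((PP Λ c).prod kap) :=
    (measurePreserving_shift (Λ := Λ) (unif c) x).prod (MeasurePreserving.id kap)
  have h1 : ∫ p, Φ (Lm (gI e H φ) 0 0 p) ∂((PP Λ c).prod kap)
      = ∫ p, Φ (Lm (gI e H φ) 0 0 (Prod.map (fun ω : Λ → ℝ => fun j => ω (j + x))
        (id : ℝ → ℝ) p)) ∂((PP Λ c).prod kap) := by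
    have h2 := integral_map (μ := (PP Λ c).prod kap) hT.measurable.aemeasurable
      (f := fun p => Φ (Lm (gI e H φ) 0 0 p))
      (hΦ.comp (M.measurable_L φ 0 0)).aestronglyMeasurable
    rw [hT.map_eq] at h2
    exact h2
  rw [h1]
  refine integral_congr_ae (ae_of_all _ fun p => ?_)
  simp only [Prod.map, id]
  rw [Lm_shift hcov]

omit [AddCommGroup Λ] in
/-- Fatou for the fractional moments -/
theorem Model.quarter_L_le (M : Model c e H) {φ : ℕ → ℕ}
    (hL : ∀ᵐ p ∂((PP Λ c).prod kap), p ∈ CV (gI e H φ)) (x y : Λ) {ε : ℝ} (hε : 0 ≤ ε)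
    (h : ∀ k, ∫ p, |gI e H φ k x y p| ^ (1/4 : ℝ) ∂((PP Λ c).prod kap) ≤ ε) :
    Integrable (fun p => |Lm (gI e H φ) x y p| ^ (1/4 : ℝ)) ((PP Λ c).prod kap) ∧
      ∫ p, |Lm (gI e H φ) x y p| ^ (1/4 : ℝ) ∂((PP Λ c).prod kap) ≤ ε := by
  have := PP_prob Λ M.hc
  have hG := M.gramHyp φ
  have hm : Measurable fun p => |Lm (gI e H φ) x y p| ^ (1/4 : ℝ) := by
    have := M.measurable_L φ x y
    fun_prop
  have hmk : ∀ k, Measurable fun p => |gI e H φ k x y p| ^ (1/4 : ℝ) := by
    intro k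
    have := hG.meas k x y
    fun_prop
  have h1 : ∫⁻ p, ENNReal.ofReal (|Lm (gI e H φ) x y p| ^ (1/4 : ℝ)) ∂((PP Λ c).prod kap)
      ≤ ENNReal.ofReal ε := by
    calc ∫⁻ p, ENNReal.ofReal (|Lm (gI e H φ) x y p| ^ (1/4 : ℝ)) ∂((PP Λ c).prod kap)
        = ∫⁻ p, liminf (fun k => ENNReal.ofReal (|gI e H φ k x y p| ^ (1/4 : ℝ))) atTop
          ∂((PP Λ c).prod kap) := by
          refine lintegral_congr_ae ?_
          filter_upwards [hL] with p hp
          have h2 : Tendsto (fun k => ENNReal.ofReal (|gI e H φ k x y p| ^ (1/4 : ℝ))) atTop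
              (𝓝 (ENNReal.ofReal (|Lm (gI e H φ) x y p| ^ (1/4 : ℝ)))) := by
            refine (ENNReal.continuous_ofReal.tendsto _).comp ?_
            exact ((tendsto_Lm hp x y).abs).rpow_const (Or.inr (by norm_num))
          exact h2.liminf_eq.symm
      _ ≤ liminf (fun k => ∫⁻ p, ENNReal.ofReal (|gI e H φ k x y p| ^ (1/4 : ℝ))
          ∂((PP Λ c).prod kap)) atTop :=
          lintegral_liminf_le fun k => (hmk k).ennreal_ofReal
      _ ≤ ENNReal.ofReal ε := by
          refine liminf_le_of_le (by isBoundedDefault) fun b hb => ?_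
          obtain ⟨k, hk⟩ := hb.exists
          refine hk.trans ?_
          rw [← ofReal_integral_eq_lintegral_ofReal (hG.int k x y)
            (ae_of_all _ fun p => by positivity)]
          exact ENNReal.ofReal_le_ofReal (h k)
  have hint : Integrable (fun p => |Lm (gI e H φ) x y p| ^ (1/4 : ℝ)) ((PP Λ c).prod kap) := by
    refine ⟨hm.aestronglyMeasurable, ?_⟩
    rw [hasFiniteIntegral_iff_ofReal (ae_of_all _ fun p => by positivity)]
    exact lt_of_le_of_lt h1 ENNReal.ofReal_lt_top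
  refine ⟨hint, ?_⟩
  rw [← ofReal_integral_eq_lintegral_ofReal hint (ae_of_all _ fun p => by positivity)] at h1
  exact (ENNReal.ofReal_le_ofReal_iff hε).mp h1

/-- the tail function -/
noncomputable def tl (B r : ℝ) : ℝ := if B < r then r else 0

theorem measurable_tl (B : ℝ) : Measurable (tl B) :=
  Measurable.ite measurableSet_Ioi measurable_id measurable_const

/-- the pointwise truncation inequality -/
theorem trunc_le {n B a l : ℝ} (hn : 0 ≤ n) (hB : 0 ≤ B) (h : a ^ 2 ≤ n * l) :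
    a ^ 2 ≤ (n * B) ^ (7/8 : ℝ) * |a| ^ (1/4 : ℝ) + n * tl B l := by
  unfold tl
  split_ifs with hBl
  · have : 0 ≤ (n * B) ^ (7/8 : ℝ) * |a| ^ (1/4 : ℝ) := by positivity
    linarith
  · push Not at hBl
    rw [mul_zero, add_zero]
    have h1 : a ^ 2 ≤ n * B := h.trans (by gcongr)
    have h2 : a ^ 2 = (a ^ 2) ^ (7/8 : ℝ) * |a| ^ (1/4 : ℝ) := by
      rw [← sq_abs]
      rcases eq_or_lt_of_le (abs_nonneg a) with h0 | h0
      · rw [← h0]
        rw [Real.zero_rpow (by norm_num : (1/4 : ℝ) ≠ 0)]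
        simp
      · rw [← Real.rpow_natCast, ← Real.rpow_mul h0.le, ← Real.rpow_add h0]
        norm_num
    calc a ^ 2 = (a ^ 2) ^ (7/8 : ℝ) * |a| ^ (1/4 : ℝ) := h2
      _ ≤ _ := by gcongr

/-- **Decay.** -/
theorem Model.qb_decay (M : Model c e H) (hcov : ShiftCov e H) {φ : ℕ → ℕ} (hφ : StrictMono φ)
    (hL : ∀ᵐ p ∂((PP Λ c).prod kap), p ∈ CV (gI e H φ)) (n : ℕ) {ε : ℝ} (hε : 0 < ε) :
    ∀ᶠ x in cofinite, qb c e H φ n x ≤ ε := by
  have := PP_prob Λ M.hc
  have hI0 := (M.integrable_L hφ hL 0).1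
  -- the tail
  have htail : Tendsto (fun B : ℕ => ∫ p, tl B (Lm (gI e H φ) 0 0 p) ∂((PP Λ c).prod kap)) atTop
      (𝓝 (∫ _p, (0:ℝ) ∂((PP Λ c).prod kap))) := by
    refine tendsto_integral_of_dominated_convergence (fun p => |Lm (gI e H φ) 0 0 p|)
      (fun B => ((measurable_tl _).comp (M.measurable_L φ 0 0)).aestronglyMeasurable) hI0.abs
      (fun B => ae_of_all _ fun p => ?_) (ae_of_all _ fun p => ?_)
    · unfold tl
      split_ifs
      · exact le_rfl
      · rw [norm_zero]; exact abs_nonneg _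
    · obtain ⟨N, hN⟩ := exists_nat_ge (Lm (gI e H φ) 0 0 p)
      refine tendsto_const_nhds.congr' ?_
      filter_upwards [eventually_ge_atTop N] with B hB
      unfold tl
      rw [if_neg]
      push Not
      exact hN.trans (by exact_mod_cast hB)
  rw [integral_zero] at htail
  obtain ⟨B, hB⟩ := (htail.eventually (gt_mem_nhds (show (0:ℝ) < ε / (2 * (n + 1)) by
    positivity))).exists
  set K : ℝ := ((n:ℝ) * B) ^ (7/8 : ℝ) with hK
  have hK0 : 0 ≤ K := by positivity
  filter_upwards [(M.gramHyp φ).decay 0 (ε / (2 * (K + 1))) (by positivity)] with x hx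
  have h1 : ∀ k, ∫ p, |gI e H φ k x 0 p| ^ (1/4 : ℝ) ∂((PP Λ c).prod kap) ≤ ε / (2 * (K + 1)) := by
    intro k
    refine le_trans (le_of_eq ?_) (hx k)
    refine integral_congr_ae (ae_of_all _ fun p => ?_)
    simp only
    rw [(M.gramHyp φ).symm k x 0 p]
  obtain ⟨h2, h3⟩ := M.quarter_L_le hL x 0 (by positivity) h1
  have hIx := (M.integrable_L hφ hL x).1
  have hti : Integrable (fun p => tl B (Lm (gI e H φ) x x p)) ((PP Λ c).prod kap) := by
    refine hIx.abs.mono' ((measurable_tl _).comp (M.measurable_L φ x x)).aestronglyMeasurable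
      (ae_of_all _ fun p => ?_)
    unfold tl
    split_ifs
    · exact le_rfl
    · rw [norm_zero]; exact abs_nonneg _
  have htx : ∫ p, tl B (Lm (gI e H φ) x x p) ∂((PP Λ c).prod kap) ≤ ε / (2 * (n + 1)) := by
    rw [M.integral_shift hcov φ x (measurable_tl B)]
    exact hB.le
  calc qb c e H φ n x
      ≤ ∫ p, (K * |Lm (gI e H φ) x 0 p| ^ (1/4 : ℝ) + n * tl B (Lm (gI e H φ) x x p))
        ∂((PP Λ c).prod kap) := by
        refine integral_mono_ae (M.integrable_off hφ hL n x)
          ((h2.const_mul K).add (hti.const_mul n)) ?_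
        filter_upwards [hL] with p hp
        have hl := M.L_nonneg hp x
        by_cases h : p ∈ SS e H φ n
        · rw [Set.indicator_of_mem h]
          exact trunc_le (Nat.cast_nonneg n) (Nat.cast_nonneg B) (M.SS_sq_le h x)
        · rw [Set.indicator_of_notMem h]
          have : 0 ≤ tl B (Lm (gI e H φ) x x p) := by
            unfold tl
            split_ifs
            · exact hl
            · exact le_rfl
          positivity
    _ = K * ∫ p, |Lm (gI e H φ) x 0 p| ^ (1/4 : ℝ) ∂((PP Λ c).prod kap)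
        + n * ∫ p, tl B (Lm (gI e H φ) x x p) ∂((PP Λ c).prod kap) := by
        rw [integral_add (h2.const_mul K) (hti.const_mul n), integral_const_mul,
          integral_const_mul]
    _ ≤ K * (ε / (2 * (K + 1))) + n * (ε / (2 * (n + 1))) := by gcongr
    _ ≤ ε / 2 + ε / 2 := by
        have hn0 : (0:ℝ) ≤ n := Nat.cast_nonneg n
        gcongr
        · rw [mul_div_assoc', div_le_div_iff₀ (by positivity) (by positivity)]
          nlinarith
        · rw [mul_div_assoc', div_le_div_iff₀ (by positivity) (by positivity)]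
          nlinarith
    _ = ε := by ring

end Pool.Agent.Lib.MP_562b47_mp
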