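import Mathlib
import Pool.Agent.Lib.MP_562b47_mp.EscDecay

/-!
An absolutely continuous part forces the particle to leave every family of sets of size `O(T)`.
(Anderson model, MP_562b47_mp.)
-/

open MeasureTheory Set Filter Topology Complex
open scoped Real ENNReal NNReal InnerProductSpace

namespace Pool.Agent.Lib.MP_562b47_mp

variable {Λ : Type*} [DecidableEq Λ] [AddCommGroup Λ] [Countable Λ] {E : Type*}
  [NormedAddCommGroup E] [InnerProductSpace ℂ E] [CompleteSpace E] {c : ℝ} {e : Λ → E}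
  {H : (Λ → ℝ) → (E →L[ℂ] E)}

/-- the probability to be outside of `F` -/
noncomputable def outF (e : Λ → E) (H : (Λ → ℝ) → (E →L[ℂ] E)) (F : Finset Λ) (t : ℝ)
    (ω : Λ → ℝ) : ℝ := 1 - ∑ x ∈ F, ‖⟪e x, Ut H ω t (e 0)⟫_ℂ‖ ^ 2

theorem Model.outF_mem (M : Model c e H) (F : Finset Λ) (t : ℝ) (ω : Λ → ℝ) :
    0 ≤ outF e H F t ω ∧ outF e H F t ω ≤ 1 := by
  unfold outF
  constructor
  · have h1 := M.ortho.sum_inner_products_le (Ut H ω t (e 0)) (s := F)
    rw [norm_Ut_apply (M.sa ω), M.ortho.1, one_pow] at h1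
    linarith
  · have : 0 ≤ ∑ x ∈ F, ‖⟪e x, Ut H ω t (e 0)⟫_ℂ‖ ^ 2 := Finset.sum_nonneg fun x _ => by positivity
    linarith

theorem continuous_outF {V : Λ → (E ≃ₗᵢ[ℂ] E)} (hH : CovOp V H) (F : Finset Λ) :
    Continuous fun p : ℝ × (Λ → ℝ) => outF e H F p.1 p.2 := by
  have h1 : Continuous fun p : ℝ × (Λ → ℝ) => Ut H p.2 p.1 (e 0) :=
    continuous_Ut_apply hH continuous_snd continuous_fst continuous_const
  unfold outF
  fun_prop

theorem Model.integral_outF (M : Model c e H) {V : Λ → (E ≃ₗᵢ[ℂ] E)} (hH : CovOp V H)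
    (F : Finset Λ) {T : ℝ} (hT : 0 < T) :
    Integrable (fun ω => ∫ t in (0:ℝ)..T, outF e H F t ω) (PP Λ c) ∧
    ∫ t in (0:ℝ)..T, (∫ ω, outF e H F t ω ∂(PP Λ c))
      = ∫ ω, (∫ t in (0:ℝ)..T, outF e H F t ω) ∂(PP Λ c) := by
  have := PP_prob Λ M.hc
  have h1 : Integrable (Function.uncurry fun (t : ℝ) (ω : Λ → ℝ) => outF e H F t ω)
      ((volume.restrict (Ioc 0 T)).prod (PP Λ c)) := by
    refine Integrable.of_bound (C := 1) (continuous_outF hH F).aestronglyMeasurable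
      (ae_of_all _ fun p => ?_)
    have h2 := M.outF_mem F p.1 p.2
    simp only [Function.uncurry]
    rw [Real.norm_of_nonneg h2.1]
    exact h2.2
  constructor
  · simp_rw [intervalIntegral.integral_of_le hT.le]
    exact h1.swap.integral_prod_left
  · simp_rw [intervalIntegral.integral_of_le hT.le]
    exact integral_integral_swap h1

/-- **Escape.** -/
theorem escape [Infinite Λ] (M : Model c e H) {V : Λ → (E ≃ₗᵢ[ℂ] E)} (hH : CovOp V H)
    (hcov : ShiftCov e H)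
    (hns : ¬ ∀ᵐ ω ∂(PP Λ c), ∀ μ : Measure ℝ, IsFiniteMeasure μ → IsSpec (H ω) (e 0) μ →
      μ ⟂ₘ volume) :
    ∃ δ : ℝ, 0 < δ ∧ ∀ A : ℝ, ∃ T₀ : ℝ, ∀ T : ℝ, T₀ ≤ T → ∀ F : Finset Λ,
      (F.card : ℝ) ≤ A * T →
      δ * T ≤ ∫ t in (0:ℝ)..T, (∫ ω, (1 - ∑ x ∈ F, ‖⟪e x, Ut H ω t (e 0)⟫_ℂ‖ ^ 2) ∂(PP Λ c)) := by
  have := PP_prob Λ M.hc
  obtain ⟨φ, hφ, hL⟩ := M.exists_phi M.hasDens
  obtain ⟨n, hn⟩ := M.exists_mm_pos hφ hL hns
  set Q : ℝ := ∫ ω, mm e H φ n ω ^ 2 ∂(PP Λ c) with hQ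
  set C : ℝ := 2 * rexp 1 * (1 + (n:ℝ) ^ 2) with hC
  have hC0 : 0 < C := by positivity
  -- the averaged inequality
  have hav : ∀ T : ℝ, 0 < T → ∀ F : Finset Λ, T * Q / 2 - C * ∑ x ∈ F, qb c e H φ n x
      ≤ ∫ t in (0:ℝ)..T, (∫ ω, outF e H F t ω ∂(PP Λ c)) := by
    intro T hT F
    obtain ⟨h1, h2⟩ := M.integral_outF hH F hT
    rw [h2]
    have hi1 : Integrable (fun ω => T * mm e H φ n ω ^ 2 / 2) (PP Λ c) :=
      ((M.integrable_mm_sq φ n).const_mul T).div_const 2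
    have hi2 : Integrable (fun ω => C * ∑ x ∈ F, qq e H φ n x ω) (PP Λ c) :=
      (integrable_finsetSum _ fun x _ => (M.integral_qq hφ hL n x).1).const_mul C
    calc T * Q / 2 - C * ∑ x ∈ F, qb c e H φ n x
        = ∫ ω, (T * mm e H φ n ω ^ 2 / 2 - C * ∑ x ∈ F, qq e H φ n x ω) ∂(PP Λ c) := by
          have e1 : ∑ x ∈ F, qb c e H φ n x = ∑ x ∈ F, ∫ ω, qq e H φ n x ω ∂(PP Λ c) :=
            Finset.sum_congr rfl fun x _ => (M.integral_qq hφ hL n x).2.symm
          rw [integral_sub hi1 hi2, integral_div, integral_const_mul, integral_const_mul,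
            integral_finsetSum _ fun x _ => (M.integral_qq hφ hL n x).1, e1]
      _ ≤ _ := by
          refine integral_mono_ae (hi1.sub hi2) h1 ?_
          filter_upwards [Measure.ae_ae_of_ae_prod hL] with ω hω
          exact M.det_escape ω hφ hω n hT F
  refine ⟨Q / 4, by positivity, fun A => ?_⟩
  set ε : ℝ := Q / (8 * C * (|A| + 1)) with hε
  have hε0 : 0 < ε := by positivity
  have hfin := M.qb_decay hcov hφ hL n hε0
  set X : Set Λ := {x | ¬ qb c e H φ n x ≤ ε} with hX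
  have hXf : X.Finite := hfin
  set N : ℝ := (hXf.toFinset.card : ℝ) with hN
  have hN0 : 0 ≤ N := Nat.cast_nonneg _
  refine ⟨max 1 (8 * C * n * N / Q), fun T hT F hF => ?_⟩
  have hT1 : 1 ≤ T := (le_max_left _ _).trans hT
  have hT0 : 0 < T := by linarith
  have hT2 : 8 * C * n * N ≤ T * Q := by
    have := (le_max_right _ _).trans hT
    rwa [div_le_iff₀ hn] at this
  have hsum : ∑ x ∈ F, qb c e H φ n x ≤ ε * (|A| * T) + n * N := by
    have h1 : ∑ x ∈ F, qb c e H φ n x ≤ ∑ x ∈ F, (ε + if x ∈ X then (n:ℝ) else 0) := by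
      refine Finset.sum_le_sum fun x _ => ?_
      by_cases h : x ∈ X
      · rw [if_pos h]
        have := M.qb_le hφ hL n x
        linarith
      · rw [if_neg h, add_zero]
        exact not_not.mp h
    refine h1.trans ?_
    rw [Finset.sum_add_distrib, Finset.sum_const, nsmul_eq_mul]
    have h2 : (F.card : ℝ) * ε ≤ ε * (|A| * T) := by
      have : (F.card : ℝ) ≤ |A| * T := hF.trans (by gcongr; exact le_abs_self A)
      nlinarith
    have h3 : ∑ x ∈ F, (if x ∈ X then (n:ℝ) else 0) ≤ n * N := by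
      rw [← Finset.sum_filter, Finset.sum_const, nsmul_eq_mul, mul_comm]
      have h4 : (F.filter fun x => x ∈ X).card ≤ hXf.toFinset.card := by
        refine Finset.card_le_card fun x hx => ?_
        rw [Set.Finite.mem_toFinset]
        exact (Finset.mem_filter.mp hx).2
      have h5 : (((F.filter fun x => x ∈ X).card : ℕ) : ℝ) ≤ N := by
        rw [hN]
        exact_mod_cast h4
      gcongr
    linarith
  have h6 := hav T hT0 F
  have h7 : C * (ε * (|A| * T)) ≤ T * Q / 8 := by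
    have e1 : C * (ε * (|A| * T)) = (T * Q / 8) * (|A| / (|A| + 1)) := by
      rw [hε]
      have : |A| + 1 ≠ 0 := by positivity
      field_simp
    rw [e1]
    have h8 : |A| / (|A| + 1) ≤ 1 := by
      rw [div_le_one (by positivity)]; linarith
    have h9 : 0 ≤ T * Q / 8 := by positivity
    nlinarith
  have h10 : C * ∑ x ∈ F, qb c e H φ n x ≤ T * Q / 8 + T * Q / 8 := by
    calc C * ∑ x ∈ F, qb c e H φ n x ≤ C * (ε * (|A| * T) + n * N) := by gcongr
      _ = C * (ε * (|A| * T)) + C * n * N := by ring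
      _ ≤ _ := by linarith
  have h11 : Q / 4 * T ≤ T * Q / 2 - C * ∑ x ∈ F, qb c e H φ n x := by linarith
  exact h11.trans h6

end Pool.Agent.Lib.MP_562b47_mp
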