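import Mathlib
import Pool.Agent.Lib.MP_562b47_mp.Spec
import Pool.Agent.Lib.MP_562b47_mp.Rank

/-!
Spectral averaging for rank one perturbations and the singular part of a commuting operator.
(Anderson model, MP_562b47_mp.)
-/

open MeasureTheory Set Filter Topology Complex
open scoped Real ENNReal NNReal InnerProductSpace

namespace Pool.Agent.Lib.MP_562b47_mp

variable {E : Type*} [NormedAddCommGroup E] [InnerProductSpace ℂ E] [CompleteSpace E]

/-- the rank one operator `w ↦ ⟪u, w⟫ u` -/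
noncomputable def rk (u : E) : E →L[ℂ] E := (innerSL ℂ u).smulRight u

omit [CompleteSpace E] in
theorem rk_apply (u w : E) : rk u w = ⟪u, w⟫_ℂ • u := rfl

theorem isSelfAdjoint_rk (u : E) : IsSelfAdjoint (rk u) := by
  rw [ContinuousLinearMap.isSelfAdjoint_iff_isSymmetric]
  intro a b
  simp only [ContinuousLinearMap.coe_coe, rk_apply, inner_smul_left, inner_smul_right,
    inner_conj_symm]
  ring

theorem isSelfAdjoint_pert {H₀ : E →L[ℂ] E} (hH : IsSelfAdjoint H₀) (u : E) (v : ℝ) :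
    IsSelfAdjoint (H₀ + (v : ℂ) • rk u) := by
  apply hH.add
  apply IsSelfAdjoint.smul _ (isSelfAdjoint_rk u)
  rw [isSelfAdjoint_iff, Complex.star_def, Complex.conj_ofReal]

/-! ### Poisson kernel on the horizontal lines -/

theorem pker_mk (E t l : ℝ) : pker ⟨E, t⟩ l = t / ((l - E) ^ 2 + t ^ 2) := rfl

theorem integral_pker_Ioo {t : ℝ} (ht : 0 < t) (l δ : ℝ) :
    ∫ E in (l - δ)..(l + δ), pker ⟨E, t⟩ l = 2 * Real.arctan (δ / t) := by
  have hd : ∀ x ∈ Set.uIcc (l - δ) (l + δ),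
      HasDerivAt (fun E => Real.arctan ((E - l) / t)) (pker ⟨x, t⟩ l) x := by
    intro x _
    have h1 : HasDerivAt (fun E : ℝ => (E - l) / t) (1 / t) x :=
      ((hasDerivAt_id x).sub_const l).div_const t
    have h2 := h1.arctan
    convert h2 using 1
    rw [pker_mk]
    have : (l - x) ^ 2 + t ^ 2 ≠ 0 := by positivity
    have h3 : 1 + ((x - l) / t) ^ 2 ≠ 0 := by positivity
    field_simp
    ring
  rw [intervalIntegral.integral_eq_sub_of_hasDerivAt hd]
  · have e1 : (l + δ - l) / t = δ / t := by ring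
    have e2 : (l - δ - l) / t = -(δ / t) := by ring
    rw [e1, e2, Real.arctan_neg]
    ring
  · apply Continuous.intervalIntegrable
    simp only [pker_mk]
    refine Continuous.div continuous_const (by fun_prop) fun x => ?_
    positivity

theorem continuous_pker_line {t : ℝ} (ht : 0 < t) (l : ℝ) :
    Continuous (fun E : ℝ => pker ⟨E, t⟩ l) := by
  simp only [pker_mk]
  refine Continuous.div continuous_const (by fun_prop) fun x => ?_
  positivity

theorem measurable_pker_line (t : ℝ) : Measurable (fun p : ℝ × ℝ => pker ⟨p.1, t⟩ p.2) := by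
  simp only [pker_mk]
  fun_prop

theorem lintegral_pker_ge {t : ℝ} (ht : 0 < t) {U : Set ℝ} {l δ : ℝ} (hδ : 0 < δ)
    (hU : Metric.ball l δ ⊆ U) :
    ENNReal.ofReal (2 * Real.arctan (δ / t)) ≤ ∫⁻ E in U, ENNReal.ofReal (pker ⟨E, t⟩ l) := by
  have h1 : ENNReal.ofReal (2 * Real.arctan (δ / t)) =
      ∫⁻ E in Set.Ioc (l - δ) (l + δ), ENNReal.ofReal (pker ⟨E, t⟩ l) := by
    rw [← integral_pker_Ioo ht l δ, intervalIntegral.integral_of_le (by linarith)]
    rw [ofReal_integral_eq_lintegral_ofReal]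
    · exact ((continuous_pker_line ht l).integrableOn_Ioc)
    · exact ae_of_all _ fun x => pker_nonneg (z := ⟨x, t⟩) ht l
  have h2 : ∫⁻ E in Set.Ioc (l - δ) (l + δ), ENNReal.ofReal (pker ⟨E, t⟩ l) =
      ∫⁻ E in Set.Ioo (l - δ) (l + δ), ENNReal.ofReal (pker ⟨E, t⟩ l) :=
    setLIntegral_congr Ioo_ae_eq_Ioc.symm
  rw [h1, h2]
  apply lintegral_mono_set
  rw [← Real.ball_eq_Ioo]
  exact hU

theorem liminf_pker_ge {U : Set ℝ} (hU : IsOpen U) {l : ℝ} (hl : l ∈ U) {t : ℕ → ℝ}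
    (ht : ∀ k, 0 < t k) (ht0 : Tendsto t atTop (𝓝 0)) :
    ENNReal.ofReal π ≤ liminf (fun k => ∫⁻ E in U, ENNReal.ofReal (pker ⟨E, t k⟩ l)) atTop := by
  obtain ⟨δ, hδ, hball⟩ := Metric.isOpen_iff.mp hU l hl
  have h1 : Tendsto (fun k => δ / t k) atTop atTop := by
    have : Tendsto t atTop (𝓝[>] 0) :=
      tendsto_nhdsWithin_iff.mpr ⟨ht0, Eventually.of_forall ht⟩
    exact Tendsto.const_mul_atTop hδ (tendsto_inv_nhdsGT_zero.comp this)
  have h2 : Tendsto (fun k => ENNReal.ofReal (2 * Real.arctan (δ / t k))) atTop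
      (𝓝 (ENNReal.ofReal π)) := by
    have h3 : Tendsto (fun k => Real.arctan (δ / t k)) atTop (𝓝 (π / 2)) :=
      (tendsto_nhds_of_tendsto_nhdsWithin Real.tendsto_arctan_atTop).comp h1
    have h4 := h3.const_mul 2
    have h5 : 2 * (π / 2) = π := by ring
    rw [h5] at h4
    exact (ENNReal.continuous_ofReal.tendsto _).comp h4
  rw [← h2.liminf_eq]
  exact liminf_le_liminf (Eventually.of_forall fun k => lintegral_pker_ge (ht k) hδ hball)

theorem open_le_liminf (μ : Measure ℝ) [IsFiniteMeasure μ] {U : Set ℝ} (hU : IsOpen U)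
    {t : ℕ → ℝ} (ht : ∀ k, 0 < t k) (ht0 : Tendsto t atTop (𝓝 0)) :
    ENNReal.ofReal π * μ U ≤
      liminf (fun k => ∫⁻ E in U, ENNReal.ofReal (Pois μ ⟨E, t k⟩)) atTop := by
  have hm : ∀ k, Measurable (fun l => ∫⁻ E in U, ENNReal.ofReal (pker ⟨E, t k⟩ l)) := by
    intro k
    exact ((measurable_pker_line (t k)).ennreal_ofReal).lintegral_prod_left
  calc ENNReal.ofReal π * μ U = ∫⁻ _ in U, ENNReal.ofReal π ∂μ := by
        rw [setLIntegral_const]
    _ ≤ ∫⁻ l in U, liminf (fun k => ∫⁻ E in U, ENNReal.ofReal (pker ⟨E, t k⟩ l)) atTop ∂μ := by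
        apply setLIntegral_mono' hU.measurableSet
        intro l hl
        exact liminf_pker_ge hU hl ht ht0
    _ ≤ liminf (fun k => ∫⁻ l in U, (∫⁻ E in U, ENNReal.ofReal (pker ⟨E, t k⟩ l)) ∂μ) atTop :=
        lintegral_liminf_le hm
    _ ≤ liminf (fun k => ∫⁻ E in U, ENNReal.ofReal (Pois μ ⟨E, t k⟩)) atTop := by
        refine liminf_le_liminf (Eventually.of_forall fun k => ?_)
        calc ∫⁻ l in U, (∫⁻ E in U, ENNReal.ofReal (pker ⟨E, t k⟩ l)) ∂μ
            ≤ ∫⁻ l, (∫⁻ E in U, ENNReal.ofReal (pker ⟨E, t k⟩ l)) ∂μ :=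
              setLIntegral_le_lintegral _ _
          _ = ∫⁻ E in U, (∫⁻ l, ENNReal.ofReal (pker ⟨E, t k⟩ l) ∂μ) := by
              rw [lintegral_lintegral_swap]
              exact (((measurable_pker_line (t k)).comp measurable_swap).ennreal_ofReal).aemeasurable
          _ = ∫⁻ E in U, ENNReal.ofReal (Pois μ ⟨E, t k⟩) := by
              refine lintegral_congr fun x => ?_
              rw [ofReal_Pois μ (ht k)]

/-! ### The averaged resolvent -/

/-- `⟪u, R(z) u⟫` -/
noncomputable def Gf (H₀ : E →L[ℂ] E) (u : E) (z : ℂ) : ℂ := ⟪u, Rv H₀ z u⟫_ℂ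

theorem Gf_pert {H₀ : E →L[ℂ] E} (hH : IsSelfAdjoint H₀) (u : E) (v : ℝ) {z : ℂ}
    (hz : 0 < z.im) :
    Gf (H₀ + (v : ℂ) • rk u) u z * (1 + v * Gf H₀ u z) = Gf H₀ u z := by
  have hH' := isSelfAdjoint_pert hH u v
  have h := Rv_sub_Rv hH hH' hz.ne' hz.ne' u
  have e : (H₀ + (v : ℂ) • rk u - H₀) (Rv H₀ z u) - (z - z) • Rv H₀ z u
      = ((v : ℂ) * Gf H₀ u z) • u := by
    rw [add_sub_cancel_left, sub_self, zero_smul, sub_zero, smul_apply,
      rk_apply, smul_smul]
    rfl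
  rw [e, map_smul] at h
  have h2 := congrArg (fun w => ⟪u, w⟫_ℂ) h
  simp only [inner_sub_right, inner_neg_right, inner_smul_right] at h2
  have h3 : Gf (H₀ + (v : ℂ) • rk u) u z - Gf H₀ u z
      = -(v * Gf H₀ u z * Gf (H₀ + (v : ℂ) • rk u) u z) := h2
  linear_combination h3

theorem Gf_im {H₀ : E →L[ℂ] E} (hH : IsSelfAdjoint H₀) {u : E} (hu : u ≠ 0) {z : ℂ}
    (hz : 0 < z.im) : 0 < (Gf H₀ u z).im := by
  unfold Gf
  rw [im_inner_Rv hH hz.ne']
  have := norm_pos_iff.mpr (Rv_ne_zero hH hz.ne' hu)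
  positivity

theorem one_add_ne {G : ℂ} (hG : 0 < G.im) (v : ℝ) : 1 + v * G ≠ 0 := by
  intro h
  have h1 := congrArg Complex.im h
  have h2 := congrArg Complex.re h
  simp at h1 h2
  rcases h1 with h1 | h1
  · rw [h1] at h2; simp at h2
  · exact hG.ne' h1

theorem Pois_pert {H₀ : E →L[ℂ] E} (hH : IsSelfAdjoint H₀) {u : E} (hu : u ≠ 0) (v : ℝ) {z : ℂ}
    (hz : 0 < z.im) {μ : Measure ℝ} [IsFiniteMeasure μ] (hμ : IsSpec (H₀ + (v : ℂ) • rk u) u μ) :
    Pois μ z = (Gf H₀ u z / (1 + v * Gf H₀ u z)).im := by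
  have hH' := isSelfAdjoint_pert hH u v
  rw [hμ.pois hH' hz, ← im_inner_Rv hH' hz.ne']
  congr 1
  rw [eq_div_iff (one_add_ne (Gf_im hH hu hz) v)]
  exact Gf_pert hH u v hz

theorem integral_pker {z : ℂ} (hz : 0 < z.im) :
    ∫⁻ l, ENNReal.ofReal (pker z l) = ENNReal.ofReal π := by
  have h0 : ∀ x : ℝ, pker z (z.re + z.im * x) * z.im = (1 + x ^ 2)⁻¹ := by
    intro x
    unfold pker
    have e : (z.re + z.im * x - z.re) ^ 2 + z.im ^ 2 = z.im ^ 2 * (1 + x ^ 2) := by ring
    rw [e]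
    have h1 : (1 + x ^ 2) ≠ 0 := by positivity
    field_simp
  have hint : Integrable (fun x : ℝ => (1 + x ^ 2)⁻¹) := integrable_inv_one_add_sq
  have hint2 : Integrable (fun x : ℝ => pker z (z.re + z.im * x)) := by
    have : (fun x : ℝ => pker z (z.re + z.im * x)) = fun x => (1 + x ^ 2)⁻¹ * z.im⁻¹ := by
      funext x
      rw [← h0 x, mul_assoc, mul_inv_cancel₀ hz.ne', mul_one]
    rw [this]
    exact hint.mul_const _
  have hint3 : Integrable (fun y : ℝ => pker z (z.re + y)) := by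
    have := (integrable_comp_mul_left_iff (fun y : ℝ => pker z (z.re + y)) hz.ne').mp hint2
    exact this
  have hint4 : Integrable (pker z) := by
    have h5 := hint3.comp_add_right (-z.re)
    have h6 : (fun t : ℝ => pker z (z.re + (t + -z.re))) = pker z := by
      funext y; congr 1; ring
    rwa [h6] at h5
  rw [← ofReal_integral_eq_lintegral_ofReal hint4 (ae_of_all _ fun l => pker_nonneg hz l)]
  congr 1
  have e1 : ∫ l, pker z l = ∫ l, pker z (l + z.re) :=
    (integral_add_right_eq_self (fun l => pker z l) z.re).symm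
  have e2 : ∫ l, pker z (z.im * l + z.re) = |z.im⁻¹| • ∫ l, pker z (l + z.re) :=
    Measure.integral_comp_mul_left (fun l => pker z (l + z.re)) z.im
  have e3 : ∫ l, pker z (z.im * l + z.re) = z.im⁻¹ * π := by
    rw [← integral_univ_inv_one_add_sq, ← integral_const_mul]
    congr 1
    funext x
    rw [← h0 x, add_comm (z.im * x)]
    field_simp
  rw [e1]
  rw [e3, abs_of_pos (by positivity), smul_eq_mul] at e2
  have h6 : z.im⁻¹ ≠ 0 := by positivity
  exact (mul_left_cancel₀ h6 e2).symm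

theorem lintegral_pert_le {G : ℂ} (hG : 0 < G.im) :
    ∫⁻ v : ℝ, ENNReal.ofReal ((G / (1 + v * G)).im) = ENNReal.ofReal π := by
  have hn : 0 < Complex.normSq G := Complex.normSq_pos.mpr (by rintro rfl; simp at hG)
  let w : ℂ := ⟨-(G.re / Complex.normSq G), G.im / Complex.normSq G⟩
  have hw : 0 < w.im := div_pos hG hn
  rw [← integral_pker hw]
  refine lintegral_congr fun v => ?_
  congr 1
  have h1 := one_add_ne hG v
  rw [Complex.div_im]
  unfold pker
  have e0 : Complex.normSq G = G.re ^ 2 + G.im ^ 2 := by rw [Complex.normSq_apply]; ring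
  have e1 : Complex.normSq (1 + v * G) = (1 + v * G.re) ^ 2 + (v * G.im) ^ 2 := by
    rw [Complex.normSq_apply]; simp; ring
  have e2 : (1 + (v : ℂ) * G).re = 1 + v * G.re := by simp
  have e3 : (1 + (v : ℂ) * G).im = v * G.im := by simp
  have h2 : (1 + v * G.re) ^ 2 + (v * G.im) ^ 2 ≠ 0 := by
    rw [← e1]; exact (Complex.normSq_pos.mpr h1).ne'
  rw [e1, e2, e3]
  simp only [w]
  rw [e0]
  have h3 : G.re ^ 2 + G.im ^ 2 ≠ 0 := by rw [← e0]; exact hn.ne'
  have h4 : (v - -(G.re / (G.re ^ 2 + G.im ^ 2))) ^ 2 + (G.im / (G.re ^ 2 + G.im ^ 2)) ^ 2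
      = ((1 + v * G.re) ^ 2 + (v * G.im) ^ 2) / (G.re ^ 2 + G.im ^ 2) := by
    field_simp
    ring
  rw [h4]
  field_simp
  ring

theorem continuous_Gf_line {H₀ : E →L[ℂ] E} (hH : IsSelfAdjoint H₀) (u : E) {t : ℝ} (ht : 0 < t) :
    Continuous (fun x : ℝ => Gf H₀ u ⟨x, t⟩) := by
  unfold Gf
  refine Continuous.inner continuous_const ?_
  have h : Continuous (fun x : ℝ => Rv H₀ ⟨x, t⟩) := by
    rw [continuous_iff_continuousAt]
    intro x
    unfold Rv
    obtain ⟨a, ha⟩ := isUnit_sub hH (z := ⟨x, t⟩) ht.ne'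
    have h1 := NormedRing.inverse_continuousAt a
    rw [ha] at h1
    refine ContinuousAt.comp (f := fun x : ℝ => H₀ - algebraMap ℂ (E →L[ℂ] E) ⟨x, t⟩) h1 ?_
    apply Continuous.continuousAt
    refine continuous_const.sub ?_
    refine (algebraMapCLM ℂ (E →L[ℂ] E)).continuous.comp ?_
    have e : (fun x : ℝ => (⟨x, t⟩ : ℂ)) = fun x : ℝ => (x : ℂ) + t * I := by
      funext x; apply Complex.ext <;> simp
    rw [e]
    fun_prop
  exact h.clm_apply continuous_const

/-- Spectral averaging: a fixed Lebesgue null set has `μ_u`-measure zero for `H₀ + v |u⟩⟨u|`, for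
almost every `v`. -/
theorem spec_avg_null {H₀ : E →L[ℂ] E} (hH : IsSelfAdjoint H₀) (u : E) {N : Set ℝ}
    (hN : volume N = 0) :
    ∀ᵐ v : ℝ, ∀ μ : Measure ℝ, IsFiniteMeasure μ → IsSpec (H₀ + (v : ℂ) • rk u) u μ →
      μ N = 0 := by
  by_cases hu : u = 0
  · refine ae_of_all _ fun v μ hfin hμ => ?_
    have h1 := hμ.mass (isSelfAdjoint_pert hH u v)
    rw [hu, norm_zero] at h1
    have h2 : μ univ = 0 := by
      rw [Measure.real] at h1
      rcases (ENNReal.toReal_eq_zero_iff _).mp (h1.trans (by norm_num)) with h | h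
      · exact h
      · exact absurd h (measure_ne_top _ _)
    exact measure_mono_null (subset_univ _) h2
  obtain ⟨t, ht, ht0⟩ := exists_seq
  -- the integrand
  let Φ : ℕ → ℝ × ℝ → ℝ := fun k p =>
    (Gf H₀ u ⟨p.2, t k⟩ / (1 + p.1 * Gf H₀ u ⟨p.2, t k⟩)).im
  have hΦ : ∀ k, Measurable (Φ k) := by
    intro k
    have h1 : Measurable (fun p : ℝ × ℝ => Gf H₀ u ⟨p.2, t k⟩) :=
      (continuous_Gf_line hH u (ht k)).measurable.comp measurable_snd
    have h2 : Measurable (fun p : ℝ × ℝ => (1 : ℂ) + p.1 * Gf H₀ u ⟨p.2, t k⟩) :=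
      measurable_const.add ((Complex.measurable_ofReal.comp measurable_fst).mul h1)
    exact Complex.measurable_im.comp (h1.div h2)
  let g : Set ℝ → ℝ → ℝ≥0∞ := fun U v =>
    liminf (fun k => ∫⁻ x in U, ENNReal.ofReal (Φ k (v, x))) atTop
  have hgm' : ∀ U : Set ℝ, ∀ k, Measurable (fun v => ∫⁻ x in U, ENNReal.ofReal (Φ k (v, x))) := by
    intro U k
    exact (hΦ k).ennreal_ofReal.lintegral_prod_right'
  have hgm : ∀ U : Set ℝ, Measurable (g U) := fun U => Measurable.liminf (hgm' U)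
  have hgi : ∀ U : Set ℝ, ∫⁻ v, g U v ≤ ENNReal.ofReal π * volume U := by
    intro U
    calc ∫⁻ v, g U v ≤ liminf (fun k => ∫⁻ v, (∫⁻ x in U, ENNReal.ofReal (Φ k (v, x)))) atTop :=
          lintegral_liminf_le (hgm' U)
      _ = liminf (fun _ : ℕ => ENNReal.ofReal π * volume U) atTop := by
          congr 1
          funext k
          rw [lintegral_lintegral_swap]
          · have : ∀ x : ℝ, ∫⁻ v, ENNReal.ofReal (Φ k (v, x)) = ENNReal.ofReal π := fun x =>
              lintegral_pert_le (Gf_im hH hu (z := ⟨x, t k⟩) (ht k))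
            simp only [this]
            rw [setLIntegral_const]
          · exact (hΦ k).ennreal_ofReal.aemeasurable
      _ = ENNReal.ofReal π * volume U := liminf_const _
  have hgle : ∀ U : Set ℝ, IsOpen U → ∀ v : ℝ, ∀ μ : Measure ℝ, IsFiniteMeasure μ →
      IsSpec (H₀ + (v : ℂ) • rk u) u μ → ENNReal.ofReal π * μ U ≤ g U v := by
    intro U hU v μ hfin hμ
    refine (open_le_liminf μ hU ht ht0).trans (le_of_eq ?_)
    simp only [g]
    congr 1
    funext k
    refine lintegral_congr fun x => ?_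
    rw [Pois_pert hH hu v (z := ⟨x, t k⟩) (ht k) hμ]
  -- open sets around `N`
  have hopen : ∀ n : ℕ, ∃ U : Set ℝ, N ⊆ U ∧ IsOpen U ∧ volume U ≤ ENNReal.ofReal (1 / ((n : ℝ) + 1)) := by
    intro n
    obtain ⟨U, h1, h2, h3⟩ := Set.exists_isOpen_le_add N volume
      (ε := ENNReal.ofReal (1 / ((n : ℝ) + 1))) (by
        have : (0 : ℝ) < 1 / ((n : ℝ) + 1) := by positivity
        simpa using this)
    exact ⟨U, h1, h2, by rwa [hN, zero_add] at h3⟩
  choose U hNU hUo hUv using hopen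
  have hinf : ∫⁻ v, ⨅ n, g (U n) v = 0 := by
    have h1 : ∀ n : ℕ, ∫⁻ v, ⨅ n, g (U n) v ≤ ENNReal.ofReal π * ENNReal.ofReal (1 / ((n : ℝ) + 1)) := by
      intro n
      calc ∫⁻ v, ⨅ n, g (U n) v ≤ ∫⁻ v, g (U n) v := lintegral_mono fun v => iInf_le _ n
        _ ≤ ENNReal.ofReal π * volume (U n) := hgi _
        _ ≤ _ := by gcongr; exact hUv n
    have h2 : Tendsto (fun n : ℕ => ENNReal.ofReal π * ENNReal.ofReal (1 / ((n : ℝ) + 1))) atTop
        (𝓝 0) := by
      have h3 : Tendsto (fun n : ℕ => ENNReal.ofReal (1 / ((n : ℝ) + 1))) atTop (𝓝 0) := by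
        have := (ENNReal.continuous_ofReal.tendsto _).comp
          (tendsto_one_div_add_atTop_nhds_zero_nat (𝕜 := ℝ))
        rw [ENNReal.ofReal_zero] at this
        exact this
      have h4 := ENNReal.Tendsto.const_mul (a := ENNReal.ofReal π) h3
        (Or.inr ENNReal.ofReal_ne_top)
      rwa [mul_zero] at h4
    exact le_antisymm (ge_of_tendsto' h2 h1) bot_le
  have hae : ∀ᵐ v : ℝ, ⨅ n, g (U n) v = 0 := by
    have := (lintegral_eq_zero_iff (Measurable.iInf fun n => hgm (U n))).mp hinf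
    exact this
  filter_upwards [hae] with v hv μ hfin hμ
  have h1 : ENNReal.ofReal π * μ N ≤ ⨅ n, g (U n) v := by
    refine le_iInf fun n => ?_
    refine le_trans ?_ (hgle (U n) (hUo n) v μ hfin hμ)
    gcongr
    exact hNU n
  rw [hv] at h1
  have h2 : ENNReal.ofReal π * μ N = 0 := le_antisymm h1 bot_le
  rcases mul_eq_zero.mp h2 with h | h
  · exact absurd h (by simpa using Real.pi_pos)
  · exact h

/-! ### Bounded continuous functions of two operators which agree on a vector -/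

theorem aeval_apply_eq {H H' : E →L[ℂ] E} {b : E} (h : ∀ n : ℕ, (H ^ n) b = (H' ^ n) b)
    (p : Polynomial ℝ) : (Polynomial.aeval H p) b = (Polynomial.aeval H' p) b := by
  rw [Polynomial.aeval_eq_sum_range, Polynomial.aeval_eq_sum_range]
  simp only [sum_apply, smul_apply, h]

theorem cfc_apply_eq {H H' : E →L[ℂ] E} (hH : IsSelfAdjoint H) (hH' : IsSelfAdjoint H') {b : E}
    (h : ∀ n : ℕ, (H ^ n) b = (H' ^ n) b) {f : ℝ → ℝ} (hf : Continuous f) :
    cfc f H b = cfc f H' b := by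
  -- a common interval
  obtain ⟨R, hR, hR'⟩ : ∃ R : ℝ, (∀ x ∈ spectrum ℝ H, x ∈ Set.Icc (-R) R) ∧
      (∀ x ∈ spectrum ℝ H', x ∈ Set.Icc (-R) R) := by
    obtain ⟨r1, h1⟩ := (spectrum.isCompact (𝕜 := ℝ) H).isBounded.subset_closedBall (0 : ℝ)
    obtain ⟨r2, h2⟩ := (spectrum.isCompact (𝕜 := ℝ) H').isBounded.subset_closedBall (0 : ℝ)
    refine ⟨max r1 r2, fun x hx => ?_, fun x hx => ?_⟩
    · have := h1 hx
      rw [Metric.mem_closedBall, Real.dist_eq, sub_zero, abs_le] at this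
      exact ⟨by have := le_max_left r1 r2; linarith, this.2.trans (le_max_left _ _)⟩
    · have := h2 hx
      rw [Metric.mem_closedBall, Real.dist_eq, sub_zero, abs_le] at this
      exact ⟨by have := le_max_right r1 r2; linarith, this.2.trans (le_max_right _ _)⟩
  have key : ∀ ε : ℝ, 0 < ε → ‖cfc f H b - cfc f H' b‖ ≤ 2 * ‖b‖ * ε := by
    intro ε hε
    obtain ⟨p, hp⟩ := exists_polynomial_near_of_continuousOn (-R) R f hf.continuousOn ε hε
    have hb : ∀ A : E →L[ℂ] E, IsSelfAdjoint A → (∀ x ∈ spectrum ℝ A, x ∈ Set.Icc (-R) R) →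
        ‖cfc f A b - (Polynomial.aeval A p) b‖ ≤ ‖b‖ * ε := by
      intro A hA hs
      rw [← cfc_polynomial p A hA]
      have e1 : cfc f A b - cfc p.eval A b = (cfc (fun x => f x - p.eval x) A) b := by
        rw [cfc_sub f (fun x => p.eval x) A hf.continuousOn p.continuous.continuousOn]
        rfl
      rw [e1]
      refine (ContinuousLinearMap.le_opNorm _ _).trans ?_
      rw [mul_comm]
      gcongr
      apply norm_cfc_le hε.le
      intro x hx
      rw [Real.norm_eq_abs, abs_sub_comm]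
      exact (hp x (hs x hx)).le
    have h1 := hb H hH hR
    have h2 := hb H' hH' hR'
    have e : cfc f H b - cfc f H' b = (cfc f H b - (Polynomial.aeval H p) b) -
        (cfc f H' b - (Polynomial.aeval H' p) b) := by
      rw [aeval_apply_eq h p]; abel
    rw [e]
    refine (norm_sub_le _ _).trans ?_
    linarith
  have h0 : ‖cfc f H b - cfc f H' b‖ ≤ 0 := by
    have h3 : Tendsto (fun ε : ℝ => 2 * ‖b‖ * ε) (𝓝[>] 0) (𝓝 0) := by
      have h4 : Tendsto (fun ε : ℝ => 2 * ‖b‖ * ε) (𝓝 0) (𝓝 (2 * ‖b‖ * 0)) :=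
        (continuous_const.mul continuous_id).tendsto 0
      rw [mul_zero] at h4
      exact h4.mono_left nhdsWithin_le_nhds
    refine ge_of_tendsto h3 ?_
    filter_upwards [self_mem_nhdsWithin] with ε hε
    exact key ε hε
  exact sub_eq_zero.mp (norm_le_zero_iff.mp h0)

/-! ### Null sets and norm bounds -/

/-- approximation of an indicator in `L¹` of two measures -/
theorem exists_approx₂ (μ ν : Measure ℝ) [IsFiniteMeasure μ] [IsFiniteMeasure ν] {T : Set ℝ}
    (hT : MeasurableSet T) :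
    ∃ f : ℕ → BoundedContinuousFunction ℝ ℝ, (∀ k x, 0 ≤ f k x ∧ f k x ≤ 1) ∧
      Tendsto (fun k => ∫ x, f k x ^ 2 ∂μ) atTop (𝓝 (μ.real T)) ∧
      Tendsto (fun k => ∫ x, f k x ^ 2 ∂ν) atTop (𝓝 (ν.real T)) ∧
      Tendsto (fun k => ∫ x, (1 - f k) x ^ 2 ∂μ) atTop (𝓝 (μ.real Tᶜ)) := by
  obtain ⟨f, h01, hf⟩ := exists_approx (μ + ν) hT
  have gen : ∀ (ρ : Measure ℝ) [IsFiniteMeasure ρ] (S : Set ℝ) (hS : MeasurableSet S)
      (g : ℕ → BoundedContinuousFunction ℝ ℝ), (∀ k x, 0 ≤ g k x ∧ g k x ≤ 1) →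
      (∀ k : ℕ, ∫ x, |g k x - S.indicator (fun _ => (1:ℝ)) x| ∂ρ ≤ 1 / ((k:ℝ) + 1)) →
      Tendsto (fun k => ∫ x, g k x ^ 2 ∂ρ) atTop (𝓝 (ρ.real S)) := by
    intro ρ _ S hS g g01 hg
    rw [tendsto_iff_norm_sub_tendsto_zero]
    have hlim : Tendsto (fun k : ℕ => 2 * (1 / ((k:ℝ) + 1))) atTop (𝓝 0) := by
      have := (tendsto_one_div_add_atTop_nhds_zero_nat (𝕜 := ℝ)).const_mul 2
      rwa [mul_zero] at this
    refine squeeze_zero (fun k => norm_nonneg _) (fun k => ?_) hlim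
    have e1 : ρ.real S = ∫ x, S.indicator (fun _ => (1:ℝ)) x ∂ρ := by
      rw [integral_indicator hS]; simp
    have hi1 : Integrable (fun x => g k x ^ 2) ρ := by
      have := (g k * g k).integrable ρ
      refine this.congr (ae_of_all _ fun x => ?_)
      simp [sq]
    have hi2 : Integrable (S.indicator (fun _ => (1:ℝ))) ρ :=
      (integrable_const (1:ℝ)).indicator hS
    rw [e1, ← integral_sub hi1 hi2]
    refine (norm_integral_le_integral_norm _).trans ?_
    calc ∫ x, ‖g k x ^ 2 - S.indicator (fun _ => (1:ℝ)) x‖ ∂ρ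
        ≤ ∫ x, 2 * |g k x - S.indicator (fun _ => (1:ℝ)) x| ∂ρ := by
          refine integral_mono_of_nonneg (ae_of_all _ fun x => norm_nonneg _)
            ((integrable_bcf_sub_ind ρ hS (g k)).const_mul _) (ae_of_all _ fun x => ?_)
          have hi : S.indicator (fun _ => (1:ℝ)) x * S.indicator (fun _ => (1:ℝ)) x
              = S.indicator (fun _ => (1:ℝ)) x := by
            by_cases hx : x ∈ S <;> simp [hx]
          have hi' : 0 ≤ S.indicator (fun _ => (1:ℝ)) x ∧ S.indicator (fun _ => (1:ℝ)) x ≤ 1 := by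
            by_cases hx : x ∈ S <;> simp [hx]
          simp only
          set i := S.indicator (fun _ => (1:ℝ)) x
          have e2 : g k x ^ 2 - i = (g k x - i) * (g k x + i) := by linear_combination hi
          rw [e2, Real.norm_eq_abs, abs_mul, mul_comm]
          gcongr
          rw [abs_le]
          constructor <;> linarith [(g01 k x).1, (g01 k x).2, hi'.1, hi'.2]
      _ = 2 * ∫ x, |g k x - S.indicator (fun _ => (1:ℝ)) x| ∂ρ := integral_const_mul _ _
      _ ≤ 2 * (1 / ((k:ℝ) + 1)) := by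
          gcongr
          exact hg k
  have hμ : ∀ k : ℕ, ∫ x, |f k x - T.indicator (fun _ => (1:ℝ)) x| ∂μ ≤ 1 / ((k:ℝ) + 1) := by
    intro k
    refine le_trans (integral_mono_measure (Measure.le_add_right le_rfl)
      (ae_of_all _ fun x => abs_nonneg _) (integrable_bcf_sub_ind (μ + ν) hT (f k))) (hf k)
  have hν : ∀ k : ℕ, ∫ x, |f k x - T.indicator (fun _ => (1:ℝ)) x| ∂ν ≤ 1 / ((k:ℝ) + 1) := by
    intro k
    refine le_trans (integral_mono_measure (Measure.le_add_left le_rfl)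
      (ae_of_all _ fun x => abs_nonneg _) (integrable_bcf_sub_ind (μ + ν) hT (f k))) (hf k)
  refine ⟨f, h01, gen μ T hT f h01 hμ, gen ν T hT f h01 hν,
    gen μ Tᶜ hT.compl (fun k => 1 - f k) ?_ ?_⟩
  · intro k x
    rw [BoundedContinuousFunction.sub_apply, BoundedContinuousFunction.coe_one, Pi.one_apply]
    constructor <;> linarith [(h01 k x).1, (h01 k x).2]
  · intro k
    refine le_trans (le_of_eq ?_) (hμ k)
    refine integral_congr_ae (ae_of_all _ fun x => ?_)
    simp only [BoundedContinuousFunction.sub_apply, BoundedContinuousFunction.coe_one, Pi.one_apply]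
    by_cases hx : x ∈ T
    · simp [hx, abs_sub_comm]
    · simp [hx]

theorem null_of_bound {μ ν : Measure ℝ} [IsFiniteMeasure μ] [IsFiniteMeasure ν] {c : ℝ}
    (h : ∀ f : BoundedContinuousFunction ℝ ℝ, ∫ x, f x ^ 2 ∂μ ≤ c * ∫ x, f x ^ 2 ∂ν)
    {T : Set ℝ} (hT : MeasurableSet T) (hν : ν T = 0) : μ T = 0 := by
  obtain ⟨f, -, h1, h2, -⟩ := exists_approx₂ μ ν hT
  have h3 : μ.real T ≤ c * ν.real T :=
    le_of_tendsto_of_tendsto' h1 (h2.const_mul c) fun k => h (f k)
  rw [measureReal_def ν, hν, ENNReal.toReal_zero, mul_zero] at h3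
  have h4 : μ.real T = 0 := le_antisymm h3 measureReal_nonneg
  rw [measureReal_eq_zero_iff] at h4
  exact h4

/-- if `v` has spectral measure carried by `T` and `e` gives measure zero to `T`, then they are
orthogonal -/
theorem inner_eq_zero_of_carried {H : E →L[ℂ] E} (hH : IsSelfAdjoint H) {v e : E}
    {μ ν : Measure ℝ} [IsFiniteMeasure μ] [IsFiniteMeasure ν] (hμ : IsSpec H v μ)
    (hν : IsSpec H e ν) {T : Set ℝ} (hT : MeasurableSet T) (h1 : μ Tᶜ = 0) (h2 : ν T = 0) :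
    ⟪e, v⟫_ℂ = 0 := by
  obtain ⟨f, -, -, hf2, hf3⟩ := exists_approx₂ μ ν hT
  rw [measureReal_def ν, h2, ENNReal.toReal_zero] at hf2
  rw [measureReal_def μ, h1, ENNReal.toReal_zero] at hf3
  have e1 : Tendsto (fun k => ‖cfc (⇑(f k)) H e‖) atTop (𝓝 0) := by
    have h3 : Tendsto (fun k => ‖cfc (⇑(f k)) H e‖ ^ 2) atTop (𝓝 0) := by
      refine hf2.congr fun k => ?_
      rw [hν.norm_sq]
    have h4 := (Real.continuous_sqrt.tendsto _).comp h3
    rw [Real.sqrt_zero] at h4
    refine h4.congr fun k => ?_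
    simp only [Function.comp, Real.sqrt_sq (norm_nonneg _)]
  have e2 : Tendsto (fun k => ‖v - cfc (⇑(f k)) H v‖) atTop (𝓝 0) := by
    have h3 : Tendsto (fun k => ‖v - cfc (⇑(f k)) H v‖ ^ 2) atTop (𝓝 0) := by
      refine hf3.congr fun k => ?_
      rw [← hμ.norm_sq]
      congr 2
      have h5 : cfc (⇑(1 - f k)) H = 1 - cfc (⇑(f k)) H := by
        have := cfc_sub (fun _ : ℝ => (1:ℝ)) (⇑(f k)) H (by fun_prop)
          (f k).continuous.continuousOn
        rw [cfc_const_one ℝ H hH] at this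
        rw [← this]
        rfl
      rw [h5]; rfl
    have h4 := (Real.continuous_sqrt.tendsto _).comp h3
    rw [Real.sqrt_zero] at h4
    refine h4.congr fun k => ?_
    simp only [Function.comp, Real.sqrt_sq (norm_nonneg _)]
  have h3 : ∀ k, ‖⟪e, v⟫_ℂ‖ ≤ ‖e‖ * ‖v - cfc (⇑(f k)) H v‖ + ‖cfc (⇑(f k)) H e‖ * ‖v‖ := by
    intro k
    have h4 : ⟪e, v⟫_ℂ = ⟪e, v - cfc (⇑(f k)) H v⟫_ℂ + ⟪cfc (⇑(f k)) H e, v⟫_ℂ := by
      rw [inner_sub_right, inner_sa_comm (sa_cfc _)]; ring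
    rw [h4]
    exact (norm_add_le _ _).trans (add_le_add (norm_inner_le_norm _ _) (norm_inner_le_norm _ _))
  have h4 : Tendsto (fun k => ‖e‖ * ‖v - cfc (⇑(f k)) H v‖ + ‖cfc (⇑(f k)) H e‖ * ‖v‖) atTop
      (𝓝 0) := by
    have := (e2.const_mul ‖e‖).add (e1.mul_const ‖v‖)
    simpa using this
  exact norm_le_zero_iff.mp (ge_of_tendsto' h4 h3)

theorem eq_zero_of_null {H : E →L[ℂ] E} (hH : IsSelfAdjoint H) {v : E}
    {μ : Measure ℝ} (hμ : IsSpec H v μ) (h : μ univ = 0) : v = 0 := by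
  have hm := hμ.mass hH
  rw [Measure.real, h, ENNReal.toReal_zero] at hm
  have := pow_eq_zero_iff (two_ne_zero) |>.mp hm.symm
  exact norm_eq_zero.mp this

/-- a null set carrying all singular spectral measures -/
theorem exists_carrier {Λ : Type*} [Countable Λ] {e : Λ → E}
    (tot : ∀ u : E, (∀ x, ⟪e x, u⟫_ℂ = 0) → u = 0) {H : E →L[ℂ] E} (hH : IsSelfAdjoint H) :
    ∃ N : Set ℝ, MeasurableSet N ∧ volume N = 0 ∧ ∀ (b : E) (μ : Measure ℝ), IsFiniteMeasure μ →
      IsSpec H b μ → μ ⟂ₘ volume → μ Nᶜ = 0 := by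
  let S : Λ → Set ℝ := fun x =>
    (Measure.mutuallySingular_singularPart (sm hH (e x)) (volume : Measure ℝ)).nullSet
  have hS : ∀ x, MeasurableSet (S x) ∧ (sm hH (e x)).singularPart volume (S x) = 0 ∧
      volume (S x)ᶜ = 0 := fun x =>
    ⟨Measure.MutuallySingular.measurableSet_nullSet _, Measure.MutuallySingular.measure_nullSet _,
      Measure.MutuallySingular.measure_compl_nullSet _⟩
  refine ⟨⋃ x, (S x)ᶜ, MeasurableSet.iUnion fun x => (hS x).1.compl,
    measure_iUnion_null fun x => (hS x).2.2, ?_⟩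
  intro b μ hfin hμ hsing
  set N := ⋃ x, (S x)ᶜ with hN
  have hNm : MeasurableSet N := MeasurableSet.iUnion fun x => (hS x).1.compl
  obtain ⟨A, hA, hA1, hA2⟩ := hsing
  have hTm : MeasurableSet (Aᶜ \ N) := hA.compl.diff hNm
  obtain ⟨v, hv, -⟩ := exists_proj hH hμ hTm
  have hv0 : v = 0 := by
    apply tot
    intro x
    refine inner_eq_zero_of_carried hH hv (sm_spec hH (e x)) hTm ?_ ?_
    · rw [Measure.restrict_apply hTm.compl]; simp
    · have hac : (volume.withDensity ((sm hH (e x)).rnDeriv volume)) (Aᶜ \ N) = 0 := by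
        apply withDensity_absolutelyContinuous
        exact measure_mono_null diff_subset hA2
      have hsg : (sm hH (e x)).singularPart volume (Aᶜ \ N) = 0 := by
        refine measure_mono_null ?_ (hS x).2.1
        intro y hy
        by_contra hcon
        exact hy.2 (mem_iUnion.mpr ⟨x, hcon⟩)
      rw [(sm hH (e x)).haveLebesgueDecomposition_add volume, Measure.add_apply, hsg, hac,
        add_zero]
  have h1 : μ (Aᶜ \ N) = 0 := by
    have h2 := hv.mass hH
    rw [hv0, norm_zero] at h2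
    have h3 : (μ.restrict (Aᶜ \ N)).real univ = 0 := h2.trans (by norm_num)
    rw [measureReal_eq_zero_iff, Measure.restrict_apply_univ] at h3
    exact h3
  have h2 : Nᶜ ⊆ A ∪ (Aᶜ \ N) := by
    intro y hy
    by_cases hyA : y ∈ A
    · exact Or.inl hyA
    · exact Or.inr ⟨hyA, hy⟩
  exact measure_mono_null h2 (measure_union_null hA1 h1)

/-- If `B` commutes with `H_v = H₀ + v |u⟩⟨u|`, `B u` is orthogonal to the cyclic subspace of `u`
and has purely singular spectral measure, then `B u = 0`, for almost every `v`. -/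
theorem sing_main {Λ : Type*} [Countable Λ] {e : Λ → E} (tot : ∀ u : E, (∀ x, ⟪e x, u⟫_ℂ = 0) → u = 0)
    {H₀ : E →L[ℂ] E} (hH : IsSelfAdjoint H₀) (u : E) :
    ∀ᵐ v : ℝ, ∀ B : E →L[ℂ] E, Commute B (H₀ + (v : ℂ) • rk u) →
      (∀ n : ℕ, ⟪u, ((H₀ + (v : ℂ) • rk u) ^ n) (B u)⟫_ℂ = 0) →
      (∀ μ : Measure ℝ, IsFiniteMeasure μ → IsSpec (H₀ + (v : ℂ) • rk u) (B u) μ →
        μ ⟂ₘ volume) → B u = 0 := by
  obtain ⟨N, hNm, hN0, hN⟩ := exists_carrier tot hH
  filter_upwards [spec_avg_null hH u hN0] with v hv B hB horth hsing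
  have hHv := isSelfAdjoint_pert hH u v
  set Hv := H₀ + (v : ℂ) • rk u with hHvdef
  obtain ⟨μ, hfin, hμ⟩ := exists_isSpec hHv (B u)
  obtain ⟨ν, hfin', hν⟩ := exists_isSpec hHv u
  have hνN : ν N = 0 := hv ν hfin' hν
  have hμs := hsing μ hfin hμ
  -- powers agree
  have hpow : ∀ n : ℕ, (Hv ^ n) (B u) = (H₀ ^ n) (B u) := by
    intro n
    induction n with
    | zero => simp
    | succ n ih =>
      rw [pow_succ', pow_succ', ContinuousLinearMap.mul_apply, ContinuousLinearMap.mul_apply, ← ih,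
        hHvdef, add_apply, smul_apply, rk_apply, ← hHvdef, horth n, zero_smul, smul_zero, add_zero]
  have hμ0 : IsSpec H₀ (B u) μ := by
    intro f
    rw [hμ f, cfc_apply_eq hHv hH hpow f.continuous]
  have hμN : μ Nᶜ = 0 := hN (B u) μ hfin hμ0 hμs
  have hbound : ∀ f : BoundedContinuousFunction ℝ ℝ,
      ∫ x, f x ^ 2 ∂μ ≤ ‖B‖ ^ 2 * ∫ x, f x ^ 2 ∂ν := by
    intro f
    rw [← hμ.norm_sq, ← hν.norm_sq, ← mul_pow]
    have hc : Commute (cfc (⇑f) Hv) B := hB.symm.cfc_real f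
    have h1 : cfc (⇑f) Hv (B u) = B (cfc (⇑f) Hv u) := congrArg (fun T : E →L[ℂ] E => T u) hc.eq
    rw [h1]
    gcongr
    exact B.le_opNorm _
  have hμN' : μ N = 0 := null_of_bound hbound hNm hνN
  apply eq_zero_of_null hHv hμ
  rw [← Set.union_compl_self N]
  exact measure_union_null hμN' hμN

end Pool.Agent.Lib.MP_562b47_mp
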