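import Mathlib
import Pool.Agent.Lib.MP_562b47_mp.Limit

/-!
Deterministic identities for operators commuting with an Anderson-type operator.
(Anderson model, MP_562b47_mp.)
-/

open MeasureTheory Set Filter Topology Complex
open scoped Real ENNReal NNReal InnerProductSpace

set_option linter.unusedSectionVars false

namespace Pool.Agent.Lib.MP_562b47_mp

variable {Λ : Type*} [DecidableEq Λ] {E : Type*}
  [NormedAddCommGroup E] [InnerProductSpace ℂ E] [CompleteSpace E] {c : ℝ} {e : Λ → E}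
  {H : (Λ → ℝ) → (E →L[ℂ] E)}

/-! ### Expansion in the basis -/

/-- the Hilbert basis given by a model -/
noncomputable def Model.hb (M : Model c e H) : HilbertBasis Λ ℂ E :=
  HilbertBasis.mkOfOrthogonalEqBot M.ortho (by
    rw [Submodule.eq_bot_iff]
    intro u hu
    refine M.tot u fun x => ?_
    exact (Submodule.mem_orthogonal _ _).mp hu (e x) (Submodule.subset_span ⟨x, rfl⟩))

theorem Model.hb_apply (M : Model c e H) (x : Λ) : M.hb x = e x := by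
  unfold Model.hb
  rw [HilbertBasis.coe_mkOfOrthogonalEqBot]

theorem Model.hb_repr (M : Model c e H) (u : E) (x : Λ) : M.hb.repr u x = ⟪e x, u⟫_ℂ := by
  rw [HilbertBasis.repr_apply_apply, M.hb_apply]

theorem Model.hasSum_repr (M : Model c e H) (u : E) : HasSum (fun w => ⟪e w, u⟫_ℂ • e w) u := by
  have h := M.hb.hasSum_repr u
  simp only [M.hb_repr, M.hb_apply] at h
  exact h

/-- `⟪v, T u⟫ = ∑ ⟪v, T e_w⟫ ⟪e_w, u⟫` -/
theorem Model.hasSum_inner (M : Model c e H) (T : E →L[ℂ] E) (v u : E) :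
    HasSum (fun w => ⟪v, T (e w)⟫_ℂ * ⟪e w, u⟫_ℂ) ⟪v, T u⟫_ℂ := by
  have h1 := (M.hasSum_repr u).mapL T
  have h2 := h1.mapL (innerSL ℂ v)
  simp only [map_smul, innerSL_apply_apply, smul_eq_mul] at h2
  simp_rw [mul_comm (⟪v, T (e _)⟫_ℂ)]
  exact h2

theorem Model.parseval_norm (M : Model c e H) (u : E) :
    HasSum (fun w => ‖⟪e w, u⟫_ℂ‖ ^ 2) (‖u‖ ^ 2) := by
  have h := M.hb.hasSum_inner_mul_inner u u
  simp only [M.hb_apply] at h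
  have h2 := Complex.hasSum_re h
  have e1 : ∀ w, (⟪u, e w⟫_ℂ * ⟪e w, u⟫_ℂ).re = ‖⟪e w, u⟫_ℂ‖ ^ 2 := by
    intro w
    rw [← inner_conj_symm u (e w), ← Complex.normSq_eq_conj_mul_self, Complex.ofReal_re,
      Complex.normSq_eq_norm_sq]
  have e2 : (⟪u, u⟫_ℂ).re = ‖u‖ ^ 2 := by
    rw [inner_self_eq_norm_sq_to_K]
    norm_cast
  simp_rw [e1] at h2
  rw [e2] at h2
  exact h2

theorem Model.parseval_enorm (M : Model c e H) (u : E) :
    ‖u‖ₑ ^ 2 = ∑' w, ‖⟪e w, u⟫_ℂ‖ₑ ^ 2 := by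
  have h := M.parseval_norm u
  have h1 : ‖u‖ₑ ^ 2 = ENNReal.ofReal (‖u‖ ^ 2) := by
    rw [ENNReal.ofReal_pow (norm_nonneg _), ofReal_norm]
  have h2 : ∀ w, ‖⟪e w, u⟫_ℂ‖ₑ ^ 2 = ENNReal.ofReal (‖⟪e w, u⟫_ℂ‖ ^ 2) := by
    intro w
    rw [ENNReal.ofReal_pow (norm_nonneg _), ofReal_norm]
  simp_rw [h1, h2]
  rw [← h.tsum_eq, ENNReal.ofReal_tsum_of_nonneg (fun w => by positivity) h.summable]

/-! ### Conjugate energies -/

theorem norm_Rv_conj {H : E →L[ℂ] E} (hH : IsSelfAdjoint H) {z : ℂ} (hz : z.im ≠ 0) (u : E) :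
    ‖Rv H ((starRingEnd ℂ) z) u‖ = ‖Rv H z u‖ := by
  have hz' : ((starRingEnd ℂ) z).im ≠ 0 := by simpa using hz
  have h1 := im_inner_Rv hH hz u
  have h2 := im_inner_Rv hH hz' u
  have h3 : ⟪u, Rv H ((starRingEnd ℂ) z) u⟫_ℂ = (starRingEnd ℂ) ⟪u, Rv H z u⟫_ℂ := by
    rw [← Rv_conj hH hz, inner_conj_symm]
  rw [h3, Complex.conj_im, h1, Complex.conj_im] at h2
  have h4 : ‖Rv H z u‖ ^ 2 = ‖Rv H ((starRingEnd ℂ) z) u‖ ^ 2 := by
    have h5 : z.im * (‖Rv H z u‖ ^ 2 - ‖Rv H ((starRingEnd ℂ) z) u‖ ^ 2) = 0 := by linarith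
    rcases mul_eq_zero.mp h5 with h | h
    · exact absurd h hz
    · linarith
  exact ((sq_eq_sq₀ (norm_nonneg _) (norm_nonneg _)).mp h4).symm

theorem Model.inner_Rv_conj (M : Model c e H) (ω : Λ → ℝ) {z : ℂ} (hz : z.im ≠ 0) (x y : Λ) :
    ⟪e x, Rv (H ω) ((starRingEnd ℂ) z) (e y)⟫_ℂ = (starRingEnd ℂ) ⟪e x, Rv (H ω) z (e y)⟫_ℂ := by
  rw [← Rv_conj (M.sa ω) hz, M.symm ω z x y hz, inner_conj_symm]

/-! ### Antisymmetric operators in the commutant -/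

theorem commute_Rv {H B : E →L[ℂ] E} (h : Commute B H) (z : ℂ) : Commute B (Rv H z) := by
  unfold Rv
  have h1 : Commute B (H - algebraMap ℂ (E →L[ℂ] E) z) :=
    h.sub_right (Algebra.commutes _ _).symm
  by_cases hu : IsUnit (H - algebraMap ℂ (E →L[ℂ] E) z)
  · obtain ⟨w, hw⟩ := hu
    rw [← hw] at h1 ⊢
    rw [Ring.inverse_unit]
    exact h1.units_inv_right
  · rw [Ring.inverse_non_unit _ hu]
    exact Commute.zero_right _

theorem commute_apply {T B : E →L[ℂ] E} (h : Commute B T) (u : E) : B (T u) = T (B u) := by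
  have := congrArg (fun A : E →L[ℂ] E => A u) h.eq
  simpa using this

/-- antisymmetric matrix -/
def Anti (e : Λ → E) (B : E →L[ℂ] E) : Prop := ∀ x y, ⟪e x, B (e y)⟫_ℂ = -⟪e y, B (e x)⟫_ℂ

theorem Model.inner_Rv_anti (M : Model c e H) (ω : Λ → ℝ) {z : ℂ} (hz : z.im ≠ 0)
    {B : E →L[ℂ] E} (hB : Commute B (H ω)) (ha : Anti e B) (x : Λ) :
    ⟪e x, Rv (H ω) z (B (e x))⟫_ℂ = 0 := by
  have h1 := M.hasSum_inner (Rv (H ω) z) (e x) (B (e x))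
  have h2 := M.hasSum_inner B (e x) (Rv (H ω) z (e x))
  rw [commute_apply (commute_Rv hB z)] at h2
  have h3 : ∀ w, ⟪e x, B (e w)⟫_ℂ * ⟪e w, Rv (H ω) z (e x)⟫_ℂ
      = -(⟪e x, Rv (H ω) z (e w)⟫_ℂ * ⟪e w, B (e x)⟫_ℂ) := by
    intro w
    rw [ha x w, M.symm ω z w x hz]; ring
  simp_rw [h3] at h2
  have h4 := h1.add h2
  simp only [add_neg_cancel] at h4
  have h5 := h4.unique hasSum_zero
  have h6 : (2:ℂ) * ⟪e x, Rv (H ω) z (B (e x))⟫_ℂ = 0 := by rw [two_mul]; exact h5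
  simpa using h6

/-- if all resolvent elements vanish, then the inner product vanishes -/
theorem inner_eq_zero_of_Rv {H : E →L[ℂ] E} (hH : IsSelfAdjoint H) {u b : E}
    (h : ∀ z : ℂ, z.im ≠ 0 → ⟪u, Rv H z b⟫_ℂ = 0) : ⟪u, b⟫_ℂ = 0 := by
  -- `b = R (H b) - z R b`
  have h1 : ∀ n : ℕ, ‖⟪u, b⟫_ℂ‖ ≤ ‖u‖ * ‖H b‖ / (n + 1) := by
    intro n
    set z : ℂ := ((n + 1 : ℝ) : ℂ) * I with hzdef
    have hzim : z.im = n + 1 := by rw [hzdef]; simp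
    have hz : z.im ≠ 0 := by rw [hzim]; positivity
    have h2 := Rv_H_apply hH hz b
    have h3 : b = Rv H z (H b) - z • Rv H z b := by rw [h2]; abel
    have h4 : ⟪u, b⟫_ℂ = ⟪u, Rv H z (H b)⟫_ℂ := by
      conv_lhs => rw [h3]
      rw [inner_sub_right, inner_smul_right, h z hz, mul_zero, sub_zero]
    rw [h4]
    have h5 := norm_Rv_le hH hz (H b)
    rw [hzim, abs_of_pos (by positivity)] at h5
    have h6 : ‖Rv H z (H b)‖ ≤ ‖H b‖ / (n + 1) := by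
      rw [le_div_iff₀ (by positivity)]; linarith
    calc ‖⟪u, Rv H z (H b)⟫_ℂ‖ ≤ ‖u‖ * ‖Rv H z (H b)‖ := norm_inner_le_norm _ _
      _ ≤ ‖u‖ * (‖H b‖ / (n + 1)) := by gcongr
      _ = _ := by ring
  have h2 : Tendsto (fun n : ℕ => ‖u‖ * ‖H b‖ / ((n : ℝ) + 1)) atTop (𝓝 0) :=
    tendsto_const_nhds.div_atTop (tendsto_atTop_add_const_right _ _ tendsto_natCast_atTop_atTop)
  have h3 : ‖⟪u, b⟫_ℂ‖ ≤ 0 := ge_of_tendsto' h2 h1
  exact norm_le_zero_iff.mp h3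

theorem inner_pow_eq_zero {H : E →L[ℂ] E} (hH : IsSelfAdjoint H) {u b : E}
    (h : ∀ z : ℂ, z.im ≠ 0 → ⟪u, Rv H z b⟫_ℂ = 0) (n : ℕ) : ⟪u, (H ^ n) b⟫_ℂ = 0 := by
  induction n generalizing b with
  | zero => simpa using inner_eq_zero_of_Rv hH h
  | succ n ih =>
    rw [pow_succ, ContinuousLinearMap.mul_apply]
    refine ih fun z hz => ?_
    rw [Rv_H_apply hH hz, inner_add_right, inner_smul_right, h z hz, inner_eq_zero_of_Rv hH h]
    simp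

/-! ### Rank one perturbation -/

theorem Model.Rv_upd (M : Model c e H) (ω : Λ → ℝ) {z : ℂ} (hz : z.im ≠ 0) (y : Λ) (v : ℝ) :
    (1 + ((clp c v - clp c (ω y) : ℝ) : ℂ) * ⟪e y, Rv (H ω) z (e y)⟫_ℂ)
      • Rv (H (Function.update ω y v)) z (e y) = Rv (H ω) z (e y) := by
  set ω' := Function.update ω y v with hω'
  set s : ℂ := ((clp c v - clp c (ω y) : ℝ) : ℂ) with hs
  have h1 := Rv_sub_Rv (M.sa ω) (M.sa ω') hz hz (e y)
  have h2 : (H ω' - H ω) (Rv (H ω) z (e y)) = s • ⟪e y, Rv (H ω) z (e y)⟫_ℂ • e y := by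
    have := M.upd ω y v (Rv (H ω) z (e y))
    rw [← hω', ← hs] at this
    show H ω' (Rv (H ω) z (e y)) - H ω (Rv (H ω) z (e y)) = _
    rw [this]; abel
  rw [h2, sub_self, zero_smul, sub_zero, map_smul, map_smul, smul_smul] at h1
  rw [add_smul, one_smul]
  rw [sub_eq_iff_eq_add] at h1
  nth_rewrite 1 [h1]
  abel

theorem Model.Rv_upd_of_zero (M : Model c e H) (ω : Λ → ℝ) {z : ℂ} (hz : z.im ≠ 0) (y : Λ) (v : ℝ)
    {u : E} (hu : ⟪e y, Rv (H (Function.update ω y v)) z u⟫_ℂ = 0) :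
    Rv (H (Function.update ω y v)) z u = Rv (H ω) z u := by
  set ω' := Function.update ω y v with hω'
  have h1 := Rv_sub_Rv (M.sa ω') (M.sa ω) hz hz u
  have h2 : (H ω - H ω') (Rv (H ω') z u) = 0 := by
    have := M.upd ω y v (Rv (H ω') z u)
    rw [← hω', hu] at this
    show H ω (Rv (H ω') z u) - H ω' (Rv (H ω') z u) = _
    rw [this]; simp
  rw [h2, sub_self, zero_smul, sub_zero, map_zero, neg_zero, sub_eq_zero] at h1
  exact h1.symm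

theorem one_add_ne' {F : ℂ} (hF : F.im ≠ 0) (s : ℝ) : 1 + (s : ℂ) * F ≠ 0 := by
  intro h
  have h1 := congrArg Complex.im h
  have h2 := congrArg Complex.re h
  simp at h1 h2
  rcases h1 with h1 | h1
  · rw [h1] at h2; simp at h2
  · exact hF h1

theorem Model.im_inner_ne (M : Model c e H) (ω : Λ → ℝ) {z : ℂ} (hz : z.im ≠ 0) (y : Λ) :
    (⟪e y, Rv (H ω) z (e y)⟫_ℂ).im ≠ 0 := by
  rw [im_inner_Rv (M.sa ω) hz]
  refine mul_ne_zero hz ?_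
  have := Rv_ne_zero (M.sa ω) hz (M.ortho.ne_zero y)
  exact pow_ne_zero 2 (norm_ne_zero_iff.mpr this)

/-- the main identity -/
theorem Model.comm_upd (M : Model c e H) (ω : Λ → ℝ) {z : ℂ} (hz : z.im ≠ 0) (y : Λ) (v : ℝ)
    {B B' : E →L[ℂ] E} (hB : Commute B (H ω)) (hB' : Commute B' (H (Function.update ω y v)))
    (ha' : Anti e B') :
    (B' - B) (Rv (H (Function.update ω y v)) z (e y)) = Rv (H ω) z (B' (e y)
      - (1 + ((clp c v - clp c (ω y) : ℝ) : ℂ) * ⟪e y, Rv (H ω) z (e y)⟫_ℂ)⁻¹ • B (e y)) := by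
  set ω' := Function.update ω y v with hω'
  set a : ℂ := 1 + ((clp c v - clp c (ω y) : ℝ) : ℂ) * ⟪e y, Rv (H ω) z (e y)⟫_ℂ with ha
  have hane : a ≠ 0 := one_add_ne' (M.im_inner_ne ω hz y) _
  have h1 : Rv (H ω') z (e y) = a⁻¹ • Rv (H ω) z (e y) := by
    rw [← M.Rv_upd ω hz y v, ← ha, smul_smul, inv_mul_cancel₀ hane, one_smul]
  have h2 := M.inner_Rv_anti ω' hz hB' ha' y
  have h3 := M.Rv_upd_of_zero ω hz y v h2
  show B' (Rv (H ω') z (e y)) - B (Rv (H ω') z (e y)) = _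
  rw [commute_apply (commute_Rv hB' z), h3, h1, map_smul, commute_apply (commute_Rv hB z),
    map_sub, map_smul]

/-- passing to the adjoint conjugates the energy -/
theorem Model.norm_anti_conj (M : Model c e H) (ω : Λ → ℝ) {z : ℂ} (hz : z.im ≠ 0) (y : Λ)
    {D : E →L[ℂ] E} (ha : Anti e D) :
    ‖D (Rv (H ω) ((starRingEnd ℂ) z) (e y))‖ = ‖(-D.adjoint) (Rv (H ω) z (e y))‖ := by
  have h1 : ∀ x w, ⟪e x, (-D.adjoint) (e w)⟫_ℂ = (starRingEnd ℂ) ⟪e x, D (e w)⟫_ℂ := by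
    intro x w
    rw [ContinuousLinearMap.neg_apply, inner_neg_right, ContinuousLinearMap.adjoint_inner_right,
      ha x w, map_neg, inner_conj_symm]
  have h2 : ∀ x, ⟪e x, (-D.adjoint) (Rv (H ω) z (e y))⟫_ℂ
      = (starRingEnd ℂ) ⟪e x, D (Rv (H ω) ((starRingEnd ℂ) z) (e y))⟫_ℂ := by
    intro x
    have h3 := M.hasSum_inner (-D.adjoint) (e x) (Rv (H ω) z (e y))
    have h4 := M.hasSum_inner D (e x) (Rv (H ω) ((starRingEnd ℂ) z) (e y))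
    have h5 := Complex.hasSum_conj'.mpr h4
    refine h3.unique ?_
    convert h5 using 2 with w
    rw [map_mul, h1, M.inner_Rv_conj ω hz, Complex.conj_conj]
  have h3 := M.parseval_norm (D (Rv (H ω) ((starRingEnd ℂ) z) (e y)))
  have h4 := M.parseval_norm ((-D.adjoint) (Rv (H ω) z (e y)))
  simp_rw [h2, Complex.norm_conj] at h4
  have h5 := h3.unique h4
  exact (sq_eq_sq₀ (norm_nonneg _) (norm_nonneg _)).mp h5

/-- the final deterministic inequality -/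
theorem Model.comm_ineq (M : Model c e H) (ω : Λ → ℝ) {z : ℂ} (hz : 0 < z.im) (y : Λ) (v : ℝ)
    {B B' : E →L[ℂ] E} (hB : Commute B (H ω)) (hB' : Commute B' (H (Function.update ω y v)))
    (ha : Anti e B) (ha' : Anti e B') {K : ℝ} (hK : ‖B‖ ≤ K) :
    4 * (clp c v - clp c (ω y)) ^ 2 * (z.im * ‖Rv (H ω) z (B (e y))‖ ^ 2) ^ 3
      ≤ 2 * K ^ 4 * ‖1 + ((clp c v - clp c (ω y) : ℝ) : ℂ) * ⟪e y, Rv (H ω) z (e y)⟫_ℂ‖ ^ 4
        * (z.im * ‖(B' - B) (Rv (H (Function.update ω y v)) z (e y))‖ ^ 2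
          + z.im * ‖(-(B' - B).adjoint) (Rv (H (Function.update ω y v)) z (e y))‖ ^ 2) := by
  set ω' := Function.update ω y v with hω'
  set s : ℝ := clp c v - clp c (ω y) with hs
  set F := ⟪e y, Rv (H ω) z (e y)⟫_ℂ with hF
  set a : ℂ := 1 + (s : ℂ) * F with haa
  have hFim : F.im = z.im * ‖Rv (H ω) z (e y)‖ ^ 2 := im_inner_Rv (M.sa ω) hz.ne' (e y)
  have hz' : ((starRingEnd ℂ) z).im ≠ 0 := by simpa using hz.ne'
  have hane : a ≠ 0 := one_add_ne' (M.im_inner_ne ω hz.ne' y) _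
  have hD : Anti e (B' - B) := by
    intro x w
    show ⟪e x, B' (e w) - B (e w)⟫_ℂ = -⟪e w, B' (e x) - B (e x)⟫_ℂ
    rw [inner_sub_right, inner_sub_right, ha x w, ha' x w]; ring
  -- the two identities
  have h1 := M.comm_upd ω hz.ne' y v hB hB' ha'
  have h2 := M.comm_upd ω hz' y v hB hB' ha'
  rw [← hω', ← hs, ← hF, ← haa] at h1
  have hFc : ⟪e y, Rv (H ω) ((starRingEnd ℂ) z) (e y)⟫_ℂ = (starRingEnd ℂ) F :=
    M.inner_Rv_conj ω hz.ne' y y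
  rw [hFc, ← hω', ← hs] at h2
  have hac : 1 + (s : ℂ) * (starRingEnd ℂ) F = (starRingEnd ℂ) a := by
    rw [haa]; simp
  rw [hac] at h2
  have h3 := M.norm_anti_conj ω' hz.ne' y hD
  rw [h2, norm_Rv_conj (M.sa ω) hz.ne'] at h3
  rw [← h3, h1]
  set w1 := Rv (H ω) z (B' (e y) - a⁻¹ • B (e y)) with hw1
  set w2 := Rv (H ω) z (B' (e y) - ((starRingEnd ℂ) a)⁻¹ • B (e y)) with hw2
  set w := Rv (H ω) z (B (e y)) with hw
  have h4 : w1 - w2 = (((starRingEnd ℂ) a)⁻¹ - a⁻¹) • w := by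
    rw [hw1, hw2, hw, map_sub, map_sub, map_smul, map_smul, sub_smul]
    abel
  have hcne : (starRingEnd ℂ) a ≠ 0 := (map_ne_zero _).mpr hane
  have h5 : ‖((starRingEnd ℂ) a)⁻¹ - a⁻¹‖ = 2 * |s| * F.im / ‖a‖ ^ 2 := by
    have e1 : ((starRingEnd ℂ) a)⁻¹ - a⁻¹ = (a - (starRingEnd ℂ) a) / (a * (starRingEnd ℂ) a) := by
      field_simp
    rw [e1, norm_div, norm_mul, Complex.norm_conj, Complex.sub_conj, norm_mul, Complex.norm_I,
      mul_one, Complex.norm_real, Real.norm_eq_abs, ← sq]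
    congr 1
    have : a.im = s * F.im := by rw [haa]; simp
    rw [this, abs_mul, abs_mul, abs_of_pos (by norm_num : (0:ℝ) < 2)]
    have hpos : 0 ≤ F.im := by rw [hFim]; positivity
    rw [abs_of_nonneg hpos]; ring
  have h6 : ‖w1 - w2‖ ^ 2 ≤ 2 * ‖w1‖ ^ 2 + 2 * ‖w2‖ ^ 2 := by
    have h := norm_sub_le w1 w2
    have h2 : ‖w1 - w2‖ ^ 2 ≤ (‖w1‖ + ‖w2‖) ^ 2 := pow_le_pow_left₀ (norm_nonneg _) h 2
    nlinarith [sq_nonneg (‖w1‖ - ‖w2‖)]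
  rw [h4, norm_smul, h5] at h6
  -- the bound `z.im ‖w‖² ≤ K² Im F`
  have h7 : z.im * ‖w‖ ^ 2 ≤ K ^ 2 * F.im := by
    have e1 : w = B (Rv (H ω) z (e y)) := by
      rw [hw, commute_apply (commute_Rv hB z)]
    have e2 : ‖w‖ ≤ K * ‖Rv (H ω) z (e y)‖ := by
      rw [e1]
      exact (B.le_opNorm _).trans (mul_le_mul_of_nonneg_right hK (norm_nonneg _))
    have e3 : ‖w‖ ^ 2 ≤ (K * ‖Rv (H ω) z (e y)‖) ^ 2 := pow_le_pow_left₀ (norm_nonneg _) e2 2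
    rw [hFim]
    calc z.im * ‖w‖ ^ 2 ≤ z.im * (K * ‖Rv (H ω) z (e y)‖) ^ 2 := by gcongr
      _ = _ := by ring
  have hna : 0 < ‖a‖ := norm_pos_iff.mpr hane
  have hFpos : 0 ≤ F.im := by rw [hFim]; positivity
  set P := z.im * ‖w‖ ^ 2 with hP
  have hP0 : 0 ≤ P := by positivity
  -- `4 s² (Im F)² P ≤ 2 ‖a‖⁴ (X + X')`
  have h8 : 4 * s ^ 2 * F.im ^ 2 * P ≤ ‖a‖ ^ 4 * (z.im * (2 * ‖w1‖ ^ 2 + 2 * ‖w2‖ ^ 2)) := by
    have e1 : (2 * |s| * F.im / ‖a‖ ^ 2 * ‖w‖) ^ 2 * ‖a‖ ^ 4 = 4 * s ^ 2 * F.im ^ 2 * ‖w‖ ^ 2 := by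
      have : |s| ^ 2 = s ^ 2 := sq_abs s
      field_simp
      rw [← this]; ring
    calc 4 * s ^ 2 * F.im ^ 2 * P = z.im * ((2 * |s| * F.im / ‖a‖ ^ 2 * ‖w‖) ^ 2 * ‖a‖ ^ 4) := by
          rw [e1, hP]; ring
      _ ≤ z.im * ((2 * ‖w1‖ ^ 2 + 2 * ‖w2‖ ^ 2) * ‖a‖ ^ 4) := by gcongr
      _ = _ := by ring
  have h9 : P ^ 2 ≤ K ^ 4 * F.im ^ 2 := by
    calc P ^ 2 ≤ (K ^ 2 * F.im) ^ 2 := pow_le_pow_left₀ hP0 h7 2
      _ = _ := by ring
  calc 4 * s ^ 2 * P ^ 3 = 4 * s ^ 2 * P * P ^ 2 := by ring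
    _ ≤ 4 * s ^ 2 * P * (K ^ 4 * F.im ^ 2) := by gcongr
    _ = K ^ 4 * (4 * s ^ 2 * F.im ^ 2 * P) := by ring
    _ ≤ K ^ 4 * (‖a‖ ^ 4 * (z.im * (2 * ‖w1‖ ^ 2 + 2 * ‖w2‖ ^ 2))) := by gcongr
    _ = _ := by ring

end Pool.Agent.Lib.MP_562b47_mp
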