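import Mathlib

/-!
Convergence to zero in measure and tightness for sequences of nonnegative functions.
(Anderson model, MP_562b47_mp.)
-/

open MeasureTheory Set Filter Topology
open scoped Real ENNReal NNReal

namespace Pool.Agent.Lib.MP_562b47_mp

variable {α α' : Type*} [MeasurableSpace α] [MeasurableSpace α']

/-- convergence to zero in measure (for a probability measure) -/
def Null (μ : Measure α) (a : ℕ → α → ℝ≥0∞) : Prop :=
  Tendsto (fun k => ∫⁻ x, min 1 (a k x) ∂μ) atTop (𝓝 0)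

/-- tightness -/
def Tght (μ : Measure α) (b : ℕ → α → ℝ≥0∞) : Prop :=
  ∀ ε : ℝ≥0∞, 0 < ε → ∃ δ : ℝ≥0∞, 0 < δ ∧ δ ≤ 1 ∧ ∀ k, ∫⁻ x, min 1 (δ * b k x) ∂μ ≤ ε

theorem Null.mono {μ : Measure α} {a b : ℕ → α → ℝ≥0∞} (hb : Null μ b)
    (h : ∀ k, ∀ᵐ x ∂μ, a k x ≤ b k x) : Null μ a := by
  refine tendsto_of_tendsto_of_tendsto_of_le_of_le tendsto_const_nhds hb (fun k => bot_le)
    fun k => lintegral_mono_ae ?_
  filter_upwards [h k] with x hx using min_le_min_left 1 hx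

theorem min_one_add_le_enn (a b : ℝ≥0∞) : min 1 (a + b) ≤ min 1 a + min 1 b := by
  rcases le_total 1 a with h | h
  · rw [min_eq_left h]
    exact (min_le_left _ _).trans le_self_add
  · rcases le_total 1 b with h' | h'
    · rw [min_eq_left h']
      exact (min_le_left _ _).trans le_add_self
    · rw [min_eq_right h, min_eq_right h']
      exact min_le_right _ _

theorem Null.add {μ : Measure α} {a b : ℕ → α → ℝ≥0∞} (ha : Null μ a) (hb : Null μ b)
    (hm : ∀ k, Measurable (b k)) : Null μ (fun k x => a k x + b k x) := by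
  have h := Tendsto.add ha hb
  rw [add_zero] at h
  refine tendsto_of_tendsto_of_tendsto_of_le_of_le tendsto_const_nhds h (fun k => bot_le)
    fun k => ?_
  show ∫⁻ x, min 1 (a k x + b k x) ∂μ ≤ ∫⁻ x, min 1 (a k x) ∂μ + ∫⁻ x, min 1 (b k x) ∂μ
  rw [← lintegral_add_right _ (measurable_const.min (hm k))]
  exact lintegral_mono fun x => min_one_add_le_enn _ _

theorem min_one_mul_le_enn (a b : ℝ≥0∞) {δ : ℝ≥0∞} (h0 : 0 < δ) (h1 : δ ≤ 1) :
    min 1 (a * b) ≤ δ⁻¹ * min 1 a + min 1 (δ * b) := by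
  have hδ : δ ≠ ⊤ := ne_top_of_le_ne_top ENNReal.one_ne_top h1
  rcases le_total 1 (δ * b) with h | h
  · rw [min_eq_left h]
    exact (min_le_left _ _).trans le_add_self
  · have h2 : b ≤ δ⁻¹ := by
      rw [ENNReal.le_inv_iff_mul_le, mul_comm]; exact h
    have h3 : min 1 (a * b) ≤ δ⁻¹ * min 1 a := by
      rcases le_total 1 a with h' | h'
      · rw [min_eq_left h', mul_one]
        exact (min_le_left _ _).trans (ENNReal.one_le_inv.mpr h1)
      · rw [min_eq_right h']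
        exact (min_le_right _ _).trans (by rw [mul_comm]; gcongr)
    exact h3.trans le_self_add

theorem Null.mul_tght {μ : Measure α} {a b : ℕ → α → ℝ≥0∞} (ha : Null μ a) (hb : Tght μ b)
    (hm : ∀ k, Measurable (b k)) : Null μ (fun k x => a k x * b k x) := by
  unfold Null
  rw [ENNReal.tendsto_atTop_zero]
  intro ε hε
  obtain ⟨δ, h0, h1, h2⟩ := hb (ε / 2) (ENNReal.half_pos hε.ne')
  have hδ : δ⁻¹ ≠ ⊤ := ENNReal.inv_ne_top.mpr h0.ne'
  have h3 : Tendsto (fun k => δ⁻¹ * ∫⁻ x, min 1 (a k x) ∂μ) atTop (𝓝 (δ⁻¹ * 0)) :=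
    ENNReal.Tendsto.const_mul ha (Or.inr hδ)
  rw [mul_zero, ENNReal.tendsto_atTop_zero] at h3
  obtain ⟨N, hN⟩ := h3 (ε / 2) (ENNReal.half_pos hε.ne')
  refine ⟨N, fun k hk => ?_⟩
  calc ∫⁻ x, min 1 (a k x * b k x) ∂μ
      ≤ ∫⁻ x, (δ⁻¹ * min 1 (a k x) + min 1 (δ * b k x)) ∂μ :=
        lintegral_mono fun x => min_one_mul_le_enn _ _ h0 h1
    _ = ∫⁻ x, δ⁻¹ * min 1 (a k x) ∂μ + ∫⁻ x, min 1 (δ * b k x) ∂μ :=
        lintegral_add_right _ (measurable_const.min ((hm k).const_mul _))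
    _ = δ⁻¹ * ∫⁻ x, min 1 (a k x) ∂μ + ∫⁻ x, min 1 (δ * b k x) ∂μ := by
        rw [lintegral_const_mul' _ _ hδ]
    _ ≤ ε / 2 + ε / 2 := add_le_add (hN k hk) (h2 k)
    _ = ε := ENNReal.add_halves ε

theorem Tght.mono {μ : Measure α} {a b : ℕ → α → ℝ≥0∞} (hb : Tght μ b)
    (h : ∀ k, ∀ᵐ x ∂μ, a k x ≤ b k x) : Tght μ a := by
  intro ε hε
  obtain ⟨δ, h0, h1, h2⟩ := hb ε hε
  refine ⟨δ, h0, h1, fun k => (lintegral_mono_ae ?_).trans (h2 k)⟩
  filter_upwards [h k] with x hx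
  exact min_le_min_left 1 (by gcongr)

theorem Tght.add {μ : Measure α} {a b : ℕ → α → ℝ≥0∞} (ha : Tght μ a) (hb : Tght μ b)
    (hm : ∀ k, Measurable (b k)) : Tght μ (fun k x => a k x + b k x) := by
  intro ε hε
  obtain ⟨δ, h0, h1, h2⟩ := ha (ε / 2) (ENNReal.half_pos hε.ne')
  obtain ⟨δ', h0', h1', h2'⟩ := hb (ε / 2) (ENNReal.half_pos hε.ne')
  refine ⟨min δ δ', lt_min h0 h0', (min_le_left _ _).trans h1, fun k => ?_⟩
  calc ∫⁻ x, min 1 (min δ δ' * (a k x + b k x)) ∂μ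
      ≤ ∫⁻ x, (min 1 (δ * a k x) + min 1 (δ' * b k x)) ∂μ := by
        refine lintegral_mono fun x => ?_
        rw [mul_add]
        refine (min_one_add_le_enn _ _).trans (add_le_add (min_le_min_left 1 ?_)
          (min_le_min_left 1 ?_))
        · gcongr; exact min_le_left _ _
        · gcongr; exact min_le_right _ _
    _ = ∫⁻ x, min 1 (δ * a k x) ∂μ + ∫⁻ x, min 1 (δ' * b k x) ∂μ :=
        lintegral_add_right _ (measurable_const.min ((hm k).const_mul _))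
    _ ≤ ε / 2 + ε / 2 := add_le_add (h2 k) (h2' k)
    _ = ε := ENNReal.add_halves ε

theorem Tght.mul {μ : Measure α} {a b : ℕ → α → ℝ≥0∞} (ha : Tght μ a) (hb : Tght μ b)
    (hm : ∀ k, Measurable (b k)) : Tght μ (fun k x => a k x * b k x) := by
  intro ε hε
  obtain ⟨δ, h0, h1, h2⟩ := ha (ε / 2) (ENNReal.half_pos hε.ne')
  obtain ⟨δ', h0', h1', h2'⟩ := hb (ε / 2) (ENNReal.half_pos hε.ne')
  have hδ : δ ≠ ⊤ := ne_top_of_le_ne_top ENNReal.one_ne_top h1
  refine ⟨δ * δ', ENNReal.mul_pos h0.ne' h0'.ne', mul_le_one' h1 h1', fun k => ?_⟩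
  calc ∫⁻ x, min 1 (δ * δ' * (a k x * b k x)) ∂μ
      ≤ ∫⁻ x, (min 1 (δ * a k x) + min 1 (δ' * b k x)) ∂μ := by
        refine lintegral_mono fun x => ?_
        have e1 : δ * δ' * (a k x * b k x) = (δ * a k x) * (δ' * b k x) := by ring
        rw [e1]
        rcases le_total 1 (δ' * b k x) with h | h
        · rw [min_eq_left h]
          exact (min_le_left _ _).trans le_add_self
        · refine (min_le_min_left 1 ?_).trans le_self_add
          calc δ * a k x * (δ' * b k x) ≤ δ * a k x * 1 := by gcongr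
            _ = _ := mul_one _
    _ = ∫⁻ x, min 1 (δ * a k x) ∂μ + ∫⁻ x, min 1 (δ' * b k x) ∂μ :=
        lintegral_add_right _ (measurable_const.min ((hm k).const_mul _))
    _ ≤ ε / 2 + ε / 2 := add_le_add (h2 k) (h2' k)
    _ = ε := ENNReal.add_halves ε

/-- a fixed finite function is tight -/
theorem Tght.const {μ : Measure α} [IsFiniteMeasure μ] {g : α → ℝ≥0∞} (hm : Measurable g)
    (hg : ∀ᵐ x ∂μ, g x ≠ ⊤) : Tght μ (fun _ => g) := by
  intro ε hε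
  have h1 : Tendsto (fun n : ℕ => ∫⁻ x, min 1 (((n : ℝ≥0∞) + 1)⁻¹ * g x) ∂μ) atTop
      (𝓝 (∫⁻ _x, 0 ∂μ)) := by
    refine tendsto_lintegral_of_dominated_convergence (fun _ => 1)
      (fun n => measurable_const.min (hm.const_mul _)) (fun n => ae_of_all _ fun x =>
        min_le_left _ _) (by simp) ?_
    filter_upwards [hg] with x hx
    have h2 : Tendsto (fun n : ℕ => ((n : ℝ≥0∞) + 1)⁻¹ * g x) atTop (𝓝 (0 * g x)) := by
      refine ENNReal.Tendsto.mul_const ?_ (Or.inr hx)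
      have h3 := (ENNReal.tendsto_inv_nat_nhds_zero).comp (tendsto_add_atTop_nat 1)
      refine h3.congr fun n => ?_
      simp
    rw [zero_mul] at h2
    have h3 : Tendsto (fun n : ℕ => min 1 (((n : ℝ≥0∞) + 1)⁻¹ * g x)) atTop (𝓝 (min 1 0)) :=
      tendsto_const_nhds.min h2
    simpa using h3
  rw [lintegral_zero] at h1
  obtain ⟨N, hN⟩ := (ENNReal.tendsto_atTop_zero.mp h1) ε hε
  refine ⟨((N : ℝ≥0∞) + 1)⁻¹, ?_, ?_, fun k => hN N le_rfl⟩
  · rw [ENNReal.inv_pos]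
    exact ENNReal.add_ne_top.mpr ⟨ENNReal.natCast_ne_top N, ENNReal.one_ne_top⟩
  · rw [ENNReal.inv_le_one]; exact le_add_self

/-- a sequence with bounded fractional moments is tight -/
theorem Tght.of_moment {μ : Measure α} {b : ℕ → α → ℝ≥0∞} {r : ℝ} (hr : 0 < r) (hr1 : r ≤ 1)
    {C : ℝ≥0∞} (hC : C ≠ ⊤) (h : ∀ k, ∫⁻ x, b k x ^ r ∂μ ≤ C) : Tght μ b := by
  intro ε hε
  have h1 : Tendsto (fun n : ℕ => (((n : ℝ≥0∞) + 1)⁻¹) ^ r * C) atTop (𝓝 (0 ^ r * C)) := by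
    refine ENNReal.Tendsto.mul_const ?_ (Or.inr hC)
    have h3 : Tendsto (fun n : ℕ => ((n : ℝ≥0∞) + 1)⁻¹) atTop (𝓝 0) := by
      have h3 := (ENNReal.tendsto_inv_nat_nhds_zero).comp (tendsto_add_atTop_nat 1)
      refine h3.congr fun n => ?_
      simp
    exact (ENNReal.continuous_rpow_const.tendsto 0).comp h3
  rw [ENNReal.zero_rpow_of_pos hr, zero_mul] at h1
  obtain ⟨N, hN⟩ := (ENNReal.tendsto_atTop_zero.mp h1) ε hε
  refine ⟨((N : ℝ≥0∞) + 1)⁻¹, ?_, ?_, fun k => ?_⟩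
  · rw [ENNReal.inv_pos]
    exact ENNReal.add_ne_top.mpr ⟨ENNReal.natCast_ne_top N, ENNReal.one_ne_top⟩
  · rw [ENNReal.inv_le_one]; exact le_add_self
  · set δ := ((N : ℝ≥0∞) + 1)⁻¹ with hδ
    have hδt : δ ^ r ≠ ⊤ := by
      refine ENNReal.rpow_ne_top_of_nonneg hr.le ?_
      rw [hδ, ENNReal.inv_ne_top]
      positivity
    calc ∫⁻ x, min 1 (δ * b k x) ∂μ ≤ ∫⁻ x, δ ^ r * b k x ^ r ∂μ := by
          refine lintegral_mono fun x => ?_
          rw [← ENNReal.mul_rpow_of_nonneg _ _ hr.le]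
          rcases le_total 1 (δ * b k x) with h | h
          · rw [min_eq_left h]
            exact ENNReal.one_le_rpow h hr
          · rw [min_eq_right h]
            calc δ * b k x = (δ * b k x) ^ (1:ℝ) := (ENNReal.rpow_one _).symm
              _ ≤ (δ * b k x) ^ r := ENNReal.rpow_le_rpow_of_exponent_ge h hr1
      _ = δ ^ r * ∫⁻ x, b k x ^ r ∂μ := lintegral_const_mul' _ _ hδt
      _ ≤ δ ^ r * C := by gcongr; exact h k
      _ ≤ ε := hN N le_rfl

theorem Null.comp {μ : Measure α} {ν : Measure α'} {f : α → α'} (hf : MeasurePreserving f μ ν)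
    {a : ℕ → α' → ℝ≥0∞} (ha : Null ν a) (hm : ∀ k, Measurable (a k)) :
    Null μ (fun k x => a k (f x)) := by
  refine ha.congr fun k => ?_
  exact (hf.lintegral_comp (measurable_const.min (hm k))).symm

theorem Tght.comp {μ : Measure α} {ν : Measure α'} {f : α → α'} (hf : MeasurePreserving f μ ν)
    {a : ℕ → α' → ℝ≥0∞} (ha : Tght ν a) (hm : ∀ k, Measurable (a k)) :
    Tght μ (fun k x => a k (f x)) := by
  intro ε hε
  obtain ⟨δ, h0, h1, h2⟩ := ha ε hε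
  refine ⟨δ, h0, h1, fun k => ?_⟩
  rw [hf.lintegral_comp (f := fun x => min 1 (δ * a k x))
    (measurable_const.min ((hm k).const_mul _))]
  exact h2 k

/-- `a³` null implies `a` null -/
theorem Null.of_cube {μ : Measure α} [IsProbabilityMeasure μ] {a : ℕ → α → ℝ≥0∞}
    (ha : Null μ (fun k x => a k x ^ 3)) : Null μ a := by
  unfold Null
  rw [ENNReal.tendsto_atTop_zero]
  intro ε hε
  obtain ⟨δ, hδ0, hδ1, hδ2⟩ : ∃ δ : ℝ≥0∞, 0 < δ ∧ δ ≤ 1 ∧ δ ≤ ε / 2 :=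
    ⟨min 1 (ε / 2), lt_min one_pos (ENNReal.half_pos hε.ne'), min_le_left _ _, min_le_right _ _⟩
  have hδt : (δ⁻¹) ^ 2 ≠ ⊤ := ENNReal.pow_ne_top (ENNReal.inv_ne_top.mpr hδ0.ne')
  have h3 : Tendsto (fun k => (δ⁻¹) ^ 2 * ∫⁻ x, min 1 (a k x ^ 3) ∂μ) atTop (𝓝 ((δ⁻¹) ^ 2 * 0)) :=
    ENNReal.Tendsto.const_mul ha (Or.inr hδt)
  rw [mul_zero, ENNReal.tendsto_atTop_zero] at h3
  obtain ⟨N, hN⟩ := h3 (ε / 2) (ENNReal.half_pos hε.ne')
  refine ⟨N, fun k hk => ?_⟩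
  have hδ' : δ ≠ ⊤ := ne_top_of_le_ne_top ENNReal.one_ne_top hδ1
  have key : ∀ y : ℝ≥0∞, min 1 y ≤ δ + (δ⁻¹) ^ 2 * min 1 (y ^ 3) := by
    intro y
    rcases le_total y δ with h | h
    · exact (min_le_right _ _).trans (h.trans le_self_add)
    · have h1 : 1 ≤ δ⁻¹ * y := by
        rw [mul_comm, ← div_eq_mul_inv, ENNReal.le_div_iff_mul_le (Or.inl hδ0.ne') (Or.inl hδ'),
          one_mul]
        exact h
      refine le_trans ?_ le_add_self
      rcases le_total 1 y with h' | h'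
      · rw [min_eq_left h', min_eq_left (one_le_pow₀ h'), mul_one]
        exact one_le_pow₀ (ENNReal.one_le_inv.mpr hδ1)
      · rw [min_eq_right h', min_eq_right (pow_le_one₀ bot_le h')]
        calc y = 1 ^ 2 * y := by rw [one_pow, one_mul]
          _ ≤ (δ⁻¹ * y) ^ 2 * y := by gcongr
          _ = _ := by ring
  calc ∫⁻ x, min 1 (a k x) ∂μ ≤ ∫⁻ x, (δ + (δ⁻¹) ^ 2 * min 1 (a k x ^ 3)) ∂μ :=
        lintegral_mono fun x => key _
    _ = δ + (δ⁻¹) ^ 2 * ∫⁻ x, min 1 (a k x ^ 3) ∂μ := by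
        rw [lintegral_add_left measurable_const, lintegral_const, measure_univ, mul_one,
          lintegral_const_mul' _ _ hδt]
    _ ≤ ε / 2 + ε / 2 := add_le_add hδ2 (hN k hk)
    _ = ε := ENNReal.add_halves ε

end Pool.Agent.Lib.MP_562b47_mp
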