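import Mathlib
import Pool.Agent.Lib.MP_562b47_mp.Comm1
import Pool.Agent.Lib.MP_562b47_mp.NullTight
import Pool.Agent.Lib.MP_562b47_mp.Cov

/-!
A covariant operator changes little in the direction of the resolvent when one coordinate of the
potential is changed.  (Anderson model, MP_562b47_mp.)
-/

open MeasureTheory Set Filter Topology Complex
open scoped Real ENNReal NNReal InnerProductSpace

set_option linter.unusedSectionVars false

namespace Pool.Agent.Lib.MP_562b47_mp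

variable {Λ : Type*} [DecidableEq Λ] [AddCommGroup Λ] [Countable Λ] {E : Type*}
  [NormedAddCommGroup E] [InnerProductSpace ℂ E] [CompleteSpace E] {c : ℝ} {e : Λ → E}
  {H : (Λ → ℝ) → (E →L[ℂ] E)} {B : (Λ → ℝ) → (E →L[ℂ] E)}

/-! ### Measurability -/

theorem Model.measurable_Gr (M : Model c e H) {P : Type*} [MeasurableSpace P] {g : P → Λ → ℝ}
    (hg : Measurable g) {t : ℝ} (ht : 0 < t) {h : P → ℝ} (hh : Measurable h) (x y : Λ) :
    Measurable fun q => Gr e H (g q) (Zt t (h q)) x y := by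
  have h1 : Measurable (fun p : (Λ → ℝ) × ℝ => Gr e H p.1 (Zt t p.2) x y) :=
    (M.continuous_Gr continuous_fst (continuous_Zt.comp continuous_snd)
      (fun p => Zt_im_pos ht _) x y).measurable
  exact h1.comp (hg.prodMk hh)

theorem Model.measurable_BR (M : Model c e H)
    (hBm : ∀ x y, Measurable fun ω => ⟪e x, B ω (e y)⟫_ℂ) {P : Type*} [MeasurableSpace P]
    {f g : P → Λ → ℝ} (hf : Measurable f)
    (hg : Measurable g) {t : ℝ} (ht : 0 < t) {h : P → ℝ} (hh : Measurable h) (x y : Λ) :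
    Measurable fun q => ⟪e x, B (f q) (Rv (H (g q)) (Zt t (h q)) (e y))⟫_ℂ := by
  refine measurable_of_tendsto_metrizable' (atTop : Filter (Finset Λ))
    (f := fun s q => ∑ w ∈ s, ⟪e x, B (f q) (e w)⟫_ℂ * Gr e H (g q) (Zt t (h q)) w y) ?_ ?_
  · intro s
    refine Finset.measurable_fun_sum _ fun w _ => ?_
    exact ((hBm x w).comp hf).mul (M.measurable_Gr hg ht hh w y)
  · rw [tendsto_pi_nhds]
    intro q
    exact M.hasSum_inner (B (f q)) (e x) (Rv (H (g q)) (Zt t (h q)) (e y))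

theorem measurable_Zt_im {P : Type*} [MeasurableSpace P] {t : ℝ} {h : P → ℝ} (hh : Measurable h) :
    Measurable fun q => ENNReal.ofReal (Zt t (h q)).im :=
  ((Complex.continuous_im.comp continuous_Zt).measurable.comp hh).ennreal_ofReal

/-! ### Mass transport -/

theorem mt_kernel (hc : 0 < c) {q : Λ → Λ → (Λ → ℝ) → ℝ≥0∞} (hm : ∀ x y, Measurable (q x y))
    (hcov : ∀ a x y, ∀ᵐ ω ∂(PP Λ c), q x y (fun j => ω (j + a)) = q (x + a) (y + a) ω) :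
    ∑' x, ∫⁻ ω, q x 0 ω ∂(PP Λ c) = ∑' y, ∫⁻ ω, q 0 y ω ∂(PP Λ c) := by
  have := unif_prob hc
  have h1 : ∀ x, ∫⁻ ω, q x 0 ω ∂(PP Λ c) = ∫⁻ ω, q 0 (-x) ω ∂(PP Λ c) := by
    intro x
    have h2 : MeasurePreserving (fun ω : Λ → ℝ => fun j => ω (j + x)) (PP Λ c) (PP Λ c) :=
      measurePreserving_shift (Λ := Λ) (unif c) x
    rw [← h2.lintegral_comp (hm 0 (-x))]
    refine lintegral_congr_ae ?_
    filter_upwards [hcov x 0 (-x)] with ω hω
    rw [hω, zero_add, neg_add_cancel]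
  simp_rw [h1]
  exact (Equiv.neg Λ).tsum_eq (fun y => ∫⁻ ω, q 0 y ω ∂(PP Λ c))

/-- the difference of `B R` and its local approximation -/
noncomputable def QQ (e : Λ → E) (H B : (Λ → ℝ) → (E →L[ℂ] E)) (F : Finset Λ)
    (β : Λ → (Λ → ℝ) → ℂ) (x y : Λ) (ω : Λ → ℝ) (z : ℂ) : ℂ :=
  ⟪e x, B ω (Rv (H ω) z (e y))⟫_ℂ - ∑ k ∈ F, β k (fun j => ω (j + (x - k))) * Gr e H ω z (x - k) y

theorem measurable_shift {P : Type*} [MeasurableSpace P] {g : P → Λ → ℝ} (hg : Measurable g)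
    (a : Λ) : Measurable fun q => fun j => g q (j + a) := by
  rw [measurable_pi_iff] at hg ⊢
  exact fun j => hg (j + a)

theorem Model.measurable_QQ (M : Model c e H)
    (hBm : ∀ x y, Measurable fun ω => ⟪e x, B ω (e y)⟫_ℂ) {F : Finset Λ}
    {β : Λ → (Λ → ℝ) → ℂ} (hβ : ∀ k, Measurable (β k)) {P : Type*} [MeasurableSpace P]
    {g : P → Λ → ℝ} (hg : Measurable g) {t : ℝ} (ht : 0 < t) {h : P → ℝ} (hh : Measurable h)
    (x y : Λ) : Measurable fun q => QQ e H B F β x y (g q) (Zt t (h q)) := by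
  unfold QQ
  refine (M.measurable_BR hBm hg hg ht hh x y).sub ?_
  refine Finset.measurable_fun_sum _ fun k _ => ?_
  exact ((hβ k).comp (measurable_shift hg (x - k))).mul (M.measurable_Gr hg ht hh _ y)

theorem Model.QQ_cov (M : Model c e H) (hcov : ShiftCov e H)
    (hBc : ∀ a x y, ∀ᵐ ω ∂(PP Λ c), ⟪e x, B (fun j => ω (j + a)) (e y)⟫_ℂ
        = ⟪e (x + a), B ω (e (y + a))⟫_ℂ) (F : Finset Λ)
    (β : Λ → (Λ → ℝ) → ℂ) {z : ℂ} (hz : 0 < z.im) (a x y : Λ) :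
    ∀ᵐ ω ∂(PP Λ c), QQ e H B F β x y (fun j => ω (j + a)) z = QQ e H B F β (x + a) (y + a) ω z := by
  have h1 : ∀ᵐ ω ∂(PP Λ c), ∀ w, ⟪e x, B (fun j => ω (j + a)) (e w)⟫_ℂ
      = ⟪e (x + a), B ω (e (w + a))⟫_ℂ := ae_all_iff.mpr fun w => hBc a x w
  filter_upwards [h1] with ω hω
  unfold QQ
  congr 1
  · have h2 := M.hasSum_inner (B (fun j => ω (j + a))) (e x)
      (Rv (H (fun j => ω (j + a))) z (e y))
    have h3 := M.hasSum_inner (B ω) (e (x + a)) (Rv (H ω) z (e (y + a)))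
    have h4 := (Equiv.addRight a).hasSum_iff.mpr h3
    refine h2.unique ?_
    convert h4 using 2 with w
    simp only [Function.comp, Equiv.coe_addRight]
    rw [hω w]
    congr 1
    exact hcov a ω z w y hz
  · refine Finset.sum_congr rfl fun k _ => ?_
    have e1 : (fun j => ω (j + (x - k) + a)) = (fun j => ω (j + (x + a - k))) := by
      funext j; congr 1; abel
    have e2 : x - k + a = x + a - k := by abel
    show β k (fun j => ω (j + (x - k) + a)) * Gr e H (fun j => ω (j + a)) z (x - k) y = _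
    rw [e1, hcov a ω z (x - k) y hz, e2]

/-- the row vector -/
noncomputable def ww (e : Λ → E) (B : (Λ → ℝ) → (E →L[ℂ] E)) (F : Finset Λ)
    (β : Λ → (Λ → ℝ) → ℂ) (ω : Λ → ℝ) : E :=
  (B ω).adjoint (e 0) - ∑ k ∈ F, (starRingEnd ℂ) (β k (fun j => ω (j + (0 - k)))) • e (0 - k)

theorem QQ_row (H : (Λ → ℝ) → (E →L[ℂ] E)) (F : Finset Λ) (β : Λ → (Λ → ℝ) → ℂ)
    (ω : Λ → ℝ) (z : ℂ) (y : Λ) :
    QQ e H B F β 0 y ω z = ⟪ww e B F β ω, Rv (H ω) z (e y)⟫_ℂ := by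
  unfold QQ ww
  rw [inner_sub_left, sum_inner, ContinuousLinearMap.adjoint_inner_left]
  congr 1
  refine Finset.sum_congr rfl fun k _ => ?_
  rw [inner_smul_left, Complex.conj_conj]
  rfl

theorem Model.tsum_QQ_row (M : Model c e H) (F : Finset Λ) (β : Λ → (Λ → ℝ) → ℂ)
    (ω : Λ → ℝ) {z : ℂ} (hz : 0 < z.im) :
    ∑' y, ‖QQ e H B F β 0 y ω z‖ₑ ^ 2 = ‖Rv (H ω) z (ww e B F β ω)‖ₑ ^ 2 := by
  have hz' : ((starRingEnd ℂ) z).im ≠ 0 := by simpa using hz.ne'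
  have h1 : ∀ y, ‖QQ e H B F β 0 y ω z‖ₑ
      = ‖⟪e y, Rv (H ω) ((starRingEnd ℂ) z) (ww e B F β ω)⟫_ℂ‖ₑ := by
    intro y
    rw [QQ_row, ← Rv_conj (M.sa ω) hz.ne', ← ofReal_norm, ← ofReal_norm, norm_inner_symm]
  simp_rw [h1]
  rw [← M.parseval_enorm, ← ofReal_norm, ← ofReal_norm, norm_Rv_conj (M.sa ω) hz.ne']

theorem lintegral_Rv_le {H : E →L[ℂ] E} (hH : IsSelfAdjoint H) {t : ℝ} (ht : 0 < t) (w : E) :
    ∫⁻ s, ENNReal.ofReal (Zt t s).im * ‖Rv H (Zt t s) w‖ₑ ^ 2 ∂kap ≤ ‖w‖ₑ ^ 2 := by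
  obtain ⟨μ, hfin, hμ⟩ := exists_isSpec hH w
  have h1 : ∀ s, ENNReal.ofReal (Zt t s).im * ‖Rv H (Zt t s) w‖ₑ ^ 2
      = ∫⁻ l, ENNReal.ofReal (pker (Zt t s) l) ∂μ := by
    intro s
    have hz := Zt_im_pos ht s
    rw [← ofReal_Pois μ hz, hμ.pois hH hz, ENNReal.ofReal_mul hz.le,
      ENNReal.ofReal_pow (norm_nonneg _), ofReal_norm]
  simp_rw [h1]
  refine (lintegral_Pois_le μ ht).trans (le_of_eq ?_)
  have h2 := hμ.mass hH
  rw [← ofReal_norm, ← ENNReal.ofReal_pow (norm_nonneg _), ← h2, Measure.real,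
    ENNReal.ofReal_toReal (measure_ne_top _ _)]

theorem Model.lintegral_ww (M : Model c e H)
    (hBm : ∀ x y, Measurable fun ω => ⟪e x, B ω (e y)⟫_ℂ)
    (hBc : ∀ a x y, ∀ᵐ ω ∂(PP Λ c), ⟪e x, B (fun j => ω (j + a)) (e y)⟫_ℂ
        = ⟪e (x + a), B ω (e (y + a))⟫_ℂ) {F : Finset Λ}
    {β : Λ → (Λ → ℝ) → ℂ} (hβ : ∀ k, Measurable (β k)) (hF : ∀ k, k ∉ F → ∀ ω, β k ω = 0) :
    ∫⁻ ω, ‖ww e B F β ω‖ₑ ^ 2 ∂(PP Λ c)
      ≤ ∫⁻ ω, ∑' k, ‖⟪e k, B ω (e 0)⟫_ℂ - β k ω‖ₑ ^ 2 ∂(PP Λ c) := by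
  have := unif_prob M.hc
  have hgm : ∀ k, Measurable fun ω => ‖⟪e k, B ω (e 0)⟫_ℂ - β k ω‖ₑ ^ 2 := fun k =>
    (((hBm k 0).sub (hβ k)).enorm).pow_const 2
  have h1 : ∀ ω k, ⟪e (0 - k), ww e B F β ω⟫_ℂ
      = (starRingEnd ℂ) (⟪e 0, B ω (e (0 - k))⟫_ℂ - β k (fun j => ω (j + (0 - k)))) := by
    intro ω k
    unfold ww
    rw [inner_sub_right, ContinuousLinearMap.adjoint_inner_right, inner_sum, map_sub,
      inner_conj_symm]
    congr 1
    have h2 : ∀ i ∈ F, ⟪e (0 - k), (starRingEnd ℂ) (β i (fun j => ω (j + (0 - i)))) • e (0 - i)⟫_ℂ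
        = if i = k then (starRingEnd ℂ) (β k (fun j => ω (j + (0 - k)))) else 0 := by
      intro i _
      rw [inner_smul_right, orthonormal_iff_ite.mp M.ortho]
      by_cases h : i = k
      · subst h; simp
      · rw [if_neg, if_neg h, mul_zero]
        intro h'
        exact h (by simpa using h'.symm)
    rw [Finset.sum_congr rfl h2, Finset.sum_ite_eq']
    by_cases hk : k ∈ F
    · rw [if_pos hk]
    · rw [if_neg hk, hF k hk, map_zero]
  have h2 : ∀ ω, ‖ww e B F β ω‖ₑ ^ 2 = ∑' k, ‖⟪e 0, B ω (e (0 - k))⟫_ℂ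
      - β k (fun j => ω (j + (0 - k)))‖ₑ ^ 2 := by
    intro ω
    rw [M.parseval_enorm, ← (Equiv.subLeft (0:Λ)).tsum_eq]
    refine tsum_congr fun k => ?_
    rw [Equiv.subLeft_apply, h1, ← ofReal_norm, ← ofReal_norm, Complex.norm_conj]
  have hm2 : ∀ k, Measurable fun ω : Λ → ℝ => ‖⟪e 0, B ω (e (0 - k))⟫_ℂ
      - β k (fun j => ω (j + (0 - k)))‖ₑ ^ 2 := fun k =>
    (((hBm 0 (0 - k)).sub ((hβ k).comp (measurable_shift measurable_id (0 - k)))).enorm).pow_const 2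
  simp_rw [h2]
  rw [lintegral_tsum (fun k => (hm2 k).aemeasurable), lintegral_tsum (fun k => (hgm k).aemeasurable)]
  refine ENNReal.tsum_le_tsum fun k => le_of_eq ?_
  have h3 : MeasurePreserving (fun ω : Λ → ℝ => fun j => ω (j + (0 - k))) (PP Λ c) (PP Λ c) :=
    measurePreserving_shift (Λ := Λ) (unif c) (0 - k)
  rw [← h3.lintegral_comp (hgm k)]
  refine lintegral_congr_ae ?_
  filter_upwards [hBc (0 - k) k 0] with ω hω
  rw [hω]
  have e1 : k + (0 - k) = 0 := by abel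
  have e2 : 0 + (0 - k) = 0 - k := by abel
  rw [e1, e2]

/-- the mean square of the error -/
noncomputable def yy (e : Λ → E) (H B : (Λ → ℝ) → (E →L[ℂ] E)) (F : Finset Λ)
    (β : Λ → (Λ → ℝ) → ℂ) (t : ℝ) (p : (Λ → ℝ) × ℝ) : ℝ≥0∞ :=
  ENNReal.ofReal (Zt t p.2).im * ∑' x, ‖QQ e H B F β x 0 p.1 (Zt t p.2)‖ₑ ^ 2

theorem Model.measurable_yy (M : Model c e H)
    (hBm : ∀ x y, Measurable fun ω => ⟪e x, B ω (e y)⟫_ℂ) {F : Finset Λ}
    {β : Λ → (Λ → ℝ) → ℂ} (hβ : ∀ k, Measurable (β k)) {t : ℝ} (ht : 0 < t) :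
    Measurable (yy e H B F β t) := by
  unfold yy
  refine (measurable_Zt_im measurable_snd).mul ?_
  refine Measurable.ennreal_tsum fun x => ?_
  exact ((M.measurable_QQ hBm hβ measurable_fst ht measurable_snd x 0).enorm).pow_const 2

theorem Model.lintegral_yy (M : Model c e H) (hcov : ShiftCov e H)
    (hBm : ∀ x y, Measurable fun ω => ⟪e x, B ω (e y)⟫_ℂ)
    (hBc : ∀ a x y, ∀ᵐ ω ∂(PP Λ c), ⟪e x, B (fun j => ω (j + a)) (e y)⟫_ℂ
        = ⟪e (x + a), B ω (e (y + a))⟫_ℂ) {F : Finset Λ}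
    {β : Λ → (Λ → ℝ) → ℂ} (hβ : ∀ k, Measurable (β k)) (hF : ∀ k, k ∉ F → ∀ ω, β k ω = 0)
    {t : ℝ} (ht : 0 < t) :
    ∫⁻ p, yy e H B F β t p ∂((PP Λ c).prod kap)
      ≤ ∫⁻ ω, ∑' k, ‖⟪e k, B ω (e 0)⟫_ℂ - β k ω‖ₑ ^ 2 ∂(PP Λ c) := by
  have := PP_prob Λ M.hc
  set q : ℝ → Λ → Λ → (Λ → ℝ) → ℝ≥0∞ := fun s x y ω => ‖QQ e H B F β x y ω (Zt t s)‖ₑ ^ 2 with hq
  have hQ : ∀ x y, Measurable fun p : (Λ → ℝ) × ℝ => q p.2 x y p.1 :=
    fun x y => ((M.measurable_QQ hBm hβ measurable_fst ht measurable_snd x y).enorm).pow_const 2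
  have hQs : ∀ s x y, Measurable (q s x y) := by
    intro s x y
    have h := M.measurable_QQ (P := Λ → ℝ) (g := fun ω => ω) (h := fun _ => s) hBm hβ (F := F)
      measurable_id ht measurable_const x y
    exact (h.enorm).pow_const 2
  have hyy : ∀ ω s, yy e H B F β t (ω, s) = ENNReal.ofReal (Zt t s).im * ∑' x, q s x 0 ω :=
    fun ω s => rfl
  have hrow : ∀ ω s, ENNReal.ofReal (Zt t s).im * ∑' y, q s 0 y ω
      = ENNReal.ofReal (Zt t s).im * ‖Rv (H ω) (Zt t s) (ww e B F β ω)‖ₑ ^ 2 := by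
    intro ω s
    rw [← M.tsum_QQ_row F β ω (Zt_im_pos ht s)]
  have hqcov : ∀ s a x y, ∀ᵐ ω ∂(PP Λ c), q s x y (fun j => ω (j + a)) = q s (x + a) (y + a) ω := by
    intro s a x y
    filter_upwards [M.QQ_cov hcov hBc F β (Zt_im_pos ht s) a x y] with ω hω
    simp only [hq]
    rw [hω]
  have hmeasyy := M.measurable_yy hBm hβ ht (F := F)
  clear_value q
  have h1 : ∀ s, ∫⁻ ω, yy e H B F β t (ω, s) ∂(PP Λ c)
      = ∫⁻ ω, ENNReal.ofReal (Zt t s).im * ∑' y, q s 0 y ω ∂(PP Λ c) := by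
    intro s
    simp_rw [hyy]
    rw [lintegral_const_mul _ (Measurable.ennreal_tsum fun x => hQs s x 0),
      lintegral_const_mul _ (Measurable.ennreal_tsum fun y => hQs s 0 y),
      lintegral_tsum (fun x => (hQs s x 0).aemeasurable),
      lintegral_tsum (fun y => (hQs s 0 y).aemeasurable)]
    congr 1
    exact mt_kernel M.hc (fun x y => hQs s x y) (hqcov s)
  have hR : Measurable fun p : (Λ → ℝ) × ℝ => ENNReal.ofReal (Zt t p.2).im
      * ∑' y, q p.2 0 y p.1 :=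
    (measurable_Zt_im measurable_snd).mul (Measurable.ennreal_tsum fun y => hQ 0 y)
  have h2 : ∫⁻ p, yy e H B F β t p ∂((PP Λ c).prod kap)
      = ∫⁻ s, ∫⁻ ω, yy e H B F β t (ω, s) ∂(PP Λ c) ∂kap :=
    lintegral_prod_symm _ hmeasyy.aemeasurable
  have h3 : ∫⁻ s, ∫⁻ ω, ENNReal.ofReal (Zt t s).im * ∑' y, q s 0 y ω ∂(PP Λ c) ∂kap
      = ∫⁻ ω, ∫⁻ s, ENNReal.ofReal (Zt t s).im * ∑' y, q s 0 y ω ∂kap ∂(PP Λ c) := by
    have h4 := lintegral_prod_symm (μ := PP Λ c) (ν := kap) _ hR.aemeasurable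
    have h5 := lintegral_prod (μ := PP Λ c) (ν := kap) _ hR.aemeasurable
    exact h4.symm.trans h5
  rw [h2, lintegral_congr h1, h3]
  refine le_trans (lintegral_mono fun ω => ?_) (M.lintegral_ww hBm hBc hβ hF)
  refine le_trans (le_of_eq ?_) (lintegral_Rv_le (M.sa ω) ht (ww e B F β ω))
  exact lintegral_congr fun s => hrow ω s

end Pool.Agent.Lib.MP_562b47_mp
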