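import Mathlib
import Pool.Agent.Lib.MP_562b47_mp.Comm2

/-!
A covariant operator changes little in the direction of the resolvent when one coordinate of the
potential is changed: conclusion.  (Anderson model, MP_562b47_mp.)
-/

open MeasureTheory Set Filter Topology Complex
open scoped Real ENNReal NNReal InnerProductSpace

set_option linter.unusedSectionVars false

namespace Pool.Agent.Lib.MP_562b47_mp

variable {Λ : Type*} [DecidableEq Λ] [AddCommGroup Λ] [Countable Λ] {E : Type*}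
  [NormedAddCommGroup E] [InnerProductSpace ℂ E] [CompleteSpace E] {c : ℝ} {e : Λ → E}
  {H : (Λ → ℝ) → (E →L[ℂ] E)} {B : (Λ → ℝ) → (E →L[ℂ] E)}

/-! ### The resampled potential -/

/-- the measure on (potential, new value at `0`, energy) -/
noncomputable def M3 (Λ : Type*) (c : ℝ) : Measure (((Λ → ℝ) × ℝ) × ℝ) :=
  ((PP Λ c).prod (unif c)).prod kap

theorem M3_prob (Λ : Type*) {c : ℝ} (hc : 0 < c) : IsProbabilityMeasure (M3 Λ c) := by
  have := PP_prob Λ hc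
  have := unif_prob hc
  unfold M3; infer_instance

/-- the resampled potential -/
def up (q : ((Λ → ℝ) × ℝ) × ℝ) : Λ → ℝ := Function.update q.1.1 0 q.1.2

theorem measurable_up : Measurable (up : ((Λ → ℝ) × ℝ) × ℝ → Λ → ℝ) :=
  (measurable_upd (0 : Λ)).comp measurable_fst

theorem mp_new {c : ℝ} (hc : 0 < c) :
    MeasurePreserving (fun q : ((Λ → ℝ) × ℝ) × ℝ => (up q, q.2)) (M3 Λ c) ((PP Λ c).prod kap) := by
  have := PP_prob Λ hc
  have := unif_prob hc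
  have h := (measurePreserving_upd (Λ := Λ) (unif c) 0).prod (MeasurePreserving.id kap)
  exact h

theorem mp_old {c : ℝ} (hc : 0 < c) :
    MeasurePreserving (fun q : ((Λ → ℝ) × ℝ) × ℝ => (q.1.1, q.2)) (M3 Λ c)
      ((PP Λ c).prod kap) := by
  have := PP_prob Λ hc
  have := unif_prob hc
  have h : MeasurePreserving (Prod.fst : (Λ → ℝ) × ℝ → Λ → ℝ) ((PP Λ c).prod (unif c)) (PP Λ c) :=
    measurePreserving_fst
  exact h.prod (MeasurePreserving.id kap)

theorem mp_snd {c : ℝ} (hc : 0 < c) :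
    MeasurePreserving (fun q : ((Λ → ℝ) × ℝ) × ℝ => q.2) (M3 Λ c) kap := by
  have := PP_prob Λ hc
  have := unif_prob hc
  exact measurePreserving_snd

/-! ### Tightness -/

theorem Model.norm_inv_le (M : Model c e H) (ω : Λ → ℝ) {z : ℂ} (hz : 0 < z.im) (y : Λ) (s : ℝ) :
    ‖(1 + (s : ℂ) * Gr e H ω z y y)⁻¹‖ ≤ ‖Gr e H ω z y y‖ / (Gr e H ω z y y).im := by
  set F := Gr e H ω z y y with hF
  have h1 := M.im_Gr_pos ω hz y
  rw [← hF] at h1
  have h2 : ((1 + (s : ℂ) * F) * (starRingEnd ℂ) F).im = -F.im := by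
    simp [Complex.mul_im, Complex.add_re, Complex.add_im]
    ring
  have h3 : F.im ≤ ‖1 + (s : ℂ) * F‖ * ‖F‖ := by
    have h4 := Complex.abs_im_le_norm ((1 + (s : ℂ) * F) * (starRingEnd ℂ) F)
    rw [h2, abs_neg, abs_of_pos h1, norm_mul, Complex.norm_conj] at h4
    exact h4
  have h4 := M.one_add_ne ω hz y s
  rw [← hF] at h4
  have h5 : 0 < ‖1 + (s : ℂ) * F‖ := norm_pos_iff.mpr h4
  rw [norm_inv, le_div_iff₀ h1, inv_mul_le_iff₀ h5]
  exact h3

theorem Model.lintegral_inv_le (M : Model c e H) (ω : Λ → ℝ) {z : ℂ} (hz : 0 < z.im) (y : Λ) :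
    ∫⁻ v, ‖(1 + ((clp c v - clp c (ω y) : ℝ) : ℂ) * Gr e H ω z y y)⁻¹‖ₑ ^ (1/2 : ℝ) ∂(unif c)
      ≤ ENNReal.ofReal 8 := by
  have := unif_prob M.hc
  set F := Gr e H ω z y y with hF
  set a : ℂ := 1 - (clp c (ω y) : ℝ) * F with ha
  have hcont : Continuous fun v : ℝ => ‖(1 + ((clp c v - clp c (ω y) : ℝ) : ℂ) * F)⁻¹‖ := by
    refine Continuous.norm (Continuous.inv₀ ?_ fun v => M.one_add_ne ω hz y _)
    have := continuous_clp c
    fun_prop
  have hint : Integrable (fun v => ‖(1 + ((clp c v - clp c (ω y) : ℝ) : ℂ) * F)⁻¹‖ ^ (1/2 : ℝ))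
      (unif c) := by
    refine Integrable.of_bound (C := (‖F‖ / F.im) ^ (1/2 : ℝ))
      (hcont.rpow_const fun _ => Or.inr (by norm_num)).aestronglyMeasurable
      (ae_of_all _ fun v => ?_)
    rw [Real.norm_of_nonneg (by positivity)]
    exact Real.rpow_le_rpow (norm_nonneg _) (M.norm_inv_le ω hz y _) (by norm_num)
  have h1 : ∫⁻ v, ‖(1 + ((clp c v - clp c (ω y) : ℝ) : ℂ) * F)⁻¹‖ₑ ^ (1/2 : ℝ) ∂(unif c)
      = ENNReal.ofReal (∫ v, ‖(1 + ((clp c v - clp c (ω y) : ℝ) : ℂ) * F)⁻¹‖ ^ (1/2 : ℝ)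
        ∂(unif c)) := by
    rw [ofReal_integral_eq_lintegral_ofReal hint (ae_of_all _ fun v => by positivity)]
    refine lintegral_congr fun v => ?_
    rw [← ENNReal.ofReal_rpow_of_nonneg (norm_nonneg _) (by norm_num), ofReal_norm]
  rw [h1]
  refine ENNReal.ofReal_le_ofReal ?_
  have hne : ∀ v ∈ Icc (-c) c, a + F * (v : ℂ) ≠ 0 := by
    intro v hv
    have h2 := M.one_add_ne ω hz y (clp c v - clp c (ω y))
    rw [← hF, clp_of_mem hv] at h2
    rw [ha]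
    convert h2 using 1
    push_cast; ring
  have h2 : ∫ v, ‖(1 + ((clp c v - clp c (ω y) : ℝ) : ℂ) * F)⁻¹‖ ^ (1/2 : ℝ) ∂(unif c)
      = ∫ v, ‖(1:ℂ) / (a + F * (v : ℂ))‖ ^ (1/2 : ℝ) ∂(unif c) := by
    refine integral_congr_ae ?_
    filter_upwards [ae_unif c] with v hv
    rw [clp_of_mem hv, one_div, ha]
    congr 4
    push_cast; ring
  rw [h2]
  refine (frac_unif M.hc 1 a F hne).trans ?_
  have h3 : 1 ≤ max ‖a + F * c‖ ‖a - F * c‖ := by
    have h4 := affine_le_max M.hc a F (clp_mem M.hc (ω y))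
    have h5 : a + F * ((clp c (ω y) : ℝ) : ℂ) = 1 := by rw [ha]; ring
    rw [h5, norm_one] at h4
    exact h4
  rw [norm_one]
  have h4 : 1 / max ‖a + F * c‖ ‖a - F * c‖ ≤ 1 := by
    rw [div_le_one (by linarith)]; exact h3
  have h5 := Real.rpow_le_rpow (by positivity) h4 (by norm_num : (0:ℝ) ≤ 1/2)
  rw [Real.one_rpow] at h5
  linarith

/-- `1 / (1 + s₀ G(0,0))` -/
noncomputable def ai (c : ℝ) (e : Λ → E) (H : (Λ → ℝ) → (E →L[ℂ] E)) (k : ℕ)
    (q : ((Λ → ℝ) × ℝ) × ℝ) : ℂ :=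
  (1 + ((clp c q.1.2 - clp c (q.1.1 0) : ℝ) : ℂ) * Gr e H q.1.1 (Zt (tk k) q.2) 0 0)⁻¹

theorem measurable_clp (c : ℝ) : Measurable (clp c) := (continuous_clp c).measurable

theorem Model.measurable_one_add (M : Model c e H) (k : ℕ) : Measurable
    fun q : ((Λ → ℝ) × ℝ) × ℝ => 1 + ((clp c q.1.2 - clp c (q.1.1 0) : ℝ) : ℂ)
      * Gr e H q.1.1 (Zt (tk k) q.2) 0 0 := by
  have h1 : Measurable fun q : ((Λ → ℝ) × ℝ) × ℝ => Gr e H q.1.1 (Zt (tk k) q.2) 0 0 :=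
    M.measurable_Gr (measurable_fst.comp measurable_fst) (tk_pos k) measurable_snd 0 0
  have h2 : Measurable fun q : ((Λ → ℝ) × ℝ) × ℝ => (clp c q.1.2 - clp c (q.1.1 0) : ℝ) :=
    ((measurable_clp c).comp (measurable_snd.comp measurable_fst)).sub
      ((measurable_clp c).comp ((measurable_pi_apply 0).comp (measurable_fst.comp measurable_fst)))
  exact ((Complex.measurable_ofReal.comp h2).mul h1).const_add 1

theorem Model.measurable_ai (M : Model c e H) (k : ℕ) : Measurable (ai c e H k) :=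
  (M.measurable_one_add k).inv

theorem Model.tght_ai (M : Model c e H) :
    Tght (M3 Λ c) (fun k q => ‖ai c e H k q‖ₑ ^ 2) := by
  have := PP_prob Λ M.hc
  have := unif_prob M.hc
  refine Tght.of_moment (r := 1/4) (by norm_num) (by norm_num) (C := ENNReal.ofReal 8)
    ENNReal.ofReal_ne_top fun k => ?_
  have h1 : ∀ q, (‖ai c e H k q‖ₑ ^ 2) ^ (1/4 : ℝ) = ‖ai c e H k q‖ₑ ^ (1/2 : ℝ) := by
    intro q
    rw [← ENNReal.rpow_natCast, ← ENNReal.rpow_mul]; norm_num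
  simp_rw [h1]
  have hm : Measurable fun q => ‖ai c e H k q‖ₑ ^ (1/2 : ℝ) :=
    ((M.measurable_ai k).enorm).pow_const _
  have hms : ∀ s, Measurable fun p : (Λ → ℝ) × ℝ => ‖ai c e H k (p, s)‖ₑ ^ (1/2 : ℝ) := fun s =>
    hm.comp (measurable_id.prodMk measurable_const)
  unfold M3
  rw [lintegral_prod_symm _ hm.aemeasurable]
  calc ∫⁻ s, ∫⁻ p, ‖ai c e H k (p, s)‖ₑ ^ (1/2 : ℝ) ∂((PP Λ c).prod (unif c)) ∂kap
      ≤ ∫⁻ _s, ENNReal.ofReal 8 ∂kap := by
        refine lintegral_mono fun s => ?_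
        simp only
        rw [lintegral_prod _ (hms s).aemeasurable]
        calc ∫⁻ ω, ∫⁻ v, ‖ai c e H k ((ω, v), s)‖ₑ ^ (1/2 : ℝ) ∂(unif c) ∂(PP Λ c)
            ≤ ∫⁻ _ω, ENNReal.ofReal 8 ∂(PP Λ c) := lintegral_mono fun ω =>
              M.lintegral_inv_le ω (Zt_im_pos (tk_pos k) s) 0
          _ = _ := by simp
    _ = _ := by simp

theorem Model.tght_Gr (M : Model c e H) (x y : Λ) :
    Tght ((PP Λ c).prod kap) (fun k p => ‖Gr e H p.1 (Zt (tk k) p.2) x y‖ₑ) := by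
  have := PP_prob Λ M.hc
  refine Tght.of_moment (r := 1/4) (by norm_num) (by norm_num)
    (C := ENNReal.ofReal ((1 / (2 * 1)) * (1 + Kc c / 4 / 1 ^ 7 * ∑' n, psi c e H x y n)
        + (1 / 2) * (1 + 8 * (1 / c) ^ (1/2 : ℝ))))
    ENNReal.ofReal_ne_top fun k => ?_
  have h1 : ∫⁻ p : (Λ → ℝ) × ℝ, ‖Gr e H p.1 (Zt (tk k) p.2) x y‖ₑ ^ (1/4 : ℝ) ∂((PP Λ c).prod kap)
      = ENNReal.ofReal (∫ p : (Λ → ℝ) × ℝ, ‖Gr e H p.1 (Zt (tk k) p.2) x y‖ ^ (1/4 : ℝ)
        ∂((PP Λ c).prod kap)) := by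
    rw [ofReal_integral_eq_lintegral_ofReal (M.integrable_Gr_quarter x y (tk_pos k) (tk_le k))
      (ae_of_all _ fun v => by positivity)]
    refine lintegral_congr fun v => ?_
    rw [← ENNReal.ofReal_rpow_of_nonneg (norm_nonneg _) (by norm_num), ofReal_norm]
  rw [h1]
  exact ENNReal.ofReal_le_ofReal
    (M.integral_quarter_le x y (tk_pos k) (tk_le k) (l := 1) (δ := 1) one_pos one_pos)

theorem null_im : Null kap (fun k s => ENNReal.ofReal (Zt (tk k) s).im) := by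
  unfold Null
  have h1 : Tendsto (fun k => ∫⁻ s, min 1 (ENNReal.ofReal (Zt (tk k) s).im) ∂kap) atTop
      (𝓝 (∫⁻ _s, 0 ∂kap)) := by
    refine tendsto_lintegral_of_dominated_convergence (fun _ => 1)
      (fun k => measurable_const.min (measurable_Zt_im measurable_id))
      (fun k => ae_of_all _ fun s => min_le_left _ _) (by simp) (ae_of_all _ fun s => ?_)
    have h2 : Tendsto (fun k => (Zt (tk k) s).im) atTop (𝓝 0) := (tendsto_Zt_im s).comp tendsto_tk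
    have h3 : Tendsto (fun k => ENNReal.ofReal (Zt (tk k) s).im) atTop (𝓝 (ENNReal.ofReal 0)) :=
      ENNReal.tendsto_ofReal h2
    rw [ENNReal.ofReal_zero] at h3
    have h4 : Tendsto (fun k => min 1 (ENNReal.ofReal (Zt (tk k) s).im)) atTop (𝓝 (min 1 0)) :=
      tendsto_const_nhds.min h3
    simpa using h4
  rwa [lintegral_zero] at h1

/-! ### The pointwise estimate -/

theorem sq_three (u v w : ℝ≥0∞) : (u + v + w) ^ 2 ≤ 3 * (u ^ 2 + v ^ 2 + w ^ 2) := by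
  by_cases hu : u = ⊤
  · subst hu; simp
  by_cases hv : v = ⊤
  · subst hv; simp
  by_cases hw : w = ⊤
  · subst hw; simp
  lift u to ℝ≥0 using hu
  lift v to ℝ≥0 using hv
  lift w to ℝ≥0 using hw
  norm_cast
  rw [← NNReal.coe_le_coe]
  push_cast
  nlinarith [sq_nonneg ((u:ℝ) - v), sq_nonneg ((v:ℝ) - w), sq_nonneg ((u:ℝ) - w)]

theorem tsum_sq_le (f : Λ → ℝ≥0∞) : ∑' x, f x ^ 2 ≤ (∑' x, f x) ^ 2 := by
  calc ∑' x, f x ^ 2 ≤ ∑' x, f x * ∑' y, f y := by
        refine ENNReal.tsum_le_tsum fun x => ?_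
        rw [sq]
        gcongr
        exact ENNReal.le_tsum x
    _ = _ := by rw [ENNReal.tsum_mul_right, sq]

/-- sum of the Green functions near the origin -/
noncomputable def SSg (e : Λ → E) (H : (Λ → ℝ) → (E →L[ℂ] E)) (J : Finset Λ) (k : ℕ)
    (p : (Λ → ℝ) × ℝ) : ℝ≥0∞ := ∑ j ∈ J, ‖Gr e H p.1 (Zt (tk k) p.2) (-j) 0‖ₑ

theorem Model.measurable_SSg (M : Model c e H) (J : Finset Λ) (k : ℕ) :
    Measurable (SSg e H J k) := by
  unfold SSg
  refine Finset.measurable_fun_sum _ fun j _ => ?_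
  exact (M.measurable_Gr measurable_fst (tk_pos k) measurable_snd (-j) 0).enorm

theorem Model.tght_SSg (M : Model c e H) (J : Finset Λ) :
    Tght ((PP Λ c).prod kap) (fun k p => SSg e H J k p) := by
  have := PP_prob Λ M.hc
  induction J using Finset.induction_on with
  | empty =>
    have h := Tght.const (μ := (PP Λ c).prod kap) (g := fun _ => (0:ℝ≥0∞)) measurable_const (by simp)
    refine h.mono fun k => ae_of_all _ fun p => ?_
    unfold SSg; simp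
  | insert j J hj ih =>
    have h1 := (M.tght_Gr (-j) 0).add ih (M.measurable_SSg J)
    refine h1.mono fun k => ae_of_all _ fun p => ?_
    unfold SSg
    rw [Finset.sum_insert hj]

theorem Model.XX_le (M : Model c e H) {F J : Finset Λ} {β : Λ → (Λ → ℝ) → ℂ} {C : ℝ}
    (hC : ∀ k ω, ‖β k ω‖ ≤ C)
    (hJ : ∀ k ω ω', (∀ j ∈ J, ω j = ω' j) → β k ω = β k ω') (k : ℕ)
    (q : ((Λ → ℝ) × ℝ) × ℝ) :
    ENNReal.ofReal (Zt (tk k) q.2).im
        * ‖(B (up q) - B q.1.1) (Rv (H (up q)) (Zt (tk k) q.2) (e 0))‖ₑ ^ 2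
      ≤ 3 * yy e H B F β (tk k) (up q, q.2)
        + 3 * yy e H B F β (tk k) (q.1.1, q.2) * ‖ai c e H k q‖ₑ ^ 2
        + ENNReal.ofReal (Zt (tk k) q.2).im
          * (3 * ((F.card : ℝ≥0∞) * ENNReal.ofReal (2 * C)) ^ 2 * SSg e H J k (up q, q.2) ^ 2) := by
  set z := Zt (tk k) q.2 with hzdef
  have hz : 0 < z.im := Zt_im_pos (tk_pos k) q.2
  set ω := q.1.1 with hω
  set ω' := up q with hω'
  have hω'e : ω' = Function.update ω 0 q.1.2 := rfl
  set a := ai c e H k q with ha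
  have ha' : a = (1 + ((clp c q.1.2 - clp c (ω 0) : ℝ) : ℂ) * Gr e H ω z 0 0)⁻¹ := rfl
  have hne := M.one_add_ne ω hz 0 (clp c q.1.2 - clp c (ω 0))
  have hR : Rv (H ω') z (e 0) = a • Rv (H ω) z (e 0) := by
    have h1 := M.Rv_upd ω hz.ne' 0 q.1.2
    rw [← hω'e] at h1
    change (1 + ((clp c q.1.2 - clp c (ω 0) : ℝ) : ℂ) * Gr e H ω z 0 0) • Rv (H ω') z (e 0)
      = Rv (H ω) z (e 0) at h1
    rw [← h1, ha', smul_smul, inv_mul_cancel₀ hne, one_smul]
  have hG : ∀ w, Gr e H ω' z w 0 = a * Gr e H ω z w 0 := by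
    intro w
    unfold Gr
    rw [hR, inner_smul_right]
  set L : Λ → ℂ := fun x => ∑ i ∈ F, (β i (fun j => ω' (j + (x - i)))
    - β i (fun j => ω (j + (x - i)))) * Gr e H ω' z (x - i) 0 with hL
  have h1 : ∀ x, ⟪e x, (B ω' - B ω) (Rv (H ω') z (e 0))⟫_ℂ
      = QQ e H B F β x 0 ω' z - a * QQ e H B F β x 0 ω z + L x := by
    intro x
    unfold QQ
    rw [hL]
    simp only
    rw [mul_sub, Finset.mul_sum]
    have h2 : a * ⟪e x, B ω (Rv (H ω) z (e 0))⟫_ℂ = ⟪e x, B ω (Rv (H ω') z (e 0))⟫_ℂ := by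
      rw [hR, map_smul, inner_smul_right]
    rw [h2]
    have h3 : ∑ i ∈ F, a * (β i (fun j => ω (j + (x - i))) * Gr e H ω z (x - i) 0)
        = ∑ i ∈ F, β i (fun j => ω (j + (x - i))) * Gr e H ω' z (x - i) 0 := by
      refine Finset.sum_congr rfl fun i _ => ?_
      rw [hG]; ring
    rw [h3]
    simp only [sub_mul, Finset.sum_sub_distrib]
    show ⟪e x, B ω' (Rv (H ω') z (e 0)) - B ω (Rv (H ω') z (e 0))⟫_ℂ = _
    rw [inner_sub_right]
    ring
  -- the local part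
  set f : Λ → ℝ≥0∞ := fun y => if -y ∈ J then ENNReal.ofReal (2 * C) * ‖Gr e H ω' z y 0‖ₑ else 0
    with hf
  have hLf : ∀ x, ‖L x‖ₑ ≤ ∑ i ∈ F, f (x - i) := by
    intro x
    rw [hL]
    refine (enorm_sum_le _ _).trans (Finset.sum_le_sum fun i _ => ?_)
    rw [hf]
    simp only
    by_cases hy : -(x - i) ∈ J
    · rw [if_pos hy, enorm_mul]
      gcongr
      rw [← ofReal_norm]
      refine ENNReal.ofReal_le_ofReal ((norm_sub_le _ _).trans ?_)
      linarith [hC i (fun j => ω' (j + (x - i))), hC i (fun j => ω (j + (x - i)))]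
    · rw [if_neg hy]
      have : β i (fun j => ω' (j + (x - i))) = β i (fun j => ω (j + (x - i))) := by
        refine hJ i _ _ fun j hj => ?_
        rw [hω'e, Function.update_of_ne]
        intro h0
        apply hy
        have : j = -(x - i) := eq_neg_of_add_eq_zero_left h0
        rwa [← this]
      rw [this, sub_self, zero_mul, enorm_zero]
  have hsum : ∑' x, ‖L x‖ₑ ≤ (F.card : ℝ≥0∞) * ENNReal.ofReal (2 * C) * SSg e H J k (ω', q.2) := by
    calc ∑' x, ‖L x‖ₑ ≤ ∑' x, ∑ i ∈ F, f (x - i) := ENNReal.tsum_le_tsum hLf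
      _ = ∑ i ∈ F, ∑' x, f (x - i) := Summable.tsum_finsetSum fun i _ => ENNReal.summable
      _ = ∑ i ∈ F, ∑' y, f y := by
          refine Finset.sum_congr rfl fun i _ => ?_
          exact (Equiv.subRight i).tsum_eq f
      _ = (F.card : ℝ≥0∞) * ∑' y, f y := by rw [Finset.sum_const, nsmul_eq_mul]
      _ = _ := by
          rw [mul_assoc]
          congr 1
          rw [← (Equiv.neg Λ).tsum_eq]
          unfold SSg
          rw [Finset.mul_sum, tsum_eq_sum (s := J)]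
          · refine Finset.sum_congr rfl fun j hj => ?_
            rw [hf]
            simp only [Equiv.neg_apply, neg_neg]
            rw [if_pos hj]
          · intro j hj
            rw [hf]
            simp only [Equiv.neg_apply, neg_neg]
            rw [if_neg hj]
  have hsum2 : ∑' x, ‖L x‖ₑ ^ 2
      ≤ ((F.card : ℝ≥0∞) * ENNReal.ofReal (2 * C)) ^ 2 * SSg e H J k (ω', q.2) ^ 2 := by
    refine (tsum_sq_le _).trans ?_
    rw [← mul_pow]
    gcongr
  rw [M.parseval_enorm]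
  have h2 : ∀ x, ‖⟪e x, (B ω' - B ω) (Rv (H ω') z (e 0))⟫_ℂ‖ₑ ^ 2
      ≤ 3 * (‖QQ e H B F β x 0 ω' z‖ₑ ^ 2 + ‖a‖ₑ ^ 2 * ‖QQ e H B F β x 0 ω z‖ₑ ^ 2
        + ‖L x‖ₑ ^ 2) := by
    intro x
    rw [h1]
    refine le_trans ?_ (le_trans (sq_three ‖QQ e H B F β x 0 ω' z‖ₑ
      (‖a‖ₑ * ‖QQ e H B F β x 0 ω z‖ₑ) ‖L x‖ₑ) (le_of_eq (by rw [mul_pow])))
    refine pow_le_pow_left' ?_ 2
    refine (enorm_add_le _ _).trans ?_
    gcongr
    refine enorm_sub_le.trans ?_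
    rw [enorm_mul]
  calc ENNReal.ofReal z.im * ∑' x, ‖⟪e x, (B ω' - B ω) (Rv (H ω') z (e 0))⟫_ℂ‖ₑ ^ 2
      ≤ ENNReal.ofReal z.im * ∑' x, 3 * (‖QQ e H B F β x 0 ω' z‖ₑ ^ 2
        + ‖a‖ₑ ^ 2 * ‖QQ e H B F β x 0 ω z‖ₑ ^ 2 + ‖L x‖ₑ ^ 2) := by
        gcongr with x
        exact h2 x
    _ = 3 * (ENNReal.ofReal z.im * ∑' x, ‖QQ e H B F β x 0 ω' z‖ₑ ^ 2)
        + 3 * (ENNReal.ofReal z.im * ∑' x, ‖QQ e H B F β x 0 ω z‖ₑ ^ 2) * ‖a‖ₑ ^ 2
        + ENNReal.ofReal z.im * (3 * ∑' x, ‖L x‖ₑ ^ 2) := by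
        rw [ENNReal.tsum_mul_left, ENNReal.tsum_add, ENNReal.tsum_add, ENNReal.tsum_mul_left]
        ring
    _ ≤ _ := by
        unfold yy
        refine add_le_add le_rfl (mul_le_mul' le_rfl ?_)
        rw [mul_assoc]
        exact mul_le_mul' le_rfl hsum2

theorem exists_ofReal_le {θ : ℝ≥0∞} (h : 0 < θ) : ∃ ε : ℝ, 0 < ε ∧ ENNReal.ofReal ε ≤ θ := by
  by_cases ht : θ = ⊤
  · exact ⟨1, one_pos, by rw [ht]; exact le_top⟩
  · exact ⟨θ.toReal, ENNReal.toReal_pos h.ne' ht, by rw [ENNReal.ofReal_toReal ht]⟩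

/-- **The change of a covariant operator is small in the direction of the resolvent.** -/
theorem Model.null_XX (M : Model c e H) (hcov : ShiftCov e H)
    (hBm : ∀ x y, Measurable fun ω => ⟪e x, B ω (e y)⟫_ℂ)
    (hBc : ∀ a x y, ∀ᵐ ω ∂(PP Λ c), ⟪e x, B (fun j => ω (j + a)) (e y)⟫_ℂ
        = ⟪e (x + a), B ω (e (y + a))⟫_ℂ) (hBl : LocApprox c e B) :
    Null (M3 Λ c) (fun k q => ENNReal.ofReal (Zt (tk k) q.2).im
        * ‖(B (up q) - B q.1.1) (Rv (H (up q)) (Zt (tk k) q.2) (e 0))‖ₑ ^ 2) := by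
  have := M3_prob Λ M.hc
  unfold Null
  rw [ENNReal.tendsto_atTop_zero]
  intro η hη
  have hη4 : 0 < η / 4 := ENNReal.div_pos hη.ne' (by norm_num)
  obtain ⟨δ, hδ0, hδ1, hδ⟩ := M.tght_ai (η / 4) hη4
  have hδinv : δ⁻¹ ≠ ⊤ := ENNReal.inv_ne_top.mpr hδ0.ne'
  -- choice of `ε`
  have hθ : 0 < η / 4 / (3 * δ⁻¹) := ENNReal.div_pos hη4.ne' (ENNReal.mul_ne_top (by norm_num) hδinv)
  obtain ⟨ε, hε0, hεle⟩ := exists_ofReal_le hθ
  have h3ε : 3 * δ⁻¹ * ENNReal.ofReal ε ≤ η / 4 := by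
    rw [mul_comm]
    exact (ENNReal.le_div_iff_mul_le (Or.inl (by simp [hδ1.trans_lt ENNReal.one_lt_top |>.ne]))
      (Or.inl (ENNReal.mul_ne_top (by norm_num) hδinv))).mp hεle
  have h3ε' : 3 * ENNReal.ofReal ε ≤ η / 4 := by
    refine le_trans ?_ h3ε
    have : 1 ≤ δ⁻¹ := ENNReal.one_le_inv.mpr hδ1
    calc 3 * ENNReal.ofReal ε = 3 * 1 * ENNReal.ofReal ε := by rw [mul_one]
      _ ≤ _ := by gcongr
  obtain ⟨F, J, β, C, hβm, hβC, hβF, hβJ, hβε⟩ := hBl ε hε0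
  have hyle : ∀ k, ∫⁻ p, yy e H B F β (tk k) p ∂((PP Λ c).prod kap) ≤ ENNReal.ofReal ε := fun k =>
    (M.lintegral_yy hcov hBm hBc hβm hβF (tk_pos k)).trans hβε
  have hym : ∀ k, Measurable (yy e H B F β (tk k)) := fun k => M.measurable_yy hBm hβm (tk_pos k)
  -- the three terms
  set A1 : ℕ → (((Λ → ℝ) × ℝ) × ℝ) → ℝ≥0∞ := fun k q => 3 * yy e H B F β (tk k) (up q, q.2) with hA1
  set A2 : ℕ → (((Λ → ℝ) × ℝ) × ℝ) → ℝ≥0∞ := fun k q => 3 * yy e H B F β (tk k) (q.1.1, q.2)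
    with hA2
  set A3 : ℕ → (((Λ → ℝ) × ℝ) × ℝ) → ℝ≥0∞ := fun k q => ENNReal.ofReal (Zt (tk k) q.2).im
    * (3 * ((F.card : ℝ≥0∞) * ENNReal.ofReal (2 * C)) ^ 2 * SSg e H J k (up q, q.2) ^ 2) with hA3
  have hA1m : ∀ k, Measurable (A1 k) := fun k =>
    ((hym k).comp (measurable_up.prodMk measurable_snd)).const_mul _
  have hA2m : ∀ k, Measurable (A2 k) := fun k =>
    ((hym k).comp ((measurable_fst.comp measurable_fst).prodMk measurable_snd)).const_mul _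
  have hSm : ∀ k, Measurable fun q : ((Λ → ℝ) × ℝ) × ℝ => SSg e H J k (up q, q.2) := fun k =>
    (M.measurable_SSg J k).comp (measurable_up.prodMk measurable_snd)
  have haim : ∀ k, Measurable fun q => ‖ai c e H k q‖ₑ ^ 2 := fun k =>
    ((M.measurable_ai k).enorm).pow_const 2
  have hA1i : ∀ k, ∫⁻ q, A1 k q ∂(M3 Λ c) ≤ 3 * ENNReal.ofReal ε := by
    intro k
    rw [hA1]
    simp only
    rw [lintegral_const_mul' _ _ (by norm_num)]
    gcongr
    rw [(mp_new M.hc).lintegral_comp (hym k)]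
    exact hyle k
  have hA2i : ∀ k, ∫⁻ q, A2 k q ∂(M3 Λ c) ≤ 3 * ENNReal.ofReal ε := by
    intro k
    rw [hA2]
    simp only
    rw [lintegral_const_mul' _ _ (by norm_num)]
    gcongr
    rw [(mp_old M.hc).lintegral_comp (hym k)]
    exact hyle k
  have hSt : Tght (M3 Λ c) (fun k q => SSg e H J k (up q, q.2)) :=
    (M.tght_SSg J).comp (mp_new M.hc) (M.measurable_SSg J)
  have hA3n : Null (M3 Λ c) A3 := by
    have h1 : Null (M3 Λ c) (fun k q => ENNReal.ofReal (Zt (tk k) q.2).im) :=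
      null_im.comp (mp_snd M.hc) (fun k => measurable_Zt_im measurable_id)
    have h2 : Tght (M3 Λ c) (fun k q => 3 * ((F.card : ℝ≥0∞) * ENNReal.ofReal (2 * C)) ^ 2
        * SSg e H J k (up q, q.2) ^ 2) := by
      have h3 := Tght.const (μ := M3 Λ c)
        (g := fun _ => 3 * ((F.card : ℝ≥0∞) * ENNReal.ofReal (2 * C)) ^ 2) measurable_const
        (ae_of_all _ fun _ => ENNReal.mul_ne_top (by norm_num) (ENNReal.pow_ne_top
          (ENNReal.mul_ne_top (ENNReal.natCast_ne_top _) ENNReal.ofReal_ne_top)))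
      have h4 := hSt.mul hSt hSm
      have h5 := h3.mul h4 (fun k => (hSm k).mul (hSm k))
      refine h5.mono fun k => ae_of_all _ fun q => ?_
      rw [sq (SSg e H J k (up q, q.2))]
    exact h1.mul_tght h2 (fun k => ((hSm k).pow_const 2).const_mul _)
  unfold Null at hA3n
  rw [ENNReal.tendsto_atTop_zero] at hA3n
  obtain ⟨N, hN⟩ := hA3n (η / 4) hη4
  refine ⟨N, fun k hk => ?_⟩
  have hA3m : Measurable (A3 k) :=
    (measurable_Zt_im measurable_snd).mul (((hSm k).pow_const 2).const_mul _)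
  calc ∫⁻ q, min 1 (ENNReal.ofReal (Zt (tk k) q.2).im
        * ‖(B (up q) - B q.1.1) (Rv (H (up q)) (Zt (tk k) q.2) (e 0))‖ₑ ^ 2) ∂(M3 Λ c)
      ≤ ∫⁻ q, (A1 k q + (δ⁻¹ * A2 k q + min 1 (δ * ‖ai c e H k q‖ₑ ^ 2)) + min 1 (A3 k q))
          ∂(M3 Λ c) := by
        refine lintegral_mono fun q => ?_
        refine (min_le_min_left 1 (M.XX_le (B := B) (F := F) hβC hβJ k q)).trans ?_
        refine (min_one_add_le_enn _ _).trans ?_
        gcongr
        refine (min_one_add_le_enn _ _).trans ?_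
        refine add_le_add (min_le_right _ _) ?_
        refine (min_one_mul_le_enn _ _ hδ0 hδ1).trans ?_
        gcongr
        exact min_le_right _ _
    _ = ∫⁻ q, A1 k q ∂(M3 Λ c) + (δ⁻¹ * ∫⁻ q, A2 k q ∂(M3 Λ c)
          + ∫⁻ q, min 1 (δ * ‖ai c e H k q‖ₑ ^ 2) ∂(M3 Λ c)) + ∫⁻ q, min 1 (A3 k q) ∂(M3 Λ c) := by
        rw [lintegral_add_right _ (measurable_const.min hA3m), lintegral_add_left (hA1m k),
          lintegral_add_left ((hA2m k).const_mul _), lintegral_const_mul' _ _ hδinv]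
    _ ≤ η / 4 + (η / 4 + η / 4) + η / 4 := by
        gcongr
        · exact (hA1i k).trans h3ε'
        · calc δ⁻¹ * ∫⁻ q, A2 k q ∂(M3 Λ c) ≤ δ⁻¹ * (3 * ENNReal.ofReal ε) := by
                gcongr; exact hA2i k
            _ = 3 * δ⁻¹ * ENNReal.ofReal ε := by ring
            _ ≤ η / 4 := h3ε
        · exact hδ k
        · exact hN k hk
    _ = η := by
        have h4 : η / 4 + (η / 4 + η / 4) + η / 4 = 4 * (η / 4) := by ring
        rw [h4]
        exact ENNReal.mul_div_cancel (by norm_num) (by norm_num)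

end Pool.Agent.Lib.MP_562b47_mp
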