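import Mathlib
import Pool.Agent.Lib.MP_562b47_mp.Comm3
import Pool.Agent.Lib.MP_562b47_mp.SpecAvg

/-!
There is no antisymmetric covariant operator which commutes with the Anderson operator.
(Anderson model, MP_562b47_mp.)
-/

open MeasureTheory Set Filter Topology Complex
open scoped Real ENNReal NNReal InnerProductSpace

set_option linter.unusedSectionVars false

namespace Pool.Agent.Lib.MP_562b47_mp

variable {Λ : Type*} [DecidableEq Λ] [AddCommGroup Λ] [Countable Λ] {E : Type*}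
  [NormedAddCommGroup E] [InnerProductSpace ℂ E] [CompleteSpace E] {c : ℝ} {e : Λ → E}
  {H : (Λ → ℝ) → (E →L[ℂ] E)} {B : (Λ → ℝ) → (E →L[ℂ] E)}

/-! ### The conjugate operator -/

theorem inner_neg_adjoint (B : E →L[ℂ] E) (u v : E) :
    ⟪u, (-B.adjoint) v⟫_ℂ = -(starRingEnd ℂ) ⟪v, B u⟫_ℂ := by
  rw [neg_apply, inner_neg_right, ContinuousLinearMap.adjoint_inner_right,
    inner_conj_symm]

theorem bar_meas (hBm : ∀ x y, Measurable fun ω => ⟪e x, B ω (e y)⟫_ℂ) (x y : Λ) :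
    Measurable fun ω => ⟪e x, (-(B ω).adjoint) (e y)⟫_ℂ := by
  simp_rw [inner_neg_adjoint]
  exact (Complex.continuous_conj.measurable.comp (hBm y x)).neg

theorem bar_cov (hBc : ∀ a x y, ∀ᵐ ω ∂(PP Λ c), ⟪e x, B (fun j => ω (j + a)) (e y)⟫_ℂ
        = ⟪e (x + a), B ω (e (y + a))⟫_ℂ) (a x y : Λ) :
    ∀ᵐ ω ∂(PP Λ c), ⟪e x, (-(B (fun j => ω (j + a))).adjoint) (e y)⟫_ℂ
        = ⟪e (x + a), (-(B ω).adjoint) (e (y + a))⟫_ℂ := by
  filter_upwards [hBc a y x] with ω hω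
  rw [inner_neg_adjoint, inner_neg_adjoint, hω]

theorem bar_loc (hBl : LocApprox c e B)
    (hanti : ∀ᵐ ω ∂(PP Λ c), ∀ x y, ⟪e x, B ω (e y)⟫_ℂ = -⟪e y, B ω (e x)⟫_ℂ) :
    LocApprox c e (fun ω => -(B ω).adjoint) := by
  intro ε hε
  obtain ⟨F, J, β, C, h1, h2, h3, h4, h5⟩ := hBl ε hε
  refine ⟨F, J, fun k ω => (starRingEnd ℂ) (β k ω), C,
    fun k => Complex.continuous_conj.measurable.comp (h1 k), fun k ω => ?_, fun k hk ω => ?_,
    fun k ω ω' h => ?_, ?_⟩
  · simp only [Complex.norm_conj]; exact h2 k ω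
  · simp only; rw [h3 k hk ω, map_zero]
  · simp only; rw [h4 k ω ω' h]
  · refine le_of_eq_of_le (lintegral_congr_ae ?_) h5
    filter_upwards [hanti] with ω hω
    refine tsum_congr fun k => ?_
    have e1 : ⟪e k, (-(B ω).adjoint) (e 0)⟫_ℂ - (starRingEnd ℂ) (β k ω)
        = (starRingEnd ℂ) (⟪e k, B ω (e 0)⟫_ℂ - β k ω) := by
      rw [inner_neg_adjoint, hω 0 k]
      simp
    rw [e1]
    congr 1
    rw [← ofReal_norm, ← ofReal_norm, Complex.norm_conj]

/-! ### The conclusion of the perturbation argument -/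

/-- `Im z ‖R(z) B e₀‖²` -/
noncomputable def PB (e : Λ → E) (H B : (Λ → ℝ) → (E →L[ℂ] E)) (k : ℕ) (p : (Λ → ℝ) × ℝ) : ℝ≥0∞ :=
  ENNReal.ofReal (Zt (tk k) p.2).im * ‖Rv (H p.1) (Zt (tk k) p.2) (B p.1 (e 0))‖ₑ ^ 2

theorem Model.measurable_RB (M : Model c e H)
    (hBm : ∀ x y, Measurable fun ω => ⟪e x, B ω (e y)⟫_ℂ) {t : ℝ} (ht : 0 < t) (x y : Λ) :
    Measurable fun p : (Λ → ℝ) × ℝ => ⟪e x, Rv (H p.1) (Zt t p.2) (B p.1 (e y))⟫_ℂ := by
  refine measurable_of_tendsto_metrizable' (atTop : Filter (Finset Λ))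
    (f := fun s p => ∑ w ∈ s, Gr e H p.1 (Zt t p.2) x w * ⟪e w, B p.1 (e y)⟫_ℂ) ?_ ?_
  · intro s
    refine Finset.measurable_fun_sum _ fun w _ => ?_
    exact (M.measurable_Gr measurable_fst ht measurable_snd x w).mul ((hBm w y).comp measurable_fst)
  · rw [tendsto_pi_nhds]
    intro p
    exact M.hasSum_inner (Rv (H p.1) (Zt t p.2)) (e x) (B p.1 (e y))

theorem Model.measurable_PB (M : Model c e H)
    (hBm : ∀ x y, Measurable fun ω => ⟪e x, B ω (e y)⟫_ℂ) (k : ℕ) : Measurable (PB e H B k) := by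
  unfold PB
  refine (measurable_Zt_im measurable_snd).mul ?_
  simp_rw [M.parseval_enorm]
  exact Measurable.tsum fun x => ((M.measurable_RB hBm (tk_pos k) x 0).enorm).pow_const 2

theorem unif_ac (c : ℝ) : unif c ≪ volume := by
  unfold unif
  exact (Measure.absolutelyContinuous_of_le Measure.restrict_le_self).smul_left _

theorem unif_singleton (c a : ℝ) : unif c {a} = 0 :=
  unif_ac c (by simp)

theorem ae_clp_ne (c w : ℝ) : ∀ᵐ v ∂(unif c), clp c v ≠ clp c w := by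
  have h1 : ∀ᵐ v ∂(unif c), v ≠ clp c w := by
    rw [ae_iff]
    simpa using unif_singleton c (clp c w)
  filter_upwards [h1, ae_unif c] with v hv hv2
  rwa [clp_of_mem hv2]

/-- the square of the change of the potential -/
noncomputable def s0sq (c : ℝ) (q : ((Λ → ℝ) × ℝ) × ℝ) : ℝ := (clp c q.1.2 - clp c (q.1.1 0)) ^ 2

theorem measurable_s0sq (c : ℝ) : Measurable (s0sq c : ((Λ → ℝ) × ℝ) × ℝ → ℝ) := by
  have h2 : Measurable fun q : ((Λ → ℝ) × ℝ) × ℝ => (clp c q.1.2 - clp c (q.1.1 0) : ℝ) :=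
    ((measurable_clp c).comp (measurable_snd.comp measurable_fst)).sub
      ((measurable_clp c).comp ((measurable_pi_apply 0).comp (measurable_fst.comp measurable_fst)))
  exact h2.pow_const 2

theorem ae_s0sq (hc : 0 < c) : ∀ᵐ q ∂(M3 Λ c), 0 < s0sq c q := by
  have := PP_prob Λ hc
  have := unif_prob hc
  have h1 : ∀ᵐ p ∂((PP Λ c).prod (unif c)), clp c p.2 ≠ clp c (p.1 0) := by
    rw [Measure.ae_prod_iff_ae_ae]
    · exact ae_of_all _ fun ω => ae_clp_ne c (ω 0)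
    · exact (measurableSet_eq_fun ((measurable_clp c).comp measurable_snd)
        ((measurable_clp c).comp ((measurable_pi_apply 0).comp measurable_fst))).compl
  have h2 : ∀ᵐ q ∂(M3 Λ c), clp c q.1.2 ≠ clp c (q.1.1 0) := by
    unfold M3
    exact (measurePreserving_fst (μ := (PP Λ c).prod (unif c)) (ν := kap)).quasiMeasurePreserving.ae
      h1
  filter_upwards [h2] with q hq
  have h3 := sub_ne_zero.mpr hq
  unfold s0sq
  positivity

/-- the tight factor -/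
noncomputable def TF (c K : ℝ) (e : Λ → E) (H : (Λ → ℝ) → (E →L[ℂ] E)) (k : ℕ)
    (q : ((Λ → ℝ) × ℝ) × ℝ) : ℝ≥0∞ :=
  (ENNReal.ofReal (K ^ 4 / 2) * (ENNReal.ofReal (s0sq c q))⁻¹)
    * ‖1 + ((clp c q.1.2 - clp c (q.1.1 0) : ℝ) : ℂ) * Gr e H q.1.1 (Zt (tk k) q.2) 0 0‖ₑ ^ 4

theorem Model.measurable_TF (M : Model c e H) (K : ℝ) (k : ℕ) : Measurable (TF c K e H k) := by
  unfold TF
  exact (measurable_const.mul (measurable_s0sq c).ennreal_ofReal.inv).mul
    ((M.measurable_one_add k).enorm.pow_const 4)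

theorem Model.tght_TF (M : Model c e H) (K : ℝ) : Tght (M3 Λ c) (TF c K e H) := by
  have := M3_prob Λ M.hc
  have h1 : Tght (M3 Λ c) (fun _ q => ENNReal.ofReal (K ^ 4 / 2)
      * (ENNReal.ofReal (s0sq c q))⁻¹) := by
    refine Tght.const (measurable_const.mul (measurable_s0sq c).ennreal_ofReal.inv) ?_
    filter_upwards [ae_s0sq (Λ := Λ) M.hc] with q hq
    refine ENNReal.mul_ne_top ENNReal.ofReal_ne_top (ENNReal.inv_ne_top.mpr ?_)
    simpa using hq
  have hF : Tght (M3 Λ c) (fun k q => ‖Gr e H q.1.1 (Zt (tk k) q.2) 0 0‖ₑ) :=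
    (M.tght_Gr 0 0).comp (mp_old M.hc) fun k =>
      (M.measurable_Gr measurable_fst (tk_pos k) measurable_snd 0 0).enorm
  have hFm : ∀ k, Measurable fun q : ((Λ → ℝ) × ℝ) × ℝ => ‖Gr e H q.1.1 (Zt (tk k) q.2) 0 0‖ₑ :=
    fun k => (M.measurable_Gr (measurable_fst.comp measurable_fst) (tk_pos k) measurable_snd
      0 0).enorm
  have h2 : Tght (M3 Λ c) (fun k q => 1 + ENNReal.ofReal (2 * c)
      * ‖Gr e H q.1.1 (Zt (tk k) q.2) 0 0‖ₑ) := by
    refine Tght.add (Tght.const (g := fun _ => (1:ℝ≥0∞)) measurable_const (by simp)) ?_ ?_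
    · exact Tght.mul (Tght.const (g := fun _ => ENNReal.ofReal (2 * c)) measurable_const
        (ae_of_all _ fun _ => ENNReal.ofReal_ne_top))
        hF hFm
    · exact fun k => (hFm k).const_mul _
  have h3 : Tght (M3 Λ c) (fun k q => ‖1 + ((clp c q.1.2 - clp c (q.1.1 0) : ℝ) : ℂ)
      * Gr e H q.1.1 (Zt (tk k) q.2) 0 0‖ₑ) := by
    refine h2.mono fun k => ae_of_all _ fun q => ?_
    refine (enorm_add_le _ _).trans ?_
    rw [enorm_one, enorm_mul]
    gcongr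
    rw [← ofReal_norm, Complex.norm_real, Real.norm_eq_abs]
    exact ENNReal.ofReal_le_ofReal (abs_clp_sub M.hc _ _)
  have h3m : ∀ k, Measurable fun q : ((Λ → ℝ) × ℝ) × ℝ =>
      ‖1 + ((clp c q.1.2 - clp c (q.1.1 0) : ℝ) : ℂ) * Gr e H q.1.1 (Zt (tk k) q.2) 0 0‖ₑ :=
    fun k => (M.measurable_one_add k).enorm
  have h4 := h3.mul h3 h3m
  have h4m := fun k => (h3m k).mul (h3m k)
  have h5 := h4.mul h4 h4m
  have h6 := h1.mul h5 fun k => (h4m k).mul (h4m k)
  refine h6.mono fun k => ae_of_all _ fun q => le_of_eq ?_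
  unfold TF
  ring

theorem Model.PB_cube_le (M : Model c e H) {K : ℝ} (hK : ∀ ω, ‖B ω‖ ≤ K) (k : ℕ)
    {q : ((Λ → ℝ) × ℝ) × ℝ} (hs : 0 < s0sq c q) (h1 : Commute (B q.1.1) (H q.1.1))
    (h2 : Commute (B (up q)) (H (up q))) (h3 : Anti e (B q.1.1)) (h4 : Anti e (B (up q))) :
    PB e H B k (q.1.1, q.2) ^ 3 ≤
      (ENNReal.ofReal (Zt (tk k) q.2).im
        * ‖(B (up q) - B q.1.1) (Rv (H (up q)) (Zt (tk k) q.2) (e 0))‖ₑ ^ 2
      + ENNReal.ofReal (Zt (tk k) q.2).im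
        * ‖(-(B (up q)).adjoint - -(B q.1.1).adjoint) (Rv (H (up q)) (Zt (tk k) q.2) (e 0))‖ₑ ^ 2)
      * TF c K e H k q := by
  set z := Zt (tk k) q.2 with hzdef
  have hz : 0 < z.im := Zt_im_pos (tk_pos k) q.2
  have h := M.comm_ineq q.1.1 hz 0 q.1.2 (B := B q.1.1) (B' := B (up q)) h1 h2 h3 h4 (hK _)
  rw [show Function.update q.1.1 0 q.1.2 = up q from rfl] at h
  rw [show (⟪e 0, Rv (H q.1.1) z (e 0)⟫_ℂ) = Gr e H q.1.1 z 0 0 from rfl] at h
  have hadj : -(B (up q) - B q.1.1).adjoint = -(B (up q)).adjoint - -(B q.1.1).adjoint := by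
    rw [map_sub]; abel
  rw [hadj] at h
  have e1 : PB e H B k (q.1.1, q.2) = ENNReal.ofReal (z.im * ‖Rv (H q.1.1) z (B q.1.1 (e 0))‖ ^ 2) := by
    unfold PB
    rw [ENNReal.ofReal_mul hz.le, ENNReal.ofReal_pow (norm_nonneg _), ofReal_norm]
  have e2 : ∀ u : E, ENNReal.ofReal z.im * ‖u‖ₑ ^ 2 = ENNReal.ofReal (z.im * ‖u‖ ^ 2) := by
    intro u
    rw [ENNReal.ofReal_mul hz.le, ENNReal.ofReal_pow (norm_nonneg _), ofReal_norm]
  have e3 : TF c K e H k q = ENNReal.ofReal (K ^ 4 / 2 * (s0sq c q)⁻¹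
      * ‖1 + ((clp c q.1.2 - clp c (q.1.1 0) : ℝ) : ℂ) * Gr e H q.1.1 z 0 0‖ ^ 4) := by
    unfold TF
    rw [ENNReal.ofReal_mul (by positivity), ENNReal.ofReal_mul (by positivity),
      ENNReal.ofReal_pow (norm_nonneg _), ofReal_norm, ENNReal.ofReal_inv_of_pos hs]
  rw [e1, e2, e2, e3, ← ENNReal.ofReal_pow (by positivity), ← ENNReal.ofReal_add (by positivity)
    (by positivity), ← ENNReal.ofReal_mul (by positivity)]
  refine ENNReal.ofReal_le_ofReal ?_
  change 4 * s0sq c q * _ ≤ _ at h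
  rw [← mul_le_mul_iff_right₀ (show 0 < 4 * s0sq c q by positivity)]
  refine h.trans (le_of_eq ?_)
  field_simp
  ring

/-- **`Im z ‖R(z) B e₀‖²` tends to zero in measure.** -/
theorem Model.null_PB (M : Model c e H) (hcov : ShiftCov e H) {K : ℝ} (hK : ∀ ω, ‖B ω‖ ≤ K)
    (hBm : ∀ x y, Measurable fun ω => ⟪e x, B ω (e y)⟫_ℂ)
    (hBc : ∀ a x y, ∀ᵐ ω ∂(PP Λ c), ⟪e x, B (fun j => ω (j + a)) (e y)⟫_ℂ
        = ⟪e (x + a), B ω (e (y + a))⟫_ℂ)
    (hBl : LocApprox c e B)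
    (hcomm : ∀ᵐ ω ∂(PP Λ c), Commute (B ω) (H ω))
    (hanti : ∀ᵐ ω ∂(PP Λ c), ∀ x y, ⟪e x, B ω (e y)⟫_ℂ = -⟪e y, B ω (e x)⟫_ℂ) :
    Null ((PP Λ c).prod kap) (PB e H B) := by
  have := M3_prob Λ M.hc
  have := PP_prob Λ M.hc
  have := unif_prob M.hc
  have hX := M.null_XX hcov hBm hBc hBl
  have hY := M.null_XX (B := fun ω => -(B ω).adjoint) hcov (bar_meas hBm) (bar_cov hBc)
    (bar_loc hBl hanti)
  have hup : Measure.QuasiMeasurePreserving (up : ((Λ → ℝ) × ℝ) × ℝ → Λ → ℝ) (M3 Λ c) (PP Λ c) := by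
    have h1 := (mp_new (Λ := Λ) M.hc).quasiMeasurePreserving
    have h2 := (measurePreserving_fst (μ := PP Λ c) (ν := kap)).quasiMeasurePreserving
    exact h2.comp h1
  have hold : Measure.QuasiMeasurePreserving (fun q : ((Λ → ℝ) × ℝ) × ℝ => q.1.1) (M3 Λ c) (PP Λ c) := by
    have h1 := (measurePreserving_fst (μ := (PP Λ c).prod (unif c))
      (ν := kap)).quasiMeasurePreserving
    have h2 := (measurePreserving_fst (μ := PP Λ c) (ν := unif c)).quasiMeasurePreserving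
    exact h2.comp h1
  have hYm : ∀ k, Measurable fun q : ((Λ → ℝ) × ℝ) × ℝ => ENNReal.ofReal (Zt (tk k) q.2).im
        * ‖(-(B (up q)).adjoint - -(B q.1.1).adjoint)
          (Rv (H (up q)) (Zt (tk k) q.2) (e 0))‖ₑ ^ 2 := by
    intro k
    refine (measurable_Zt_im measurable_snd).mul ?_
    simp_rw [M.parseval_enorm]
    refine Measurable.tsum fun x => (Measurable.enorm ?_).pow_const 2
    simp_rw [sub_apply, inner_sub_right]
    exact (M.measurable_BR (B := fun ω => -(B ω).adjoint) (bar_meas hBm) measurable_up measurable_up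
      (tk_pos k) measurable_snd x 0).sub
      (M.measurable_BR (B := fun ω => -(B ω).adjoint) (bar_meas hBm)
        (measurable_fst.comp measurable_fst) measurable_up
      (tk_pos k) measurable_snd x 0)
  have hsum := (hX.add hY hYm).mul_tght (M.tght_TF K) (M.measurable_TF K)
  have hcube : Null (M3 Λ c) (fun k q => PB e H B k (q.1.1, q.2) ^ 3) := by
    refine hsum.mono fun k => ?_
    filter_upwards [ae_s0sq (Λ := Λ) M.hc, hup.ae hcomm, hold.ae hcomm, hup.ae hanti,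
      hold.ae hanti] with q h1 h2 h3 h4 h5
    exact M.PB_cube_le hK k h1 h3 h2 h5 h4
  have hP := hcube.of_cube
  refine hP.congr fun k => ?_
  exact (mp_old M.hc).lintegral_comp (f := fun p => min 1 (PB e H B k p))
    (measurable_const.min (M.measurable_PB hBm k))

/-! ### Singularity -/

theorem mutuallySingular_of_pois {μ : Measure ℝ} [IsFiniteMeasure μ]
    (h : ∀ ε : ℝ, 0 < ε → ∃ᶠ k in atTop, ∫ s, min 1 (Pois μ (Zt (tk k) s)) ∂kap ≤ ε) :
    μ ⟂ₘ volume := by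
  have h1 := (pois_tendsto μ).comp tendsto_tk
  have hi1 : ∀ k, Integrable (fun s => min 1 |Pois μ (Zt (tk k) s) - Dens μ s|) kap := fun k =>
    integrable_min_one ((measurable_Pois μ (tk k)).sub (measurable_Dens μ)).abs
      fun s => abs_nonneg _
  have hi2 : ∀ k, Integrable (fun s => min 1 (Pois μ (Zt (tk k) s))) kap := fun k =>
    integrable_min_one (measurable_Pois μ (tk k)) fun s => Pois_nonneg μ (Zt_im_pos (tk_pos k) s)
  have hi3 : Integrable (fun s => min 1 (Dens μ s)) kap :=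
    integrable_min_one (measurable_Dens μ) fun s => Dens_nonneg μ s
  have h0 : ∫ s, min 1 (Dens μ s) ∂kap ≤ 0 := by
    refine le_of_forall_pos_le_add fun ε hε => ?_
    have h2 : ∀ᶠ k in atTop, ∫ s, min 1 |Pois μ (Zt (tk k) s) - Dens μ s| ∂kap < ε / 2 :=
      h1.eventually_lt_const (half_pos hε)
    obtain ⟨k, hk1, hk2⟩ := ((h (ε / 2) (half_pos hε)).and_eventually h2).exists
    calc ∫ s, min 1 (Dens μ s) ∂kap
        ≤ ∫ s, (min 1 |Pois μ (Zt (tk k) s) - Dens μ s| + min 1 (Pois μ (Zt (tk k) s))) ∂kap := by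
          refine integral_mono hi3 ((hi1 k).add (hi2 k)) fun s => ?_
          have e1 := min_one_add_le' (abs_nonneg (Pois μ (Zt (tk k) s) - Dens μ s))
            (Pois_nonneg μ (Zt_im_pos (tk_pos k) s))
          refine le_trans (min_le_min_left 1 ?_) e1
          have e2 := neg_abs_le (Pois μ (Zt (tk k) s) - Dens μ s)
          linarith
      _ = ∫ s, min 1 |Pois μ (Zt (tk k) s) - Dens μ s| ∂kap
          + ∫ s, min 1 (Pois μ (Zt (tk k) s)) ∂kap := integral_add (hi1 k) (hi2 k)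
      _ ≤ 0 + ε := by linarith
  have hz : ∫ s, min 1 (Dens μ s) ∂kap = 0 :=
    le_antisymm h0 (integral_nonneg fun s => le_min zero_le_one (Dens_nonneg μ s))
  rw [integral_eq_zero_iff_of_nonneg (fun s => le_min zero_le_one (Dens_nonneg μ s)) hi3] at hz
  have hz2 : ∀ᵐ s ∂(volume : Measure ℝ), Dens μ s = 0 := by
    filter_upwards [ac_kap.ae_le hz] with s hs
    rcases min_choice 1 (Dens μ s) with h' | h'
    · simp only [Pi.zero_apply] at hs
      rw [h'] at hs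
      exact absurd hs one_ne_zero
    · simp only [Pi.zero_apply] at hs
      rwa [h'] at hs
  rw [← Measure.rnDeriv_eq_zero]
  filter_upwards [hz2, μ.rnDeriv_lt_top volume] with s hs hs2
  unfold Dens at hs
  have h3 : (μ.rnDeriv volume s).toReal = 0 := by
    rcases mul_eq_zero.mp hs with h' | h'
    · exact absurd h' Real.pi_ne_zero
    · exact h'
  rcases (ENNReal.toReal_eq_zero_iff _).mp h3 with h' | h'
  · exact h'
  · exact absurd h' hs2.ne

theorem Model.ae_sing (M : Model c e H)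
    (hBm : ∀ x y, Measurable fun ω => ⟪e x, B ω (e y)⟫_ℂ)
    (hN : Null ((PP Λ c).prod kap) (PB e H B)) :
    ∀ᵐ ω ∂(PP Λ c), ∀ μ : Measure ℝ, IsFiniteMeasure μ → IsSpec (H ω) (B ω (e 0)) μ →
      μ ⟂ₘ volume := by
  have := PP_prob Λ M.hc
  have hm : ∀ k, Measurable fun p => min 1 (PB e H B k p) := fun k =>
    measurable_const.min (M.measurable_PB hBm k)
  -- Fatou
  have h1 : ∫⁻ ω, liminf (fun k => ∫⁻ s, min 1 (PB e H B k (ω, s)) ∂kap) atTop ∂(PP Λ c) = 0 := by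
    refine le_antisymm ?_ bot_le
    refine (lintegral_liminf_le fun k => (hm k).lintegral_prod_right').trans ?_
    have h2 : ∀ k, ∫⁻ ω, ∫⁻ s, min 1 (PB e H B k (ω, s)) ∂kap ∂(PP Λ c)
        = ∫⁻ p, min 1 (PB e H B k p) ∂((PP Λ c).prod kap) := fun k =>
      (lintegral_prod _ (hm k).aemeasurable).symm
    simp_rw [h2]
    exact le_of_eq hN.liminf_eq
  rw [lintegral_eq_zero_iff (Measurable.liminf fun k => (hm k).lintegral_prod_right')] at h1
  filter_upwards [h1] with ω hω μ hfin hμ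
  simp only [Pi.zero_apply] at hω
  refine mutuallySingular_of_pois fun ε hε => ?_
  have hP : ∀ k s, PB e H B k (ω, s) = ENNReal.ofReal (Pois μ (Zt (tk k) s)) := by
    intro k s
    have hz := Zt_im_pos (tk_pos k) s
    unfold PB
    rw [hμ.pois (M.sa ω) hz, ENNReal.ofReal_mul hz.le, ENNReal.ofReal_pow (norm_nonneg _),
      ofReal_norm]
  have h3 : ∃ᶠ k in atTop, ∫⁻ s, min 1 (PB e H B k (ω, s)) ∂kap < ENNReal.ofReal ε := by
    refine frequently_lt_of_liminf_lt (by isBoundedDefault) ?_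
    rw [hω]; simpa using hε
  refine h3.mono fun k hk => ?_
  rw [integral_eq_lintegral_of_nonneg_ae (ae_of_all _ fun s => le_min zero_le_one
    (Pois_nonneg μ (Zt_im_pos (tk_pos k) s)))
    (measurable_const.min (measurable_Pois μ (tk k))).aestronglyMeasurable]
  refine ENNReal.toReal_le_of_le_ofReal hε.le ?_
  refine le_trans (le_of_eq ?_) hk.le
  refine lintegral_congr fun s => ?_
  rw [hP, ENNReal.ofReal_min, ENNReal.ofReal_one]

/-- **There is no antisymmetric covariant operator in the commutant.** -/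
theorem commutant_antisymm (M : Model c e H) (hcov : ShiftCov e H)
    {B : (Λ → ℝ) → (E →L[ℂ] E)} {K : ℝ} (hK : ∀ ω, ‖B ω‖ ≤ K)
    (hBm : ∀ x y, Measurable fun ω => ⟪e x, B ω (e y)⟫_ℂ)
    (hBc : ∀ a x y, ∀ᵐ ω ∂(PP Λ c), ⟪e x, B (fun j => ω (j + a)) (e y)⟫_ℂ
        = ⟪e (x + a), B ω (e (y + a))⟫_ℂ)
    (hBl : LocApprox c e B)
    (hcomm : ∀ᵐ ω ∂(PP Λ c), Commute (B ω) (H ω))
    (hanti : ∀ᵐ ω ∂(PP Λ c), ∀ x y, ⟪e x, B ω (e y)⟫_ℂ = -⟪e y, B ω (e x)⟫_ℂ) :
    ∀ᵐ ω ∂(PP Λ c), B ω (e 0) = 0 := by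
  have := PP_prob Λ M.hc
  have := unif_prob M.hc
  have hsing := M.ae_sing hBm (M.null_PB hcov hK hBm hBc hBl hcomm hanti)
  have hupd : MeasurePreserving (fun p : (Λ → ℝ) × ℝ => Function.update p.1 0 p.2)
      ((PP Λ c).prod (unif c)) (PP Λ c) := measurePreserving_upd (Λ := Λ) (unif c) 0
  have hG : ∀ᵐ ω ∂(PP Λ c), (Commute (B ω) (H ω) ∧ Anti e (B ω)) ∧
      ∀ μ : Measure ℝ, IsFiniteMeasure μ → IsSpec (H ω) (B ω (e 0)) μ → μ ⟂ₘ volume := by
    filter_upwards [hcomm, hanti, hsing] with ω h1 h2 h3 using ⟨⟨h1, h2⟩, h3⟩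
  have hG2 : ∀ᵐ p ∂((PP Λ c).prod (unif c)),
      (Commute (B (Function.update p.1 0 p.2)) (H (Function.update p.1 0 p.2))
        ∧ Anti e (B (Function.update p.1 0 p.2))) ∧
      ∀ μ : Measure ℝ, IsFiniteMeasure μ →
        IsSpec (H (Function.update p.1 0 p.2)) (B (Function.update p.1 0 p.2) (e 0)) μ →
        μ ⟂ₘ volume := hupd.quasiMeasurePreserving.ae hG
  have hG3 := Measure.ae_ae_of_ae_prod hG2
  have hmeasE : MeasurableSet {ω : Λ → ℝ | B ω (e 0) = 0} := by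
    have h1 : {ω : Λ → ℝ | B ω (e 0) = 0} = ⋂ x, {ω | ⟪e x, B ω (e 0)⟫_ℂ = 0} := by
      ext ω
      simp only [mem_ofPred_eq, mem_iInter]
      exact ⟨fun h x => by rw [h, inner_zero_right], fun h => M.tot _ h⟩
    rw [h1]
    exact MeasurableSet.iInter fun x => measurableSet_eq_fun (hBm x 0) measurable_const
  have h4 : ∀ᵐ p ∂((PP Λ c).prod (unif c)), B (Function.update p.1 0 p.2) (e 0) = 0 := by
    refine (Measure.ae_prod_iff_ae_ae (p := fun p : (Λ → ℝ) × ℝ =>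
      B (Function.update p.1 0 p.2) (e 0) = 0) (hmeasE.preimage (measurable_upd (0:Λ)))).mpr ?_
    filter_upwards [hG3] with ω hω
    set H₀ : E →L[ℂ] E := H ω + ((-(clp c (ω 0)) : ℝ) : ℂ) • rk (e 0) with hH₀
    have hH₀sa : IsSelfAdjoint H₀ := isSelfAdjoint_pert (M.sa ω) (e 0) _
    have h5 := (unif_ac c).ae_le (sing_main M.tot hH₀sa (e 0))
    filter_upwards [hω, h5, ae_unif c] with v hv h6 hvc
    set ω' := Function.update ω 0 v with hω'
    have h7 : H₀ + (v : ℂ) • rk (e 0) = H ω' := by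
      ext u
      have h8 := M.upd ω 0 v u
      rw [← hω', clp_of_mem hvc] at h8
      rw [h8, hH₀]
      simp only [add_apply, smul_apply, rk_apply]
      push_cast
      module
    rw [h7] at h6
    refine h6 (B ω') hv.1.1 (fun n => ?_) hv.2
    exact inner_pow_eq_zero (M.sa ω') (fun z hz => M.inner_Rv_anti ω' hz hv.1.1 hv.1.2 0) n
  have h5 : PP Λ c {ω : Λ → ℝ | B ω (e 0) = 0}ᶜ = 0 := by
    rw [← hupd.measure_preimage hmeasE.compl.nullMeasurableSet]
    exact h4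
  exact h5

end Pool.Agent.Lib.MP_562b47_mp
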