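import Mathlib
import Pool.Agent.Lib.MP_562b47_mp.Cov

/-!
Reduction of the absence of ballistic transport to the absence of antisymmetric covariant
operators in the commutant.  (Anderson model, MP_562b47_mp.)
-/

open MeasureTheory Set Filter Topology Complex
open scoped Real ENNReal NNReal InnerProductSpace

set_option linter.unusedSectionVars false

namespace Pool.Agent.Lib.MP_562b47_mp

variable {Λ : Type*} [DecidableEq Λ] [AddCommGroup Λ] [Countable Λ] {E : Type*}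
  [NormedAddCommGroup E] [InnerProductSpace ℂ E] [CompleteSpace E] {c : ℝ} {e : Λ → E}
  {H : (Λ → ℝ) → (E →L[ℂ] E)}

/-! ### Transposition -/

theorem me_exists_basis (ho : Orthonormal ℂ e) (tot : ∀ u : E, (∀ x, ⟪e x, u⟫_ℂ = 0) → u = 0) :
    ∃ b : HilbertBasis Λ ℂ E, ∀ x, b x = e x := by
  have hsp : (Submodule.span ℂ (Set.range e))ᗮ = ⊥ := by
    rw [Submodule.eq_bot_iff]
    intro u hu
    refine tot u fun x => ?_
    rw [Submodule.mem_orthogonal] at hu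
    exact hu _ (Submodule.subset_span ⟨x, rfl⟩)
  refine ⟨HilbertBasis.mkOfOrthogonalEqBot ho hsp, fun x => ?_⟩
  rw [HilbertBasis.coe_mkOfOrthogonalEqBot]

/-- `A'` is the transpose of `A` -/
def Trp (e : Λ → E) (A A' : E →L[ℂ] E) : Prop := ∀ x y, ⟪e x, A (e y)⟫_ℂ = ⟪e y, A' (e x)⟫_ℂ

theorem Trp.mul (ho : Orthonormal ℂ e) (tot : ∀ u : E, (∀ x, ⟪e x, u⟫_ℂ = 0) → u = 0)
    {A A' B B' : E →L[ℂ] E} (hA : Trp e A A') (hB : Trp e B B') : Trp e (A * B) (B' * A') := by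
  obtain ⟨b, hb⟩ := me_exists_basis ho tot
  intro x y
  have h1 : ⟪e x, (A * B) (e y)⟫_ℂ = ⟪A.adjoint (e x), B (e y)⟫_ℂ := by
    rw [ContinuousLinearMap.adjoint_inner_left]; rfl
  have h2 : ⟪e y, (B' * A') (e x)⟫_ℂ = ⟪B'.adjoint (e y), A' (e x)⟫_ℂ := by
    rw [ContinuousLinearMap.adjoint_inner_left]; rfl
  rw [h1, h2, ← b.tsum_inner_mul_inner, ← b.tsum_inner_mul_inner]
  refine tsum_congr fun z => ?_
  rw [hb, ContinuousLinearMap.adjoint_inner_left, ContinuousLinearMap.adjoint_inner_left,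
    hA x z, hB z y, mul_comm]

/-! ### The convex hull of the orbit (midpoints suffice) -/

/-- the closure of the orbit of the current under midpoints -/
inductive InK (H : (Λ → ℝ) → (E →L[ℂ] E)) (J : E →L[ℂ] E) : ((Λ → ℝ) → (E →L[ℂ] E)) → Prop
  | base (s : ℝ) : InK H J (fun ω => Js H J ω s)
  | half {A B : (Λ → ℝ) → (E →L[ℂ] E)} (hA : InK H J A) (hB : InK H J B) :
      InK H J (fun ω => (1 / 2 : ℂ) • (A ω + B ω))

section ink

variable {V : Λ → (E ≃ₗᵢ[ℂ] E)} {J : E →L[ℂ] E} {A B : (Λ → ℝ) → (E →L[ℂ] E)}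

theorem InK.covOp (hH : CovOp V H) (hJV : ∀ a u, V a (J u) = J (V a u)) (hA : InK H J A) :
    CovOp V A := by
  induction hA with
  | base s => exact hH.Js hJV s
  | half _ _ h1 h2 => exact (h1.add h2).smul _

theorem InK.sa (hsa : ∀ ω, IsSelfAdjoint (H ω)) (hJ : IsSelfAdjoint J) (hA : InK H J A) (ω : Λ → ℝ) :
    IsSelfAdjoint (A ω) := by
  induction hA with
  | base s => exact isSelfAdjoint_Js (hsa ω) hJ s
  | half _ _ h1 h2 =>
    rw [isSelfAdjoint_iff, star_smul, star_add, h1.star_eq, h2.star_eq]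
    simp

theorem InK.norm_le (hsa : ∀ ω, IsSelfAdjoint (H ω)) (hA : InK H J A) (ω : Λ → ℝ) :
    ‖A ω‖ ≤ ‖J‖ := by
  induction hA with
  | base s => exact norm_Js_le (hsa ω) J s
  | half _ _ h1 h2 =>
    rw [norm_smul]
    calc ‖(1 / 2 : ℂ)‖ * _ ≤ ‖(1 / 2 : ℂ)‖ * (‖J‖ + ‖J‖) := by
          gcongr
          exact (norm_add_le _ _).trans (add_le_add h1 h2)
      _ = ‖J‖ := by
          norm_num
          ring

theorem InK.shift (hA : InK H J A) (s : ℝ) : InK H J (fun ω => Ut H ω (-s) * A ω * Ut H ω s) := by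
  induction hA with
  | base t =>
    have h := InK.base (H := H) (J := J) (t + s)
    have e1 : (fun ω => Js H J ω (t + s)) = fun ω => Ut H ω (-s) * Js H J ω t * Ut H ω s :=
      funext fun ω => Js_add H J ω t s
    rwa [e1] at h
  | @half A B _ _ h1 h2 =>
    have h := InK.half h1 h2
    have e1 : (fun ω => (1 / 2 : ℂ) • (Ut H ω (-s) * A ω * Ut H ω s +
        Ut H ω (-s) * B ω * Ut H ω s)) =
        fun ω => Ut H ω (-s) * ((1 / 2 : ℂ) • (A ω + B ω)) * Ut H ω s := by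
      funext ω
      rw [mul_smul_comm, smul_mul_assoc, mul_add, add_mul]
    rwa [e1] at h

theorem InK.transp (M : Model c e H)
    (hJa : ∀ x y, ⟪e x, J (e y)⟫_ℂ = -⟪e y, J (e x)⟫_ℂ) (hA : InK H J A) :
    ∃ A', InK H J A' ∧ ∀ ω x y, ⟪e x, A ω (e y)⟫_ℂ = -⟪e y, A' ω (e x)⟫_ℂ := by
  induction hA with
  | base s =>
    refine ⟨_, InK.base (-s), fun ω x y => ?_⟩
    have h1 : Trp e (Ut H ω s) (Ut H ω s) := fun x y => Ut_symm M ω s x y
    have h2 : Trp e (Ut H ω (-s)) (Ut H ω (-s)) := fun x y => Ut_symm M ω (-s) x y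
    have h3 : Trp e J (-J) := fun x y => by
      rw [hJa x y]
      simp
    have h4 := (h2.mul M.ortho M.tot h3).mul M.ortho M.tot h1 x y
    unfold Js
    rw [h4, neg_neg, ← inner_neg_right]
    congr 1
    simp [mul_assoc]
  | @half A B _ _ h1 h2 =>
    obtain ⟨A', hA', h3⟩ := h1
    obtain ⟨B', hB', h4⟩ := h2
    refine ⟨_, InK.half hA' hB', fun ω x y => ?_⟩
    simp only [smul_apply, add_apply, inner_smul_right,
      inner_add_right, h3 ω x y, h4 ω x y]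
    ring

end ink

/-! ### Parseval in `ENNReal` -/

theorem me_parseval (ho : Orthonormal ℂ e) (tot : ∀ u : E, (∀ x, ⟪e x, u⟫_ℂ = 0) → u = 0)
    (v : E) : ∑' k, ‖⟪e k, v⟫_ℂ‖ₑ ^ 2 = ‖v‖ₑ ^ 2 := by
  obtain ⟨b, hb⟩ := me_exists_basis ho tot
  have h1 : HasSum (fun k => ‖⟪e k, v⟫_ℂ‖ ^ 2) (‖v‖ ^ 2) := by
    have h2 := b.hasSum_inner_mul_inner v v
    have h3 : (⟪v, v⟫_ℂ) = ((‖v‖ ^ 2 : ℝ) : ℂ) := by
      rw [inner_self_eq_norm_sq_to_K]; norm_cast
    rw [h3] at h2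
    have h4 : (fun k => ⟪v, b k⟫_ℂ * ⟪b k, v⟫_ℂ) = fun k => ((‖⟪e k, v⟫_ℂ‖ ^ 2 : ℝ) : ℂ) := by
      funext k
      rw [hb, ← inner_conj_symm v (e k), ← Complex.normSq_eq_conj_mul_self,
        Complex.normSq_eq_norm_sq]
    rw [h4] at h2
    exact_mod_cast h2
  have h5 : ∀ w : ℂ, ‖w‖ₑ ^ 2 = ENNReal.ofReal (‖w‖ ^ 2) := fun w => by
    rw [← ofReal_norm, ENNReal.ofReal_pow (norm_nonneg _)]
  simp_rw [h5]
  rw [← ENNReal.ofReal_tsum_of_nonneg (fun k => by positivity) h1.summable, h1.tsum_eq,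
    ← ofReal_norm, ENNReal.ofReal_pow (norm_nonneg _)]

theorem me_ext (ho : Orthonormal ℂ e) (tot : ∀ u : E, (∀ x, ⟪e x, u⟫_ℂ = 0) → u = 0)
    {A B : E →L[ℂ] E} (h : ∀ x, A (e x) = B (e x)) : A = B := by
  obtain ⟨b, hb⟩ := me_exists_basis ho tot
  have h2 : Dense ((Submodule.span ℂ (Set.range b) : Submodule ℂ E) : Set E) := by
    rw [Submodule.dense_iff_topologicalClosure_eq_top]
    exact b.dense_span
  refine ContinuousLinearMap.ext_on h2 ?_
  rintro _ ⟨x, rfl⟩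
  rw [hb]
  exact h x

/-- the limit of a bounded sequence of operators which converges on the basis -/
theorem me_limit (ho : Orthonormal ℂ e) (tot : ∀ u : E, (∀ x, ⟪e x, u⟫_ℂ = 0) → u = 0)
    (T : ℕ → (E →L[ℂ] E)) {K : ℝ} (hK : ∀ n, ‖T n‖ ≤ K)
    (h : ∀ x, CauchySeq fun n => T n (e x)) :
    ∃ L : E →L[ℂ] E, (∀ u, Tendsto (fun n => T n u) atTop (𝓝 (L u))) ∧ ‖L‖ ≤ K := by
  obtain ⟨b, hb⟩ := me_exists_basis ho tot
  have hK0 : 0 ≤ K := (norm_nonneg _).trans (hK 0)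
  have hspan : ∀ u ∈ Submodule.span ℂ (Set.range b), CauchySeq fun n => T n u := by
    intro u hu
    induction hu using Submodule.span_induction with
    | mem x hx =>
      obtain ⟨y, rfl⟩ := hx
      rw [hb]; exact h y
    | zero => simp only [map_zero]; exact cauchySeq_const 0
    | add x y _ _ h1 h2 => simp only [map_add]; exact h1.add h2
    | smul a x _ h1 =>
      simp only [map_smul]
      exact (uniformContinuous_const_smul a).comp_cauchySeq h1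
  have hall : ∀ u, CauchySeq fun n => T n u := by
    intro u
    rw [Metric.cauchySeq_iff]
    intro ε hε
    have hd : u ∈ closure ((Submodule.span ℂ (Set.range b) : Submodule ℂ E) : Set E) := by
      have h1 := b.dense_span
      have h2 : u ∈ (Submodule.span ℂ (Set.range b)).topologicalClosure := by rw [h1]; trivial
      exact h2
    obtain ⟨v, hv, huv⟩ := Metric.mem_closure_iff.1 hd (ε / (3 * (K + 1))) (by positivity)
    obtain ⟨N, hN⟩ := Metric.cauchySeq_iff.1 (hspan v hv) (ε / 3) (by positivity)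
    refine ⟨N, fun m hm n hn => ?_⟩
    have h1 : ∀ k, dist (T k u) (T k v) ≤ ε / 3 := by
      intro k
      rw [dist_eq_norm, ← map_sub]
      calc ‖T k (u - v)‖ ≤ ‖T k‖ * ‖u - v‖ := (T k).le_opNorm _
        _ ≤ (K + 1) * (ε / (3 * (K + 1))) := by
            rw [dist_eq_norm] at huv
            gcongr
            exact (hK k).trans (by linarith)
        _ = ε / 3 := by
            field_simp
    calc dist (T m u) (T n u) ≤ dist (T m u) (T m v) + dist (T m v) (T n v) + dist (T n v) (T n u) :=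
          dist_triangle4 _ _ _ _
      _ < ε / 3 + ε / 3 + ε / 3 := by
          have h2 := h1 m
          have h3 := h1 n
          have h4 := hN m hm n hn
          rw [dist_comm (T n v)]
          linarith
      _ = ε := by ring
  choose f hf using fun u => cauchySeq_tendsto_of_complete (hall u)
  have hf' : Tendsto (fun n x => T n x) atTop (𝓝 f) := by
    rw [tendsto_pi_nhds]
    exact hf
  refine ⟨continuousLinearMapOfTendsto (E := E) (F := E) T hf', hf, ?_⟩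
  refine ContinuousLinearMap.opNorm_le_bound _ hK0 fun u => ?_
  refine le_of_tendsto (hf u).norm (Eventually.of_forall fun n => ?_)
  exact ((T n).le_opNorm u).trans (mul_le_mul_of_nonneg_right (hK n) (norm_nonneg _))

/-! ### Mean squares -/

section ms

variable {V : Λ → (E ≃ₗᵢ[ℂ] E)} {J : E →L[ℂ] E} {A B : (Λ → ℝ) → (E →L[ℂ] E)}

theorem CovOp.me_sub (hA : CovOp V A) (hB : CovOp V B) : CovOp V (fun ω => A ω - B ω) := by
  have h := hA.add (hB.smul (-1))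
  have e1 : (fun ω => A ω + (-1 : ℂ) • B ω) = fun ω => A ω - B ω := by
    funext ω
    rw [neg_one_smul, sub_eq_add_neg]
  rwa [e1] at h

theorem CovOp.me_cont (hA : CovOp V A) {P : Type*} [TopologicalSpace P] {f : P → Λ → ℝ}
    (hf : Continuous f) {h : P → E} (hh : Continuous h) : Continuous fun p => A (f p) (h p) := by
  obtain ⟨K, hK⟩ := hA.bdd
  rw [continuous_iff_continuousAt]
  intro p0
  have h1 : Tendsto (fun p => A (f p) (h p - h p0)) (𝓝 p0) (𝓝 0) := by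
    refine squeeze_zero_norm (a := fun p => K * ‖h p - h p0‖) (fun p => ?_) ?_
    · exact ((A (f p)).le_opNorm _).trans (mul_le_mul_of_nonneg_right (hK _) (norm_nonneg _))
    · have h2 : Continuous fun p => K * ‖h p - h p0‖ := by fun_prop
      have h3 := h2.tendsto p0
      simpa using h3
  have h2 : Tendsto (fun p => A (f p) (h p0)) (𝓝 p0) (𝓝 (A (f p0) (h p0))) :=
    ((hA.cont (h p0)).comp hf).tendsto p0
  have h3 := h1.add h2
  rw [zero_add] at h3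
  refine h3.congr fun p => ?_
  rw [map_sub, sub_add_cancel]

/-- mean square of the column at `0` -/
noncomputable def MS (c : ℝ) (e : Λ → E) (A : (Λ → ℝ) → (E →L[ℂ] E)) : ℝ :=
  ∫ ω, ‖A ω (e 0)‖ ^ 2 ∂(PP Λ c)

theorem me_integrable (hc : 0 < c) {f : (Λ → ℝ) → E} (hf : Continuous f) {C : ℝ}
    (hC : ∀ ω, ‖f ω‖ ≤ C) : Integrable (fun ω => ‖f ω‖ ^ 2) (PP Λ c) := by
  have := PP_prob Λ hc
  refine Integrable.of_bound (C := C ^ 2) (hf.norm.pow 2).aestronglyMeasurable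
    (ae_of_all _ fun ω => ?_)
  rw [Real.norm_of_nonneg (by positivity)]
  exact pow_le_pow_left₀ (norm_nonneg _) (hC ω) 2

theorem me_lint (hc : 0 < c) {f : (Λ → ℝ) → E} (hf : Continuous f) {C : ℝ}
    (hC : ∀ ω, ‖f ω‖ ≤ C) :
    ∫⁻ ω, ‖f ω‖ₑ ^ 2 ∂(PP Λ c) = ENNReal.ofReal (∫ ω, ‖f ω‖ ^ 2 ∂(PP Λ c)) := by
  rw [ofReal_integral_eq_lintegral_ofReal (me_integrable hc hf hC)
    (ae_of_all _ fun ω => by positivity)]
  refine lintegral_congr fun ω => ?_
  rw [← ofReal_norm, ENNReal.ofReal_pow (norm_nonneg _)]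

theorem MS_nonneg : 0 ≤ MS c e A := integral_nonneg fun ω => by positivity

theorem CovOp.me_lint (hc : 0 < c) (ho : Orthonormal ℂ e) (hA : CovOp V A) :
    ∫⁻ ω, ‖A ω (e 0)‖ₑ ^ 2 ∂(PP Λ c) = ENNReal.ofReal (MS c e A) := by
  obtain ⟨K, hK⟩ := hA.bdd
  refine Pool.Agent.Lib.MP_562b47_mp.me_lint hc (hA.cont (e 0)) (C := K) fun ω => ?_
  have h1 := (A ω).le_opNorm (e 0)
  rw [ho.1 0, mul_one] at h1
  exact h1.trans (hK ω)

theorem me_parallelogram (M : Model c e H) (hA : InK H J A) (hB : InK H J B)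
    (hAc : CovOp V A) (hBc : CovOp V B) :
    ∫ ω, ‖(A ω - B ω) (e 0)‖ ^ 2 ∂(PP Λ c) =
      2 * MS c e A + 2 * MS c e B - 4 * MS c e (fun ω => (1 / 2 : ℂ) • (A ω + B ω)) := by
  have hn : ∀ {D : (Λ → ℝ) → (E →L[ℂ] E)}, InK H J D → ∀ ω, ‖D ω (e 0)‖ ≤ ‖J‖ := by
    intro D hD ω
    have h1 := (D ω).le_opNorm (e 0)
    rw [M.ortho.1 0, mul_one] at h1
    exact h1.trans (hD.norm_le M.sa ω)
  have iA := me_integrable (c := c) M.hc (hAc.cont (e 0)) (hn hA)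
  have iB := me_integrable (c := c) M.hc (hBc.cont (e 0)) (hn hB)
  have iD := me_integrable (c := c) M.hc (((hAc.add hBc).smul (1 / 2)).cont (e 0)) (hn (hA.half hB))
  unfold MS
  rw [← integral_const_mul, ← integral_const_mul, ← integral_const_mul, ← integral_add,
    ← integral_sub]
  · refine integral_congr_ae (ae_of_all _ fun ω => ?_)
    simp only [sub_apply, smul_apply, add_apply, norm_smul]
    have h1 := parallelogram_law_with_norm ℂ (A ω (e 0)) (B ω (e 0))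
    norm_num
    nlinarith [h1]
  · exact (iA.const_mul 2).add (iB.const_mul 2)
  · exact iD.const_mul 4
  · exact iA.const_mul 2
  · exact iB.const_mul 2

theorem me_diff_bound (M : Model c e H) (hV : Trans e V) (hA : InK H J A) (hB : InK H J B)
    (hAc : CovOp V A) (hBc : CovOp V B) {m : ℝ} (hm : ∀ D, InK H J D → m ≤ MS c e D) (x : Λ) :
    ∫⁻ ω, ‖A ω (e x) - B ω (e x)‖ₑ ^ 2 ∂(PP Λ c) ≤
      ENNReal.ofReal (2 * MS c e A + 2 * MS c e B - 4 * m) := by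
  have h1 := (hAc.me_sub hBc).shift_lintegral M.hc hV x
  simp only [sub_apply] at h1
  rw [h1]
  have h2 := me_parallelogram M hA hB hAc hBc
  have h3 := (hAc.me_sub hBc).me_lint M.hc M.ortho
  simp only [sub_apply] at h3
  rw [h3]
  refine ENNReal.ofReal_le_ofReal ?_
  unfold MS at h2 ⊢
  rw [h2]
  have h4 := hm _ (hA.half hB)
  unfold MS at h4
  linarith

theorem me_MS_shift (M : Model c e H) (hV : Trans e V) (hH : CovOp V H) (hJ : IsSelfAdjoint J)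
    (hA : InK H J A) (hAc : CovOp V A) (s : ℝ) :
    ∫⁻ ω, ‖(Ut H ω (-s) * A ω * Ut H ω s) (e 0)‖ₑ ^ 2 ∂(PP Λ c) =
      ∫⁻ ω, ‖A ω (e 0)‖ₑ ^ 2 ∂(PP Λ c) := by
  have h1 : ∀ ω, ‖(Ut H ω (-s) * A ω * Ut H ω s) (e 0)‖ₑ = ‖(A ω * Ut H ω s) (e 0)‖ₑ := by
    intro ω
    rw [← ofReal_norm, ← ofReal_norm, mul_assoc]
    congr 1
    exact norm_Ut_apply (M.sa ω) (-s) _
  have h2 : ∀ ω, ‖(A ω * Ut H ω s).adjoint (e 0)‖ₑ = ‖A ω (e 0)‖ₑ := by
    intro ω
    have h3 : (A ω * Ut H ω s).adjoint = Ut H ω (-s) * A ω := by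
      rw [← ContinuousLinearMap.star_eq_adjoint, star_mul, (hA.sa M.sa hJ ω).star_eq,
        ContinuousLinearMap.star_eq_adjoint, Ut_adjoint (M.sa ω)]
    rw [h3, ← ofReal_norm, ← ofReal_norm]
    congr 1
    exact norm_Ut_apply (M.sa ω) (-s) _
  simp_rw [h1]
  rw [(hAc.mul (hH.Ut s)).mass_transport M.hc M.ortho M.tot hV]
  simp_rw [h2]

/-- the transposed element has the same column norms -/
theorem me_norm_transp (M : Model c e H) (hJ : IsSelfAdjoint J) {A' : (Λ → ℝ) → (E →L[ℂ] E)}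
    (hA' : InK H J A')
    (h : ∀ ω x y, ⟪e x, A ω (e y)⟫_ℂ = -⟪e y, A' ω (e x)⟫_ℂ) (ω : Λ → ℝ) (x : Λ) :
    ‖A' ω (e x)‖ₑ ^ 2 = ‖A ω (e x)‖ₑ ^ 2 := by
  rw [← me_parseval M.ortho M.tot, ← me_parseval M.ortho M.tot]
  refine tsum_congr fun k => ?_
  have h1 : ⟪e x, A' ω (e k)⟫_ℂ = (starRingEnd ℂ) ⟪e k, A' ω (e x)⟫_ℂ := by
    rw [inner_conj_symm]
    have h2 := (hA'.sa M.sa hJ ω).isSymmetric (e x) (e k)
    exact h2.symm
  rw [h ω k x, h1, enorm_neg, ← ofReal_norm, ← ofReal_norm, Complex.norm_conj]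

end ms

/-! ### Almost sure convergence -/

theorem me_ae_geom {f : ℕ → (Λ → ℝ) → E} (hf : ∀ n, Continuous (f n)) {C : ℝ} (hC : 0 ≤ C)
    (h : ∀ n, ∫⁻ ω, ‖f n ω‖ₑ ^ 2 ∂(PP Λ c) ≤ ENNReal.ofReal (C * (1 / 16) ^ n)) :
    ∀ᵐ ω ∂(PP Λ c), ∃ K : ℕ, ∀ n, ‖f n ω‖ ≤ K * (1 / 2) ^ n := by
  have hmeas : ∀ n, Measurable fun ω => ENNReal.ofReal ((4 : ℝ) ^ n) * ‖f n ω‖ₑ ^ 2 := fun n =>
    (((hf n).enorm.measurable).pow_const 2).const_mul _
  have h1 : ∫⁻ ω, ∑' n, ENNReal.ofReal ((4 : ℝ) ^ n) * ‖f n ω‖ₑ ^ 2 ∂(PP Λ c) ≠ ⊤ := by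
    rw [lintegral_tsum fun n => (hmeas n).aemeasurable]
    have h2 : ∀ n, ∫⁻ ω, ENNReal.ofReal ((4 : ℝ) ^ n) * ‖f n ω‖ₑ ^ 2 ∂(PP Λ c) ≤
        ENNReal.ofReal (C * (1 / 4) ^ n) := by
      intro n
      rw [lintegral_const_mul' _ _ ENNReal.ofReal_ne_top]
      calc ENNReal.ofReal ((4 : ℝ) ^ n) * ∫⁻ ω, ‖f n ω‖ₑ ^ 2 ∂(PP Λ c)
          ≤ ENNReal.ofReal ((4 : ℝ) ^ n) * ENNReal.ofReal (C * (1 / 16) ^ n) := by
            gcongr
            exact h n
        _ = ENNReal.ofReal (C * (1 / 4) ^ n) := by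
            rw [← ENNReal.ofReal_mul (by positivity)]
            congr 1
            have h3 : (4 : ℝ) ^ n * (1 / 16) ^ n = (1 / 4) ^ n := by
              rw [← mul_pow]; norm_num
            rw [← h3]; ring
    refine ne_top_of_le_ne_top ?_ (ENNReal.tsum_le_tsum h2)
    rw [← ENNReal.ofReal_tsum_of_nonneg (fun n => by positivity)
      ((summable_geometric_of_lt_one (by norm_num) (by norm_num)).mul_left C)]
    exact ENNReal.ofReal_ne_top
  have h3 := ae_lt_top (Measurable.tsum hmeas) h1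
  filter_upwards [h3] with ω hω
  set S := ∑' n, ENNReal.ofReal ((4 : ℝ) ^ n) * ‖f n ω‖ₑ ^ 2 with hS
  refine ⟨⌈Real.sqrt S.toReal⌉₊, fun n => ?_⟩
  have h4 : ENNReal.ofReal ((4 : ℝ) ^ n) * ‖f n ω‖ₑ ^ 2 ≤ S := ENNReal.le_tsum n
  have h5 : ENNReal.ofReal ((2 ^ n * ‖f n ω‖) ^ 2) ≤ S := by
    refine le_trans (le_of_eq ?_) h4
    rw [← ofReal_norm, ← ENNReal.ofReal_pow (norm_nonneg _),
      ← ENNReal.ofReal_mul (by positivity)]
    congr 1
    have h6 : (4 : ℝ) ^ n = (2 ^ n) ^ 2 := by rw [← pow_mul, mul_comm, pow_mul]; norm_num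
    rw [h6]; ring
  have h6 : (2 ^ n * ‖f n ω‖) ^ 2 ≤ S.toReal :=
    (ENNReal.ofReal_le_iff_le_toReal hω.ne).1 h5
  have h7 : 2 ^ n * ‖f n ω‖ ≤ Real.sqrt S.toReal := Real.le_sqrt_of_sq_le h6
  have h8 : 2 ^ n * ‖f n ω‖ ≤ (⌈Real.sqrt S.toReal⌉₊ : ℝ) := h7.trans (Nat.le_ceil _)
  have h9 : ‖f n ω‖ = (2 ^ n * ‖f n ω‖) * (1 / 2) ^ n := by
    have h10 : (2 : ℝ) ^ n * (1 / 2) ^ n = 1 := by rw [← mul_pow]; norm_num
    calc ‖f n ω‖ = ‖f n ω‖ * ((2 : ℝ) ^ n * (1 / 2) ^ n) := by rw [h10, mul_one]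
      _ = _ := by ring
  rw [h9]
  gcongr

theorem me_tendsto_zero {v : ℕ → E} {K : ℕ} (h : ∀ n, ‖v n‖ ≤ K * (1 / 2) ^ n) :
    Tendsto v atTop (𝓝 0) := by
  refine squeeze_zero_norm h ?_
  have h1 : Tendsto (fun n : ℕ => (1 / 2 : ℝ) ^ n) atTop (𝓝 0) :=
    tendsto_pow_atTop_nhds_zero_of_lt_one (by norm_num) (by norm_num)
  simpa using h1.const_mul (K : ℝ)

/-- an operator which commutes with `U(1/k)` for all `k` commutes with `H` -/
theorem me_commute {ω : Λ → ℝ} {B : E →L[ℂ] E}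
    (h : ∀ k : ℕ, B * Ut H ω (1 / (k + 1)) = Ut H ω (1 / (k + 1)) * B) : Commute B (H ω) := by
  have h1 := hasDerivAt_Ut H ω 0
  rw [hasDerivAt_iff_tendsto_slope_zero] at h1
  simp only [zero_add, Ut_zero, mul_one] at h1
  have h2 : Tendsto (fun k : ℕ => (1 / ((k : ℝ) + 1))) atTop (𝓝[≠] 0) := by
    rw [tendsto_nhdsWithin_iff]
    refine ⟨tendsto_one_div_add_atTop_nhds_zero_nat, Eventually.of_forall fun k => ?_⟩
    have : (0 : ℝ) < 1 / ((k : ℝ) + 1) := by positivity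
    exact this.ne'
  have h3 := h1.comp h2
  have h4 : Tendsto (fun k : ℕ => B * ((1 / ((k : ℝ) + 1))⁻¹ • (Ut H ω (1 / ((k : ℝ) + 1)) - 1)))
      atTop (𝓝 (B * (-I • H ω))) := (continuous_const.mul continuous_id).continuousAt.tendsto.comp h3
  have h5 : Tendsto (fun k : ℕ => ((1 / ((k : ℝ) + 1))⁻¹ • (Ut H ω (1 / ((k : ℝ) + 1)) - 1)) * B)
      atTop (𝓝 ((-I • H ω) * B)) := (continuous_id.mul continuous_const).continuousAt.tendsto.comp h3
  have h6 : (fun k : ℕ => B * ((1 / ((k : ℝ) + 1))⁻¹ • (Ut H ω (1 / ((k : ℝ) + 1)) - 1))) =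
      fun k : ℕ => ((1 / ((k : ℝ) + 1))⁻¹ • (Ut H ω (1 / ((k : ℝ) + 1)) - 1)) * B := by
    funext k
    rw [mul_smul_comm, smul_mul_assoc, mul_sub, sub_mul, h k, mul_one, one_mul]
  rw [h6] at h4
  have h7 := tendsto_nhds_unique h4 h5
  rw [mul_smul_comm, smul_mul_assoc] at h7
  have h8 : (-I : ℂ) ≠ 0 := by simp
  exact smul_right_injective _ h8 h7

section limit

variable {V : Λ → (E ≃ₗᵢ[ℂ] E)} {J : E →L[ℂ] E}

theorem me_MS_eq (M : Model c e H) {A B : (Λ → ℝ) → (E →L[ℂ] E)} (hA : CovOp V A)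
    (hB : CovOp V B)
    (h : ∫⁻ ω, ‖A ω (e 0)‖ₑ ^ 2 ∂(PP Λ c) = ∫⁻ ω, ‖B ω (e 0)‖ₑ ^ 2 ∂(PP Λ c)) :
    MS c e A = MS c e B := by
  rw [hA.me_lint M.hc M.ortho, hB.me_lint M.hc M.ortho] at h
  exact (ENNReal.ofReal_eq_ofReal_iff MS_nonneg MS_nonneg).1 h

theorem me_exists_B (M : Model c e H) (hV : Trans e V) (hH : CovOp V H) (hJ : IsSelfAdjoint J)
    (hJV : ∀ a u, V a (J u) = J (V a u))
    (hJa : ∀ x y, ⟪e x, J (e y)⟫_ℂ = -⟪e y, J (e x)⟫_ℂ)
    {m : ℝ} (hm : ∀ D, InK H J D → m ≤ MS c e D) (A : ℕ → (Λ → ℝ) → (E →L[ℂ] E))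
    (hA : ∀ n, InK H J (A n)) (hAm : ∀ n, MS c e (A n) ≤ m + (1 / 16) ^ n) :
    ∃ B : (Λ → ℝ) → (E →L[ℂ] E), (∀ ω, ‖B ω‖ ≤ ‖J‖) ∧
      (∀ x y, Measurable fun ω => ⟪e x, B ω (e y)⟫_ℂ) ∧
      (∀ a x y, ∀ᵐ ω ∂(PP Λ c), ⟪e x, B (fun j => ω (j + a)) (e y)⟫_ℂ
        = ⟪e (x + a), B ω (e (y + a))⟫_ℂ) ∧
      (∀ᵐ ω ∂(PP Λ c), Commute (B ω) (H ω)) ∧
      (∀ᵐ ω ∂(PP Λ c), ∀ x y, ⟪e x, B ω (e y)⟫_ℂ = -⟪e y, B ω (e x)⟫_ℂ) ∧
      (∀ᵐ ω ∂(PP Λ c), ∀ u, Tendsto (fun n => A n ω u) atTop (𝓝 (B ω u))) := by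
  classical
  have := PP_prob Λ M.hc
  have := unif_prob M.hc
  have hcov : ∀ n, CovOp V (A n) := fun n => (hA n).covOp hH hJV
  set G : Set (Λ → ℝ) := {ω | ∀ x, ∃ K : ℕ, ∀ n, ‖A (n + 1) ω (e x) - A n ω (e x)‖ ≤
    K * (1 / 2) ^ n} with hGdef
  have hGm : MeasurableSet G := by
    have h1 : G = ⋂ x, ⋃ K : ℕ, ⋂ n, {ω | ‖A (n + 1) ω (e x) - A n ω (e x)‖ ≤
        K * (1 / 2) ^ n} := by
      ext ω
      simp [hGdef]
    rw [h1]
    refine MeasurableSet.iInter fun x => MeasurableSet.iUnion fun K => MeasurableSet.iInter fun n => ?_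
    exact (isClosed_le (((hcov (n + 1)).cont (e x)).sub ((hcov n).cont (e x))).norm
      continuous_const).measurableSet
  have hlim : ∀ ω, ∃ L : E →L[ℂ] E,
      (ω ∈ G → ∀ u, Tendsto (fun n => A n ω u) atTop (𝓝 (L u))) ∧ (ω ∉ G → L = 0) ∧
        ‖L‖ ≤ ‖J‖ := by
    intro ω
    by_cases hω : ω ∈ G
    · obtain ⟨L, h1, h2⟩ := me_limit M.ortho M.tot (fun n => A n ω) (K := ‖J‖)
        (fun n => (hA n).norm_le M.sa ω) (fun x => by
          obtain ⟨K, hK⟩ := hω x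
          refine cauchySeq_of_le_geometric (1 / 2) (K : ℝ) (by norm_num) fun n => ?_
          rw [dist_comm, dist_eq_norm]
          exact hK n)
      exact ⟨L, fun _ => h1, fun h => absurd hω h, h2⟩
    · exact ⟨0, fun h => absurd h hω, fun _ => rfl, by rw [norm_zero]; exact norm_nonneg _⟩
  choose B hB1 hB2 hB3 using hlim
  have hG : ∀ᵐ ω ∂(PP Λ c), ω ∈ G := by
    rw [hGdef]
    simp only [Set.mem_ofPred_eq]
    rw [ae_all_iff]
    intro x
    refine me_ae_geom (C := 4) (fun n => ((hcov (n + 1)).cont (e x)).sub ((hcov n).cont (e x)))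
      (by norm_num) fun n => ?_
    refine (me_diff_bound M hV (hA (n + 1)) (hA n) (hcov (n + 1)) (hcov n) hm x).trans
      (ENNReal.ofReal_le_ofReal ?_)
    have h1 := hAm (n + 1)
    have h2 := hAm n
    have h3 : (0 : ℝ) < (1 / 16) ^ n := by positivity
    rw [pow_succ] at h1
    linarith
  refine ⟨B, hB3, ?_, ?_, ?_, ?_, ?_⟩
  · intro x y
    refine measurable_of_tendsto_metrizable
      (f := fun n ω => G.indicator (fun ω => ⟪e x, A n ω (e y)⟫_ℂ) ω)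
      (fun n => ((continuous_const.inner ((hcov n).cont (e y))).measurable).indicator hGm) ?_
    rw [tendsto_pi_nhds]
    intro ω
    by_cases hω : ω ∈ G
    · simp only [Set.indicator_of_mem hω]
      exact (continuous_const.inner continuous_id).continuousAt.tendsto.comp (hB1 ω hω (e y))
    · simp only [Set.indicator_of_notMem hω, hB2 ω hω, zero_apply, inner_zero_right]
      exact tendsto_const_nhds
  · intro a x y
    have h1 := (measurePreserving_shift (Λ := Λ) (unif c) a).quasiMeasurePreserving.ae hG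
    have h1' : ∀ᵐ ω ∂(PP Λ c), (fun j => ω (j + a)) ∈ G := h1
    filter_upwards [hG, h1'] with ω hω hω'
    have h2 : Tendsto (fun n => ⟪e x, A n (fun j => ω (j + a)) (e y)⟫_ℂ) atTop
        (𝓝 ⟪e x, B (fun j => ω (j + a)) (e y)⟫_ℂ) := tendsto_const_nhds.inner (hB1 _ hω' (e y))
    have h3 : Tendsto (fun n => ⟪e (x + a), A n ω (e (y + a))⟫_ℂ) atTop
        (𝓝 ⟪e (x + a), B ω (e (y + a))⟫_ℂ) := tendsto_const_nhds.inner (hB1 _ hω (e (y + a)))
    refine tendsto_nhds_unique h2 (h3.congr fun n => ?_)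
    have h4 := (hcov n).cov a ω (e (y + a))
    rw [hV.apply a y] at h4
    rw [← h4, ← hV.apply a x, LinearIsometryEquiv.inner_map_map]
  · have hk : ∀ᵐ ω ∂(PP Λ c), ∀ (k : ℕ) (x : Λ), ∃ K : ℕ, ∀ n, ‖A n ω (e x) -
        (Ut H ω (-(1 / (k + 1))) * A n ω * Ut H ω (1 / (k + 1))) (e x)‖ ≤ K * (1 / 2) ^ n := by
      rw [ae_all_iff]
      intro k
      rw [ae_all_iff]
      intro x
      have hS : ∀ n, CovOp V (fun ω => Ut H ω (-(1 / ((k : ℝ) + 1))) * A n ω *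
          Ut H ω (1 / ((k : ℝ) + 1))) := fun n => ((hA n).shift _).covOp hH hJV
      refine me_ae_geom (C := 4) (fun n => ((hcov n).cont (e x)).sub ((hS n).cont (e x)))
        (by norm_num) fun n => ?_
      refine (me_diff_bound M hV (hA n) ((hA n).shift _) (hcov n) (hS n) hm x).trans
        (ENNReal.ofReal_le_ofReal ?_)
      rw [me_MS_eq M (hS n) (hcov n) (me_MS_shift M hV hH hJ (hA n) (hcov n) _)]
      have h2 := hAm n
      have h3 : (0 : ℝ) < (1 / 16) ^ n := by positivity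
      linarith
    filter_upwards [hG, hk] with ω hω hω'
    refine me_commute fun k => ?_
    set s : ℝ := 1 / ((k : ℝ) + 1) with hs
    have h1 : B ω = Ut H ω (-s) * B ω * Ut H ω s := by
      refine me_ext M.ortho M.tot fun x => ?_
      obtain ⟨K, hK⟩ := hω' k x
      have h2 := me_tendsto_zero hK
      have h3 : Tendsto (fun n => A n ω (e x) - (Ut H ω (-s) * A n ω * Ut H ω s) (e x)) atTop
          (𝓝 (B ω (e x) - (Ut H ω (-s) * B ω * Ut H ω s) (e x))) := by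
        refine (hB1 ω hω (e x)).sub ?_
        exact ((Ut H ω (-s)).continuous.continuousAt.tendsto.comp
          (hB1 ω hω (Ut H ω s (e x))))
      have h4 := tendsto_nhds_unique h3 h2
      exact sub_eq_zero.1 h4
    have h5 : Ut H ω s * Ut H ω (-s) = 1 := by
      rw [← Ut_add, add_neg_cancel, Ut_zero]
    calc B ω * Ut H ω s = 1 * (B ω * Ut H ω s) := (one_mul _).symm
      _ = Ut H ω s * (Ut H ω (-s) * B ω * Ut H ω s) := by
          rw [← h5]; simp only [mul_assoc]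
      _ = Ut H ω s * B ω := by rw [← h1]
  · choose A' hA' hAA' using fun n => (hA n).transp M hJa
    have hcov' : ∀ n, CovOp V (A' n) := fun n => (hA' n).covOp hH hJV
    have hk : ∀ᵐ ω ∂(PP Λ c), ∀ (x : Λ), ∃ K : ℕ, ∀ n, ‖A n ω (e x) - A' n ω (e x)‖ ≤
        K * (1 / 2) ^ n := by
      rw [ae_all_iff]
      intro x
      refine me_ae_geom (C := 4) (fun n => ((hcov n).cont (e x)).sub ((hcov' n).cont (e x)))
        (by norm_num) fun n => ?_
      refine (me_diff_bound M hV (hA n) (hA' n) (hcov n) (hcov' n) hm x).trans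
        (ENNReal.ofReal_le_ofReal ?_)
      have h1 : MS c e (A' n) = MS c e (A n) := by
        refine me_MS_eq M (hcov' n) (hcov n) (lintegral_congr fun ω => ?_)
        exact me_norm_transp M hJ (hA' n) (hAA' n) ω 0
      rw [h1]
      have h2 := hAm n
      have h3 : (0 : ℝ) < (1 / 16) ^ n := by positivity
      linarith
    filter_upwards [hG, hk] with ω hω hω' x y
    obtain ⟨K, hK⟩ := hω' x
    have h2 : Tendsto (fun n => A' n ω (e x)) atTop (𝓝 (B ω (e x))) := by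
      have h3 := (hB1 ω hω (e x)).sub (me_tendsto_zero hK)
      rw [sub_zero] at h3
      refine h3.congr fun n => ?_
      abel
    have h3 : Tendsto (fun n => ⟪e x, A n ω (e y)⟫_ℂ) atTop (𝓝 ⟪e x, B ω (e y)⟫_ℂ) :=
      tendsto_const_nhds.inner (hB1 ω hω (e y))
    have h4 : Tendsto (fun n => -⟪e y, A' n ω (e x)⟫_ℂ) atTop (𝓝 (-⟪e y, B ω (e x)⟫_ℂ)) :=
      (tendsto_const_nhds.inner h2).neg
    exact tendsto_nhds_unique h3 (h4.congr fun n => (hAA' n ω x y).symm)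
  · filter_upwards [hG] with ω hω
    exact hB1 ω hω

theorem me_fatou (M : Model c e H) (hV : Trans e V) (hH : CovOp V H)
    (hJV : ∀ a u, V a (J u) = J (V a u))
    {m : ℝ} (hm : ∀ D, InK H J D → m ≤ MS c e D) (A : ℕ → (Λ → ℝ) → (E →L[ℂ] E))
    (hA : ∀ n, InK H J (A n)) (hAm : ∀ n, MS c e (A n) ≤ m + (1 / 16) ^ n)
    {B : (Λ → ℝ) → (E →L[ℂ] E)}
    (hB : ∀ᵐ ω ∂(PP Λ c), ∀ u, Tendsto (fun n => A n ω u) atTop (𝓝 (B ω u))) (n : ℕ) (x : Λ) :
    ∫⁻ ω, ‖B ω (e x) - A n ω (e x)‖ₑ ^ 2 ∂(PP Λ c) ≤ ENNReal.ofReal (4 * (1 / 16) ^ n) := by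
  have hcov : ∀ n, CovOp V (A n) := fun n => (hA n).covOp hH hJV
  have h1 : ∫⁻ ω, ‖B ω (e x) - A n ω (e x)‖ₑ ^ 2 ∂(PP Λ c) =
      ∫⁻ ω, liminf (fun k => ‖A k ω (e x) - A n ω (e x)‖ₑ ^ 2) atTop ∂(PP Λ c) := by
    refine lintegral_congr_ae ?_
    filter_upwards [hB] with ω hω
    have h2 : Tendsto (fun k => ‖A k ω (e x) - A n ω (e x)‖ₑ ^ 2) atTop
        (𝓝 (‖B ω (e x) - A n ω (e x)‖ₑ ^ 2)) :=
      ENNReal.Tendsto.pow ((hω (e x)).sub_const _).enorm
    exact h2.liminf_eq.symm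
  rw [h1]
  refine (lintegral_liminf_le fun k =>
    ((((hcov k).cont (e x)).sub ((hcov n).cont (e x))).enorm.measurable).pow_const 2).trans ?_
  refine liminf_le_of_frequently_le' ?_
  refine Eventually.frequently ?_
  filter_upwards [eventually_ge_atTop n] with k hk
  refine (me_diff_bound M hV (hA k) (hA n) (hcov k) (hcov n) hm x).trans
    (ENNReal.ofReal_le_ofReal ?_)
  have h2 := hAm k
  have h3 := hAm n
  have h4 : (1 / 16 : ℝ) ^ k ≤ (1 / 16) ^ n :=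
    pow_le_pow_of_le_one (by norm_num) (by norm_num) hk
  linarith

theorem me_sq_tri (x y z : E) : ‖x - z‖ₑ ^ 2 ≤ 2 * ‖x - y‖ₑ ^ 2 + 2 * ‖y - z‖ₑ ^ 2 := by
  have h1 : ∀ w : E, ‖w‖ₑ ^ 2 = ENNReal.ofReal (‖w‖ ^ 2) := fun w => by
    rw [← ofReal_norm, ENNReal.ofReal_pow (norm_nonneg _)]
  have h2 : (2 : ℝ≥0∞) = ENNReal.ofReal 2 := by simp
  rw [h1, h1, h1, h2, ← ENNReal.ofReal_mul (by norm_num), ← ENNReal.ofReal_mul (by norm_num),
    ← ENNReal.ofReal_add (by positivity) (by positivity)]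
  refine ENNReal.ofReal_le_ofReal ?_
  have h3 : ‖x - z‖ ≤ ‖x - y‖ + ‖y - z‖ := norm_sub_le_norm_sub_add_norm_sub _ _ _
  have h4 : ‖x - z‖ ^ 2 ≤ (‖x - y‖ + ‖y - z‖) ^ 2 := pow_le_pow_left₀ (norm_nonneg _) h3 2
  nlinarith [sq_nonneg (‖x - y‖ - ‖y - z‖)]

/-- restriction of a configuration to a finite set -/
def resC (F : Finset Λ) (ω : Λ → ℝ) : Λ → ℝ := fun j => if j ∈ F then ω j else 0

theorem continuous_resC (F : Finset Λ) : Continuous (resC (Λ := Λ) F) := by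
  refine continuous_pi fun j => ?_
  unfold resC
  by_cases h : j ∈ F
  · simp only [h, if_true]
    exact continuous_apply j
  · simp only [h, if_false]
    exact continuous_const

theorem tendsto_resC (ω : Λ → ℝ) : Tendsto (fun F : Finset Λ => resC F ω) atTop (𝓝 ω) := by
  rw [tendsto_pi_nhds]
  intro j
  refine tendsto_const_nhds.congr' ?_
  filter_upwards [eventually_ge_atTop {j}] with F hF
  have : j ∈ F := hF (Finset.mem_singleton_self j)
  simp [resC, this]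

/-- projection to finitely many coordinates -/
noncomputable def prF (e : Λ → E) (F : Finset Λ) (v : E) : E := ∑ k ∈ F, ⟪e k, v⟫_ℂ • e k

theorem inner_prF (ho : Orthonormal ℂ e) (F : Finset Λ) (v : E) (k : Λ) :
    ⟪e k, prF e F v⟫_ℂ = if k ∈ F then ⟪e k, v⟫_ℂ else 0 := by
  unfold prF
  rw [inner_sum]
  simp_rw [inner_smul_right, orthonormal_iff_ite.1 ho]
  simp

theorem norm_prF_le (ho : Orthonormal ℂ e) (tot : ∀ u : E, (∀ x, ⟪e x, u⟫_ℂ = 0) → u = 0)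
    (F : Finset Λ) (v : E) : ‖prF e F v‖ ≤ ‖v‖ := by
  have h1 : ‖prF e F v‖ₑ ^ 2 ≤ ‖v‖ₑ ^ 2 := by
    rw [← me_parseval ho tot, ← me_parseval ho tot]
    refine ENNReal.tsum_le_tsum fun k => ?_
    rw [inner_prF ho]
    split
    · exact le_rfl
    · simp
  have h2 : ∀ w : E, ‖w‖ₑ ^ 2 = ENNReal.ofReal (‖w‖ ^ 2) := fun w => by
    rw [← ofReal_norm, ENNReal.ofReal_pow (norm_nonneg _)]
  rw [h2, h2, ENNReal.ofReal_le_ofReal_iff (by positivity)] at h1
  exact (sq_le_sq₀ (norm_nonneg _) (norm_nonneg _)).1 h1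

theorem tendsto_prF (ho : Orthonormal ℂ e) (tot : ∀ u : E, (∀ x, ⟪e x, u⟫_ℂ = 0) → u = 0)
    (v : E) : Tendsto (fun F : Finset Λ => prF e F v) atTop (𝓝 v) := by
  obtain ⟨b, hb⟩ := me_exists_basis ho tot
  have h1 := b.hasSum_repr v
  simp only [HilbertBasis.repr_apply_apply, hb] at h1
  exact h1

theorem prF_sub (F : Finset Λ) (v w : E) : prF e F (v - w) = prF e F v - prF e F w := by
  unfold prF
  rw [← Finset.sum_sub_distrib]
  refine Finset.sum_congr rfl fun k _ => ?_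
  rw [inner_sub_right, sub_smul]

theorem continuous_prF (F : Finset Λ) : Continuous (prF e F) := by
  unfold prF
  fun_prop

theorem me_locApprox (M : Model c e H) (A : ℕ → (Λ → ℝ) → (E →L[ℂ] E))
    (hAc : ∀ n, CovOp V (A n)) {K : ℝ} (hK : ∀ n ω, ‖A n ω‖ ≤ K) {B : (Λ → ℝ) → (E →L[ℂ] E)}
    (hB : ∀ n, ∫⁻ ω, ‖B ω (e 0) - A n ω (e 0)‖ₑ ^ 2 ∂(PP Λ c) ≤
      ENNReal.ofReal (4 * (1 / 16) ^ n)) : LocApprox c e B := by
  classical
  have := PP_prob Λ M.hc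
  intro ε hε
  obtain ⟨n, hn⟩ : ∃ n : ℕ, 4 * (1 / 16 : ℝ) ^ n ≤ ε / 4 := by
    obtain ⟨n, hn⟩ := exists_pow_lt_of_lt_one (show (0 : ℝ) < ε / 16 by positivity)
      (show (1 / 16 : ℝ) < 1 by norm_num)
    exact ⟨n, by linarith⟩
  set a : (Λ → ℝ) → E := fun ω => A n ω (e 0) with ha
  have hac : Continuous a := (hAc n).cont (e 0)
  have haK : ∀ ω, ‖a ω‖ ≤ K := by
    intro ω
    have h1 := (A n ω).le_opNorm (e 0)
    rw [M.ortho.1 0, mul_one] at h1
    exact h1.trans (hK n ω)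
  have hcv : ∀ F : Finset Λ, Continuous fun ω => prF e F (a (resC F ω)) := fun F =>
    (continuous_prF F).comp (hac.comp (continuous_resC F))
  have hlim : Tendsto (fun F : Finset Λ => ∫⁻ ω, ‖a ω - prF e F (a (resC F ω))‖ₑ ^ 2 ∂(PP Λ c))
      atTop (𝓝 (∫⁻ _ω, 0 ∂(PP Λ c))) := by
    refine tendsto_lintegral_filter_of_dominated_convergence
      (fun _ => ENNReal.ofReal ((2 * K) ^ 2)) ?_ ?_ ?_ ?_
    · exact Eventually.of_forall fun F => ((hac.sub (hcv F)).enorm.measurable).pow_const 2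
    · refine Eventually.of_forall fun F => ae_of_all _ fun ω => ?_
      rw [← ofReal_norm, ← ENNReal.ofReal_pow (norm_nonneg _)]
      refine ENNReal.ofReal_le_ofReal (pow_le_pow_left₀ (norm_nonneg _) ?_ 2)
      calc ‖a ω - prF e F (a (resC F ω))‖ ≤ ‖a ω‖ + ‖prF e F (a (resC F ω))‖ := norm_sub_le _ _
        _ ≤ K + K := add_le_add (haK _) ((norm_prF_le M.ortho M.tot F _).trans (haK _))
        _ = 2 * K := by ring
    · rw [lintegral_const, measure_univ, mul_one]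
      exact ENNReal.ofReal_ne_top
    · refine ae_of_all _ fun ω => ?_
      have h1 : Tendsto (fun F : Finset Λ => a ω - prF e F (a (resC F ω))) atTop (𝓝 0) := by
        have h2 : Tendsto (fun F : Finset Λ => a (resC F ω) - a ω) atTop (𝓝 0) := by
          have h3 := (hac.tendsto ω).comp (tendsto_resC ω)
          have h4 := h3.sub_const (a ω)
          rw [sub_self] at h4
          exact h4
        have h5 : Tendsto (fun F : Finset Λ => prF e F (a (resC F ω) - a ω)) atTop (𝓝 0) :=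
          squeeze_zero_norm (fun F => norm_prF_le M.ortho M.tot F _)
            (by simpa using h2.norm)
        have h6 := ((tendsto_const_nhds (x := a ω)).sub (tendsto_prF M.ortho M.tot (a ω))).sub h5
        rw [sub_self, sub_zero] at h6
        refine h6.congr fun F => ?_
        rw [prF_sub]
        abel
      have h7 := ENNReal.Tendsto.pow (n := 2) h1.enorm
      simpa using h7
  rw [lintegral_zero] at hlim
  have hev := (ENNReal.tendsto_nhds_zero.1 hlim) (ENNReal.ofReal (ε / 4))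
    (by simpa using by positivity)
  obtain ⟨F, hF⟩ := hev.exists
  refine ⟨F, F, fun k ω => if k ∈ F then ⟪e k, a (resC F ω)⟫_ℂ else 0, K, ?_, ?_, ?_, ?_, ?_⟩
  · intro k
    by_cases hk : k ∈ F
    · simp only [hk, if_true]
      exact (continuous_const.inner (hac.comp (continuous_resC F))).measurable
    · simp only [hk, if_false]
      exact measurable_const
  · intro k ω
    by_cases hk : k ∈ F
    · simp only [hk, if_true]
      have h1 := norm_inner_le_norm (𝕜 := ℂ) (e k) (a (resC F ω))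
      rw [M.ortho.1 k, one_mul] at h1
      exact h1.trans (haK _)
    · simp only [hk, if_false, norm_zero]
      exact (norm_nonneg _).trans (haK ω)
  · intro k hk ω
    simp [hk]
  · intro k ω ω' h
    have h1 : resC F ω = resC F ω' := by
      funext j
      unfold resC
      by_cases hj : j ∈ F
      · simp [hj, h j hj]
      · simp [hj]
    simp only [h1]
  · have h1 : ∀ ω, ∑' k, ‖⟪e k, B ω (e 0)⟫_ℂ - (if k ∈ F then ⟪e k, a (resC F ω)⟫_ℂ else 0)‖ₑ ^ 2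
        = ‖B ω (e 0) - prF e F (a (resC F ω))‖ₑ ^ 2 := by
      intro ω
      rw [← me_parseval M.ortho M.tot]
      refine tsum_congr fun k => ?_
      rw [inner_sub_right, inner_prF M.ortho]
    simp_rw [h1]
    calc ∫⁻ ω, ‖B ω (e 0) - prF e F (a (resC F ω))‖ₑ ^ 2 ∂(PP Λ c)
        ≤ ∫⁻ ω, (2 * ‖B ω (e 0) - a ω‖ₑ ^ 2 + 2 * ‖a ω - prF e F (a (resC F ω))‖ₑ ^ 2) ∂(PP Λ c) :=
          lintegral_mono fun ω => me_sq_tri _ _ _
      _ = 2 * ∫⁻ ω, ‖B ω (e 0) - a ω‖ₑ ^ 2 ∂(PP Λ c) +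
          2 * ∫⁻ ω, ‖a ω - prF e F (a (resC F ω))‖ₑ ^ 2 ∂(PP Λ c) := by
          rw [lintegral_add_right, lintegral_const_mul' _ _ (by simp),
            lintegral_const_mul' _ _ (by simp)]
          exact (((hac.sub (hcv F)).enorm.measurable).pow_const 2).const_mul 2
      _ ≤ 2 * ENNReal.ofReal (ε / 4) + 2 * ENNReal.ofReal (ε / 4) := by
          gcongr
          exact (hB n).trans (ENNReal.ofReal_le_ofReal hn)
      _ = ENNReal.ofReal ε := by
          have h2 : (2 : ℝ≥0∞) = ENNReal.ofReal 2 := by simp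
          rw [h2, ← ENNReal.ofReal_mul (by norm_num), ← ENNReal.ofReal_add (by positivity)
            (by positivity)]
          congr 1
          ring

/-! ### Time averages -/

theorem me_contS (hH : CovOp V H) {A : (Λ → ℝ) → (E →L[ℂ] E)} (hA : CovOp V A) :
    Continuous fun p : (Λ → ℝ) × ℝ => (Ut H p.1 (-p.2) * A p.1 * Ut H p.1 p.2) (e 0) := by
  have h1 : Continuous fun p : (Λ → ℝ) × ℝ => Ut H p.1 p.2 (e 0) :=
    continuous_Ut_apply hH continuous_fst continuous_snd continuous_const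
  have h2 : Continuous fun p : (Λ → ℝ) × ℝ => A p.1 (Ut H p.1 p.2 (e 0)) :=
    hA.me_cont continuous_fst h1
  exact continuous_Ut_apply hH continuous_fst continuous_snd.neg h2

theorem me_contω (hH : CovOp V H) {A : (Λ → ℝ) → (E →L[ℂ] E)} (_hA : CovOp V A) (ω : Λ → ℝ) :
    Continuous fun s : ℝ => (Ut H ω (-s) * A ω * Ut H ω s) (e 0) := by
  have h1 : Continuous fun s : ℝ => Ut H ω s (e 0) :=
    continuous_Ut_apply hH continuous_const continuous_id continuous_const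
  have h2 : Continuous fun s : ℝ => A ω (Ut H ω s (e 0)) := (A ω).continuous.comp h1
  exact continuous_Ut_apply hH continuous_const continuous_neg h2

theorem me_contJ (hH : CovOp V H) (hJV : ∀ a u, V a (J u) = J (V a u)) (ω : Λ → ℝ) :
    Continuous fun s : ℝ => Js H J ω s (e 0) := by
  have hc : CovOp V (fun _ : Λ → ℝ => J) := CovOp.const hJV
  have h1 := me_contω (e := e) hH hc ω
  unfold Js
  exact h1

theorem me_shift_int (M : Model c e H) (hH : CovOp V H) (hJV : ∀ a u, V a (J u) = J (V a u))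
    {A : (Λ → ℝ) → (E →L[ℂ] E)} (hA : InK H J A) :
    ∃ C : ℝ, 0 ≤ C ∧ ∀ (T : ℝ) (ω : Λ → ℝ), ‖(∫ s in (0 : ℝ)..T, Js H J ω s (e 0)) -
      ∫ s in (0 : ℝ)..T, (Ut H ω (-s) * A ω * Ut H ω s) (e 0)‖ ≤ C := by
  induction hA with
  | base t =>
    refine ⟨2 * ‖J‖ * |t|, by positivity, fun T ω => ?_⟩
    have h1 : ∀ s : ℝ, (Ut H ω (-s) * Js H J ω t * Ut H ω s) (e 0) = Js H J ω (t + s) (e 0) := by
      intro s
      rw [Js_add]
    simp_rw [h1]
    rw [intervalIntegral.integral_comp_add_left (fun s => Js H J ω s (e 0)) t, add_zero]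
    have hc := me_contJ (e := e) hH hJV ω
    rw [intervalIntegral.integral_interval_sub_interval_comm (hc.intervalIntegrable _ _)
      (hc.intervalIntegrable _ _) (hc.intervalIntegrable _ _)]
    have hb : ∀ s, ‖Js H J ω s (e 0)‖ ≤ ‖J‖ := by
      intro s
      have h2 := (Js H J ω s).le_opNorm (e 0)
      rw [M.ortho.1 0, mul_one] at h2
      exact h2.trans (norm_Js_le (M.sa ω) J s)
    have h2 : ‖∫ s in (0 : ℝ)..t, Js H J ω s (e 0)‖ ≤ ‖J‖ * |t - 0| :=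
      intervalIntegral.norm_integral_le_of_norm_le_const fun s _ => hb s
    have h3 : ‖∫ s in T..(t + T), Js H J ω s (e 0)‖ ≤ ‖J‖ * |t + T - T| :=
      intervalIntegral.norm_integral_le_of_norm_le_const fun s _ => hb s
    rw [sub_zero] at h2
    rw [add_sub_cancel_right] at h3
    calc _ ≤ ‖∫ s in (0 : ℝ)..t, Js H J ω s (e 0)‖ + ‖∫ s in T..(t + T), Js H J ω s (e 0)‖ :=
          norm_sub_le _ _
      _ ≤ 2 * ‖J‖ * |t| := by linarith
  | @half A B hA hB h1 h2 =>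
    obtain ⟨C1, hC1, h1⟩ := h1
    obtain ⟨C2, hC2, h2⟩ := h2
    refine ⟨C1 + C2, by positivity, fun T ω => ?_⟩
    have cA : Continuous fun s : ℝ => (Ut H ω (-s) * A ω * Ut H ω s) (e 0) :=
      me_contω hH (hA.covOp hH hJV) ω
    have cB : Continuous fun s : ℝ => (Ut H ω (-s) * B ω * Ut H ω s) (e 0) :=
      me_contω hH (hB.covOp hH hJV) ω
    have h3 : ∀ s : ℝ, (Ut H ω (-s) * ((1 / 2 : ℂ) • (A ω + B ω)) * Ut H ω s) (e 0) =
        (1 / 2 : ℂ) • ((Ut H ω (-s) * A ω * Ut H ω s) (e 0) +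
          (Ut H ω (-s) * B ω * Ut H ω s) (e 0)) := by
      intro s
      rw [mul_smul_comm, smul_mul_assoc, mul_add, add_mul]
      rfl
    simp_rw [h3]
    rw [intervalIntegral.integral_smul, intervalIntegral.integral_add
      (cA.intervalIntegrable _ _) (cB.intervalIntegrable _ _)]
    set x := ∫ s in (0 : ℝ)..T, Js H J ω s (e 0) with hx
    set y := ∫ s in (0 : ℝ)..T, (Ut H ω (-s) * A ω * Ut H ω s) (e 0) with hy
    set w := ∫ s in (0 : ℝ)..T, (Ut H ω (-s) * B ω * Ut H ω s) (e 0) with hw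
    have h4 : x - (1 / 2 : ℂ) • (y + w) = (1 / 2 : ℂ) • ((x - y) + (x - w)) := by
      have h5 : x = (1 / 2 : ℂ) • (x + x) := by
        rw [← two_smul ℂ x, smul_smul]
        norm_num
      conv_lhs => rw [h5]
      rw [← smul_sub]
      congr 1
      abel
    rw [h4, norm_smul]
    have h6 := norm_add_le (x - y) (x - w)
    have h7 := h1 T ω
    have h8 := h2 T ω
    have h9 : ‖(1 / 2 : ℂ)‖ = 1 / 2 := by norm_num
    rw [h9]
    have h10 := norm_nonneg ((x - y) + (x - w))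
    linarith

theorem me_cs {Ω : Type*} [MeasurableSpace Ω] (μ : Measure Ω) {f : Ω → ℝ≥0∞}
    (hf : AEMeasurable f μ) : (∫⁻ x, f x ∂μ) ^ 2 ≤ μ univ * ∫⁻ x, f x ^ 2 ∂μ := by
  have h1 := ENNReal.lintegral_mul_le_Lp_mul_Lq μ Real.HolderConjugate.two_two hf
    (aemeasurable_const (b := (1 : ℝ≥0∞)))
  simp only [Pi.mul_apply, mul_one, ENNReal.one_rpow, lintegral_const, one_mul] at h1
  calc (∫⁻ x, f x ∂μ) ^ 2 ≤ ((∫⁻ x, f x ^ (2 : ℝ) ∂μ) ^ (1 / (2 : ℝ)) * μ univ ^ (1 / (2 : ℝ))) ^ 2 := by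
        gcongr
    _ = (∫⁻ x, f x ^ (2 : ℝ) ∂μ) * μ univ := by
        rw [mul_pow, ← ENNReal.rpow_natCast, ← ENNReal.rpow_natCast, ← ENNReal.rpow_mul,
          ← ENNReal.rpow_mul]
        norm_num
    _ = μ univ * ∫⁻ x, f x ^ 2 ∂μ := by
        rw [mul_comm]
        congr 1
        refine lintegral_congr fun x => ?_
        exact_mod_cast ENNReal.rpow_natCast (f x) 2

theorem me_avg (M : Model c e H) (hV : Trans e V) (hH : CovOp V H) (hJ : IsSelfAdjoint J)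
    (hJV : ∀ a u, V a (J u) = J (V a u)) {A : (Λ → ℝ) → (E →L[ℂ] E)} (hA : InK H J A)
    {T : ℝ} (hT : 0 ≤ T) :
    ∫⁻ ω, ‖∫ s in (0 : ℝ)..T, (Ut H ω (-s) * A ω * Ut H ω s) (e 0)‖ₑ ^ 2 ∂(PP Λ c) ≤
      ENNReal.ofReal (T ^ 2 * MS c e A) := by
  have := PP_prob Λ M.hc
  have hAc := hA.covOp hH hJV
  have hcont := me_contS (e := e) hH hAc
  have hm : Measurable fun p : (Λ → ℝ) × ℝ =>
      ‖(Ut H p.1 (-p.2) * A p.1 * Ut H p.1 p.2) (e 0)‖ₑ ^ 2 := (hcont.enorm.measurable).pow_const 2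
  calc ∫⁻ ω, ‖∫ s in (0 : ℝ)..T, (Ut H ω (-s) * A ω * Ut H ω s) (e 0)‖ₑ ^ 2 ∂(PP Λ c)
      ≤ ∫⁻ ω, (ENNReal.ofReal T * ∫⁻ s in Ioc (0 : ℝ) T,
          ‖(Ut H ω (-s) * A ω * Ut H ω s) (e 0)‖ₑ ^ 2) ∂(PP Λ c) := by
        refine lintegral_mono fun ω => ?_
        have hcω : Continuous fun s : ℝ => (Ut H ω (-s) * A ω * Ut H ω s) (e 0) :=
          me_contω hH hAc ω
        rw [intervalIntegral.integral_of_le hT]
        calc ‖∫ s in Ioc (0 : ℝ) T, (Ut H ω (-s) * A ω * Ut H ω s) (e 0)‖ₑ ^ 2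
            ≤ (∫⁻ s in Ioc (0 : ℝ) T, ‖(Ut H ω (-s) * A ω * Ut H ω s) (e 0)‖ₑ) ^ 2 := by
              gcongr
              exact enorm_integral_le_lintegral_enorm _
          _ ≤ (volume.restrict (Ioc (0 : ℝ) T)) univ * ∫⁻ s in Ioc (0 : ℝ) T,
                ‖(Ut H ω (-s) * A ω * Ut H ω s) (e 0)‖ₑ ^ 2 :=
              me_cs _ (hcω.enorm.measurable.aemeasurable)
          _ = _ := by
              rw [Measure.restrict_apply_univ, Real.volume_Ioc, sub_zero]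
    _ = ENNReal.ofReal T * ∫⁻ s in Ioc (0 : ℝ) T, ∫⁻ ω,
          ‖(Ut H ω (-s) * A ω * Ut H ω s) (e 0)‖ₑ ^ 2 ∂(PP Λ c) := by
        rw [lintegral_const_mul' _ _ ENNReal.ofReal_ne_top]
        congr 1
        exact lintegral_lintegral_swap hm.aemeasurable
    _ = ENNReal.ofReal T * ∫⁻ _s in Ioc (0 : ℝ) T, ENNReal.ofReal (MS c e A) := by
        congr 1
        refine lintegral_congr fun s => ?_
        rw [me_MS_shift M hV hH hJ hA hAc s, hAc.me_lint M.hc M.ortho]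
    _ = ENNReal.ofReal (T ^ 2 * MS c e A) := by
        rw [lintegral_const, Measure.restrict_apply_univ, Real.volume_Ioc, sub_zero,
          ← ENNReal.ofReal_mul MS_nonneg, ← ENNReal.ofReal_mul hT]
        congr 1
        ring

end limit

/-- Mean ergodic theorem.
Proof. Let `D` be the set of finitely supported probability measures `l = Σ l_i δ_{s_i}` on `ℝ`,
`A_l ω = Σ l_i J(s_i)` (a `CovOp`, self-adjoint, norm ≤ ‖J‖), `N l = E ‖A_l e_0‖²`,
`m = inf N`.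
(1) parallelogram: `E ‖(A_l - A_l') e_0‖² ≤ 2 N l + 2 N l' - 4 m`.
(2) for the translate `l^s` of `l`: `A_{l^s} = U(-s) A_l U(s)`, `N (l^s) = N l`: by the mass
transport twice: `E ‖A U e_0‖² = E ‖(A U)^* e_0‖² = E ‖U^* A^* e_0‖² = E ‖A e_0‖²`
(`A^* = A`); for the reflected `l~`: the matrix of `A_{l~}` is `-` the transpose of that of `A_l`
(`J` antisymmetric, `U` symmetric) so `N l~ = N l` by mass transport.
(3) choose `l_n` with `N l_n ≤ m + 4^{-n}`: by (1), `E ‖(A_{n+1} - A_n) e_x‖² ≤ C 4^{-n}` for all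
`x` (the same for all `x` by covariance), so for a.e. `ω` `A_n(ω) e_x` converges for every `x`;
as `‖A_n‖ ≤ ‖J‖`, `A_n(ω) → B(ω)` strongly for a.e. `ω` (define `B ω = 0` otherwise); `‖B‖ ≤ ‖J‖`.
(4) By (2) and (1), `B` commutes with `U(s)` for rational `s` a.s. (apply (1) to `l_n` and its
translate: `E ‖(A_n - U(-s) A_n U(s)) e_x‖² ≤ 4 · 4^{-n}`), so with `H` (derivative at `0`),
and the matrix of `B` is antisymmetric a.s.
(5) `LocApprox`: approximate `B e_0` by `A_n e_0` (`E ‖(B - A_n) e_0‖² ≤ C 2^{-n}`) and this by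
`β k ω = ⟪e k, A_n (ω restricted to a finite set J, 0 outside) e_0⟫`, `k ∈ F` (continuity of `A_n`
and dominated convergence).
(6) By `h3`, `B e_0 = 0` a.s., so `m = lim N l_n = 0` (dominated convergence).
(7) given `ε` take `l` with `N l ≤ ε`: `‖(1/T) ∫_0^T J(s) ds - (1/T) ∫_0^T U(-s) A_l U(s) ds‖
≤ 2 ‖J‖ Σ l_i |s_i| / T` and `E ‖(1/T) ∫_0^T U(-s) A_l U(s) e_0 ds‖² ≤ N l ≤ ε` by (2) and
Cauchy-Schwarz in `s`. -/
theorem mean_ergodic_main (M : Model c e H) {V : Λ → (E ≃ₗᵢ[ℂ] E)} (hV : Trans e V)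
    (hH : CovOp V H) {J : E →L[ℂ] E} (hJ : IsSelfAdjoint J)
    (hJV : ∀ a u, V a (J u) = J (V a u))
    (hJa : ∀ x y, ⟪e x, J (e y)⟫_ℂ = -⟪e y, J (e x)⟫_ℂ)
    (h3 : ∀ (B : (Λ → ℝ) → (E →L[ℂ] E)) (K : ℝ), (∀ ω, ‖B ω‖ ≤ K) →
      (∀ x y, Measurable fun ω => ⟪e x, B ω (e y)⟫_ℂ) →
      (∀ a x y, ∀ᵐ ω ∂(PP Λ c), ⟪e x, B (fun j => ω (j + a)) (e y)⟫_ℂ
        = ⟪e (x + a), B ω (e (y + a))⟫_ℂ) →
      LocApprox c e B →
      (∀ᵐ ω ∂(PP Λ c), Commute (B ω) (H ω)) →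
      (∀ᵐ ω ∂(PP Λ c), ∀ x y, ⟪e x, B ω (e y)⟫_ℂ = -⟪e y, B ω (e x)⟫_ℂ) →
      ∀ᵐ ω ∂(PP Λ c), B ω (e 0) = 0) :
    Tendsto (fun T : ℝ => (∫⁻ ω, ‖∫ s in (0:ℝ)..T, Js H J ω s (e 0)‖ₑ ^ 2 ∂(PP Λ c))
      / ENNReal.ofReal (T ^ 2)) atTop (𝓝 0) := by
  classical
  have := PP_prob Λ M.hc
  set S : Set ℝ := {r | ∃ D, InK H J D ∧ r = MS c e D} with hS
  have hSb : BddBelow S := ⟨0, by rintro r ⟨D, _, rfl⟩; exact MS_nonneg⟩
  have hSn : S.Nonempty := ⟨_, _, InK.base 0, rfl⟩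
  set m := sInf S with hmdef
  have hm : ∀ D, InK H J D → m ≤ MS c e D := fun D hD => csInf_le hSb ⟨D, hD, rfl⟩
  have hex : ∀ n : ℕ, ∃ D, InK H J D ∧ MS c e D ≤ m + (1 / 16) ^ n := by
    intro n
    have h1 : (0 : ℝ) < (1 / 16) ^ n := by positivity
    obtain ⟨r, ⟨D, hD, rfl⟩, hr⟩ := exists_lt_of_csInf_lt hSn
      (show sInf S < m + (1 / 16) ^ n by rw [← hmdef]; linarith)
    exact ⟨D, hD, hr.le⟩
  choose A hA hAm using hex
  obtain ⟨B, hB1, hB2, hB3, hB4, hB5, hB6⟩ := me_exists_B M hV hH hJ hJV hJa hm A hA hAm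
  have hF := me_fatou M hV hH hJV hm A hA hAm hB6
  have hL := me_locApprox M A (fun n => (hA n).covOp hH hJV)
    (fun n ω => (hA n).norm_le M.sa ω) (fun n => hF n 0)
  have h0 := h3 B ‖J‖ hB1 hB2 hB3 hL hB4 hB5
  have hMS : ∀ n, MS c e (A n) ≤ 4 * (1 / 16) ^ n := by
    intro n
    have h1 := hF n 0
    have h2 : ∫⁻ ω, ‖B ω (e 0) - A n ω (e 0)‖ₑ ^ 2 ∂(PP Λ c) =
        ∫⁻ ω, ‖A n ω (e 0)‖ₑ ^ 2 ∂(PP Λ c) := by
      refine lintegral_congr_ae ?_
      filter_upwards [h0] with ω hω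
      rw [hω, zero_sub, enorm_neg]
    rw [h2, ((hA n).covOp hH hJV).me_lint M.hc M.ortho] at h1
    exact (ENNReal.ofReal_le_ofReal_iff (by positivity)).1 h1
  rw [ENNReal.tendsto_nhds_zero]
  intro ε hε
  obtain ⟨r, hr0, hrε⟩ := ENNReal.lt_iff_exists_nnreal_btwn.1 hε
  have hr : (0 : ℝ) < r := by exact_mod_cast hr0
  obtain ⟨n, hn⟩ : ∃ n : ℕ, 4 * (1 / 16 : ℝ) ^ n ≤ r / 4 := by
    obtain ⟨n, hn⟩ := exists_pow_lt_of_lt_one (show (0 : ℝ) < r / 16 by positivity)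
      (show (1 / 16 : ℝ) < 1 by norm_num)
    exact ⟨n, by linarith⟩
  obtain ⟨C, hC0, hC⟩ := me_shift_int M hH hJV (hA n)
  filter_upwards [eventually_ge_atTop 1, eventually_ge_atTop (4 * C ^ 2 / r)] with T hT1 hT2
  have hT0 : 0 < T := by linarith
  have key : ∫⁻ ω, ‖∫ s in (0:ℝ)..T, Js H J ω s (e 0)‖ₑ ^ 2 ∂(PP Λ c) ≤
      ENNReal.ofReal (2 * C ^ 2 + 2 * (T ^ 2 * MS c e (A n))) := by
    have h2 : (2 : ℝ≥0∞) = ENNReal.ofReal 2 := by simp
    calc ∫⁻ ω, ‖∫ s in (0:ℝ)..T, Js H J ω s (e 0)‖ₑ ^ 2 ∂(PP Λ c)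
        ≤ ∫⁻ ω, (ENNReal.ofReal (2 * C ^ 2) + 2 * ‖∫ s in (0 : ℝ)..T,
            (Ut H ω (-s) * A n ω * Ut H ω s) (e 0)‖ₑ ^ 2) ∂(PP Λ c) := by
          refine lintegral_mono fun ω => ?_
          have h4 := me_sq_tri (∫ s in (0:ℝ)..T, Js H J ω s (e 0))
            (∫ s in (0 : ℝ)..T, (Ut H ω (-s) * A n ω * Ut H ω s) (e 0)) 0
          rw [sub_zero, sub_zero] at h4
          refine h4.trans ?_
          gcongr
          rw [h2, ← ofReal_norm, ← ENNReal.ofReal_pow (norm_nonneg _),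
            ← ENNReal.ofReal_mul (by norm_num)]
          refine ENNReal.ofReal_le_ofReal ?_
          have h5 := pow_le_pow_left₀ (norm_nonneg _) (hC T ω) 2
          linarith
      _ = ENNReal.ofReal (2 * C ^ 2) + 2 * ∫⁻ ω, ‖∫ s in (0 : ℝ)..T,
            (Ut H ω (-s) * A n ω * Ut H ω s) (e 0)‖ₑ ^ 2 ∂(PP Λ c) := by
          rw [lintegral_add_left measurable_const, lintegral_const, measure_univ, mul_one,
            lintegral_const_mul' _ _ (by simp)]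
      _ ≤ ENNReal.ofReal (2 * C ^ 2) + 2 * ENNReal.ofReal (T ^ 2 * MS c e (A n)) := by
          gcongr
          exact me_avg M hV hH hJ hJV (hA n) hT0.le
      _ = _ := by
          rw [h2, ← ENNReal.ofReal_mul (by norm_num), ← ENNReal.ofReal_add (by positivity)]
          have := MS_nonneg (c := c) (e := e) (A := A n)
          positivity
  refine le_trans ?_ hrε.le
  calc (∫⁻ ω, ‖∫ s in (0:ℝ)..T, Js H J ω s (e 0)‖ₑ ^ 2 ∂(PP Λ c)) / ENNReal.ofReal (T ^ 2)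
      ≤ ENNReal.ofReal (2 * C ^ 2 + 2 * (T ^ 2 * MS c e (A n))) / ENNReal.ofReal (T ^ 2) := by
        gcongr
    _ = ENNReal.ofReal ((2 * C ^ 2 + 2 * (T ^ 2 * MS c e (A n))) / T ^ 2) := by
        rw [ENNReal.ofReal_div_of_pos (by positivity)]
    _ ≤ ENNReal.ofReal r := by
        refine ENNReal.ofReal_le_ofReal ?_
        rw [div_le_iff₀ (by positivity)]
        have h5 : 4 * C ^ 2 ≤ T * r := by rwa [div_le_iff₀ hr] at hT2
        have h6 : T ≤ T ^ 2 := by nlinarith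
        have h7 := (hMS n).trans hn
        have h8 : T * r ≤ T ^ 2 * r := by gcongr
        have h9 : T ^ 2 * MS c e (A n) ≤ T ^ 2 * (r / 4) := by gcongr
        linarith
    _ = (r : ℝ≥0∞) := by rw [ENNReal.ofReal_coe_nnreal]

end Pool.Agent.Lib.MP_562b47_mp
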