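import Mathlib
import Pool.Agent.Lib.MP_562b47_mp.Cov

/-!
The second moment of the position as a time integral of the current.
(Anderson model, MP_562b47_mp.)
-/

open MeasureTheory Set Filter Topology Complex
open scoped Real ENNReal NNReal InnerProductSpace

namespace Pool.Agent.Lib.MP_562b47_mp

/-- the current operator `i [H, X_j]` -/
noncomputable def Jc (d : ℕ) (j : Fin d) : Hilb d →L[ℂ] Hilb d :=
  (-I) • (permL (Equiv.addRight (uv d j)) - permL (Equiv.addRight (-(uv d j))))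

/-- the translations of `ℤ^d` as unitary operators -/
noncomputable def VV (d : ℕ) (a : Fin d → ℤ) : Hilb d ≃ₗᵢ[ℂ] Hilb d where
  toFun := permL (Equiv.addRight a)
  invFun := permL (Equiv.addRight a).symm
  map_add' := fun u v => map_add _ u v
  map_smul' := fun c u => map_smul _ c u
  left_inv := fun u => permL_symm_permL _ u
  right_inv := fun u => permL_permL_symm _ u
  norm_map' := fun u => norm_permL _ u

theorem VV_apply (d : ℕ) (a : Fin d → ℤ) (u : Hilb d) :
    VV d a u = permL (Equiv.addRight a) u := rfl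

theorem trans_VV (d : ℕ) : Trans (ee d) (VV d) where
  apply := fun a x => permL_eb (Equiv.addRight a) x

theorem norm_potL_le (Λ : Type*) (c : ℝ) (ω : Λ → ℝ) : ‖potL c ω‖ ≤ |c| :=
  LinearMap.mkContinuous_norm_le _ (abs_nonneg _) _

theorem covOp_HH {d : ℕ} {c : ℝ} (hc : 0 < c) : CovOp (VV d) (HH d c) where
  bdd := ⟨‖lapL d‖ + |c|, fun ω => by
    unfold HH
    exact (norm_add_le _ _).trans (add_le_add le_rfl (norm_potL_le _ c ω))⟩
  cont := fun u => (model hc).cont u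
  cov := fun a ω u => by
    rw [VV_apply, VV_apply]
    exact HH_permL d c ω a u

theorem isSelfAdjoint_Jc (d : ℕ) (j : Fin d) : IsSelfAdjoint (Jc d j) := by
  refine isSelfAdjoint_of_symm fun u v => ?_
  unfold Jc
  simp only [_root_.sub_apply, _root_.smul_apply, inner_sub_left,
    inner_sub_right, inner_smul_left, inner_smul_right, inner_permL]
  have h1 : (Equiv.addRight (uv d j)).symm = Equiv.addRight (-(uv d j)) := Equiv.addRight_symm _
  have h2 : (Equiv.addRight (-(uv d j))).symm = Equiv.addRight (uv d j) := by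
    rw [Equiv.addRight_symm, neg_neg]
  rw [h1, h2, map_neg, Complex.conj_I]
  ring

theorem Jc_apply (d : ℕ) (j : Fin d) (u : Hilb d) (x : Fin d → ℤ) :
    Jc d j u x = -I * (u (x + uv d j) - u (x - uv d j)) := by
  unfold Jc
  simp only [_root_.sub_apply, _root_.smul_apply, lp.coeFn_sub,
    Pi.sub_apply, lp.coeFn_smul, Pi.smul_apply, smul_eq_mul, permL_apply, Equiv.coe_addRight]
  rw [sub_eq_add_neg x]

theorem VV_Jc (d : ℕ) (j : Fin d) (a : Fin d → ℤ) (u : Hilb d) :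
    VV d a (Jc d j u) = Jc d j (VV d a u) := by
  ext x
  rw [VV_apply, VV_apply, permL_apply, Jc_apply, Jc_apply]
  simp only [permL_apply, Equiv.coe_addRight]
  rw [add_right_comm x a, add_sub_right_comm x a]

theorem Jc_antisymm (d : ℕ) (j : Fin d) (x y : Fin d → ℤ) :
    ⟪ee d x, Jc d j (ee d y)⟫_ℂ = -⟪ee d y, Jc d j (ee d x)⟫_ℂ := by
  rw [ee_eq, inner_eb, inner_eb, Jc_apply, Jc_apply]
  simp only [eb_apply]
  have h1 : (x + uv d j = y) ↔ (y - uv d j = x) :=
    ⟨fun h => by rw [← h, add_sub_cancel_right], fun h => by rw [← h, sub_add_cancel]⟩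
  have h2 : (x - uv d j = y) ↔ (y + uv d j = x) :=
    ⟨fun h => by rw [← h, sub_add_cancel], fun h => by rw [← h, add_sub_cancel_right]⟩
  simp only [h1, h2]
  ring

/-! ### The truncated position operator -/

/-- multiplication by the truncated `j`-th coordinate -/
noncomputable def Xn (d : ℕ) (j : Fin d) (n : ℕ) : Hilb d →L[ℂ] Hilb d :=
  potL (n : ℝ) (fun x : Fin d → ℤ => (x j : ℝ))

/-- the commutator `i [H, X_n]` -/
noncomputable def Dn (d : ℕ) (c : ℝ) (ω : (Fin d → ℤ) → ℝ) (j : Fin d) (n : ℕ) :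
    Hilb d →L[ℂ] Hilb d :=
  I • (HH d c ω * Xn d j n - Xn d j n * HH d c ω)

/-- the truncated coordinate -/
noncomputable def mn {d : ℕ} (j : Fin d) (n : ℕ) (x : Fin d → ℤ) : ℝ := clp (n : ℝ) (x j : ℝ)

theorem Xn_apply (d : ℕ) (j : Fin d) (n : ℕ) (u : Hilb d) (x : Fin d → ℤ) :
    Xn d j n u x = (mn j n x : ℂ) * u x := rfl

theorem Dn_apply (d : ℕ) (c : ℝ) (ω : (Fin d → ℤ) → ℝ) (j : Fin d) (n : ℕ) (u : Hilb d)
    (x : Fin d → ℤ) :
    Dn d c ω j n u x = -I * (((mn j n (x + uv d j) - mn j n x : ℝ) : ℂ) * u (x + uv d j)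
      - ((mn j n x - mn j n (x - uv d j) : ℝ) : ℂ) * u (x - uv d j)) := by
  have h0 : Dn d c ω j n u x = I * (HH d c ω (Xn d j n u) x - Xn d j n (HH d c ω u) x) := rfl
  rw [h0, HH_apply, Xn_apply d j n u x, Xn_apply d j n (HH d c ω u) x, HH_apply]
  simp only [Xn_apply]
  have key : ∀ i : Fin d, i ≠ j → mn j n (x + Pi.single i 1) = mn j n x ∧
      mn j n (x - Pi.single i 1) = mn j n x := by
    intro i hi
    unfold mn
    have : (Pi.single i (1:ℤ) : Fin d → ℤ) j = 0 := Pi.single_eq_of_ne (Ne.symm hi) _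
    constructor
    · rw [Pi.add_apply, this, add_zero]
    · rw [Pi.sub_apply, this, sub_zero]
  have hsum : (∑ i : Fin d, (((mn j n (x + Pi.single i 1) : ℝ) : ℂ) * u (x + Pi.single i 1)
        - ((mn j n x : ℝ) : ℂ) * u x
        + (((mn j n (x - Pi.single i 1) : ℝ) : ℂ) * u (x - Pi.single i 1)
        - ((mn j n x : ℝ) : ℂ) * u x)))
      - (((mn j n x : ℝ) : ℂ) * ∑ i : Fin d, ((u (x + Pi.single i 1) - u x)
        + (u (x - Pi.single i 1) - u x)))
      = ((mn j n (x + Pi.single j 1) - mn j n x : ℝ) : ℂ) * u (x + Pi.single j 1)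
      - ((mn j n x - mn j n (x - Pi.single j 1) : ℝ) : ℂ) * u (x - Pi.single j 1) := by
    rw [Finset.mul_sum, ← Finset.sum_sub_distrib]
    rw [Finset.sum_eq_single j]
    · push_cast
      ring
    · intro i _ hi
      rw [(key i hi).1, (key i hi).2]
      ring
    · intro h
      exact absurd (Finset.mem_univ j) h
  unfold uv
  rw [← hsum]
  ring

theorem clp_lip (c v w : ℝ) : |clp c v - clp c w| ≤ |v - w| := by
  unfold clp
  refine (abs_max_sub_max_le_max _ _ _ _).trans ?_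
  rw [sub_self, abs_zero]
  refine max_le (abs_nonneg _) ?_
  refine (abs_min_sub_min_le_max _ _ _ _).trans ?_
  rw [sub_self, abs_zero]
  exact max_le (abs_nonneg _) le_rfl

theorem mn_lip {d : ℕ} (j : Fin d) (n : ℕ) (x : Fin d → ℤ) :
    |mn j n (x + uv d j) - mn j n x| ≤ 1 ∧ |mn j n x - mn j n (x - uv d j)| ≤ 1 := by
  unfold mn uv
  have h1 : (Pi.single j (1:ℤ) : Fin d → ℤ) j = 1 := Pi.single_eq_same _ _
  constructor
  · refine (clp_lip _ _ _).trans ?_
    rw [Pi.add_apply, h1]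
    push_cast
    rw [add_sub_cancel_left, abs_one]
  · refine (clp_lip _ _ _).trans ?_
    rw [Pi.sub_apply, h1]
    push_cast
    rw [sub_sub_cancel, abs_one]

theorem mn_eventually {d : ℕ} (j : Fin d) (x : Fin d → ℤ) :
    ∀ᶠ n : ℕ in atTop, mn j n x = (x j : ℝ) := by
  obtain ⟨N, hN⟩ := exists_nat_ge |(x j : ℝ)|
  filter_upwards [eventually_ge_atTop N] with n hn
  have h1 : |(x j : ℝ)| ≤ n := hN.trans (by exact_mod_cast hn)
  exact clp_of_mem (abs_le.mp h1)

/-- the derivative of `U(-s) X_n U(s) e_0` -/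
theorem hasDerivAt_F {d : ℕ} (c : ℝ) (ω : (Fin d → ℤ) → ℝ) (j : Fin d) (n : ℕ) (s : ℝ) :
    HasDerivAt (fun s => Ut (HH d c) ω (-s) (Xn d j n (Ut (HH d c) ω s (ee d 0))))
      (Ut (HH d c) ω (-s) (Dn d c ω j n (Ut (HH d c) ω s (ee d 0)))) s := by
  have h1 : HasDerivAt (fun s => Ut (HH d c) ω (-s))
      ((-1 : ℝ) • (-I • (HH d c ω * Ut (HH d c) ω (-s)))) s :=
    (hasDerivAt_Ut (HH d c) ω (-s)).scomp s (hasDerivAt_neg s)
  have h2 : HasDerivAt (fun s => Ut (HH d c) ω s (ee d 0))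
      ((-I • (HH d c ω * Ut (HH d c) ω s)) (ee d 0)) s := by
    exact ((ContinuousLinearMap.apply ℂ (Hilb d) (ee d 0)).restrictScalars
      ℝ).hasFDerivAt.comp_hasDerivAt s (hasDerivAt_Ut (HH d c) ω s)
  have h3 : HasDerivAt (fun s => Xn d j n (Ut (HH d c) ω s (ee d 0)))
      (Xn d j n ((-I • (HH d c ω * Ut (HH d c) ω s)) (ee d 0))) s :=
    ((Xn d j n).restrictScalars ℝ).hasFDerivAt.comp_hasDerivAt s h2
  have h1' : HasDerivAt (fun s => (Ut (HH d c) ω (-s)).restrictScalars ℝ)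
      (((-1 : ℝ) • (-I • (HH d c ω * Ut (HH d c) ω (-s)))).restrictScalars ℝ) s :=
    (ContinuousLinearMap.restrictScalarsL ℂ (Hilb d) (Hilb d) ℝ ℝ).hasFDerivAt.comp_hasDerivAt
      s h1
  have h4 := h1'.clm_apply h3
  refine h4.congr_deriv ?_
  have h5 : ∀ u, HH d c ω (Ut (HH d c) ω (-s) u) = Ut (HH d c) ω (-s) (HH d c ω u) := by
    intro u
    have := (Ut_comm (HH d c) ω (-s)).eq
    exact (congrArg (fun A : Hilb d →L[ℂ] Hilb d => A u) this).symm
  change (-1 : ℝ) • (-I • HH d c ω (Ut (HH d c) ω (-s) (Xn d j n (Ut (HH d c) ω s (ee d 0)))))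
    + Ut (HH d c) ω (-s) (Xn d j n (-I • HH d c ω (Ut (HH d c) ω s (ee d 0))))
    = Ut (HH d c) ω (-s) (I • (HH d c ω (Xn d j n (Ut (HH d c) ω s (ee d 0)))
      - Xn d j n (HH d c ω (Ut (HH d c) ω s (ee d 0)))))
  rw [h5, map_smul, map_smul, map_smul, map_sub]
  module

/-- `‖w‖²` in terms of coordinates -/
theorem enorm_sq_eq_tsum {Λ : Type*} (w : L2 Λ) : ‖w‖ₑ ^ 2 = ∑' x, ‖w x‖ₑ ^ 2 := by
  have h1 : ‖w‖ₑ ^ 2 = ENNReal.ofReal (‖w‖ ^ 2) := by
    rw [ENNReal.ofReal_pow (norm_nonneg _), ofReal_norm]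
  rw [h1, L2_norm_sq, ENNReal.ofReal_tsum_of_nonneg (fun _ => by positivity) (L2_summable w)]
  refine tsum_congr fun x => ?_
  rw [ENNReal.ofReal_pow (norm_nonneg _), ofReal_norm]

/-- the commutators are uniformly bounded -/
theorem norm_Dn_le {d : ℕ} (c : ℝ) (ω : (Fin d → ℤ) → ℝ) (j : Fin d) (n : ℕ) (u : Hilb d) :
    ‖Dn d c ω j n u‖ ≤ 2 * ‖u‖ := by
  -- pointwise `|D u x| ≤ |u (x + e)| + |u (x - e)|`
  refine (sq_le_sq₀ (norm_nonneg _) (by positivity)).mp ?_
  rw [mul_pow, L2_norm_sq, L2_norm_sq]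
  have hs1 : Summable fun x => ‖u (x + uv d j)‖ ^ 2 :=
    ((Equiv.addRight (uv d j)).summable_iff (f := fun x => ‖u x‖ ^ 2)).mpr (L2_summable u)
  have hs2 : Summable fun x => ‖u (x - uv d j)‖ ^ 2 :=
    ((Equiv.subRight (uv d j)).summable_iff (f := fun x => ‖u x‖ ^ 2)).mpr (L2_summable u)
  have ht1 : ∑' x, ‖u (x + uv d j)‖ ^ 2 = ∑' x, ‖u x‖ ^ 2 :=
    (Equiv.addRight (uv d j)).tsum_eq (fun x => ‖u x‖ ^ 2)
  have ht2 : ∑' x, ‖u (x - uv d j)‖ ^ 2 = ∑' x, ‖u x‖ ^ 2 :=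
    (Equiv.subRight (uv d j)).tsum_eq (fun x => ‖u x‖ ^ 2)
  calc ∑' x, ‖Dn d c ω j n u x‖ ^ 2
      ≤ ∑' x, (2 * ‖u (x + uv d j)‖ ^ 2 + 2 * ‖u (x - uv d j)‖ ^ 2) := by
        refine Summable.tsum_le_tsum (fun x => ?_) (L2_summable _)
          ((hs1.mul_left 2).add (hs2.mul_left 2))
        rw [Dn_apply, norm_mul, norm_neg, Complex.norm_I, one_mul]
        have h1 := mn_lip j n x
        have h2 : ‖((mn j n (x + uv d j) - mn j n x : ℝ) : ℂ) * u (x + uv d j)
            - ((mn j n x - mn j n (x - uv d j) : ℝ) : ℂ) * u (x - uv d j)‖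
            ≤ ‖u (x + uv d j)‖ + ‖u (x - uv d j)‖ := by
          refine (norm_sub_le _ _).trans (add_le_add ?_ ?_)
          · rw [norm_mul, Complex.norm_real, Real.norm_eq_abs]
            exact mul_le_of_le_one_left (norm_nonneg _) h1.1
          · rw [norm_mul, Complex.norm_real, Real.norm_eq_abs]
            exact mul_le_of_le_one_left (norm_nonneg _) h1.2
        have h3 := norm_nonneg (u (x + uv d j))
        have h4 := norm_nonneg (u (x - uv d j))
        have h5 := norm_nonneg (((mn j n (x + uv d j) - mn j n x : ℝ) : ℂ) * u (x + uv d j)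
            - ((mn j n x - mn j n (x - uv d j) : ℝ) : ℂ) * u (x - uv d j))
        nlinarith [sq_nonneg (‖u (x + uv d j)‖ - ‖u (x - uv d j)‖)]
    _ = 2 ^ 2 * ∑' x, ‖u x‖ ^ 2 := by
        rw [(hs1.mul_left 2).tsum_add (hs2.mul_left 2), tsum_mul_left, tsum_mul_left, ht1, ht2]
        ring

/-- `i [H, X_n] → J` strongly -/
theorem tendsto_Dn {d : ℕ} (c : ℝ) (ω : (Fin d → ℤ) → ℝ) (j : Fin d) (u : Hilb d) :
    Tendsto (fun n => Dn d c ω j n u) atTop (𝓝 (Jc d j u)) := by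
  rw [tendsto_iff_norm_sub_tendsto_zero]
  have hsq : ∀ n, ‖Dn d c ω j n u - Jc d j u‖ ^ 2
      = ∑' x, ‖(((mn j n (x + uv d j) - mn j n x - 1 : ℝ) : ℂ) * u (x + uv d j)
      - ((mn j n x - mn j n (x - uv d j) - 1 : ℝ) : ℂ) * u (x - uv d j))‖ ^ 2 := by
    intro n
    rw [L2_norm_sq]
    refine tsum_congr fun x => ?_
    congr 1
    rw [lp.coeFn_sub, Pi.sub_apply, Dn_apply, Jc_apply, ← mul_sub, norm_mul, norm_neg,
      Complex.norm_I, one_mul]
    congr 1
    push_cast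
    ring
  have hs1 : Summable fun x => ‖u (x + uv d j)‖ ^ 2 :=
    ((Equiv.addRight (uv d j)).summable_iff (f := fun x => ‖u x‖ ^ 2)).mpr (L2_summable u)
  have hs2 : Summable fun x => ‖u (x - uv d j)‖ ^ 2 :=
    ((Equiv.subRight (uv d j)).summable_iff (f := fun x => ‖u x‖ ^ 2)).mpr (L2_summable u)
  have h1 : Tendsto (fun n => ‖Dn d c ω j n u - Jc d j u‖ ^ 2) atTop
      (𝓝 (∑' _ : Fin d → ℤ, (0:ℝ))) := by
    simp only [hsq]
    refine tendsto_tsum_of_dominated_convergence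
      (bound := fun x => 8 * ‖u (x + uv d j)‖ ^ 2 + 8 * ‖u (x - uv d j)‖ ^ 2)
      ((hs1.mul_left 8).add (hs2.mul_left 8)) (fun x => ?_) (Eventually.of_forall fun n x => ?_)
    · refine tendsto_const_nhds.congr' ?_
      filter_upwards [mn_eventually j x, mn_eventually j (x + uv d j),
        mn_eventually j (x - uv d j)] with n e1 e2 e3
      rw [e1, e2, e3]
      have h6 : uv d j j = 1 := Pi.single_eq_same _ _
      have h7 : (((x + uv d j) j : ℤ) : ℝ) - (x j : ℝ) - 1 = 0 := by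
        rw [Pi.add_apply, h6]; push_cast; ring
      have h8 : (x j : ℝ) - (((x - uv d j) j : ℤ) : ℝ) - 1 = 0 := by
        rw [Pi.sub_apply, h6]; push_cast; ring
      rw [h7, h8]
      simp
    · rw [Real.norm_of_nonneg (by positivity)]
      have h2 := mn_lip j n x
      have h3 : ‖((mn j n (x + uv d j) - mn j n x - 1 : ℝ) : ℂ) * u (x + uv d j)
          - ((mn j n x - mn j n (x - uv d j) - 1 : ℝ) : ℂ) * u (x - uv d j)‖
          ≤ 2 * ‖u (x + uv d j)‖ + 2 * ‖u (x - uv d j)‖ := by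
        refine (norm_sub_le _ _).trans (add_le_add ?_ ?_)
        · rw [norm_mul, Complex.norm_real, Real.norm_eq_abs]
          have := abs_le.mp h2.1
          have h9 : |mn j n (x + uv d j) - mn j n x - 1| ≤ 2 := by
            rw [abs_le]; constructor <;> linarith
          gcongr
        · rw [norm_mul, Complex.norm_real, Real.norm_eq_abs]
          have := abs_le.mp h2.2
          have h9 : |mn j n x - mn j n (x - uv d j) - 1| ≤ 2 := by
            rw [abs_le]; constructor <;> linarith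
          gcongr
      have h4 := norm_nonneg (u (x + uv d j))
      have h5 := norm_nonneg (u (x - uv d j))
      have h6 := norm_nonneg (((mn j n (x + uv d j) - mn j n x - 1 : ℝ) : ℂ) * u (x + uv d j)
          - ((mn j n x - mn j n (x - uv d j) - 1 : ℝ) : ℂ) * u (x - uv d j))
      nlinarith [sq_nonneg (‖u (x + uv d j)‖ - ‖u (x - uv d j)‖)]
  rw [tsum_zero] at h1
  have h2 := (Real.continuous_sqrt.tendsto _).comp h1
  rw [Real.sqrt_zero] at h2
  refine h2.congr fun n => ?_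
  simp only [Function.comp]
  rw [Real.sqrt_sq (norm_nonneg _)]

/-- continuity of `t ↦ e^{-itH} u` along a continuous path -/
theorem continuous_Ut {d : ℕ} {c : ℝ} (hc : 0 < c) (ω : (Fin d → ℤ) → ℝ) {g : ℝ → ℝ}
    (hg : Continuous g) {h : ℝ → Hilb d} (hh : Continuous h) :
    Continuous fun s => Ut (HH d c) ω (g s) (h s) :=
  continuous_Ut_apply (covOp_HH hc) (f := fun _ => ω) continuous_const hg hh

/-- `∑ x_j² |⟪e_x, e^{-iTH} e_0⟫|² = ‖∫_0^T e^{isH} J e^{-isH} e_0 ds‖²`.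
Proof: with `X_n` = multiplication by `max (-n) (min x_j n)`: the derivative of
`U(-s) X_n U(s)` is `U(-s) i[H, X_n] U(s)`, so `U(-T) X_n U(T) e_0 = ∫_0^T U(-s) i[H,X_n] U(s) e_0`
(`X_n e_0 = 0`), `i [H, X_n] → J` strongly and boundedly; so `x_j ⟪e_x, U(T) e_0⟫ =
⟪e_x, U(T) ∫_0^T J(s) e_0 ds⟫` for all `x`; then Parseval. -/
theorem moment_eq {d : ℕ} {c : ℝ} (hc : 0 < c) (ω : (Fin d → ℤ) → ℝ) (j : Fin d) {T : ℝ}
    (hT : 0 ≤ T) :
    ∑' x : Fin d → ℤ, ENNReal.ofReal ((x j : ℝ) ^ 2) * ‖⟪ee d x, Ut (HH d c) ω T (ee d 0)⟫_ℂ‖ₑ ^ 2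
      = ‖∫ s in (0:ℝ)..T, Js (HH d c) (Jc d j) ω s (ee d 0)‖ₑ ^ 2 := by
  have hsa : IsSelfAdjoint (HH d c ω) := (model hc).sa ω
  set W : Hilb d := ∫ s in (0:ℝ)..T, Js (HH d c) (Jc d j) ω s (ee d 0) with hW
  -- the truncated identity
  have hn : ∀ n, Ut (HH d c) ω (-T) (Xn d j n (Ut (HH d c) ω T (ee d 0)))
      = ∫ s in (0:ℝ)..T, Ut (HH d c) ω (-s) (Dn d c ω j n (Ut (HH d c) ω s (ee d 0))) := by
    intro n
    rw [intervalIntegral.integral_eq_sub_of_hasDerivAt (fun s _ => hasDerivAt_F c ω j n s)]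
    · have h0 : Xn d j n (Ut (HH d c) ω 0 (ee d 0)) = 0 := by
        rw [Ut_zero]
        ext x
        rw [Xn_apply]
        change (mn j n x : ℂ) * (ee d 0 : Hilb d) x = 0
        rw [ee_eq, eb_apply]
        split_ifs with h
        · subst h
          unfold mn clp
          simp
        · simp
      rw [h0, map_zero, sub_zero]
    · refine Continuous.intervalIntegrable ?_ _ _
      exact continuous_Ut hc ω continuous_neg
        ((Dn d c ω j n).continuous.comp (continuous_Ut hc ω continuous_id continuous_const))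
  have hlim : Tendsto (fun n => ∫ s in (0:ℝ)..T,
      Ut (HH d c) ω (-s) (Dn d c ω j n (Ut (HH d c) ω s (ee d 0)))) atTop (𝓝 W) := by
    refine intervalIntegral.tendsto_integral_filter_of_dominated_convergence
      (fun _ => 2 * ‖ee d 0‖) ?_ ?_ ?_ ?_
    · refine Eventually.of_forall fun n => Continuous.aestronglyMeasurable ?_
      exact continuous_Ut hc ω continuous_neg
        ((Dn d c ω j n).continuous.comp (continuous_Ut hc ω continuous_id continuous_const))
    · refine Eventually.of_forall fun n => ae_of_all _ fun s _ => ?_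
      rw [norm_Ut_apply hsa]
      refine (norm_Dn_le c ω j n _).trans ?_
      rw [norm_Ut_apply hsa]
    · exact intervalIntegrable_const
    · refine ae_of_all _ fun s _ => ?_
      exact ((Ut (HH d c) ω (-s)).continuous.tendsto _).comp (tendsto_Dn c ω j _)
  have hU : ∀ u : Hilb d, Ut (HH d c) ω T (Ut (HH d c) ω (-T) u) = u := by
    intro u
    have := Ut_add (HH d c) ω T (-T)
    rw [add_neg_cancel, Ut_zero] at this
    exact (congrArg (fun A : Hilb d →L[ℂ] Hilb d => A u) this).symm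
  have hlim2 : Tendsto (fun n => Xn d j n (Ut (HH d c) ω T (ee d 0))) atTop
      (𝓝 (Ut (HH d c) ω T W)) := by
    refine (((Ut (HH d c) ω T).continuous.tendsto _).comp hlim).congr fun n => ?_
    simp only [Function.comp]
    rw [← hn, hU]
  have hcoord : ∀ x, (Ut (HH d c) ω T W) x
      = ((x j : ℝ) : ℂ) * ⟪ee d x, Ut (HH d c) ω T (ee d 0)⟫_ℂ := by
    intro x
    have h1 : Tendsto (fun n => ⟪ee d x, Xn d j n (Ut (HH d c) ω T (ee d 0))⟫_ℂ) atTop
        (𝓝 ⟪ee d x, Ut (HH d c) ω T W⟫_ℂ) := tendsto_const_nhds.inner hlim2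
    have h2 : ∀ᶠ n in atTop, ⟪ee d x, Xn d j n (Ut (HH d c) ω T (ee d 0))⟫_ℂ
        = ((x j : ℝ) : ℂ) * ⟪ee d x, Ut (HH d c) ω T (ee d 0)⟫_ℂ := by
      filter_upwards [mn_eventually j x] with n hn
      rw [ee_eq, inner_eb, inner_eb, Xn_apply, hn]
    have h3 := tendsto_nhds_unique (h1.congr' h2) tendsto_const_nhds
    rw [← inner_eb x (Ut (HH d c) ω T W), ← h3]
    rfl
  have hfin : ‖W‖ₑ ^ 2 = ‖Ut (HH d c) ω T W‖ₑ ^ 2 := by
    rw [← ofReal_norm, ← ofReal_norm, norm_Ut_apply hsa]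
  rw [hfin, enorm_sq_eq_tsum]
  refine tsum_congr fun x => ?_
  rw [hcoord, enorm_mul, mul_pow]
  congr 1
  rw [← ofReal_norm, ← ENNReal.ofReal_pow (norm_nonneg _), Complex.norm_real,
    Real.norm_eq_abs, sq_abs]

end Pool.Agent.Lib.MP_562b47_mp
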