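import Mathlib
import Pool.Agent.Lib.MP_562b47_mp.Limit
import Pool.Agent.Lib.MP_562b47_mp.Rank
import Pool.Agent.Lib.MP_562b47_mp.Concrete

/-!
The absolutely continuous part of an Anderson-type family has uniformly infinite multiplicity
(abstract version).  (Anderson model, MP_562b47_mp.)
-/

open MeasureTheory Set Filter Topology Complex
open scoped Real ENNReal NNReal InnerProductSpace

set_option linter.unusedSectionVars false

namespace Pool.Agent.Lib.MP_562b47_mp

variable {Λ : Type*} [DecidableEq Λ] {E : Type*} [NormedAddCommGroup E] [InnerProductSpace ℂ E]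
  [CompleteSpace E] {c : ℝ} {e : Λ → E} {H : (Λ → ℝ) → (E →L[ℂ] E)}

/-- **Main theorem, abstract form**: almost surely, if the absolutely continuous part of `H ω` on
a Borel set `S` is generated by finitely many vectors, then it is trivial. -/
theorem Model.main [Countable Λ] [AddGroup Λ] [Infinite Λ] (M : Model c e H)
    (hcov : ShiftCov e H) :
    ∀ᵐ ω ∂(PP Λ c), ∀ S : Set ℝ, MeasurableSet S → ∀ (n : ℕ) (ψ : Fin n → E),
      (∀ u, ACOn (H ω) S u → u ∈ closure
        (Submodule.span ℂ (Set.range fun p : ℕ × Fin n => ((H ω) ^ p.1) (ψ p.2)) : Set E)) →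
      ∀ u, ACOn (H ω) S u → u = 0 := by
  obtain ⟨φ, hφ, h⟩ := M.final_prob M.hasDens hcov
  filter_upwards [h] with ω hω S hS n ψ hψ
  have htk : ∀ k, 0 < tk (φ k) ∧ tk (φ k) < 1 := fun k => by
    refine ⟨tk_pos _, ?_⟩
    unfold tk
    rw [div_lt_one (by positivity)]
    have : (0:ℝ) ≤ (φ k : ℝ) := Nat.cast_nonneg _
    linarith
  have ht0 : Tendsto (fun k => tk (φ k)) atTop (𝓝 0) :=
    (tendsto_nhdsWithin_iff.mp tendsto_tk).1.comp hφ.tendsto_atTop
  have hMre : ∀ s x y, (((Lm (gI e H φ) x y (ω, s) : ℝ) : ℂ)).re = Lm (gI e H φ) x y (ω, s) :=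
    fun s x y => Complex.ofReal_re _
  have hnrm : ∀ s x y, nrm (fun x y => ((Lm (gI e H φ) x y (ω, s) : ℝ) : ℂ)) x y
      = ((Nn (gI e H φ) x y (ω, s) : ℝ) : ℂ) := by
    intro s x y
    unfold nrm Nn
    simp only [Complex.ofReal_re]
    push_cast
    rfl
  refine det (t := fun k => tk (φ k)) (e := e) M.tot (M.sa ω) htk ht0
    (M := fun s x y => ((Lm (gI e H φ) x y (ω, s) : ℝ) : ℂ)) ?_ ?_ hS ψ hψ
  · filter_upwards [hω] with s hs x y
    have h1 := tendsto_Lm hs.1 x y
    have h2 : ∀ k, MM (H ω) (tk (φ k)) s (e x) (e y)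
        = ((gI e H φ k x y (ω, s) : ℝ) : ℂ) := by
      intro k
      unfold MM gI
      exact (M.im_Gr_eq ω (Zt_im_pos (tk_pos _) s) x y).symm
    simp_rw [h2]
    exact (Complex.continuous_ofReal.tendsto _).comp h1
  · filter_upwards [hω] with s hs m hX x
    have h1 : ∀ X : Finset Λ, (∑ x ∈ X, Nn (gI e H φ) x x (ω, s)) ^ 2
          ≤ m * ∑ x ∈ X, ∑ y ∈ X, Nn (gI e H φ) x y (ω, s) ^ 2 := by
      intro X
      have h2 := hX X
      simp_rw [hnrm, Complex.ofReal_re, Complex.norm_real, Real.norm_eq_abs, sq_abs] at h2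
      exact h2
    have h3 := hs.2 m h1 x
    rw [h3, Complex.ofReal_zero]

end Pool.Agent.Lib.MP_562b47_mp
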