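import Mathlib
import Pool.Agent.Lib.MP_562b47_mp.Main

/-!
The Anderson operator in an arbitrary Hilbert space with a Hilbert basis indexed by `ℤ^d`.
(Anderson model, MP_562b47_mp.)
-/

open MeasureTheory Filter Topology Complex Set
open scoped InnerProductSpace ENNReal

namespace Pool.Agent.Lib.MP_562b47_mp

variable {d : ℕ} {V : Type*} [NormedAddCommGroup V] [InnerProductSpace ℂ V] [CompleteSpace V]

/-- the Anderson operator in a Hilbert space with basis `b` -/
noncomputable def HB (b : HilbertBasis (Fin d → ℤ) ℂ V) (c : ℝ) (ω : (Fin d → ℤ) → ℝ) :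
    V →L[ℂ] V :=
  (b.repr.symm.toContinuousLinearEquiv : Hilb d →L[ℂ] V) ∘L (HH d c ω)
    ∘L (b.repr.toContinuousLinearEquiv : V →L[ℂ] Hilb d)

theorem HB_apply (b : HilbertBasis (Fin d → ℤ) ℂ V) (c : ℝ) (ω : (Fin d → ℤ) → ℝ) (u : V) :
    HB b c ω u = b.repr.symm (HH d c ω (b.repr u)) := rfl

theorem repr_b (b : HilbertBasis (Fin d → ℤ) ℂ V) (x : Fin d → ℤ) : b.repr (b x) = ee d x := by
  rw [b.repr_self]; rfl

theorem symm_ee (b : HilbertBasis (Fin d → ℤ) ℂ V) (x : Fin d → ℤ) :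
    b.repr.symm (ee d x) = b x := by
  rw [← repr_b b x, LinearIsometryEquiv.symm_apply_apply]

theorem isSelfAdjoint_HB (b : HilbertBasis (Fin d → ℤ) ℂ V) {c : ℝ} (hc : 0 < c)
    (ω : (Fin d → ℤ) → ℝ) : IsSelfAdjoint (HB b c ω) := by
  refine ContinuousLinearMap.isSelfAdjoint_iff_isSymmetric.mpr fun u v => ?_
  have h := inner_H_comm ((model (d := d) hc).sa ω) (b.repr u) (b.repr v)
  show ⟪HB b c ω u, v⟫_ℂ = ⟪u, HB b c ω v⟫_ℂ
  rw [HB_apply, HB_apply, ← b.repr.inner_map_map, ← b.repr.inner_map_map u,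
    LinearIsometryEquiv.apply_symm_apply, LinearIsometryEquiv.apply_symm_apply, h]

theorem Rv_HB (b : HilbertBasis (Fin d → ℤ) ℂ V) {c : ℝ} (hc : 0 < c)
    (ω : (Fin d → ℤ) → ℝ) {z : ℂ} (hz : z.im ≠ 0) (u : V) :
    b.repr (Rv (HB b c ω) z u) = Rv (HH d c ω) z (b.repr u) := by
  have hsa := isSelfAdjoint_HB b hc ω
  have hsa' := (model (d := d) hc).sa ω
  have h1 := H_Rv_apply hsa hz u
  have h2 : HH d c ω (b.repr (Rv (HB b c ω) z u)) = b.repr u + z • b.repr (Rv (HB b c ω) z u) := by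
    have := congrArg b.repr h1
    rw [HB_apply, LinearIsometryEquiv.apply_symm_apply, map_add, map_smul] at this
    exact this
  have h3 := congrArg (Rv (HH d c ω) z) h2
  rw [Rv_H_apply hsa' hz, map_add, map_smul] at h3
  exact add_right_cancel h3

theorem inner_Rv_HB (b : HilbertBasis (Fin d → ℤ) ℂ V) {c : ℝ} (hc : 0 < c)
    (ω : (Fin d → ℤ) → ℝ) {z : ℂ} (hz : z.im ≠ 0) (x y : Fin d → ℤ) :
    ⟪b x, Rv (HB b c ω) z (b y)⟫_ℂ = ⟪ee d x, Rv (HH d c ω) z (ee d y)⟫_ℂ := by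
  rw [← b.repr.inner_map_map, Rv_HB b hc ω hz, repr_b, repr_b]

theorem modelB (b : HilbertBasis (Fin d → ℤ) ℂ V) {c : ℝ} (hc : 0 < c) :
    Model c (fun x => b x) (HB b c) where
  hc := hc
  ortho := b.orthonormal
  tot u hu := by
    have h1 : ∀ x, ⟪ee d x, b.repr u⟫_ℂ = 0 := by
      intro x
      rw [← repr_b b x, b.repr.inner_map_map]
      exact hu x
    have h2 := (model (d := d) hc).tot (b.repr u) h1
    exact (LinearIsometryEquiv.map_eq_zero_iff b.repr).mp h2
  sa ω := isSelfAdjoint_HB b hc ω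
  symm ω z x y hz := by
    rw [inner_Rv_HB b hc ω hz, inner_Rv_HB b hc ω hz]
    exact (model (d := d) hc).symm ω z x y hz
  upd ω y v u := by
    rw [HB_apply, HB_apply, (model (d := d) hc).upd ω y v (b.repr u), map_add, map_smul,
      map_smul, symm_ee, ← repr_b b y, b.repr.inner_map_map]
  cont u := by
    have h := (model (d := d) hc).cont (b.repr u)
    exact b.repr.symm.continuous.comp h

theorem shiftCovB (b : HilbertBasis (Fin d → ℤ) ℂ V) {c : ℝ} (hc : 0 < c) :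
    ShiftCov (fun x => b x) (HB b c) := by
  intro a ω z x y hz
  unfold Gr
  rw [inner_Rv_HB b hc _ hz.ne', inner_Rv_HB b hc _ hz.ne']
  exact shiftCov hc a ω z x y hz

/-- action on the basis -/
theorem HB_basis (b : HilbertBasis (Fin d → ℤ) ℂ V) (c : ℝ) (ω : (Fin d → ℤ) → ℝ)
    (j : Fin d → ℤ) :
    HB b c ω (b j) = (clp c (ω j) : ℂ) • b j
      - ∑ i : Fin d, ((b (j + Pi.single i 1) - b j) + (b (j - Pi.single i 1) - b j)) := by
  rw [HB_apply, repr_b]
  apply b.repr.injective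
  rw [LinearIsometryEquiv.apply_symm_apply, map_sub, map_smul, repr_b, map_sum]
  simp only [map_add, map_sub, repr_b]
  ext k
  rw [HH_apply]
  simp only [ee_eq, lp.coeFn_sub, Pi.sub_apply, lp.coeFn_smul, Pi.smul_apply, lp.coeFn_sum,
    Finset.sum_apply, lp.coeFn_add, Pi.add_apply, eb_apply, smul_eq_mul]
  rw [add_comm, sub_eq_add_neg]
  congr 1
  · by_cases h : k = j
    · subst h; simp
    · simp [h]
  · congr 1
    refine Finset.sum_congr rfl fun i _ => ?_
    have e1 : (k + Pi.single i 1 = j) ↔ (k = j - Pi.single i 1) := eq_sub_iff_add_eq.symm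
    have e2 : (k - Pi.single i 1 = j) ↔ (k = j + Pi.single i 1) := sub_eq_iff_eq_add
    simp only [e1, e2]
    ring

end Pool.Agent.Lib.MP_562b47_mp
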