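import Mathlib
import Pool.Agent.Lib.MP_562b47_mp.Commutant
import Pool.Agent.Lib.MP_562b47_mp.MeanErg
import Pool.Agent.Lib.MP_562b47_mp.Moment
import Pool.Agent.Lib.MP_562b47_mp.Escape
import Pool.Agent.Lib.MP_562b47_mp.Transport

/-!
Bounds on the mean square displacement.  (Anderson model, MP_562b47_mp.)
-/

open MeasureTheory Set Filter Topology Complex
open scoped Real ENNReal NNReal InnerProductSpace

set_option linter.unusedSectionVars false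

namespace Pool.Agent.Lib.MP_562b47_mp

/-! ### Purely singular spectrum -/

section sing

variable {E : Type*} [NormedAddCommGroup E] [InnerProductSpace ℂ E] [CompleteSpace E]

/-- `Im z ‖R(z) u‖²` tends to zero in measure -/
def SingV (H : E →L[ℂ] E) (u : E) : Prop :=
  Tendsto (fun k => ∫⁻ s, min 1 (ENNReal.ofReal (Zt (tk k) s).im * ‖Rv H (Zt (tk k) s) u‖ₑ ^ 2)
    ∂kap) atTop (𝓝 0)

theorem ofReal_Pois_eq {H : E →L[ℂ] E} (hH : IsSelfAdjoint H) {u : E} {μ : Measure ℝ}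
    (hμ : IsSpec H u μ) {z : ℂ} (hz : 0 < z.im) :
    ENNReal.ofReal z.im * ‖Rv H z u‖ₑ ^ 2 = ENNReal.ofReal (Pois μ z) := by
  rw [hμ.pois hH hz, ENNReal.ofReal_mul hz.le, ENNReal.ofReal_pow (norm_nonneg _), ofReal_norm]

theorem lint_min_eq {H : E →L[ℂ] E} (hH : IsSelfAdjoint H) {u : E} {μ : Measure ℝ}
    [IsFiniteMeasure μ] (hμ : IsSpec H u μ) (k : ℕ) :
    ∫⁻ s, min 1 (ENNReal.ofReal (Zt (tk k) s).im * ‖Rv H (Zt (tk k) s) u‖ₑ ^ 2) ∂kap
      = ENNReal.ofReal (∫ s, min 1 (Pois μ (Zt (tk k) s)) ∂kap) := by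
  rw [ofReal_integral_eq_lintegral_ofReal]
  · refine lintegral_congr fun s => ?_
    rw [ofReal_Pois_eq hH hμ (Zt_im_pos (tk_pos k) s), ENNReal.ofReal_min, ENNReal.ofReal_one]
  · exact integrable_min_one (measurable_Pois μ (tk k)) fun s => Pois_nonneg μ
      (Zt_im_pos (tk_pos k) s)
  · exact ae_of_all _ fun s => le_min zero_le_one (Pois_nonneg μ (Zt_im_pos (tk_pos k) s))

theorem SingV.sing {H : E →L[ℂ] E} (hH : IsSelfAdjoint H) {u : E} {μ : Measure ℝ}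
    [IsFiniteMeasure μ] (hμ : IsSpec H u μ) (h : SingV H u) : μ ⟂ₘ volume := by
  refine mutuallySingular_of_pois fun ε hε => ?_
  have h1 : ∀ᶠ k in atTop, ∫⁻ s, min 1 (ENNReal.ofReal (Zt (tk k) s).im
      * ‖Rv H (Zt (tk k) s) u‖ₑ ^ 2) ∂kap < ENNReal.ofReal ε :=
    h.eventually_lt_const (by simpa using hε)
  refine (h1.mono fun k hk => ?_).frequently
  rw [lint_min_eq hH hμ] at hk
  exact (ENNReal.ofReal_lt_ofReal_iff hε).mp hk |>.le

theorem singV_of_sing {H : E →L[ℂ] E} (hH : IsSelfAdjoint H) {u : E} {μ : Measure ℝ}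
    [IsFiniteMeasure μ] (hμ : IsSpec H u μ) (h : μ ⟂ₘ volume) : SingV H u := by
  unfold SingV
  simp_rw [lint_min_eq hH hμ]
  rw [← ENNReal.ofReal_zero]
  refine ENNReal.tendsto_ofReal ?_
  have h1 := (pois_tendsto μ).comp tendsto_tk
  refine tendsto_of_tendsto_of_tendsto_of_le_of_le tendsto_const_nhds h1
    (fun k => integral_nonneg fun s => le_min zero_le_one
      (Pois_nonneg μ (Zt_im_pos (tk_pos k) s))) fun k => ?_
  have h2 : ∀ᵐ s ∂kap, Dens μ s = 0 := by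
    rw [← Measure.rnDeriv_eq_zero] at h
    filter_upwards [kap_ac.ae_le h] with s hs
    unfold Dens
    rw [hs]; simp
  refine integral_mono_ae (integrable_min_one (measurable_Pois μ (tk k)) fun s => Pois_nonneg μ
      (Zt_im_pos (tk_pos k) s)) (integrable_min_one
      ((measurable_Pois μ (tk k)).sub (measurable_Dens μ)).abs fun s => abs_nonneg _) ?_
  filter_upwards [h2] with s hs
  rw [hs, sub_zero]
  exact min_le_min_left 1 (le_abs_self _)

theorem sq_two (u v : ℝ≥0∞) : (u + v) ^ 2 ≤ 2 * u ^ 2 + 2 * v ^ 2 := by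
  have h := sq_three u v 0
  by_cases hu : u = ⊤
  · subst hu; simp
  by_cases hv : v = ⊤
  · subst hv; simp
  lift u to ℝ≥0 using hu
  lift v to ℝ≥0 using hv
  norm_cast
  rw [← NNReal.coe_le_coe]
  push_cast
  nlinarith [sq_nonneg ((u:ℝ) - v)]

theorem min_one_two_mul (a b : ℝ≥0∞) : min 1 (2 * a + 2 * b) ≤ 2 * min 1 a + 2 * min 1 b := by
  refine (min_one_add_le_enn _ _).trans (add_le_add ?_ ?_)
  · rcases le_total 1 a with h | h
    · rw [min_eq_left h, mul_one]; exact (min_le_left _ _).trans (by norm_num)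
    · rw [min_eq_right h]; exact min_le_right _ _
  · rcases le_total 1 b with h | h
    · rw [min_eq_left h, mul_one]; exact (min_le_left _ _).trans (by norm_num)
    · rw [min_eq_right h]; exact min_le_right _ _

theorem measurable_ImRv {H : E →L[ℂ] E} (hH : IsSelfAdjoint H) (u : E) (k : ℕ) :
    Measurable fun s => ENNReal.ofReal (Zt (tk k) s).im * ‖Rv H (Zt (tk k) s) u‖ₑ ^ 2 := by
  obtain ⟨μ, hfin, hμ⟩ := exists_isSpec hH u
  have h1 : ∀ s, ENNReal.ofReal (Zt (tk k) s).im * ‖Rv H (Zt (tk k) s) u‖ₑ ^ 2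
      = ENNReal.ofReal (Pois μ (Zt (tk k) s)) := fun s =>
    ofReal_Pois_eq hH hμ (Zt_im_pos (tk_pos k) s)
  simp_rw [h1]
  exact (measurable_Pois μ (tk k)).ennreal_ofReal

theorem lint_add_le {H : E →L[ℂ] E} (hH : IsSelfAdjoint H) (u v : E) (k : ℕ) :
    ∫⁻ s, min 1 (ENNReal.ofReal (Zt (tk k) s).im * ‖Rv H (Zt (tk k) s) (u + v)‖ₑ ^ 2) ∂kap
      ≤ 2 * ∫⁻ s, min 1 (ENNReal.ofReal (Zt (tk k) s).im * ‖Rv H (Zt (tk k) s) u‖ₑ ^ 2) ∂kap
        + 2 * ∫⁻ s, min 1 (ENNReal.ofReal (Zt (tk k) s).im * ‖Rv H (Zt (tk k) s) v‖ₑ ^ 2) ∂kap := by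
  rw [← lintegral_const_mul _ (measurable_const.min (measurable_ImRv hH u k)),
    ← lintegral_const_mul _ (measurable_const.min (measurable_ImRv hH v k)),
    ← lintegral_add_left ((measurable_const.min (measurable_ImRv hH u k)).const_mul 2)]
  refine lintegral_mono fun s => ?_
  refine le_trans (min_le_min_left 1 ?_) (min_one_two_mul _ _)
  rw [map_add]
  calc ENNReal.ofReal (Zt (tk k) s).im * ‖Rv H (Zt (tk k) s) u + Rv H (Zt (tk k) s) v‖ₑ ^ 2
      ≤ ENNReal.ofReal (Zt (tk k) s).im * (2 * ‖Rv H (Zt (tk k) s) u‖ₑ ^ 2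
        + 2 * ‖Rv H (Zt (tk k) s) v‖ₑ ^ 2) := by
        gcongr
        exact (pow_le_pow_left' (enorm_add_le _ _) 2).trans (sq_two _ _)
    _ = _ := by ring

theorem SingV.add {H : E →L[ℂ] E} (hH : IsSelfAdjoint H) {u v : E} (hu : SingV H u)
    (hv : SingV H v) : SingV H (u + v) := by
  have h1 := (ENNReal.Tendsto.const_mul (a := 2) hu (Or.inr (by norm_num))).add
    (ENNReal.Tendsto.const_mul (a := 2) hv (Or.inr (by norm_num)))
  rw [mul_zero, add_zero] at h1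
  exact tendsto_of_tendsto_of_tendsto_of_le_of_le tendsto_const_nhds h1 (fun k => bot_le)
    fun k => lint_add_le hH u v k

theorem singV_zero (H : E →L[ℂ] E) : SingV H 0 := by
  unfold SingV
  simp

theorem SingV.smul {H : E →L[ℂ] E} {u : E} (a : ℂ) (hu : SingV H u) :
    SingV H (a • u) := by
  have hC : ENNReal.ofReal (max 1 (‖a‖ ^ 2)) ≠ ⊤ := ENNReal.ofReal_ne_top
  have h1 := ENNReal.Tendsto.const_mul (a := ENNReal.ofReal (max 1 (‖a‖ ^ 2))) hu (Or.inr hC)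
  rw [mul_zero] at h1
  refine tendsto_of_tendsto_of_tendsto_of_le_of_le tendsto_const_nhds h1 (fun k => bot_le)
    fun k => ?_
  change _ ≤ ENNReal.ofReal (max 1 (‖a‖ ^ 2)) * _
  rw [← lintegral_const_mul' _ _ hC]
  refine lintegral_mono fun s => ?_
  rw [map_smul, enorm_smul]
  have h2 : ‖a‖ₑ ^ 2 ≤ ENNReal.ofReal (max 1 (‖a‖ ^ 2)) := by
    rw [← ofReal_norm, ← ENNReal.ofReal_pow (norm_nonneg _)]
    exact ENNReal.ofReal_le_ofReal (le_max_right _ _)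
  have h3 : 1 ≤ ENNReal.ofReal (max 1 (‖a‖ ^ 2)) := by
    rw [← ENNReal.ofReal_one]
    exact ENNReal.ofReal_le_ofReal (le_max_left _ _)
  set X := ENNReal.ofReal (Zt (tk k) s).im * ‖Rv H (Zt (tk k) s) u‖ₑ ^ 2 with hX
  have e1 : ENNReal.ofReal (Zt (tk k) s).im * (‖a‖ₑ * ‖Rv H (Zt (tk k) s) u‖ₑ) ^ 2
      = ‖a‖ₑ ^ 2 * X := by rw [hX]; ring
  rw [e1]
  rcases le_total 1 X with h | h
  · rw [min_eq_left h, mul_one]
    exact (min_le_left _ _).trans h3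
  · rw [min_eq_right h]
    exact (min_le_right _ _).trans (by gcongr)

/-- closure -/
theorem singV_of_approx {H : E →L[ℂ] E} (hH : IsSelfAdjoint H) {u : E}
    (h : ∀ ε : ℝ, 0 < ε → ∃ v, SingV H v ∧ ‖u - v‖ ^ 2 ≤ ε) : SingV H u := by
  unfold SingV
  rw [ENNReal.tendsto_atTop_zero]
  intro ε hε
  obtain ⟨δ, hδ0, hδ⟩ := exists_ofReal_le (ENNReal.div_pos (ENNReal.half_pos hε.ne').ne'
    (by norm_num : (2:ℝ≥0∞) ≠ ⊤))
  obtain ⟨v, hv, huv⟩ := h δ hδ0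
  have h1 := ENNReal.Tendsto.const_mul (a := 2) hv (Or.inr (by norm_num))
  rw [mul_zero, ENNReal.tendsto_atTop_zero] at h1
  obtain ⟨N, hN⟩ := h1 (ε / 2) (ENNReal.half_pos hε.ne')
  refine ⟨N, fun k hk => ?_⟩
  have h2 := lint_add_le hH v (u - v) k
  rw [add_sub_cancel] at h2
  refine h2.trans ?_
  have h3 : ∫⁻ s, min 1 (ENNReal.ofReal (Zt (tk k) s).im * ‖Rv H (Zt (tk k) s) (u - v)‖ₑ ^ 2) ∂kap
      ≤ ENNReal.ofReal δ := by
    refine (lintegral_mono fun s => min_le_right _ _).trans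
      ((lintegral_Rv_le hH (tk_pos k) (u - v)).trans ?_)
    rw [← ofReal_norm, ← ENNReal.ofReal_pow (norm_nonneg _)]
    exact ENNReal.ofReal_le_ofReal huv
  calc _ ≤ ε / 2 + 2 * ENNReal.ofReal δ := add_le_add (hN k hk) (by gcongr)
    _ ≤ ε / 2 + ε / 2 := by
        gcongr
        rw [mul_comm]
        exact (ENNReal.le_div_iff_mul_le (Or.inl (by norm_num)) (Or.inl (by norm_num))).mp hδ
    _ = ε := ENNReal.add_halves ε

end sing

section model

variable {Λ : Type*} [DecidableEq Λ] [AddCommGroup Λ] [Countable Λ] {E : Type*}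
  [NormedAddCommGroup E] [InnerProductSpace ℂ E] [CompleteSpace E] {c : ℝ} {e : Λ → E}
  {H : (Λ → ℝ) → (E →L[ℂ] E)}

theorem Model.singV_all (M : Model c e H) {ω : Λ → ℝ} (h : ∀ x, SingV (H ω) (e x)) (u : E) :
    SingV (H ω) u := by
  refine singV_of_approx (M.sa ω) fun ε hε => ?_
  have h1 : Tendsto (fun s : Finset Λ => ‖u - ∑ w ∈ s, ⟪e w, u⟫_ℂ • e w‖ ^ 2) atTop (𝓝 0) := by
    have h2 : Tendsto (fun s : Finset Λ => u - ∑ w ∈ s, ⟪e w, u⟫_ℂ • e w) atTop (𝓝 (u - u)) :=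
      tendsto_const_nhds.sub (M.hasSum_repr u)
    rw [sub_self] at h2
    have h3 := h2.norm.pow 2
    simpa using h3
  obtain ⟨s, hs⟩ := (h1.eventually_le_const hε).exists
  refine ⟨_, ?_, hs⟩
  induction s using Finset.induction_on with
  | empty => rw [Finset.sum_empty]; exact singV_zero _
  | insert w s hw ih =>
    clear hs ih
    have h2 : ∀ s : Finset Λ, SingV (H ω) (∑ w ∈ s, ⟪e w, u⟫_ℂ • e w) := by
      intro s
      induction s using Finset.induction_on with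
      | empty => rw [Finset.sum_empty]; exact singV_zero _
      | insert w s hw ih =>
        rw [Finset.sum_insert hw]
        exact SingV.add (M.sa ω) ((h w).smul _) ih
    exact h2 _

theorem Model.singV_shift (M : Model c e H) (hcov : ShiftCov e H) (a : Λ) {ω : Λ → ℝ}
    (h : SingV (H fun j => ω (j + a)) (e 0)) : SingV (H ω) (e a) := by
  unfold SingV at h ⊢
  refine h.congr fun k => lintegral_congr fun s => ?_
  have hz := Zt_im_pos (tk_pos k) s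
  have h1 : ∀ (ω : Λ → ℝ) (x : Λ), ENNReal.ofReal (Zt (tk k) s).im
      * ‖Rv (H ω) (Zt (tk k) s) (e x)‖ₑ ^ 2 = ENNReal.ofReal (Gr e H ω (Zt (tk k) s) x x).im := by
    intro ω x
    unfold Gr
    rw [im_inner_Rv (M.sa ω) hz.ne', ENNReal.ofReal_mul hz.le, ENNReal.ofReal_pow (norm_nonneg _),
      ofReal_norm]
  rw [h1, h1, hcov a ω _ 0 0 hz, zero_add]

theorem Model.ae_singV (M : Model c e H) (hcov : ShiftCov e H)
    (h : ∀ᵐ ω ∂(PP Λ c), ∀ μ : Measure ℝ, IsFiniteMeasure μ → IsSpec (H ω) (e 0) μ →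
      μ ⟂ₘ volume) : ∀ᵐ ω ∂(PP Λ c), ∀ u, SingV (H ω) u := by
  have := unif_prob M.hc
  have h1 : ∀ᵐ ω ∂(PP Λ c), SingV (H ω) (e 0) := by
    filter_upwards [h] with ω hω
    obtain ⟨μ, hfin, hμ⟩ := exists_isSpec (M.sa ω) (e 0)
    exact singV_of_sing (M.sa ω) hμ (hω μ hfin hμ)
  have h2 : ∀ᵐ ω ∂(PP Λ c), ∀ a : Λ, SingV (H fun j => ω (j + a)) (e 0) := by
    rw [ae_all_iff]
    intro a
    have h3 : MeasurePreserving (fun ω : Λ → ℝ => fun j => ω (j + a)) (PP Λ c) (PP Λ c) :=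
      measurePreserving_shift (Λ := Λ) (unif c) a
    exact h3.quasiMeasurePreserving.ae h1
  filter_upwards [h2] with ω hω u
  exact M.singV_all (fun a => M.singV_shift hcov a (hω a)) u

end model

/-! ### The mean square displacement -/

variable {d : ℕ}

/-- `∑ |x|² |ψ(t,x)|²` -/
noncomputable def sqd (d : ℕ) (c : ℝ) (t : ℝ) (ω : (Fin d → ℤ) → ℝ) : ℝ≥0∞ :=
  ∑' x : Fin d → ℤ, ENNReal.ofReal (∑ i, (x i : ℝ) ^ 2)
    * ‖⟪ee d x, Ut (HH d c) ω t (ee d 0)⟫_ℂ‖ₑ ^ 2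

theorem sqd_eq {c : ℝ} (hc : 0 < c) {t : ℝ} (ht : 0 ≤ t) (ω : (Fin d → ℤ) → ℝ) :
    sqd d c t ω = ∑ j, ‖∫ s in (0:ℝ)..t, Js (HH d c) (Jc d j) ω s (ee d 0)‖ₑ ^ 2 := by
  unfold sqd
  simp_rw [← moment_eq hc ω _ ht]
  rw [← Summable.tsum_finsetSum fun i _ => ENNReal.summable]
  refine tsum_congr fun x => ?_
  rw [ENNReal.ofReal_sum_of_nonneg fun i _ => by positivity, Finset.sum_mul]

theorem measurable_sqd {c : ℝ} (hc : 0 < c) :
    Measurable fun p : ℝ × ((Fin d → ℤ) → ℝ) => sqd d c p.1 p.2 := by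
  unfold sqd
  refine Measurable.tsum fun x => ?_
  refine Measurable.const_mul ?_ _
  have h1 : Continuous fun p : ℝ × ((Fin d → ℤ) → ℝ) => Ut (HH d c) p.2 p.1 (ee d 0) :=
    continuous_Ut_apply (covOp_HH hc) continuous_snd continuous_fst continuous_const
  have h2 : Continuous fun p : ℝ × ((Fin d → ℤ) → ℝ) =>
      ⟪ee d x, Ut (HH d c) p.2 p.1 (ee d 0)⟫_ℂ := continuous_const.inner h1
  exact h2.enorm.measurable.pow_const 2

/-- **No ballistic transport.** -/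
theorem no_ballistic {c : ℝ} (hc : 0 < c) :
    Tendsto (fun T : ℝ => (∫⁻ ω, sqd d c T ω ∂(PP (Fin d → ℤ) c)) / ENNReal.ofReal (T ^ 2)) atTop
      (𝓝 0) := by
  have h1 : ∀ j : Fin d, Tendsto (fun T : ℝ =>
      (∫⁻ ω, ‖∫ s in (0:ℝ)..T, Js (HH d c) (Jc d j) ω s (ee d 0)‖ₑ ^ 2 ∂(PP (Fin d → ℤ) c))
        / ENNReal.ofReal (T ^ 2)) atTop (𝓝 0) := fun j =>
    mean_ergodic_main (model hc) (trans_VV d) (covOp_HH hc) (isSelfAdjoint_Jc d j) (VV_Jc d j)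
      (Jc_antisymm d j) fun B K hK hBm hBc hBl hcomm hanti =>
        commutant_antisymm (model hc) (shiftCov hc) hK hBm hBc hBl hcomm hanti
  have h2 : Tendsto (fun T : ℝ => ∑ j : Fin d,
      (∫⁻ ω, ‖∫ s in (0:ℝ)..T, Js (HH d c) (Jc d j) ω s (ee d 0)‖ₑ ^ 2 ∂(PP (Fin d → ℤ) c))
        / ENNReal.ofReal (T ^ 2)) atTop (𝓝 0) := by
    have := tendsto_finsetSum Finset.univ fun j _ => h1 j
    simpa using this
  refine h2.congr' ?_
  filter_upwards [eventually_ge_atTop 0] with T hT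
  simp_rw [sqd_eq hc hT]
  rw [lintegral_finsetSum']
  · simp_rw [div_eq_mul_inv]
    rw [Finset.sum_mul]
  · intro j _
    have h3 : ∀ ω : (Fin d → ℤ) → ℝ,
        ‖∫ s in (0:ℝ)..T, Js (HH d c) (Jc d j) ω s (ee d 0)‖ₑ ^ 2
        = ∑' x : Fin d → ℤ, ENNReal.ofReal ((x j : ℝ) ^ 2)
          * ‖⟪ee d x, Ut (HH d c) ω T (ee d 0)⟫_ℂ‖ₑ ^ 2 := fun ω => (moment_eq hc ω j hT).symm
    simp_rw [h3]
    refine Measurable.aemeasurable (Measurable.tsum fun x => ?_)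
    refine Measurable.const_mul ?_ _
    have h1 : Continuous fun ω : (Fin d → ℤ) → ℝ => Ut (HH d c) ω T (ee d 0) :=
      continuous_Ut_apply (covOp_HH hc) continuous_id continuous_const continuous_const
    exact (continuous_const.inner h1).enorm.measurable.pow_const 2

/-- the cube -/
noncomputable def cube (d R : ℕ) : Finset (Fin d → ℤ) :=
  Fintype.piFinset fun _ => Finset.Icc (-(R:ℤ)) R

theorem card_cube (d R : ℕ) : (cube d R).card = (2 * R + 1) ^ d := by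
  unfold cube
  rw [Fintype.card_piFinset, Finset.prod_const, Int.card_Icc, Finset.card_univ, Fintype.card_fin]
  congr 1
  omega

theorem sq_le_of_notMem {R : ℕ} {x : Fin d → ℤ} (hx : x ∉ cube d R) :
    (R : ℝ) ^ 2 ≤ ∑ i, (x i : ℝ) ^ 2 := by
  unfold cube at hx
  rw [Fintype.mem_piFinset] at hx
  push Not at hx
  obtain ⟨i, hi⟩ := hx
  rw [Finset.mem_Icc] at hi
  have h1 : (R:ℤ) ^ 2 ≤ (x i) ^ 2 := by
    rw [sq_le_sq]
    rw [abs_of_nonneg (by positivity : (0:ℤ) ≤ R)]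
    by_contra h
    push Not at h
    have := abs_lt.mp h
    exact hi ⟨this.1.le, this.2.le⟩
  have h2 : (R:ℝ) ^ 2 ≤ (x i : ℝ) ^ 2 := by exact_mod_cast h1
  exact h2.trans (Finset.single_le_sum (f := fun i => (x i : ℝ) ^ 2) (fun i _ => by positivity)
    (Finset.mem_univ i))

theorem le_sqd {c : ℝ} (hc : 0 < c) (R : ℕ) (t : ℝ) (ω : (Fin d → ℤ) → ℝ) :
    ENNReal.ofReal ((R:ℝ) ^ 2 * (1 - ∑ x ∈ cube d R, ‖⟪ee d x, Ut (HH d c) ω t (ee d 0)⟫_ℂ‖ ^ 2))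
      ≤ sqd d c t ω := by
  set M := model (d := d) hc
  have h1 := M.parseval_enorm (Ut (HH d c) ω t (ee d 0))
  have h2 : ‖Ut (HH d c) ω t (ee d 0)‖ₑ ^ 2 = 1 := by
    rw [← ofReal_norm, norm_Ut_apply (M.sa ω), M.ortho.1]; simp
  rw [h2] at h1
  have h3 : ∑ x ∈ cube d R, ‖⟪ee d x, Ut (HH d c) ω t (ee d 0)⟫_ℂ‖ₑ ^ 2
      = ENNReal.ofReal (∑ x ∈ cube d R, ‖⟪ee d x, Ut (HH d c) ω t (ee d 0)⟫_ℂ‖ ^ 2) := by
    rw [ENNReal.ofReal_sum_of_nonneg fun i _ => by positivity]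
    refine Finset.sum_congr rfl fun x _ => ?_
    rw [ENNReal.ofReal_pow (norm_nonneg _), ofReal_norm]
  have h4 : 1 ≤ ENNReal.ofReal (∑ x ∈ cube d R, ‖⟪ee d x, Ut (HH d c) ω t (ee d 0)⟫_ℂ‖ ^ 2)
      + ∑' x, (if x ∈ cube d R then 0 else ‖⟪ee d x, Ut (HH d c) ω t (ee d 0)⟫_ℂ‖ₑ ^ 2) := by
    rw [← h3]
    have h5 : ∑ x ∈ cube d R, ‖⟪ee d x, Ut (HH d c) ω t (ee d 0)⟫_ℂ‖ₑ ^ 2
        = ∑' x, (if x ∈ cube d R then ‖⟪ee d x, Ut (HH d c) ω t (ee d 0)⟫_ℂ‖ₑ ^ 2 else 0) := by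
      rw [tsum_eq_sum (s := cube d R)]
      · exact Finset.sum_congr rfl fun x hx => by rw [if_pos hx]
      · intro x hx; rw [if_neg hx]
    rw [h5, ← ENNReal.tsum_add]
    refine h1.le.trans (ENNReal.tsum_le_tsum fun x => ?_)
    by_cases hx : x ∈ cube d R
    · simp [hx]
    · simp [hx]
  have h5 : ENNReal.ofReal (1 - ∑ x ∈ cube d R, ‖⟪ee d x, Ut (HH d c) ω t (ee d 0)⟫_ℂ‖ ^ 2)
      ≤ ∑' x, (if x ∈ cube d R then 0 else ‖⟪ee d x, Ut (HH d c) ω t (ee d 0)⟫_ℂ‖ₑ ^ 2) := by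
    rw [ENNReal.ofReal_sub _ (Finset.sum_nonneg fun x _ => by positivity), ENNReal.ofReal_one]
    exact tsub_le_iff_left.mpr h4
  rw [ENNReal.ofReal_mul (by positivity)]
  refine (mul_le_mul' le_rfl h5).trans ?_
  rw [← ENNReal.tsum_mul_left]
  unfold sqd
  refine ENNReal.tsum_le_tsum fun x => ?_
  by_cases hx : x ∈ cube d R
  · simp [hx]
  · rw [if_neg hx]
    gcongr
    exact sq_le_of_notMem hx

theorem lower_bound (hd : 1 ≤ d) {c : ℝ} (hc : 0 < c)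
    (hns : ¬ ∀ᵐ ω ∂(PP (Fin d → ℤ) c), ∀ μ : Measure ℝ, IsFiniteMeasure μ →
      IsSpec (HH d c ω) (ee d 0) μ → μ ⟂ₘ volume) (A : ℝ) :
    ∃ T₀ : ℝ, ∀ T : ℝ, T₀ ≤ T → ENNReal.ofReal (A * T ^ (1 + 2 / (d:ℝ)))
      ≤ ∫⁻ t in Ioc 0 T, ∫⁻ ω, sqd d c t ω ∂(PP (Fin d → ℤ) c) := by
  have hne : Nonempty (Fin d) := ⟨⟨0, hd⟩⟩
  have := PP_prob (Fin d → ℤ) hc
  set M := model (d := d) hc
  obtain ⟨δ, hδ, h⟩ := escape M (covOp_HH hc) (shiftCov hc) hns
  have hd0 : (0:ℝ) < d := by exact_mod_cast hd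
  set a : ℝ := √(|A| / δ) with ha
  have ha0 : 0 ≤ a := Real.sqrt_nonneg _
  obtain ⟨T₀, hT₀⟩ := h ((2 * a + 3) ^ d)
  refine ⟨max 1 T₀, fun T hT => ?_⟩
  have hT1 : 1 ≤ T := (le_max_left _ _).trans hT
  have hT0 : 0 < T := by linarith
  set R : ℕ := ⌈a * T ^ (1 / (d:ℝ))⌉₊ with hR
  have hTd : 1 ≤ T ^ (1 / (d:ℝ)) := Real.one_le_rpow hT1 (by positivity)
  have hR1 : a * T ^ (1 / (d:ℝ)) ≤ R := Nat.le_ceil _
  have hR2 : (R:ℝ) ≤ a * T ^ (1 / (d:ℝ)) + 1 := (Nat.ceil_lt_add_one (by positivity)).le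
  have hcard : ((cube d R).card : ℝ) ≤ (2 * a + 3) ^ d * T := by
    rw [card_cube]
    push_cast
    have h1 : 2 * (R:ℝ) + 1 ≤ (2 * a + 3) * T ^ (1 / (d:ℝ)) := by nlinarith
    calc (2 * (R:ℝ) + 1) ^ d ≤ ((2 * a + 3) * T ^ (1 / (d:ℝ))) ^ d := by gcongr
      _ = (2 * a + 3) ^ d * T := by
          rw [mul_pow, ← Real.rpow_natCast (T ^ (1 / (d:ℝ))), ← Real.rpow_mul hT0.le,
            one_div_mul_cancel hd0.ne', Real.rpow_one]
  have h1 := hT₀ T ((le_max_right _ _).trans hT) (cube d R) hcard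
  set f : ℝ → ℝ := fun t => ∫ ω, (1 - ∑ x ∈ cube d R,
    ‖⟪ee d x, Ut (HH d c) ω t (ee d 0)⟫_ℂ‖ ^ 2) ∂(PP (Fin d → ℤ) c) with hf
  have hf0 : ∀ t, 0 ≤ f t := fun t => integral_nonneg fun ω => (M.outF_mem (cube d R) t ω).1
  have hfint : IntervalIntegrable f volume 0 T := by
    rw [intervalIntegrable_iff_integrableOn_Ioc_of_le hT0.le]
    have h2 : Integrable (Function.uncurry fun (t : ℝ) (ω : (Fin d → ℤ) → ℝ) =>
        outF (ee d) (HH d c) (cube d R) t ω)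
        ((volume.restrict (Ioc 0 T)).prod (PP (Fin d → ℤ) c)) := by
      refine Integrable.of_bound (C := 1)
        (continuous_outF (covOp_HH hc) (cube d R)).aestronglyMeasurable (ae_of_all _ fun p => ?_)
      have h2 := M.outF_mem (cube d R) p.1 p.2
      simp only [Function.uncurry]
      rw [Real.norm_of_nonneg h2.1]
      exact h2.2
    exact h2.integral_prod_left
  have h3 : ENNReal.ofReal ((R:ℝ) ^ 2 * ∫ t in (0:ℝ)..T, f t)
      ≤ ∫⁻ t in Ioc 0 T, ∫⁻ ω, sqd d c t ω ∂(PP (Fin d → ℤ) c) := by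
    rw [intervalIntegral.integral_of_le hT0.le, ← integral_const_mul,
      ofReal_integral_eq_lintegral_ofReal]
    · refine lintegral_mono fun t => ?_
      simp only [hf]
      rw [← integral_const_mul, ofReal_integral_eq_lintegral_ofReal]
      · exact lintegral_mono fun ω => le_sqd hc R t ω
      · refine Integrable.const_mul ?_ _
        refine Integrable.of_bound (C := 1) ?_ (ae_of_all _ fun ω => ?_)
        · exact ((continuous_outF (covOp_HH hc) (cube d R)).comp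
            (continuous_const.prodMk continuous_id)).aestronglyMeasurable
        · have h2 := M.outF_mem (cube d R) t ω
          change ‖outF (ee d) (HH d c) (cube d R) t ω‖ ≤ 1
          rw [Real.norm_of_nonneg h2.1]
          exact h2.2
      · refine ae_of_all _ fun ω => ?_
        exact mul_nonneg (by positivity) (M.outF_mem (cube d R) t ω).1
    · exact ((intervalIntegrable_iff_integrableOn_Ioc_of_le hT0.le).mp hfint).const_mul _
    · exact ae_of_all _ fun t => mul_nonneg (by positivity) (hf0 t)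
  refine le_trans (ENNReal.ofReal_le_ofReal ?_) h3
  have h4 : |A| * T ^ (2 / (d:ℝ)) ≤ (R:ℝ) ^ 2 * δ := by
    have h5 : (a * T ^ (1 / (d:ℝ))) ^ 2 ≤ (R:ℝ) ^ 2 := by gcongr
    have h6 : (a * T ^ (1 / (d:ℝ))) ^ 2 = |A| / δ * T ^ (2 / (d:ℝ)) := by
      rw [mul_pow, Real.sq_sqrt (by positivity), ← Real.rpow_natCast (T ^ (1 / (d:ℝ))),
        ← Real.rpow_mul hT0.le]
      congr 2
      push_cast; ring
    rw [h6] at h5
    calc |A| * T ^ (2 / (d:ℝ)) = |A| / δ * T ^ (2 / (d:ℝ)) * δ := by field_simp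
      _ ≤ _ := by gcongr
  calc A * T ^ (1 + 2 / (d:ℝ)) ≤ |A| * T ^ (1 + 2 / (d:ℝ)) := by gcongr; exact le_abs_self A
    _ = (|A| * T ^ (2 / (d:ℝ))) * T := by
        rw [Real.rpow_add hT0, Real.rpow_one]; ring
    _ ≤ (R:ℝ) ^ 2 * δ * T := by gcongr
    _ = (R:ℝ) ^ 2 * (δ * T) := by ring
    _ ≤ _ := by gcongr

end Pool.Agent.Lib.MP_562b47_mp
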