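import Mathlib
import Pool.Agent.Lib.MP_562b47_mp.Window

/-!
Bounds on the mean square displacement, for an arbitrary Hilbert space with a basis.
(Anderson model, MP_562b47_mp.)
-/

open MeasureTheory Set Filter Topology Complex
open scoped Real ENNReal NNReal InnerProductSpace

set_option linter.unusedSectionVars false

namespace Pool.Agent.Lib.MP_562b47_mp

variable {d : ℕ} {V : Type*} [NormedAddCommGroup V] [InnerProductSpace ℂ V] [CompleteSpace V]

theorem repr_HB_pow (b : HilbertBasis (Fin d → ℤ) ℂ V) (c : ℝ) (ω : (Fin d → ℤ) → ℝ) (a : ℂ)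
    (n : ℕ) (u : V) : b.repr (((a • HB b c ω) ^ n) u) = ((a • HH d c ω) ^ n) (b.repr u) := by
  induction n generalizing u with
  | zero => rfl
  | succ n ih =>
    rw [pow_succ, pow_succ, mul_apply_eq_comp, mul_apply_eq_comp, ih,
      smul_apply, smul_apply, HB_apply, map_smul, LinearIsometryEquiv.apply_symm_apply]

theorem repr_exp (b : HilbertBasis (Fin d → ℤ) ℂ V) (c : ℝ) (ω : (Fin d → ℤ) → ℝ) (a : ℂ)
    (u : V) : b.repr (NormedSpace.exp (a • HB b c ω) u) = NormedSpace.exp (a • HH d c ω) (b.repr u) := by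
  have h1 := cov_hasSum_exp (a • HB b c ω) u
  have h2 := h1.mapL (b.repr.toContinuousLinearEquiv : V →L[ℂ] Hilb d)
  have h3 := cov_hasSum_exp (a • HH d c ω) (b.repr u)
  refine h2.unique ?_
  convert h3 using 2 with n
  change b.repr _ = _
  rw [map_smul, repr_HB_pow]

theorem eq_HB_of_basis (b : HilbertBasis (Fin d → ℤ) ℂ V) {c : ℝ} {ω : (Fin d → ℤ) → ℝ}
    {T : V →L[ℂ] V} (h : ∀ j, T (b j) = HB b c ω (b j)) : T = HB b c ω := by
  have hd : Dense (Submodule.span ℂ (Set.range b) : Set V) := by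
    rw [dense_iff_closure_eq, ← Submodule.topologicalClosure_coe, b.dense_span]
    rfl
  refine ContinuousLinearMap.ext_on hd ?_
  rintro _ ⟨j, rfl⟩
  exact h j

theorem singV_HB (b : HilbertBasis (Fin d → ℤ) ℂ V) {c : ℝ} (hc : 0 < c)
    (ω : (Fin d → ℤ) → ℝ) (u : V) (h : SingV (HH d c ω) (b.repr u)) : SingV (HB b c ω) u := by
  unfold SingV at h ⊢
  refine h.congr fun k => lintegral_congr fun s => ?_
  rw [← Rv_HB b hc ω (Zt_im_pos (tk_pos k) s).ne']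
  congr 3
  rw [← ofReal_norm, ← ofReal_norm, LinearIsometryEquiv.norm_map]

/-- purely singular spectrum -/
theorem singular_HB (b : HilbertBasis (Fin d → ℤ) ℂ V) {c : ℝ} (hc : 0 < c)
    (h : ∀ᵐ ω ∂(PP (Fin d → ℤ) c), ∀ μ : Measure ℝ, IsFiniteMeasure μ →
      IsSpec (HH d c ω) (ee d 0) μ → μ ⟂ₘ volume) :
    ∀ᵐ ω ∂(PP (Fin d → ℤ) c), ∀ (u : V) (μ : Measure ℝ), IsFiniteMeasure μ →
      IsSpec (HB b c ω) u μ → μ ⟂ₘ volume := by
  filter_upwards [(model hc).ae_singV (shiftCov hc) h] with ω hω u μ hfin hμ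
  exact (singV_HB b hc ω u (hω _)).sing (isSelfAdjoint_HB b hc ω) hμ

/-- `∑ |x|² |ψ(t,x)|²` -/
theorem sqd_HB (b : HilbertBasis (Fin d → ℤ) ℂ V) (c : ℝ) (ω : (Fin d → ℤ) → ℝ) (t : ℝ) :
    ∑' x : Fin d → ℤ, ENNReal.ofReal (∑ i, (x i : ℝ) ^ 2)
      * ‖⟪b x, NormedSpace.exp ((-(t : ℂ) * I) • HB b c ω) (b 0)⟫_ℂ‖ₑ ^ 2 = sqd d c t ω := by
  unfold sqd
  refine tsum_congr fun x => ?_
  rw [← b.repr.inner_map_map, repr_exp, repr_b, repr_b]
  rfl

theorem ae_mem_Icc {c : ℝ} (hc : 0 < c) : ∀ᵐ ω ∂(PP (Fin d → ℤ) c), ∀ j, ω j ∈ Set.Icc (-c) c := by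
  have := unif_prob hc
  rw [ae_all_iff]
  intro j
  exact (measurePreserving_eval_infinitePi
    (fun _ : Fin d → ℤ => unif c) j).quasiMeasurePreserving.ae (ae_unif c)

theorem HB_basis' (b : HilbertBasis (Fin d → ℤ) ℂ V) {c : ℝ} {ω : (Fin d → ℤ) → ℝ}
    (h : ∀ j, ω j ∈ Set.Icc (-c) c) (j : Fin d → ℤ) :
    HB b c ω (b j) = -∑ i : Fin d, ((b (j + Pi.single i 1) - b j)
      + (b (j - Pi.single i 1) - b j)) + (ω j : ℂ) • b j := by
  rw [HB_basis, clp_of_mem (h j)]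
  abel

end Pool.Agent.Lib.MP_562b47_mp
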