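import Pool.Agent.Lib.MP_562b47_mp.Concrete

/-!
Resolvents of `T + V` for arbitrary (unbounded) potentials `V` with values in the closed lower
half plane.  (Planar model with Cauchy noise, MP_562b47_mp.)
-/

open MeasureTheory Filter Topology Complex Set
open scoped InnerProductSpace ENNReal

namespace Pool.Agent.Lib.MP_562b47_mp.CN

variable {Λ : Type*}

/-! ### Multiplication operators -/

/-- cut off to the closed unit disc -/
noncomputable def cut (b : ℂ) : ℂ := if ‖b‖ ≤ 1 then b else 0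

theorem norm_cut_le (b : ℂ) : ‖cut b‖ ≤ 1 := by
  unfold cut
  split_ifs with h
  · exact h
  · simp

theorem cut_of_le {b : ℂ} (h : ‖b‖ ≤ 1) : cut b = b := by
  unfold cut; rw [if_pos h]

/-- multiplication by `b` (entries cut off) -/
noncomputable def mulL (b : Λ → ℂ) : L2 Λ →L[ℂ] L2 Λ :=
  LinearMap.mkContinuous
    { toFun := fun u => ⟨fun j => cut (b j) * u j, memL2_of_summable (by
        refine Summable.of_nonneg_of_le (fun j => by positivity) (fun j => ?_) (L2_summable u)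
        rw [norm_mul, mul_pow]
        have := norm_cut_le (b j)
        calc ‖cut (b j)‖ ^ 2 * ‖u j‖ ^ 2 ≤ 1 ^ 2 * ‖u j‖ ^ 2 := by gcongr
          _ = ‖u j‖ ^ 2 := by ring)⟩
      map_add' := fun u v => by
        ext j
        simp only [lp.coeFn_add, Pi.add_apply]
        ring
      map_smul' := fun a u => by
        ext j
        simp only [lp.coeFn_smul, Pi.smul_apply, smul_eq_mul, RingHom.id_apply]
        ring } 1 (fun u => by
        refine (sq_le_sq₀ (norm_nonneg _) (by positivity)).mp ?_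
        rw [mul_pow, L2_norm_sq, L2_norm_sq, ← tsum_mul_left]
        refine Summable.tsum_le_tsum (fun j => ?_) ?_ ((L2_summable u).mul_left _)
        · change ‖cut (b j) * u j‖ ^ 2 ≤ _
          rw [norm_mul, mul_pow]
          have := norm_cut_le (b j)
          gcongr
        · exact L2_summable _)

@[simp] theorem mulL_apply (b : Λ → ℂ) (u : L2 Λ) (j : Λ) : mulL b u j = cut (b j) * u j := rfl

theorem norm_mulL_apply_le (b : Λ → ℂ) (u : L2 Λ) : ‖mulL b u‖ ≤ ‖u‖ := by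
  have := (mulL b).le_opNorm u
  have h2 : ‖mulL b‖ ≤ 1 := LinearMap.mkContinuous_norm_le _ zero_le_one _
  calc ‖mulL b u‖ ≤ ‖mulL b‖ * ‖u‖ := this
    _ ≤ 1 * ‖u‖ := by gcongr
    _ = ‖u‖ := one_mul _

theorem norm_mulL_le (b : Λ → ℂ) : ‖mulL b‖ ≤ 1 := LinearMap.mkContinuous_norm_le _ zero_le_one _

/-- strong continuity of `b ↦ mulL b` on the closed polydisc -/
theorem continuous_mulL {Y : Type*} [TopologicalSpace Y] {β : Y → Λ → ℂ}
    (hc : ∀ x, Continuous fun y => β y x) (hb : ∀ y x, ‖β y x‖ ≤ 1) (u : L2 Λ) :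
    Continuous fun y => mulL (β y) u := by
  rw [continuous_iff_continuousAt]
  intro y₀
  rw [ContinuousAt, tendsto_iff_norm_sub_tendsto_zero]
  have hsq : ∀ y, ‖mulL (β y) u - mulL (β y₀) u‖ ^ 2 = ∑' j, ‖(β y j - β y₀ j) * u j‖ ^ 2 := by
    intro y
    rw [L2_norm_sq]
    refine tsum_congr fun j => ?_
    congr 2
    rw [lp.coeFn_sub, Pi.sub_apply, mulL_apply, mulL_apply, cut_of_le (hb _ _), cut_of_le (hb _ _)]
    ring
  have h1 : Tendsto (fun y => ‖mulL (β y) u - mulL (β y₀) u‖ ^ 2) (𝓝 y₀) (𝓝 (∑' _ : Λ, (0:ℝ))) := by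
    simp only [hsq]
    refine tendsto_tsum_of_dominated_convergence (bound := fun j => 2 ^ 2 * ‖u j‖ ^ 2)
      ((L2_summable u).mul_left _) (fun j => ?_) (Eventually.of_forall fun y j => ?_)
    · have h2 : Continuous fun y => ‖(β y j - β y₀ j) * u j‖ ^ 2 := by
        have := hc j
        fun_prop
      have h3 := h2.tendsto y₀
      simpa using h3
    · rw [Real.norm_of_nonneg (by positivity), norm_mul, mul_pow]
      have h4 : ‖β y j - β y₀ j‖ ≤ 2 := by
        have h5 := norm_sub_le (β y j) (β y₀ j)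
        have := hb y j
        have := hb y₀ j
        linarith
      gcongr
  rw [tsum_zero] at h1
  have h2 := (Real.continuous_sqrt.tendsto _).comp h1
  rw [Real.sqrt_zero] at h2
  refine h2.congr fun y => ?_
  simp only [Function.comp]
  rw [Real.sqrt_sq (norm_nonneg _)]

/-! ### Cayley transform of a potential value -/

/-- Cayley transform of a potential value -/
noncomputable def bb (v : ℂ) : ℂ := (v + I) / (v - I)

theorem sub_I_ne {v : ℂ} (hv : v.im ≤ 0) : v - I ≠ 0 := by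
  intro h
  have := congrArg Complex.im h
  simp at this
  linarith

theorem norm_bb_le {v : ℂ} (hv : v.im ≤ 0) : ‖bb v‖ ≤ 1 := by
  unfold bb
  have h0 : 0 < ‖v - I‖ := norm_pos_iff.mpr (sub_I_ne hv)
  rw [norm_div, div_le_one h0, ← sq_le_sq₀ (norm_nonneg _) (norm_nonneg _),
    ← Complex.normSq_eq_norm_sq, ← Complex.normSq_eq_norm_sq, Complex.normSq_apply,
    Complex.normSq_apply]
  simp only [Complex.add_re, Complex.add_im, Complex.sub_re, Complex.sub_im, Complex.I_re,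
    Complex.I_im]
  nlinarith

theorem bb_mul {v : ℂ} (hv : v.im ≤ 0) : v * (1 - bb v) = -I * (1 + bb v) := by
  have := sub_I_ne hv
  unfold bb
  field_simp
  ring_nf

theorem continuousOn_bb : ContinuousOn bb {v | v.im ≤ 0} := by
  unfold bb
  exact ContinuousOn.div (by fun_prop) (by fun_prop) fun v hv => sub_I_ne hv

/-! ### The resolvent -/

/-- admissible potentials -/
def Adm (V : Λ → ℂ) : Prop := ∀ x, (V x).im ≤ 0

/-- `(T + V - z) u = ψ` pointwise -/
def Solves (T : L2 Λ →L[ℂ] L2 Λ) (V : Λ → ℂ) (z : ℂ) (u ψ : L2 Λ) : Prop :=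
  ∀ x, T u x + V x * u x - z * u x = ψ x

/-- `Q = 1 + 2i (T - z - i)⁻¹` -/
noncomputable def QQ (T : L2 Λ →L[ℂ] L2 Λ) (z : ℂ) : L2 Λ →L[ℂ] L2 Λ :=
  1 + (2 * I) • Rv T (z + I)

/-- the resolvent of `T + V` -/
noncomputable def RC (T : L2 Λ →L[ℂ] L2 Λ) (V : Λ → ℂ) (z : ℂ) : L2 Λ →L[ℂ] L2 Λ :=
  (1 - mulL fun x => bb (V x)) *
    (Ring.inverse (1 - QQ T z * mulL fun x => bb (V x)) * Rv T (z + I))

theorem add_I_im {z : ℂ} (hz : 0 < z.im) : (z + I).im ≠ 0 := by
  simp only [Complex.add_im, Complex.I_im]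
  intro h
  linarith

theorem norm_sq_QQ {T : L2 Λ →L[ℂ] L2 Λ} (hT : IsSelfAdjoint T) {z : ℂ} (hz : 0 < z.im)
    (u : L2 Λ) : ‖QQ T z u‖ ^ 2 = ‖u‖ ^ 2 - 4 * z.im * ‖Rv T (z + I) u‖ ^ 2 := by
  set w := Rv T (z + I) u with hw
  have h1 : QQ T z u = u + (2 * I) • w := rfl
  have h2 := im_inner_Rv hT (add_I_im hz) u
  rw [← hw] at h2
  rw [h1, norm_add_sq (𝕜 := ℂ), inner_smul_right, norm_smul]
  have h3 : RCLike.re (2 * I * ⟪u, w⟫_ℂ) = -2 * (⟪u, w⟫_ℂ).im := by
    change (2 * I * ⟪u, w⟫_ℂ).re = _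
    rw [mul_assoc, show (2:ℂ) = ((2:ℝ):ℂ) by norm_num, Complex.re_ofReal_mul, Complex.I_mul_re]
    ring
  have h4 : ‖(2:ℂ) * I‖ = 2 := by simp
  rw [h3, h2, h4]
  simp only [Complex.add_im, Complex.I_im]
  ring

theorem norm_le_Rv {T : L2 Λ →L[ℂ] L2 Λ} (hT : IsSelfAdjoint T) {z : ℂ} (hz : 0 < z.im)
    (u : L2 Λ) : ‖u‖ ≤ (‖T‖ + ‖z + I‖) * ‖Rv T (z + I) u‖ := by
  have h1 := H_Rv_apply hT (add_I_im hz) u
  set w := Rv T (z + I) u
  have h2 : u = T w - (z + I) • w := by rw [h1]; abel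
  calc ‖u‖ = ‖T w - (z + I) • w‖ := by rw [← h2]
    _ ≤ ‖T w‖ + ‖(z + I) • w‖ := norm_sub_le _ _
    _ ≤ ‖T‖ * ‖w‖ + ‖z + I‖ * ‖w‖ := by
        rw [norm_smul]
        gcongr
        exact T.le_opNorm w
    _ = _ := by ring

theorem norm_QQ_lt {T : L2 Λ →L[ℂ] L2 Λ} (hT : IsSelfAdjoint T) {z : ℂ} (hz : 0 < z.im) :
    ‖QQ T z‖ < 1 := by
  set K := ‖T‖ + ‖z + I‖ with hK
  have hK1 : 1 ≤ K := by
    have h1 : |(z + I).im| ≤ ‖z + I‖ := Complex.abs_im_le_norm _
    have h2 : (1:ℝ) ≤ |(z + I).im| := by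
      simp only [Complex.add_im, Complex.I_im]
      rw [abs_of_pos (by linarith)]
      linarith
    have := norm_nonneg T
    linarith
  have hK0 : 0 < K := by linarith
  have hq : 1 - 4 * z.im / K ^ 2 < 1 := by
    have : 0 < 4 * z.im / K ^ 2 := by positivity
    linarith
  have hsq : √(max 0 (1 - 4 * z.im / K ^ 2)) < 1 := by
    rw [Real.sqrt_lt' one_pos, one_pow]
    exact max_lt zero_lt_one hq
  refine lt_of_le_of_lt ?_ hsq
  refine ContinuousLinearMap.opNorm_le_bound _ (Real.sqrt_nonneg _) fun u => ?_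
  refine (sq_le_sq₀ (norm_nonneg _) (by positivity)).mp ?_
  rw [mul_pow, Real.sq_sqrt (le_max_left _ _), norm_sq_QQ hT hz]
  have h1 := norm_le_Rv hT hz u
  have h2 : ‖u‖ ^ 2 ≤ K ^ 2 * ‖Rv T (z + I) u‖ ^ 2 := by
    rw [← mul_pow]; gcongr
  have h3 : ‖u‖ ^ 2 / K ^ 2 ≤ ‖Rv T (z + I) u‖ ^ 2 := by
    rw [div_le_iff₀ (by positivity)]; linarith
  calc ‖u‖ ^ 2 - 4 * z.im * ‖Rv T (z + I) u‖ ^ 2 ≤ ‖u‖ ^ 2 - 4 * z.im * (‖u‖ ^ 2 / K ^ 2) := by
        gcongr
    _ = (1 - 4 * z.im / K ^ 2) * ‖u‖ ^ 2 := by ring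
    _ ≤ _ := by gcongr; exact le_max_right _ _

theorem norm_QQ_mul_lt {T : L2 Λ →L[ℂ] L2 Λ} (hT : IsSelfAdjoint T) {z : ℂ} (hz : 0 < z.im)
    (b : Λ → ℂ) : ‖QQ T z * mulL b‖ < 1 :=
  calc ‖QQ T z * mulL b‖ ≤ ‖QQ T z‖ * ‖mulL b‖ := norm_mul_le _ _
    _ ≤ ‖QQ T z‖ * 1 := by gcongr; exact norm_mulL_le b
    _ < 1 := by rw [mul_one]; exact norm_QQ_lt hT hz

theorem isUnit_one_sub {T : L2 Λ →L[ℂ] L2 Λ} (hT : IsSelfAdjoint T) {z : ℂ} (hz : 0 < z.im)
    (b : Λ → ℂ) : IsUnit (1 - QQ T z * mulL b) :=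
  isUnit_one_sub_of_norm_lt_one (norm_QQ_mul_lt hT hz b)

theorem RC_solves {T : L2 Λ →L[ℂ] L2 Λ} (hT : IsSelfAdjoint T) {V : Λ → ℂ} (hV : Adm V) {z : ℂ}
    (hz : 0 < z.im) (ψ : L2 Λ) : Solves T V z (RC T V z ψ) ψ := by
  set b : Λ → ℂ := fun x => bb (V x) with hb
  set v := (Ring.inverse (1 - QQ T z * mulL b)) (Rv T (z + I) ψ) with hv
  have hu : RC T V z ψ = v - mulL b v := rfl
  have h1 : (1 - QQ T z * mulL b) v = Rv T (z + I) ψ := by
    have := Ring.mul_inverse_cancel _ (isUnit_one_sub hT hz b)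
    have h2 := congrArg (fun A : L2 Λ →L[ℂ] L2 Λ => A (Rv T (z + I) ψ)) this
    simpa using h2
  have h2 : v - (mulL b v + (2 * I) • Rv T (z + I) (mulL b v)) = Rv T (z + I) ψ := h1
  have h3 := congrArg T h2
  rw [map_sub, map_add, map_smul, H_Rv_apply hT (add_I_im hz), H_Rv_apply hT (add_I_im hz)] at h3
  intro x
  have h4 := congrArg (fun f : L2 Λ => f x) h3
  have h5 := congrArg (fun f : L2 Λ => f x) h2
  simp only [lp.coeFn_sub, lp.coeFn_add, lp.coeFn_smul, Pi.sub_apply, Pi.add_apply, Pi.smul_apply,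
    smul_eq_mul] at h4 h5
  rw [hu, map_sub]
  simp only [lp.coeFn_sub, Pi.sub_apply]
  have h6 : mulL b v x = bb (V x) * v x := by
    rw [mulL_apply, cut_of_le (norm_bb_le (hV x))]
  have h7 := bb_mul (hV x)
  have h8 : V x * (v x - mulL b v x) = -I * (v x + mulL b v x) := by
    rw [h6]; linear_combination (v x) * h7
  rw [h8]
  have hI := Complex.I_sq
  linear_combination h4 - (z + I) * h5

/-- the energy identity -/
theorem energy {T : L2 Λ →L[ℂ] L2 Λ} (hT : IsSelfAdjoint T) {V : Λ → ℂ} {z : ℂ}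
    {u ψ : L2 Λ} (h : Solves T V z u ψ) :
    HasSum (fun x => (-(V x).im) * ‖u x‖ ^ 2) ((⟪ψ, u⟫_ℂ).im - z.im * ‖u‖ ^ 2) := by
  set y : L2 Λ := ψ - T u + z • u with hy
  have hyx : ∀ x, y x = V x * u x := by
    intro x
    have := h x
    rw [hy]
    simp only [lp.coeFn_add, lp.coeFn_sub, Pi.add_apply, Pi.sub_apply, lp.coeFn_smul,
      Pi.smul_apply, smul_eq_mul]
    linear_combination -this
  have h1 : HasSum (fun x => ⟪u x, y x⟫_ℂ) ⟪u, y⟫_ℂ := lp.hasSum_inner u y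
  have h2 : ∀ x, ⟪u x, y x⟫_ℂ = V x * ((‖u x‖ ^ 2 : ℝ) : ℂ) := by
    intro x
    rw [hyx, RCLike.inner_apply, mul_assoc, Complex.mul_conj, Complex.normSq_eq_norm_sq]
  have h3 := Complex.hasSum_im h1
  have h4 : ∀ x, (⟪u x, y x⟫_ℂ).im = (V x).im * ‖u x‖ ^ 2 := by
    intro x; rw [h2, Complex.im_mul_ofReal]
  simp only [h4] at h3
  have h5 : (⟪u, y⟫_ℂ).im = -((⟪ψ, u⟫_ℂ).im - z.im * ‖u‖ ^ 2) := by
    rw [hy, inner_add_right, inner_sub_right, inner_smul_right, inner_self_eq_norm_sq_to_K,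
      Complex.add_im, Complex.sub_im, im_inner_sa hT]
    have h6 : (z * ((‖u‖ : ℝ) : ℂ) ^ 2).im = z.im * ‖u‖ ^ 2 := by
      rw [← Complex.ofReal_pow, Complex.im_mul_ofReal]
    have h7 : (⟪u, ψ⟫_ℂ).im = -(⟪ψ, u⟫_ℂ).im := by
      rw [← inner_conj_symm, Complex.conj_im]
    rw [h7]
    have h8 : (z * ((‖u‖ : ℂ)) ^ 2).im = z.im * ‖u‖ ^ 2 := h6
    change -(⟪ψ, u⟫_ℂ).im - 0 + (z * ((‖u‖ : ℂ)) ^ 2).im = _
    rw [h8]; ring
  rw [h5] at h3
  have h6 := h3.neg
  simpa using h6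

theorem energy_le {T : L2 Λ →L[ℂ] L2 Λ} (hT : IsSelfAdjoint T) {V : Λ → ℂ} (hV : Adm V) {z : ℂ}
    {u ψ : L2 Λ} (h : Solves T V z u ψ) : z.im * ‖u‖ ^ 2 ≤ (⟪ψ, u⟫_ℂ).im := by
  have h1 := (energy hT h).nonneg fun x => by
    have := hV x
    have : 0 ≤ -(V x).im := by linarith
    positivity
  linarith

theorem norm_solves_le {T : L2 Λ →L[ℂ] L2 Λ} (hT : IsSelfAdjoint T) {V : Λ → ℂ} (hV : Adm V)
    {z : ℂ} (hz : 0 < z.im) {u ψ : L2 Λ} (h : Solves T V z u ψ) : ‖u‖ ≤ ‖ψ‖ / z.im := by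
  have h1 := energy_le hT hV h
  have h2 : (⟪ψ, u⟫_ℂ).im ≤ ‖ψ‖ * ‖u‖ :=
    (le_abs_self _).trans ((Complex.abs_im_le_norm _).trans (norm_inner_le_norm _ _))
  rw [le_div_iff₀ hz]
  by_cases h0 : ‖u‖ = 0
  · rw [h0]; simp
  · have hpos : 0 < ‖u‖ := lt_of_le_of_ne (norm_nonneg _) (Ne.symm h0)
    have h3 : (‖u‖ * z.im) * ‖u‖ ≤ ‖ψ‖ * ‖u‖ := by nlinarith
    exact le_of_mul_le_mul_right h3 hpos

theorem Solves.sub {T : L2 Λ →L[ℂ] L2 Λ} {V : Λ → ℂ} {z : ℂ} {u ψ u' ψ' : L2 Λ}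
    (h : Solves T V z u ψ) (h' : Solves T V z u' ψ') : Solves T V z (u - u') (ψ - ψ') := by
  intro x
  have h1 := h x
  have h2 := h' x
  rw [map_sub]
  simp only [lp.coeFn_sub, Pi.sub_apply]
  linear_combination h1 - h2

theorem Solves.unique {T : L2 Λ →L[ℂ] L2 Λ} (hT : IsSelfAdjoint T) {V : Λ → ℂ} (hV : Adm V)
    {z : ℂ} (hz : 0 < z.im) {u u' ψ : L2 Λ} (h : Solves T V z u ψ) (h' : Solves T V z u' ψ) :
    u = u' := by
  have h1 := norm_solves_le hT hV hz (h.sub h')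
  rw [sub_self, norm_zero, zero_div] at h1
  exact sub_eq_zero.mp (norm_le_zero_iff.mp h1)

theorem RC_eq {T : L2 Λ →L[ℂ] L2 Λ} (hT : IsSelfAdjoint T) {V : Λ → ℂ} (hV : Adm V)
    {z : ℂ} (hz : 0 < z.im) {u ψ : L2 Λ} (h : Solves T V z u ψ) : RC T V z ψ = u :=
  (RC_solves hT hV hz ψ).unique hT hV hz h

theorem norm_RC_le {T : L2 Λ →L[ℂ] L2 Λ} (hT : IsSelfAdjoint T) {V : Λ → ℂ} (hV : Adm V)
    {z : ℂ} (hz : 0 < z.im) (ψ : L2 Λ) : ‖RC T V z ψ‖ ≤ ‖ψ‖ / z.im :=
  norm_solves_le hT hV hz (RC_solves hT hV hz ψ)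

/-- first resolvent identity -/
theorem RC_sub_RC {T : L2 Λ →L[ℂ] L2 Λ} (hT : IsSelfAdjoint T) {V : Λ → ℂ} (hV : Adm V)
    {z w : ℂ} (hz : 0 < z.im) (hw : 0 < w.im) (ψ : L2 Λ) :
    RC T V z ψ - RC T V w ψ = (z - w) • RC T V z (RC T V w ψ) := by
  rw [← map_smul]
  symm
  apply RC_eq hT hV hz
  intro x
  have h1 := RC_solves hT hV hz ψ x
  have h2 := RC_solves hT hV hw ψ x
  rw [map_sub]
  simp only [lp.coeFn_sub, Pi.sub_apply, lp.coeFn_smul, Pi.smul_apply, smul_eq_mul]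
  linear_combination h1 - h2

theorem continuousOn_RC_z {T : L2 Λ →L[ℂ] L2 Λ} (hT : IsSelfAdjoint T) {V : Λ → ℂ} (hV : Adm V)
    (ψ : L2 Λ) : ContinuousOn (fun z => RC T V z ψ) {z | 0 < z.im} := by
  intro w hw
  have hw' : 0 < w.im := hw
  rw [ContinuousWithinAt, tendsto_iff_norm_sub_tendsto_zero]
  have h1 : ∀ᶠ z in 𝓝[{z | 0 < z.im}] w, ‖RC T V z ψ - RC T V w ψ‖
      ≤ ‖z - w‖ * (‖RC T V w ψ‖ / z.im) := by
    filter_upwards [self_mem_nhdsWithin] with z hz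
    rw [RC_sub_RC hT hV hz hw', norm_smul]
    gcongr
    exact norm_RC_le hT hV hz _
  have h2 : Tendsto (fun z : ℂ => ‖z - w‖ * (‖RC T V w ψ‖ / z.im)) (𝓝[{z | 0 < z.im}] w) (𝓝 0) := by
    have h3 : ContinuousAt (fun z : ℂ => ‖z - w‖ * (‖RC T V w ψ‖ / z.im)) w := by
      refine ContinuousAt.mul (by fun_prop) (ContinuousAt.div (by fun_prop)
        Complex.continuous_im.continuousAt hw'.ne')
    have h4 := h3.tendsto
    simp only [sub_self, norm_zero, zero_mul] at h4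
    exact h4.mono_left nhdsWithin_le_nhds
  exact tendsto_of_tendsto_of_tendsto_of_le_of_le' tendsto_const_nhds h2
    (Eventually.of_forall fun _ => norm_nonneg _) h1

/-- continuity in the potential -/
theorem continuous_RC {Y : Type*} [TopologicalSpace Y] {T : L2 Λ →L[ℂ] L2 Λ}
    (hT : IsSelfAdjoint T) {β : Y → Λ → ℂ} (hc : ∀ x, Continuous fun y => β y x)
    (hV : ∀ y, Adm (β y)) {z : ℂ} (hz : 0 < z.im) (ψ : L2 Λ) :
    Continuous fun y => RC T (β y) z ψ := by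
  set b : Y → Λ → ℂ := fun y x => bb (β y x) with hb
  have hbc : ∀ x, Continuous fun y => b y x := fun x =>
    continuousOn_bb.comp_continuous (hc x) (fun y => hV y x)
  have hb1 : ∀ y x, ‖b y x‖ ≤ 1 := fun y x => norm_bb_le (hV y x)
  set φ := Rv T (z + I) ψ
  set q := ‖QQ T z‖ with hq
  have hq1 : q < 1 := norm_QQ_lt hT hz
  set v : Y → L2 Λ := fun y => Ring.inverse (1 - QQ T z * mulL (b y)) φ with hv
  have hve : ∀ y, v y - QQ T z (mulL (b y) (v y)) = φ := by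
    intro y
    have := Ring.mul_inverse_cancel _ (isUnit_one_sub hT hz (b y))
    have h2 := congrArg (fun A : L2 Λ →L[ℂ] L2 Λ => A φ) this
    simpa using h2
  have hvc : Continuous v := by
    rw [continuous_iff_continuousAt]
    intro y₀
    rw [ContinuousAt, tendsto_iff_norm_sub_tendsto_zero]
    have h1 : ∀ y, ‖v y - v y₀‖ ≤ (1 - q)⁻¹ * (q * ‖mulL (b y) (v y₀) - mulL (b y₀) (v y₀)‖) := by
      intro y
      have e1 : v y - v y₀ = QQ T z (mulL (b y) (v y - v y₀))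
          + QQ T z (mulL (b y) (v y₀) - mulL (b y₀) (v y₀)) := by
        have h2 := hve y
        have h3 := hve y₀
        have h4 : v y = φ + QQ T z (mulL (b y) (v y)) := by rw [← h2]; abel
        have h5 : v y₀ = φ + QQ T z (mulL (b y₀) (v y₀)) := by
          nth_rewrite 1 [← h3]; abel
        calc v y - v y₀ = (φ + QQ T z (mulL (b y) (v y))) - (φ + QQ T z (mulL (b y₀) (v y₀))) := by
              rw [← h4, ← h5]
          _ = _ := by
              rw [map_sub, map_sub, map_sub]; abel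
      have h2 : ‖v y - v y₀‖ ≤ q * ‖v y - v y₀‖ + q * ‖mulL (b y) (v y₀) - mulL (b y₀) (v y₀)‖ := by
        nth_rewrite 1 [e1]
        refine (norm_add_le _ _).trans (add_le_add ?_ ?_)
        · refine ((QQ T z).le_opNorm _).trans ?_
          gcongr
          exact norm_mulL_apply_le _ _
        · exact (QQ T z).le_opNorm _
      have h3 : 0 < 1 - q := by linarith
      rw [inv_mul_eq_div, le_div_iff₀ h3]
      nlinarith
    have h2 : Tendsto (fun y => (1 - q)⁻¹ * (q * ‖mulL (b y) (v y₀) - mulL (b y₀) (v y₀)‖)) (𝓝 y₀)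
        (𝓝 0) := by
      have h3 : Continuous fun y => (1 - q)⁻¹ * (q * ‖mulL (b y) (v y₀) - mulL (b y₀) (v y₀)‖) := by
        have := continuous_mulL hbc hb1 (v y₀)
        fun_prop
      have := h3.tendsto y₀
      simpa using this
    exact squeeze_zero (fun y => norm_nonneg _) h1 h2
  have hRC : ∀ y, RC T (β y) z ψ = v y - mulL (b y) (v y) := fun y => rfl
  simp only [hRC]
  refine hvc.sub ?_
  rw [continuous_iff_continuousAt]
  intro y₀
  rw [ContinuousAt, tendsto_iff_norm_sub_tendsto_zero]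
  have h1 : ∀ y, ‖mulL (b y) (v y) - mulL (b y₀) (v y₀)‖ ≤ ‖v y - v y₀‖
      + ‖mulL (b y) (v y₀) - mulL (b y₀) (v y₀)‖ := by
    intro y
    have e1 : mulL (b y) (v y) - mulL (b y₀) (v y₀)
        = mulL (b y) (v y - v y₀) + (mulL (b y) (v y₀) - mulL (b y₀) (v y₀)) := by
      rw [map_sub]; abel
    rw [e1]
    exact (norm_add_le _ _).trans (add_le_add (norm_mulL_apply_le _ _) le_rfl)
  have h2 : Tendsto (fun y => ‖v y - v y₀‖ + ‖mulL (b y) (v y₀) - mulL (b y₀) (v y₀)‖) (𝓝 y₀)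
      (𝓝 0) := by
    have h3 : Continuous fun y => ‖v y - v y₀‖ + ‖mulL (b y) (v y₀) - mulL (b y₀) (v y₀)‖ := by
      have := continuous_mulL hbc hb1 (v y₀)
      fun_prop
    have := h3.tendsto y₀
    simpa using this
  exact squeeze_zero (fun y => norm_nonneg _) h1 h2

/-- symmetry of the resolvent for the bilinear form -/
theorem symm_solves {T : L2 Λ →L[ℂ] L2 Λ} (hT : IsSelfAdjoint T)
    (hr : ∀ u, T (star u) = star (T u)) {V : Λ → ℂ} {z : ℂ}
    {u ψ u' ψ' : L2 Λ} (h : Solves T V z u ψ) (h' : Solves T V z u' ψ') :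
    ⟪star ψ, u'⟫_ℂ = ⟪star u, ψ'⟫_ℂ := by
  set y : L2 Λ := ψ - T u + z • u with hy
  set y' : L2 Λ := ψ' - T u' + z • u' with hy'
  have hyx : ∀ x, y x = V x * u x := by
    intro x
    have := h x
    rw [hy]
    simp only [lp.coeFn_add, lp.coeFn_sub, Pi.add_apply, Pi.sub_apply, lp.coeFn_smul,
      Pi.smul_apply, smul_eq_mul]
    linear_combination -this
  have hyx' : ∀ x, y' x = V x * u' x := by
    intro x
    have := h' x
    rw [hy']
    simp only [lp.coeFn_add, lp.coeFn_sub, Pi.add_apply, Pi.sub_apply, lp.coeFn_smul,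
      Pi.smul_apply, smul_eq_mul]
    linear_combination -this
  have h1 : ⟪star y, u'⟫_ℂ = ⟪star u, y'⟫_ℂ := by
    rw [lp.inner_eq_tsum, lp.inner_eq_tsum]
    refine tsum_congr fun x => ?_
    rw [lp.star_apply, lp.star_apply, hyx, hyx']
    simp only [RCLike.inner_apply, RCLike.star_def, map_mul, Complex.conj_conj]
    ring
  have h2 : ⟪star (T u), u'⟫_ℂ = ⟪star u, T u'⟫_ℂ := by
    rw [← hr, inner_H_comm hT]
  have h3 : ⟪star (z • u), u'⟫_ℂ = ⟪star u, z • u'⟫_ℂ := by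
    rw [star_smul, inner_smul_left, inner_smul_right]
    simp [RCLike.star_def]
  rw [hy, hy', star_add, star_sub, inner_add_left, inner_sub_left, inner_add_right,
    inner_sub_right, h2, h3] at h1
  linear_combination h1

section

variable [DecidableEq Λ]

/-- the Green function -/
noncomputable def GG (T : L2 Λ →L[ℂ] L2 Λ) (V : Λ → ℂ) (z : ℂ) (x y : Λ) : ℂ :=
  RC T V z (eb y) x

theorem GG_symm {T : L2 Λ →L[ℂ] L2 Λ} (hT : IsSelfAdjoint T)
    (hr : ∀ u, T (star u) = star (T u)) {V : Λ → ℂ} (hV : Adm V) {z : ℂ} (hz : 0 < z.im)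
    (x y : Λ) : GG T V z x y = GG T V z y x := by
  have h := symm_solves hT hr (RC_solves hT hV hz (eb x)) (RC_solves hT hV hz (eb y))
  rw [star_eb, inner_eb] at h
  have h2 : ⟪star (RC T V z (eb x)), eb y⟫_ℂ = RC T V z (eb x) y := by
    rw [← inner_conj_symm, inner_eb, lp.star_apply]
    simp [RCLike.star_def]
  rw [h2] at h
  exact h

theorem adm_update {V : Λ → ℂ} (hV : Adm V) (y : Λ) {v : ℂ} (hv : v.im ≤ 0) :
    Adm (Function.update V y v) := by
  intro x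
  by_cases h : x = y
  · subst h; rwa [Function.update_self]
  · rw [Function.update_of_ne h]; exact hV x

theorem GG_update_ne {T : L2 Λ →L[ℂ] L2 Λ} (hT : IsSelfAdjoint T) {V : Λ → ℂ} (hV : Adm V)
    {z : ℂ} (hz : 0 < z.im) (y : Λ) {v : ℂ} (hv : v.im ≤ 0) :
    1 + (v - V y) * GG T V z y y ≠ 0 := by
  intro h0
  have hr := RC_solves hT hV hz (eb y)
  set r := RC T V z (eb y) with hrdef
  have h1 : Solves T (Function.update V y v) z r 0 := by
    intro x
    have := hr x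
    by_cases h : x = y
    · subst h
      rw [Function.update_self]
      rw [eb_apply, if_pos rfl] at this
      change _ = (0:ℂ)
      have h2 : r x = GG T V z x x := rfl
      rw [h2] at this ⊢
      linear_combination this + h0
    · rw [Function.update_of_ne h]
      rw [eb_apply, if_neg h] at this
      exact this
  have h2 := norm_solves_le hT (adm_update hV y hv) hz h1
  rw [norm_zero, zero_div] at h2
  have h3 : r = 0 := norm_le_zero_iff.mp h2
  have h4 : GG T V z y y = 0 := by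
    change r y = 0
    rw [h3]; rfl
  rw [h4] at h0
  simp at h0

/-- rank one perturbation formula -/
theorem RC_update {T : L2 Λ →L[ℂ] L2 Λ} (hT : IsSelfAdjoint T) {V : Λ → ℂ} (hV : Adm V)
    {z : ℂ} (hz : 0 < z.im) (y : Λ) {v : ℂ} (hv : v.im ≤ 0) (ψ : L2 Λ) :
    RC T (Function.update V y v) z ψ = RC T V z ψ
      - ((v - V y) * RC T V z ψ y / (1 + (v - V y) * GG T V z y y)) • RC T V z (eb y) := by
  have hne := GG_update_ne hT hV hz y hv
  apply RC_eq hT (adm_update hV y hv) hz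
  intro x
  have h1 := RC_solves hT hV hz ψ x
  have h2 := RC_solves hT hV hz (eb y) x
  set u := RC T V z ψ
  set r := RC T V z (eb y) with hr
  set δ := v - V y with hδ
  set g := GG T V z y y with hg
  set c := δ * u y / (1 + δ * g) with hc
  have hcc : c * (1 + δ * g) = δ * u y := by rw [hc]; field_simp
  rw [map_sub, map_smul]
  simp only [lp.coeFn_sub, Pi.sub_apply, lp.coeFn_smul, Pi.smul_apply, smul_eq_mul]
  by_cases h : x = y
  · subst h
    rw [Function.update_self]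
    rw [eb_apply, if_pos rfl] at h2
    have h3 : r x = g := rfl
    rw [h3] at h2 ⊢
    have h4 : v = V x + δ := by rw [hδ]; ring
    rw [h4]
    linear_combination h1 - c * h2 - hcc
  · rw [Function.update_of_ne h]
    rw [eb_apply, if_neg h] at h2
    linear_combination h1 - c * h2

theorem GG_update {T : L2 Λ →L[ℂ] L2 Λ} (hT : IsSelfAdjoint T) {V : Λ → ℂ} (hV : Adm V)
    {z : ℂ} (hz : 0 < z.im) (y : Λ) {v : ℂ} (hv : v.im ≤ 0) (a b : Λ) :
    GG T (Function.update V y v) z a b = GG T V z a b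
      - (v - V y) * GG T V z y b / (1 + (v - V y) * GG T V z y y) * GG T V z a y := by
  unfold GG
  rw [RC_update hT hV hz y hv]
  simp only [lp.coeFn_sub, Pi.sub_apply, lp.coeFn_smul, Pi.smul_apply, smul_eq_mul]
  rfl

end

/-! ### Real potentials: the resolvent for all nonreal `z` -/

/-- the resolvent for a real potential and nonreal `z` -/
noncomputable def RR (T : L2 Λ →L[ℂ] L2 Λ) (V : Λ → ℝ) (z : ℂ) : L2 Λ →L[ℂ] L2 Λ :=
  if 0 < z.im then RC T (fun x => (V x : ℂ)) z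
  else ContinuousLinearMap.adjoint (RC T (fun x => (V x : ℂ)) ((starRingEnd ℂ) z))

theorem adm_real (V : Λ → ℝ) : Adm fun x => (V x : ℂ) := fun x => by simp

theorem RR_of_pos {T : L2 Λ →L[ℂ] L2 Λ} {V : Λ → ℝ} {z : ℂ} (hz : 0 < z.im) :
    RR T V z = RC T (fun x => (V x : ℂ)) z := by
  unfold RR; rw [if_pos hz]

theorem adjoint_RC {T : L2 Λ →L[ℂ] L2 Λ} (hT : IsSelfAdjoint T)
    (hr : ∀ u, T (star u) = star (T u)) {V : Λ → ℂ} (hV : Adm V) {z : ℂ} (hz : 0 < z.im)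
    (ψ : L2 Λ) : ContinuousLinearMap.adjoint (RC T V z) ψ = star (RC T V z (star ψ)) := by
  refine ext_inner_left ℂ fun φ => ?_
  rw [ContinuousLinearMap.adjoint_inner_right]
  have h := symm_solves hT hr (RC_solves hT hV hz (star ψ)) (RC_solves hT hV hz φ)
  rw [star_star] at h
  rw [← inner_conj_symm, h, inner_conj_symm]

theorem RR_solves {T : L2 Λ →L[ℂ] L2 Λ} (hT : IsSelfAdjoint T)
    (hr : ∀ u, T (star u) = star (T u)) (V : Λ → ℝ) {z : ℂ} (hz : z.im ≠ 0) (ψ : L2 Λ) :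
    Solves T (fun x => (V x : ℂ)) z (RR T V z ψ) ψ := by
  rcases lt_or_gt_of_ne hz with h | h
  · have hz' : 0 < ((starRingEnd ℂ) z).im := by simpa using h
    unfold RR
    rw [if_neg (not_lt.mpr h.le), adjoint_RC hT hr (adm_real V) hz']
    have h1 := RC_solves hT (adm_real V) hz' (star ψ)
    intro x
    have h2 := congrArg (starRingEnd ℂ) (h1 x)
    rw [hr]
    simp only [lp.star_apply, map_sub, map_add, map_mul, Complex.conj_ofReal, Complex.conj_conj,
      RCLike.star_def] at h2 ⊢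
    exact h2
  · rw [RR_of_pos h]
    exact RC_solves hT (adm_real V) h ψ

theorem Solves.unique_real {T : L2 Λ →L[ℂ] L2 Λ} (hT : IsSelfAdjoint T) {V : Λ → ℝ}
    {z : ℂ} (hz : z.im ≠ 0) {u u' ψ : L2 Λ} (h : Solves T (fun x => (V x : ℂ)) z u ψ)
    (h' : Solves T (fun x => (V x : ℂ)) z u' ψ) : u = u' := by
  have h1 := energy hT (h.sub h')
  simp only [Complex.ofReal_im, neg_zero, zero_mul, sub_self, inner_zero_left,
    Complex.zero_im, zero_sub] at h1
  have h2 := h1.unique hasSum_zero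
  have h3 : z.im * ‖u - u'‖ ^ 2 = 0 := by linarith
  rcases mul_eq_zero.mp h3 with h4 | h4
  · exact absurd h4 hz
  · exact sub_eq_zero.mp (norm_eq_zero.mp (by simpa using h4))

theorem RR_adj {T : L2 Λ →L[ℂ] L2 Λ} (V : Λ → ℝ) {z : ℂ} (hz : z.im ≠ 0) (u v : L2 Λ) :
    ⟪RR T V z u, v⟫_ℂ = ⟪u, RR T V ((starRingEnd ℂ) z) v⟫_ℂ := by
  rcases lt_or_gt_of_ne hz with h | h
  · have hz' : 0 < ((starRingEnd ℂ) z).im := by simpa using h
    rw [RR_of_pos hz']
    unfold RR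
    rw [if_neg (not_lt.mpr h.le), ContinuousLinearMap.adjoint_inner_left]
  · have hz' : ¬ 0 < ((starRingEnd ℂ) z).im := by simpa using h.le
    rw [RR_of_pos h]
    unfold RR
    rw [if_neg hz', Complex.conj_conj, ContinuousLinearMap.adjoint_inner_right]

theorem RR_res {T : L2 Λ →L[ℂ] L2 Λ} (hT : IsSelfAdjoint T)
    (hr : ∀ u, T (star u) = star (T u)) (V : Λ → ℝ) {z w : ℂ} (hz : z.im ≠ 0) (hw : w.im ≠ 0)
    (u : L2 Λ) : RR T V z u - RR T V w u = (z - w) • RR T V z (RR T V w u) := by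
  rw [← map_smul]
  refine Solves.unique_real hT hz ?_ (RR_solves hT hr V hz _)
  intro x
  have h1 := RR_solves hT hr V hz u x
  have h2 := RR_solves hT hr V hw u x
  rw [map_sub]
  simp only [lp.coeFn_sub, Pi.sub_apply, lp.coeFn_smul, Pi.smul_apply, smul_eq_mul]
  linear_combination h1 - h2

end Pool.Agent.Lib.MP_562b47_mp.CN
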