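import Pool.Agent.Lib.MP_562b47_mp.Rank

/-!
Scalar spectral measures of a (possibly unbounded) self-adjoint operator given through its
resolvent family.  (Anderson model, MP_562b47_mp.)
-/

open MeasureTheory Filter Topology Complex Set
open scoped InnerProductSpace CompactlySupported BoundedContinuousFunction

namespace Pool.Agent.Lib.MP_562b47_mp.CN

section

variable {V : Type*} [NormedAddCommGroup V] [InnerProductSpace ℂ V] [CompleteSpace V]

/-- the resolvent family of a (possibly unbounded) self-adjoint operator -/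
structure PRes (R : ℂ → (V →L[ℂ] V)) : Prop where
  res : ∀ z w : ℂ, z.im ≠ 0 → w.im ≠ 0 → ∀ u, R z u - R w u = (z - w) • R z (R w u)
  adj : ∀ z : ℂ, z.im ≠ 0 → ∀ u v, ⟪R z u, v⟫_ℂ = ⟪u, R ((starRingEnd ℂ) z) v⟫_ℂ

/-- `μ` represents the diagonal resolvent matrix element at `u` -/
def Rep (R : ℂ → (V →L[ℂ] V)) (u : V) (μ : Measure ℝ) : Prop :=
  ∀ z : ℂ, z.im ≠ 0 → ⟪u, R z u⟫_ℂ = ∫ l : ℝ, ((l : ℂ) - z)⁻¹ ∂μ

theorem I_im_ne : (I : ℂ).im ≠ 0 := by simp

theorem neg_I_im_ne : (-I : ℂ).im ≠ 0 := by simp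

omit [CompleteSpace V] in
theorem PRes.op {R : ℂ → (V →L[ℂ] V)} (h : PRes R) {z w : ℂ} (hz : z.im ≠ 0) (hw : w.im ≠ 0) :
    R z - R w = (z - w) • (R z * R w) := by
  ext u
  exact h.res z w hz hw u

omit [CompleteSpace V] in
theorem PRes.comm {R : ℂ → (V →L[ℂ] V)} (h : PRes R) {z w : ℂ} (hz : z.im ≠ 0) (hw : w.im ≠ 0) :
    R z * R w = R w * R z := by
  by_cases hzw : z = w
  · rw [hzw]
  · have h1 := h.op hz hw
    have h2 := h.op hw hz
    have h3 : (z - w) • (R z * R w) = (z - w) • (R w * R z) := by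
      rw [← h1, ← neg_sub (R w) (R z), h2, ← neg_smul, neg_sub]
    have h4 : (z - w) ≠ 0 := sub_ne_zero.mpr hzw
    exact smul_right_injective _ h4 h3

theorem PRes.star_eq {R : ℂ → (V →L[ℂ] V)} (h : PRes R) {z : ℂ} (hz : z.im ≠ 0) :
    star (R z) = R ((starRingEnd ℂ) z) := by
  rw [ContinuousLinearMap.star_eq_adjoint]
  symm
  rw [ContinuousLinearMap.eq_adjoint_iff]
  intro u v
  have h1 := h.adj ((starRingEnd ℂ) z) (by simpa using hz) u v
  rw [Complex.conj_conj] at h1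
  exact h1

omit [CompleteSpace V] in
theorem PRes.im_inner {R : ℂ → (V →L[ℂ] V)} (h : PRes R) (u : V) {z : ℂ} (hz : 0 < z.im) :
    (⟪u, R z u⟫_ℂ).im = z.im * ‖R z u‖ ^ 2 := by
  have hz' : ((starRingEnd ℂ) z).im ≠ 0 := by simpa using hz.ne'
  have h1 := h.res _ _ hz' hz.ne' u
  have h2 : ⟪u, R ((starRingEnd ℂ) z) u⟫_ℂ - ⟪u, R z u⟫_ℂ
      = ((starRingEnd ℂ) z - z) * ⟪R z u, R z u⟫_ℂ := by
    rw [← inner_sub_right, h1, inner_smul_right, ← h.adj z hz.ne']
  rw [← h.adj z hz.ne', ← inner_conj_symm, inner_self_eq_norm_sq_to_K] at h2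
  have h3 := congrArg Complex.im h2
  have e1 : ((starRingEnd ℂ) z - z) * ((‖R z u‖ : ℂ)) ^ 2
      = ((-2 * z.im * ‖R z u‖ ^ 2 : ℝ) : ℂ) * I := by
    have : ((starRingEnd ℂ) z - z) = ((-2 * z.im : ℝ) : ℂ) * I := by
      apply Complex.ext
      · simp
      · simp; ring
    rw [this]
    push_cast
    ring
  rw [show ((RCLike.ofReal ‖R z u‖ : ℂ)) = ((‖R z u‖ : ℝ) : ℂ) from rfl, e1] at h3
  simp only [Complex.sub_im, Complex.conj_im, Complex.mul_im, Complex.ofReal_re,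
    Complex.ofReal_im, Complex.I_im, Complex.I_re] at h3
  linarith

/-- the function representing `R z` in terms of `R i` -/
noncomputable def fz (z ζ : ℂ) : ℂ := ζ / (1 + (I - z) * ζ)

/-- the energy as a function of the value of `R i` -/
noncomputable def lamz (ζ : ℂ) : ℝ := ζ.re / (ζ.re ^ 2 + ζ.im ^ 2)

theorem circ_inv {ζ : ℂ} (h0 : ζ ≠ 0) (hc : ζ.im = ζ.re ^ 2 + ζ.im ^ 2) :
    ζ⁻¹ = (lamz ζ : ℂ) - I := by
  have h1 : ζ.re ^ 2 + ζ.im ^ 2 ≠ 0 := by
    intro h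
    apply h0
    have h2 : ζ.re = 0 := by nlinarith [sq_nonneg ζ.re, sq_nonneg ζ.im]
    have h3 : ζ.im = 0 := by nlinarith [sq_nonneg ζ.re, sq_nonneg ζ.im]
    exact Complex.ext h2 h3
  have h2 : Complex.normSq ζ = ζ.re ^ 2 + ζ.im ^ 2 := by rw [Complex.normSq_apply]; ring
  apply Complex.ext
  · rw [Complex.inv_re, h2, Complex.sub_re, Complex.ofReal_re, Complex.I_re, sub_zero]
    rfl
  · rw [Complex.inv_im, h2, ← hc]
    have : ζ.im ≠ 0 := by rw [hc]; exact h1
    simp [this]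

theorem denom_ne {z ζ : ℂ} (hz : z.im ≠ 0) (hc : ζ.im = ζ.re ^ 2 + ζ.im ^ 2) :
    1 + (I - z) * ζ ≠ 0 := by
  by_cases h0 : ζ = 0
  · rw [h0]; simp
  · intro h
    have h1 := circ_inv h0 hc
    have h2 : (lamz ζ : ℂ) - z = 0 := by
      have h3 : ζ⁻¹ * (1 + (I - z) * ζ) = 0 := by rw [h, mul_zero]
      have h4 : ζ⁻¹ * (1 + (I - z) * ζ) = ζ⁻¹ + (I - z) := by
        field_simp
      rw [h4, h1] at h3
      linear_combination h3
    apply hz
    have := congrArg Complex.im h2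
    simpa using this

theorem fz_eq {z ζ : ℂ} (h0 : ζ ≠ 0) (hc : ζ.im = ζ.re ^ 2 + ζ.im ^ 2) :
    fz z ζ = ((lamz ζ : ℂ) - z)⁻¹ := by
  have h1 := circ_inv h0 hc
  unfold fz
  have h2 : (lamz ζ : ℂ) - z = ζ⁻¹ * (1 + (I - z) * ζ) := by
    have h4 : ζ⁻¹ * (1 + (I - z) * ζ) = ζ⁻¹ + (I - z) := by
      field_simp
    rw [h4, h1]
    ring
  rw [h2, mul_inv, inv_inv, div_eq_mul_inv]

theorem PRes.normal {R : ℂ → (V →L[ℂ] V)} (h : PRes R) : IsStarNormal (R I) := by
  refine ⟨?_⟩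
  rw [h.star_eq I_im_ne, Complex.conj_I]
  exact h.comm neg_I_im_ne I_im_ne

theorem PRes.circ {R : ℂ → (V →L[ℂ] V)} (h : PRes R) {ζ : ℂ} (hζ : ζ ∈ spectrum ℂ (R I)) :
    ζ.im = ζ.re ^ 2 + ζ.im ^ 2 := by
  have hn := h.normal
  have h1 : cfc (fun ζ : ℂ => ζ - star ζ - 2 * I * (star ζ * ζ)) (R I) = 0 := by
    have e1 : cfc (fun ζ : ℂ => ζ - star ζ - 2 * I * (star ζ * ζ)) (R I)
        = R I - star (R I) - (2 * I) • (star (R I) * R I) := by
      rw [cfc_sub (fun ζ : ℂ => ζ - star ζ) (fun ζ => 2 * I * (star ζ * ζ)) (R I) (by fun_prop)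
        (by fun_prop), cfc_sub (fun ζ : ℂ => ζ) (fun ζ => star ζ) (R I) (by fun_prop)
        (by fun_prop), cfc_id' ℂ (R I) hn, cfc_star_id (R I) hn,
        cfc_const_mul (2 * I) (fun ζ : ℂ => star ζ * ζ) (R I) (by fun_prop),
        cfc_mul (fun ζ : ℂ => star ζ) (fun ζ => ζ) (R I) (by fun_prop) (by fun_prop),
        cfc_star_id (R I) hn, cfc_id' ℂ (R I) hn]
    rw [e1, h.star_eq I_im_ne, Complex.conj_I, h.op I_im_ne neg_I_im_ne,
      h.comm neg_I_im_ne I_im_ne]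
    rw [show I - -I = 2 * I by ring, sub_self]
  have h2 : (fun ζ : ℂ => ζ - star ζ - 2 * I * (star ζ * ζ)) ζ = 0 := by
    have h3 : (fun ζ : ℂ => ζ - star ζ - 2 * I * (star ζ * ζ)) ζ
        ∈ spectrum ℂ (cfc (fun ζ : ℂ => ζ - star ζ - 2 * I * (star ζ * ζ)) (R I)) := by
      rw [cfc_map_spectrum (fun ζ : ℂ => ζ - star ζ - 2 * I * (star ζ * ζ)) (R I) hn (by fun_prop)]
      exact ⟨ζ, hζ, rfl⟩
    rw [h1] at h3
    rcases subsingleton_or_nontrivial (V →L[ℂ] V) with hs | hs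
    · rw [spectrum.of_subsingleton] at h3
      exact absurd h3 (Set.notMem_empty _)
    · rw [spectrum.zero_eq] at h3
      exact h3
  have h3 := congrArg Complex.im h2
  simp at h3
  nlinarith

/-- a real function as a complex one -/
def toC {X : Type*} [TopologicalSpace X] (g : C(X, ℝ)) : C(X, ℂ) :=
  ⟨fun x => (g x : ℂ), by fun_prop⟩

theorem exists_circle {N : V →L[ℂ] V} (hN : IsStarNormal N) (u : V) :
    ∃ m : Measure ℂ, IsFiniteMeasure m ∧ (∀ᵐ ζ ∂m, ζ ∈ spectrum ℂ N) ∧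
      ∀ f : ℂ → ℂ, ContinuousOn f (spectrum ℂ N) → ∫ ζ, f ζ ∂m = ⟪u, cfc f N u⟫_ℂ := by
  have hcpt : CompactSpace (spectrum ℂ N) := isCompact_iff_compactSpace.mp (spectrum.isCompact N)
  have hsa : ∀ g : C(spectrum ℂ N, ℝ), IsSelfAdjoint (cfcHom (R := ℂ) hN (toC g)) := by
    intro g
    rw [IsSelfAdjoint, ← map_star]
    congr 1
    ext x
    simp [toC]
  let Λ : C_c(spectrum ℂ N, ℝ) →ₚ[ℝ] ℝ :=
  { toFun := fun g => (⟪u, cfcHom (R := ℂ) hN (toC g.toContinuousMap) u⟫_ℂ).re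
    map_add' := by
      intro g g'
      have : toC (g + g').toContinuousMap = toC g.toContinuousMap + toC g'.toContinuousMap := by
        ext x; simp [toC]
      rw [this, map_add]
      simp
    map_smul' := by
      intro c g
      have : toC (c • g).toContinuousMap = (c : ℂ) • toC g.toContinuousMap := by
        ext x; simp [toC]
      rw [this, map_smul]
      simp
    monotone' := by
      intro g g' hgg'
      let s : C(spectrum ℂ N, ℝ) := ⟨fun x => √(g' x - g x), by fun_prop⟩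
      have hs : toC g'.toContinuousMap = toC g.toContinuousMap + toC s * toC s := by
        ext x
        have h0 : 0 ≤ g' x - g x := sub_nonneg.mpr (hgg' x)
        change ((g' x : ℝ) : ℂ) = ((g x : ℝ) : ℂ) + ((√(g' x - g x) : ℝ) : ℂ)
          * ((√(g' x - g x) : ℝ) : ℂ)
        rw [← Complex.ofReal_mul, Real.mul_self_sqrt h0]
        push_cast
        ring
      change (⟪u, cfcHom (R := ℂ) hN (toC g.toContinuousMap) u⟫_ℂ).re ≤
        (⟪u, cfcHom (R := ℂ) hN (toC g'.toContinuousMap) u⟫_ℂ).re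
      rw [hs, map_add, map_mul, _root_.add_apply, inner_add_right,
        inner_sa_sq (hsa s), Complex.add_re, Complex.ofReal_re]
      have : 0 ≤ ‖cfcHom (R := ℂ) hN (toC s) u‖ ^ 2 := by positivity
      linarith }
  set μ0 := RealRMK.rieszMeasure Λ with hμ0
  have hemb : MeasurableEmbedding (Subtype.val : spectrum ℂ N → ℂ) :=
    MeasurableEmbedding.subtype_coe (spectrum.isClosed N).measurableSet
  have hreal : ∀ g : C(spectrum ℂ N, ℝ), ((∫ x, g x ∂μ0 : ℝ) : ℂ)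
      = ⟪u, cfcHom (R := ℂ) hN (toC g) u⟫_ℂ := by
    intro g
    let g' : C_c(spectrum ℂ N, ℝ) := ⟨g, HasCompactSupport.of_compactSpace _⟩
    have h1 : ∫ x, g' x ∂(RealRMK.rieszMeasure Λ) = Λ g' := RealRMK.integral_rieszMeasure Λ g'
    have h2 : ∫ x, g x ∂μ0 = (⟪u, cfcHom (R := ℂ) hN (toC g) u⟫_ℂ).re := h1
    rw [h2]
    apply Complex.ext
    · rfl
    · rw [Complex.ofReal_im]
      exact (im_inner_sa (hsa _) u).symm
  refine ⟨μ0.map Subtype.val, by infer_instance, ?_, ?_⟩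
  · rw [hemb.ae_map_iff]
    exact ae_of_all _ fun x => x.2
  · intro f hf
    rw [hemb.integral_map]
    let F : C(spectrum ℂ N, ℂ) := ⟨fun x => f x.1, hf.domRestrict⟩
    let Fr : C(spectrum ℂ N, ℝ) := ⟨fun x => (F x).re, by fun_prop⟩
    let Fi : C(spectrum ℂ N, ℝ) := ⟨fun x => (F x).im, by fun_prop⟩
    have hF : F = toC Fr + (I : ℂ) • toC Fi := by
      ext x
      change F x = ((F x).re : ℂ) + I * ((F x).im : ℂ)
      rw [mul_comm]
      exact (Complex.re_add_im (F x)).symm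
    have h1 : cfc f N = cfcHom (R := ℂ) hN F := cfc_apply f N hN hf
    have h2 : ∫ x : spectrum ℂ N, f x.1 ∂μ0
        = ((∫ x, Fr x ∂μ0 : ℝ) : ℂ) + I * ((∫ x, Fi x ∂μ0 : ℝ) : ℂ) := by
      have hi1 : Integrable (fun x => ((Fr x : ℝ) : ℂ)) μ0 :=
        ((Complex.continuous_ofReal.comp Fr.continuous).integrable_of_hasCompactSupport
          (HasCompactSupport.of_compactSpace _))
      have hi2 : Integrable (fun x => ((Fi x : ℝ) : ℂ)) μ0 :=
        ((Complex.continuous_ofReal.comp Fi.continuous).integrable_of_hasCompactSupport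
          (HasCompactSupport.of_compactSpace _))
      rw [← integral_complex_ofReal, ← integral_complex_ofReal, ← integral_const_mul,
        ← integral_add hi1 (hi2.const_mul I)]
      refine integral_congr_ae (ae_of_all _ fun x => ?_)
      change F x = ((F x).re : ℂ) + I * ((F x).im : ℂ)
      rw [mul_comm]
      exact (Complex.re_add_im (F x)).symm
    rw [h2, h1, hF, map_add, map_smul, _root_.add_apply, _root_.smul_apply, inner_add_right,
      inner_smul_right, hreal, hreal]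

theorem continuousOn_fz {R : ℂ → (V →L[ℂ] V)} (h : PRes R) {z : ℂ} (hz : z.im ≠ 0) :
    ContinuousOn (fz z) (spectrum ℂ (R I)) := by
  unfold fz
  refine ContinuousOn.div (by fun_prop) (by fun_prop) fun ζ hζ => ?_
  exact denom_ne hz (h.circ hζ)

theorem PRes.cfc_fz {R : ℂ → (V →L[ℂ] V)} (h : PRes R) {z : ℂ} (hz : z.im ≠ 0) :
    cfc (fz z) (R I) = R z := by
  have hn := h.normal
  have hc := continuousOn_fz h hz
  set W : V →L[ℂ] V := 1 + (z - I) • R z with hW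
  have h1 : (1 + (I - z) • R I) * W = 1 := by
    have h2 := h.op hz I_im_ne
    have h3 := h.comm hz I_im_ne
    rw [hW, mul_add, add_mul, add_mul]
    simp only [one_mul, mul_one, smul_mul_assoc, mul_smul_comm, smul_smul]
    rw [← h3]
    have h4 : (z - I) • R z = (z - I) • R I + ((z - I) * (z - I)) • (R z * R I) := by
      rw [← smul_smul, ← h2, smul_sub]
      abel
    rw [h4]
    have h5 : (I - z) • R I = -((z - I) • R I) := by rw [← neg_smul, neg_sub]
    have h6 : ((I - z) * (z - I)) • (R z * R I) = -(((z - I) * (z - I)) • (R z * R I)) := by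
      rw [← neg_smul]; congr 1; ring
    rw [h5]
    have h7 : ((z - I) * (I - z)) • (R z * R I) = -(((z - I) * (z - I)) • (R z * R I)) := by
      rw [← neg_smul]; congr 1; ring
    first | rw [h6] | rw [h7]
    abel
  have h2 : cfc (fz z) (R I) * (1 + (I - z) • R I) = R I := by
    have e1 : cfc (fun ζ : ℂ => 1 + (I - z) * ζ) (R I) = 1 + (I - z) • R I := by
      rw [cfc_const_add (1:ℂ) (fun ζ : ℂ => (I - z) * ζ) (R I) (by fun_prop) hn,
        cfc_const_mul (I - z) (fun ζ : ℂ => ζ) (R I) (by fun_prop), cfc_id' ℂ (R I) hn, map_one]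
    rw [← e1, ← cfc_mul (fz z) (fun ζ : ℂ => 1 + (I - z) * ζ) (R I) hc (by fun_prop)]
    have e2 : cfc (fun ζ : ℂ => fz z ζ * (1 + (I - z) * ζ)) (R I) = cfc (fun ζ : ℂ => ζ) (R I) := by
      refine cfc_congr fun ζ hζ => ?_
      have := denom_ne hz (h.circ hζ)
      unfold fz
      exact div_mul_cancel₀ _ this
    rw [e2, cfc_id' ℂ (R I) hn]
  calc cfc (fz z) (R I) = cfc (fz z) (R I) * ((1 + (I - z) • R I) * W) := by rw [h1, mul_one]
    _ = R I * W := by rw [← mul_assoc, h2]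
    _ = R I + (z - I) • (R z * R I) := by
      rw [hW, mul_add, mul_one, mul_smul_comm, h.comm hz I_im_ne]
    _ = R z := by rw [← h.op hz I_im_ne]; abel

theorem PRes.exists_rep {R : ℂ → (V →L[ℂ] V)} (h : PRes R) (u : V) :
    ∃ μ : Measure ℝ, IsFiniteMeasure μ ∧ μ.real Set.univ ≤ ‖u‖ ^ 2 ∧ Rep R u μ := by
  obtain ⟨m, hmf, hms, hm⟩ := exists_circle h.normal u
  have hmeas : Measurable lamz := by unfold lamz; fun_prop
  have hne : MeasurableSet {ζ : ℂ | ζ ≠ 0} := (measurableSet_singleton 0).compl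
  have hmass : m.real Set.univ = ‖u‖ ^ 2 := by
    have h1 := hm (fun _ => 1) continuousOn_const
    rw [cfc_const_one ℂ (R I) h.normal] at h1
    rw [integral_const, _root_.one_apply_eq_self, inner_self_eq_norm_sq_to_K] at h1
    have h3 : ((m.real Set.univ : ℝ) : ℂ) = ((‖u‖ ^ 2 : ℝ) : ℂ) := by
      rw [Complex.real_smul, mul_one] at h1
      rw [h1]
      push_cast
      rfl
    exact_mod_cast h3
  refine ⟨(m.restrict {ζ | ζ ≠ 0}).map lamz, inferInstance, ?_, ?_⟩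
  · rw [← hmass, measureReal_def, measureReal_def, Measure.map_apply hmeas MeasurableSet.univ,
      Set.preimage_univ, Measure.restrict_apply_univ]
    exact ENNReal.toReal_mono (measure_ne_top _ _) (measure_mono (subset_univ _))
  · intro z hz
    have hcz : Measurable fun l : ℝ => ((l : ℂ) - z)⁻¹ := by fun_prop
    rw [integral_map hmeas.aemeasurable hcz.aestronglyMeasurable, ← integral_indicator hne,
      ← h.cfc_fz hz, ← hm (fz z) (continuousOn_fz h hz)]
    refine integral_congr_ae ?_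
    filter_upwards [hms] with ζ hζ
    by_cases h0 : ζ = 0
    · rw [h0]; simp [fz]
    · rw [Set.indicator_of_mem (show ζ ∈ {ζ : ℂ | ζ ≠ 0} from h0), fz_eq h0 (h.circ hζ)]

theorem inv_im (z : ℂ) (l : ℝ) : (((l : ℂ) - z)⁻¹).im = pker z l := by
  unfold pker
  rw [Complex.inv_im, Complex.normSq_apply]
  simp only [Complex.sub_im, Complex.sub_re, Complex.ofReal_im, Complex.ofReal_re]
  congr 1
  · ring
  · ring

theorem norm_inv_le {z : ℂ} (hz : 0 < z.im) (l : ℝ) : ‖((l : ℂ) - z)⁻¹‖ ≤ 1 / z.im := by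
  rw [norm_inv, inv_eq_one_div]
  have h1 : z.im ≤ ‖(l : ℂ) - z‖ := by
    have := Complex.abs_im_le_norm ((l : ℂ) - z)
    simp only [Complex.sub_im, Complex.ofReal_im, zero_sub, abs_neg] at this
    exact (le_abs_self _).trans this
  exact one_div_le_one_div_of_le hz h1

omit [CompleteSpace V] in
theorem Rep.pois_im {R : ℂ → (V →L[ℂ] V)} {u : V} {μ : Measure ℝ} [IsFiniteMeasure μ]
    (hμ : Rep R u μ) {z : ℂ} (hz : 0 < z.im) : Pois μ z = (⟪u, R z u⟫_ℂ).im := by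
  rw [hμ z hz.ne']
  have hint : Integrable (fun l : ℝ => ((l : ℂ) - z)⁻¹) μ :=
    Integrable.of_bound (C := 1 / z.im)
      (by fun_prop : Measurable fun l : ℝ => ((l : ℂ) - z)⁻¹).aestronglyMeasurable
      (ae_of_all _ fun l => norm_inv_le hz l)
  have h1 : (∫ l : ℝ, ((l : ℂ) - z)⁻¹ ∂μ).im = ∫ l : ℝ, (((l : ℂ) - z)⁻¹).im ∂μ :=
    (integral_im hint).symm
  rw [h1]
  unfold Pois
  exact integral_congr_ae (ae_of_all _ fun l => (inv_im z l).symm)

/-- a chosen representing measure -/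
noncomputable def PRes.sp {R : ℂ → (V →L[ℂ] V)} (h : PRes R) (u : V) : Measure ℝ :=
  (h.exists_rep u).choose

instance PRes.sp_finite {R : ℂ → (V →L[ℂ] V)} (h : PRes R) (u : V) : IsFiniteMeasure (h.sp u) :=
  (h.exists_rep u).choose_spec.1

theorem PRes.sp_mass {R : ℂ → (V →L[ℂ] V)} (h : PRes R) (u : V) :
    (h.sp u).real Set.univ ≤ ‖u‖ ^ 2 := (h.exists_rep u).choose_spec.2.1

theorem PRes.sp_rep {R : ℂ → (V →L[ℂ] V)} (h : PRes R) (u : V) : Rep R u (h.sp u) :=
  (h.exists_rep u).choose_spec.2.2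

/-- `Im z ‖R z u‖²` along the curve -/
noncomputable def AR (R : ℂ → (V →L[ℂ] V)) (t E : ℝ) (u : V) : ℝ :=
  (Zt t E).im * ‖R (Zt t E) u‖ ^ 2

omit [CompleteSpace V] in
theorem PRes.AR_eq {R : ℂ → (V →L[ℂ] V)} (h : PRes R) {u : V} {μ : Measure ℝ} [IsFiniteMeasure μ]
    (hμ : Rep R u μ) {t : ℝ} (ht : 0 < t) (E : ℝ) : AR R t E u = Pois μ (Zt t E) := by
  rw [hμ.pois_im (Zt_im_pos ht E), h.im_inner u (Zt_im_pos ht E)]
  rfl

/-- common subsequence for finitely many representing measures -/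
theorem PRes.common {R : ℂ → (V →L[ℂ] V)} (h : PRes R) {ι : Type*} [Countable ι] (u : ι → V)
    (μ : ι → Measure ℝ) [∀ i, IsFiniteMeasure (μ i)] (hμ : ∀ i, Rep R (u i) (μ i)) :
    ∃ t : ℕ → ℝ, (∀ k, 0 < t k) ∧ ∀ᵐ E ∂kap, ∀ i,
      Tendsto (fun k => AR R (t k) E (u i)) atTop (𝓝 (Dens (μ i) E)) := by
  obtain ⟨t, ht, ht0⟩ := exists_seq
  obtain ⟨φ, hφ, h2⟩ := common_subseq (ι := ι)
    (F := fun i k E => |Pois (μ i) (Zt (t k) E) - Dens (μ i) E|)
    (fun i k => ((measurable_Pois _ _).sub (measurable_Dens _)).abs)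
    (fun i k x => abs_nonneg _)
    (fun i => (pois_tendsto (μ i)).comp (tendsto_within ht ht0))
  refine ⟨fun k => t (φ k), fun k => ht _, ?_⟩
  filter_upwards [h2] with E hE i
  have h1 := hE i
  rw [tendsto_iff_norm_sub_tendsto_zero]
  refine h1.congr fun k => ?_
  rw [h.AR_eq (hμ i) (ht _)]
  rfl

theorem PRes.dens_unique {R : ℂ → (V →L[ℂ] V)} (h : PRes R) {u : V} {μ ν : Measure ℝ}
    [IsFiniteMeasure μ] [IsFiniteMeasure ν] (hμ : Rep R u μ) (hν : Rep R u ν) :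
    ∀ᵐ E ∂kap, Dens μ E = Dens ν E := by
  have : ∀ i : Bool, IsFiniteMeasure (cond i μ ν) := fun i => by cases i <;> assumption
  obtain ⟨t, ht, h2⟩ := h.common (ι := Bool) (fun _ => u) (fun i => cond i μ ν)
    (fun i => by cases i <;> assumption)
  filter_upwards [h2] with E hE
  exact tendsto_nhds_unique (hE true) (hE false)

theorem PRes.D_add_le {R : ℂ → (V →L[ℂ] V)} (h : PRes R) (u v : V) :
    ∀ᵐ E ∂kap, Dens (h.sp (u + v)) E ≤ 2 * Dens (h.sp u) E + 2 * Dens (h.sp v) E := by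
  obtain ⟨t, ht, h2⟩ := h.common (ι := Fin 3) ![u + v, u, v]
    (fun i => h.sp (![u + v, u, v] i)) (fun i => h.sp_rep _)
  filter_upwards [h2] with E hE
  have h0 := hE 0
  have h1 := hE 1
  have h2 := hE 2
  simp only [Matrix.cons_val_zero, Matrix.cons_val_one, Matrix.cons_val] at h0 h1 h2
  refine le_of_tendsto_of_tendsto' h0 ((h1.const_mul 2).add (h2.const_mul 2)) fun k => ?_
  unfold AR
  have hz := Zt_im_pos (ht k) E
  rw [map_add]
  set a := R (Zt (t k) E) u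
  set b := R (Zt (t k) E) v
  have h1 : ‖a + b‖ ^ 2 ≤ 2 * ‖a‖ ^ 2 + 2 * ‖b‖ ^ 2 := by
    have := norm_add_le a b
    have h2 : ‖a + b‖ ^ 2 ≤ (‖a‖ + ‖b‖) ^ 2 := by gcongr
    nlinarith [sq_nonneg (‖a‖ - ‖b‖)]
  nlinarith

theorem PRes.D_smul {R : ℂ → (V →L[ℂ] V)} (h : PRes R) (c : ℂ) (u : V) :
    ∀ᵐ E ∂kap, Dens (h.sp (c • u)) E = ‖c‖ ^ 2 * Dens (h.sp u) E := by
  obtain ⟨t, ht, h2⟩ := h.common (ι := Fin 2) ![c • u, u]
    (fun i => h.sp (![c • u, u] i)) (fun i => h.sp_rep _)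
  filter_upwards [h2] with E hE
  have h0 := hE 0
  have h1 := hE 1
  simp only [Matrix.cons_val_zero, Matrix.cons_val_one] at h0 h1
  refine tendsto_nhds_unique h0 ?_
  refine (h1.const_mul (‖c‖ ^ 2)).congr fun k => ?_
  unfold AR
  rw [map_smul, norm_smul, mul_pow]
  ring

theorem PRes.integral_D_le {R : ℂ → (V →L[ℂ] V)} (h : PRes R) (u : V) :
    ∫ E, Dens (h.sp u) E ∂kap ≤ ‖u‖ ^ 2 := (integral_Dens_le _).trans (h.sp_mass u)

theorem PRes.D_zero {R : ℂ → (V →L[ℂ] V)} (h : PRes R) {Λ : Type*} {e : Λ → V}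
    (tot : ∀ u, (∀ x, ⟪e x, u⟫_ℂ = 0) → u = 0)
    (h0 : ∀ x, ∀ᵐ E ∂kap, Dens (h.sp (e x)) E = 0) (u : V) :
    ∀ᵐ E ∂kap, Dens (h.sp u) E = 0 := by
  have hspan : ∀ w ∈ Submodule.span ℂ (Set.range e), ∀ᵐ E ∂kap, Dens (h.sp w) E = 0 := by
    intro w hw
    induction hw using Submodule.span_induction with
    | mem w hw =>
      obtain ⟨x, rfl⟩ := hw
      exact h0 x
    | zero =>
      filter_upwards [h.D_smul (0:ℂ) (0:V)] with E hE
      rw [zero_smul] at hE
      rw [hE]; simp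
    | add a b _ _ ha hb =>
      filter_upwards [h.D_add_le a b, ha, hb] with E hE h1 h2
      rw [h1, h2] at hE
      exact le_antisymm (by linarith) (Dens_nonneg _ _)
    | smul c a _ ha =>
      filter_upwards [h.D_smul c a, ha] with E hE h1
      rw [hE, h1, mul_zero]
  have hdense : (Submodule.span ℂ (Set.range e)).topologicalClosure = ⊤ := by
    rw [Submodule.topologicalClosure_eq_top_iff, Submodule.eq_bot_iff]
    intro v hv
    apply tot
    intro x
    exact (Submodule.mem_orthogonal _ _).mp hv (e x) (Submodule.subset_span ⟨x, rfl⟩)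
  have hint : ∫ E, Dens (h.sp u) E ∂kap = 0 := by
    refine le_antisymm ?_ (integral_nonneg fun E => Dens_nonneg _ _)
    refine le_of_forall_pos_le_add fun ε hε => ?_
    rw [zero_add]
    have hu : u ∈ closure ((Submodule.span ℂ (Set.range e) : Submodule ℂ V) : Set V) := by
      rw [← Submodule.topologicalClosure_coe, hdense]
      trivial
    obtain ⟨w, hw, hd⟩ := Metric.mem_closure_iff.mp hu (√(ε / 2)) (by positivity)
    have hle : ∀ᵐ E ∂kap, Dens (h.sp u) E ≤ 2 * Dens (h.sp (u - w)) E := by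
      filter_upwards [h.D_add_le w (u - w), hspan w hw] with E h1 h2
      rw [add_sub_cancel, h2] at h1
      linarith
    calc ∫ E, Dens (h.sp u) E ∂kap ≤ ∫ E, 2 * Dens (h.sp (u - w)) E ∂kap :=
          integral_mono_ae (integrable_Dens _) ((integrable_Dens _).const_mul 2) hle
      _ = 2 * ∫ E, Dens (h.sp (u - w)) E ∂kap := integral_const_mul _ _
      _ ≤ 2 * ‖u - w‖ ^ 2 := by
          refine mul_le_mul_of_nonneg_left (h.integral_D_le _) zero_le_two
      _ ≤ 2 * (√(ε / 2)) ^ 2 := by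
          rw [dist_eq_norm] at hd
          gcongr
      _ = ε := by rw [Real.sq_sqrt (by positivity)]; ring
  exact (integral_eq_zero_iff_of_nonneg (fun E => Dens_nonneg _ E) (integrable_Dens _)).mp hint

theorem PRes.singular_of_total {R : ℂ → (V →L[ℂ] V)} (h : PRes R) {Λ : Type*} {e : Λ → V}
    (tot : ∀ u, (∀ x, ⟪e x, u⟫_ℂ = 0) → u = 0)
    (h0 : ∀ x, ∃ μ : Measure ℝ, IsFiniteMeasure μ ∧ Rep R (e x) μ ∧ ∀ᵐ E ∂kap, Dens μ E = 0)
    (u : V) : ∃ μ : Measure ℝ, IsFiniteMeasure μ ∧ Rep R u μ ∧ μ ⟂ₘ volume := by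
  have h1 : ∀ x, ∀ᵐ E ∂kap, Dens (h.sp (e x)) E = 0 := by
    intro x
    obtain ⟨μ, hf, hμ, h2⟩ := h0 x
    filter_upwards [h2, h.dens_unique hμ (h.sp_rep (e x))] with E h3 h4
    rw [← h4, h3]
  refine ⟨h.sp u, inferInstance, h.sp_rep u, ?_⟩
  rw [← Measure.rnDeriv_eq_zero]
  filter_upwards [ac_kap.ae_le (h.D_zero tot h1 u), Measure.rnDeriv_lt_top (h.sp u) volume]
    with s hs hs2
  unfold Dens at hs
  have h8 := (mul_eq_zero.mp hs).resolve_left Real.pi_ne_zero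
  rcases (ENNReal.toReal_eq_zero_iff _).mp h8 with h | h
  · exact h
  · exact absurd h hs2.ne

end

end Pool.Agent.Lib.MP_562b47_mp.CN
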