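import Pool.Agent.Lib.MP_562b47_mp.CNLimit
import Pool.Agent.Lib.MP_562b47_mp.CNSpec

/-!
Almost sure singularity of the spectral measures.
(Planar model with Cauchy noise, MP_562b47_mp.)
-/

open MeasureTheory Filter Topology Complex Set
open scoped InnerProductSpace ENNReal

namespace Pool.Agent.Lib.MP_562b47_mp.CN

namespace Data

variable {Λ : Type*} [DecidableEq Λ] (D : Data Λ) [Countable Λ]
variable {ρ : Λ → ℕ} {B R : ℕ → Finset Λ} {k0 : ℕ} {g : ℕ → ℝ}

/-- the truncated imaginary part of the Green function -/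
noncomputable def mi (X : Λ → ℝ) (z : ℂ) : ℝ := min 1 (D.gr X z).im

omit [Countable Λ] in
theorem mi_nonneg (X : Λ → ℝ) {z : ℂ} (hz : 0 < z.im) : 0 ≤ D.mi X z :=
  le_min zero_le_one (D.gr_im_pos X hz).le

omit [Countable Λ] in
theorem mi_le_one (X : Λ → ℝ) (z : ℂ) : D.mi X z ≤ 1 := min_le_left _ _

omit [Countable Λ] in
theorem continuous_mi {z : ℂ} (hz : 0 < z.im) : Continuous fun X => D.mi X z := by
  unfold mi
  exact continuous_const.min (Complex.continuous_im.comp (D.continuous_gr hz))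

omit [Countable Λ] in
theorem norm_mi_le (X : Λ → ℝ) {z : ℂ} (hz : 0 < z.im) : ‖D.mi X z‖ ≤ 1 := by
  rw [Real.norm_of_nonneg (D.mi_nonneg X hz)]
  exact D.mi_le_one X z

theorem integrable_mi {z : ℂ} (hz : 0 < z.im) : Integrable (fun X => D.mi X z) (PC Λ) :=
  Integrable.of_bound (C := 1) (D.continuous_mi hz).measurable.aestronglyMeasurable
    (ae_of_all _ fun X => D.norm_mi_le X hz)

/-! ### Joint measurability -/

theorem measurable_mi' {t : ℝ} (ht : 0 < t) :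
    Measurable (fun p : (Λ → ℝ) × ℝ => D.mi p.1 (Zt t p.2)) := by
  have h := D.meas_gr ht
  unfold mi
  exact measurable_const.min (Complex.measurable_im.comp h)

theorem mean_mi_small (L : D.Layers ρ B R k0 g) {δ : ℝ} (hδ : 0 < δ) :
    ∃ t0 : ℝ, 0 < t0 ∧ ∀ t, 0 < t → t < t0 →
      ∫ p : (Λ → ℝ) × ℝ, D.mi p.1 (Zt t p.2) ∂((PC Λ).prod kap) ≤ δ := by
  set K := 24 / δ with hK
  have hK0 : 0 < K := by positivity
  set M := 2 * K ^ 2 with hM
  have hM0 : 0 < M := by positivity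
  obtain ⟨t0, ht0, ht01, h⟩ := D.tau_small L (δ := δ / 2 / ((1 + M) ^ 2 / 4)) (by positivity)
  refine ⟨t0, ht0, fun t ht htt => ?_⟩
  have ht1 : t ≤ 1 := (htt.trans_le ht01).le
  have h1 := h t ht htt
  set P := (PC Λ).prod kap with hP
  set Z := {p : (Λ → ℝ) × ℝ | M < ‖D.gr p.1 (Zt t p.2)‖} with hZ
  have hms : MeasurableSet Z := measurableSet_lt measurable_const (D.meas_gr ht).norm
  have hpt : ∀ p : (Λ → ℝ) × ℝ, D.mi p.1 (Zt t p.2) ≤ Z.indicator (fun _ => (1:ℝ)) p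
      + (1 + M) ^ 2 / 4 * (1 - ‖D.fI p.1 (Zt t p.2)‖ ^ 2) := by
    intro p
    have hz := Zt_im_pos ht p.2
    have h2 : 0 ≤ 1 - ‖D.fI p.1 (Zt t p.2)‖ ^ 2 := by
      have := pow_le_one₀ (n := 2) (norm_nonneg _) (D.norm_fI_le p.1 hz)
      linarith
    by_cases hp : p ∈ Z
    · rw [indicator_of_mem hp]
      have := D.mi_le_one p.1 (Zt t p.2)
      have : 0 ≤ (1 + M) ^ 2 / 4 * (1 - ‖D.fI p.1 (Zt t p.2)‖ ^ 2) := by positivity
      linarith
    · rw [indicator_of_notMem hp, zero_add]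
      have hp' : ‖D.gr p.1 (Zt t p.2)‖ ≤ M := not_lt.mp hp
      have h3 : D.mi p.1 (Zt t p.2) ≤ (D.gr p.1 (Zt t p.2)).im := min_le_right _ _
      refine h3.trans ((D.gr_im_le p.1 hz).trans ?_)
      have h4 : (1 + ‖D.gr p.1 (Zt t p.2)‖) ^ 2 ≤ (1 + M) ^ 2 := by gcongr
      nlinarith
  have hi0 : Integrable (fun p : (Λ → ℝ) × ℝ => D.mi p.1 (Zt t p.2)) P :=
    Integrable.of_bound (C := 1) (D.measurable_mi' ht).aestronglyMeasurable
      (ae_of_all _ fun p => D.norm_mi_le p.1 (Zt_im_pos ht p.2))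
  have hi1 : Integrable (Z.indicator (fun _ => (1:ℝ))) P := (integrable_const (1:ℝ)).indicator hms
  have hi2 : Integrable (fun p : (Λ → ℝ) × ℝ => 1 - ‖D.fI p.1 (Zt t p.2)‖ ^ 2) P :=
    (integrable_const _).sub (D.int_fI ht)
  calc ∫ p : (Λ → ℝ) × ℝ, D.mi p.1 (Zt t p.2) ∂P
      ≤ ∫ p : (Λ → ℝ) × ℝ, (Z.indicator (fun _ => (1:ℝ)) p
        + (1 + M) ^ 2 / 4 * (1 - ‖D.fI p.1 (Zt t p.2)‖ ^ 2)) ∂P :=
        integral_mono hi0 (hi1.add (hi2.const_mul _)) hpt
    _ = P.real Z + (1 + M) ^ 2 / 4 * (1 - D.aI t) := by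
        rw [integral_add hi1 (hi2.const_mul _), integral_const_mul, integral_indicator hms,
          integral_sub (integrable_const _) (D.int_fI ht)]
        simp [aI, hP]
    _ ≤ 12 / K + (1 + M) ^ 2 / 4 * (δ / 2 / ((1 + M) ^ 2 / 4)) := by
        refine add_le_add ?_ (mul_le_mul_of_nonneg_left h1 (by positivity))
        exact D.prob_gr_large hK0 ht ht1
    _ = δ := by
        have e1 : 12 / K = δ / 2 := by rw [hK]; field_simp; norm_num
        have e2 : (1 + M) ^ 2 / 4 * (δ / 2 / ((1 + M) ^ 2 / 4)) = δ / 2 := by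
          have : (1 + M) ^ 2 / 4 ≠ 0 := by positivity
          field_simp
        rw [e1, e2]; ring

/-- the energy average -/
noncomputable def ea (t : ℝ) (X : Λ → ℝ) : ℝ := ∫ E, D.mi X (Zt t E) ∂kap

omit [Countable Λ] in
theorem ea_nonneg {t : ℝ} (ht : 0 < t) (X : Λ → ℝ) : 0 ≤ D.ea t X :=
  integral_nonneg fun E => D.mi_nonneg X (Zt_im_pos ht E)

omit [DecidableEq Λ] [Countable Λ] in
theorem meas_int {α β : Type*} [MeasurableSpace α] [MeasurableSpace β] (ν : Measure β)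
    [SFinite ν] {f : α × β → ℝ} (h : Measurable f) : Measurable fun x => ∫ y, f (x, y) ∂ν :=
  (h.stronglyMeasurable.integral_prod_right').measurable

theorem measurable_ea {t : ℝ} (ht : 0 < t) : Measurable (D.ea t) := by
  have h3 := meas_int kap (D.measurable_mi' ht)
  exact h3

theorem mean_ea {t : ℝ} (ht : 0 < t) :
    ∫ X, D.ea t X ∂(PC Λ) = ∫ p : (Λ → ℝ) × ℝ, D.mi p.1 (Zt t p.2) ∂((PC Λ).prod kap) := by
  unfold ea
  symm
  refine integral_prod _ (Integrable.of_bound (C := 1) ?_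
    (ae_of_all _ fun p => D.norm_mi_le _ (Zt_im_pos ht _)))
  exact (D.measurable_mi' ht).aestronglyMeasurable

theorem tendsto_mean_ea (L : D.Layers ρ B R k0 g) {t : ℕ → ℝ} (ht : ∀ k, 0 < t k)
    (ht0 : Tendsto t atTop (𝓝[>] 0)) :
    Tendsto (fun k => ∫ X, D.ea (t k) X ∂(PC Λ)) atTop (𝓝 0) := by
  rw [Metric.tendsto_atTop]
  intro δ hδ
  obtain ⟨t0, ht0', h⟩ := D.mean_mi_small L (half_pos hδ)
  have h2 : Tendsto t atTop (𝓝 0) := ht0.mono_right nhdsWithin_le_nhds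
  obtain ⟨N, hN⟩ := (h2.eventually (gt_mem_nhds ht0')).exists_forall_of_atTop
  refine ⟨N, fun k hk => ?_⟩
  have h3 := h _ (ht k) (hN k hk)
  rw [Real.dist_eq, sub_zero,
    abs_of_nonneg (integral_nonneg fun X => D.ea_nonneg (ht k) X), D.mean_ea (ht k)]
  linarith

omit [Countable Λ] in
/-- the resolvent family of the real model -/
theorem pres (X : Λ → ℝ) : PRes (RR D.T (D.pot X)) where
  res _ _ hz hw u := RR_res D.hT D.hr _ hz hw u
  adj _ hz u v := RR_adj _ hz u v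

omit [Countable Λ] in
theorem inner_RR (X : Λ → ℝ) {z : ℂ} (hz : 0 < z.im) :
    ⟪eb D.x0, RR D.T (D.pot X) z (eb D.x0)⟫_ℂ = D.gr X z := by
  rw [RR_of_pos hz, inner_eb]
  rfl

omit [Countable Λ] in
theorem abs_min_sub_le (a b : ℝ) : |min 1 a - min 1 b| ≤ min 1 |a - b| ∨
    ¬ (0 ≤ a ∧ 0 ≤ b) := by
  by_cases h : 0 ≤ a ∧ 0 ≤ b
  · left
    obtain ⟨ha, hb⟩ := h
    refine le_min ?_ ?_
    · rw [abs_le]
      have h1 : min 1 a ≤ 1 := min_le_left _ _
      have h2 : min 1 b ≤ 1 := min_le_left _ _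
      have h3 : 0 ≤ min 1 a := le_min zero_le_one ha
      have h4 : 0 ≤ min 1 b := le_min zero_le_one hb
      constructor <;> linarith
    · have := abs_min_sub_min_le_max 1 a 1 b
      simpa using this
  · right; exact h

omit [Countable Λ] in
/-- for every noise configuration the energy averages converge to the truncated density -/
theorem tendsto_ea (X : Λ → ℝ) {μ : Measure ℝ} [IsFiniteMeasure μ]
    (hμ : Rep (RR D.T (D.pot X)) (eb D.x0) μ) {t : ℕ → ℝ} (ht : ∀ k, 0 < t k)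
    (ht0 : Tendsto t atTop (𝓝[>] 0)) :
    Tendsto (fun k => D.ea (t k) X) atTop (𝓝 (∫ E, min 1 (Dens μ E) ∂kap)) := by
  have hp := (pois_tendsto μ).comp ht0
  rw [tendsto_iff_norm_sub_tendsto_zero]
  refine squeeze_zero (fun k => norm_nonneg _) (fun k => ?_) hp
  have hz : ∀ E, 0 < (Zt (t k) E).im := fun E => Zt_im_pos (ht k) E
  have he : ∀ E, D.mi X (Zt (t k) E) = min 1 (Pois μ (Zt (t k) E)) := by
    intro E
    unfold mi
    rw [hμ.pois_im (hz E), D.inner_RR X (hz E)]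
  have hi1 : Integrable (fun E => min 1 (Pois μ (Zt (t k) E))) kap :=
    integrable_min_one (measurable_Pois μ (t k)) fun E => Pois_nonneg μ (hz E)
  have hi2 : Integrable (fun E => min 1 (Dens μ E)) kap :=
    integrable_min_one (measurable_Dens μ) fun E => Dens_nonneg μ E
  unfold ea
  simp only [he, Function.comp]
  rw [← integral_sub hi1 hi2]
  refine (norm_integral_le_integral_norm _).trans ?_
  refine integral_mono_of_nonneg (ae_of_all _ fun E => norm_nonneg _) ?_ (ae_of_all _ fun E => ?_)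
  · exact integrable_min_one ((measurable_Pois μ (t k)).sub (measurable_Dens μ)).abs
      fun E => abs_nonneg _
  · rcases abs_min_sub_le (Pois μ (Zt (t k) E)) (Dens μ E) with h | h
    · exact h
    · exact absurd ⟨Pois_nonneg μ (hz E), Dens_nonneg μ E⟩ h

/-- almost surely the density of the spectral measure of `δ_{x0}` vanishes -/
theorem ae_dens (L : D.Layers ρ B R k0 g) :
    ∀ᵐ X ∂(PC Λ), ∃ μ : Measure ℝ, IsFiniteMeasure μ ∧ Rep (RR D.T (D.pot X)) (eb D.x0) μ ∧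
      ∀ᵐ E ∂kap, Dens μ E = 0 := by
  obtain ⟨t, ht, ht0'⟩ := exists_seq
  have ht0 := tendsto_within ht ht0'
  have hmean := D.tendsto_mean_ea L ht ht0
  have hi : ∀ k, Integrable (D.ea (t k)) (PC Λ) := fun k => by
    refine Integrable.of_bound (C := 1) (D.measurable_ea (ht k)).aestronglyMeasurable
      (ae_of_all _ fun X => ?_)
    rw [Real.norm_of_nonneg (D.ea_nonneg (ht k) X)]
    unfold ea
    calc ∫ E, D.mi X (Zt (t k) E) ∂kap ≤ ∫ _ : ℝ, (1:ℝ) ∂kap := by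
          refine integral_mono_of_nonneg (ae_of_all _ fun E => D.mi_nonneg X (Zt_im_pos (ht k) E))
            (integrable_const _) (ae_of_all _ fun E => D.mi_le_one X _)
      _ = 1 := by simp
  have hlint : ∫⁻ X, liminf (fun k => ENNReal.ofReal (D.ea (t k) X)) atTop ∂(PC Λ) = 0 := by
    refine le_antisymm ?_ (zero_le)
    refine (lintegral_liminf_le fun k => (D.measurable_ea (ht k)).ennreal_ofReal).trans ?_
    have h1 : ∀ k, ∫⁻ X, ENNReal.ofReal (D.ea (t k) X) ∂(PC Λ)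
        = ENNReal.ofReal (∫ X, D.ea (t k) X ∂(PC Λ)) := fun k =>
      (ofReal_integral_eq_lintegral_ofReal (hi k)
        (ae_of_all _ fun X => D.ea_nonneg (ht k) X)).symm
    simp only [h1]
    have h2 : Tendsto (fun k => ENNReal.ofReal (∫ X, D.ea (t k) X ∂(PC Λ))) atTop
        (𝓝 (ENNReal.ofReal 0)) := ENNReal.tendsto_ofReal hmean
    rw [h2.liminf_eq]
    simp
  have hm : Measurable fun X => liminf (fun k => ENNReal.ofReal (D.ea (t k) X)) atTop :=
    Measurable.liminf fun k => (D.measurable_ea (ht k)).ennreal_ofReal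
  have hae := (lintegral_eq_zero_iff hm).mp hlint
  filter_upwards [hae] with X hX
  obtain ⟨μ, hfin, -, hrep⟩ := (D.pres X).exists_rep (eb D.x0)
  refine ⟨μ, hfin, hrep, ?_⟩
  have h1 := D.tendsto_ea X hrep ht ht0
  have h2 : Tendsto (fun k => ENNReal.ofReal (D.ea (t k) X)) atTop
      (𝓝 (ENNReal.ofReal (∫ E, min 1 (Dens μ E) ∂kap))) := ENNReal.tendsto_ofReal h1
  rw [h2.liminf_eq] at hX
  have h3 : ∫ E, min 1 (Dens μ E) ∂kap = 0 := by
    have h4 : ∫ E, min 1 (Dens μ E) ∂kap ≤ 0 := ENNReal.ofReal_eq_zero.mp hX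
    exact le_antisymm h4 (integral_nonneg fun E => le_min zero_le_one (Dens_nonneg μ E))
  have hi2 : Integrable (fun E => min 1 (Dens μ E)) kap :=
    integrable_min_one (measurable_Dens μ) fun E => Dens_nonneg μ E
  have h5 := (integral_eq_zero_iff_of_nonneg
    (fun E => le_min zero_le_one (Dens_nonneg μ E)) hi2).mp h3
  filter_upwards [h5] with E hE
  have hE' : min 1 (Dens μ E) = 0 := hE
  rcases min_choice 1 (Dens μ E) with h | h
  · rw [h] at hE'; norm_num at hE'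
  · rwa [h] at hE'

end Data

/-- the main theorem in abstract form -/
theorem main {Λ : Type*} [DecidableEq Λ] [Countable Λ] {T : L2 Λ →L[ℂ] L2 Λ}
    (hT : IsSelfAdjoint T) (hr : ∀ u, T (star u) = star (T u)) (W ε : Λ → ℝ) (hε : ∀ x, 0 ≤ ε x)
    (hL : ∀ x0 : Λ, ∃ (ρ : Λ → ℕ) (B R : ℕ → Finset Λ) (k0 : ℕ) (g : ℕ → ℝ),
      Data.Layers ⟨T, hT, hr, W, ε, hε, x0⟩ ρ B R k0 g) :
    ∀ᵐ X ∂(PC Λ), ∀ ψ : L2 Λ, ∃ μ : Measure ℝ, IsFiniteMeasure μ ∧
      Rep (RR T (fun x => W x + ε x * X x)) ψ μ ∧ μ ⟂ₘ volume := by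
  have h1 : ∀ x0 : Λ, ∀ᵐ X ∂(PC Λ), ∃ μ : Measure ℝ, IsFiniteMeasure μ ∧
      Rep (RR T (fun x => W x + ε x * X x)) (eb x0) μ ∧ ∀ᵐ E ∂kap, Dens μ E = 0 := by
    intro x0
    obtain ⟨ρ, B, R, k0, g, L⟩ := hL x0
    exact Data.ae_dens ⟨T, hT, hr, W, ε, hε, x0⟩ L
  filter_upwards [ae_all_iff.mpr h1] with X hX ψ
  have hp : PRes (RR T (fun x => W x + ε x * X x)) :=
    { res := fun _ _ hz hw u => RR_res hT hr _ hz hw u
      adj := fun _ hz u v => RR_adj _ hz u v }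
  exact hp.singular_of_total (e := eb) tot_eb hX ψ

end Pool.Agent.Lib.MP_562b47_mp.CN
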