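import Pool.Agent.Lib.MP_562b47_mp.CNStep

/-!
Flux through a double layer bounds the flux into the outside.
(Planar model with Cauchy noise, MP_562b47_mp.)
-/

open MeasureTheory Filter Topology Complex Set
open scoped InnerProductSpace ENNReal

namespace Pool.Agent.Lib.MP_562b47_mp.CN

variable {Λ : Type*}

/-- restriction of a vector to a set of sites -/
noncomputable def restr (p : Λ → Prop) [DecidablePred p] (w : L2 Λ) : L2 Λ :=
  mulL (fun x => if p x then 1 else 0) w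

theorem restr_apply (p : Λ → Prop) [DecidablePred p] (w : L2 Λ) (x : Λ) :
    restr p w x = if p x then w x else 0 := by
  unfold restr
  rw [mulL_apply]
  split_ifs
  · rw [cut_of_le (by simp), one_mul]
  · rw [cut_of_le (by simp), zero_mul]

theorem inner_eq_zero_of_disjoint {a b : L2 Λ} (h : ∀ x, a x = 0 ∨ b x = 0) : ⟪a, b⟫_ℂ = 0 := by
  rw [lp.inner_eq_tsum]
  have : ∀ x, ⟪a x, b x⟫_ℂ = 0 := by
    intro x
    rcases h x with h | h <;> simp [h]
  simp only [this, tsum_zero]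

theorem inner_restr_self (p : Λ → Prop) [DecidablePred p] (w : L2 Λ) :
    ⟪restr p w, w⟫_ℂ = ((‖restr p w‖ ^ 2 : ℝ) : ℂ) := by
  have h1 : ⟪restr p w, w - restr p w⟫_ℂ = 0 := by
    apply inner_eq_zero_of_disjoint
    intro x
    by_cases hp : p x
    · right
      rw [lp.coeFn_sub, Pi.sub_apply, restr_apply, if_pos hp, sub_self]
    · left
      rw [restr_apply, if_neg hp]
  rw [inner_sub_right, sub_eq_zero] at h1
  rw [h1, inner_self_eq_norm_sq_to_K]
  push_cast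
  rfl

/-- energy identity tested against a restriction of the solution -/
theorem energy_restr {T : L2 Λ →L[ℂ] L2 Λ} {V : Λ → ℂ} {z : ℂ}
    {u ψ : L2 Λ} (h : Solves T V z u ψ) (p : Λ → Prop) [DecidablePred p]
    (hψ : ∀ x, p x → ψ x = 0) :
    HasSum (fun x => (-(V x).im) * ‖restr p u x‖ ^ 2)
      ((⟪restr p u, T u⟫_ℂ).im - z.im * ‖restr p u‖ ^ 2) := by
  set y : L2 Λ := ψ - T u + z • u with hy
  have hyx : ∀ x, y x = V x * u x := by
    intro x
    have := h x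
    rw [hy]
    simp only [lp.coeFn_add, lp.coeFn_sub, Pi.add_apply, Pi.sub_apply, lp.coeFn_smul,
      Pi.smul_apply, smul_eq_mul]
    linear_combination -this
  set v := restr p u with hv
  have h1 : HasSum (fun x => ⟪v x, y x⟫_ℂ) ⟪v, y⟫_ℂ := lp.hasSum_inner v y
  have h2 : ∀ x, ⟪v x, y x⟫_ℂ = V x * ((‖v x‖ ^ 2 : ℝ) : ℂ) := by
    intro x
    rw [hyx, hv, restr_apply]
    by_cases hp : p x
    · rw [if_pos hp, RCLike.inner_apply, mul_assoc, Complex.mul_conj, Complex.normSq_eq_norm_sq]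
    · rw [if_neg hp]; simp
  have h3 := Complex.hasSum_im h1
  have h4 : ∀ x, (⟪v x, y x⟫_ℂ).im = (V x).im * ‖v x‖ ^ 2 := by
    intro x; rw [h2, Complex.im_mul_ofReal]
  simp only [h4] at h3
  have h5 : (⟪v, y⟫_ℂ).im = -((⟪v, T u⟫_ℂ).im - z.im * ‖v‖ ^ 2) := by
    have h6 : ⟪v, ψ⟫_ℂ = 0 := by
      apply inner_eq_zero_of_disjoint
      intro x
      by_cases hp : p x
      · right; exact hψ x hp
      · left; rw [hv, restr_apply, if_neg hp]
    rw [hy, inner_add_right, inner_sub_right, inner_smul_right, h6, hv, inner_restr_self,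
      Complex.add_im, Complex.sub_im, Complex.im_mul_ofReal, Complex.zero_im]
    ring
  rw [h5] at h3
  have h6 := h3.neg
  simpa using h6

section loc

variable {T : L2 Λ →L[ℂ] L2 Λ} {ρ : Λ → ℕ}

/-- only the two layers adjacent to the cut contribute to the current -/
theorem current_le (hT : IsSelfAdjoint T)
    (hloc : ∀ (n : ℕ) (u : L2 Λ), (∀ x, n < ρ x → u x = 0) → ∀ x, n + 1 < ρ x → T u x = 0)
    (m : ℕ) (w : L2 Λ) {A : Finset Λ} (hA : ∀ x, x ∈ A ↔ (m < ρ x ∧ ρ x ≤ m + 2)) :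
    (⟪restr (fun x => m + 1 < ρ x) w, T w⟫_ℂ).im ≤ ‖T‖ / 2 * ∑ x ∈ A, ‖w x‖ ^ 2 := by
  set v := restr (fun x => m + 1 < ρ x) w with hv
  set u1 := restr (fun x => ρ x ≤ m) w with hu1
  set u2 := restr (fun x => ρ x = m + 1) w with hu2
  set v2 := restr (fun x => ρ x = m + 2) w with hv2
  have hw : w = v + u1 + u2 := by
    ext x
    simp only [lp.coeFn_add, Pi.add_apply, hv, hu1, hu2, restr_apply]
    rcases lt_trichotomy (ρ x) (m + 1) with h | h | h
    · rw [if_neg (by omega), if_pos (by omega), if_neg (by omega)]; ring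
    · rw [if_neg (by omega), if_neg (by omega), if_pos h]; ring
    · rw [if_pos h, if_neg (by omega), if_neg (by omega)]; ring
  have h1 : ⟪v, T u1⟫_ℂ = 0 := by
    apply inner_eq_zero_of_disjoint
    intro x
    by_cases hx : m + 1 < ρ x
    · right
      refine hloc m u1 (fun y hy => ?_) x hx
      rw [hu1, restr_apply, if_neg (by omega)]
    · left
      rw [hv, restr_apply, if_neg hx]
  have h2 : ⟪v, T u2⟫_ℂ = ⟪v2, T u2⟫_ℂ := by
    rw [← sub_eq_zero, ← inner_sub_left]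
    apply inner_eq_zero_of_disjoint
    intro x
    by_cases hx : m + 2 < ρ x
    · right
      refine hloc (m + 1) u2 (fun y hy => ?_) x (by omega)
      rw [hu2, restr_apply, if_neg (by omega)]
    · left
      rw [lp.coeFn_sub, Pi.sub_apply, hv, hv2, restr_apply, restr_apply]
      by_cases hx2 : ρ x = m + 2
      · rw [if_pos (by omega), if_pos hx2, sub_self]
      · rw [if_neg (by omega), if_neg hx2, sub_self]
  have h3 : ⟪v, T w⟫_ℂ = ⟪v, T v⟫_ℂ + ⟪v2, T u2⟫_ℂ := by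
    calc ⟪v, T w⟫_ℂ = ⟪v, T (v + u1 + u2)⟫_ℂ := by rw [← hw]
      _ = _ := by
        rw [map_add, map_add, inner_add_right, inner_add_right, h1, h2, add_zero]
  have h4 : (⟪v, T w⟫_ℂ).im = (⟪v2, T u2⟫_ℂ).im := by
    rw [h3, Complex.add_im, im_inner_sa hT, zero_add]
  have h5 : (⟪v2, T u2⟫_ℂ).im ≤ ‖v2‖ * (‖T‖ * ‖u2‖) :=
    (le_abs_self _).trans ((Complex.abs_im_le_norm _).trans ((norm_inner_le_norm _ _).trans
      (mul_le_mul_of_nonneg_left (T.le_opNorm u2) (norm_nonneg _))))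
  have h6 : ‖v2‖ ^ 2 + ‖u2‖ ^ 2 = ∑ x ∈ A, ‖w x‖ ^ 2 := by
    rw [L2_norm_sq, L2_norm_sq, ← (L2_summable v2).tsum_add (L2_summable u2)]
    rw [tsum_eq_sum (s := A)]
    · refine Finset.sum_congr rfl fun x hx => ?_
      have := (hA x).mp hx
      rw [hv2, hu2, restr_apply, restr_apply]
      by_cases hx2 : ρ x = m + 2
      · rw [if_pos hx2, if_neg (by omega)]; simp
      · rw [if_neg hx2, if_pos (by omega)]; simp
    · intro x hx
      have : ¬ (m < ρ x ∧ ρ x ≤ m + 2) := fun h => hx ((hA x).mpr h)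
      rw [hv2, hu2, restr_apply, restr_apply, if_neg (by omega), if_neg (by omega)]
      simp
  rw [h4]
  refine h5.trans ?_
  rw [← h6]
  have := norm_nonneg T
  nlinarith [sq_nonneg (‖v2‖ - ‖u2‖), mul_nonneg this (sq_nonneg (‖v2‖ - ‖u2‖))]

end loc

namespace Data

variable [DecidableEq Λ] (D : Data Λ)

/-- the weight of a site in the flux inequality -/
noncomputable def aw (x : Λ) : ℝ := 1 + ‖D.T‖ / D.ε x

/-- the flux identity turned into an inequality: the loss `1 - |f|²` is bounded by a small error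
and by the flux into the double layer around the revealed ball -/
theorem flux_le {ρ : Λ → ℕ} {m : ℕ} (hρ : ρ D.x0 ≤ m)
    (hloc : ∀ (n : ℕ) (u : L2 Λ), (∀ x, n < ρ x → u x = 0) → ∀ x, n + 1 < ρ x → D.T u x = 0)
    {S A : Finset Λ} (hS : ∀ x, x ∈ S ↔ ρ x ≤ m)
    (hA : ∀ x, x ∈ A ↔ (m < ρ x ∧ ρ x ≤ m + 2))
    (hmA : ∀ x ∈ A, 0 < D.ε x) (X : Λ → ℝ) {z : ℂ} (hz : 0 < z.im) :
    1 - ‖D.ff S X z‖ ^ 2 ≤ 4 * ∑ x ∈ A ∪ S, z.im * ‖D.ww S X z x‖ ^ 2
      + ∑ x ∈ A, D.aw x * D.ph S X z x := by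
  set w := D.ww S X z with hw
  set v := restr (fun x => m + 1 < ρ x) w with hv
  have hflux := D.hasSum_flux S X hz
  rw [← hw] at hflux
  -- the part beyond the first layer
  have he := energy_restr (D.ww_solves S X hz) (fun x => m + 1 < ρ x) (fun x hx => by
    rw [eb_apply, if_neg]
    intro h
    rw [h] at hx
    omega)
  rw [← hw, ← hv] at he
  have hcur := current_le D.hT hloc m w hA
  rw [← hv] at hcur
  have hvx : ∀ x, -(D.cfg S X x).im * ‖v x‖ ^ 2 = D.ε x * ‖v x‖ ^ 2 := by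
    intro x
    by_cases hx : m + 1 < ρ x
    · have h1 : x ∉ S := fun h => by have := (hS x).mp h; omega
      have h2 : x ≠ D.x0 := fun h => by rw [h] at hx; omega
      rw [D.cfg_im, if_neg h1, if_neg h2, add_zero]
    · have : v x = 0 := by rw [hv, restr_apply, if_neg hx]
      rw [this]; simp
  simp only [hvx] at he
  -- decomposition of the total sum
  have hN := L2_norm_sq w
  have hsumw := L2_summable w
  set F : Λ → ℝ := fun x => (if x ∈ S then 0 else D.ε x) * ‖w x‖ ^ 2 + z.im * ‖w x‖ ^ 2 with hF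
  have hFsum : HasSum F ((1 - ‖D.ff S X z‖ ^ 2) / 4) := by
    have h1 : HasSum (fun x => z.im * ‖w x‖ ^ 2) (z.im * ‖w‖ ^ 2) := by
      rw [hN]; exact hsumw.hasSum.mul_left _
    have h2 := hflux.add h1
    have h3 : (1 - ‖D.ff S X z‖ ^ 2) / 4 - z.im * ‖w‖ ^ 2 + z.im * ‖w‖ ^ 2
        = (1 - ‖D.ff S X z‖ ^ 2) / 4 := by ring
    rwa [h3] at h2
  set G : Λ → ℝ := fun x => (if x ∈ S then z.im * ‖w x‖ ^ 2 else 0)
    + (if x ∈ A then (D.ε x + z.im) * ‖w x‖ ^ 2 else 0)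
    + (D.ε x * ‖v x‖ ^ 2 + z.im * ‖v x‖ ^ 2) with hG
  have hGsum : HasSum G (∑ x ∈ S, z.im * ‖w x‖ ^ 2 + ∑ x ∈ A, (D.ε x + z.im) * ‖w x‖ ^ 2
      + (⟪v, D.T w⟫_ℂ).im) := by
    have h1 : HasSum (fun x => if x ∈ S then z.im * ‖w x‖ ^ 2 else 0) (∑ x ∈ S, z.im * ‖w x‖ ^ 2) := by
      have h0 : HasSum (fun x => if x ∈ S then z.im * ‖w x‖ ^ 2 else 0)
          (∑ x ∈ S, if x ∈ S then z.im * ‖w x‖ ^ 2 else 0) :=
        hasSum_sum_of_ne_finset_zero (fun b hb => if_neg hb)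
      rwa [Finset.sum_congr rfl fun x hx => if_pos hx] at h0
    have h2 : HasSum (fun x => if x ∈ A then (D.ε x + z.im) * ‖w x‖ ^ 2 else 0)
        (∑ x ∈ A, (D.ε x + z.im) * ‖w x‖ ^ 2) := by
      have h0 : HasSum (fun x => if x ∈ A then (D.ε x + z.im) * ‖w x‖ ^ 2 else 0)
          (∑ x ∈ A, if x ∈ A then (D.ε x + z.im) * ‖w x‖ ^ 2 else 0) :=
        hasSum_sum_of_ne_finset_zero (fun b hb => if_neg hb)
      rwa [Finset.sum_congr rfl fun x hx => if_pos hx] at h0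
    have h3 : HasSum (fun x => z.im * ‖v x‖ ^ 2) (z.im * ‖v‖ ^ 2) := by
      rw [L2_norm_sq v]; exact (L2_summable v).hasSum.mul_left _
    have h4 := (h1.add h2).add (he.add h3)
    have h5 : (⟪v, D.T w⟫_ℂ).im - z.im * ‖v‖ ^ 2 + z.im * ‖v‖ ^ 2 = (⟪v, D.T w⟫_ℂ).im := by ring
    rwa [h5] at h4
  have hFG : ∀ x, F x ≤ G x := by
    intro x
    simp only [hF, hG]
    have hεx := D.hε x
    by_cases hxS : x ∈ S
    · have h1 := (hS x).mp hxS
      have h2 : x ∉ A := fun h => by have := (hA x).mp h; omega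
      have h3 : v x = 0 := by rw [hv, restr_apply, if_neg (by omega)]
      rw [if_pos hxS, if_pos hxS, if_neg h2, h3]
      simp
    · have h1 : m < ρ x := by
        by_contra hcon
        exact hxS ((hS x).mpr (by omega))
      rw [if_neg hxS, if_neg hxS]
      by_cases hxA : x ∈ A
      · rw [if_pos hxA]
        have h4 : 0 ≤ D.ε x * ‖v x‖ ^ 2 + z.im * ‖v x‖ ^ 2 := by positivity
        linarith
      · have h2 : m + 1 < ρ x := by
          by_contra hcon
          exact hxA ((hA x).mpr ⟨h1, by omega⟩)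
        have h3 : v x = w x := by rw [hv, restr_apply, if_pos h2]
        rw [if_neg hxA, h3]
        simp
  have hle := hasSum_le hFG hFsum hGsum
  have hTn := norm_nonneg D.T
  have hAx : ∑ x ∈ A, D.ε x * ‖w x‖ ^ 2 + ‖D.T‖ / 2 * ∑ x ∈ A, ‖w x‖ ^ 2
      ≤ (∑ x ∈ A, D.aw x * D.ph S X z x) / 4 := by
    rw [Finset.mul_sum, ← Finset.sum_add_distrib, Finset.sum_div]
    refine Finset.sum_le_sum fun x hx => ?_
    have hεx := hmA x hx
    unfold aw ph
    rw [← hw]
    have e1 : (1 + ‖D.T‖ / D.ε x) * (4 * D.ε x * ‖w x‖ ^ 2) / 4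
        = (D.ε x + ‖D.T‖) * ‖w x‖ ^ 2 := by
      field_simp
    rw [e1, ← add_mul]
    refine mul_le_mul_of_nonneg_right ?_ (sq_nonneg _)
    linarith
  have hdisj : Disjoint A S := by
    rw [Finset.disjoint_left]
    intro x hxA hxS
    have h1 := (hA x).mp hxA
    have h2 := (hS x).mp hxS
    omega
  have hU : ∑ x ∈ A ∪ S, z.im * ‖w x‖ ^ 2 = ∑ x ∈ A, z.im * ‖w x‖ ^ 2 + ∑ x ∈ S, z.im * ‖w x‖ ^ 2 :=
    Finset.sum_union hdisj
  have hA2 : ∑ x ∈ A, (D.ε x + z.im) * ‖w x‖ ^ 2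
      = ∑ x ∈ A, D.ε x * ‖w x‖ ^ 2 + ∑ x ∈ A, z.im * ‖w x‖ ^ 2 := by
    rw [← Finset.sum_add_distrib]
    exact Finset.sum_congr rfl fun x _ => by ring
  rw [hU]
  rw [hA2] at hle
  linarith

end Data

end Pool.Agent.Lib.MP_562b47_mp.CN
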