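import Pool.Agent.Lib.MP_562b47_mp.Concrete

/-!
Geometry of the `ℓ¹`-balls of the planar lattice, locality of the Laplacian, and the divergence
of `∑ 1 / (k log k)`.  (Anderson model, MP_562b47_mp.)
-/

namespace Pool.Agent.Lib.MP_562b47_mp.CN

/-- the `ℓ¹` distance from `a` -/
def rho (a x : Fin 2 → ℤ) : ℕ := (x 0 - a 0).natAbs + (x 1 - a 1).natAbs

theorem finite_ball (a : Fin 2 → ℤ) (n : ℕ) : {x | rho a x ≤ n}.Finite := by
  refine (Set.finite_Icc (fun i => a i - (n : ℤ)) (fun i => a i + (n : ℤ))).subset ?_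
  intro x hx
  have hx' : rho a x ≤ n := hx
  unfold rho at hx'
  have h0 : a 0 - (n : ℤ) ≤ x 0 ∧ x 0 ≤ a 0 + n := by omega
  have h1 : a 1 - (n : ℤ) ≤ x 1 ∧ x 1 ≤ a 1 + n := by omega
  constructor
  · intro i
    fin_cases i
    · exact h0.1
    · exact h1.1
  · intro i
    fin_cases i
    · exact h0.2
    · exact h1.2

/-- the ball of radius `2k` -/
noncomputable def ballF (a : Fin 2 → ℤ) (k : ℕ) : Finset (Fin 2 → ℤ) :=
  (finite_ball a (2 * k)).toFinset

/-- the double layer `2k+1, 2k+2` -/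
noncomputable def ringF (a : Fin 2 → ℤ) (k : ℕ) : Finset (Fin 2 → ℤ) :=
  (finite_ball a (2 * k + 2)).toFinset.filter (fun x => 2 * k < rho a x)

/-- a finset containing the sphere of radius `m` -/
def sphF (a : Fin 2 → ℤ) (m : ℕ) : Finset (Fin 2 → ℤ) :=
  (((Finset.range m).image (fun i : ℕ => ![a 0 + ((m : ℤ) - i), a 1 + i]) ∪
    (Finset.range m).image (fun i : ℕ => ![a 0 - i, a 1 + ((m : ℤ) - i)])) ∪
    (Finset.range m).image (fun i : ℕ => ![a 0 - ((m : ℤ) - i), a 1 - i])) ∪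
    (Finset.range m).image (fun i : ℕ => ![a 0 + i, a 1 - ((m : ℤ) - i)])

theorem card_sphF (a : Fin 2 → ℤ) (m : ℕ) : (sphF a m).card ≤ 4 * m := by
  have h : ∀ f : ℕ → (Fin 2 → ℤ), ((Finset.range m).image f).card ≤ m := fun f =>
    Finset.card_image_le.trans (by simp)
  unfold sphF
  refine (Finset.card_union_le _ _).trans ?_
  refine (add_le_add_left (Finset.card_union_le _ _) _).trans ?_
  refine (add_le_add_left (add_le_add_left (Finset.card_union_le _ _) _) _).trans ?_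
  have h1 := h (fun i : ℕ => ![a 0 + ((m : ℤ) - i), a 1 + i])
  have h2 := h (fun i : ℕ => ![a 0 - i, a 1 + ((m : ℤ) - i)])
  have h3 := h (fun i : ℕ => ![a 0 - ((m : ℤ) - i), a 1 - i])
  have h4 := h (fun i : ℕ => ![a 0 + i, a 1 - ((m : ℤ) - i)])
  omega

theorem mem_sphF {a x : Fin 2 → ℤ} {m : ℕ} (hm : 0 < m) (h : rho a x = m) : x ∈ sphF a m := by
  unfold rho at h
  have hx : ∀ s t : ℤ, x 0 = s → x 1 = t → ![s, t] = x := by
    intro s t h0 h1
    funext i
    fin_cases i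
    · exact h0.symm
    · exact h1.symm
  unfold sphF
  simp only [Finset.mem_union, Finset.mem_image, Finset.mem_range]
  by_cases c1 : 0 < x 0 - a 0 ∧ 0 ≤ x 1 - a 1
  · refine Or.inl (Or.inl (Or.inl ⟨(x 1 - a 1).natAbs, by omega, ?_⟩))
    exact hx _ _ (by omega) (by omega)
  by_cases c2 : x 0 - a 0 ≤ 0 ∧ 0 < x 1 - a 1
  · refine Or.inl (Or.inl (Or.inr ⟨(x 0 - a 0).natAbs, by omega, ?_⟩))
    exact hx _ _ (by omega) (by omega)
  by_cases c3 : x 0 - a 0 < 0 ∧ x 1 - a 1 ≤ 0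
  · refine Or.inl (Or.inr ⟨(x 1 - a 1).natAbs, by omega, ?_⟩)
    exact hx _ _ (by omega) (by omega)
  · refine Or.inr ⟨(x 0 - a 0).natAbs, by omega, ?_⟩
    exact hx _ _ (by omega) (by omega)

theorem card_ringF (a : Fin 2 → ℤ) (k : ℕ) : (ringF a k).card ≤ 16 * k + 12 := by
  have hsub : ringF a k ⊆ sphF a (2 * k + 1) ∪ sphF a (2 * k + 2) := by
    intro x hx
    unfold ringF at hx
    rw [Finset.mem_filter, Set.Finite.mem_toFinset] at hx
    obtain ⟨h1, h2⟩ := hx
    have h1' : rho a x ≤ 2 * k + 2 := h1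
    rw [Finset.mem_union]
    rcases Nat.lt_or_ge (rho a x) (2 * k + 2) with h | h
    · exact Or.inl (mem_sphF (by omega) (by omega))
    · exact Or.inr (mem_sphF (by omega) (by omega))
  refine (Finset.card_le_card hsub).trans ((Finset.card_union_le _ _).trans ?_)
  have h1 := card_sphF a (2 * k + 1)
  have h2 := card_sphF a (2 * k + 2)
  omega

theorem rho_step (a x : Fin 2 → ℤ) (i : Fin 2) :
    rho a x ≤ rho a (x + Pi.single i 1) + 1 ∧ rho a x ≤ rho a (x - Pi.single i 1) + 1 := by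
  unfold rho
  fin_cases i
  · simp only [Fin.zero_eta, Pi.add_apply, Pi.sub_apply, Pi.single_eq_same, Fin.isValue]
    rw [Pi.single_eq_of_ne (show (1 : Fin 2) ≠ 0 by decide)]
    constructor <;> omega
  · simp only [Fin.mk_one, Pi.add_apply, Pi.sub_apply, Pi.single_eq_same, Fin.isValue]
    rw [Pi.single_eq_of_ne (show (0 : Fin 2) ≠ 1 by decide)]
    constructor <;> omega

/-- locality of the Laplacian -/
theorem loc_lap (a : Fin 2 → ℤ) (n : ℕ) (u : L2 (Fin 2 → ℤ)) (hu : ∀ x, n < rho a x → u x = 0) :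
    ∀ x, n + 1 < rho a x → lapL 2 u x = 0 := by
  intro x hx
  rw [lapL_apply, neg_eq_zero]
  refine Finset.sum_eq_zero fun i _ => ?_
  have h := rho_step a x i
  have h1 : u (x + uv 2 i) = 0 := hu _ (by
    change n < rho a (x + Pi.single i 1)
    omega)
  have h2 : u (x - uv 2 i) = 0 := hu _ (by
    change n < rho a (x - Pi.single i 1)
    omega)
  rw [h1, h2, hu x (by omega)]
  simp

theorem not_summable_log (M N : ℝ) (hM : 0 ≤ M) (hN : 0 ≤ N) :
    ¬ Summable (fun k : ℕ => 1 / ((1 + M * √(Real.log (N + 2 * k + 4))) ^ 2 *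
      (16 * (k : ℝ) + 12))) := by
  intro hs
  have hlog : ∀ k : ℕ, 0 ≤ Real.log (N + 2 * k + 4) := fun k => by
    apply Real.log_nonneg
    have : (0 : ℝ) ≤ k := Nat.cast_nonneg k
    linarith
  have hcond := (summable_condensed_iff_of_nonneg
    (f := fun k : ℕ => 1 / ((1 + M * √(Real.log (N + 2 * k + 4))) ^ 2 * (16 * (k : ℝ) + 12)))
    (fun k => by positivity) (by
      intro m n _ hmn
      have hmn' : (m : ℝ) ≤ n := by exact_mod_cast hmn
      have hm0 : (0 : ℝ) ≤ m := Nat.cast_nonneg m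
      have h1 : √(Real.log (N + 2 * m + 4)) ≤ √(Real.log (N + 2 * n + 4)) := by
        apply Real.sqrt_le_sqrt
        apply Real.log_le_log (by linarith)
        linarith
      apply one_div_le_one_div_of_le (by positivity)
      gcongr)).mpr hs
  -- the constant
  set B : ℝ := Real.log (N + 6) + 1 with hB
  have hB1 : 1 ≤ B := by
    have : 0 ≤ Real.log (N + 6) := Real.log_nonneg (by linarith)
    linarith
  set D : ℝ := (1 + M * √B) ^ 2 * 28 with hD
  have hD0 : 0 < D := by positivity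
  have hle : ∀ k : ℕ, D⁻¹ * (1 / ((k : ℝ) + 1)) ≤ (2 : ℝ) ^ k * (1 / ((1 + M *
      √(Real.log (N + 2 * ((2 ^ k : ℕ) : ℝ) + 4))) ^ 2 * (16 * ((2 ^ k : ℕ) : ℝ) + 12))) := by
    intro k
    push_cast
    have hk0 : (0 : ℝ) ≤ k := Nat.cast_nonneg k
    have hp : (1 : ℝ) ≤ 2 ^ k := one_le_pow₀ (by norm_num)
    have h1 : Real.log (N + 2 * 2 ^ k + 4) ≤ B * (k + 1) := by
      have h2 : N + 2 * 2 ^ k + 4 ≤ (N + 6) * 2 ^ k := by nlinarith
      have h3 : Real.log (N + 2 * 2 ^ k + 4) ≤ Real.log ((N + 6) * 2 ^ k) :=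
        Real.log_le_log (by positivity) h2
      rw [Real.log_mul (by positivity) (by positivity), Real.log_pow] at h3
      have h4 : Real.log 2 ≤ 1 := by
        have := Real.log_two_lt_d9
        linarith
      have h5 : (k : ℝ) * Real.log 2 ≤ k * 1 := mul_le_mul_of_nonneg_left h4 hk0
      have h6 : 0 ≤ Real.log (N + 6) := Real.log_nonneg (by linarith)
      rw [hB]
      nlinarith
    have h2 : √(Real.log (N + 2 * 2 ^ k + 4)) ≤ √B * √((k : ℝ) + 1) := by
      rw [← Real.sqrt_mul (by linarith)]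
      exact Real.sqrt_le_sqrt h1
    have h3 : (1 : ℝ) ≤ √((k : ℝ) + 1) := by
      rw [Real.one_le_sqrt]
      linarith
    have h4 : 1 + M * √(Real.log (N + 2 * 2 ^ k + 4)) ≤ (1 + M * √B) * √((k : ℝ) + 1) := by
      have h5 : M * √(Real.log (N + 2 * 2 ^ k + 4)) ≤ M * (√B * √((k : ℝ) + 1)) :=
        mul_le_mul_of_nonneg_left h2 hM
      nlinarith
    have h5 : (1 + M * √(Real.log (N + 2 * 2 ^ k + 4))) ^ 2 ≤ (1 + M * √B) ^ 2 * ((k : ℝ) + 1) := by
      calc (1 + M * √(Real.log (N + 2 * 2 ^ k + 4))) ^ 2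
          ≤ ((1 + M * √B) * √((k : ℝ) + 1)) ^ 2 := pow_le_pow_left₀ (by positivity) h4 2
        _ = (1 + M * √B) ^ 2 * ((k : ℝ) + 1) := by
          rw [mul_pow, Real.sq_sqrt (by linarith)]
    have h6 : (1 + M * √(Real.log (N + 2 * 2 ^ k + 4))) ^ 2 * (16 * 2 ^ k + 12) ≤
        D * ((k : ℝ) + 1) * 2 ^ k := by
      calc (1 + M * √(Real.log (N + 2 * 2 ^ k + 4))) ^ 2 * (16 * 2 ^ k + 12)
          ≤ ((1 + M * √B) ^ 2 * ((k : ℝ) + 1)) * (28 * 2 ^ k) := by
            apply mul_le_mul h5 (by linarith) (by positivity) (by positivity)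
        _ = D * ((k : ℝ) + 1) * 2 ^ k := by rw [hD]; ring
    calc D⁻¹ * (1 / ((k : ℝ) + 1)) = 2 ^ k * (1 / (D * ((k : ℝ) + 1) * 2 ^ k)) := by
          field_simp
      _ ≤ 2 ^ k * (1 / ((1 + M * √(Real.log (N + 2 * 2 ^ k + 4))) ^ 2 * (16 * 2 ^ k + 12))) := by
          apply mul_le_mul_of_nonneg_left _ (by positivity)
          exact one_div_le_one_div_of_le (by positivity) h6
  have hs2 : Summable (fun k : ℕ => D⁻¹ * (1 / ((k : ℝ) + 1))) :=
    Summable.of_nonneg_of_le (fun k => by positivity) hle hcond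
  have hs3 : Summable (fun k : ℕ => 1 / ((k : ℝ) + 1)) :=
    (summable_mul_left_iff (inv_ne_zero hD0.ne')).mp hs2
  have hs4 : Summable (fun k : ℕ => 1 / (((k + 1 : ℕ) : ℝ))) := by
    refine hs3.congr fun k => ?_
    push_cast
    rfl
  exact Real.not_summable_one_div_natCast ((summable_nat_add_iff 1).mp hs4)

end Pool.Agent.Lib.MP_562b47_mp.CN
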