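import Pool.Agent.Lib.MP_562b47_mp.CNFlux
import Pool.Agent.Lib.MP_562b47_mp.Hardy

/-!
Kolmogorov's fractional moment bound for Green functions, averaged over the energy.
(Planar model with Cauchy noise, MP_562b47_mp.)
-/

open MeasureTheory Filter Topology Complex Set
open scoped InnerProductSpace ENNReal

namespace Pool.Agent.Lib.MP_562b47_mp.CN

/-- the half plane -/
def HP : Set ℂ := {z | 0 < z.im}

theorem isOpen_HP : IsOpen HP := isOpen_lt continuous_const Complex.continuous_im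

/-- a holomorphic square root of a function with positive imaginary part -/
noncomputable def sq (u : ℂ) : ℂ := Complex.exp (Complex.log (-I * u) / 2)

theorem sq_sq {u : ℂ} (hu : 0 < u.im) : sq u * sq u = -I * u := by
  unfold sq
  rw [← Complex.exp_add, add_halves, Complex.exp_log]
  intro h
  have h1 := congrArg Complex.re h
  simp at h1
  linarith

theorem norm_sq' {u : ℂ} (hu : 0 < u.im) : ‖sq u‖ ^ 2 = ‖u‖ := by
  have h := congrArg norm (sq_sq hu)
  rw [norm_mul, norm_mul, norm_neg, Complex.norm_I, one_mul] at h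
  rw [_root_.sq, h]

theorem norm_le_re {u : ℂ} (hu : 0 < u.im) : ‖sq u‖ ≤ 2 * (sq u).re := by
  have h0 : 0 < (-I * u).re := by simpa using hu
  have harg : |(-I * u).arg| < Real.pi / 2 := Complex.abs_arg_lt_pi_div_two_iff.mpr (Or.inl h0)
  have hre : 0 ≤ (sq u).re := by
    unfold sq
    rw [Complex.exp_re]
    have h2 : (Complex.log (-I * u) / 2).im = (-I * u).arg / 2 := by
      rw [Complex.div_ofNat_im, Complex.log_im]
    rw [h2]
    refine mul_nonneg (Real.exp_pos _).le (Real.cos_nonneg_of_mem_Icc ?_)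
    rw [abs_lt] at harg
    constructor <;> linarith [Real.pi_pos]
  have h3 : ((sq u).re) ^ 2 - ((sq u).im) ^ 2 = u.im := by
    have h4 := congrArg Complex.re (sq_sq hu)
    rw [Complex.mul_re] at h4
    have h5 : (-I * u).re = u.im := by simp
    rw [h5] at h4
    linarith
  have h6 : ‖sq u‖ ^ 2 = (sq u).re ^ 2 + (sq u).im ^ 2 := by
    rw [← Complex.normSq_eq_norm_sq, Complex.normSq_apply]; ring
  have h7 : ‖sq u‖ ^ 2 ≤ (2 * (sq u).re) ^ 2 := by nlinarith
  exact le_of_sq_le_sq h7 (by linarith)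
where
  le_of_sq_le_sq {a b : ℝ} (h : a ^ 2 ≤ b ^ 2) (hb : 0 ≤ b) : a ≤ b := by
    exact (abs_le_of_sq_le_sq' h hb).2

/-- mean value property on the energy circles -/
theorem mean_value {g : ℂ → ℂ} (hg : DifferentiableOn ℂ g HP) {t : ℝ} (ht : 0 < t) (ht1 : t ≤ 1) :
    ∫ E, g (Zt t E) ∂kap = g I := by
  have hf : DifferentiableOn ℂ (fun w => g (zw w)) (Metric.ball 0 1) :=
    hg.comp differentiableOn_zw fun w hw => zw_im (by simpa using hw)
  obtain ⟨h0, h1⟩ := rt_mem ht ht1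
  have h2 := tay_coeff hf h0 h1 0
  simp only [pow_zero, mul_one, map_one] at h2
  have h3 : tay (fun w => g (zw w)) 0 = g I := by
    unfold tay
    simp [zw]
  rw [h3] at h2
  rw [h2]
  refine integral_congr_ae (ae_of_all _ fun E => ?_)
  simp only
  rw [zw_rt ht]

theorem bounded_circle {g : ℂ → ℂ} (hg : DifferentiableOn ℂ g HP) {t : ℝ} (ht : 0 < t)
    (ht1 : t ≤ 1) : ∃ C, ∀ E, ‖g (Zt t E)‖ ≤ C := by
  have hf : DifferentiableOn ℂ (fun w => g (zw w)) (Metric.ball 0 1) :=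
    hg.comp differentiableOn_zw fun w hw => zw_im (by simpa using hw)
  obtain ⟨h0, h1⟩ := rt_mem ht ht1
  refine ⟨∑' m, ‖tay (fun w => g (zw w)) m * (rt t : ℂ) ^ m‖, fun E => ?_⟩
  rw [← zw_rt ht]
  have h2 := tay_curve hf h0 h1 E
  rw [h2]
  exact norm_series_le (summable_tay hf h0 h1) E

theorem Zt_cont (t : ℝ) (ht : 0 < t) : Continuous (Zt t) := by
  have h : Zt t = fun E => ((E * (1 - t ^ 2) / (1 + t ^ 2 * E ^ 2) : ℝ) : ℂ)
      + ((t * (1 + E ^ 2) / (1 + t ^ 2 * E ^ 2) : ℝ) : ℂ) * I := by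
    funext E
    apply Complex.ext
    · rw [Complex.add_re, Complex.ofReal_re, Complex.re_ofReal_mul, Complex.I_re, mul_zero,
        add_zero]
      rfl
    · rw [Complex.add_im, Complex.ofReal_im, Complex.im_ofReal_mul, Complex.I_im, mul_one,
        zero_add]
      rfl
  rw [h]
  have h1 : ∀ E : ℝ, (1 + t ^ 2 * E ^ 2) ≠ 0 := fun E => by positivity
  have c1 : Continuous fun E : ℝ => E * (1 - t ^ 2) / (1 + t ^ 2 * E ^ 2) :=
    Continuous.div (by fun_prop) (by fun_prop) h1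
  have c2 : Continuous fun E : ℝ => t * (1 + E ^ 2) / (1 + t ^ 2 * E ^ 2) :=
    Continuous.div (by fun_prop) (by fun_prop) h1
  fun_prop

theorem differentiableOn_sq {g : ℂ → ℂ} (hg : DifferentiableOn ℂ g HP)
    (him : ∀ z ∈ HP, 0 < (g z).im) : DifferentiableOn ℂ (fun z => sq (g z)) HP := by
  intro z hz
  unfold sq
  refine ((DifferentiableWithinAt.clog ((hg z hz).const_mul (-I)) ?_).div_const 2).cexp
  left
  have := him z hz
  simpa using this

theorem integrable_circle {g : ℂ → ℂ} (hg : DifferentiableOn ℂ g HP) {t : ℝ} (ht : 0 < t)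
    (ht1 : t ≤ 1) : Integrable (fun E => g (Zt t E)) kap := by
  obtain ⟨C, hC⟩ := bounded_circle hg ht ht1
  refine Integrable.of_bound (C := C) ?_ (ae_of_all _ hC)
  exact (hg.continuousOn.comp_continuous (Zt_cont t ht)
    fun E => Zt_im_pos ht E).aestronglyMeasurable

/-- Kolmogorov's inequality -/
theorem kolmogorov {g : ℂ → ℂ} (hg : DifferentiableOn ℂ g HP) (him : ∀ z ∈ HP, 0 < (g z).im)
    {t : ℝ} (ht : 0 < t) (ht1 : t ≤ 1) :
    ∫ E, ‖sq (g (Zt t E))‖ ∂kap ≤ 2 * ‖sq (g I)‖ := by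
  have hd := differentiableOn_sq hg him
  have hi := integrable_circle hd ht ht1
  have h1 := mean_value hd ht ht1
  have h2 : ∫ E, (sq (g (Zt t E))).re ∂kap = (sq (g I)).re := by
    rw [← h1]
    exact integral_re hi
  have hire : Integrable (fun E => (sq (g (Zt t E))).re) kap := hi.re
  calc ∫ E, ‖sq (g (Zt t E))‖ ∂kap ≤ ∫ E, 2 * (sq (g (Zt t E))).re ∂kap :=
        integral_mono hi.norm (hire.const_mul 2) fun E => norm_le_re (him _ (Zt_im_pos ht E))
    _ = 2 * (sq (g I)).re := by rw [integral_const_mul, h2]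
    _ ≤ _ := by
        have := (le_abs_self _).trans (Complex.abs_re_le_norm (sq (g I)))
        linarith

/-- weak type bound on the energy circles -/
theorem weak_type {g : ℂ → ℂ} (hg : DifferentiableOn ℂ g HP) (him : ∀ z ∈ HP, 0 < (g z).im)
    {t : ℝ} (ht : 0 < t) (ht1 : t ≤ 1) {K : ℝ} (hK : 0 < K) :
    kap.real {E | K ^ 2 < ‖g (Zt t E)‖} ≤ 2 * ‖sq (g I)‖ / K := by
  have hd := differentiableOn_sq hg him
  have hi := integrable_circle hd ht ht1
  have h1 := mul_meas_ge_le_integral_of_nonneg (ae_of_all kap fun E => norm_nonneg (sq (g (Zt t E))))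
    hi.norm K
  have h2 : {E | K ^ 2 < ‖g (Zt t E)‖} ⊆ {E | K ≤ ‖sq (g (Zt t E))‖} := by
    intro E hE
    have hE' : K ^ 2 < ‖g (Zt t E)‖ := hE
    rw [← norm_sq' (him _ (Zt_im_pos ht E))] at hE'
    exact (lt_of_pow_lt_pow_left₀ 2 (norm_nonneg _) hE').le
  rw [le_div_iff₀ hK, mul_comm]
  calc K * kap.real {E | K ^ 2 < ‖g (Zt t E)‖} ≤ K * kap.real {E | K ≤ ‖sq (g (Zt t E))‖} := by
        gcongr
        exact measure_ne_top _ _
    _ ≤ _ := h1
    _ ≤ _ := kolmogorov hg him ht ht1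

section green

variable {Λ : Type*} {T : L2 Λ →L[ℂ] L2 Λ}

theorem hasDerivAt_RC (hT : IsSelfAdjoint T) {V : Λ → ℂ} (hV : Adm V) (φ ψ : L2 Λ) {w : ℂ}
    (hw : 0 < w.im) :
    HasDerivAt (fun z => ⟪φ, RC T V z ψ⟫_ℂ) ⟪φ, RC T V w (RC T V w ψ)⟫_ℂ w := by
  rw [hasDerivAt_iff_tendsto_slope]
  have h1 : ContinuousOn (fun z => ⟪φ, RC T V z (RC T V w ψ)⟫_ℂ) HP :=
    continuousOn_const.inner (continuousOn_RC_z hT hV _)
  have h2 : Tendsto (fun z => ⟪φ, RC T V z (RC T V w ψ)⟫_ℂ) (𝓝[≠] w)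
      (𝓝 ⟪φ, RC T V w (RC T V w ψ)⟫_ℂ) :=
    ((h1.continuousAt (isOpen_HP.mem_nhds hw)).tendsto).mono_left nhdsWithin_le_nhds
  refine h2.congr' ?_
  have h3 : ∀ᶠ z in 𝓝[≠] w, z ∈ HP := nhdsWithin_le_nhds (isOpen_HP.mem_nhds hw)
  filter_upwards [h3, self_mem_nhdsWithin] with z hz hne
  have hne' : z - w ≠ 0 := sub_ne_zero.mpr hne
  rw [slope_def_field, ← inner_sub_right, RC_sub_RC hT hV hz hw, inner_smul_right]
  field_simp

theorem differentiableOn_RC (hT : IsSelfAdjoint T) {V : Λ → ℂ} (hV : Adm V) (φ ψ : L2 Λ) :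
    DifferentiableOn ℂ (fun z => ⟪φ, RC T V z ψ⟫_ℂ) HP := fun _ hw =>
  (hasDerivAt_RC hT hV φ ψ hw).differentiableAt.differentiableWithinAt

theorem im_diag_pos (hT : IsSelfAdjoint T) {V : Λ → ℂ} (hV : Adm V) {φ : L2 Λ} (hφ : φ ≠ 0) {z : ℂ}
    (hz : 0 < z.im) : 0 < (⟪φ, RC T V z φ⟫_ℂ).im := by
  have h1 := RC_solves hT hV hz φ
  have h2 := energy_le hT hV h1
  have h3 : RC T V z φ ≠ 0 := by
    intro h0
    apply hφ
    ext x
    have h4 := h1 x
    rw [h0, map_zero] at h4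
    simpa using h4.symm
  have h4 : 0 < ‖RC T V z φ‖ := norm_pos_iff.mpr h3
  have h5 : 0 < z.im * ‖RC T V z φ‖ ^ 2 := by positivity
  linarith

theorem weak_diag (hT : IsSelfAdjoint T) {V : Λ → ℂ} (hV : Adm V) {φ : L2 Λ} (hφ : φ ≠ 0)
    {t : ℝ} (ht : 0 < t) (ht1 : t ≤ 1) {K : ℝ} (hK : 0 < K) :
    kap.real {E | K ^ 2 < ‖⟪φ, RC T V (Zt t E) φ⟫_ℂ‖} ≤ 2 * ‖φ‖ / K := by
  have h := weak_type (differentiableOn_RC hT hV φ φ) (fun z hz => im_diag_pos hT hV hφ hz) ht ht1 hK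
  refine h.trans ?_
  have h1 : ‖sq ⟪φ, RC T V I φ⟫_ℂ‖ ≤ ‖φ‖ := by
    have h2 := norm_sq' (im_diag_pos hT hV hφ (z := I) (by simp))
    have h3 : ‖⟪φ, RC T V I φ⟫_ℂ‖ ≤ ‖φ‖ * ‖φ‖ := by
      refine (norm_inner_le_norm _ _).trans ?_
      have h4 := norm_RC_le hT hV (z := I) (by simp) φ
      simp only [Complex.I_im, div_one] at h4
      gcongr
    have h5 : ‖sq ⟪φ, RC T V I φ⟫_ℂ‖ ^ 2 ≤ ‖φ‖ ^ 2 := by rw [h2]; linarith [sq ‖φ‖]
    exact (abs_le_of_sq_le_sq' h5 (norm_nonneg _)).2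
  gcongr

variable [DecidableEq Λ]

/-- weak type bound for the entries of the Green function -/
theorem weak_entry (hT : IsSelfAdjoint T) (hr : ∀ u, T (star u) = star (T u)) {V : Λ → ℂ}
    (hV : Adm V) (x y : Λ) {t : ℝ} (ht : 0 < t) (ht1 : t ≤ 1) {K : ℝ} (hK : 0 < K) :
    kap.real {E | 2 * K ^ 2 < ‖GG T V (Zt t E) x y‖} ≤ 12 / K := by
  have hne : ∀ a : Λ, (eb a : L2 Λ) ≠ 0 := fun a h => by
    have := orthonormal_eb.1 a
    rw [h] at this
    simp at this
  have hd : ∀ a : Λ, kap.real {E | K ^ 2 < ‖GG T V (Zt t E) a a‖} ≤ 2 / K := by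
    intro a
    have h := weak_diag hT hV (hne a) ht ht1 hK
    rw [orthonormal_eb.1, mul_one] at h
    simp only [inner_eb] at h
    exact h
  have hK2 : 0 < K ^ 2 := by positivity
  by_cases hxy : x = y
  · subst hxy
    have h1 : {E | 2 * K ^ 2 < ‖GG T V (Zt t E) x x‖} ⊆ {E | K ^ 2 < ‖GG T V (Zt t E) x x‖} := by
      intro E hE
      have hE' : 2 * K ^ 2 < ‖GG T V (Zt t E) x x‖ := hE
      change K ^ 2 < _
      linarith
    calc _ ≤ kap.real {E | K ^ 2 < ‖GG T V (Zt t E) x x‖} :=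
          measureReal_mono h1 (measure_ne_top _ _)
      _ ≤ 2 / K := hd x
      _ ≤ 12 / K := by gcongr; norm_num
  · set φ : L2 Λ := eb x + eb y with hφ
    have hφ0 : φ ≠ 0 := by
      intro h
      have h1 : φ x = 1 := by
        rw [hφ, lp.coeFn_add, Pi.add_apply, eb_apply, eb_apply, if_pos rfl, if_neg hxy, add_zero]
      rw [h] at h1
      simp at h1
    have hφn : ‖φ‖ ≤ 2 := by
      refine (norm_add_le _ _).trans ?_
      rw [orthonormal_eb.1, orthonormal_eb.1]; norm_num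
    have h0 := weak_diag hT hV hφ0 ht ht1 hK
    have he : ∀ z : ℂ, 0 < z.im → ⟪φ, RC T V z φ⟫_ℂ
        = GG T V z x x + GG T V z y y + 2 * GG T V z x y := by
      intro z hz
      have h1 := GG_symm hT hr hV hz x y
      rw [hφ, map_add, inner_add_left, inner_add_right, inner_add_right, inner_eb, inner_eb,
        inner_eb, inner_eb]
      change GG T V z x x + GG T V z x y + (GG T V z y x + GG T V z y y) = _
      rw [← h1]; ring
    have hsub : {E | 2 * K ^ 2 < ‖GG T V (Zt t E) x y‖} ⊆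
        ({E | K ^ 2 < ‖⟪φ, RC T V (Zt t E) φ⟫_ℂ‖} ∪ {E | K ^ 2 < ‖GG T V (Zt t E) x x‖}) ∪
          {E | K ^ 2 < ‖GG T V (Zt t E) y y‖} := by
      intro E hE
      have hE' : 2 * K ^ 2 < ‖GG T V (Zt t E) x y‖ := hE
      by_contra hcon
      simp only [mem_union, mem_ofPred_eq, not_or, not_lt] at hcon
      obtain ⟨⟨h1, h2⟩, h3⟩ := hcon
      rw [he _ (Zt_im_pos ht E)] at h1
      set a := GG T V (Zt t E) x x
      set b := GG T V (Zt t E) y y
      set c := GG T V (Zt t E) x y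
      have h4 : 2 * c = (a + b + 2 * c) - a - b := by ring
      have h5 : ‖2 * c‖ ≤ ‖a + b + 2 * c‖ + ‖a‖ + ‖b‖ := by
        conv_lhs => rw [h4]
        exact (norm_sub_le _ _).trans (by gcongr; exact norm_sub_le _ _)
      rw [norm_mul, Complex.norm_ofNat] at h5
      linarith
    calc _ ≤ kap.real (({E | K ^ 2 < ‖⟪φ, RC T V (Zt t E) φ⟫_ℂ‖} ∪
          {E | K ^ 2 < ‖GG T V (Zt t E) x x‖}) ∪ {E | K ^ 2 < ‖GG T V (Zt t E) y y‖}) :=
          measureReal_mono hsub (measure_ne_top _ _)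
      _ ≤ kap.real {E | K ^ 2 < ‖⟪φ, RC T V (Zt t E) φ⟫_ℂ‖} +
          kap.real {E | K ^ 2 < ‖GG T V (Zt t E) x x‖} +
          kap.real {E | K ^ 2 < ‖GG T V (Zt t E) y y‖} :=
          (measureReal_union_le _ _).trans (by gcongr; exact measureReal_union_le _ _)
      _ ≤ 2 * 2 / K + 2 / K + 2 / K := by
          refine add_le_add (add_le_add (h0.trans ?_) (hd x)) (hd y)
          gcongr
      _ ≤ 12 / K := by
          rw [← add_div, ← add_div]
          gcongr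
          norm_num

end green

end Pool.Agent.Lib.MP_562b47_mp.CN
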