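import Pool.Agent.Lib.MP_562b47_mp.CNMain

/-!
Passage to the real model: the mean of `min 1 (Im G)` tends to zero as `Im z → 0`.
(Planar model with Cauchy noise, MP_562b47_mp.)
-/

open MeasureTheory Filter Topology Complex Set
open scoped InnerProductSpace ENNReal

namespace Pool.Agent.Lib.MP_562b47_mp.CN

namespace Data

variable {Λ : Type*} [DecidableEq Λ] (D : Data Λ)

/-- the real potential -/
noncomputable def pot (X : Λ → ℝ) (x : Λ) : ℝ := D.W x + D.ε x * X x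

/-- everything revealed, extra absorption at `x0` -/
noncomputable def cfgI (X : Λ → ℝ) : Λ → ℂ :=
  Function.update (fun x => (D.pot X x : ℂ)) D.x0 ((D.pot X D.x0 : ℂ) - I)

theorem cfgI_apply (X : Λ → ℝ) (x : Λ) :
    D.cfgI X x = (D.pot X x : ℂ) - (if x = D.x0 then I else 0) := by
  unfold cfgI
  by_cases h : x = D.x0
  · subst h; rw [Function.update_self, if_pos rfl]
  · rw [Function.update_of_ne h, if_neg h, sub_zero]

theorem adm_cfgI (X : Λ → ℝ) : Adm (D.cfgI X) := by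
  intro x
  rw [cfgI_apply]
  split_ifs <;> simp

theorem cfg_of_mem {S : Finset Λ} {x : Λ} (hx : x ∈ S) (X : Λ → ℝ) :
    D.cfg S X x = D.cfgI X x := by
  rw [cfgI_apply]
  unfold cfg pot
  rw [if_pos hx]
  push_cast; ring

/-- the limiting functional -/
noncomputable def fI (X : Λ → ℝ) (z : ℂ) : ℂ := 1 + 2 * I * RC D.T (D.cfgI X) z (eb D.x0) D.x0

theorem tendsto_ff {B : ℕ → Finset Λ} (hB : ∀ x, ∀ᶠ k in atTop, x ∈ B k) (X : Λ → ℝ) {z : ℂ}
    (hz : 0 < z.im) : Tendsto (fun k => D.ff (B k) X z) atTop (𝓝 (D.fI X z)) := by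
  have h1 : Continuous fun V : {V : Λ → ℂ // Adm V} => RC D.T V.1 z (eb D.x0) :=
    continuous_RC D.hT (fun x => (continuous_apply x).comp continuous_subtype_val)
      (fun V => V.2) hz _
  have h2 : Tendsto (fun k => (⟨D.cfg (B k) X, D.adm_cfg _ _⟩ : {V : Λ → ℂ // Adm V})) atTop
      (𝓝 ⟨D.cfgI X, D.adm_cfgI X⟩) := by
    rw [tendsto_subtype_rng, tendsto_pi_nhds]
    intro x
    refine tendsto_const_nhds.congr' ?_
    filter_upwards [hB x] with k hk
    exact (D.cfg_of_mem hk X).symm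
  have h3 := (h1.tendsto _).comp h2
  have h4 : Tendsto (fun k => D.ww (B k) X z D.x0) atTop
      (𝓝 (RC D.T (D.cfgI X) z (eb D.x0) D.x0)) := by
    have h5 : Tendsto (fun k => ⟪eb D.x0, D.ww (B k) X z⟫_ℂ) atTop
        (𝓝 ⟪eb D.x0, RC D.T (D.cfgI X) z (eb D.x0)⟫_ℂ) := tendsto_const_nhds.inner h3
    simpa only [inner_eb] using h5
  unfold ff fI
  exact (h4.const_mul _).const_add _

/-- the Green function of the real model at the base point -/
noncomputable def gr (X : Λ → ℝ) (z : ℂ) : ℂ := GG D.T (fun x => (D.pot X x : ℂ)) z D.x0 D.x0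

theorem gr_im_pos (X : Λ → ℝ) {z : ℂ} (hz : 0 < z.im) : 0 < (D.gr X z).im := by
  have h1 := RC_solves D.hT (adm_real (D.pot X)) hz (eb D.x0)
  have h2 := energy_le D.hT (adm_real (D.pot X)) h1
  rw [inner_eb] at h2
  have h3 : RC D.T (fun x => (D.pot X x : ℂ)) z (eb D.x0) ≠ 0 := by
    intro h0
    have h4 := h1 D.x0
    rw [h0, map_zero, eb_apply, if_pos rfl] at h4
    simp at h4
  have h4 : 0 < ‖RC D.T (fun x => (D.pot X x : ℂ)) z (eb D.x0)‖ := norm_pos_iff.mpr h3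
  have h5 : 0 < z.im * ‖RC D.T (fun x => (D.pot X x : ℂ)) z (eb D.x0)‖ ^ 2 := by positivity
  exact lt_of_lt_of_le h5 h2

theorem fI_eq (X : Λ → ℝ) {z : ℂ} (hz : 0 < z.im) :
    D.fI X z = 1 + 2 * I * (D.gr X z / (1 - I * D.gr X z)) := by
  have hv : ((D.pot X D.x0 : ℂ) - I).im ≤ 0 := by simp
  have h1 := GG_update D.hT (adm_real (D.pot X)) hz D.x0 hv D.x0 D.x0
  have h2 := GG_update_ne D.hT (adm_real (D.pot X)) hz D.x0 hv
  have h3 : (D.pot X D.x0 : ℂ) - I - (D.pot X D.x0 : ℂ) = -I := by ring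
  rw [h3] at h1 h2
  have h4 : 1 + -I * GG D.T (fun x => (D.pot X x : ℂ)) z D.x0 D.x0 = 1 - I * D.gr X z := by
    unfold gr; ring
  rw [h4] at h1 h2
  have h5 : D.fI X z = 1 + 2 * I * GG D.T (Function.update (fun x => (D.pot X x : ℂ)) D.x0
      ((D.pot X D.x0 : ℂ) - I)) z D.x0 D.x0 := rfl
  rw [h5, h1]
  congr 2
  change D.gr X z - -I * D.gr X z / (1 - I * D.gr X z) * D.gr X z = _
  have e : -I * D.gr X z / (1 - I * D.gr X z) * D.gr X z
      = -I * D.gr X z * D.gr X z / (1 - I * D.gr X z) := by ring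
  rw [e, eq_div_iff h2, sub_mul, div_mul_cancel₀ _ h2]
  ring

theorem one_sub_fI (X : Λ → ℝ) {z : ℂ} (hz : 0 < z.im) :
    1 - ‖D.fI X z‖ ^ 2 = 4 * (D.gr X z).im / ‖1 - I * D.gr X z‖ ^ 2 := by
  have hv : ((D.pot X D.x0 : ℂ) - I).im ≤ 0 := by simp
  have h2 := GG_update_ne D.hT (adm_real (D.pot X)) hz D.x0 hv
  have h3 : (D.pot X D.x0 : ℂ) - I - (D.pot X D.x0 : ℂ) = -I := by ring
  rw [h3] at h2
  have h4 : 1 + -I * GG D.T (fun x => (D.pot X x : ℂ)) z D.x0 D.x0 = 1 - I * D.gr X z := by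
    unfold gr; ring
  rw [h4] at h2
  rw [D.fI_eq X hz]
  set g := D.gr X z
  have h5 := one_sub_normSq 1 (g / (1 - I * g))
  simp only [Complex.ofReal_one, mul_one, one_mul] at h5
  rw [h5]
  have hn : 0 < ‖1 - I * g‖ ^ 2 := by
    have := norm_pos_iff.mpr h2
    positivity
  rw [norm_div, div_pow, Complex.div_im, ← Complex.normSq_eq_norm_sq (1 - I * g)] at *
  rw [Complex.normSq_eq_norm_sq (1 - I * g)] at *
  rw [eq_div_iff hn.ne']
  have e1 : ‖g‖ ^ 2 = g.re ^ 2 + g.im ^ 2 := by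
    rw [← Complex.normSq_eq_norm_sq, Complex.normSq_apply]; ring
  have e2 : (1 - I * g).re = 1 + g.im := by simp
  have e3 : (1 - I * g).im = -g.re := by simp
  rw [e1, e2, e3]
  field_simp
  ring

theorem gr_im_le (X : Λ → ℝ) {z : ℂ} (hz : 0 < z.im) :
    (D.gr X z).im ≤ (1 - ‖D.fI X z‖ ^ 2) * (1 + ‖D.gr X z‖) ^ 2 / 4 := by
  rw [D.one_sub_fI X hz]
  have him := D.gr_im_pos X hz
  set g := D.gr X z
  have h1 : ‖1 - I * g‖ ≤ 1 + ‖g‖ := by
    refine (norm_sub_le _ _).trans ?_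
    rw [norm_one, norm_mul, Complex.norm_I, one_mul]
  have h2 : 0 < ‖1 - I * g‖ := by
    have h3 : (1 - I * g).re = 1 + g.im := by simp
    have h4 : 1 + g.im ≤ ‖1 - I * g‖ := by
      rw [← h3]; exact (le_abs_self _).trans (Complex.abs_re_le_norm _)
    linarith
  have h3 : ‖1 - I * g‖ ^ 2 ≤ (1 + ‖g‖) ^ 2 := by gcongr
  rw [div_mul_eq_mul_div, div_div, le_div_iff₀ (by positivity)]
  nlinarith

theorem norm_fI_le (X : Λ → ℝ) {z : ℂ} (hz : 0 < z.im) : ‖D.fI X z‖ ≤ 1 := by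
  have h := D.one_sub_fI X hz
  have him := D.gr_im_pos X hz
  have h1 : 0 ≤ 4 * (D.gr X z).im / ‖1 - I * D.gr X z‖ ^ 2 := by positivity
  have h2 : ‖D.fI X z‖ ^ 2 ≤ 1 := by linarith
  exact (sq_le_one_iff₀ (norm_nonneg _)).mp h2

theorem continuous_pot (x : Λ) : Continuous fun X => D.pot X x := by
  unfold pot; fun_prop

theorem continuous_gr {z : ℂ} (hz : 0 < z.im) : Continuous fun X => D.gr X z := by
  have h := continuous_RC (Y := Λ → ℝ) D.hT (β := fun X x => (D.pot X x : ℂ))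
    (fun x => Complex.continuous_ofReal.comp (D.continuous_pot x))
    (fun X => adm_real (D.pot X)) hz (eb D.x0)
  have h2 : Continuous fun X => ⟪eb D.x0, RC D.T (fun x => (D.pot X x : ℂ)) z (eb D.x0)⟫_ℂ :=
    continuous_const.inner h
  change Continuous fun X => RC D.T (fun x => (D.pot X x : ℂ)) z (eb D.x0) D.x0
  simpa only [inner_eb] using h2

theorem continuous_fI {z : ℂ} (hz : 0 < z.im) : Continuous fun X => D.fI X z := by
  have h : Continuous fun X => 1 + 2 * I * (D.gr X z / (1 - I * D.gr X z)) := by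
    have h1 := D.continuous_gr hz
    refine continuous_const.add (continuous_const.mul (h1.div (by fun_prop) fun X => ?_))
    intro h0
    have h3 := congrArg Complex.re h0
    have h4 := D.gr_im_pos X hz
    simp at h3
    linarith
  refine h.congr fun X => ?_
  rw [D.fI_eq X hz]

variable [Countable Λ]

/-- the mean of `|f|²` in the real model -/
noncomputable def AI (z : ℂ) : ℝ := ∫ X, ‖D.fI X z‖ ^ 2 ∂(PC Λ)

theorem integrable_fI_sq {z : ℂ} (hz : 0 < z.im) :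
    Integrable (fun X => ‖D.fI X z‖ ^ 2) (PC Λ) :=
  Integrable.of_bound (C := 1) ((D.continuous_fI hz).norm.pow 2).measurable.aestronglyMeasurable
    (ae_of_all _ fun X => by
      rw [Real.norm_of_nonneg (by positivity)]
      exact pow_le_one₀ (norm_nonneg _) (D.norm_fI_le X hz))

theorem tendsto_AA {B : ℕ → Finset Λ} (hB : ∀ x, ∀ᶠ k in atTop, x ∈ B k) {z : ℂ}
    (hz : 0 < z.im) : Tendsto (fun k => D.AA (B k) z) atTop (𝓝 (D.AI z)) := by
  unfold AA AI
  refine tendsto_integral_of_dominated_convergence (fun _ => (1:ℝ))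
    (fun k => (D.integrable_ff_sq (B k) hz).aestronglyMeasurable) (integrable_const _)
    (fun k => ae_of_all _ fun X => D.ff_sq_bd (B k) X hz) (ae_of_all _ fun X => ?_)
  exact (D.tendsto_ff hB X hz).norm.pow 2

/-- hypotheses on the layers -/
structure Layers (ρ : Λ → ℕ) (B R : ℕ → Finset Λ) (k0 : ℕ) (g : ℕ → ℝ) : Prop where
  h0 : ρ D.x0 ≤ 2 * k0
  loc : ∀ (n : ℕ) (u : L2 Λ), (∀ x, n < ρ x → u x = 0) → ∀ x, n + 1 < ρ x → D.T u x = 0
  hB : ∀ k x, x ∈ B k ↔ ρ x ≤ 2 * k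
  hR : ∀ k x, x ∈ R k ↔ (2 * k < ρ x ∧ ρ x ≤ 2 * k + 2)
  hg0 : ∀ k, 0 ≤ g k
  hgR : ∀ k, 0 < g k → ∀ x ∈ R k, 0 < D.ε x
  hg : ∀ k, g k * ∑ x ∈ R k, D.aw x ^ 2 ≤ 1
  div : ¬ Summable g

/-- the mean of `|f|²` in the real model, averaged over the energy -/
noncomputable def aI (t : ℝ) : ℝ :=
  ∫ p : (Λ → ℝ) × ℝ, ‖D.fI p.1 (Zt t p.2)‖ ^ 2 ∂((PC Λ).prod kap)

theorem cont_gr_E (X : Λ → ℝ) {t : ℝ} (ht : 0 < t) : Continuous fun E => D.gr X (Zt t E) := by
  have h := continuousOn_RC_z D.hT (adm_real (D.pot X)) (eb D.x0)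
  have h2 : ContinuousOn (fun z => ⟪eb D.x0, RC D.T (fun x => (D.pot X x : ℂ)) z (eb D.x0)⟫_ℂ)
      HP := continuousOn_const.inner h
  have h3 : ContinuousOn (fun z => D.gr X z) HP := by
    change ContinuousOn (fun z => RC D.T (fun x => (D.pot X x : ℂ)) z (eb D.x0) D.x0) HP
    simpa only [inner_eb] using h2
  exact h3.comp_continuous (Zt_cont t ht) fun E => Zt_im_pos ht E

theorem cont_fI_E (X : Λ → ℝ) {t : ℝ} (ht : 0 < t) : Continuous fun E => D.fI X (Zt t E) := by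
  have h1 := D.cont_gr_E X ht
  have h : Continuous fun E => 1 + 2 * I * (D.gr X (Zt t E) / (1 - I * D.gr X (Zt t E))) := by
    refine continuous_const.add (continuous_const.mul (h1.div (by fun_prop) fun E => ?_))
    intro h0
    have h3 := congrArg Complex.re h0
    have h4 := D.gr_im_pos X (Zt_im_pos ht E)
    simp at h3
    linarith
  refine h.congr fun E => ?_
  rw [D.fI_eq X (Zt_im_pos ht E)]

theorem meas_gr {t : ℝ} (ht : 0 < t) :
    Measurable fun p : (Λ → ℝ) × ℝ => D.gr p.1 (Zt t p.2) :=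
  meas_joint (F := fun E X => D.gr X (Zt t E)) (fun X => D.cont_gr_E X ht)
    fun E => D.continuous_gr (Zt_im_pos ht E)

theorem meas_fI {t : ℝ} (ht : 0 < t) :
    Measurable fun p : (Λ → ℝ) × ℝ => D.fI p.1 (Zt t p.2) :=
  meas_joint (F := fun E X => D.fI X (Zt t E)) (fun X => D.cont_fI_E X ht)
    fun E => D.continuous_fI (Zt_im_pos ht E)

theorem int_fI {t : ℝ} (ht : 0 < t) :
    Integrable (fun p : (Λ → ℝ) × ℝ => ‖D.fI p.1 (Zt t p.2)‖ ^ 2) ((PC Λ).prod kap) :=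
  Integrable.of_bound (C := 1) ((D.meas_fI ht).norm.pow_const 2).aestronglyMeasurable
    (ae_of_all _ fun p => by
      rw [Real.norm_of_nonneg (by positivity)]
      exact pow_le_one₀ (norm_nonneg _) (D.norm_fI_le p.1 (Zt_im_pos ht p.2)))

variable {ρ : Λ → ℕ} {B R : ℕ → Finset Λ} {k0 : ℕ} {g : ℕ → ℝ}

theorem tendsto_aa {B : ℕ → Finset Λ} (hB : ∀ x, ∀ᶠ k in atTop, x ∈ B k) {t : ℝ}
    (ht : 0 < t) : Tendsto (fun k => D.aa (B k) t) atTop (𝓝 (D.aI t)) := by
  unfold aa aI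
  refine tendsto_integral_of_dominated_convergence (fun _ => (1:ℝ))
    (fun k => (D.int_ff (B k) ht).aestronglyMeasurable) (integrable_const _)
    (fun k => ae_of_all _ fun p => D.ff_sq_bd (B k) p.1 (Zt_im_pos ht p.2))
    (ae_of_all _ fun p => ?_)
  exact (D.tendsto_ff hB p.1 (Zt_im_pos ht p.2)).norm.pow 2

theorem tau_small (L : D.Layers ρ B R k0 g) {δ : ℝ} (hδ : 0 < δ) :
    ∃ t0 : ℝ, 0 < t0 ∧ t0 ≤ 1 ∧ ∀ t, 0 < t → t < t0 → 1 - D.aI t ≤ δ := by
  obtain ⟨N, hN⟩ : ∃ N, 4 / δ ^ 2 < ∑ k ∈ Finset.range N, g (k + k0) := by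
    have h0 : ¬ Summable fun k => g (k + k0) := fun h => L.div ((summable_nat_add_iff k0).mp h)
    have h1 := (not_summable_iff_tendsto_nat_atTop_of_nonneg (fun k => L.hg0 (k + k0))).mp h0
    exact (h1.eventually (eventually_gt_atTop _)).exists
  set M : ℝ := ((B (N + k0)).card : ℝ) with hM
  have hM0 : 0 ≤ M := Nat.cast_nonneg _
  obtain ⟨t0, ht0, ht01, herr⟩ := D.ew_small (δ := δ / (8 * (M + 1))) (by positivity)
  refine ⟨t0, ht0, ht01, fun t ht htt => ?_⟩
  have ht1 : t ≤ 1 := (htt.trans_le ht01).le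
  by_contra hcon
  push Not at hcon
  have hB : ∀ x, ∀ᶠ k in atTop, x ∈ B (k + k0) := by
    intro x
    filter_upwards [eventually_ge_atTop (ρ x)] with k hk
    rw [L.hB]; omega
  have hBsub : ∀ {k l}, k ≤ l → B k ⊆ B l := by
    intro k l hkl x hx
    rw [L.hB] at hx ⊢
    omega
  have hunion : ∀ k, R k ∪ B k = B (k + 1) := by
    intro k
    ext x
    rw [Finset.mem_union, L.hR, L.hB, L.hB]
    omega
  have hx0 : ∀ k, D.x0 ∈ B (k + k0) := fun k => by
    rw [L.hB]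
    have := L.h0
    omega
  have hRB : ∀ k, ∀ x ∈ R k, x ∉ B k := fun k x hx h => by
    rw [L.hR] at hx
    rw [L.hB] at h
    omega
  have hsucc : ∀ k, R (k + k0) ∪ B (k + k0) = B (k + 1 + k0) := fun k => by
    rw [hunion]; congr 1; omega
  have hmono1 : ∀ k, D.aa (B (k + k0)) t ≤ D.aa (B (k + 1 + k0)) t := fun k => by
    have h1 := D.aa_union (hx0 k) ht ht1 (R (k + k0)) (hRB (k + k0))
    rw [hsucc] at h1
    have h2 : 0 ≤ ∑ x ∈ R (k + k0), D.bb' (B (k + k0)) t x :=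
      Finset.sum_nonneg fun x _ => D.bb_nonneg _ _ _
    linarith
  have hmono : Monotone fun k => D.aa (B (k + k0)) t := monotone_nat_of_le_succ hmono1
  have hle : ∀ k, D.aa (B (k + k0)) t ≤ D.aI t := fun k =>
    hmono.ge_of_tendsto (D.tendsto_aa hB ht) k
  have hstep : ∀ k < N, δ ^ 2 / 4 * g (k + k0)
      ≤ D.aa (B (k + 1 + k0)) t - D.aa (B (k + k0)) t := by
    intro k hk
    rcases (L.hg0 (k + k0)).eq_or_lt with hg | hg
    · rw [← hg, mul_zero]
      linarith [hmono1 k]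
    · have he : 4 * ∑ x ∈ R (k + k0) ∪ B (k + k0), D.ew (B (k + k0)) t x ≤ δ / 2 := by
        have h1 : ∑ x ∈ R (k + k0) ∪ B (k + k0), D.ew (B (k + k0)) t x
            ≤ ((R (k + k0) ∪ B (k + k0)).card : ℝ) * (δ / (8 * (M + 1))) := by
          rw [← nsmul_eq_mul]
          exact Finset.sum_le_card_nsmul _ _ _ fun x _ => herr t ht htt _ x
        have h2 : ((R (k + k0) ∪ B (k + k0)).card : ℝ) ≤ M := by
          rw [hsucc, hM]
          exact_mod_cast Finset.card_le_card (hBsub (by omega))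
        have h3 : ((R (k + k0) ∪ B (k + k0)).card : ℝ) * (δ / (8 * (M + 1)))
            ≤ (M + 1) * (δ / (8 * (M + 1))) := by gcongr; linarith
        have h4 : (M + 1) * (δ / (8 * (M + 1))) = δ / 8 := by field_simp
        linarith
      have hρ0 : ρ D.x0 ≤ 2 * (k + k0) := by have := L.h0; omega
      have h1 := D.step hρ0 L.loc (L.hB (k + k0)) (L.hR (k + k0)) (L.hgR _ hg) ht ht1 hδ
        (by have := hle k; linarith) he
      rw [hsucc] at h1
      have h2 := L.hg (k + k0)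
      have h3 : 0 ≤ D.aa (B (k + 1 + k0)) t - D.aa (B (k + k0)) t := by linarith [hmono1 k]
      calc δ ^ 2 / 4 * g (k + k0) ≤ ((∑ x ∈ R (k + k0), D.aw x ^ 2)
            * (D.aa (B (k + 1 + k0)) t - D.aa (B (k + k0)) t)) * g (k + k0) := by gcongr
        _ = (g (k + k0) * ∑ x ∈ R (k + k0), D.aw x ^ 2)
            * (D.aa (B (k + 1 + k0)) t - D.aa (B (k + k0)) t) := by ring
        _ ≤ 1 * (D.aa (B (k + 1 + k0)) t - D.aa (B (k + k0)) t) :=
            mul_le_mul_of_nonneg_right h2 h3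
        _ = _ := one_mul _
  have hsum : δ ^ 2 / 4 * ∑ k ∈ Finset.range N, g (k + k0) ≤ 1 := by
    rw [Finset.mul_sum]
    calc _ ≤ ∑ k ∈ Finset.range N, (D.aa (B (k + 1 + k0)) t - D.aa (B (k + k0)) t) :=
          Finset.sum_le_sum fun k hk => hstep k (Finset.mem_range.mp hk)
      _ = D.aa (B (N + k0)) t - D.aa (B (0 + k0)) t :=
          Finset.sum_range_sub (fun k => D.aa (B (k + k0)) t) N
      _ ≤ 1 := by
          have h1 : 0 ≤ D.aa (B (0 + k0)) t := integral_nonneg fun p => by positivity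
          have h2 : D.aa (B (N + k0)) t ≤ 1 := by
            unfold aa
            calc _ ≤ ∫ _ : (Λ → ℝ) × ℝ, (1:ℝ) ∂((PC Λ).prod kap) := by
                  refine integral_mono (D.int_ff _ ht) (integrable_const _) fun p => ?_
                  exact pow_le_one₀ (norm_nonneg _) (D.norm_ff_le _ p.1 (Zt_im_pos ht p.2))
              _ = 1 := by simp
          linarith
  have h4 : 0 < δ ^ 2 / 4 := by positivity
  have h5 : δ ^ 2 / 4 * (4 / δ ^ 2) = 1 := by field_simp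
  have h6 := mul_lt_mul_of_pos_left hN h4
  rw [h5] at h6
  linarith

/-! ### From `|f|²` to `Im G` -/

theorem prob_gr_large {K : ℝ} (hK : 0 < K) {t : ℝ} (ht : 0 < t) (ht1 : t ≤ 1) :
    ((PC Λ).prod kap).real {p | 2 * K ^ 2 < ‖D.gr p.1 (Zt t p.2)‖} ≤ 12 / K := by
  have hms : MeasurableSet {p : (Λ → ℝ) × ℝ | 2 * K ^ 2 < ‖D.gr p.1 (Zt t p.2)‖} :=
    measurableSet_lt measurable_const (D.meas_gr ht).norm
  rw [Measure.real, Measure.prod_apply hms]
  refine ENNReal.toReal_le_of_le_ofReal (by positivity) ?_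
  calc ∫⁻ X, kap (Prod.mk X ⁻¹' {p | 2 * K ^ 2 < ‖D.gr p.1 (Zt t p.2)‖}) ∂(PC Λ)
      ≤ ∫⁻ _, ENNReal.ofReal (12 / K) ∂(PC Λ) := by
        refine lintegral_mono fun X => ?_
        have h := weak_entry D.hT D.hr (adm_real (D.pot X)) D.x0 D.x0 ht ht1 hK
        exact (ENNReal.le_ofReal_iff_toReal_le (measure_ne_top _ _) (by positivity)).mpr h
    _ = ENNReal.ofReal (12 / K) := by simp

end Data

end Pool.Agent.Lib.MP_562b47_mp.CN
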