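import Pool.Agent.Lib.MP_562b47_mp.CNKol

/-!
The martingale argument: revealing double layers one after the other.
(Planar model with Cauchy noise, MP_562b47_mp.)
-/

open MeasureTheory Filter Topology Complex Set
open scoped InnerProductSpace ENNReal

namespace Pool.Agent.Lib.MP_562b47_mp.CN

/-- the law of the noise: independent standard Cauchy variables -/
noncomputable def PC (Λ : Type*) : Measure (Λ → ℝ) := Measure.infinitePi fun _ => kap

instance (Λ : Type*) : IsProbabilityMeasure (PC Λ) := by unfold PC; infer_instance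

/-- resampling one coordinate -/
theorem int_upd {Λ : Type*} [DecidableEq Λ] {F : (Λ → ℝ) → ℝ} (hF : Measurable F)
    {C : ℝ} (hb : ∀ X, ‖F X‖ ≤ C) (y : Λ) :
    ∫ X, F X ∂(PC Λ) = ∫ X, (∫ s, F (Function.update X y s) ∂kap) ∂(PC Λ) := by
  have hmp := measurePreserving_upd (Λ := Λ) kap y
  have h1 : ∫ X, F X ∂(PC Λ) = ∫ p, F (Function.update p.1 y p.2) ∂((PC Λ).prod kap) := by
    unfold PC
    nth_rewrite 1 [← hmp.map_eq]
    rw [integral_map hmp.measurable.aemeasurable hF.aestronglyMeasurable]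
  rw [h1, integral_prod]
  refine Integrable.of_bound (C := C) ?_ (ae_of_all _ fun p => hb _)
  exact (hF.comp hmp.measurable).aestronglyMeasurable

theorem integrable_inner_upd {Λ : Type*} [DecidableEq Λ] {F : (Λ → ℝ) → ℝ} (hF : Measurable F)
    {C : ℝ} (hb : ∀ X, ‖F X‖ ≤ C) (y : Λ) :
    Integrable (fun X => ∫ s, F (Function.update X y s) ∂kap) (PC Λ) := by
  have hmp := measurePreserving_upd (Λ := Λ) kap y
  have h1 : Integrable (fun p : (Λ → ℝ) × ℝ => F (Function.update p.1 y p.2))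
      ((PC Λ).prod kap) := by
    refine Integrable.of_bound (C := C) ?_ (ae_of_all _ fun p => hb _)
    exact (hF.comp (measurable_upd y)).aestronglyMeasurable
  exact h1.integral_prod_left

/-- Jensen for squares -/
theorem sq_integral_le {Ω : Type*} [MeasurableSpace Ω] (P : Measure Ω) [IsProbabilityMeasure P]
    {g : Ω → ℝ} (hg : Integrable g P) (hg2 : Integrable (fun ω => g ω ^ 2) P) :
    (∫ ω, g ω ∂P) ^ 2 ≤ ∫ ω, g ω ^ 2 ∂P := by
  set c := ∫ ω, g ω ∂P with hc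
  have h1 : 0 ≤ ∫ ω, (g ω - c) ^ 2 ∂P := integral_nonneg fun ω => sq_nonneg _
  have h2 : ∫ ω, (g ω - c) ^ 2 ∂P = ∫ ω, g ω ^ 2 ∂P - c ^ 2 := by
    have e1 : ∀ ω, (g ω - c) ^ 2 = g ω ^ 2 - (2 * c * g ω - c ^ 2) := fun ω => by ring
    simp only [e1]
    have i1 : Integrable (fun ω => 2 * c * g ω - c ^ 2) P :=
      (hg.const_mul _).sub (integrable_const _)
    rw [integral_sub hg2 i1, integral_sub (hg.const_mul _) (integrable_const _),
      integral_const_mul, ← hc]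
    simp
    ring
  linarith

namespace Data

variable {Λ : Type*} [DecidableEq Λ] (D : Data Λ)

theorem continuous_cfg (S : Finset Λ) (x : Λ) : Continuous fun X => D.cfg S X x := by
  unfold cfg
  split_ifs <;> fun_prop

theorem continuous_ww (S : Finset Λ) {z : ℂ} (hz : 0 < z.im) :
    Continuous fun X => D.ww S X z :=
  continuous_RC D.hT (D.continuous_cfg S) (D.adm_cfg S) hz _

theorem continuous_wwx (S : Finset Λ) {z : ℂ} (hz : 0 < z.im) (x : Λ) :
    Continuous fun X => D.ww S X z x := by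
  have h := (D.continuous_ww S hz)
  have h2 : Continuous fun X => ⟪eb x, D.ww S X z⟫_ℂ := continuous_const.inner h
  simpa only [inner_eb] using h2

theorem continuous_ff (S : Finset Λ) {z : ℂ} (hz : 0 < z.im) :
    Continuous fun X => D.ff S X z := by
  have := D.continuous_wwx S hz D.x0
  unfold ff
  fun_prop

theorem continuous_ph (S : Finset Λ) {z : ℂ} (hz : 0 < z.im) (x : Λ) :
    Continuous fun X => D.ph S X z x := by
  have := D.continuous_wwx S hz x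
  unfold ph
  fun_prop

theorem norm_wwx_le (S : Finset Λ) (X : Λ → ℝ) {z : ℂ} (hz : 0 < z.im) (x : Λ) :
    ‖D.ww S X z x‖ ≤ 1 / z.im := by
  have h1 : ‖D.ww S X z‖ ≤ ‖(eb D.x0 : L2 Λ)‖ / z.im := norm_RC_le D.hT (D.adm_cfg S X) hz _
  rw [orthonormal_eb.1] at h1
  have h2 : ‖D.ww S X z x‖ = ‖⟪eb x, D.ww S X z⟫_ℂ‖ := by rw [inner_eb]
  rw [h2]
  refine (norm_inner_le_norm _ _).trans ?_
  rw [orthonormal_eb.1, one_mul]
  exact h1

variable [Countable Λ]

/-- the mean of `|f_S|²` -/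
noncomputable def AA (S : Finset Λ) (z : ℂ) : ℝ := ∫ X, ‖D.ff S X z‖ ^ 2 ∂(PC Λ)

/-- the mean of `φ_x²` -/
noncomputable def BB (S : Finset Λ) (z : ℂ) (x : Λ) : ℝ := ∫ X, D.ph S X z x ^ 2 ∂(PC Λ)

theorem ff_sq_bd (S : Finset Λ) (X : Λ → ℝ) {z : ℂ} (hz : 0 < z.im) :
    ‖(‖D.ff S X z‖ ^ 2 : ℝ)‖ ≤ 1 := by
  rw [Real.norm_of_nonneg (by positivity)]
  exact pow_le_one₀ (norm_nonneg _) (D.norm_ff_le S X hz)

theorem integrable_ff_sq (S : Finset Λ) {z : ℂ} (hz : 0 < z.im) :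
    Integrable (fun X => ‖D.ff S X z‖ ^ 2) (PC Λ) :=
  Integrable.of_bound (C := 1) ((D.continuous_ff S hz).norm.pow 2).measurable.aestronglyMeasurable
    (ae_of_all _ fun X => D.ff_sq_bd S X hz)

theorem ph_bd (S : Finset Λ) (X : Λ → ℝ) {z : ℂ} (hz : 0 < z.im) (x : Λ) :
    ‖D.ph S X z x‖ ≤ 4 * D.ε x * (1 / z.im) ^ 2 := by
  rw [Real.norm_of_nonneg (D.ph_nonneg S X z x)]
  have h1 := D.norm_wwx_le S X hz x
  have := D.hε x
  unfold ph
  gcongr

theorem integrable_ph (S : Finset Λ) {z : ℂ} (hz : 0 < z.im) (x : Λ) :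
    Integrable (fun X => D.ph S X z x) (PC Λ) :=
  Integrable.of_bound (C := 4 * D.ε x * (1 / z.im) ^ 2)
    (D.continuous_ph S hz x).measurable.aestronglyMeasurable
    (ae_of_all _ fun X => D.ph_bd S X hz x)

theorem ph_sq_bd (S : Finset Λ) (X : Λ → ℝ) {z : ℂ} (hz : 0 < z.im) (x : Λ) :
    ‖D.ph S X z x ^ 2‖ ≤ (4 * D.ε x * (1 / z.im) ^ 2) ^ 2 := by
  rw [norm_pow]
  have := D.ph_bd S X hz x
  gcongr

theorem integrable_ph_sq (S : Finset Λ) {z : ℂ} (hz : 0 < z.im) (x : Λ) :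
    Integrable (fun X => D.ph S X z x ^ 2) (PC Λ) :=
  Integrable.of_bound (C := (4 * D.ε x * (1 / z.im) ^ 2) ^ 2)
    ((D.continuous_ph S hz x).pow 2).measurable.aestronglyMeasurable
    (ae_of_all _ fun X => D.ph_sq_bd S X hz x)

/-- (C1) -/
theorem AA_insert {S : Finset Λ} {y : Λ} (hy : y ∉ S) (hy0 : y ≠ D.x0) {z : ℂ} (hz : 0 < z.im) :
    D.AA S z + D.BB S z y ≤ D.AA (insert y S) z := by
  have hm : Measurable fun X => ‖D.ff (insert y S) X z‖ ^ 2 :=
    ((D.continuous_ff (insert y S) hz).norm.pow 2).measurable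
  have hb : ∀ X, ‖(‖D.ff (insert y S) X z‖ ^ 2 : ℝ)‖ ≤ 1 := fun X => D.ff_sq_bd _ X hz
  have h1 : D.AA (insert y S) z = _ := int_upd hm hb y
  have hint := integrable_inner_upd hm hb y
  unfold AA BB at *
  rw [h1, ← integral_add (D.integrable_ff_sq S hz) (D.integrable_ph_sq S hz y)]
  exact integral_mono ((D.integrable_ff_sq S hz).add (D.integrable_ph_sq S hz y)) hint
    fun X => D.site_ff hy hy0 X hz

/-- (C2) -/
theorem BB_insert {S : Finset Λ} {y : Λ} (hy : y ∉ S) (hy0 : y ≠ D.x0) {z : ℂ} (hz : 0 < z.im)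
    (x : Λ) : D.BB S z x ≤ D.BB (insert y S) z x := by
  have hm : Measurable fun X => D.ph (insert y S) X z x ^ 2 :=
    ((D.continuous_ph (insert y S) hz x).pow 2).measurable
  have hb : ∀ X, ‖D.ph (insert y S) X z x ^ 2‖ ≤ (4 * D.ε x * (1 / z.im) ^ 2) ^ 2 :=
    fun X => D.ph_sq_bd _ X hz x
  have h1 : D.BB (insert y S) z x = _ := int_upd hm hb y
  have hint := integrable_inner_upd hm hb y
  unfold BB at *
  rw [h1]
  refine integral_mono (D.integrable_ph_sq S hz x) hint fun X => ?_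
  have hcu : Continuous fun s : ℝ => Function.update X y s := continuous_const.update y continuous_id
  have hc : Continuous fun s : ℝ => D.ph (insert y S) (Function.update X y s) z x :=
    (D.continuous_ph (insert y S) hz x).comp hcu
  have hi1 : Integrable (fun s : ℝ => D.ph (insert y S) (Function.update X y s) z x) kap :=
    Integrable.of_bound (C := 4 * D.ε x * (1 / z.im) ^ 2) hc.aestronglyMeasurable
      (ae_of_all _ fun s => D.ph_bd _ _ hz x)
  have hi2 : Integrable (fun s : ℝ => D.ph (insert y S) (Function.update X y s) z x ^ 2) kap :=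
    Integrable.of_bound (C := (4 * D.ε x * (1 / z.im) ^ 2) ^ 2) (hc.pow 2).aestronglyMeasurable
      (ae_of_all _ fun s => D.ph_sq_bd _ _ hz x)
  have h2 : D.ph S X z x ≤ ∫ s, D.ph (insert y S) (Function.update X y s) z x ∂kap := by
    have h3 := D.site_ww hy hy0 X hz x
    unfold ph
    rw [integral_const_mul]
    have := D.hε x
    gcongr
  calc D.ph S X z x ^ 2 ≤ (∫ s, D.ph (insert y S) (Function.update X y s) z x ∂kap) ^ 2 := by
        have := D.ph_nonneg S X z x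
        gcongr
    _ ≤ _ := sq_integral_le kap hi1 hi2

/-- (C3) -/
theorem AA_union {S : Finset Λ} (h0 : D.x0 ∈ S) {z : ℂ} (hz : 0 < z.im) (A : Finset Λ)
    (hA : ∀ x ∈ A, x ∉ S) :
    D.AA S z + ∑ x ∈ A, D.BB S z x ≤ D.AA (A ∪ S) z ∧ ∀ x, D.BB S z x ≤ D.BB (A ∪ S) z x := by
  induction A using Finset.induction_on with
  | empty => simp
  | insert y A hyA ih =>
    have hA' : ∀ x ∈ A, x ∉ S := fun x hx => hA x (Finset.mem_insert_of_mem hx)
    obtain ⟨ih1, ih2⟩ := ih hA'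
    have hyS : y ∉ S := hA y (Finset.mem_insert_self _ _)
    have hy : y ∉ A ∪ S := by
      rw [Finset.mem_union]; tauto
    have hy0 : y ≠ D.x0 := fun h => hyS (h ▸ h0)
    have h1 := D.AA_insert hy hy0 hz
    have h2 := fun x => D.BB_insert hy hy0 hz x
    rw [Finset.insert_union]
    refine ⟨?_, fun x => (ih2 x).trans (h2 x)⟩
    rw [Finset.sum_insert hyA]
    have h3 := ih2 y
    linarith

theorem BB_nonneg (S : Finset Λ) (z : ℂ) (x : Λ) : 0 ≤ D.BB S z x :=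
  integral_nonneg fun X => sq_nonneg _

/-! ### Averages over the noise and the energy -/

theorem cont_ww_E (S : Finset Λ) (X : Λ → ℝ) {t : ℝ} (ht : 0 < t) (x : Λ) :
    Continuous fun E => D.ww S X (Zt t E) x := by
  have h := continuousOn_RC_z D.hT (D.adm_cfg S X) (eb D.x0)
  have h2 : ContinuousOn (fun z => ⟪eb x, D.ww S X z⟫_ℂ) HP := continuousOn_const.inner h
  have h3 : ContinuousOn (fun z => D.ww S X z x) HP := by simpa only [inner_eb] using h2
  exact h3.comp_continuous (Zt_cont t ht) fun E => Zt_im_pos ht E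

omit [DecidableEq Λ] [Countable Λ] in
theorem meas_swap {α β γ : Type*} [MeasurableSpace α] [MeasurableSpace β] [MeasurableSpace γ]
    {F : β → α → γ} (h : Measurable (Function.uncurry F)) :
    Measurable fun p : α × β => F p.2 p.1 := h.comp measurable_swap

omit [DecidableEq Λ] in
theorem meas_joint {F : ℝ → (Λ → ℝ) → ℂ} (h1 : ∀ X, Continuous fun E => F E X)
    (h2 : ∀ E, Continuous (F E)) : Measurable fun p : (Λ → ℝ) × ℝ => F p.2 p.1 :=
  meas_swap (measurable_uncurry_of_continuous_of_measurable h1 fun E => (h2 E).measurable)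

theorem meas_ww (S : Finset Λ) {t : ℝ} (ht : 0 < t) (x : Λ) :
    Measurable fun p : (Λ → ℝ) × ℝ => D.ww S p.1 (Zt t p.2) x :=
  meas_joint (F := fun E X => D.ww S X (Zt t E) x) (fun X => D.cont_ww_E S X ht x)
    fun E => D.continuous_wwx S (Zt_im_pos ht E) x

theorem meas_ff (S : Finset Λ) {t : ℝ} (ht : 0 < t) :
    Measurable fun p : (Λ → ℝ) × ℝ => ‖D.ff S p.1 (Zt t p.2)‖ ^ 2 := by
  have := D.meas_ww S ht D.x0
  unfold ff
  fun_prop

theorem meas_ph (S : Finset Λ) {t : ℝ} (ht : 0 < t) (x : Λ) :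
    Measurable fun p : (Λ → ℝ) × ℝ => D.ph S p.1 (Zt t p.2) x := by
  have := D.meas_ww S ht x
  unfold ph
  fun_prop

theorem meas_ew (S : Finset Λ) {t : ℝ} (ht : 0 < t) (x : Λ) :
    Measurable fun p : (Λ → ℝ) × ℝ => (Zt t p.2).im * ‖D.ww S p.1 (Zt t p.2) x‖ ^ 2 := by
  have := D.meas_ww S ht x
  have h2 := (Zt_cont t ht).measurable
  fun_prop

theorem ph_bd_t (S : Finset Λ) (X : Λ → ℝ) {t : ℝ} (ht : 0 < t) (ht1 : t ≤ 1) (E : ℝ) (x : Λ) :
    ‖D.ph S X (Zt t E) x‖ ≤ 4 * D.ε x * (1 / t) ^ 2 := by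
  have h1 := le_Zt_im ht ht1 E
  have hε := D.hε x
  refine (D.ph_bd S X (Zt_im_pos ht E) x).trans ?_
  have h2 : 0 ≤ 1 / (Zt t E).im := by
    have := Zt_im_pos ht E
    positivity
  gcongr

theorem ew_le (S : Finset Λ) (X : Λ → ℝ) {z : ℂ} (hz : 0 < z.im) (x : Λ) :
    z.im * ‖D.ww S X z x‖ ^ 2 ≤ 1 := by
  have h1 := D.flux_nonneg S X hz
  have h2 : ‖D.ww S X z x‖ ≤ ‖D.ww S X z‖ := by
    have h3 : ‖D.ww S X z x‖ = ‖⟪eb x, D.ww S X z⟫_ℂ‖ := by rw [inner_eb]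
    rw [h3]
    refine (norm_inner_le_norm _ _).trans ?_
    rw [orthonormal_eb.1, one_mul]
  have h4 : z.im * ‖D.ww S X z x‖ ^ 2 ≤ z.im * ‖D.ww S X z‖ ^ 2 := by gcongr
  have h5 : 0 ≤ ‖D.ff S X z‖ ^ 2 := by positivity
  linarith

theorem int_ff (S : Finset Λ) {t : ℝ} (ht : 0 < t) :
    Integrable (fun p : (Λ → ℝ) × ℝ => ‖D.ff S p.1 (Zt t p.2)‖ ^ 2) ((PC Λ).prod kap) :=
  Integrable.of_bound (C := 1) (D.meas_ff S ht).aestronglyMeasurable
    (ae_of_all _ fun p => D.ff_sq_bd S p.1 (Zt_im_pos ht p.2))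

theorem int_ph (S : Finset Λ) {t : ℝ} (ht : 0 < t) (ht1 : t ≤ 1) (x : Λ) :
    Integrable (fun p : (Λ → ℝ) × ℝ => D.ph S p.1 (Zt t p.2) x) ((PC Λ).prod kap) :=
  Integrable.of_bound (C := 4 * D.ε x * (1 / t) ^ 2) (D.meas_ph S ht x).aestronglyMeasurable
    (ae_of_all _ fun p => D.ph_bd_t S p.1 ht ht1 p.2 x)

theorem int_ph_sq (S : Finset Λ) {t : ℝ} (ht : 0 < t) (ht1 : t ≤ 1) (x : Λ) :
    Integrable (fun p : (Λ → ℝ) × ℝ => D.ph S p.1 (Zt t p.2) x ^ 2) ((PC Λ).prod kap) :=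
  Integrable.of_bound (C := (4 * D.ε x * (1 / t) ^ 2) ^ 2)
    ((D.meas_ph S ht x).pow_const 2).aestronglyMeasurable
    (ae_of_all _ fun p => by
      rw [norm_pow]
      have := D.ph_bd_t S p.1 ht ht1 p.2 x
      gcongr)

theorem int_ew (S : Finset Λ) {t : ℝ} (ht : 0 < t) (x : Λ) :
    Integrable (fun p : (Λ → ℝ) × ℝ => (Zt t p.2).im * ‖D.ww S p.1 (Zt t p.2) x‖ ^ 2)
      ((PC Λ).prod kap) :=
  Integrable.of_bound (C := 1) (D.meas_ew S ht x).aestronglyMeasurable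
    (ae_of_all _ fun p => by
      have h1 := Zt_im_pos ht p.2
      rw [Real.norm_of_nonneg (by positivity)]
      exact D.ew_le S p.1 h1 x)

/-- the mean of `|f_S|²` -/
noncomputable def aa (S : Finset Λ) (t : ℝ) : ℝ :=
  ∫ p : (Λ → ℝ) × ℝ, ‖D.ff S p.1 (Zt t p.2)‖ ^ 2 ∂((PC Λ).prod kap)

/-- the mean of `φ_x²` -/
noncomputable def bb' (S : Finset Λ) (t : ℝ) (x : Λ) : ℝ :=
  ∫ p : (Λ → ℝ) × ℝ, D.ph S p.1 (Zt t p.2) x ^ 2 ∂((PC Λ).prod kap)

/-- the error at a site -/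
noncomputable def ew (S : Finset Λ) (t : ℝ) (x : Λ) : ℝ :=
  ∫ p : (Λ → ℝ) × ℝ, (Zt t p.2).im * ‖D.ww S p.1 (Zt t p.2) x‖ ^ 2 ∂((PC Λ).prod kap)

theorem aa_eq (S : Finset Λ) {t : ℝ} (ht : 0 < t) : D.aa S t = ∫ E, D.AA S (Zt t E) ∂kap :=
  integral_prod_symm _ (D.int_ff S ht)

theorem bb_eq (S : Finset Λ) {t : ℝ} (ht : 0 < t) (ht1 : t ≤ 1) (x : Λ) :
    D.bb' S t x = ∫ E, D.BB S (Zt t E) x ∂kap :=
  integral_prod_symm _ (D.int_ph_sq S ht ht1 x)

theorem bb_nonneg (S : Finset Λ) (t : ℝ) (x : Λ) : 0 ≤ D.bb' S t x :=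
  integral_nonneg fun p => sq_nonneg _

theorem int_AA (S : Finset Λ) {t : ℝ} (ht : 0 < t) : Integrable (fun E => D.AA S (Zt t E)) kap :=
  (D.int_ff S ht).integral_prod_right

theorem int_BB (S : Finset Λ) {t : ℝ} (ht : 0 < t) (ht1 : t ≤ 1) (x : Λ) :
    Integrable (fun E => D.BB S (Zt t E) x) kap :=
  (D.int_ph_sq S ht ht1 x).integral_prod_right

theorem aa_union {S : Finset Λ} (h0 : D.x0 ∈ S) {t : ℝ} (ht : 0 < t) (ht1 : t ≤ 1) (A : Finset Λ)
    (hA : ∀ x ∈ A, x ∉ S) : D.aa S t + ∑ x ∈ A, D.bb' S t x ≤ D.aa (A ∪ S) t := by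
  rw [D.aa_eq S ht, D.aa_eq _ ht, Finset.sum_congr rfl fun x _ => D.bb_eq S ht ht1 x,
    ← integral_finsetSum _ fun x _ => D.int_BB S ht ht1 x,
    ← integral_add (D.int_AA S ht) (integrable_finsetSum _ fun x _ => D.int_BB S ht ht1 x)]
  exact integral_mono ((D.int_AA S ht).add
    (integrable_finsetSum _ fun x _ => D.int_BB S ht ht1 x)) (D.int_AA _ ht)
    fun E => (D.AA_union h0 (Zt_im_pos ht E) A hA).1

omit [DecidableEq Λ] [Countable Λ] in
theorem tendsto_min_im {C : ℝ} (hC : 0 ≤ C) :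
    Tendsto (fun t : ℝ => ∫ E, min 1 (C * (Zt t E).im) ∂kap) (𝓝[>] 0) (𝓝 0) := by
  have h0 : ∫ _ : ℝ, (0:ℝ) ∂kap = 0 := by simp
  suffices h : Tendsto (fun t : ℝ => ∫ E, min 1 (C * (Zt t E).im) ∂kap) (𝓝[>] 0)
      (𝓝 (∫ _ : ℝ, (0:ℝ) ∂kap)) by rwa [h0] at h
  refine tendsto_integral_filter_of_dominated_convergence (fun _ => 1) ?_ ?_ (integrable_const _) ?_
  · filter_upwards [self_mem_nhdsWithin] with t ht
    exact (continuous_const.min (continuous_const.mul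
      (Complex.continuous_im.comp (Zt_cont t ht)))).aestronglyMeasurable
  · filter_upwards [self_mem_nhdsWithin] with t ht
    refine ae_of_all _ fun E => ?_
    have h1 := Zt_im_pos ht E
    rw [Real.norm_of_nonneg (le_min zero_le_one (by positivity))]
    exact min_le_left _ _
  · refine ae_of_all _ fun E => ?_
    have h1 := (tendsto_Zt_im E).const_mul C
    rw [mul_zero] at h1
    have h2 := (tendsto_const_nhds (x := (1:ℝ))).min h1
    rwa [min_eq_right zero_le_one] at h2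

/-- the errors tend to zero uniformly -/
theorem ew_small {δ : ℝ} (hδ : 0 < δ) : ∃ t0 : ℝ, 0 < t0 ∧ t0 ≤ 1 ∧ ∀ t, 0 < t → t < t0 →
    ∀ (S : Finset Λ) (x : Λ), D.ew S t x ≤ δ := by
  set K := 24 / δ with hK
  have hK0 : 0 < K := by positivity
  have h1 := (tendsto_min_im (C := 4 * K ^ 4) (by positivity)).eventually
    (gt_mem_nhds (half_pos hδ))
  rw [eventually_nhdsWithin_iff, Metric.eventually_nhds_iff] at h1
  obtain ⟨r, hr, h1⟩ := h1
  refine ⟨min r 1, lt_min hr one_pos, min_le_right _ _, fun t ht htr S x => ?_⟩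
  have ht1 : t ≤ 1 := (htr.trans_le (min_le_right _ _)).le
  have h2 : ∫ E, min 1 (4 * K ^ 4 * (Zt t E).im) ∂kap < δ / 2 := by
    refine h1 ?_ ht
    rw [Real.dist_eq, sub_zero, abs_of_pos ht]
    exact htr.trans_le (min_le_left _ _)
  have hmin : Integrable (fun E => min 1 (4 * K ^ 4 * (Zt t E).im)) kap := by
    refine Integrable.of_bound (C := 1) ?_ (ae_of_all _ fun E => ?_)
    · exact (continuous_const.min (continuous_const.mul
        (Complex.continuous_im.comp (Zt_cont t ht)))).aestronglyMeasurable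
    · have h1 := Zt_im_pos ht E
      rw [Real.norm_of_nonneg (le_min zero_le_one (by positivity))]
      exact min_le_left _ _
  unfold ew
  rw [integral_prod _ (D.int_ew S ht x)]
  have h3 : ∀ X : Λ → ℝ, ∫ E, (Zt t E).im * ‖D.ww S X (Zt t E) x‖ ^ 2 ∂kap ≤ δ := by
    intro X
    have h4 := weak_entry D.hT D.hr (D.adm_cfg S X) x D.x0 ht ht1 hK0
    set Z := {E | 2 * K ^ 2 < ‖GG D.T (D.cfg S X) (Zt t E) x D.x0‖} with hZ
    have hcont := D.cont_ww_E S X ht x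
    have hZm : MeasurableSet Z := measurableSet_lt measurable_const hcont.norm.measurable
    have h5 : ∀ E, (Zt t E).im * ‖D.ww S X (Zt t E) x‖ ^ 2
        ≤ min 1 (4 * K ^ 4 * (Zt t E).im) + Z.indicator (fun _ => (1:ℝ)) E := by
      intro E
      have h6 := Zt_im_pos ht E
      have h7 := D.ew_le S X h6 x
      by_cases hE : E ∈ Z
      · rw [indicator_of_mem hE]
        have : 0 ≤ min 1 (4 * K ^ 4 * (Zt t E).im) := le_min zero_le_one (by positivity)
        linarith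
      · rw [indicator_of_notMem hE, add_zero]
        refine le_min h7 ?_
        have h8 : ‖D.ww S X (Zt t E) x‖ ≤ 2 * K ^ 2 := not_lt.mp hE
        calc (Zt t E).im * ‖D.ww S X (Zt t E) x‖ ^ 2 ≤ (Zt t E).im * (2 * K ^ 2) ^ 2 := by gcongr
          _ = 4 * K ^ 4 * (Zt t E).im := by ring
    have hi : Integrable (Z.indicator fun _ => (1:ℝ)) kap := (integrable_const _).indicator hZm
    calc ∫ E, (Zt t E).im * ‖D.ww S X (Zt t E) x‖ ^ 2 ∂kap
        ≤ ∫ E, (min 1 (4 * K ^ 4 * (Zt t E).im) + Z.indicator (fun _ => (1:ℝ)) E) ∂kap := by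
          refine integral_mono_of_nonneg (ae_of_all _ fun E => ?_) (hmin.add hi) (ae_of_all _ h5)
          have h6 := Zt_im_pos ht E
          positivity
      _ = ∫ E, min 1 (4 * K ^ 4 * (Zt t E).im) ∂kap + kap.real Z := by
          rw [integral_add hmin hi, integral_indicator hZm]
          simp
      _ ≤ δ / 2 + 12 / K := add_le_add h2.le h4
      _ = δ := by rw [hK]; field_simp; norm_num
  calc _ ≤ ∫ _ : Λ → ℝ, δ ∂(PC Λ) :=
        integral_mono (D.int_ew S ht x).integral_prod_left (integrable_const _) h3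
    _ = δ := by simp

/-- one step of the argument, averaged -/
theorem step {ρ : Λ → ℕ} {m : ℕ} (hρ : ρ D.x0 ≤ m)
    (hloc : ∀ (n : ℕ) (u : L2 Λ), (∀ x, n < ρ x → u x = 0) → ∀ x, n + 1 < ρ x → D.T u x = 0)
    {S A : Finset Λ} (hS : ∀ x, x ∈ S ↔ ρ x ≤ m)
    (hA : ∀ x, x ∈ A ↔ (m < ρ x ∧ ρ x ≤ m + 2))
    (hmA : ∀ x ∈ A, 0 < D.ε x) {t : ℝ} (ht : 0 < t) (ht1 : t ≤ 1) {δ : ℝ} (hδ : 0 < δ)
    (hlow : δ ≤ 1 - D.aa S t) (herr : 4 * ∑ x ∈ A ∪ S, D.ew S t x ≤ δ / 2) :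
    δ ^ 2 / 4 ≤ (∑ x ∈ A, D.aw x ^ 2) * (D.aa (A ∪ S) t - D.aa S t) := by
  have hx0 : D.x0 ∈ S := (hS _).mpr hρ
  have hAS : ∀ x ∈ A, x ∉ S := fun x hx h => by
    have h1 := (hA x).mp hx
    have h2 := (hS x).mp h
    omega
  set P := (PC Λ).prod kap with hP
  set s : Λ → ℝ := fun x => ∫ p : (Λ → ℝ) × ℝ, D.ph S p.1 (Zt t p.2) x ∂P with hs
  have h1 : 1 - D.aa S t ≤ 4 * ∑ x ∈ A ∪ S, D.ew S t x + ∑ x ∈ A, D.aw x * s x := by
    have e1 : ∫ p : (Λ → ℝ) × ℝ, (1 - ‖D.ff S p.1 (Zt t p.2)‖ ^ 2) ∂P = 1 - D.aa S t := by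
      rw [integral_sub (integrable_const _) (D.int_ff S ht)]
      simp [aa, hP]
    rw [← e1]
    have hi1 : Integrable (fun p : (Λ → ℝ) × ℝ => ∑ x ∈ A ∪ S,
        (Zt t p.2).im * ‖D.ww S p.1 (Zt t p.2) x‖ ^ 2) P :=
      integrable_finsetSum _ fun x _ => D.int_ew S ht x
    have hi2 : Integrable (fun p : (Λ → ℝ) × ℝ => ∑ x ∈ A,
        D.aw x * D.ph S p.1 (Zt t p.2) x) P :=
      integrable_finsetSum _ fun x _ => (D.int_ph S ht ht1 x).const_mul _
    calc ∫ p : (Λ → ℝ) × ℝ, (1 - ‖D.ff S p.1 (Zt t p.2)‖ ^ 2) ∂P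
        ≤ ∫ p : (Λ → ℝ) × ℝ, (4 * ∑ x ∈ A ∪ S, (Zt t p.2).im * ‖D.ww S p.1 (Zt t p.2) x‖ ^ 2
            + ∑ x ∈ A, D.aw x * D.ph S p.1 (Zt t p.2) x) ∂P :=
          integral_mono ((integrable_const _).sub (D.int_ff S ht))
            ((hi1.const_mul _).add hi2) fun p =>
            D.flux_le hρ hloc hS hA hmA p.1 (Zt_im_pos ht p.2)
      _ = 4 * ∑ x ∈ A ∪ S, D.ew S t x + ∑ x ∈ A, D.aw x * s x := by
          rw [integral_add (hi1.const_mul _) hi2, integral_const_mul,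
            integral_finsetSum _ fun x _ => D.int_ew S ht x,
            integral_finsetSum _ fun x _ => (D.int_ph S ht ht1 x).const_mul _]
          simp only [integral_const_mul]
          rfl
  have h2 : δ / 2 ≤ ∑ x ∈ A, D.aw x * s x := by linarith
  have h3 : (∑ x ∈ A, D.aw x * s x) ^ 2 ≤ (∑ x ∈ A, D.aw x ^ 2) * ∑ x ∈ A, s x ^ 2 :=
    Finset.sum_mul_sq_le_sq_mul_sq _ _ _
  have h4 : ∑ x ∈ A, s x ^ 2 ≤ ∑ x ∈ A, D.bb' S t x := Finset.sum_le_sum fun x _ =>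
    sq_integral_le _ (D.int_ph S ht ht1 x) (D.int_ph_sq S ht ht1 x)
  have h5 := D.aa_union hx0 ht ht1 A hAS
  have h6 : 0 ≤ ∑ x ∈ A, D.aw x ^ 2 := Finset.sum_nonneg fun x _ => sq_nonneg _
  calc δ ^ 2 / 4 = (δ / 2) ^ 2 := by ring
    _ ≤ (∑ x ∈ A, D.aw x * s x) ^ 2 := by gcongr
    _ ≤ (∑ x ∈ A, D.aw x ^ 2) * ∑ x ∈ A, s x ^ 2 := h3
    _ ≤ (∑ x ∈ A, D.aw x ^ 2) * (D.aa (A ∪ S) t - D.aa S t) := by
        refine mul_le_mul_of_nonneg_left ?_ h6
        linarith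

end Data

end Pool.Agent.Lib.MP_562b47_mp.CN
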