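import Pool.Agent.Lib.MP_562b47_mp.CNBase

/-!
Averages over one Cauchy distributed potential.
(Planar model with Cauchy noise, MP_562b47_mp.)
-/

open MeasureTheory Filter Topology Complex Set
open scoped InnerProductSpace ENNReal

namespace Pool.Agent.Lib.MP_562b47_mp.CN

/-! ### The Möbius integral -/

theorem bb_real (s : ℝ) : bb (s : ℂ) = (starRingEnd ℂ) (uE s) := by
  unfold bb uE
  rw [map_div₀, map_sub, map_add, Complex.conj_ofReal, Complex.conj_I]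
  rw [sub_neg_eq_add, ← sub_eq_add_neg]

theorem norm_bb_real (s : ℝ) : ‖bb (s : ℂ)‖ = 1 := by
  rw [bb_real, Complex.norm_conj, norm_uE]

theorem one_sub_bb_ne {v : ℂ} (hv : v.im ≤ 0) : 1 - bb v ≠ 0 := by
  have h := sub_I_ne hv
  have : 1 - bb v = -2 * I / (v - I) := by
    unfold bb
    field_simp
    ring
  rw [this]
  exact div_ne_zero (by simp) h

/-- coefficients of `p + q b / (1 - r b)` -/
noncomputable def mcoef (p q r : ℂ) : ℕ → ℂ
  | 0 => p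
  | (k + 1) => q * r ^ k

theorem hasSum_mcoef (p q : ℂ) {r b : ℂ} (hr : ‖r * b‖ < 1) :
    HasSum (fun k => mcoef p q r k * b ^ k) (p + q * b / (1 - r * b)) := by
  have h1 : HasSum (fun k => (r * b) ^ k) (1 - r * b)⁻¹ := hasSum_geometric_of_norm_lt_one hr
  have h2 := (h1.mul_left (q * b))
  have h3 : HasSum (fun k => mcoef p q r (k + 1) * b ^ (k + 1)) (q * b * (1 - r * b)⁻¹) := by
    refine h2.congr_fun ?_
    intro k
    simp only [mcoef, mul_pow, pow_succ]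
    ring
  have h4 := (hasSum_nat_add_iff (f := fun k => mcoef p q r k * b ^ k) 1).mp h3
  have h5 : q * b * (1 - r * b)⁻¹ + ∑ i ∈ Finset.range 1, mcoef p q r i * b ^ i
      = p + q * b / (1 - r * b) := by
    simp [mcoef]
    ring
  rwa [h5] at h4

theorem summable_mcoef (p q : ℂ) {r : ℂ} (hr : ‖r‖ < 1) : Summable fun k => ‖mcoef p q r k‖ := by
  rw [← summable_nat_add_iff 1]
  have h1 : Summable fun k : ℕ => ‖q‖ * ‖r‖ ^ k :=
    (summable_geometric_of_lt_one (norm_nonneg _) hr).mul_left _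
  refine h1.congr fun k => ?_
  simp [mcoef]

theorem tsum_mcoef_sq (p q : ℂ) {r : ℂ} (hr : ‖r‖ < 1) :
    ∑' k, ‖mcoef p q r k‖ ^ 2 = ‖p‖ ^ 2 + ‖q‖ ^ 2 / (1 - ‖r‖ ^ 2) := by
  have hr2 : ‖r‖ ^ 2 < 1 := pow_lt_one₀ (norm_nonneg _) hr two_ne_zero
  have h1 : HasSum (fun k : ℕ => ‖q‖ ^ 2 * (‖r‖ ^ 2) ^ k) (‖q‖ ^ 2 * (1 - ‖r‖ ^ 2)⁻¹) :=
    (hasSum_geometric_of_lt_one (by positivity) hr2).mul_left _
  have h2 : HasSum (fun k => ‖mcoef p q r (k + 1)‖ ^ 2) (‖q‖ ^ 2 * (1 - ‖r‖ ^ 2)⁻¹) := by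
    refine h1.congr_fun ?_
    intro k
    simp only [mcoef, norm_mul, norm_pow]
    ring
  have h3 := (hasSum_nat_add_iff (f := fun k => ‖mcoef p q r k‖ ^ 2) 1).mp h2
  have h5 : ‖q‖ ^ 2 * (1 - ‖r‖ ^ 2)⁻¹ + ∑ i ∈ Finset.range 1, ‖mcoef p q r i‖ ^ 2
      = ‖p‖ ^ 2 + ‖q‖ ^ 2 / (1 - ‖r‖ ^ 2) := by
    simp [mcoef]
    ring
  rw [h5] at h3
  exact h3.tsum_eq

theorem int_mobius (p q : ℂ) {r : ℂ} (hr : ‖r‖ < 1) :
    ∫ s : ℝ, ‖p + q * bb (s : ℂ) / (1 - r * bb (s : ℂ))‖ ^ 2 ∂kap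
      = ‖p‖ ^ 2 + ‖q‖ ^ 2 / (1 - ‖r‖ ^ 2) := by
  set c : ℕ → ℂ := fun k => (starRingEnd ℂ) (mcoef p q r k) with hc
  have hcs : Summable fun k => ‖c k‖ := by
    refine (summable_mcoef p q hr).congr fun k => ?_
    rw [hc, Complex.norm_conj]
  have h1 : ∀ s : ℝ, ‖p + q * bb (s : ℂ) / (1 - r * bb (s : ℂ))‖ = ‖∑' k, c k * uE s ^ k‖ := by
    intro s
    have h2 : ‖r * bb (s : ℂ)‖ < 1 := by rw [norm_mul, norm_bb_real, mul_one]; exact hr
    have h3 := (hasSum_mcoef p q h2).tsum_eq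
    rw [← h3, ← Complex.norm_conj, Complex.conj_tsum]
    congr 1
    refine tsum_congr fun k => ?_
    rw [map_mul, map_pow, bb_real, Complex.conj_conj]
  simp only [h1]
  rw [parseval hcs, ← tsum_mcoef_sq p q hr]
  refine tsum_congr fun k => ?_
  rw [hc, Complex.norm_conj]

theorem continuous_bb_real : Continuous fun s : ℝ => bb (s : ℂ) :=
  continuousOn_bb.comp_continuous Complex.continuous_ofReal fun s => by simp

theorem one_sub_mul_bb_ne {r : ℂ} (hr : ‖r‖ < 1) (s : ℝ) : 1 - r * bb (s : ℂ) ≠ 0 := by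
  intro h
  have h1 : r * bb (s : ℂ) = 1 := by linear_combination -h
  have h2 := congrArg norm h1
  rw [norm_mul, norm_bb_real, mul_one, norm_one] at h2
  linarith

theorem continuous_mobius (p q : ℂ) {r : ℂ} (hr : ‖r‖ < 1) :
    Continuous fun s : ℝ => p + q * bb (s : ℂ) / (1 - r * bb (s : ℂ)) := by
  have := continuous_bb_real
  exact continuous_const.add ((continuous_const.mul this).div
    (continuous_const.sub (continuous_const.mul this)) (one_sub_mul_bb_ne hr))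

theorem norm_mobius_le (p q : ℂ) {r : ℂ} (hr : ‖r‖ < 1) (s : ℝ) :
    ‖p + q * bb (s : ℂ) / (1 - r * bb (s : ℂ))‖ ≤ ‖p‖ + ‖q‖ / (1 - ‖r‖) := by
  refine (norm_add_le _ _).trans (add_le_add le_rfl ?_)
  rw [norm_div, norm_mul, norm_bb_real, mul_one]
  have h1 : 1 - ‖r‖ ≤ ‖1 - r * bb (s : ℂ)‖ := by
    have := norm_sub_norm_le (1:ℂ) (r * bb (s : ℂ))
    rw [norm_one, norm_mul, norm_bb_real, mul_one] at this
    exact this
  have h2 : 0 < 1 - ‖r‖ := by linarith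
  gcongr

theorem integrable_mobius_sq (p q : ℂ) {r : ℂ} (hr : ‖r‖ < 1) :
    Integrable (fun s : ℝ => ‖p + q * bb (s : ℂ) / (1 - r * bb (s : ℂ))‖ ^ 2) kap := by
  refine Integrable.of_bound (C := (‖p‖ + ‖q‖ / (1 - ‖r‖)) ^ 2)
    ((continuous_mobius p q hr).norm.pow 2).aestronglyMeasurable (ae_of_all _ fun s => ?_)
  rw [Real.norm_of_nonneg (by positivity)]
  have := norm_mobius_le p q hr s
  gcongr

/-! ### Algebra of one potential -/

theorem mob1 (e : ℂ) (g : ℂ) (s : ℝ) :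
    (1 + e * (s + I) * g) * (1 - bb (s : ℂ)) = 1 - (1 + 2 * I * e * g) * bb (s : ℂ) := by
  have h := sub_I_ne (v := (s : ℂ)) (by simp)
  unfold bb
  field_simp
  ring

theorem mob2 (e : ℂ) (g : ℂ) {s : ℝ} (h : 1 + e * (s + I) * g ≠ 0) :
    e * (s + I) / (1 + e * (s + I) * g)
      = -2 * I * e * bb (s : ℂ) / (1 - (1 + 2 * I * e * g) * bb (s : ℂ)) := by
  have h1 := one_sub_bb_ne (v := (s : ℂ)) (by simp)
  have h2 := mob1 e g s
  have h3 : (1 - (1 + 2 * I * e * g) * bb (s : ℂ)) ≠ 0 := by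
    rw [← h2]; exact mul_ne_zero h h1
  rw [div_eq_div_iff h h3, ← h2]
  have h4 : ((s : ℂ) + I) * (1 - bb (s : ℂ)) = -2 * I * bb (s : ℂ) := by
    have h5 := sub_I_ne (v := (s : ℂ)) (by simp)
    unfold bb
    field_simp
    ring
  linear_combination (e * (1 + e * (s + I) * g)) * h4

theorem mob3 (e : ℂ) (g : ℂ) {s : ℝ} (h : 1 + e * (s + I) * g ≠ 0) :
    (1 + e * (s + I) * g)⁻¹ = (1 - bb (s : ℂ)) / (1 - (1 + 2 * I * e * g) * bb (s : ℂ)) := by
  have h1 := one_sub_bb_ne (v := (s : ℂ)) (by simp)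
  rw [← mob1 e g s, div_mul_cancel_right₀ h1]

/-- `1 - |1 + 2 i e g|² = 4 e (Im g - e |g|²)` -/
theorem one_sub_normSq (e : ℝ) (g : ℂ) :
    1 - ‖1 + 2 * I * e * g‖ ^ 2 = 4 * e * (g.im - e * ‖g‖ ^ 2) := by
  rw [← Complex.normSq_eq_norm_sq, ← Complex.normSq_eq_norm_sq, Complex.normSq_apply,
    Complex.normSq_apply]
  simp only [Complex.add_re, Complex.add_im, Complex.one_re, Complex.one_im, Complex.mul_re,
    Complex.mul_im, Complex.I_re, Complex.I_im, Complex.ofReal_re, Complex.ofReal_im,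
    Complex.re_ofNat, Complex.im_ofNat]
  ring

end Pool.Agent.Lib.MP_562b47_mp.CN
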