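import Pool.Agent.Lib.MP_562b47_mp.CNSite

/-!
Configurations with revealed and absorbing sites: the energy identity and the effect of revealing
one site.  (Planar model with Cauchy noise, MP_562b47_mp.)
-/

open MeasureTheory Filter Topology Complex Set
open scoped InnerProductSpace ENNReal

namespace Pool.Agent.Lib.MP_562b47_mp.CN

/-- the data of the model: a bounded real self-adjoint operator `T`, a background potential `W`,
noise amplitudes `ε`, a base point `x0` -/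
structure Data (Λ : Type*) where
  T : L2 Λ →L[ℂ] L2 Λ
  hT : IsSelfAdjoint T
  hr : ∀ u, T (star u) = star (T u)
  W : Λ → ℝ
  ε : Λ → ℝ
  hε : ∀ x, 0 ≤ ε x
  x0 : Λ

namespace Data

variable {Λ : Type*} [DecidableEq Λ] (D : Data Λ)

/-- revealed sites carry the real potential, the others are absorbing; at `x0` there is an
additional absorption `1` -/
noncomputable def cfg (S : Finset Λ) (X : Λ → ℝ) (x : Λ) : ℂ :=
  (D.W x : ℂ) + (if x ∈ S then ((D.ε x * X x : ℝ) : ℂ) else -(I * D.ε x))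
    - (if x = D.x0 then I else 0)

theorem cfg_im (S : Finset Λ) (X : Λ → ℝ) (x : Λ) :
    -(D.cfg S X x).im = (if x ∈ S then 0 else D.ε x) + (if x = D.x0 then 1 else 0) := by
  unfold cfg
  split_ifs <;> simp <;> ring

theorem adm_cfg (S : Finset Λ) (X : Λ → ℝ) : Adm (D.cfg S X) := by
  intro x
  have h := D.cfg_im S X x
  have h1 : 0 ≤ (if x ∈ S then 0 else D.ε x) := by
    split_ifs
    · exact le_rfl
    · exact D.hε x
  have h2 : (0:ℝ) ≤ (if x = D.x0 then 1 else 0) := by split_ifs <;> norm_num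
  linarith

/-- the wave `w = R e_{x0}` -/
noncomputable def ww (S : Finset Λ) (X : Λ → ℝ) (z : ℂ) : L2 Λ := RC D.T (D.cfg S X) z (eb D.x0)

/-- the bounded holomorphic functional -/
noncomputable def ff (S : Finset Λ) (X : Λ → ℝ) (z : ℂ) : ℂ := 1 + 2 * I * D.ww S X z D.x0

/-- the flux into the site `x` -/
noncomputable def ph (S : Finset Λ) (X : Λ → ℝ) (z : ℂ) (x : Λ) : ℝ :=
  4 * D.ε x * ‖D.ww S X z x‖ ^ 2

theorem ww_solves (S : Finset Λ) (X : Λ → ℝ) {z : ℂ} (hz : 0 < z.im) :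
    Solves D.T (D.cfg S X) z (D.ww S X z) (eb D.x0) :=
  RC_solves D.hT (D.adm_cfg S X) hz _

/-- energy identity for the wave -/
theorem hasSum_ww (S : Finset Λ) (X : Λ → ℝ) {z : ℂ} (hz : 0 < z.im) :
    HasSum (fun x => (if x ∈ S then 0 else D.ε x) * ‖D.ww S X z x‖ ^ 2)
      ((D.ww S X z D.x0).im - ‖D.ww S X z D.x0‖ ^ 2 - z.im * ‖D.ww S X z‖ ^ 2) := by
  have h := energy D.hT (D.ww_solves S X hz)
  rw [inner_eb] at h
  have h1 : HasSum (fun x => (if x = D.x0 then ‖D.ww S X z D.x0‖ ^ 2 else 0))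
      (‖D.ww S X z D.x0‖ ^ 2) := hasSum_ite_eq _ _
  have h2 := h.sub h1
  have h3 : (fun x => -(D.cfg S X x).im * ‖D.ww S X z x‖ ^ 2
      - (if x = D.x0 then ‖D.ww S X z D.x0‖ ^ 2 else 0))
      = fun x => (if x ∈ S then 0 else D.ε x) * ‖D.ww S X z x‖ ^ 2 := by
    funext x
    rw [D.cfg_im]
    by_cases hx : x = D.x0
    · subst hx; simp only [if_true]; ring
    · simp only [if_neg hx]; ring
  rw [h3] at h2
  have h4 : (D.ww S X z D.x0).im - z.im * ‖D.ww S X z‖ ^ 2 - ‖D.ww S X z D.x0‖ ^ 2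
      = (D.ww S X z D.x0).im - ‖D.ww S X z D.x0‖ ^ 2 - z.im * ‖D.ww S X z‖ ^ 2 := by ring
  rwa [h4] at h2

theorem one_sub_ff (S : Finset Λ) (X : Λ → ℝ) (z : ℂ) :
    1 - ‖D.ff S X z‖ ^ 2 = 4 * ((D.ww S X z D.x0).im - ‖D.ww S X z D.x0‖ ^ 2) := by
  have h := one_sub_normSq 1 (D.ww S X z D.x0)
  unfold ff
  simp only [Complex.ofReal_one, mul_one, one_mul] at h
  exact h

/-- flux identity -/
theorem hasSum_flux (S : Finset Λ) (X : Λ → ℝ) {z : ℂ} (hz : 0 < z.im) :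
    HasSum (fun x => (if x ∈ S then 0 else D.ε x) * ‖D.ww S X z x‖ ^ 2)
      ((1 - ‖D.ff S X z‖ ^ 2) / 4 - z.im * ‖D.ww S X z‖ ^ 2) := by
  have h := D.hasSum_ww S X hz
  have h1 := D.one_sub_ff S X z
  have h2 : (D.ww S X z D.x0).im - ‖D.ww S X z D.x0‖ ^ 2 - z.im * ‖D.ww S X z‖ ^ 2
      = (1 - ‖D.ff S X z‖ ^ 2) / 4 - z.im * ‖D.ww S X z‖ ^ 2 := by rw [h1]; ring
  rwa [h2] at h

theorem flux_nonneg (S : Finset Λ) (X : Λ → ℝ) {z : ℂ} (hz : 0 < z.im) :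
    z.im * ‖D.ww S X z‖ ^ 2 ≤ (1 - ‖D.ff S X z‖ ^ 2) / 4 := by
  have h := (D.hasSum_flux S X hz).nonneg fun x => by
    have : 0 ≤ (if x ∈ S then 0 else D.ε x) := by
      split_ifs
      · exact le_rfl
      · exact D.hε x
    positivity
  linarith

theorem norm_ff_le (S : Finset Λ) (X : Λ → ℝ) {z : ℂ} (hz : 0 < z.im) : ‖D.ff S X z‖ ≤ 1 := by
  have h := D.flux_nonneg S X hz
  have h1 : 0 ≤ z.im * ‖D.ww S X z‖ ^ 2 := by positivity
  have h2 : ‖D.ff S X z‖ ^ 2 ≤ 1 := by linarith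
  exact (sq_le_one_iff₀ (norm_nonneg _)).mp h2

theorem ph_nonneg (S : Finset Λ) (X : Λ → ℝ) (z : ℂ) (x : Λ) : 0 ≤ D.ph S X z x := by
  have := D.hε x
  unfold ph; positivity

theorem ph_le_one {S : Finset Λ} (X : Λ → ℝ) {z : ℂ} (hz : 0 < z.im) {x : Λ} (hx : x ∉ S) :
    D.ph S X z x ≤ 1 := by
  have h := D.hasSum_flux S X hz
  have h0 : ∀ y, 0 ≤ (if y ∈ S then 0 else D.ε y) * ‖D.ww S X z y‖ ^ 2 := fun y => by
    have : 0 ≤ (if y ∈ S then 0 else D.ε y) := by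
      split_ifs
      · exact le_rfl
      · exact D.hε y
    positivity
  have h1 := le_hasSum h x fun y _ => h0 y
  rw [if_neg hx] at h1
  have h2 : 0 ≤ z.im * ‖D.ww S X z‖ ^ 2 := by positivity
  have h3 : 0 ≤ ‖D.ff S X z‖ ^ 2 := by positivity
  unfold ph
  linarith

theorem norm_ww_x0_le (S : Finset Λ) (X : Λ → ℝ) {z : ℂ} (hz : 0 < z.im) :
    ‖D.ww S X z D.x0‖ ≤ 1 := by
  have h1 := D.norm_ff_le S X hz
  have h2 : 2 * I * D.ww S X z D.x0 = D.ff S X z - 1 := by unfold ff; ring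
  have h3 : ‖2 * I * D.ww S X z D.x0‖ = 2 * ‖D.ww S X z D.x0‖ := by
    rw [norm_mul]; simp
  have h4 : ‖D.ff S X z - 1‖ ≤ 1 + 1 := (norm_sub_le _ _).trans (by rw [norm_one]; linarith)
  rw [← h2, h3] at h4
  linarith

/-! ### Revealing one site -/

theorem cfg_insert {S : Finset Λ} {y : Λ} (hy : y ∉ S) (hy0 : y ≠ D.x0) (X : Λ → ℝ) (s : ℝ) :
    D.cfg (insert y S) (Function.update X y s)
      = Function.update (D.cfg S X) y ((D.W y + D.ε y * s : ℝ) : ℂ) := by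
  funext x
  by_cases h : x = y
  · subst h
    rw [Function.update_self]
    unfold cfg
    rw [if_pos (Finset.mem_insert_self _ _), if_neg hy0, Function.update_self]
    push_cast; ring
  · rw [Function.update_of_ne h]
    unfold cfg
    rw [Function.update_of_ne h]
    have : x ∈ insert y S ↔ x ∈ S := by rw [Finset.mem_insert]; simp [h]
    simp only [this]

theorem cfg_y {S : Finset Λ} {y : Λ} (hy : y ∉ S) (hy0 : y ≠ D.x0) (X : Λ → ℝ) :
    D.cfg S X y = (D.W y : ℂ) - I * D.ε y := by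
  unfold cfg
  rw [if_neg hy, if_neg hy0]; ring

/-- the diagonal Green function at `y` -/
noncomputable def gy (S : Finset Λ) (X : Λ → ℝ) (z : ℂ) (y : Λ) : ℂ := GG D.T (D.cfg S X) z y y

/-- the Möbius parameter at `y` -/
noncomputable def sy (S : Finset Λ) (X : Λ → ℝ) (z : ℂ) (y : Λ) : ℂ :=
  1 + 2 * I * D.ε y * D.gy S X z y

theorem delta {S : Finset Λ} {y : Λ} (hy : y ∉ S) (hy0 : y ≠ D.x0) (X : Λ → ℝ) (s : ℝ) :
    ((D.W y + D.ε y * s : ℝ) : ℂ) - D.cfg S X y = (D.ε y : ℂ) * (s + I) := by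
  rw [D.cfg_y hy hy0]; push_cast; ring

/-- lower bound for `1 - |s_y|²` -/
theorem sy_lower {S : Finset Λ} {y : Λ} (hy : y ∉ S) (hy0 : y ≠ D.x0) (X : Λ → ℝ) {z : ℂ}
    (hz : 0 < z.im) :
    4 * D.ε y * (z.im * ‖RC D.T (D.cfg S X) z (eb y)‖ ^ 2 + ‖D.ww S X z y‖ ^ 2)
      ≤ 1 - ‖D.sy S X z y‖ ^ 2 := by
  have h := energy D.hT (RC_solves D.hT (D.adm_cfg S X) hz (eb y))
  rw [inner_eb] at h
  set r := RC D.T (D.cfg S X) z (eb y) with hr
  have hnn : ∀ x, 0 ≤ -(D.cfg S X x).im * ‖r x‖ ^ 2 := fun x => by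
    have := D.adm_cfg S X x
    have : 0 ≤ -(D.cfg S X x).im := by linarith
    positivity
  have h1 := sum_le_hasSum {y, D.x0} (fun x _ => hnn x) h
  rw [Finset.sum_pair hy0] at h1
  rw [D.cfg_im, D.cfg_im, if_neg hy, if_neg hy0, if_pos rfl] at h1
  have h2 : r D.x0 = D.ww S X z y := by
    change GG D.T (D.cfg S X) z D.x0 y = GG D.T (D.cfg S X) z y D.x0
    exact GG_symm D.hT D.hr (D.adm_cfg S X) hz _ _
  have h3 : r y = D.gy S X z y := rfl
  rw [h2, h3] at h1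
  have h4 : (0:ℝ) ≤ (if D.x0 ∈ S then 0 else D.ε D.x0) := by
    split_ifs
    · exact le_rfl
    · exact D.hε _
  unfold sy
  rw [one_sub_normSq]
  have hε := D.hε y
  have h5 : z.im * ‖r‖ ^ 2 + ‖D.ww S X z y‖ ^ 2 ≤ (D.gy S X z y).im - D.ε y * ‖D.gy S X z y‖ ^ 2 := by
    have h6 : 0 ≤ (if D.x0 ∈ S then 0 else D.ε D.x0) * ‖D.ww S X z y‖ ^ 2 := by positivity
    nlinarith
  have h7 : 0 ≤ 4 * D.ε y := by positivity
  nlinarith

theorem norm_sy_lt {S : Finset Λ} {y : Λ} (hy : y ∉ S) (hy0 : y ≠ D.x0) (hε : 0 < D.ε y)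
    (X : Λ → ℝ) {z : ℂ} (hz : 0 < z.im) : ‖D.sy S X z y‖ < 1 := by
  have h := D.sy_lower hy hy0 X hz
  set r := RC D.T (D.cfg S X) z (eb y) with hr
  have hrne : r ≠ 0 := by
    intro h0
    have h1 := RC_solves D.hT (D.adm_cfg S X) hz (eb y) y
    rw [← hr, h0, map_zero, eb_apply, if_pos rfl] at h1
    simp at h1
  have h1 : 0 < ‖r‖ := norm_pos_iff.mpr hrne
  have h2 : 0 < 4 * D.ε y * (z.im * ‖r‖ ^ 2 + ‖D.ww S X z y‖ ^ 2) := by positivity
  have h3 : ‖D.sy S X z y‖ ^ 2 < 1 := by linarith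
  exact (sq_lt_one_iff₀ (norm_nonneg _)).mp h3

/-- the wave after revealing `y` -/
theorem ww_insert {S : Finset Λ} {y : Λ} (hy : y ∉ S) (hy0 : y ≠ D.x0) (X : Λ → ℝ) {z : ℂ}
    (hz : 0 < z.im) (s : ℝ) (x : Λ) :
    D.ww (insert y S) (Function.update X y s) z x = D.ww S X z x
      + (2 * I * D.ε y * D.ww S X z y * GG D.T (D.cfg S X) z x y) * bb (s : ℂ)
        / (1 - D.sy S X z y * bb (s : ℂ)) := by
  have hv : ((D.W y + D.ε y * s : ℝ) : ℂ).im ≤ 0 := by simp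
  have h1 : D.ww (insert y S) (Function.update X y s) z x
      = GG D.T (Function.update (D.cfg S X) y ((D.W y + D.ε y * s : ℝ) : ℂ)) z x D.x0 := by
    unfold ww GG
    rw [D.cfg_insert hy hy0]
  have hne := GG_update_ne D.hT (D.adm_cfg S X) hz y hv
  rw [h1, GG_update D.hT (D.adm_cfg S X) hz y hv]
  rw [D.delta hy hy0] at hne ⊢
  have h2 := mob2 (D.ε y) (GG D.T (D.cfg S X) z y y) hne
  have h3 : (D.ε y : ℂ) * (s + I) * GG D.T (D.cfg S X) z y D.x0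
      / (1 + D.ε y * (s + I) * GG D.T (D.cfg S X) z y y)
      = (D.ε y * (s + I) / (1 + D.ε y * (s + I) * GG D.T (D.cfg S X) z y y))
        * GG D.T (D.cfg S X) z y D.x0 := by ring
  rw [h3, h2]
  change GG D.T (D.cfg S X) z x D.x0 - _ = GG D.T (D.cfg S X) z x D.x0
    + (2 * I * D.ε y * GG D.T (D.cfg S X) z y D.x0 * GG D.T (D.cfg S X) z x y) * bb (s : ℂ)
        / (1 - (1 + 2 * I * D.ε y * GG D.T (D.cfg S X) z y y) * bb (s : ℂ))
  ring

/-- (b) Jensen for the wave -/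
theorem site_ww {S : Finset Λ} {y : Λ} (hy : y ∉ S) (hy0 : y ≠ D.x0) (X : Λ → ℝ) {z : ℂ}
    (hz : 0 < z.im) (x : Λ) :
    ‖D.ww S X z x‖ ^ 2 ≤ ∫ s, ‖D.ww (insert y S) (Function.update X y s) z x‖ ^ 2 ∂kap := by
  simp only [D.ww_insert hy hy0 X hz]
  rcases (D.hε y).eq_or_lt with hε | hε
  · simp [← hε]
  have hlt := D.norm_sy_lt hy hy0 hε X hz
  rw [int_mobius _ _ hlt]
  have h1 : ‖D.sy S X z y‖ ^ 2 < 1 := pow_lt_one₀ (norm_nonneg _) hlt two_ne_zero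
  have h2 : 0 < 1 - ‖D.sy S X z y‖ ^ 2 := by linarith
  have : 0 ≤ ‖2 * I * D.ε y * D.ww S X z y * GG D.T (D.cfg S X) z x y‖ ^ 2
    / (1 - ‖D.sy S X z y‖ ^ 2) := by positivity
  linarith

/-- (a) the gain in `|f|²` -/
theorem site_ff {S : Finset Λ} {y : Λ} (hy : y ∉ S) (hy0 : y ≠ D.x0) (X : Λ → ℝ) {z : ℂ}
    (hz : 0 < z.im) :
    ‖D.ff S X z‖ ^ 2 + D.ph S X z y ^ 2
      ≤ ∫ s, ‖D.ff (insert y S) (Function.update X y s) z‖ ^ 2 ∂kap := by
  have h0 : ∀ s : ℝ, D.ff (insert y S) (Function.update X y s) z = D.ff S X z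
      + (-(4 * D.ε y * D.ww S X z y ^ 2)) * bb (s : ℂ) / (1 - D.sy S X z y * bb (s : ℂ)) := by
    intro s
    unfold ff
    rw [D.ww_insert hy hy0 X hz]
    have h1 : GG D.T (D.cfg S X) z D.x0 y = D.ww S X z y :=
      GG_symm D.hT D.hr (D.adm_cfg S X) hz _ _
    rw [h1]
    have hI := Complex.I_sq
    have h2 : (2 * I * D.ε y * D.ww S X z y * D.ww S X z y) * bb (s : ℂ)
        / (1 - D.sy S X z y * bb (s : ℂ)) * (2 * I)
        = (-(4 * D.ε y * D.ww S X z y ^ 2)) * bb (s : ℂ) / (1 - D.sy S X z y * bb (s : ℂ)) := by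
      rw [div_mul_eq_mul_div]
      congr 1
      linear_combination (4 * D.ε y * D.ww S X z y ^ 2 * bb (s : ℂ)) * hI
    rw [← h2]
    ring
  simp only [h0]
  rcases (D.hε y).eq_or_lt with hε | hε
  · simp [← hε, ph]
  have hlt := D.norm_sy_lt hy hy0 hε X hz
  rw [int_mobius _ _ hlt]
  have h1 : ‖D.sy S X z y‖ ^ 2 < 1 := pow_lt_one₀ (norm_nonneg _) hlt two_ne_zero
  have h2 : 0 < 1 - ‖D.sy S X z y‖ ^ 2 := by linarith
  have h3 : ‖-(4 * (D.ε y : ℂ) * D.ww S X z y ^ 2)‖ = D.ph S X z y := by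
    rw [norm_neg, norm_mul, norm_mul, norm_pow, Complex.norm_real, Real.norm_of_nonneg (D.hε y)]
    unfold ph; norm_num
  rw [h3]
  have h4 : D.ph S X z y ^ 2 ≤ D.ph S X z y ^ 2 / (1 - ‖D.sy S X z y‖ ^ 2) := by
    rw [le_div_iff₀ h2]
    have : 0 ≤ D.ph S X z y ^ 2 := by positivity
    have : 0 ≤ ‖D.sy S X z y‖ ^ 2 := by positivity
    nlinarith
  linarith

end Data

end Pool.Agent.Lib.MP_562b47_mp.CN
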