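import Mathlib
import Pool.Agent.Lib.MP_562b47_mp.CNFinal
import Pool.Agent.Lib.MP_562b47_mp.CNGeom

/-!
The square lattice, an arbitrary background potential and an arbitrarily weak Cauchy noise: almost
surely the operator has no absolutely continuous spectrum.
-/

open MeasureTheory Complex
open scoped InnerProductSpace ComplexConjugate

namespace Pool.Agent.Results.MP_562b47_mp.PlanarCauchyNoise

/-- The sites of the square lattice. -/
abbrev Z2 : Type := Fin 2 → ℤ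

/-- The operator of the problem for `d = 2` with the potential `V` (here `V` may be unbounded):
`(H u)(j) = -∑_{|n| = 1} (u(j + n) - u(j)) + V_j u(j)`. -/
def ham (V : Z2 → ℝ) (u : Z2 → ℂ) (j : Z2) : ℂ :=
  -∑ i : Fin 2, ((u (j + Pi.single i 1) - u j) + (u (j - Pi.single i 1) - u j)) + (V j : ℂ) * u j

/-- `u ∈ ℓ²(ℤ²)`. -/
def SqSummable (u : Z2 → ℂ) : Prop := Summable fun j => ‖u j‖ ^ 2

/-- `u = (H - z)⁻¹ ψ`: `u ∈ ℓ²` solves `H u - z u = ψ` and is the only such element of `ℓ²`. -/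
def IsResolvent (V : Z2 → ℝ) (z : ℂ) (ψ u : Z2 → ℂ) : Prop :=
  SqSummable u ∧ (∀ j, ham V u j - z * u j = ψ j) ∧
    ∀ u', SqSummable u' → (∀ j, ham V u' j - z * u' j = ψ j) → u' = u

/-- `μ` is the spectral measure of `H` (self-adjoint on its maximal domain) and `ψ`: a finite Borel
measure with `⟨ψ, (H - z)⁻¹ ψ⟩ = ∫ dμ(l) / (l - z)` for every nonreal `z`, where the resolvent
exists for every nonreal `z`. -/
def IsSpectralMeasure (V : Z2 → ℝ) (ψ : Z2 → ℂ) (μ : Measure ℝ) : Prop :=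
  IsFiniteMeasure μ ∧ ∀ z : ℂ, z.im ≠ 0 → ∃ u, IsResolvent V z ψ u ∧
    ∑' j, conj (ψ j) * u j = ∫ l : ℝ, ((l : ℂ) - z)⁻¹ ∂μ

/-- `H` has purely singular spectrum: for every `ψ ∈ ℓ²` the spectral measure of `ψ` is singular
with respect to Lebesgue measure. -/
def PurelySingular (V : Z2 → ℝ) : Prop :=
  ∀ ψ : Z2 → ℂ, SqSummable ψ → ∃ μ : Measure ℝ, IsSpectralMeasure V ψ μ ∧ μ ⟂ₘ volume

/-- The law of the noise `(X_j)`, `j ∈ ℤ²`: independent standard Cauchy variables. -/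
noncomputable def noiseLaw : Measure (Z2 → ℝ) :=
  Measure.infinitePi fun _ => ProbabilityTheory.cauchyMeasure 0 1

/-- The `k`-th double circle: the sites `j` with `|j 0| + |j 1|` equal to `2 k + 1` or `2 k + 2`. -/
noncomputable def circle (k : ℕ) : Finset Z2 :=
  (Finset.Icc (fun _ => -(2 * (k : ℤ) + 2)) (fun _ => 2 * (k : ℤ) + 2)).filter fun j =>
    |j 0| + |j 1| = 2 * (k : ℤ) + 1 ∨ |j 0| + |j 1| = 2 * (k : ℤ) + 2

/-- The divergence criterion for the noise amplitudes `ε`: there are numbers `g k ≥ 0` with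
`∑ g k = ∞` such that, whenever `g k > 0`, the noise is present on the whole `k`-th double circle
and `g k · ∑_{j in the k-th double circle} (1 + 1 / ε j)² ≤ 1`. -/
def EnoughNoise (ε : Z2 → ℝ) : Prop :=
  ∃ g : ℕ → ℝ, (∀ k, 0 ≤ g k) ∧ ¬ Summable g ∧
    ∀ k, 0 < g k → (∀ j ∈ circle k, 0 < ε j) ∧ g k * ∑ j ∈ circle k, (1 + 1 / ε j) ^ 2 ≤ 1

theorem mem_circle (k : ℕ) (j : Z2) :
    j ∈ circle k ↔ 2 * k < Pool.Agent.Lib.MP_562b47_mp.CN.rho 0 j ∧
      Pool.Agent.Lib.MP_562b47_mp.CN.rho 0 j ≤ 2 * k + 2 := by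
  have h : ((Pool.Agent.Lib.MP_562b47_mp.CN.rho 0 j : ℕ) : ℤ) = |j 0| + |j 1| := by
    unfold Pool.Agent.Lib.MP_562b47_mp.CN.rho
    push_cast [Int.natCast_natAbs]
    simp
  have h0 := abs_nonneg (j 0)
  have h1 := abs_nonneg (j 1)
  have h2 := le_abs_self (j 0)
  have h3 := neg_abs_le (j 0)
  have h4 := le_abs_self (j 1)
  have h5 := neg_abs_le (j 1)
  unfold circle
  rw [Finset.mem_filter, Finset.mem_Icc, Pi.le_def, Pi.le_def, Fin.forall_fin_two, Fin.forall_fin_two]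
  constructor
  · rintro ⟨-, h6⟩
    constructor <;> omega
  · rintro ⟨h6, h7⟩
    refine ⟨⟨⟨?_, ?_⟩, ⟨?_, ?_⟩⟩, ?_⟩ <;> omega

theorem card_circle (k : ℕ) : ((circle k).card : ℝ) ≤ 16 * (k : ℝ) + 12 := by
  have h : circle k = Pool.Agent.Lib.MP_562b47_mp.CN.ringF 0 k := by
    ext j
    rw [mem_circle]
    simp [Pool.Agent.Lib.MP_562b47_mp.CN.ringF, and_comm]
  rw [h]
  exact_mod_cast Pool.Agent.Lib.MP_562b47_mp.CN.card_ringF 0 k

theorem sum_circle_le {ε : Z2 → ℝ} {k : ℕ} {a : ℝ} (ha : 0 < a) (h : ∀ j ∈ circle k, a ≤ ε j) :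
    ∑ j ∈ circle k, (1 + 1 / ε j) ^ 2 ≤ (1 + 1 / a) ^ 2 * (16 * (k : ℝ) + 12) := by
  have h1 : ∀ j ∈ circle k, (1 + 1 / ε j) ^ 2 ≤ (1 + 1 / a) ^ 2 := fun j hj => by
    have h2 := h j hj
    have h3 : 0 < ε j := ha.trans_le h2
    gcongr
  calc _ ≤ ∑ _j ∈ circle k, (1 + 1 / a) ^ 2 := Finset.sum_le_sum h1
    _ = (circle k).card * (1 + 1 / a) ^ 2 := by rw [Finset.sum_const, nsmul_eq_mul]
    _ ≤ (16 * (k : ℝ) + 12) * (1 + 1 / a) ^ 2 := by
        have := card_circle k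
        gcongr
    _ = _ := mul_comm _ _

/-- The criterion holds if `ε_j ≥ κ / √(log (2 + |j|))` for all sites `j`. -/
theorem enough_log {ε : Z2 → ℝ} {κ : ℝ} (hκ : 0 < κ)
    (hε : ∀ j, κ ≤ ε j * √(Real.log (2 + |(j 0 : ℝ)| + |(j 1 : ℝ)|))) : EnoughNoise ε := by
  refine ⟨fun k => 1 / ((1 + 1 / κ * √(Real.log (0 + 2 * k + 4))) ^ 2 * (16 * (k : ℝ) + 12)),
    fun k => by positivity,
    Pool.Agent.Lib.MP_562b47_mp.CN.not_summable_log (1 / κ) 0 (by positivity) le_rfl, ?_⟩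
  intro k _
  have hlog : 0 < Real.log (0 + 2 * k + 4) := by
    apply Real.log_pos
    have : (0:ℝ) ≤ k := Nat.cast_nonneg k
    linarith
  have hs := Real.sqrt_pos.mpr hlog
  have hlow : ∀ j ∈ circle k, κ / √(Real.log (0 + 2 * k + 4)) ≤ ε j := by
    intro j hj
    have h0 := hε j
    have h1 := ((mem_circle k j).mp hj).2
    have h : ((Pool.Agent.Lib.MP_562b47_mp.CN.rho 0 j : ℕ) : ℝ) = |(j 0 : ℝ)| + |(j 1 : ℝ)| := by
      unfold Pool.Agent.Lib.MP_562b47_mp.CN.rho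
      push_cast [Nat.cast_natAbs]
      simp
    have h2 : |(j 0 : ℝ)| + |(j 1 : ℝ)| ≤ 2 * k + 2 := by
      rw [← h]; exact_mod_cast h1
    have h3 : √(Real.log (2 + |(j 0 : ℝ)| + |(j 1 : ℝ)|)) ≤ √(Real.log (0 + 2 * k + 4)) := by
      apply Real.sqrt_le_sqrt
      apply Real.log_le_log (by positivity)
      linarith
    rw [div_le_iff₀ hs]
    by_cases h4 : 0 ≤ ε j
    · exact h0.trans (mul_le_mul_of_nonneg_left h3 h4)
    · push Not at h4
      have h5 := Real.sqrt_nonneg (Real.log (2 + |(j 0 : ℝ)| + |(j 1 : ℝ)|))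
      nlinarith
  refine ⟨fun j hj => (div_pos hκ hs).trans_le (hlow j hj), ?_⟩
  have h1 := sum_circle_le (div_pos hκ hs) hlow
  have h2 : 1 / (κ / √(Real.log (0 + 2 * k + 4))) = 1 / κ * √(Real.log (0 + 2 * k + 4)) := by
    field_simp
  rw [h2] at h1
  change 1 / ((1 + 1 / κ * √(Real.log (0 + 2 * k + 4))) ^ 2 * (16 * (k : ℝ) + 12))
    * ∑ j ∈ circle k, (1 + 1 / ε j) ^ 2 ≤ 1
  rw [one_div_mul_eq_div, div_le_one (by positivity)]
  exact h1

/-- The criterion holds if `ε_j ≥ κ` on the double circles with prime index. -/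
theorem enough_prime {ε : Z2 → ℝ} {κ : ℝ} (hκ : 0 < κ)
    (hε : ∀ p : ℕ, p.Prime → ∀ j ∈ circle p, κ ≤ ε j) : EnoughNoise ε := by
  classical
  set M := (1 + 1 / κ) ^ 2 with hM
  have hM0 : 0 < M := by positivity
  refine ⟨fun k => if k.Prime then 1 / (M * (16 * (k : ℝ) + 12)) else 0, fun k => ?_, ?_, ?_⟩
  · dsimp only
    split_ifs
    · positivity
    · exact le_rfl
  · intro hs
    apply not_summable_one_div_on_primes
    refine Summable.of_nonneg_of_le (fun n => ?_) (fun n => ?_) (hs.mul_left (28 * M))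
    · exact Set.indicator_nonneg (fun p _ => by positivity) n
    · by_cases hp : n.Prime
      · have hn : (1:ℝ) ≤ n := by exact_mod_cast hp.one_lt.le
        rw [Set.indicator_of_mem (by exact hp), if_pos hp, mul_one_div, div_le_div_iff₀
          (by positivity) (by positivity)]
        nlinarith
      · rw [Set.indicator_of_notMem (by exact hp), if_neg hp, mul_zero]
  · intro k hk
    dsimp only at hk ⊢
    by_cases hp : k.Prime
    · rw [if_pos hp]
      refine ⟨fun j hj => hκ.trans_le (hε k hp j hj), ?_⟩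
      have h1 := sum_circle_le hκ (hε k hp)
      rw [one_div_mul_eq_div, div_le_one (by positivity)]
      exact h1
    · rw [if_neg hp] at hk
      exact absurd hk (lt_irrefl _)

/-- For every background potential `W : ℤ² → ℝ` and all noise amplitudes `ε ≥ 0` with
`EnoughNoise ε` (the noise may vanish at most of the sites), the operator with the potential
`W_j + ε_j X_j` has almost surely purely singular spectrum.  By `enough_log` it is enough that
`ε_j ≥ κ / √(log (2 + |j|))` for all `j`, and by `enough_prime` it is enough that `ε_j ≥ κ` on the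
double circles with prime index. -/
theorem result (W ε : Z2 → ℝ) (hε0 : ∀ j, 0 ≤ ε j) (hN : EnoughNoise ε) :
    ∀ᵐ X ∂noiseLaw, PurelySingular fun j => W j + ε j * X j := by
  classical
  obtain ⟨g, hg0, hgs, hg⟩ := hN
  have hT := Pool.Agent.Lib.MP_562b47_mp.isSelfAdjoint_lapL 2
  have hr := Pool.Agent.Lib.MP_562b47_mp.lapL_star 2
  set T := Pool.Agent.Lib.MP_562b47_mp.lapL 2 with hTdef
  have hT0 := norm_nonneg T
  set C : ℝ := max 1 ‖T‖ with hC
  have hC1 : 1 ≤ C := le_max_left _ _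
  have hCT : ‖T‖ ≤ C := le_max_right _ _
  have hC0 : 0 < C := zero_lt_one.trans_le hC1
  have key := Pool.Agent.Lib.MP_562b47_mp.CN.main hT hr W ε hε0 (fun x0 => by
    refine ⟨Pool.Agent.Lib.MP_562b47_mp.CN.rho 0, Pool.Agent.Lib.MP_562b47_mp.CN.ballF 0,
      circle, Pool.Agent.Lib.MP_562b47_mp.CN.rho 0 x0, fun k => g k / C ^ 2, ?_⟩
    constructor
    · change Pool.Agent.Lib.MP_562b47_mp.CN.rho 0 x0 ≤ _
      omega
    · exact Pool.Agent.Lib.MP_562b47_mp.CN.loc_lap 0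
    · intro k x
      simp [Pool.Agent.Lib.MP_562b47_mp.CN.ballF]
    · exact mem_circle
    · intro k
      have := hg0 k
      positivity
    · intro k hk
      have h1 : 0 < g k := by
        rcases (hg0 k).eq_or_lt with h | h
        · rw [← h, zero_div] at hk
          exact absurd hk (lt_irrefl _)
        · exact h
      exact (hg k h1).1
    · intro k
      rcases (hg0 k).eq_or_lt with h | h
      · rw [← h]; simp
      · obtain ⟨h1, h2⟩ := hg k h
        have h3 : ∑ x ∈ circle k, (1 + ‖T‖ / ε x) ^ 2 ≤ C ^ 2 * ∑ x ∈ circle k, (1 + 1 / ε x) ^ 2 := by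
          rw [Finset.mul_sum]
          refine Finset.sum_le_sum fun x hx => ?_
          have hx0 := h1 x hx
          rw [← mul_pow]
          have h4 : ‖T‖ / ε x ≤ C / ε x := by gcongr
          have h5 : 1 + ‖T‖ / ε x ≤ C * (1 + 1 / ε x) := by
            rw [mul_add, mul_one, mul_one_div]
            linarith
          gcongr
        change g k / C ^ 2 * ∑ x ∈ circle k, (1 + ‖T‖ / ε x) ^ 2 ≤ 1
        calc _ ≤ g k / C ^ 2 * (C ^ 2 * ∑ x ∈ circle k, (1 + 1 / ε x) ^ 2) := by gcongr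
          _ = g k * ∑ x ∈ circle k, (1 + 1 / ε x) ^ 2 := by field_simp
          _ ≤ 1 := h2
    · intro hs
      apply hgs
      refine (hs.mul_left (C ^ 2)).congr fun k => ?_
      field_simp)
  filter_upwards [key] with X hX
  intro ψ hψ
  set V : Z2 → ℝ := fun j => W j + ε j * X j with hV
  set ψ' : Pool.Agent.Lib.MP_562b47_mp.L2 Z2 :=
    ⟨ψ, Pool.Agent.Lib.MP_562b47_mp.memL2_of_summable hψ⟩ with hψ'
  obtain ⟨μ, hfin, hrep, hsing⟩ := hX ψ'
  refine ⟨μ, ⟨hfin, fun z hz => ?_⟩, hsing⟩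
  have hsol := Pool.Agent.Lib.MP_562b47_mp.CN.RR_solves hT hr V hz ψ'
  set u := Pool.Agent.Lib.MP_562b47_mp.CN.RR T V z ψ' with hu
  refine ⟨u, ⟨Pool.Agent.Lib.MP_562b47_mp.L2_summable u, ?_, ?_⟩, ?_⟩
  · intro j
    have h1 := hsol j
    rw [Pool.Agent.Lib.MP_562b47_mp.lapL_apply] at h1
    exact h1
  · intro u' hu' hj
    have h1 : Pool.Agent.Lib.MP_562b47_mp.CN.Solves T (fun x => (V x : ℂ)) z
        ⟨u', Pool.Agent.Lib.MP_562b47_mp.memL2_of_summable hu'⟩ ψ' := by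
      intro j
      rw [Pool.Agent.Lib.MP_562b47_mp.lapL_apply]
      exact hj j
    have h2 := h1.unique_real hT hz hsol
    rw [← h2]
  · have h1 := hrep z hz
    rw [← h1, lp.inner_eq_tsum]
    refine tsum_congr fun j => ?_
    rw [RCLike.inner_apply, mul_comm]

end Pool.Agent.Results.MP_562b47_mp.PlanarCauchyNoise
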