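import Mathlib
import Pool.Agent.Lib.MP_562b47_mp.Str.InfB
import Pool.Agent.Lib.MP_562b47_mp.Str.GLat

/-!
The Anderson operator with the uniform law on `[-c, c]`, for every `c > 0`, restricted to an infinite
thin region `Γ` of `ℤ^d`: almost surely there is no absolutely continuous spectrum.
-/

open MeasureTheory Complex
open scoped InnerProductSpace ComplexConjugate

namespace Pool.Agent.Results.MP_562b47_mp.ThinRegions

/-- The sites of the lattice `ℤ^d`, `d = D + 1`. -/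
abbrev Zd (D : ℕ) : Type := Fin (D + 1) → ℤ

/-- `u : Γ → ℂ`, extended by zero to `ℤ^d`. -/
noncomputable def extend {D : ℕ} (Γ : Set (Zd D)) (u : Γ → ℂ) (j : Zd D) : ℂ :=
  open Classical in if h : j ∈ Γ then u ⟨j, h⟩ else 0

/-- The operator of the problem on the region `Γ` (zero boundary condition) with the potential `V`:
`(H u)(j) = -∑_{|n| = 1} (u(j + n) - u(j)) + V_j u(j)`, `j ∈ Γ`, where `u = 0` outside `Γ`. -/
noncomputable def ham {D : ℕ} (Γ : Set (Zd D)) (V : Γ → ℝ) (u : Γ → ℂ) (j : Γ) : ℂ :=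
  -∑ i : Fin (D + 1), ((extend Γ u (j.1 + Pi.single i 1) - u j)
    + (extend Γ u (j.1 - Pi.single i 1) - u j)) + (V j : ℂ) * u j

/-- `u ∈ ℓ²(Γ)`. -/
def SqSummable {D : ℕ} {Γ : Set (Zd D)} (u : Γ → ℂ) : Prop := Summable fun j => ‖u j‖ ^ 2

/-- `u = (H - z)⁻¹ ψ`: `u ∈ ℓ²(Γ)` solves `H u - z u = ψ` and is the only such element of `ℓ²(Γ)`. -/
def IsResolvent {D : ℕ} (Γ : Set (Zd D)) (V : Γ → ℝ) (z : ℂ) (ψ u : Γ → ℂ) : Prop :=
  SqSummable u ∧ (∀ j, ham Γ V u j - z * u j = ψ j) ∧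
    ∀ u', SqSummable u' → (∀ j, ham Γ V u' j - z * u' j = ψ j) → u' = u

/-- `μ` is the spectral measure of `H` and `ψ`: a finite Borel measure with
`⟨ψ, (H - z)⁻¹ ψ⟩ = ∫ dμ(l) / (l - z)` for every nonreal `z`. -/
def IsSpectralMeasure {D : ℕ} (Γ : Set (Zd D)) (V : Γ → ℝ) (ψ : Γ → ℂ) (μ : Measure ℝ) : Prop :=
  IsFiniteMeasure μ ∧ ∀ z : ℂ, z.im ≠ 0 → ∃ u, IsResolvent Γ V z ψ u ∧
    ∑' j, conj (ψ j) * u j = ∫ l : ℝ, ((l : ℂ) - z)⁻¹ ∂μ

/-- `H` has purely singular spectrum: for every `ψ ∈ ℓ²(Γ)` the spectral measure of `ψ` is singular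
with respect to Lebesgue measure. -/
def PurelySingular {D : ℕ} (Γ : Set (Zd D)) (V : Γ → ℝ) : Prop :=
  ∀ ψ : Γ → ℂ, SqSummable ψ → ∃ μ : Measure ℝ, IsSpectralMeasure Γ V ψ μ ∧ μ ⟂ₘ volume

/-- The law of independent random variables `ω_j`, `j ∈ Γ`, uniformly distributed on `[-c, c]`. -/
noncomputable def law {D : ℕ} (Γ : Set (Zd D)) (c : ℝ) : Measure (Γ → ℝ) :=
  Measure.infinitePi fun _ => (ENNReal.ofReal (2 * c))⁻¹ • volume.restrict (Set.Icc (-c) c)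

/-- The layer `{j ∈ Γ : |j_1| = n}` (the first coordinate of `j : Fin (D + 1) → ℤ` is `j 0`). -/
def layer {D : ℕ} (Γ : Set (Zd D)) (n : ℕ) : Set (Zd D) := {j ∈ Γ | (j 0).natAbs = n}

/-- The region widens (weakly) in the direction of the first coordinate, on both sides: if `j ∈ Γ`
then `j + e_1 ∈ Γ` if `j_1 ≥ 0` and `j - e_1 ∈ Γ` if `j_1 < 0`. -/
def Widening {D : ℕ} (Γ : Set (Zd D)) : Prop :=
  ∀ j ∈ Γ, (0 ≤ j 0 → j + Pi.single 0 1 ∈ Γ) ∧ (j 0 < 0 → j - Pi.single 0 1 ∈ Γ)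

/-- For some `δ > 0` there are arbitrarily large `n` with `#{j ∈ Γ : |j_1| = n} ≤ n^(1/2 - δ)`; all
the layers are finite. -/
def Thin {D : ℕ} (Γ : Set (Zd D)) : Prop :=
  (∀ n, (layer Γ n).Finite) ∧ ∃ δ : ℝ, 0 < δ ∧
    ∀ n0 : ℕ, ∃ n, n0 ≤ n ∧ ((layer Γ n).ncard : ℝ) ≤ (n : ℝ) ^ (1 / 2 - δ)

/-- Let `Γ ⊆ ℤ^d` be a widening, thin region, `c > 0`, and let `W` be any bounded background
potential on `Γ`.  Then for almost every `ω` (independent, uniform on `[-c, c]`) the operator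
`H u = -∑_{|n| = 1} (u(· + n) - u) + (W + ω) u` on `ℓ²(Γ)` has purely singular spectrum. -/
theorem result {D : ℕ} (Γ : Set (Zd D)) (hw : Widening Γ) (ht : Thin Γ) {c : ℝ} (hc : 0 < c)
    (W : Γ → ℝ) (hW : ∃ K : ℝ, ∀ j, |W j| ≤ K) :
    ∀ᵐ ω ∂(law Γ c), PurelySingular Γ fun j => W j + ω j := by
  classical
  obtain ⟨K, hK⟩ := hW
  obtain ⟨hfin, δ, hδ, hthin⟩ := ht
  obtain ⟨T, t, up, hG, hTa⟩ := Pool.Agent.Lib.MP_562b47_mp.Str.lat_gph Γ hw hfin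
  have key := Pool.Agent.Lib.MP_562b47_mp.Str.inf_singular (RW := K) hc
    (by positivity : (0:ℝ) ≤ 4 * ((D:ℝ) + 1)) hδ hG (W := W) hK (by
      intro n0
      obtain ⟨n, hn, h⟩ := hthin n0
      refine ⟨n, hn, ?_⟩
      rw [Pool.Agent.Lib.MP_562b47_mp.Str.wid_layG]
      exact h)
  filter_upwards [key] with X hX
  intro ψ hψ
  set V : Γ → ℝ := fun j => W j + X j with hV
  set ψ' : Pool.Agent.Lib.MP_562b47_mp.L2 Γ :=
    ⟨ψ, Pool.Agent.Lib.MP_562b47_mp.memL2_of_summable hψ⟩ with hψ'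
  obtain ⟨μ, hfin, hrep, hsing⟩ := hX ψ'
  refine ⟨μ, ⟨hfin, fun z hz => ?_⟩, hsing⟩
  have hsol := Pool.Agent.Lib.MP_562b47_mp.CN.RR_solves hG.hT hG.hr V hz ψ'
  set u := Pool.Agent.Lib.MP_562b47_mp.CN.RR T V z ψ' with hu
  refine ⟨u, ⟨Pool.Agent.Lib.MP_562b47_mp.L2_summable u, ?_, ?_⟩, ?_⟩
  · intro j
    have h1 := hsol j
    rw [hTa] at h1
    exact h1
  · intro u' hu' hj
    have h1 : Pool.Agent.Lib.MP_562b47_mp.CN.Solves T (fun x => (V x : ℂ)) z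
        ⟨u', Pool.Agent.Lib.MP_562b47_mp.memL2_of_summable hu'⟩ ψ' := by
      intro j
      rw [hTa]
      exact hj j
    have h2 := h1.unique_real hG.hT hz hsol
    rw [← h2]
  · have h1 := hrep z hz
    rw [← h1, lp.inner_eq_tsum]
    refine tsum_congr fun j => ?_
    rw [RCLike.inner_apply, mul_comm]

end Pool.Agent.Results.MP_562b47_mp.ThinRegions
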