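import Mathlib
import Pool.Agent.Lib.MP_562b47_mp.WindowB

/-!
The Anderson model on `ℤ^d` with uniformly distributed potential, `d ≥ 1`, at an arbitrary disorder
strength `c > 0`.  Bounds on the transport: it is never ballistic, and, unless the operator is
almost surely purely singular, the (time averaged) mean square displacement grows faster than
`T^{2/d}` (so it is superdiffusive for `d = 2`).

The Hilbert space `ℓ²(ℤ^d)` is given as a complex Hilbert space `V` with a Hilbert basis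
`(b j)`, `j ∈ ℤ^d` (for `V = ℓ²(ℤ^d)`: `b j` is the unit vector `δ_j`).
-/

open MeasureTheory Complex Filter Topology
open scoped InnerProductSpace ENNReal

namespace Pool.Agent.Results.MP_562b47_mp.TransportWindow

/-- The uniform distribution on `[-c, c]`. -/
noncomputable def unifLaw (c : ℝ) : Measure ℝ :=
  (ENNReal.ofReal (2 * c))⁻¹ • volume.restrict (Set.Icc (-c) c)

/-- The law of the random potential `(ω_j)`, `j ∈ ℤ^d`: independent coordinates, each uniformly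
distributed on `[-c, c]`. -/
noncomputable def potLaw (d : ℕ) (c : ℝ) : Measure ((Fin d → ℤ) → ℝ) :=
  Measure.infinitePi fun _ => unifLaw c

/-- `H` is the operator `Δ_ω` on the Hilbert space with orthonormal basis `b j = δ_j`, `j ∈ ℤ^d`:
`H δ_j = - ∑_{|n| = 1} (δ_{j + n} - δ_j) + ω_j δ_j`. -/
def IsDelta {d : ℕ} {V : Type*} [NormedAddCommGroup V] [InnerProductSpace ℂ V]
    (b : HilbertBasis (Fin d → ℤ) ℂ V) (ω : (Fin d → ℤ) → ℝ) (H : V →L[ℂ] V) : Prop :=
  ∀ j : Fin d → ℤ, H (b j) = -∑ i : Fin d, ((b (j + Pi.single i 1) - b j)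
    + (b (j - Pi.single i 1) - b j)) + (ω j : ℂ) • b j

/-- `μ` is the spectral measure of the vector `u` for the bounded self-adjoint operator `H`: it is
finite and `∫ f dμ = ⟨u, f(H) u⟩` for all bounded continuous `f : ℝ → ℝ`. -/
def IsSpectralMeasure {V : Type*} [NormedAddCommGroup V] [InnerProductSpace ℂ V] [CompleteSpace V]
    (H : V →L[ℂ] V) (u : V) (μ : Measure ℝ) : Prop :=
  IsFiniteMeasure μ ∧
    ∀ f : BoundedContinuousFunction ℝ ℝ, ((∫ x, f x ∂μ : ℝ) : ℂ) = ⟪u, cfc (⇑f) H u⟫_ℂ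

/-- `H` has purely singular spectrum: the spectral measure of every vector is singular with respect
to Lebesgue measure. -/
def PurelySingular {V : Type*} [NormedAddCommGroup V] [InnerProductSpace ℂ V] [CompleteSpace V]
    (H : V →L[ℂ] V) : Prop :=
  ∀ (u : V) (μ : Measure ℝ), IsSpectralMeasure H u μ → μ ⟂ₘ volume

/-- The square displacement at time `t` of the particle which starts at the origin:
`∑_x |x|² |⟨δ_x, e^{-itH} δ_0⟩|²`, with the Euclidean norm `|x|`. -/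
noncomputable def sqDisplacement {d : ℕ} {V : Type*} [NormedAddCommGroup V]
    [InnerProductSpace ℂ V] [CompleteSpace V] (b : HilbertBasis (Fin d → ℤ) ℂ V) (H : V →L[ℂ] V)
    (t : ℝ) : ℝ≥0∞ :=
  ∑' x : Fin d → ℤ, ENNReal.ofReal (∑ i, (x i : ℝ) ^ 2)
    * ‖⟪b x, NormedSpace.exp ((-(t : ℂ) * I) • H) (b 0)⟫_ℂ‖ₑ ^ 2

/-- The mean square displacement at time `t`: the expectation of the square displacement. -/
noncomputable def meanSqDisplacement {d : ℕ} {V : Type*} [NormedAddCommGroup V]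
    [InnerProductSpace ℂ V] [CompleteSpace V] (c : ℝ) (b : HilbertBasis (Fin d → ℤ) ℂ V)
    (Δ : ((Fin d → ℤ) → ℝ) → (V →L[ℂ] V)) (t : ℝ) : ℝ≥0∞ :=
  ∫⁻ ω, sqDisplacement b (Δ ω) t ∂(potLaw d c)

/-- Let `d ≥ 1` and `c > 0`, and let `M(t)` be the mean square displacement.  The family `Δ_ω`
exists, and `M(T) / T² → 0`; and `Δ_ω` is almost surely purely singular or
`∫_0^T M(t) dt / T^{1 + 2/d} → ∞`. -/
theorem result (d : ℕ) (hd : 1 ≤ d) (c : ℝ) (hc : 0 < c) {V : Type*} [NormedAddCommGroup V]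
    [InnerProductSpace ℂ V] [CompleteSpace V] (b : HilbertBasis (Fin d → ℤ) ℂ V) :
    (∃ Δ : ((Fin d → ℤ) → ℝ) → (V →L[ℂ] V),
      ∀ᵐ ω ∂(potLaw d c), IsDelta b ω (Δ ω) ∧ IsSelfAdjoint (Δ ω)) ∧
    ∀ Δ : ((Fin d → ℤ) → ℝ) → (V →L[ℂ] V), (∀ᵐ ω ∂(potLaw d c), IsDelta b ω (Δ ω)) →
      Tendsto (fun T : ℝ => meanSqDisplacement c b Δ T / ENNReal.ofReal (T ^ 2)) atTop (𝓝 0) ∧
      ((∀ᵐ ω ∂(potLaw d c), PurelySingular (Δ ω)) ∨
        Tendsto (fun T : ℝ => (∫⁻ t in Set.Ioc 0 T, meanSqDisplacement c b Δ t)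
          / ENNReal.ofReal (T ^ (1 + 2 / (d : ℝ)))) atTop (𝓝 ⊤)) := by
  have hIcc := Pool.Agent.Lib.MP_562b47_mp.ae_mem_Icc (d := d) hc
  refine ⟨⟨Pool.Agent.Lib.MP_562b47_mp.HB b c, ?_⟩, fun Δ hΔ => ?_⟩
  · filter_upwards [hIcc] with ω hω
    exact ⟨Pool.Agent.Lib.MP_562b47_mp.HB_basis' b hω,
      Pool.Agent.Lib.MP_562b47_mp.isSelfAdjoint_HB b hc ω⟩
  · have hae : ∀ᵐ ω ∂(potLaw d c), Δ ω = Pool.Agent.Lib.MP_562b47_mp.HB b c ω := by
      filter_upwards [hIcc, hΔ] with ω hω h2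
      refine Pool.Agent.Lib.MP_562b47_mp.eq_HB_of_basis b fun j => ?_
      rw [Pool.Agent.Lib.MP_562b47_mp.HB_basis' b hω]
      exact h2 j
    have hmsd : ∀ t, meanSqDisplacement c b Δ t
        = ∫⁻ ω, Pool.Agent.Lib.MP_562b47_mp.sqd d c t ω
          ∂(Pool.Agent.Lib.MP_562b47_mp.PP (Fin d → ℤ) c) := by
      intro t
      unfold meanSqDisplacement
      refine lintegral_congr_ae ?_
      filter_upwards [hae] with ω hω
      rw [hω]
      exact Pool.Agent.Lib.MP_562b47_mp.sqd_HB b c ω t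
    simp_rw [hmsd]
    refine ⟨Pool.Agent.Lib.MP_562b47_mp.no_ballistic hc, ?_⟩
    by_cases hns : ∀ᵐ ω ∂(Pool.Agent.Lib.MP_562b47_mp.PP (Fin d → ℤ) c), ∀ μ : Measure ℝ,
        IsFiniteMeasure μ → Pool.Agent.Lib.MP_562b47_mp.IsSpec
          (Pool.Agent.Lib.MP_562b47_mp.HH d c ω) (Pool.Agent.Lib.MP_562b47_mp.ee d 0) μ →
        μ ⟂ₘ volume
    · left
      filter_upwards [Pool.Agent.Lib.MP_562b47_mp.singular_HB b hc hns, hae] with ω h1 h2 u μ hμ
      rw [h2] at hμ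
      exact h1 u μ hμ.1 hμ.2
    · right
      rw [ENNReal.tendsto_nhds_top_iff_nnreal]
      intro A
      obtain ⟨T₀, hT₀⟩ := Pool.Agent.Lib.MP_562b47_mp.lower_bound hd hc hns (A + 1)
      filter_upwards [eventually_ge_atTop T₀, eventually_ge_atTop 1] with T h1 h2
      have h3 := hT₀ T h1
      have hpos : 0 < T ^ (1 + 2 / (d : ℝ)) := Real.rpow_pos_of_pos (by linarith) _
      rw [ENNReal.ofReal_mul (by positivity)] at h3
      have h4 : ENNReal.ofReal ((A : ℝ) + 1) ≤ (∫⁻ t in Set.Ioc 0 T,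
          ∫⁻ ω, Pool.Agent.Lib.MP_562b47_mp.sqd d c t ω
          ∂(Pool.Agent.Lib.MP_562b47_mp.PP (Fin d → ℤ) c))
          / ENNReal.ofReal (T ^ (1 + 2 / (d : ℝ))) :=
        (ENNReal.le_div_iff_mul_le (Or.inl (by simpa using hpos))
          (Or.inl ENNReal.ofReal_ne_top)).mpr h3
      refine lt_of_lt_of_le ?_ h4
      rw [ENNReal.ofReal_add (by positivity) zero_le_one, ENNReal.ofReal_coe_nnreal,
        ENNReal.ofReal_one]
      exact ENNReal.lt_add_right ENNReal.coe_ne_top one_ne_zero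

end Pool.Agent.Results.MP_562b47_mp.TransportWindow
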